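import Pool.Agent.Mg.Febf981.G807bb7

namespace Pool.Agent.MP_ebf981_lc.N9

open Finset

/-- value of a polynomial given by its coefficients -/
noncomputable def ev_NIok : List ℤ → ℝ → ℝ
  | [], _ => 0
  | c :: p, x => c + x * ev_NIok p x

def ad_NIok (x : ℤ) : ℤ → List ℤ → List ℤ
  | c, [] => [c]
  | c, d :: q => (c + x * d) :: ad_NIok x d q

/-- Taylor shift -/
def sh_NIok (x : ℤ) : List ℤ → List ℤ
  | [] => []
  | c :: p => ad_NIok x c (sh_NIok x p)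

/-- lower bound on the unit interval -/
def lb_NIok : List ℤ → ℤ
  | [] => 0
  | c :: p => c + min 0 (lb_NIok p)

def pos_NIok (p : List ℤ) (a n : ℕ) : Bool :=
  (List.range n).all fun i => decide (0 ≤ lb_NIok (sh_NIok ((a + i : ℕ) : ℤ) p))

theorem ev_ad_NIok (x : ℤ) (t : ℝ) (q : List ℤ) :
    ∀ c, ev_NIok (ad_NIok x c q) t = c + (x + t) * ev_NIok q t := by
  induction q with
  | nil => simp [ad_NIok, ev_NIok]
  | cons d q ih => intro c; simp only [ad_NIok, ev_NIok, ih]; push_cast; ring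

theorem ev_sh_NIok (x : ℤ) (t : ℝ) (p : List ℤ) :
    ev_NIok (sh_NIok x p) t = ev_NIok p (x + t) := by
  induction p with
  | nil => rfl
  | cons c p ih => simp only [sh_NIok, ev_NIok, ev_ad_NIok, ih]

theorem lb_le_NIok {t : ℝ} (h0 : 0 ≤ t) (h1 : t ≤ 1) (p : List ℤ) :
    (lb_NIok p : ℝ) ≤ ev_NIok p t := by
  induction p with
  | nil => simp [lb_NIok, ev_NIok]
  | cons c p ih =>
    simp only [lb_NIok, ev_NIok]
    push_cast
    have h2 := min_le_left (0 : ℝ) (lb_NIok p)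
    have h3 := (min_le_right (0 : ℝ) (lb_NIok p)).trans ih
    nlinarith [mul_le_mul_of_nonneg_left h3 h0]

theorem pos_sound_NIok {p : List ℤ} {a n : ℕ} (h : pos_NIok p a (n + 1) = true) {u : ℝ}
    (h0 : (a : ℝ) ≤ u) (h1 : u ≤ a + (n + 1)) : 0 ≤ ev_NIok p u := by
  simp only [pos_NIok, List.all_eq_true, List.mem_range, decide_eq_true_eq] at h
  have key : ∀ i < n + 1, (a : ℝ) + i ≤ u → u ≤ a + i + 1 → 0 ≤ ev_NIok p u := fun i hi h2 h3 => by
    have h4 := lb_le_NIok (t := u - (a + i)) (by linarith) (by linarith)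
      (sh_NIok ((a + i : ℕ) : ℤ) p)
    rw [ev_sh_NIok] at h4
    have h5 : (0 : ℝ) ≤ lb_NIok (sh_NIok ((a + i : ℕ) : ℤ) p) := by exact_mod_cast h i hi
    have e : (((a + i : ℕ) : ℤ) : ℝ) + (u - (a + i)) = u := by push_cast; ring
    rw [e] at h4
    exact h5.trans h4
  have h6 := Nat.floor_le (show 0 ≤ u - a by linarith)
  have h7 := Nat.lt_floor_add_one (u - a)
  by_cases hn : ⌊u - a⌋₊ < n + 1
  · exact key _ hn (by linarith) (by linarith)
  · have h8 : ((n + 1 : ℕ) : ℝ) ≤ ⌊u - a⌋₊ := by exact_mod_cast not_lt.1 hn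
    push_cast at h8
    exact key n n.lt_succ_self (by linarith) (by linarith)

theorem tail_NIok {b : ℝ} (h0 : 0 ≤ b) (h1 : b ≤ 245 / 256) (j : ℕ) :
    ((79 : ℝ) + j) ^ 4 * b ^ (2 * (77 + j)) ≤ 79 ^ 4 * b ^ 154 := by
  induction j with
  | zero => simp
  | succ j ih =>
    refine le_trans ?_ ih
    have hj : (0 : ℝ) ≤ j := j.cast_nonneg
    have h2 : ((79 : ℝ) + (j + 1 : ℕ)) ^ 4 ≤ (80 / 79 * (79 + j)) ^ 4 :=
      pow_le_pow_left₀ (by positivity) (by push_cast; linarith) 4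
    have h3 : b ^ 2 ≤ (245 / 256) ^ 2 := pow_le_pow_left₀ h0 h1 2
    have h4 : 0 ≤ b ^ (2 * (77 + j)) := pow_nonneg h0 _
    calc ((79 : ℝ) + (j + 1 : ℕ)) ^ 4 * b ^ (2 * (77 + (j + 1)))
        = (79 + (j + 1 : ℕ)) ^ 4 * b ^ 2 * b ^ (2 * (77 + j)) := by ring
      _ ≤ (80 / 79 * (79 + j)) ^ 4 * (245 / 256) ^ 2 * b ^ (2 * (77 + j)) := by gcongr
      _ = (80 / 79) ^ 4 * (245 / 256) ^ 2 * ((79 + j) ^ 4 * b ^ (2 * (77 + j))) := by ring
      _ ≤ _ := mul_le_of_le_one_left (by positivity) (by norm_num)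

/-- the whole check -/
def chk_NIok (A n β bb cc L C0 C1 m0 m1 M : ℕ) : Bool :=
  decide (0 < L ∧ A + (n + 1) ≤ 245 ∧ 3 ≤ β ∧ 1000 * C0 * (n + 1) ^ 2 ≤ 8 * 256 ^ 2 * m0 ∧
    1000 * C1 * (n + 1) ^ 2 ≤ 8 * 256 ^ 2 * m1 ∧
    79 ^ 4 * 10 ^ 6 * (A + (n + 1)) ^ 154 ≤ 2 * L * M * 256 ^ 154) &&
  pos_NIok [cc * 256 ^ 7, bb * 256 ^ 6 - ((72 - β) * 256 ^ 3) ^ 2,
    -(2 * ((72 - β) * 256 ^ 3) * (504 * 256 ^ 2)),
    -(2 * ((72 - β) * 256 ^ 3) * (504 * 256) + (504 * 256 ^ 2) ^ 2),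
    -(2 * ((72 - β) * 256 ^ 3) * 72 + 2 * (504 * 256 ^ 2) * (504 * 256)),
    -(2 * (504 * 256 ^ 2) * 72 + (504 * 256) ^ 2), -(2 * (504 * 256) * 72), -72 ^ 2] 0 (255 + 1) &&
  pos_NIok [-(L * cc * 256 ^ 8), 0, -((144000000 + L * bb) * 256 ^ 6), 0, 0,
    2000000 * C0 * 256 ^ 3, -(1008000000 * 256 ^ 2), 0, -360000000] A (n + 1) &&
  pos_NIok [0, 0, L * bb * 256 ^ 4, 0, 0, 2000000 * C1 * 256, -(L * bb + 2000000 * M)] A (n + 1) &&
  (List.range 77).all fun j => decide (((j + 2) ^ 4 * 10 ^ 6 + 2 * L * 216 * (j + 2)) *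
    (A + (n + 1)) ^ (2 * j) ≤ 2 * L * M * 256 ^ (2 * j) +
      2 * L * β * (j + 2) ^ 2 * (A + (n + 1)) ^ (2 * j))

theorem lev_NIok {B β L M : ℕ} (hL : 0 < L) (hB : B ≤ 245) (hβ : 3 ≤ β)
    (ht : 79 ^ 4 * 10 ^ 6 * B ^ 154 ≤ 2 * L * M * 256 ^ 154)
    (hk : ∀ j < 77, ((j + 2) ^ 4 * 10 ^ 6 + 2 * L * 216 * (j + 2)) * B ^ (2 * j) ≤
      2 * L * M * 256 ^ (2 * j) + 2 * L * β * (j + 2) ^ 2 * B ^ (2 * j)) (j : ℕ) :
    ((B : ℝ) / 256) ^ (2 * j) * (((j : ℝ) + 2) ^ 4 / (2 * (L / 10 ^ 6)) - β * ((j : ℝ) + 2) ^ 2 +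
      216 * ((j : ℝ) + 2)) ≤ M := by
  have hL' : (0 : ℝ) < L := by exact_mod_cast hL
  rcases lt_or_ge j 77 with hj | hj
  · have h1 : (((j : ℝ) + 2) ^ 4 * 10 ^ 6 + 2 * L * 216 * (j + 2)) * B ^ (2 * j) ≤
        2 * L * M * 256 ^ (2 * j) + 2 * L * β * (j + 2) ^ 2 * B ^ (2 * j) := by
      exact_mod_cast hk j hj
    have h2 : (0 : ℝ) < 256 ^ (2 * j) := by positivity
    rw [div_pow]
    generalize (256 : ℝ) ^ (2 * j) = D at h1 h2 ⊢
    generalize (B : ℝ) ^ (2 * j) = E at h1 ⊢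
    refine le_of_mul_le_mul_left ?_ (show 0 < 2 * L * D by positivity)
    have e : 2 * L * D * (E / D * (((j : ℝ) + 2) ^ 4 / (2 * (L / 10 ^ 6)) - β * ((j : ℝ) + 2) ^ 2 +
        216 * ((j : ℝ) + 2))) = (((j : ℝ) + 2) ^ 4 * 10 ^ 6 + 2 * L * 216 * (j + 2)) * E -
        2 * L * β * (j + 2) ^ 2 * E := by field_simp; ring
    rw [e]
    linarith
  · obtain ⟨i, rfl⟩ := Nat.exists_eq_add_of_le hj
    have hi : (0 : ℝ) ≤ i := i.cast_nonneg
    have hb : (3 : ℝ) ≤ β := by exact_mod_cast hβ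
    have h0 : (0 : ℝ) ≤ B / 256 := by positivity
    have h1 := tail_NIok h0 (div_le_div_of_nonneg_right (by exact_mod_cast hB) (by norm_num)) i
    have h2 : (79 : ℝ) ^ 4 * 10 ^ 6 * B ^ 154 ≤ 2 * L * M * 256 ^ 154 := by exact_mod_cast ht
    have h3 : (79 : ℝ) ^ 4 * (B / 256) ^ 154 * 10 ^ 6 ≤ M * (2 * L) := by
      rw [div_pow, ← mul_div_assoc, div_mul_eq_mul_div, div_le_iff₀ (by positivity)]
      linarith
    have e : (((77 + i : ℕ) : ℝ) + 2) = 79 + i := by push_cast; ring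
    rw [e]
    have h4 : -(β * ((79 : ℝ) + i) ^ 2) + 216 * (79 + i) ≤ 0 := by
      nlinarith [mul_le_mul_of_nonneg_right hb (sq_nonneg ((79 : ℝ) + i))]
    have h5 : 0 ≤ ((B : ℝ) / 256) ^ (2 * (77 + i)) := pow_nonneg h0 _
    generalize ((B : ℝ) / 256) ^ (2 * (77 + i)) = E at h1 h5 ⊢
    generalize (79 : ℝ) ^ 4 * (B / 256) ^ 154 = D at h1 h3
    have h6 : E * ((79 + i) ^ 4 / (2 * (L / 10 ^ 6))) ≤ M := by
      rw [← mul_div_assoc, ← mul_div_assoc, div_div_eq_mul_div, div_le_iff₀ (by positivity)]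
      linarith
    nlinarith [mul_le_mul_of_nonneg_left h4 h5]

theorem hm_NIok {β bb cc : ℕ} {g : ℝ} (h : 0 ≤ ev_NIok [cc * 256 ^ 7,
    bb * 256 ^ 6 - ((72 - β) * 256 ^ 3) ^ 2, -(2 * ((72 - β) * 256 ^ 3) * (504 * 256 ^ 2)),
    -(2 * ((72 - β) * 256 ^ 3) * (504 * 256) + (504 * 256 ^ 2) ^ 2),
    -(2 * ((72 - β) * 256 ^ 3) * 72 + 2 * (504 * 256 ^ 2) * (504 * 256)),
    -(2 * (504 * 256 ^ 2) * 72 + (504 * 256) ^ 2), -(2 * (504 * 256) * 72), -72 ^ 2]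
    (256 * g ^ 2)) :
    (72 * g + 504 * g ^ 3 + 504 * g ^ 5 + 72 * g ^ 7 - β * g) ^ 2 ≤ bb * g ^ 2 + cc := by
  simp only [ev_NIok] at h
  push_cast at h
  linarith

theorem h0_NIok {bb cc L C0 : ℕ} {ρ : ℝ} (h : 0 ≤ ev_NIok [-(L * cc * 256 ^ 8), 0,
    -((144000000 + L * bb) * 256 ^ 6), 0, 0, 2000000 * C0 * 256 ^ 3, -(1008000000 * 256 ^ 2), 0,
    -360000000] (256 * ρ)) :
    72 * ρ ^ 2 + 504 * ρ ^ 6 + 180 * ρ ^ 8 + (L / 10 ^ 6 : ℝ) / 2 * (bb * ρ ^ 2 + cc) ≤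
      C0 * ρ ^ 5 := by
  simp only [ev_NIok] at h
  push_cast at h
  linarith

theorem h1_NIok {bb L C1 M j : ℕ} {ρ b c : ℝ} (h : 0 ≤ ev_NIok [0, 0, L * bb * 256 ^ 4, 0, 0,
    2000000 * C1 * 256, -(L * bb + 2000000 * M)] (256 * ρ)) (hρ : 0 ≤ ρ) (hb : ρ ≤ b)
    (h2 : b ^ (2 * j) * c ≤ M) :
    ρ ^ (2 * (j + 3)) * c - (L / 10 ^ 6 : ℝ) / 2 * bb * (ρ ^ 2 - ρ ^ 6) ≤ C1 * ρ ^ 5 := by
  simp only [ev_NIok] at h
  push_cast at h
  have h3 : ρ ^ (2 * j) * c ≤ M := by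
    rcases le_total c 0 with hc | hc
    · exact (mul_nonpos_of_nonneg_of_nonpos (by positivity) hc).trans (by positivity)
    · exact (mul_le_mul_of_nonneg_right (pow_le_pow_left₀ hρ hb _) hc).trans h2
  have h4 := mul_le_mul_of_nonneg_left h3 (show 0 ≤ ρ ^ 6 by positivity)
  have e' : ρ ^ (2 * (j + 3)) * c = ρ ^ 6 * (ρ ^ (2 * j) * c) := by ring
  rw [e']
  linarith

theorem mg_NIok {A n C m : ℕ} (h : 1000 * C * (n + 1) ^ 2 ≤ 8 * 256 ^ 2 * m) :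
    (C : ℝ) * ((A + (n + 1) : ℕ) / 256 - A / 256) ^ 2 / 8 ≤ m / 1000 := by
  have : (1000 : ℝ) * C * (n + 1) ^ 2 ≤ 8 * 256 ^ 2 * m := by exact_mod_cast h
  push_cast
  linarith

theorem rg_NIok {A n : ℕ} {ρ : ℝ} (ha : A / 256 ≤ ρ) (hb : ρ ≤ (A + (n + 1) : ℕ) / 256) :
    0 ≤ ρ ∧ (A : ℝ) ≤ 256 * ρ ∧ 256 * ρ ≤ A + (n + 1) := by
  push_cast at hb
  exact ⟨le_trans (by positivity) ha, by linarith, by linarith⟩

theorem rg'_NIok {g : ℝ} (h : g ^ 2 ≤ 1) :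
    ((0 : ℕ) : ℝ) ≤ 256 * g ^ 2 ∧ 256 * g ^ 2 ≤ ((0 : ℕ) : ℝ) + ((255 : ℕ) + 1) := by
  push_cast
  exact ⟨by positivity, by linarith⟩

theorem sound_NIok (A n β bb cc L C0 C1 m0 m1 M : ℕ)
    (h : chk_NIok A n β bb cc L C0 C1 m0 m1 M = true) :
    IOk (A / 256) ((A + (n + 1) : ℕ) / 256) (m0 / 1000) (m1 / 1000) := by
  rw [chk_NIok, Bool.and_eq_true, Bool.and_eq_true, Bool.and_eq_true, Bool.and_eq_true,
    decide_eq_true_eq, List.all_eq_true] at h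
  obtain ⟨⟨⟨⟨⟨hL, hB, hβ, g0, g1, ht⟩, hm⟩, h0⟩, h1⟩, hk⟩ := h
  refine ⟨β, bb, cc, L / 10 ^ 6, C0, C1, div_pos (Nat.cast_pos.2 hL) (by norm_num),
    Nat.cast_nonneg _, Nat.cast_nonneg _, Nat.cast_nonneg _,
    fun g hg => hm_NIok (pos_sound_NIok hm (rg'_NIok hg).1 (rg'_NIok hg).2),
    fun ρ ha hb => h0_NIok (pos_sound_NIok h0 (rg_NIok ha hb).2.1 (rg_NIok ha hb).2.2),
    fun ρ ha hb k hk' => ?_, mg_NIok g0, mg_NIok g1⟩
  obtain ⟨j, rfl⟩ := Nat.exists_eq_add_of_le' hk'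
  have e : ((j + 3 : ℕ) : ℝ) - 1 = j + 2 := by push_cast; ring
  rw [e]
  exact h1_NIok (pos_sound_NIok h1 (rg_NIok ha hb).2.1 (rg_NIok ha hb).2.2) (rg_NIok ha hb).1 hb
    (lev_NIok hL hB hβ ht (fun j hj => of_decide_eq_true (hk j (List.mem_range.2 hj))) j)

/-- beta 625, bb 286341, cc 190, lam 60/10^6, C0 62137, C1 18297 -/
theorem iok28 : IOk (28 / 256) (40 / 256) (17067 / 1000) (5026 / 1000) := by
  exact_mod_cast sound_NIok 28 11 625 286341 190 60 62137 18297 17067 5026 131266 (by decide +kernel)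

/-- beta 625, bb 277371, cc 381, lam 123/10^6, C0 23725, C1 12174 -/
theorem iok40 : IOk (40 / 256) (56 / 256) (11585 / 1000) (5945 / 1000) := by
  exact_mod_cast sound_NIok 40 15 625 277371 381 123 23725 12174 11585 5945 62973 (by decide +kernel)

/-- beta 625, bb 277371, cc 381, lam 240/10^6, C0 10283, C1 7685 -/
theorem iok56 : IOk (56 / 256) (74 / 256) (6355 / 1000) (4750 / 1000) := by
  exact_mod_cast sound_NIok 56 17 625 277371 381 240 10283 7685 6355 4750 31266 (by decide +kernel)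

/-- beta 625, bb 277371, cc 381, lam 417/10^6, C0 5576, C1 4936 -/
theorem iok74 : IOk (74 / 256) (92 / 256) (3446 / 1000) (3051 / 1000) := by
  exact_mod_cast sound_NIok 74 17 625 277371 381 417 5576 4936 3446 3051 17117 (by decide +kernel)

/-- beta 650, bb 249005, cc 3043, lam 617/10^6, C0 3560, C1 3711 -/
theorem iok92 : IOk (92 / 256) (109 / 256) (1963 / 1000) (2046 / 1000) := by
  exact_mod_cast sound_NIok 92 16 650 249005 3043 617 3560 3711 1963 2046 10957 (by decide +kernel)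

/-- beta 650, bb 249005, cc 3043, lam 1000/10^6, C0 2889, C1 3107 -/
theorem iok109 : IOk (109 / 256) (125 / 256) (1411 / 1000) (1518 / 1000) := by
  exact_mod_cast sound_NIok 109 15 650 249005 3043 1000 2889 3107 1411 1518 8416 (by decide +kernel)

/-- beta 675, bb 219428, cc 8187, lam 1445/10^6, C0 2466, C1 2971 -/
theorem iok125 : IOk (125 / 256) (140 / 256) (1059 / 1000) (1276 / 1000) := by
  exact_mod_cast sound_NIok 125 14 675 219428 8187 1445 2466 2971 1059 1276 7035 (by decide +kernel)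

/-- beta 700, bb 188739, cc 15710, lam 2239/10^6, C0 2402, C1 2993 -/
theorem iok140 : IOk (140 / 256) (155 / 256) (1031 / 1000) (1285 / 1000) := by
  exact_mod_cast sound_NIok 140 14 700 188739 15710 2239 2402 2993 1031 1285 6294 (by decide +kernel)

/-- beta 725, bb 157017, cc 25535, lam 3467/10^6, C0 2445, C1 3421 -/
theorem iok155 : IOk (155 / 256) (170 / 256) (1050 / 1000) (1469 / 1000) := by
  exact_mod_cast sound_NIok 155 14 725 157017 25535 3467 2445 3421 1050 1469 6268 (by decide +kernel)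

/-- beta 750, bb 124325, cc 37598, lam 5495/10^6, C0 2605, C1 4180 -/
theorem iok170 : IOk (170 / 256) (184 / 256) (974 / 1000) (1563 / 1000) := by
  exact_mod_cast sound_NIok 170 13 750 124325 37598 5495 2605 4180 974 1563 6742 (by decide +kernel)

/-- beta 775, bb 90718, cc 51843, lam 9120/10^6, C0 2976, C1 5295 -/
theorem iok184 : IOk (184 / 256) (197 / 256) (960 / 1000) (1707 / 1000) := by
  exact_mod_cast sound_NIok 184 12 775 90718 51843 9120 2976 5295 960 1707 7633 (by decide +kernel)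

/-- beta 825, bb 20932, cc 86707, lam 16218/10^6, C0 3614, C1 7343 -/
theorem iok197 : IOk (197 / 256) (209 / 256) (993 / 1000) (2017 / 1000) := by
  exact_mod_cast sound_NIok 197 11 825 20932 86707 16218 3614 7343 993 2017 9189 (by decide +kernel)

/-- beta 825, bb 20932, cc 86707, lam 28840/10^6, C0 4654, C1 10069 -/
theorem iok209 : IOk (209 / 256) (219 / 256) (888 / 1000) (1921 / 1000) := by
  exact_mod_cast sound_NIok 209 9 825 20932 86707 28840 4654 10069 888 1921 12009 (by decide +kernel)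

/-- beta 825, bb 20932, cc 86707, lam 54954/10^6, C0 6792, C1 15282 -/
theorem iok219 : IOk (219 / 256) (228 / 256) (1050 / 1000) (2361 / 1000) := by
  exact_mod_cast sound_NIok 219 8 825 20932 86707 54954 6792 15282 1050 2361 17464 (by decide +kernel)

/-- beta 850, bb 0, cc 102205, lam 104713/10^6, C0 10248, C1 24505 -/
theorem iok228 : IOk (228 / 256) (235 / 256) (958 / 1000) (2291 / 1000) := by
  exact_mod_cast sound_NIok 228 6 850 0 102205 104713 10248 24505 958 2291 26642 (by decide +kernel)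

/-- beta 850, bb 0, cc 102205, lam 218776/10^6, C0 17883, C1 43303 -/
theorem iok235 : IOk (235 / 256) (241 / 256) (1228 / 1000) (2974 / 1000) := by
  exact_mod_cast sound_NIok 235 5 850 0 102205 218776 17883 43303 1228 2974 45906 (by decide +kernel)

/-- beta 850, bb 0, cc 102205, lam 426580/10^6, C0 30254, C1 74708 -/
theorem iok241 : IOk (241 / 256) (245 / 256) (924 / 1000) (2280 / 1000) := by
  exact_mod_cast sound_NIok 241 3 850 0 102205 426580 30254 74708 924 2280 77906 (by decide +kernel)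

end Pool.Agent.MP_ebf981_lc.N9
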