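import Pool.Agent.Mg.Febf981.G807bb7

section

/-! Nine players: the certificate checker on packed vectors of 8192 digits of 64 bits. -/

namespace Pool.Agent.MP_ebf981_lc.N9

/-- evaluate a number before passing it on -/
noncomputable def fn (x : ℕ) (k : ℕ → ℕ) : ℕ := @Nat.rec (fun _ => ℕ) 0 (fun c _ => k c) (Nat.succ x)

theorem fn_eq (x : ℕ) (k : ℕ → ℕ) : fn x k = k x := rfl

noncomputable def ifz {α : Type} (x : ℕ) (a b : α) : α := @Bool.rec (fun _ => α) b a (Nat.beq x 0)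

noncomputable def ifb {α : Type} (c : Bool) (a b : α) : α := @Bool.rec (fun _ => α) b a c

/-- sum of the first `n` values -/
noncomputable def sumN (f : ℕ → ℕ) (n : ℕ) : ℕ :=
  @Nat.rec (fun _ => ℕ) 0 (fun j acc => Nat.add acc (f j)) n

noncomputable def sumZ (f : ℕ → ℤ) (n : ℕ) : ℤ :=
  @Nat.rec (fun _ => ℤ) 0 (fun j acc => Int.add acc (f j)) n

noncomputable def allN (f : ℕ → Bool) (n : ℕ) : Bool :=
  @Nat.rec (fun _ => Bool) true (fun j acc => an (f j) acc) n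

def p2 (k : ℕ) : ℕ := Nat.shiftLeft 1 k

/-- fields of 32 bits -/
def fd (N j : ℕ) : ℕ := Nat.mod (Nat.shiftRight N (Nat.mul 32 j)) 4294967296

def sub (N o n : ℕ) : ℕ := Nat.mod (Nat.shiftRight N (Nat.mul 32 o)) (p2 (Nat.mul 32 n))

def mg (N j : ℕ) : ℕ := Nat.shiftRight (fd N j) 1

def sn (N j : ℕ) : ℕ := Nat.mod (fd N j) 2

noncomputable def iv (N j : ℕ) : ℤ := ifz (sn N j) (Int.ofNat (mg N j)) (Int.negOfNat (mg N j))

/-- vector of ones with `n` digits of `w` bits -/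
def onw (w n : ℕ) : ℕ := Nat.div (Nat.sub (p2 (Nat.mul w n)) 1) (Nat.sub (p2 w) 1)

def one : ℕ := onw 64 8192

def cst (c : ℕ) : ℕ := Nat.mul c one

def shr (s N : ℕ) : ℕ := Nat.land (Nat.shiftRight N s) (cst (Nat.sub (p2 (Nat.sub 64 s)) 1))

def relu (t : ℕ) : ℕ :=
  Nat.land t (Nat.mul (Nat.land (Nat.shiftRight t 60) one) 1152921504606846975)

def leq (A B : ℕ) : Bool :=
  Nat.beq (Nat.land (Nat.sub (Nat.add B (cst 4611686018427387904)) A) (cst 4611686018427387904))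
    (cst 4611686018427387904)

def rng (D : ℕ) : Bool := Nat.beq (Nat.land D (cst 17178820608)) (cst 8589934592)

noncomputable def bm (Q V : ℕ) : ℕ :=
  sumN (fun b => Nat.land (Nat.mul (Nat.land Q (cst (p2 b))) 34359738367) (Nat.shiftLeft V b)) 20

/-! ### rotation tables -/

/-- cosine and sine of `n / 2 ^ 28` at scale `2 ^ 60` -/
def cisT (n : ℤ) : ℤ × ℤ :=
  ((479001600 * 2 ^ 336 - n * n * (239500800 * 2 ^ 280 - n * n * (19958400 * 2 ^ 224 -
      n * n * (665280 * 2 ^ 168 - n * n * (11880 * 2 ^ 112 - n * n * (132 * 2 ^ 56 - n * n)))))) /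
      (479001600 * 2 ^ 276),
    (n * (6227020800 * 2 ^ 336 - n * n * (1037836800 * 2 ^ 280 - n * n * (51891840 * 2 ^ 224 -
      n * n * (1235520 * 2 ^ 168 - n * n * (17160 * 2 ^ 112 - n * n * (156 * 2 ^ 56 - n * n))))))) /
      (6227020800 * 2 ^ 304))

def cmul (p q : ℤ × ℤ) : ℤ × ℤ :=
  ((p.1 * q.1 - p.2 * q.2) / 1152921504606846976, (p.1 * q.2 + p.2 * q.1) / 1152921504606846976)

noncomputable def sqs (p : ℤ × ℤ) (m : ℕ) : ℤ × ℤ :=
  @Nat.rec (fun _ => ℤ × ℤ) p (fun _ q => cmul q q) m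

/-- rotation of step `m`; `c`, `d` at scale `2 ^ 20` -/
noncomputable def rsc (c d : ℤ) (m : ℕ) : ℤ × ℤ :=
  ifb (Nat.ble 8 m) (sqs (cisT (48 * d)) (Nat.sub m 7)) (sqs (cisT (6 * c)) m)

noncomputable def rs0 (d : ℤ) : ℤ × ℤ :=
  cmul (cisT (48 * d)) ((sqs (cisT (48 * d)) 5).1, -(sqs (cisT (48 * d)) 5).2)

def tn (x : ℤ) : ℕ := Int.toNat (x / 1073741824 + 2147483648)

def rot1 (m C S cp sm : ℕ) : ℕ :=
  Nat.add C (Nat.shiftLeft (shr 30 (Nat.sub
    (Nat.add (Nat.add (Nat.mul C cp) (Nat.mul S sm)) (Nat.mul 11529215046068469760 (onw 64 (p2 m))))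
    (Nat.add (Nat.shiftLeft (Nat.add C S) 31)
      (Nat.mul (Nat.shiftLeft (Nat.add cp sm) 31) (onw 64 (p2 m)))))) (Nat.mul 64 (p2 m)))

def rot (m : ℕ) (w : ℤ × ℤ) (p : ℕ × ℕ) : ℕ × ℕ :=
  (rot1 m p.1 p.2 (tn w.1) (Nat.sub 4294967296 (tn w.2)), rot1 m p.2 p.1 (tn w.1) (tn w.2))

/-- cosine and sine of `c z + d u` on the grid, scale `2 ^ 30`, offset `2 ^ 31` -/
noncomputable def trg (c d : ℤ) : ℕ × ℕ :=
  @Nat.rec (fun _ => ℕ × ℕ) (tn (rs0 d).1, tn (rs0 d).2) (fun m p => rot m (rsc c d m) p) 13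

noncomputable def trs (p : ℕ) (c d : ℤ) : ℕ := ifz p (trg c d).2 (trg c d).1

/-- multiply a rotation table by `κ / 2 ^ 30`; scale `2 ^ 28`, offset `2 ^ 31` -/
def scl (κ T : ℕ) : ℕ :=
  shr 32 (Nat.add (Nat.mul κ T) (cst (Nat.sub 9223372036854775808 (Nat.shiftLeft κ 31))))

def rz1 : ℕ := 0xff00000000000000fe00000000000000fd00000000000000fc00000000000000fb00000000000000fa00000000000000f900000000000000f800000000000000f700000000000000f600000000000000f500000000000000f400000000000000f300000000000000f200000000000000f100000000000000f000000000000000ef00000000000000ee00000000000000ed00000000000000ec00000000000000eb00000000000000ea00000000000000e900000000000000e800000000000000e700000000000000e600000000000000e500000000000000e400000000000000e300000000000000e200000000000000e100000000000000e000000000000000df00000000000000de00000000000000dd00000000000000dc00000000000000db00000000000000da00000000000000d900000000000000d800000000000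000d700000000000000d600000000000000d500000000000000d400000000000000d300000000000000d200000000000000d100000000000000d000000000000000cf00000000000000ce00000000000000cd00000000000000cc00000000000000cb00000000000000ca00000000000000c900000000000000c800000000000000c700000000000000c600000000000000c500000000000000c400000000000000c300000000000000c200000000000000c100000000000000c000000000000000bf00000000000000be00000000000000bd00000000000000bc00000000000000bb00000000000000ba00000000000000b900000000000000b800000000000000b700000000000000b600000000000000b500000000000000b400000000000000b300000000000000b200000000000000b100000000000000b000000000000000af00000000000000ae00000000000000ad00000000000000ac00000000000000ab00000000000000aa00000000000000a900000000000000a800000000000000a700000000000000a600000000000000a500000000000000a400000000000000a300000000000000a200000000000000a100000000000000a0000000000000009f000000000000009e000000000000009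d000000000000009c000000000000009b000000000000009a0000000000000099000000000000009800000000000000970000000000000096000000000000009500000000000000940000000000000093000000000000009200000000000000910000000000000090000000000000008f000000000000008e000000000000008d000000000000008c000000000000008b000000000000008a0000000000000089000000000000008800000000000000870000000000000086000000000000008500000000000000840000000000000083000000000000008200000000000000810000000000000080000000000000007f000000000000007e000000000000007d000000000000007c000000000000007b000000000000007a0000000000000079000000000000007800000000000000770000000000000076000000000000007500000000000000740000000000000073000000000000007200000000000000710000000000000070000000000000006f000000000000006e000000000000006d000000000000006c000000000000006b000000000000006a0000000000000069000000000000006800000000000000670000000000000066000000000000006500000000000000640000000000000063000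000000000006200000000000000610000000000000060000000000000005f000000000000005e000000000000005d000000000000005c000000000000005b000000000000005a0000000000000059000000000000005800000000000000570000000000000056000000000000005500000000000000540000000000000053000000000000005200000000000000510000000000000050000000000000004f000000000000004e000000000000004d000000000000004c000000000000004b000000000000004a0000000000000049000000000000004800000000000000470000000000000046000000000000004500000000000000440000000000000043000000000000004200000000000000410000000000000040000000000000003f000000000000003e000000000000003d000000000000003c000000000000003b000000000000003a0000000000000039000000000000003800000000000000370000000000000036000000000000003500000000000000340000000000000033000000000000003200000000000000310000000000000030000000000000002f000000000000002e000000000000002d000000000000002c000000000000002b000000000000002a00000000000000290000000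00000002800000000000000270000000000000026000000000000002500000000000000240000000000000023000000000000002200000000000000210000000000000020000000000000001f000000000000001e000000000000001d000000000000001c000000000000001b000000000000001a0000000000000019000000000000001800000000000000170000000000000016000000000000001500000000000000140000000000000013000000000000001200000000000000110000000000000010000000000000000f000000000000000e000000000000000d000000000000000c000000000000000b000000000000000a0000000000000009000000000000000800000000000000070000000000000006000000000000000500000000000000040000000000000003000000000000000200000000000000010000000000000000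

def rz2 : ℕ := 0x477048000000000046e1200000000000465288000000000045c4800000000000453708000000000044aa200000000000441dc8000000000043920000000000004306c80000000000427c20000000000041f2080000000000416880000000000040df88000000000040572000000000003fcf4800000000003f480000000000003ec14800000000003e3b2000000000003db58800000000003d308000000000003cac0800000000003c282000000000003ba4c800000000003b220000000000003a9fc800000000003a1e200000000000399d080000000000391c800000000000389c880000000000381d200000000000379e480000000000372000000000000036a2480000000000362520000000000035a8880000000000352c80000000000034b1080000000000343620000000000033bbc80000000000334200000000000032c8c80000000000325020000000000031d8080000000000316080000000000030e988000000000030732000000000002ffd4800000000002f880000000000002f134800000000002e9f2000000000002e2b8800000000002db88000000000002d460800000000002cd42000000000002c62c800000000002bf20000000000002b81c800000000002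b122000000000002aa30800000000002a3480000000000029c6880000000000295920000000000028ec4800000000002880000000000000281448000000000027a9200000000000273e88000000000026d4800000000000266b08000000000026022000000000002599c80000000000253200000000000024cac80000000000246420000000000023fe0800000000002398800000000000233388000000000022cf200000000000226b480000000000220800000000000021a5480000000000214320000000000020e1880000000000208080000000000020200800000000001fc02000000000001f60c800000000001f020000000000001ea3c800000000001e462000000000001de90800000000001d8c8000000000001d308800000000001cd52000000000001c7a4800000000001c200000000000001bc64800000000001b6d2000000000001b148800000000001abc8000000000001a650800000000001a0e20000000000019b7c800000000001962000000000000190cc8000000000018b82000000000001864080000000000181080000000000017bd880000000000176b200000000000171948000000000016c80000000000001677480000000000162720000000000015d788000000000015888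00000000000153a08000000000014ec200000000000149ec8000000000014520000000000001405c8000000000013ba200000000000136f080000000000132480000000000012da88000000000012912000000000001248480000000000120000000000000011b84800000000001171200000000000112a88000000000010e4800000000000109f080000000000105a2000000000001015c800000000000fd20000000000000f8ec800000000000f4c2000000000000f0a0800000000000ec88000000000000e878800000000000e472000000000000e074800000000000dc80000000000000d894800000000000d4b2000000000000d0d8800000000000cd08000000000000c940800000000000c582000000000000c1cc800000000000be20000000000000ba7c800000000000b6e2000000000000b350800000000000afc8000000000000ac48800000000000a8d2000000000000a564800000000000a2000000000000009ea48000000000009b52000000000000980880000000000094c800000000000091908000000000008e620000000000008b3c8000000000008820000000000000850c80000000000082020000000000007f008000000000007c08000000000000791880000000000076320000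00000000735480000000000070800000000000006db48000000000006af20000000000006838800000000000658800000000000062e080000000000060420000000000005dac8000000000005b20000000000000589c800000000000562200000000000053b080000000000051480000000000004ee88000000000004c920000000000004a44800000000000480000000000000045c4800000000000439200000000000041688000000000003f480000000000003d308000000000003b22000000000000391c8000000000003720000000000000352c800000000000334200000000000031608000000000002f880000000000002db88000000000002bf20000000000002a34800000000000288000000000000026d480000000000025320000000000002398800000000000220800000000000020808000000000001f020000000000001d8c8000000000001c200000000000001abc8000000000001962000000000000181080000000000016c8000000000000158880000000000014520000000000001324800000000000120000000000000010e48000000000000fd20000000000000ec88000000000000dc80000000000000cd08000000000000be20000000000000afc8000000000000a20000000000000094c800000000000088200000000000007c08000000000000708000000000000065880000000000005b20000000000000514800000000000048000000000000003f4800000000000037200000000000002f88000000000000288000000000000022080000000000001c2000000000000016c800000000000012000000000000000dc80000000000000a2000000000000007080000000000000480000000000000028800000000000001200000000000000048000000000000000000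

def rz4 : ℕ := 0x4fbde4bc000000004e7f8de5000000004d44f3ed000000004c0e0f51000000004adad8910000000049ab483a00000000487f56db000000004756fd100000000046323377000000004510f2bc0000000043f3338c0000000042d8eea10000000041c21cb80000000040aeb69b000000003f9eb516000000003e921100000000003d88c336000000003c82c49f000000003b800e26000000003a8098c10000000039845d6b00000000388b552800000000379579030000000036a2c2100000000035b329680000000034c6a82e0000000033dd378b0000000032f6d0b10000000032136cd800000000313305410000000030559333000000002f7b1000000000002ea374fc000000002dcebb89000000002cfcdd0b000000002c2dd2f1000000002b6196b0000000002a9821c60000000029d16db700000000290d741000000000284c2e6400000000278d96500000000026d1a5760000000026185581000000002561a0230000000024ad7f170000000023fbec1d00000000234ce1000000000022a0578f0000000021f649a300000000214eb11b0000000020a987e1000000002006c7e1000000001f666b14000000001ec86b76000000001e2cc310000000001d936bec000000001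cfc6022000000001c6799cc000000001bd51311000000001b44c61a000000001ab6ad1d000000001a2ac2530000000019a10000000000001919606d000000001893dded00000000181072d800000000178f199100000000170fcc7e000000001692861200000000161740c200000000159df710000000001526a3800000000014b140a400000000143dc90f0000000013cc376100000000135c863d0000000012eeb053000000001282b05500000000121881000000000011b01d170000000011497f670000000010e4a2c100000000108182010000000010201808000000000fc05fc0000000000f62541a000000000f05f010000000000eab2ea1000000000e520ad6000000000dfa7fbe000000000da48871000000000d50200d000000000cfd41b9000000000cabe8a2000000000c5c1000000000000c0db30d000000000bc0cd11000000000b755956000000000b2b5331000000000ae2b5fd000000000a9b7d1e000000000a55a3fe000000000a1126100000000009cdfecd00000000098c29b800000000094ba25900000000090c64410000000008ce6b08000000000891b24f00000000085635bc00000000081bf1000000000007e2dfd00000000007aafdeb000000000774471600000000073eb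72100000000070a49de0000000006d6fb2c0000000006a4c6ed000000000673a9100000000006439d85000000000614a04a0000000005e6ad5f0000000005b9c0d100000000058dd6af000000000562eb15000000000538fa2200000000051000000000000004e7f8de0000000004c0e0f500000000049ab4830000000004756fd10000000004510f2b00000000042d8eea00000000040aeb690000000003e921100000000003c82c490000000003a8098c000000000388b55200000000036a2c2100000000034c6a8200000000032f6d0b00000000031330540000000002f7b1000000000002dcebb80000000002c2dd2f0000000002a9821c000000000290d741000000000278d965000000000261855800000000024ad7f1000000000234ce1000000000021f649a00000000020a987e0000000001f666b10000000001e2cc310000000001cfc6020000000001bd51310000000001ab6ad100000000019a10000000000001893dde000000000178f1990000000001692861000000000159df7100000000014b140a00000000013cc37600000000012eeb05000000000121881000000000011497f600000000010818200000000000fc05fc0000000000f05f010000000000e520ad0000000000da48870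000000000cfd41b0000000000c5c1000000000000bc0cd10000000000b2b5330000000000a9b7d10000000000a11261000000000098c29b000000000090c6440000000000891b24000000000081bf1000000000007aafde000000000073eb7200000000006d6fb20000000000673a910000000000614a0400000000005b9c0d0000000000562eb1000000000051000000000000004c0e0f00000000004756fd000000000042d8ee00000000003e921100000000003a8098000000000036a2c2000000000032f6d000000000002f7b1000000000002c2dd20000000000290d7400000000002618550000000000234ce1000000000020a98700000000001e2cc300000000001bd513000000000019a1000000000000178f190000000000159df7000000000013cc370000000000121881000000000010818200000000000f05f000000000000da48800000000000c5c1000000000000b2b5300000000000a11260000000000090c640000000000081bf10000000000073eb700000000000673a9000000000005b9c00000000000051000000000000004756f000000000003e9210000000000036a2c000000000002f7b100000000000290d700000000000234ce000000000001e2cc0000000000019a1000000000000159df0000000000012188000000000000f05f000000000000c5c1000000000000a11200000000000081bf000000000000673a00000000000051000000000000003e920000000000002f7b000000000000234c00000000000019a100000000000012180000000000000c5c000000000000081b000000000000051000000000000002f7000000000000019a00000000000000c500000000000000510000000000000019000000000000000500000000000000000000000000000000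

def rz6 : ℕ := 0x59028fc60000000056efa2e10000000054e70f560000000052e8abae0000000050f44eea000000004f09d08b000000004d29088a000000004b51cf5e000000004983fdf30000000047bf6db0000000004603f87400000000445178910000000042a7c8d1000000004106c472000000003f6e4725000000003dde2d0f000000003c5652c3000000003ad6954800000000395ed2140000000037eee70b000000003686b27f00000000352613300000000033cce84800000000327b115d0000000031306e71000000002fecdfeb000000002eb0469f000000002d7a83c6000000002c4b78ff000000002b230850000000002a0114240000000028e57f480000000027d02ced0000000026c100a70000000025b7de6a0000000024b4aa8c0000000023b749c00000000022bfa1190000000021cd96090000000020e10e5c000000001ff9f03d000000001f182231000000001e3b8b16000000001d641227000000001c919ef4000000001bc41968000000001afb69c2000000001a37789a0000000019782edb0000000018bd75c700000000180736f20000000017555c430000000016a7cff60000000015fe7c930000000015594cf80000000014b82c5000000000141b0615000000001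381c6100000000012ec585700000000125aa94c0000000011cca5a00000000011423a4a0000000010bb5490000000001037e200000000000fb7d06f000000000f3b0dfc000000000ec1890e000000000e4b3050000000000dd7f2b7000000000d67bf78000000000cfa8610000000000c90363e000000000c28c005000000000bc413a9000000000b6221b2000000000b02dae5000000000aa63049000000000a4c13250000000009f474ff00000000099f479800000000094c7cf10000000008fc07470000000008add912000000000861e5070000000008181e140000000007d0776000000000078ae44e0000000007475877000000000705c7ad0000000006c625f9000000000688679a00000000064c810600000000061266e80000000005da0e1e0000000005a36bbc00000000056e750800000000053b1f7b00000000050960c00000000004d92eb50000000004aa7f6600000000047d49120000000004518225000000000427213b0000000003fe1d200000000003d66ccb0000000003b0076300000000038ae438000000000366faca00000000034442c1000000000322b3f3000000000302465d0000000002e2f2290000000002c4afa60000000002a7775100000000028b41c90000000002700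7d9000000000255c27100000000023c6aa7000000000223f9b800000000020c69050000000001f5b2150000000001dfce920000000001cab8490000000001b6692e0000000001a2db5200000000019008eb00000000017dec5300000000016c800000000000015bbe8b00000000014ba2ae00000000013c274200000000012d473d00000000011efdb600000000011145e20000000001041b110000000000f778b40000000000eb5a550000000000dfbb9c0000000000d4984c0000000000c9ec450000000000bfb37f0000000000b5ea0f0000000000ac8c210000000000a395fd00000000009b0402000000000092d2aa00000000008afe84000000000083843900000000007c6088000000000075904800000000006f1065000000000068dde2000000000062f5d700000000005d5571000000000057f9f2000000000052e0b100000000004e07180000000000496aa500000000004508e9000000000040df8800000000003cec370000000000392cc10000000000359efd00000000003240d800000000002f104e00000000002c0b6b000000000029304c0000000000267d1e000000000023f01d000000000021879400000000001f41dd00000000001d1d6100000000001b189700000000001932040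000000000176838000000000015b9d40000000000142583000000000012a9fd000000000011460800000000000ff87400000000000ec01d00000000000d9beb00000000000c8acf00000000000b8bc800000000000a9ddd000000000009c01f000000000008f1aa00000000000831a40000000000077f3a000000000006d9a40000000000064023000000000005b2000000000000052e8a000000000004b51c0000000000044517000000000003dde20000000000037eee00000000000327b1000000000002d7a80000000000028e570000000000024b4a0000000000020e10000000000001d641000000000001a37700000000000175550000000000014b8200000000000125aa000000000001037e000000000000e4b3000000000000c903000000000000b02d00000000000099f4000000000000861e000000000000747500000000000064c800000000000056e70000000000004aa70000000000003fe1000000000000366f0000000000002e2f000000000000270000000000000020c60000000000001b6600000000000016c800000000000012d40000000000000f770000000000000c9e0000000000000a390000000000000838000000000000068d000000000000052e000000000000040d0000000000000324000000000000026700000000000001d1000000000000015b00000000000000ff00000000000000b80000000000000083000000000000005b000000000000003d0000000000000028000000000000001a0000000000000010000000000000000900000000000000050000000000000002000000000000000100000000000000000000000000000000000000000000000000000000000000000000000000000000000000000000000000000000000000000000000000000000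

noncomputable def col (f : ℕ → ℕ) : ℕ := sumN (fun l => Nat.shiftLeft (f l) (Nat.mul 16384 l)) 32

def rep : ℕ := onw 16384 32

def IZ : ℕ := Nat.mul rz1 rep

noncomputable def IU : ℕ := Nat.mul (onw 64 256) (col (fun l => l))

def o31 : ℕ := cst 2147483648

/-- table of `κ / 2 ^ 24 * z` -/
def tz (κ : ℕ) : ℕ := Nat.add (shr 3 (Nat.mul (Nat.mul 3 κ) IZ)) o31

/-- table of `κ / 2 ^ 24 * u` -/
noncomputable def tu (κ : ℕ) : ℕ :=
  Nat.add (Nat.mul (Nat.mul 6 κ) IU) (cst (Nat.sub 2147483648 (Nat.mul 93 κ)))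

/-- `ρ ^ s` at scale `2 ^ 24` -/
def rp (r s : ℕ) : ℕ := Nat.mul (Nat.pow r s) (Nat.pow 256 (Nat.sub 3 s))

noncomputable def t0 (τ p j : ℕ) : ℕ :=
  scl 1073741824 (trs p (Int.ofNat (Nat.mul (Nat.mul (Nat.succ j) τ) 65536)) 0)

noncomputable def tb0 (τ p j : ℕ) : ℕ :=
  ifb (Nat.ble 2 j) (t0 τ p (Nat.sub j 2))
    (ifz p (ifz j (tz 16777216) (tu 16777216)) (ifz j (cst 2415919104) o31))

def ef (E j i : ℕ) : ℕ := fd E (Nat.add (Nat.add 8 (Nat.mul 20 j)) i)

def em (E j i : ℕ) : ℕ := mg E (Nat.add (Nat.add 8 (Nat.mul 20 j)) i)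

noncomputable def ei (E j i : ℕ) : ℤ := iv E (Nat.add (Nat.add 8 (Nat.mul 20 j)) i)

noncomputable def t1 (E r s p j : ℕ) : ℕ :=
  scl (Nat.shiftRight (Nat.mul (rp r s) (ef E j 0)) 14) (trs p (ei E j 1) (ei E j 2))

noncomputable def tb1 (E r s p j : ℕ) : ℕ :=
  ifb (Nat.ble 2 j) (t1 E r s p (Nat.sub j 2))
    (ifz p (ifz j (tz (rp r (Nat.succ s))) (tu (rp r (Nat.succ s))))
      (ifz j (cst (Nat.add 2147483648 (Nat.mul 16 (rp r s)))) o31))

noncomputable def tU2 : ℕ :=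
  Nat.add (Nat.mul (onw 64 256) (col (fun l =>
    Nat.mul 131072 (Nat.sub (Nat.add (Nat.mul 36 (Nat.mul l l)) 8649) (Nat.mul 1116 l))))) o31

noncomputable def tUZ : ℕ :=
  Nat.sub (Nat.add (Nat.mul 294912 (Nat.mul rz1 (col (fun l => l)))) o31) (Nat.mul 4571136 IZ)

noncomputable def tbL (τ j : ℕ) : ℕ :=
  ifb (Nat.ble 7 j)
    (ifb (Nat.ble 10 j) (ifb (Nat.ble 11 j) tUZ tU2)
      (Nat.add (Nat.mul (ifb (Nat.ble 9 j) rz6 (ifb (Nat.ble 8 j) rz4 rz2)) rep) o31))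
    (t0 τ 1 j)

def ng (T : ℕ) : ℕ := Nat.sub (cst 4294967296) T

/-- linear combination of tables; `fl = 1` changes the sign -/
noncomputable def ln (tb : ℕ → ℕ) (N fl n : ℕ) : ℕ :=
  @Nat.rec (fun _ => ℕ) 0 (fun j acc => ifz (mg N j) acc
    (Nat.add acc (Nat.mul (mg N j) (ifb (Nat.beq (sn N j) fl) (tb j) (ng (tb j)))))) n

noncomputable def sm (N n : ℕ) : ℕ := sumN (mg N) n

/-! ### one head coefficient -/

noncomputable def D0r (τ p b : ℕ) : ℕ :=
  shr 30 (Nat.add (ln (tb0 τ p) b 0 9)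
    (cst (Nat.sub 9223934986808197120 (Nat.shiftLeft (sm b 9) 31))))

noncomputable def P0o (τ p b : ℕ) : ℕ :=
  ifz b (cst 524288) (Nat.sub (D0r τ p b) (cst 8589934592))

noncomputable def D1r (E τ r s p b I2 : ℕ) : ℕ :=
  shr 30 (Nat.add (Nat.add (ln (tb1 E r s p) b 0 9) (Nat.mul (Nat.shiftLeft I2 18) (P0o τ p b)))
    (cst (Nat.sub 9223934986808197120
      (Nat.add (Nat.shiftLeft (sm b 9) 31) (Nat.shiftLeft I2 37)))))

noncomputable def Qo (E τ r s p b I2 : ℕ) : ℕ :=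
  ifz b (cst 524288) (Nat.sub (D1r E τ r s p b I2) (cst 8589934592))

noncomputable def Qqo (E τ r s p b I1 I2 : ℕ) : ℕ :=
  Nat.sub (Nat.add (Nat.shiftLeft (Qo E τ r s p b I2) 12)
    (cst (Nat.add 6442450944 (Nat.shiftLeft (Nat.add I1 I2) 19))))
    (Nat.mul (Nat.add I1 I2) (P0o τ p b))

noncomputable def okS (E τ r s p b I2 : ℕ) : Bool :=
  ifz b true (an (Nat.ble (sm b 9) 134217728) (an (rng (D0r τ p b)) (rng (D1r E τ r s p b I2))))

noncomputable def NP (E τ r s p b I1 I2 : ℕ) : ℕ :=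
  ifz b (cst 4503599627370496)
    (Nat.sub (Nat.add (Nat.shiftLeft (Qo E τ r s p b I2) 33)
      (Nat.shiftLeft (Qqo E τ r s p b I1 I2) 19)) (bm (Qo E τ r s p b I2) (Qqo E τ r s p b I1 I2)))

noncomputable def PH (E τ r s p y b K I1 I2 : ℕ) : ℕ :=
  shr 18 (Nat.add (Nat.add (ln (tb0 τ p) y 1 9) (Nat.mul (Nat.shiftLeft K 10)
      (Nat.add (Qqo E τ r s p b I1 I2) (Nat.shiftLeft (Qo E τ r s p b I2) 12))))
    (cst (Nat.sub 2305843009213693952
      (Nat.add (Nat.shiftLeft (sm y 9) 31) (Nat.mul K 10995116277760)))))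

noncomputable def FC (E τ r s p y b a K I1 I2 : ℕ) : ℕ :=
  shr 20 (Nat.sub (Nat.add (Nat.add
      (Nat.shiftLeft (Nat.add (ln (tb1 E r s p) y 0 9) (ln (tb0 τ p) a 1 2)) 2)
      (Nat.mul (Nat.mul K I2) (Qqo E τ r s p b I1 I2)))
    (cst (Nat.sub (Nat.add 4611686018427387904 (Nat.shiftLeft (Nat.mul K I1) 31))
      (Nat.shiftLeft (Nat.add (Nat.add (sm y 9) (sm a 2)) (Nat.mul K I2)) 33))))
    (Nat.mul (Nat.shiftLeft (Nat.mul K I1) 12) (Qo E τ r s p b I2)))

/-! ### the eight states -/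

/-- butterfly: sum if `b = 0`, difference otherwise; `o` is twice the offset -/
noncomputable def bf (b o u v : ℕ) : ℕ := ifz b (Nat.add u v) (Nat.sub (Nat.add u (cst o)) v)

noncomputable def wh3 (o x0 x1 x2 c0 c1 c2 c3 c4 c5 c6 c7 : ℕ) : ℕ :=
  bf x2 (Nat.mul 8 o)
    (bf x1 (Nat.mul 4 o) (bf x0 (Nat.mul 2 o) c0 c1) (bf x0 (Nat.mul 2 o) c2 c3))
    (bf x1 (Nat.mul 4 o) (bf x0 (Nat.mul 2 o) c4 c5) (bf x0 (Nat.mul 2 o) c6 c7))

def P9n (l : ℕ) : ℕ := 2473901162496 * l ^ 2 + 2113929216 * l ^ 4 + 344064 * l ^ 6 + 9 * l ^ 8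

/-- thresholds, scale `2 ^ 28`, offset `2 ^ 44` -/
def TH (V K l : ℕ) : ℕ :=
  17592186044416 + K * (2 * l + 1) * 16384 - (V * (P9n (l + 1) - P9n l) / 274877906944 + 1)

def ab (v : ℕ) : ℕ := Nat.sub (Nat.add (Nat.add (relu v) (relu v)) (cst 1152921504606846976)) v

def rst (TS a : ℕ) : ℕ := relu (Nat.add a (cst (Nat.sub 1152922604118474752 (Nat.mul 4096 TS))))

def mm (TS a : ℕ) : ℕ := Nat.sub (Nat.add a (cst 576460752303423488)) (rst TS a)

noncomputable def EV (V K TS L a : ℕ) : ℕ :=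
  Nat.add (sumN (fun l => relu (Nat.add (mm TS a) (cst (Nat.sub 576478344489467904 (TH V K l))))) L)
    (Nat.shiftLeft (rst TS a) 6)

noncomputable def Um (V K TS L K3 t F : ℕ) : ℕ :=
  Nat.sub (Nat.add (EV V K TS L (ab (Nat.add t (cst (Nat.sub 1152851135862669312 K3)))))
    (cst 4503599627370496)) (Nat.shiftLeft F 6)

noncomputable def Up (V K TS L K3 t F : ℕ) : ℕ :=
  Nat.add (EV V K TS L (ab (Nat.add t (cst (Nat.add 1152851135862669312 K3)))))
    (Nat.shiftLeft F 6)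

noncomputable def XS (V K TS L K3 t F : ℕ) : ℕ :=
  Nat.add (Um V K TS L K3 t F) (relu (Nat.sub
    (Nat.add (Up V K TS L K3 t F) (cst 1152921504606846976)) (Um V K TS L K3 t F)))

def yN (C S : ℕ) : ℕ := sub C (Nat.add 33 (Nat.mul 18 S)) 9

def bN (C S : ℕ) : ℕ := sub C (Nat.add 42 (Nat.mul 18 S)) 9

def lN (C : ℕ) : ℕ := sub C 16 12

noncomputable def aN (C S : ℕ) : ℕ :=
  ifz S (sub C 28 2) (ifb (Nat.beq S 1) (fd C 30) (ifb (Nat.beq S 2) (fd C 31)
    (ifb (Nat.beq S 4) (fd C 32) 0)))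

noncomputable def PHs (E τ r C K I1 I2 S s p : ℕ) : ℕ :=
  fn (yN C S) fun y => fn (bN C S) fun b => PH E τ r s p y b K I1 I2

noncomputable def FCs (E τ r C K I1 I2 S s p : ℕ) : ℕ :=
  fn (yN C S) fun y => fn (bN C S) fun b => fn (aN C S) fun a => FC E τ r s p y b a K I1 I2

noncomputable def NPs (E τ r C I1 I2 S s p : ℕ) : ℕ :=
  fn (bN C S) fun b => NP E τ r s p b I1 I2

noncomputable def oks (E τ r C I2 S s p : ℕ) : Bool :=
  an (Nat.ble (sm (yN C S) 9) 134217728) (an (Nat.ble (sm (aN C S) 2) 134217728)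
    (frc (bN C S) fun b => okS E τ r s p b I2))

noncomputable def Xx (E τ r C V K I1 I2 TS L K3 x0 x1 x2 : ℕ) : ℕ :=
  fn (wh3 8796093022208 x0 x1 x2 (PHs E τ r C K I1 I2 0 0 0) (PHs E τ r C K I1 I2 1 1 1)
    (PHs E τ r C K I1 I2 2 1 1) (PHs E τ r C K I1 I2 3 2 0) (PHs E τ r C K I1 I2 4 1 1)
    (PHs E τ r C K I1 I2 5 2 0) (PHs E τ r C K I1 I2 6 2 0) (PHs E τ r C K I1 I2 7 3 1)) fun t =>
  fn (wh3 4398046511104 x0 x1 x2 (FCs E τ r C K I1 I2 0 0 0) (FCs E τ r C K I1 I2 1 1 1)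
    (FCs E τ r C K I1 I2 2 1 1) (FCs E τ r C K I1 I2 3 2 0) (FCs E τ r C K I1 I2 4 1 1)
    (FCs E τ r C K I1 I2 5 2 0) (FCs E τ r C K I1 I2 6 2 0) (FCs E τ r C K I1 I2 7 3 1)) fun F =>
  XS V K TS L K3 t F

noncomputable def SX (E τ r C V K I1 I2 TS L K3 : ℕ) : ℕ :=
  Nat.add
    (Nat.add (Nat.add (Xx E τ r C V K I1 I2 TS L K3 0 0 0) (Xx E τ r C V K I1 I2 TS L K3 1 0 0))
      (Nat.add (Xx E τ r C V K I1 I2 TS L K3 0 1 0) (Xx E τ r C V K I1 I2 TS L K3 1 1 0)))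
    (Nat.add (Nat.add (Xx E τ r C V K I1 I2 TS L K3 0 0 1) (Xx E τ r C V K I1 I2 TS L K3 1 0 1))
      (Nat.add (Xx E τ r C V K I1 I2 TS L K3 0 1 1) (Xx E τ r C V K I1 I2 TS L K3 1 1 1)))

noncomputable def SN (E τ r C I1 I2 : ℕ) : ℕ :=
  shr 24 (Nat.add
    (Nat.add (Nat.add (NPs E τ r C I1 I2 0 0 0) (NPs E τ r C I1 I2 1 1 1))
      (Nat.add (NPs E τ r C I1 I2 2 1 1) (NPs E τ r C I1 I2 3 2 0)))
    (Nat.add (Nat.add (NPs E τ r C I1 I2 4 1 1) (NPs E τ r C I1 I2 5 2 0))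
      (Nat.add (NPs E τ r C I1 I2 6 2 0) (NPs E τ r C I1 I2 7 3 1))))

noncomputable def NL (τ W : ℕ) : ℕ :=
  shr 9 (Nat.add (ln (tbL τ) W 1 12) (cst (Nat.sub 1152921504606846976 (Nat.shiftLeft (sm W 12) 31))))

def THR (K MF : ℕ) : ℕ := 20248606137122815 + K * 1099511627264 + MF * 8192

noncomputable def SG (V K TS L : ℕ) : ℕ :=
  sumN (fun i => Nat.sub (Nat.add (Nat.mul 4096 TS) 16492674416640) (TH V K i)) L

noncomputable def envl (V K TS L : ℕ) : Bool :=
  allN (fun i => Nat.ble (V * P9n (64 - i) / 274877906944 + 1 + 4096 * TS * (64 - i))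
    (SG V K TS L + K * ((64 - i) * (64 - i)) * 16384 + 1099511627776 * (64 - i))) (Nat.sub 64 L)

/-- static bounds on the parameters -/
noncomputable def bnd (r E C : ℕ) : Bool :=
  an (Nat.ble r 256) <| an (Nat.ble (fd E 4) 16) <|
  an (allN (fun j => an (Nat.ble (ef E j 0) 1048576) (an (Nat.ble (em E j 1) 16777216)
    (Nat.ble (em E j 2) 2621440))) 7) <|
  an (Nat.ble 1 (fd C 0)) <| an (Nat.ble (fd C 0) 67108864) <| an (Nat.ble (fd C 1) 32767) <|
  an (Nat.ble (fd C 2) 8191) <| an (Nat.ble (fd C 3) 4095) <| an (Nat.ble (fd C 3) (fd C 2)) <|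
  an (Nat.ble (fd C 4) 536870911) <| an (Nat.ble (fd C 5) 64) (Nat.ble (sm (lN C) 12) 134217728)

/-- the bound at all nodes -/
noncomputable def nodeChk (r E C : ℕ) : Bool :=
  an (bnd r E C) <| frc (fd E 4) fun τ => frc (fd C 0) fun V => frc (fd C 1) fun K =>
  frc (fd C 2) fun I1 => frc (fd C 3) fun I2 => frc (fd C 4) fun TS => frc (fd C 5) fun L =>
  frc (Nat.mul (Nat.mul K (Nat.sub I1 I2)) 256) fun K3 => frc (lN C) fun W =>
  an (envl V K TS L) <|
  an (oks E τ r C I2 0 0 0) <| an (oks E τ r C I2 1 1 1) <| an (oks E τ r C I2 2 1 1) <|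
  an (oks E τ r C I2 3 2 0) <| an (oks E τ r C I2 4 1 1) <| an (oks E τ r C I2 5 2 0) <|
  an (oks E τ r C I2 6 2 0) <| an (oks E τ r C I2 7 3 1) <|
  leq (Nat.add (Nat.add (SX E τ r C V K I1 I2 TS L K3)
    (Nat.mul (Nat.shiftLeft K 9) (SN E τ r C I1 I2))) (NL τ W)) (cst (THR K (fd C 6)))

/-! ### scalar conditions -/

def up (N k : ℕ) : ℕ := Nat.succ (Nat.shiftRight N k)

noncomputable def dt (N o : ℕ) (κ : ℕ → ℕ) : ℕ := sumN (fun j => Nat.mul (mg N (Nat.add j o)) (κ j)) 7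

noncomputable def dz (N : ℕ) (κ : ℕ → ℤ) : ℤ := sumZ (fun j => Int.mul (iv N (Nat.add j 2)) (κ j)) 7

def cr (S : ℕ) : ℕ := S % 2 + S / 2 % 2 + S / 4 % 2

def ev (S : ℕ) : ℕ := 1 - cr S % 2

def kt (E j : ℕ) : ℕ := (j + 1) * fd E 4

def kt2 (E j : ℕ) : ℕ := kt E j * kt E j

def kc (E j : ℕ) : ℕ := ef E j 0 * em E j 1

def kd (E j : ℕ) : ℕ := ef E j 0 * em E j 2

def k2 (E j : ℕ) : ℕ := ef E j 0 * (9 * (em E j 1 * em E j 1) + 2304 * (em E j 2 * em E j 2))

noncomputable def K0n (E N : ℕ) : ℕ := up (9 * dt N 2 (kt2 E)) 3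

noncomputable def K1n (r E N s : ℕ) : ℕ := up (rp r s * dt N 2 (k2 E)) 79

noncomputable def Z0n (E N e : ℕ) : ℕ := 6144 * (e * 16 * mg N 0 + dt N 2 (kt E))

def U0n (N e : ℕ) : ℕ := 1572864 * (e * mg N 1)

noncomputable def Z1n (r E N s e : ℕ) : ℕ :=
  up (3 * (rp r s * (e * r * 4294967296 * mg N 0 + dt N 2 (kc E)))) 49

noncomputable def U1n (r E N s e : ℕ) : ℕ :=
  up (3 * (rp r s * (e * r * 4294967296 * mg N 1 + dt N 2 (kd E)))) 45

noncomputable def ebn (N : ℕ) : ℕ := sm N 9 + 16777216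

noncomputable def e0n (E N : ℕ) : ℕ := K0n E N + ebn N

noncomputable def e1n (r E N s : ℕ) : ℕ := K1n r E N s + ebn N

def KK (C : ℕ) : ℕ := fd C 1 * 16777216 + fd C 7 * 256

def K3n (C : ℕ) : ℕ := fd C 1 * (fd C 2 - fd C 3) * 4096

def KG (C : ℕ) : ℕ := fd C 1 * fd C 2 * fd C 3 - fd C 8 * 256

def KQn (k k3 kg e0 e1 z0 u0 z1 u1 : ℕ) : ℕ :=
  up (k * (z1 * z1 + u1 * u1) + k3 * (z1 * z0 + u1 * u0) + 4 * (k3 * (e1 * e0)) + 4 * (kg * (e0 * e0))) 74

noncomputable def EIb (r E k k3 kg N s e : ℕ) : ℕ :=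
  KQn k k3 kg (e0n E N) (e1n r E N s) (Z0n E N e + 2 * ebn N) (U0n N e + 2 * ebn N)
    (Z1n r E N s e + 2 * ebn N) (U1n r E N s e + 2 * ebn N)

noncomputable def EIy (r E N s : ℕ) : ℕ := K0n E N + K1n r E N s + 2 * (sm N 9 + 4096)

noncomputable def C6z (C : ℕ) : ℤ := iv (lN C) 9

noncomputable def C4z (C : ℕ) : ℤ := iv (lN C) 8 * 524288 + 41 * Int.ofNat (C6z C).toNat

noncomputable def C2z (C : ℕ) : ℤ := iv (lN C) 7 * 274877906944 + 15 * Int.ofNat (C4z C).toNat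

noncomputable def KLn (E C : ℕ) : ℕ :=
  up (9 * (C2z C).toNat) 35 + up (C4z C).toNat 21 + up (C6z C).toNat 9 +
    18432 * (iv (lN C) 10).toNat + up (9 * dt (lN C) 0 (kt2 E)) 3 + sm (lN C) 12

noncomputable def EI (r E C : ℕ) : ℕ :=
  KLn E C + 4096 * (fd C 9 + fd C 10) + sumN (fun S =>
    fn (yN C S) (fun y => fn (cr S) fun s => EIy r E y s) + sm (aN C S) 2 +
    fn (bN C S) fun b => fn (cr S) fun s => fn (ev S) fun e =>
      EIb r E (KK C) (K3n C) (KG C) b s e) 8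

def sq (x : ℕ) : ℕ := Nat.mul x x

noncomputable def chkI (r E C : ℕ) : Bool :=
  an (Nat.ble (fd C 8 * 256) (fd C 1 * fd C 2 * fd C 3)) <|
  an (Nat.ble (sumN (fun S => fn (bN C S) fun b => fn (cr S) fun s =>
      sq (2 * KK C * e1n r E b s + K3n C * e0n E b)) 8)
    (Nat.shiftLeft (fd C 7 * fd C 9) 94))
  (Nat.ble (sumN (fun S => fn (bN C S) fun b => fn (cr S) fun s =>
      sq (K3n C * e1n r E b s + 2 * KG C * e0n E b)) 8)
    (Nat.shiftLeft (fd C 8 * fd C 10) 94))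

noncomputable def M0z (C : ℕ) : ℤ :=
  Int.subNatNat (fd C 6 * 65536 + fd C 1 * fd C 2 * fd C 3 * 256 + fd C 1 * 262144) 140737488355328

noncomputable def Mz (r E C : ℕ) : ℤ := M0z C + Int.ofNat (EI r E C)

noncomputable def D0n (N : ℕ → ℕ) : ℕ :=
  sumN (fun S => (1 - ev S) * mg (N S) 0 + dt (N S) 2 (fun _ => 1)) 8

noncomputable def D1n (N : ℕ → ℕ) : ℕ := sumN (fun S => ev S * (mg (N S) 0 + mg (N S) 1)) 8

noncomputable def Atn (r E C : ℕ) : ℕ :=
  512 * (C6z C).natAbs + up (31329 * up (C4z C).natAbs 5) 20 +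
    up (981506241 * (up (C2z C).natAbs 19 + 524288 * (mg (lN C) 10 + mg (lN C) 11) +
      up ((K3n C + 2 * KG C) * sq (177 * (262144 + D0n (bN C)) + 1024 * D1n (bN C))) 49)) 40 +
    up (173726604657 * (4194304 * (2 * D1n (yN C) + D1n (aN C)))) 50 +
    up (30749609024289 * (16711680 * fd C 0 + 4194304 * (2 * D0n (yN C) +
      (mg C 30 + mg C 31 + mg C 32) + sm (lN C) 7) + (Mz r E C).natAbs)) 60

noncomputable def EEn (r E : ℕ) (N : ℕ → ℕ) : ℕ :=
  sumN (fun S => sq (rp r (cr S) * dt (N S) 2 (fun j => ef E j 3))) 8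

noncomputable def Whn (E N lo hi : ℕ) : ℕ :=
  (hi - lo) * 536870912 +
    (Int.ofNat ((lo + hi) * 536870912) - iv N 0 * 16777216 - dz N (fun j => ei E j 4)).natAbs +
    dt N 2 (fun j => ef E j 5)

noncomputable def G0z (E N w0 w1 : ℕ) : ℤ :=
  Int.ofNat ((w0 + w1) * 17179869184) - iv N 0 * 536870912 +
    iv N 1 * Int.ofNat ((fd E 1 + fd E 2) * fd E 3) - 8192 * dz N (fun j => ei E j 6)

noncomputable def G1z (E N : ℕ) : ℤ := -(iv N 1 * Int.ofNat (fd E 3)) - dz N (fun j => ei E j 7)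

noncomputable def G2z (E N : ℕ) : ℤ := -dz N (fun j => ei E j 8) * Int.ofNat (fd E 0 * fd E 0)

noncomputable def Wtn (E N w0 w1 : ℕ) : ℕ :=
  (w1 - w0) * 1099511627776 +
    mx (64 * G0z E N w0 w1 - G2z E N).natAbs
      (64 * G0z E N w0 w1 + G1z E N * Int.ofNat (2048 * fd E 0) + 7 * G2z E N).natAbs +
    (G2z E N).natAbs + 2048 * dt N 2 (fun j => ef E j 9)

noncomputable def WBn (E C c : ℕ) : ℕ :=
  sq (Wtn E (bN C 0) (fd c 6) (fd c 7)) + 4194304 * (sq (Whn E (bN C 1) (fd c 0) (fd c 3)) +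
    sq (Whn E (bN C 2) (fd c 1) (fd c 4)) + sq (Whn E (bN C 4) (fd c 2) (fd c 5)))

noncomputable def vqn (E v : ℕ) : ℕ := ifb (Nat.ble 2 v) (fd E 2) (fd E 1)

noncomputable def dqz (E v : ℕ) : ℤ := Int.subNatNat (2 * vqn E v) (fd E 1 + fd E 2)

noncomputable def v3z (E v : ℕ) : ℤ :=
  ifz (v % 2) (Int.subNatNat (4 * (fd E 1 + fd E 2) * vqn E v) (sq (fd E 1 + fd E 2)))
    (Int.ofNat (64 * fd E 0 * vqn E v))

noncomputable def vvz (E v : ℕ) : ℤ :=
  v3z E v + Int.subNatNat (sq (fd E 1 + fd E 2)) (4 * (fd E 1 + fd E 2) * vqn E v)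

noncomputable def phz (E C v : ℕ) : ℤ :=
  iv C 28 * 536870912 + iv C 29 * dqz E v * Int.ofNat (fd E 3)

noncomputable def cvAz (E C c v : ℕ) : ℤ :=
  512 * sumZ (fun j => iv C (30 + j) * Int.ofNat (fd c j + fd c (3 + j)) +
      Int.ofNat (mg C (30 + j) * (fd c (3 + j) - fd c j))) 3 +
    (Int.ofNat (fd c 6 + fd c 7) * phz E C v +
      Int.ofNat ((fd c 7 - fd c 6) * (phz E C v).natAbs)) / 1048576 + 1

noncomputable def cvLz (E C v : ℕ) : ℤ :=
  (1048576 * C2z C + 4194304 * (C4z C * Int.subNatNat 12288 (2 * vqn E v) +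
      C6z C * (Int.subNatNat 1006632960 (491520 * vqn E v) + 16 * v3z E v)) +
    iv (lN C) 10 * Int.ofNat (sq (fd E 3)) * vvz E v +
    536870912 * (iv (lN C) 11 * dqz E v * Int.ofNat (fd E 3)) +
    137438953472 * sumZ (fun j => iv (lN C) j *
      ifz (sn (lN C) j) (ei E j (14 + v)) (ei E j (10 + v))) 7) / 549755813888 + 1

noncomputable def chkQ (r C : ℕ) : Bool :=
  an (Nat.ble (KK C * (r * r * r)) (K3n C * 16777216)) <|
  an (Nat.ble (fd C 11 * sq (K3n C)) (Nat.shiftLeft (KG C) 56)) <|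
  an (Nat.ble (Nat.shiftLeft (KK C * (r * r)) 56 +
      fd C 11 * sq (Int.subNatNat (2 * KK C * r) (256 * K3n C)).natAbs)
    (Nat.shiftLeft (fd C 12) 80 + Nat.shiftLeft (K3n C * r) 64 + Nat.shiftLeft (KG C) 72)) <|
  an (Nat.ble (72057594037927936 + 4 * fd C 11 * KK C) (262144 * fd C 11 * fd C 13))
    (Nat.ble (K3n C) (2 * KK C))

noncomputable def Bz (r E C c : ℕ) : ℤ :=
  Mz r E C + Int.ofNat (up (Atn r E C) 7 + 65536 * fd C 14 + up (fd C 12 * WBn E C c) 90 +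
    up (fd C 13 * EEn r E (bN C)) 108)

noncomputable def zle (a b : ℤ) : Bool :=
  @Int.rec (fun _ => Bool) (fun _ => true) (fun _ => false) (Int.sub b a)

noncomputable def chkV (r E C c : ℕ) : Bool :=
  an (allN (fun j => Nat.ble (fd c j) (fd c (3 + j))) 3) <| an (Nat.ble (fd c 6) (fd c 7)) <|
  an (Nat.ble (EEn r E (yN C)) (Nat.shiftLeft (sq (fd C 14)) 84)) <|
  allN (fun v => zle (64 * (Bz r E C c + cvAz E C c v + cvLz E C v)) (Int.ofNat (fd C 0) * iv c 11)) 4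

noncomputable def chk1 (r E c C : ℕ) : Bool :=
  an (Nat.beq (fd c 8) (fd E 0)) <| an (Nat.beq (fd c 9) (fd E 1)) <| an (Nat.beq (fd c 10) (fd E 2)) <|
  an (chkQ r C) <| an (chkI r E C) <| an (chkV r E C c) (nodeChk r E C)

def cel (CL i : ℕ) : ℕ := sub CL (Nat.mul 12 i) 12

noncomputable def chkG (r E CL : ℕ) (l : List ℕ) : ℕ → Bool :=
  @List.rec ℕ (fun _ => ℕ → Bool) (fun _ => true) (fun C _ ih i =>
    an (frc (cel CL i) fun c => frc C fun C' => chk1 r E c C') (frc (Nat.succ i) ih)) l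

noncomputable def chkE (r E CL i : ℕ) (l : List ℕ) : Bool :=
  frc r fun r' => frc E fun E' => frc CL fun CL' => chkG r' E' CL' l i

/-! ### real meaning of the numerals -/

noncomputable def evR (r E : ℕ) : Ev where
  ρ := r / 256
  X := fd E 0 / 2 ^ 8
  Q0 := fd E 1 / 2 ^ 12
  Q1 := fd E 2 / 2 ^ 12
  lam := (fd E 1 + fd E 2) / 2 ^ 13
  isv := fd E 3 / 2 ^ 16
  t := fun j => (j + 1) * fd E 4 / 16
  R := fun j => ef E j 0 / 2 ^ 20
  c := fun j => ei E j 1 / 2 ^ 20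
  d := fun j => ei E j 2 / 2 ^ 20
  er := fun j => ef E j 3 / 2 ^ 24
  pm := fun j => ei E j 4 / 2 ^ 24
  pr := fun j => ef E j 5 / 2 ^ 24
  al := fun j => ei E j 6 / 2 ^ 16
  be := fun j => ei E j 7 / 2 ^ 16
  ga := fun j => ei E j 8 / 2 ^ 16
  et := fun j => ef E j 9 / 2 ^ 24
  lo := fun j v => ei E j (10 + v) / 2 ^ 24
  hi := fun j v => ei E j (14 + v) / 2 ^ 24

noncomputable def co (N j : ℕ) : ℝ := iv N j / 2 ^ 18

noncomputable def ctR (C : ℕ) : Ct where
  vp := fd C 0 / 2 ^ 24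
  k := KK C / 2 ^ 32
  k3 := K3n C / 2 ^ 32
  kg := KG C / 2 ^ 32
  c2 := C2z C / 2 ^ 59
  c4 := C4z C / 2 ^ 45
  c6 := C6z C / 2 ^ 31
  mu := iv (lN C) 10 / 2 ^ 21
  nu := iv (lN C) 11 / 2 ^ 21
  y := fun S => co (yN C S)
  b := fun S => co (bN C S)
  a := fun S => co (aN C S)
  yc := co (lN C)

noncomputable def clR (c : ℕ) : Cl where
  lo := fun j => fd c j / 2 ^ 12
  hi := fun j => fd c (3 + j) / 2 ^ 12
  w0 := fd c 6 / 2 ^ 12
  w1 := fd c 7 / 2 ^ 12
  U := iv c 11 / 2 ^ 22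

def CellN (r c : ℕ) : Prop :=
  CellP ((r : ℝ) / 256) (fd c 8 / 2 ^ 8) (fd c 9 / 2 ^ 12) (fd c 10 / 2 ^ 12) (clR c)

end Pool.Agent.MP_ebf981_lc.N9

end

section

/-! Nine players: polynomial models, families of one dimensional estimates, environments, trees. -/

namespace Pool.Agent.MP_ebf981_lc.N9

open Finset

/-! ### one dimensional estimates -/

def F1 (κ t X A B C η : ℝ) : Prop :=
  ∀ a : ℝ, a ^ 2 ≤ X →
    Real.exp (2 * a ^ 2 * (A - η + B * a ^ 2 + C * a ^ 4)) ≤ 1 - κ * Real.sin (t * a) ^ 2 ∧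
      1 - κ * Real.sin (t * a) ^ 2 ≤ Real.exp (2 * a ^ 2 * (A + η + B * a ^ 2 + C * a ^ 4))

def F2 (ρ t X c δ er : ℝ) : Prop :=
  ∀ a : ℝ, a ^ 2 ≤ X →
    0 ≤ Real.cos (t * a) * Real.cos (a * (c + δ * a ^ 2)) +
        ρ * Real.sin (t * a) * Real.sin (a * (c + δ * a ^ 2)) ∧
      |ρ * Real.sin (t * a) * Real.cos (a * (c + δ * a ^ 2)) -
          Real.cos (t * a) * Real.sin (a * (c + δ * a ^ 2))| ≤
        er * |a| * (Real.cos (t * a) * Real.cos (a * (c + δ * a ^ 2)) +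
          ρ * Real.sin (t * a) * Real.sin (a * (c + δ * a ^ 2)))

def F3 (t X A B C η : ℝ) : Prop :=
  ∀ a : ℝ, a ^ 2 ≤ X → 0 ≤ Real.cos (t * a) ∧
    |Real.sin (t * a) - a * (A + B * a ^ 2 + C * a ^ 4) * Real.cos (t * a)| ≤
      η * |a| * Real.cos (t * a)

/-! ### polynomial models on the unit interval, digits of 128 bits, scale `2 ^ 48` -/

structure TM where
  N : ℤ
  d : ℕ
  n : ℕ
  e : ℕ

def TM.ok (P : TM) (f : ℝ → ℝ) : Prop :=
  ∃ c : ℕ → ℤ, P.N = ∑ i ∈ range (P.d + 1), c i * 2 ^ (128 * i) ∧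
    ∑ i ∈ range (P.d + 1), |c i| ≤ (P.n : ℤ) ∧
    ∀ x : ℝ, 0 ≤ x → x ≤ 1 → |f x * 2 ^ 48 - ∑ i ∈ range (P.d + 1), (c i : ℝ) * x ^ i| ≤ (P.e : ℝ)

def pol (a b c : ℤ) : TM :=
  ⟨a + b * 340282366920938463463374607431768211456 +
    c * 115792089237316195423570985008687907853269984665640564039457584007913129639936, 2,
    a.natAbs + b.natAbs + c.natAbs, 0⟩

def tc (a : ℤ) (e : ℕ) : TM := ⟨a, 0, a.natAbs, e⟩

noncomputable def tadd (P Q : TM) : TM :=
  ⟨Int.add P.N Q.N, mx P.d Q.d, Nat.add P.n Q.n, Nat.add P.e Q.e⟩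

def tneg (P : TM) : TM := ⟨Int.neg P.N, P.d, P.n, P.e⟩

/-- multiplication by the variable -/
def tx (P : TM) : TM :=
  ⟨Int.mul P.N 340282366920938463463374607431768211456, Nat.succ P.d, P.n, P.e⟩

/-- digits moved to the positive range by the offset `2 ^ 126` -/
def tof (N : ℤ) (d : ℕ) : ℕ :=
  Int.toNat (Int.add N (Int.ofNat (Nat.shiftLeft (onw 128 (Nat.succ d)) 126)))

noncomputable def tmul (P Q : TM) : TM :=
  ifb (Nat.ble (Nat.mul P.n Q.n) 42535295865117307932921825928971026432)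
    ⟨Int.subNatNat (Nat.land (Nat.shiftRight (tof (Int.mul P.N Q.N) (Nat.add P.d Q.d)) 48)
        (Nat.mul 1208925819614629174706175 (onw 128 (Nat.succ (Nat.add P.d Q.d)))))
        (Nat.shiftLeft (onw 128 (Nat.succ (Nat.add P.d Q.d))) 78),
      Nat.add P.d Q.d,
      Nat.add (up (Nat.mul P.n Q.n) 48) (Nat.succ (Nat.add P.d Q.d)),
      Nat.add (up (Nat.add (Nat.add (Nat.mul P.e Q.n) (Nat.mul Q.e P.n)) (Nat.mul P.e Q.e)) 48)
        (Nat.succ (Nat.add P.d Q.d))⟩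
    ⟨0, 0, 0, up (Nat.mul (Nat.add P.n P.e) (Nat.add Q.n Q.e)) 48⟩

/-- evaluate the four fields -/
noncomputable def tf {α : Type} (z : α) (P : TM) (k : TM → α) : α :=
  @Nat.rec (fun _ => α) z (fun d _ => @Nat.rec (fun _ => α) z (fun n _ =>
    @Nat.rec (fun _ => α) z (fun e _ => @Int.rec (fun _ => α)
      (fun a => @Nat.rec (fun _ => α) z (fun a' _ => k ⟨Int.ofNat a', d, n, e⟩) (Nat.succ a))
      (fun a => @Nat.rec (fun _ => α) z (fun a' _ => k ⟨Int.negSucc a', d, n, e⟩) (Nat.succ a))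
      P.N) (Nat.succ P.e)) (Nat.succ P.n)) (Nat.succ P.d)

theorem tf_eq {α : Type} (z : α) (P : TM) (k : TM → α) : tf z P k = k P := by
  obtain ⟨N, d, n, e⟩ := P
  cases N <;> rfl

noncomputable def tv (P : TM) : TM := tf P P (fun Q => Q)

/-- Horner scheme for `∑ k < n, cf k * P ^ k`, each coefficient known up to one unit -/
noncomputable def hor9 (cf : ℕ → ℤ) (P : TM) (n : ℕ) : TM :=
  @Nat.rec (fun _ => TM) (tc 0 0)
    (fun i acc => tv (tadd (tc (cf (Nat.sub (Nat.sub n 1) i)) 1) (tmul P acc))) n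

noncomputable def fac (n : ℕ) : ℕ := @Nat.rec (fun _ => ℕ) 1 (fun i a => Nat.mul a (Nat.succ i)) n

/-- add the remainder `2 * M ^ n / m !` of the series, `M` the size of the argument -/
noncomputable def rem (H P : TM) (n m : ℕ) : TM :=
  ⟨H.N, H.d, H.n, Nat.add H.e (Nat.succ (Nat.div
    (Nat.mul 562949953421312 (Nat.pow (Nat.add P.n P.e) n)) (Nat.shiftLeft (fac m) (Nat.mul 48 n))))⟩

noncomputable def alt (k : ℕ) (x : ℕ) : ℤ := ifz (Nat.mod k 2) (Int.ofNat x) (Int.negOfNat x)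

noncomputable def E1 (s : ℝ) : ℝ := if s = 0 then 1 else (Real.exp s - 1) / s

noncomputable def Cq (s : ℝ) : ℝ := Real.cos (Real.sqrt s)

noncomputable def Sq (s : ℝ) : ℝ := Real.sinc (Real.sqrt s)

noncomputable def tE (P : TM) (n : ℕ) : TM :=
  rem (hor9 (fun k => Int.ofNat (Nat.div 281474976710656 (fac (Nat.succ k)))) P n) P n (Nat.succ n)

noncomputable def tC (P : TM) : TM :=
  rem (hor9 (fun k => alt k (Nat.div 281474976710656 (fac (Nat.mul 2 k)))) P 10) P 10 20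

noncomputable def tS (P : TM) : TM :=
  rem (hor9 (fun k => alt k (Nat.div 281474976710656 (fac (Nat.succ (Nat.mul 2 k))))) P 10) P 10 21

/-- the argument of a series is small enough -/
def tsm (P : TM) (m : ℕ) : Bool := Nat.ble (Nat.add P.n P.e) (Nat.shiftLeft m 48)

/-- sum of the absolute values of the digits, offset `2 ^ 126`, `n` digits -/
def asum (H n : ℕ) : ℕ :=
  Nat.mod (Nat.sub (Nat.add (Nat.shiftLeft (Nat.land H
      (Nat.mul (Nat.land (Nat.shiftRight H 126) (onw 128 n)) 85070591730234615865843651857942052863)) 1)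
    (Nat.shiftLeft (onw 128 n) 126)) H) 340282366920938463463374607431768211455

def dg (H i : ℕ) : ℕ :=
  Nat.mod (Nat.shiftRight H (Nat.mul 128 i)) 340282366920938463463374607431768211456

noncomputable def Wp (i : ℕ) : ℕ :=
  sumN (fun n => Nat.shiftLeft (Nat.pow n i) (Nat.add (Nat.mul 256 n) (Nat.mul 8 (Nat.sub 20 i)))) 257

noncomputable def SW : ℕ := Nat.shiftLeft (sumN Wp 21) 126

def o254 : ℕ := Nat.shiftLeft (onw 256 257) 254

/-- threshold: model error, dropped digits, second derivative -/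
noncomputable def thr (H d e : ℕ) : ℕ :=
  e + asum (Nat.shiftRight H 2688) (d + 20) + up (sumN (fun i =>
    i * (i - 1) * (Int.subNatNat (dg H i) 85070591730234615865843651857942052864).natAbs) 21) 19

noncomputable def posH (H d e : ℕ) : Bool :=
  an (Nat.ble (thr H d e) 1208925819614629174706176)
    (Nat.beq (Nat.land (Nat.sub (Nat.add (sumN (fun i => Nat.mul (dg H i) (Wp i)) 21) o254)
      (Nat.add SW (Nat.shiftLeft (Nat.mul (thr H d e) (onw 256 257)) 160))) o254) o254)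

noncomputable def pos (P : TM) : Bool :=
  tf false P fun Q => an (Nat.ble Q.n 4611686018427387904)
    (frc (tof Q.N (Nat.add Q.d 40)) fun H => posH H Q.d Q.e)

/-- `2 X (A + η) + 2 X ^ 2 B x + 2 X ^ 3 C x ^ 2` -/
def tP (X : ℕ) (A B C η : ℤ) : TM :=
  pol (131072 * (Int.ofNat X * (16 * A + η))) (8192 * (Int.ofNat (X * X) * B))
    (512 * (Int.ofNat (X * X * X) * C))

/-- square of the angle; `t` at scale 16 -/
def tA (X t : ℕ) : TM := tx (tc (Int.ofNat (4294967296 * (t * t * X))) 0)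

noncomputable def tSa (X t : ℕ) : TM := tv (tS (tA X t))

noncomputable def tCa (X t : ℕ) : TM := tv (tC (tA X t))

noncomputable def tK (κ X t : ℕ) : TM :=
  tv (tmul (tc (Int.ofNat (65536 * (κ * (t * t * X)))) 0) (tmul (tSa X t) (tSa X t)))

noncomputable def tX (P : TM) (n : ℕ) : TM := tmul P (tE (tx P) n)

/-- `κ` at scale `2 ^ 16`, `A B` at `2 ^ 20`, `C` at `2 ^ 16`, `η` at `2 ^ 24` -/
noncomputable def f1 (κ X t : ℕ) (A B C : ℤ) (η n : ℕ) : Bool :=
  an (tsm (tA X t) 25) <|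
  tf false (tP X A B C (Int.ofNat η)) fun P => tf false (tP X A B C (Int.negOfNat η)) fun Q =>
  an (tsm P (n / 2)) <| an (tsm Q (n / 2)) <|
  an (pos (tadd (tX P n) (tK κ X t))) (pos (tneg (tadd (tX Q n) (tK κ X t))))

/-- `c δ` at scale `2 ^ 20`, `er` at `2 ^ 24` -/
noncomputable def f2 (r X t : ℕ) (c δ : ℤ) (er : ℕ) : Bool :=
  an (Nat.ble 1 er) <| an (tsm (tA X t) 25) <|
  tf false (pol (268435456 * c) (1048576 * (δ * Int.ofNat X)) 0) fun β =>
  tf false (tx (tmul (tc (Int.ofNat (1099511627776 * X)) 0) (tmul β β))) fun V =>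
  an (tsm V 25) <| tf false (tC V) fun Cv => tf false (tmul β (tS V)) fun Sv =>
  tf false (tmul (tc (Int.ofNat (68719476736 * (r * t))) 0) (tSa X t)) fun Sa =>
  tf false (tmul (tc (Int.ofNat (16777216 * er)) 0) (tadd (tmul (tCa X t) Cv)
    (tx (tmul (tc (Int.ofNat (1099511627776 * X)) 0) (tmul Sa Sv))))) fun p =>
  tf false (tadd (tmul Sa Cv) (tneg (tmul (tCa X t) Sv))) fun q =>
  an (pos (tadd p q)) (pos (tadd p (tneg q)))

/-- `A B` at scale `2 ^ 20`, `C` at `2 ^ 16`, `η` at `2 ^ 24` -/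
noncomputable def f3 (X t : ℕ) (A B C : ℤ) (η : ℕ) : Bool :=
  an (Nat.ble 1 η) <| an (tsm (tA X t) 25) <|
  tf false (tmul (tc (Int.ofNat (16777216 * η)) 0) (tCa X t)) fun p =>
  tf false (tadd (tmul (tc (Int.ofNat (17592186044416 * t)) 0) (tSa X t))
    (tneg (tmul (pol (268435456 * A) (1048576 * (B * Int.ofNat X)) (65536 * (C * Int.ofNat (X * X))))
      (tCa X t)))) fun q =>
  an (pos (tadd p q)) (pos (tadd p (tneg q)))

/-- fields of a family: `X`, `τ`, then ten fields for each frequency -/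
def ff (F j i : ℕ) : ℕ := fd F (Nat.add (Nat.add 2 (Nat.mul 10 j)) i)

noncomputable def fi (F j i : ℕ) : ℤ := iv F (Nat.add (Nat.add 2 (Nat.mul 10 j)) i)

/-- family for the noise operator: flag, A, B, C, η, c, δ, er, order -/
noncomputable def famT (r F : ℕ) : Bool :=
  an (Nat.ble r 256) <| allN (fun j => ifz (ff F j 0) true
    (frc (fd F 0) fun X => frc ((j + 1) * fd F 1) fun t =>
      an (f1 (65536 - r * r) X t (fi F j 1) (fi F j 2) (fi F j 3) (ff F j 4) (ff F j 8))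
        (f2 r X t (fi F j 5) (fi F j 6) (ff F j 7)))) 7

/-- family for the law: flag, A, B, C, η, gA, gB, gC, gη, order -/
noncomputable def famL (F : ℕ) : Bool :=
  allN (fun j => ifz (ff F j 0) true
    (frc (fd F 0) fun X => frc ((j + 1) * fd F 1) fun t =>
      an (f1 65536 X t (fi F j 1) (fi F j 2) (fi F j 3) (ff F j 4) (ff F j 9))
        (f3 X t (fi F j 5) (fi F j 6) (fi F j 7) (ff F j 8)))) 7

def FamT (r F : ℕ) : Prop :=
  ∀ j < 7, ff F j 0 ≠ 0 →
    F1 (1 - ((r : ℝ) / 256) ^ 2) ((j + 1) * fd F 1 / 16) (fd F 0 / 2 ^ 8) (fi F j 1 / 2 ^ 20)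
      (fi F j 2 / 2 ^ 20) (fi F j 3 / 2 ^ 16) (ff F j 4 / 2 ^ 24) ∧
    F2 ((r : ℝ) / 256) ((j + 1) * fd F 1 / 16) (fd F 0 / 2 ^ 8) (fi F j 5 / 2 ^ 20)
      (fi F j 6 / 2 ^ 20) (ff F j 7 / 2 ^ 24)

def FamL (F : ℕ) : Prop :=
  ∀ j < 7, ff F j 0 ≠ 0 →
    F1 1 ((j + 1) * fd F 1 / 16) (fd F 0 / 2 ^ 8) (fi F j 1 / 2 ^ 20)
      (fi F j 2 / 2 ^ 20) (fi F j 3 / 2 ^ 16) (ff F j 4 / 2 ^ 24) ∧
    F3 ((j + 1) * fd F 1 / 16) (fd F 0 / 2 ^ 8) (fi F j 5 / 2 ^ 20)
      (fi F j 6 / 2 ^ 20) (fi F j 7 / 2 ^ 16) (ff F j 8 / 2 ^ 24)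

/-! ### environments -/

/-- lower bound for the exponential; argument at scale `2 ^ 42`, value at scale `2 ^ 56` -/
noncomputable def exl (x : ℤ) : ℕ :=
  @Nat.rec (fun _ => ℕ) (Int.toNat (72057594037927936 + x))
    (fun _ a => fn a fun b => Nat.shiftRight (Nat.mul b b) 56) 14

/-- exponent at a vertex, scale `2 ^ 42` -/
noncomputable def lv (F E j v : ℕ) (η : ℤ) : ℤ :=
  262144 * (16 * fi F j 1 + η) + 1024 * (fi F j 2 * Int.ofNat (vqn E v)) + fi F j 3 * v3z E v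

noncomputable def lp (F E j v : ℕ) : ℤ := lv F E j v (Int.ofNat (ff F j 4))

noncomputable def lm (F E j v : ℕ) : ℤ := lv F E j v (Int.negOfNat (ff F j 4))

noncomputable def zmin (a b : ℤ) : ℤ := ifb (zle a b) a b

/-- mismatch of the phases, scale `2 ^ 49` -/
noncomputable def mis (F E j : ℕ) : ℕ :=
  (536870912 * (ei E j 1 - fi F j 5) - ei E j 2 * Int.ofNat (fd E 3 * (fd E 1 + fd E 2))).natAbs +
    32 * ((ei E j 2 * Int.ofNat (fd E 3) - 65536 * fi F j 6).natAbs * fd E 0)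

/-- `R` at scale `2 ^ 20`, its radius (field 18) at scale `2 ^ 24` -/
noncomputable def envT (F E j : ℕ) : Bool :=
  ifz (ff F j 0) (an (Nat.beq (ef E j 0) 0) (Nat.ble 16777216 (ef E j 3))) <|
  an (Nat.ble (4294967296 * (16 * ef E j 0 - ef E j 18))
    (exl (zmin (zmin (lm F E j 0) (lm F E j 1)) (zmin (lm F E j 2) (lm F E j 3))))) <|
  an (ifb (Nat.ble 16777216 (16 * ef E j 0 + ef E j 18)) true
    (Nat.ble 1208925819614629174706176 ((16 * ef E j 0 + ef E j 18) *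
      exl (zmin (zmin (-lp F E j 0) (-lp F E j 1)) (zmin (-lp F E j 2) (-lp F E j 3))))))
  (Nat.ble (Nat.shiftLeft (sq (ef E j 18)) 94 +
      ef E j 0 * (16 * ef E j 0 + ef E j 18) * sq (33554432 * ff F j 7 + mis F E j))
    (Nat.shiftLeft (sq (ef E j 3)) 94))

noncomputable def l0 (F E j : ℕ) : ℤ := (lm F E j 0 + lm F E j 3) / 2

noncomputable def envL (F E j : ℕ) : Bool :=
  ifz (ff F j 0)
    (an (allN (fun v => an (zle (ei E j (10 + v)) (-16777216)) (zle 16777216 (ei E j (14 + v)))) 4) <|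
      an (Nat.beq (em E j 4 + em E j 6 + em E j 7 + em E j 8) 0) <|
      an (Nat.ble 16777216 (ef E j 5)) (Nat.ble (1048576 * kt E j) (ef E j 9))) <|
  an (allN (fun v =>
    an (zle 1208925819614629174706176 (ei E j (14 + v) * Int.ofNat (exl (-lp F E j v)))) <|
    an (zle (18889465931478580854784 * ei E j (10 + v))
      (Int.ofNat (exl (l0 F E j)) * (4398046511104 + lm F E j v - l0 F E j))) <|
    an (zle (ei E j 4 - Int.ofNat (ef E j 5)) (ei E j (10 + v)))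
      (zle (ei E j (14 + v)) (ei E j 4 + Int.ofNat (ef E j 5)))) 4)
  (Nat.ble (4096 * (268435456 * ei E j 6 - ei E j 4 * fi F j 5).natAbs +
      16 * ((268435456 * ei E j 7 - ei E j 4 * fi F j 6).natAbs * fd E 0) +
      (16777216 * ei E j 8 - ei E j 4 * fi F j 7).natAbs * sq (fd E 0) +
      ef E j 5 * (4096 * (fi F j 5).natAbs + 16 * ((fi F j 6).natAbs * fd E 0) +
        (fi F j 7).natAbs * sq (fd E 0)) +
      256 * ((em E j 4 + ef E j 5) * ff F j 8))
    (4294967296 * ef E j 9))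

noncomputable def envChk (r FT FL E : ℕ) : Bool :=
  frc FT fun F => frc FL fun G => frc E fun E' =>
  an (Nat.ble r 256) <| an (Nat.beq (fd F 0) (fd E' 0)) <| an (Nat.beq (fd G 0) (fd E' 0)) <|
  an (Nat.beq (fd F 1) (fd E' 4)) <| an (Nat.beq (fd G 1) (fd E' 4)) <|
  an (allN (fun v => zle (Int.ofNat (sq (fd E' 3)) * vvz E' v) 288230376151711744) 4) <|
  allN (fun j => an (envT F E' j) (envL G E' j)) 7

/-! ### boxes and trees -/

/-- overwrite one field -/
noncomputable def sf (B i v : ℕ) : ℕ :=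
  ifb (Nat.ble v 4294967295)
    (Nat.add (Nat.sub B (Nat.shiftLeft (fd B i) (Nat.mul 32 i))) (Nat.shiftLeft v (Nat.mul 32 i))) B

def blo (B v : ℕ) : ℕ := fd B (Nat.mul 2 v)

def bhi (B v : ℕ) : ℕ := fd B (Nat.succ (Nat.mul 2 v))

noncomputable def slo (B v x : ℕ) : ℕ := sf B (Nat.mul 2 v) x

noncomputable def shi (B v x : ℕ) : ℕ := sf B (Nat.succ (Nat.mul 2 v)) x

/-- rule `val i = val j + val k` -/
noncomputable def uS (B d i j k : ℕ) : ℕ :=
  ifb (Nat.ble 2 d)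
    (ifb (Nat.ble 3 d) (shi B j (Nat.sub (bhi B i) (blo B k))) (slo B j (Nat.sub (blo B i) (bhi B k))))
    (ifz d (slo B i (Nat.add (blo B j) (blo B k))) (shi B i (Nat.add (bhi B j) (bhi B k))))

/-- rule `val i = val j * val k` -/
noncomputable def uP (B d i j k : ℕ) : ℕ :=
  ifb (Nat.ble 2 d)
    (ifb (Nat.ble 3 d)
      (ifz (blo B k) B (shi B j (Nat.succ (Nat.div (Nat.shiftLeft (bhi B i) 24) (blo B k)))))
      (slo B j (Nat.div (Nat.shiftLeft (blo B i) 24) (bhi B k))))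
    (ifz d (slo B i (Nat.shiftRight (Nat.mul (blo B j) (blo B k)) 24))
      (shi B i (up (Nat.mul (bhi B j) (bhi B k)) 24)))

/-- rule `val i ≤ val j` -/
noncomputable def uL (B d i j : ℕ) : ℕ := ifz d (slo B j (blo B i)) (shi B i (bhi B j))

def hx (T f : ℕ) : ℕ := Nat.mod (Nat.shiftRight T (Nat.mul 4 f)) 16

/-- rule number `f`, level `l`, direction `d` -/
noncomputable def upf (B f l d : ℕ) : ℕ :=
  fn (ifz f 0 (Nat.add (hx 0x8765596120 f) (Nat.mul 7 l))) fun i =>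
  fn (Nat.add (hx 0x1373143313 f) (Nat.mul 7 l)) fun j =>
  fn (Nat.add (hx 0x9423294 f) (Nat.mul 7 l)) fun k =>
  ifb (Nat.ble 7 f) (uL B (Nat.mod d 2) i j)
    (ifb (Nat.ble 2 f) (ifb (Nat.ble 4 d) (uP B (Nat.sub d 2) i k j) (uP B d i j k))
      (ifb (Nat.ble 4 d) (uS B (Nat.sub d 2) i k j) (uS B d i j k)))

noncomputable def upd (B u : ℕ) : ℕ :=
  ifb (Nat.ble 240 u) B (fn (Nat.div u 24) fun f => fn (Nat.mod (Nat.div u 6) 4) fun l =>
    fn (Nat.mod u 6) fun d => upf B f l d)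

noncomputable def aps (n : ℕ) : ℕ → ℕ → ℕ :=
  @Nat.rec (fun _ => ℕ → ℕ → ℕ) (fun B _ => B) (fun _ ih B c => ifz c B
    (fn (upd B (Nat.sub (Nat.mod c 256) 1)) fun B' => fn (Nat.shiftRight c 8) fun c' => ih B' c')) n

inductive Tq where
  | l : ℕ → Tq
  | s : ℕ → Tq → Tq → Tq

noncomputable def lfc (U0 : ℤ) (U1 B k c : ℕ) : Bool :=
  an (allN (fun j => ifb (Nat.ble k j) (Nat.beq (fd c j) 0)
    (an (Nat.ble (sq (fd c j)) (blo B (1 + 7 * j))) (Nat.ble (bhi B (1 + 7 * j)) (sq (fd c (3 + j)))))) 3) <|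
  an (Nat.ble (sq (fd c 6)) (blo B (2 + 7 * k))) <| an (Nat.ble (bhi B (2 + 7 * k)) (sq (fd c 7))) <|
  an (Nat.ble (bhi B (3 + 7 * k)) (65536 * fd c 8)) <| an (Nat.ble (4096 * fd c 9) (blo B (7 + 7 * k))) <|
  an (Nat.ble (bhi B (7 + 7 * k)) (4096 * fd c 10))
    (zle (16777216 * iv c 11 + Int.ofNat (U1 * (16777216 - blo B 2))) (16777216 * U0))

noncomputable def lfk (ws : ℕ) (U0 : ℤ) (U1 CL n B c : ℕ) : Bool :=
  ifz (c % 4)
    (frc (c / 4 % 4096) fun i => frc (c / 16384 % 4) fun k =>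
      an (Nat.blt i n) (frc (cel CL i) fun e => lfc U0 U1 B k e))
    (ifb (Nat.beq (c % 4) 1)
      (an (Nat.ble (c / 4 % 4096) 30) (Nat.blt (bhi B (c / 4 % 4096)) (blo B (c / 4 % 4096))))
      (Nat.blt (bhi B 2) ws))

noncomputable def tchk (ws : ℕ) (U0 : ℤ) (U1 CL n : ℕ) (t : Tq) : ℕ → Bool :=
  @Tq.rec (fun _ => ℕ → Bool)
    (fun c B => frc (aps 200 B (Nat.shiftRight c 16)) fun B' => lfk ws U0 U1 CL n B' c)
    (fun c _ _ p q B => frc (aps 200 B (Nat.shiftRight c 30)) fun B' =>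
      frc (c % 32) fun v => frc (c / 32 % 33554432) fun m =>
      an (Nat.ble v 30) (an (frc (shi B' v m) p) (frc (slo B' v m) q))) t

noncomputable def root (b : ℕ) : ℕ :=
  shi (slo (Nat.mul 72057594037927936 (onw 64 31)) 0 16777216) 1 (sq b)

noncomputable def treeChk (b ws : ℕ) (U0 : ℤ) (U1 CL n : ℕ) (t : Tq) : Bool :=
  frc CL fun CL' => frc (root b) (tchk ws U0 U1 CL' n t)

end Pool.Agent.MP_ebf981_lc.N9

end

section

namespace Pool.Agent.MP_ebf981_lc.N9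

open Finset

/-! Specifications shared by the soundness proofs. -/

/-- `N` packs the digits `v` (width `w`, length `L`; the digits may be of any size) -/
def Rp (w L N : ℕ) (v : ℕ → ℤ) : Prop := (N : ℤ) = ∑ i ∈ range L, v i * 2 ^ (w * i)

def R64 (N : ℕ) (v : ℕ → ℤ) : Prop := Rp 64 8192 N v

noncomputable def nd (φ : ℝ → ℝ → ℝ) (n : ℕ) : ℝ := φ (zn (n % 256)) (un (n / 256))

/-- a table of `φ` on the grid, scale `2 ^ 28`, offset `2 ^ 31` -/
def Tb (T : ℕ) (φ : ℝ → ℝ → ℝ) : Prop :=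
  ∃ v : ℕ → ℤ, R64 T (fun n => v n + 2 ^ 31) ∧
    ∀ n < 8192, |v n| ≤ 2 ^ 31 ∧ |(v n : ℝ) / 2 ^ 28 - nd φ n| ≤ 1 / 2 ^ 22

noncomputable def b0f (e : Ev) (S j : ℕ) (z u : ℝ) : ℝ :=
  if j = 0 then li S 1 0 z u else if j = 1 then li S 0 1 z u else cs S (e.t (j - 2) * z)

noncomputable def b1f (e : Ev) (S j : ℕ) (z u : ℝ) : ℝ :=
  e.ρ ^ crd S * (if j = 0 then li S 1 0 (e.ρ * z) (e.ρ * u) else
    if j = 1 then li S 0 1 (e.ρ * z) (e.ρ * u) else
      e.R (j - 2) * cs S (e.c (j - 2) * z + e.d (j - 2) * u))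

noncomputable def bLf (e : Ev) (j : ℕ) (z u : ℝ) : ℝ :=
  if j < 7 then Real.cos (e.t j * z) else if j = 7 then z ^ 2 / 8 else if j = 8 then z ^ 4 / 256 else
    if j = 9 then z ^ 6 / 8192 else if j = 10 then u ^ 2 / 8 else u * z / 8

/-- static bounds on an environment -/
def EB (r E : ℕ) : Prop :=
  r ≤ 256 ∧ fd E 4 ≤ 16 ∧ ∀ j < 7, ef E j 0 ≤ 1048576 ∧ em E j 1 ≤ 16777216 ∧ em E j 2 ≤ 2621440

/-- the pair of integers approximates `exp (i θ)` at scale `2 ^ 60` -/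
def Cis (w : ℤ × ℤ) (θ ε : ℝ) : Prop :=
  ‖((w.1 : ℂ) + (w.2 : ℂ) * Complex.I) / 2 ^ 60 - Complex.exp (θ * Complex.I)‖ ≤ ε

/-- the values of the centring functions for one head coefficient -/
def PQ (r E S b I2 : ℕ) (P Q : ℕ → ℤ) : Prop :=
  R64 (P0o (fd E 4) (crd S % 2) b) (fun n => P n + 2 ^ 19) ∧
  R64 (Qo E (fd E 4) r (crd S) (crd S % 2) b I2) (fun n => Q n + 2 ^ 19) ∧
  (b = 0 → ∀ n < 8192, P n = 0 ∧ Q n = 0) ∧
  ∀ n < 8192, |P n| ≤ 2 ^ 19 ∧ -2 ^ 19 ≤ Q n ∧ Q n < 2 ^ 19 ∧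
    |(P n : ℝ) / 2 ^ 16 - nd (fun z u => B0 (evR r E) (fun _ => co b) z u S) n| ≤ (ebn b : ℝ) / 2 ^ 40 ∧
    |(Q n : ℝ) / 2 ^ 16 - (I2 : ℝ) / 2 ^ 12 * ((P n : ℝ) / 2 ^ 16) -
      nd (fun z u => B1 (evR r E) (fun _ => co b) z u S) n| ≤ (ebn b : ℝ) / 2 ^ 40

/-- the bound at the nodes -/
def NodeP (r E C : ℕ) : Prop :=
  ∃ (ΦG ΦF Φ0 Φ1 : ℕ → ℕ → ℕ → ℝ) (ΦL : ℕ → ℕ → ℝ),
    (∀ S < 8,
      Nd (fun z u => B0 (evR r E) (ctR C).y z u S) (fun i l => ΦG i l S)
        ((sm (yN C S) 9 + 4096) / 2 ^ 40) ∧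
      Nd (fun z u => B1 (evR r E) (ctR C).y z u S - BA (ctR C).a z u S) (fun i l => ΦF i l S)
        ((sm (yN C S) 9 + 4096 + sm (aN C S) 2) / 2 ^ 40) ∧
      Nd (fun z u => B0 (evR r E) (ctR C).b z u S) (fun i l => Φ0 i l S) (ebn (bN C S) / 2 ^ 40) ∧
      Nd (fun z u => B1 (evR r E) (ctR C).b z u S) (fun i l => Φ1 i l S) (ebn (bN C S) / 2 ^ 40)) ∧
    (∀ i < 256, ∀ l < 32, ΦL i l ≤ Lw (evR r E) (iv (lN C) 7 / 2 ^ 21) (iv (lN C) 8 / 2 ^ 26)
      (ctR C).c6 (ctR C).mu (ctR C).nu (ctR C).yc (zn i) (un l) + sm (lN C) 12 / 2 ^ 40) ∧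
    ∀ i < 256, ∀ l < 32, ∀ f g, FG f g →
      HH (ctR C).vp (fd C 1 / 2 ^ 8) (ctR C).k3 (fd C 1 * fd C 2 * fd C 3 / 2 ^ 32)
        (ΦG i l) (ΦF i l) (Φ0 i l) (Φ1 i l) (ΦL i l) f g ≤ M0z C / 2 ^ 40

/-- component of `TOk` -/
def TOj {m : ℕ} (e : Ev) (a : Fin m → ℝ) (j : ℕ) : Prop :=
  ∀ S, E (fun y => (TT e.ρ (fun y' => cs S (e.t j * ell a y')) y -
    e.R j * cs S (e.c j * ell a y + e.d j * ell (uv e a) y)) ^ 2) ≤ e.er j ^ 2

noncomputable def lx (e : Ev) (A B C : ℝ) (v : ℕ) : ℝ := A + B * vq e v + C * v3 e v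

end Pool.Agent.MP_ebf981_lc.N9

end

section

namespace Pool.Agent.MP_ebf981_lc.N9

open Finset

theorem ifz_eq {α : Type} (x : ℕ) (a b : α) : ifz x a b = if x = 0 then a else b := by
  cases x <;> rfl

theorem ifb_eq {α : Type} (c : Bool) (a b : α) : ifb c a b = if c = true then a else b := by
  cases c <;> rfl

theorem sumN_eq (f : ℕ → ℕ) (n : ℕ) : sumN f n = ∑ j ∈ range n, f j := by
  induction n with
  | zero => rfl
  | succ n ih =>
    rw [sum_range_succ, ← ih]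
    rfl

theorem sumZ_eq (f : ℕ → ℤ) (n : ℕ) : sumZ f n = ∑ j ∈ range n, f j := by
  induction n with
  | zero => rfl
  | succ n ih =>
    rw [sum_range_succ, ← ih]
    rfl

theorem allN_iff (f : ℕ → Bool) (n : ℕ) : allN f n = true ↔ ∀ j < n, f j = true := by
  induction n with
  | zero => exact ⟨fun _ j hj => absurd hj (Nat.not_lt_zero j), fun _ => rfl⟩
  | succ n ih =>
    change an (f n) (allN f n) = true ↔ _
    rw [an_eq, ih, Nat.forall_lt_succ_right, and_comm]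

theorem zle_iff (a b : ℤ) : zle a b = true ↔ a ≤ b := by
  rw [← sub_nonneg]
  change @Int.rec (fun _ => Bool) (fun _ => true) (fun _ => false) (b - a) = true ↔ _
  generalize b - a = c
  cases c with
  | ofNat n => exact ⟨fun _ => Int.natCast_nonneg n, fun _ => rfl⟩
  | negSucc n =>
    exact ⟨fun h => absurd h Bool.false_ne_true, fun h => absurd h (Int.negSucc_lt_zero n).not_ge⟩

theorem p2_eq (k : ℕ) : p2 k = 2 ^ k := Nat.one_shiftLeft k

theorem le_up (N k : ℕ) : (N : ℝ) / 2 ^ k ≤ up N k := by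
  have h1 : up N k = N / 2 ^ k + 1 := congrArg Nat.succ (Nat.shiftRight_eq_div_pow N k)
  have h2 : N < (N / 2 ^ k + 1) * 2 ^ k := by
    rw [mul_comm]
    exact Nat.lt_mul_div_succ N (by positivity)
  rw [h1, div_le_iff₀ (by positivity)]
  exact_mod_cast h2.le

theorem fd_eq_NBas (N j : ℕ) : fd N j = N / 2 ^ (32 * j) % 2 ^ 32 :=
  congrArg (fun x => x % 2 ^ 32) (Nat.shiftRight_eq_div_pow N (32 * j))

theorem sub_eq_NBas (N o n : ℕ) : sub N o n = N / 2 ^ (32 * o) % 2 ^ (32 * n) := by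
  rw [← Nat.shiftRight_eq_div_pow, ← p2_eq]
  rfl

theorem fd_lt (N j : ℕ) : fd N j < 2 ^ 32 := by
  rw [fd_eq_NBas]
  exact Nat.mod_lt _ (by positivity)

theorem fd_sub (N o : ℕ) {n j : ℕ} (h : j < n) : fd (sub N o n) j = fd N (o + j) := by
  rw [fd_eq_NBas, fd_eq_NBas, sub_eq_NBas]
  refine Nat.eq_of_testBit_eq fun i => ?_
  simp only [Nat.testBit_mod_two_pow, Nat.testBit_div_two_pow]
  by_cases hi : i < 32
  · rw [decide_eq_true (show i + 32 * j < 32 * n by omega), Bool.true_and,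
      show i + 32 * j + 32 * o = i + 32 * (o + j) by omega]
  · rw [decide_eq_false hi, Bool.false_and, Bool.false_and]

theorem fd_fd (N o : ℕ) : fd (fd N o) 0 = fd N o ∧ ∀ j, 0 < j → fd (fd N o) j = 0 := by
  have h := fd_lt N o
  generalize fd N o = x at h
  refine ⟨by rw [fd_eq_NBas, mul_zero, pow_zero, Nat.div_one, Nat.mod_eq_of_lt h], fun j hj => ?_⟩
  rw [fd_eq_NBas, Nat.div_eq_of_lt (h.trans_le (Nat.pow_le_pow_right two_pos (by omega))),
    Nat.zero_mod]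

theorem fd_zero (j : ℕ) : fd 0 j = 0 := by
  rw [fd_eq_NBas, Nat.zero_div, Nat.zero_mod]

theorem iv_eq (N j : ℕ) : iv N j = if sn N j = 0 then (mg N j : ℤ) else -(mg N j : ℤ) := by
  rw [iv, ifz_eq, Int.negOfNat_eq]
  rfl

theorem sn_le (N j : ℕ) : sn N j ≤ 1 := Nat.lt_succ_iff.1 (Nat.mod_lt _ two_pos)

theorem iv_abs (N j : ℕ) : |iv N j| = (mg N j : ℤ) := by
  rw [iv_eq]
  split_ifs
  · exact abs_of_nonneg (Int.natCast_nonneg _)
  · rw [abs_neg]
    exact abs_of_nonneg (Int.natCast_nonneg _)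

theorem co_abs (N j : ℕ) : |co N j| = (mg N j : ℝ) / 2 ^ 18 := by
  rw [co, abs_div, ← Int.cast_abs, iv_abs, abs_of_pos (by positivity : (0 : ℝ) < 2 ^ 18),
    Int.cast_natCast]

theorem co_fd_NBas {N j : ℕ} (h : fd N j = 0) : co N j = 0 := by
  have h1 : mg N j = 0 := by
    rw [mg, h]
    rfl
  rw [← abs_eq_zero, co_abs, h1, Nat.cast_zero, zero_div]

theorem co_zero (j : ℕ) : co 0 j = 0 := co_fd_NBas (fd_zero j)

theorem ei_abs (E j i : ℕ) : |ei E j i| = (em E j i : ℤ) := iv_abs _ _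

theorem cr_eq (S : ℕ) : cr S = crd S := rfl

theorem ev_eq (S : ℕ) : (ev S : ℝ) = evn S := by
  rw [ev, evn, cr_eq]
  rcases Nat.mod_two_eq_zero_or_one (crd S) with h | h <;> rw [h] <;> simp

theorem crd_le (S : ℕ) : crd S ≤ 3 := by
  rw [crd]
  omega

theorem rp_eq (r : ℕ) {s : ℕ} (hs : s ≤ 3) : (rp r s : ℝ) = ((r : ℝ) / 256) ^ s * 2 ^ 24 := by
  have h : rp r s = r ^ s * 256 ^ (3 - s) := rfl
  rw [h]
  push_cast
  interval_cases s <;> ring

theorem dt_eq (N o : ℕ) (κ : ℕ → ℕ) : dt N o κ = ∑ j ∈ range 7, mg N (j + o) * κ j :=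
  sumN_eq _ _

theorem dz_eq (N : ℕ) (κ : ℕ → ℤ) : dz N κ = ∑ j ∈ range 7, iv N (j + 2) * κ j :=
  sumZ_eq _ _

theorem sm_eq (N n : ℕ) : sm N n = ∑ j ∈ range n, mg N j := sumN_eq _ _

theorem vqn_eq (r E v : ℕ) : (vqn E v : ℝ) = vq (evR r E) v * 2 ^ 12 := by
  rw [vqn, ifb_eq, vq]
  simp only [Nat.ble_eq, evR]
  by_cases h : v < 2
  · rw [if_neg (by omega), if_pos h, div_mul_cancel₀ _ (by positivity)]
  · rw [if_pos (by omega), if_neg h, div_mul_cancel₀ _ (by positivity)]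

theorem lam_NBas (r E : ℕ) : (evR r E).lam = ((fd E 1 : ℝ) + fd E 2) / 2 ^ 13 := rfl

theorem X_NBas (r E : ℕ) : (evR r E).X = (fd E 0 : ℝ) / 2 ^ 8 := rfl

theorem sq_NBas (x : ℕ) : sq x = x * x := rfl

theorem dqz_eq (r E v : ℕ) : (dqz E v : ℝ) = (vq (evR r E) v - (evR r E).lam) * 2 ^ 13 := by
  rw [dqz, Int.subNatNat_eq_coe, lam_NBas]
  push_cast
  rw [vqn_eq r]
  ring

theorem v3z_eq (r E v : ℕ) : (v3z E v : ℝ) = v3 (evR r E) v * 2 ^ 26 := by
  rw [v3z, ifz_eq, v3, Int.subNatNat_eq_coe, lam_NBas, X_NBas, sq_NBas, Int.ofNat_eq_natCast]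
  split_ifs
  · push_cast
    rw [vqn_eq r]
    ring
  · push_cast
    rw [vqn_eq r]
    ring

theorem vvz_eq (r E v : ℕ) : (vvz E v : ℝ) =
    (v3 (evR r E) v - 2 * (evR r E).lam * vq (evR r E) v + (evR r E).lam ^ 2) * 2 ^ 26 := by
  rw [vvz, Int.subNatNat_eq_coe, lam_NBas, sq_NBas]
  push_cast
  rw [vqn_eq r, v3z_eq r]
  ring

theorem exl_aux_NBas (a : ℕ) (y : ℝ) (h : (a : ℝ) ≤ Real.exp y * 2 ^ 56) (k : ℕ) :
    ((@Nat.rec (fun _ => ℕ) a (fun _ a => fn a fun b => Nat.shiftRight (Nat.mul b b) 56) k : ℕ) :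
      ℝ) ≤ Real.exp (2 ^ k * y) * 2 ^ 56 := by
  induction k with
  | zero => rwa [pow_zero, one_mul]
  | succ k ih =>
    have h1 : ∀ b : ℕ, (b : ℝ) ≤ Real.exp (2 ^ k * y) * 2 ^ 56 →
        ((Nat.shiftRight (Nat.mul b b) 56 : ℕ) : ℝ) ≤ Real.exp (2 ^ (k + 1) * y) * 2 ^ 56 := by
      intro b hb
      have h2 : Nat.shiftRight (Nat.mul b b) 56 = b * b / 2 ^ 56 :=
        Nat.shiftRight_eq_div_pow (b * b) 56
      rw [h2]
      refine Nat.cast_div_le.trans ?_
      push_cast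
      rw [div_le_iff₀ (by positivity), show 2 ^ (k + 1) * y = 2 ^ k * y + 2 ^ k * y by ring,
        Real.exp_add]
      refine (mul_self_le_mul_self (Nat.cast_nonneg b) hb).trans_eq ?_
      ring
    exact h1 _ ih

theorem exl_le (x : ℤ) : (exl x : ℝ) ≤ Real.exp (x / 2 ^ 42) * 2 ^ 56 := by
  have h := exl_aux_NBas (Int.toNat (72057594037927936 + x)) (x / 2 ^ 56) (by
    rcases le_total 0 (72057594037927936 + x) with h | h
    · have h1 : ((Int.toNat (72057594037927936 + x) : ℕ) : ℝ) = 72057594037927936 + x := by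
        rw [← Int.cast_natCast, Int.toNat_of_nonneg h]
        push_cast
        rfl
      have h2 := Real.add_one_le_exp ((x : ℝ) / 2 ^ 56)
      rw [h1]
      linarith
    · rw [Int.toNat_eq_zero.2 h, Nat.cast_zero]
      positivity) 14
  rwa [show (2 : ℝ) ^ 14 * (x / 2 ^ 56) = x / 2 ^ 42 by ring] at h

theorem li_NBas (S : ℕ) (a0 a1 z u : ℝ) :
    li S a0 a1 z u = a0 * li S 1 0 z u + a1 * li S 0 1 z u := by
  unfold li
  split_ifs <;> ring

theorem B0_eq (e : Ev) (y : ℕ → ℕ → ℝ) (z u : ℝ) (S : ℕ) :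
    B0 e y z u S = ∑ j ∈ range 9, y S j * b0f e S j z u := by
  rw [B0, li_NBas]
  simp only [sum_range_succ, sum_range_zero, b0f]
  norm_num
  ring

theorem B1_eq (e : Ev) (y : ℕ → ℕ → ℝ) (z u : ℝ) (S : ℕ) :
    B1 e y z u S = ∑ j ∈ range 9, y S j * b1f e S j z u := by
  rw [B1, li_NBas]
  simp only [sum_range_succ, sum_range_zero, b1f]
  norm_num
  ring

theorem BA_eq (e : Ev) (a : ℕ → ℕ → ℝ) (z u : ℝ) (S : ℕ) :
    BA a z u S = ∑ j ∈ range 2, a S j * b0f e S j z u := by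
  rw [BA, li_NBas]
  simp only [sum_range_succ, sum_range_zero, b0f]
  norm_num

theorem bnd_spec {r E C : ℕ} (h : bnd r E C = true) :
    EB r E ∧ 1 ≤ fd C 0 ∧ fd C 0 ≤ 2 ^ 26 ∧ fd C 1 < 2 ^ 15 ∧ fd C 2 < 2 ^ 13 ∧ fd C 3 < 2 ^ 12 ∧
      fd C 3 ≤ fd C 2 ∧ fd C 4 < 2 ^ 29 ∧ fd C 5 ≤ 64 ∧ sm (lN C) 12 ≤ 2 ^ 27 := by
  simp only [bnd, an_eq, allN_iff, Nat.ble_eq] at h
  obtain ⟨h1, h2, h3, h4, h5, h6, h7, h8, h9, h10, h11, h12⟩ := h
  exact ⟨⟨h1, h2, h3⟩, h4, h5, by omega, by omega, by omega, h9, by omega, h11, h12⟩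

theorem aZ_ctR (C : ℕ) : AZ (ctR C).a :=
  ⟨fun j _ => ⟨co_zero j, co_zero j, co_zero j⟩, co_zero 0⟩

end Pool.Agent.MP_ebf981_lc.N9

end

section

namespace Pool.Agent.MP_ebf981_lc.N9

open Finset

variable {w L N A B : ℕ} {v v' : ℕ → ℤ}

theorem Rp.congr (h : Rp w L N v) (e : ∀ i < L, v i = v' i) : Rp w L N v' := by
  unfold Rp at *
  rw [h]
  exact Finset.sum_congr rfl fun i hi => by rw [e i (Finset.mem_range.1 hi)]

theorem Rp.zero (w L : ℕ) : Rp w L 0 (fun _ => 0) := by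
  simp [Rp]

theorem Rp.add (h : Rp w L A v) (h' : Rp w L B v') : Rp w L (Nat.add A B) (fun i => v i + v' i) := by
  unfold Rp at *
  rw [Nat.add_eq, Nat.cast_add, h, h', ← Finset.sum_add_distrib]
  exact Finset.sum_congr rfl fun i _ => by ring

theorem Rp.mul (c : ℕ) (h : Rp w L N v) : Rp w L (Nat.mul c N) (fun i => c * v i) := by
  unfold Rp at *
  rw [Nat.mul_eq, Nat.cast_mul, h, Finset.mul_sum]
  exact Finset.sum_congr rfl fun i _ => by ring

theorem Rp.shl (k : ℕ) (h : Rp w L N v) : Rp w L (Nat.shiftLeft N k) (fun i => 2 ^ k * v i) := by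
  unfold Rp at *
  rw [Nat.shiftLeft_eq', Nat.shiftLeft_eq, Nat.cast_mul, h, Finset.sum_mul]
  exact Finset.sum_congr rfl fun i _ => by push_cast; ring

theorem Rp.sub (h : Rp w L A v) (h' : Rp w L B v') (hle : ∀ i < L, v' i ≤ v i) :
    Rp w L (Nat.sub A B) (fun i => v i - v' i) := by
  unfold Rp at *
  have hBA : B ≤ A := by
    have : (B : ℤ) ≤ A := by
      rw [h, h']
      exact Finset.sum_le_sum fun i hi =>
        mul_le_mul_of_nonneg_right (hle i (Finset.mem_range.1 hi)) (by positivity)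
    exact_mod_cast this
  rw [Nat.sub_eq, Nat.cast_sub hBA, h, h', ← Finset.sum_sub_distrib]
  exact Finset.sum_congr rfl fun i _ => by ring

theorem p2_NPk (k : ℕ) : p2 k = 2 ^ k := Nat.one_shiftLeft k

theorem sumN_NPk (f : ℕ → ℕ) (n : ℕ) : sumN f n = ∑ j ∈ range n, f j := by
  induction n with
  | zero => rfl
  | succ n ih => rw [Finset.sum_range_succ, ← ih]; rfl

theorem Rp.one (hw : 0 < w) (L : ℕ) : Rp w L (onw w L) (fun _ => 1) := by
  have h2 : 2 ≤ 2 ^ w := Nat.one_lt_two_pow hw.ne'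
  have e : onw w L = ∑ k ∈ range L, (2 ^ w) ^ k := by
    rw [Nat.geomSum_eq h2, onw, p2_NPk, p2_NPk, ← pow_mul]
    rfl
  unfold Rp
  rw [e]
  push_cast
  exact Finset.sum_congr rfl fun i _ => by rw [one_mul, pow_mul]

theorem Rp.sum {F : ℕ → ℕ} {V : ℕ → ℕ → ℤ} (n : ℕ) (h : ∀ j < n, Rp w L (F j) (V j)) :
    Rp w L (sumN F n) (fun i => ∑ j ∈ range n, V j i) := by
  unfold Rp at *
  rw [sumN_NPk, Nat.cast_sum, Finset.sum_congr rfl fun j hj => h j (Finset.mem_range.1 hj),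
    Finset.sum_comm]
  exact Finset.sum_congr rfl fun i _ => by rw [Finset.sum_mul]

theorem pad_NPk {L' : ℕ} (hL : L ≤ L') :
    Rp w L' N (fun i => if i < L then v i else 0) ↔ Rp w L N v := by
  obtain ⟨k, rfl⟩ := Nat.exists_eq_add_of_le hL
  have e : ∑ i ∈ range (L + k), (if i < L then v i else 0) * 2 ^ (w * i) =
      ∑ i ∈ range L, v i * 2 ^ (w * i) := by
    rw [Finset.sum_range_add, Finset.sum_eq_zero (s := range k) fun i _ => by
      rw [if_neg (by omega), zero_mul], add_zero]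
    exact Finset.sum_congr rfl fun i hi => by rw [if_pos (Finset.mem_range.1 hi)]
  unfold Rp
  rw [← e]

theorem Rp.pad {L' : ℕ} (h : Rp w L N v) (hL : L ≤ L') :
    Rp w L' N (fun i => if i < L then v i else 0) := by
  exact (pad_NPk hL).2 h

theorem Rp.cat {L' : ℕ} (h : Rp w L A v) (h' : Rp w L' B v') :
    Rp w (L + L') (Nat.add A (Nat.shiftLeft B (w * L))) (fun i => if i < L then v i else v' (i - L)) := by
  unfold Rp at *
  rw [Nat.add_eq, Nat.shiftLeft_eq', Nat.shiftLeft_eq, Nat.cast_add, Nat.cast_mul, h, h',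
    Finset.sum_range_add, Finset.sum_mul]
  beta_reduce
  congr 1
  · exact Finset.sum_congr rfl fun i hi => by rw [if_pos (Finset.mem_range.1 hi)]
  · refine Finset.sum_congr rfl fun i _ => ?_
    rw [if_neg (by omega), Nat.add_sub_cancel_left]
    push_cast
    ring

theorem bd_NPk (w L : ℕ) (v : ℕ → ℤ) (hb : ∀ i < L, 0 ≤ v i ∧ v i < 2 ^ w) :
    0 ≤ ∑ i ∈ range L, v i * 2 ^ (w * i) ∧ ∑ i ∈ range L, v i * 2 ^ (w * i) < 2 ^ (w * L) := by
  induction L with
  | zero => simp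
  | succ L ih =>
    obtain ⟨h1, h2⟩ := ih fun i hi => hb i (by omega)
    obtain ⟨h3, h4⟩ := hb L (by omega)
    have h5 : (0 : ℤ) < 2 ^ (w * L) := by positivity
    rw [Finset.sum_range_succ, Nat.mul_succ, pow_add]
    have h6 : v L + 1 ≤ 2 ^ w := h4
    exact ⟨by positivity, by nlinarith⟩

theorem Rp.dig (h : Rp w L N v) (hb : ∀ i < L, 0 ≤ v i ∧ v i < 2 ^ w) {i : ℕ} (hi : i < L) :
    ((N / 2 ^ (w * i) % 2 ^ w : ℕ) : ℤ) = v i := by
  obtain ⟨k, rfl⟩ := Nat.exists_eq_add_of_lt hi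
  obtain ⟨h1, h2⟩ := bd_NPk w i v fun j hj => hb j (by omega)
  obtain ⟨h3, h4⟩ := hb i (by omega)
  have e : (N : ℤ) = ∑ j ∈ range i, v j * 2 ^ (w * j) +
      2 ^ (w * i) * (v i + 2 ^ w * ∑ j ∈ range k, v (i + (j + 1)) * 2 ^ (w * j)) := by
    rw [h, add_assoc, Finset.sum_range_add, Finset.sum_range_succ', mul_add (2 ^ (w * i) : ℤ),
      Finset.mul_sum, Finset.mul_sum, add_zero, add_comm (2 ^ (w * i) * v i), mul_comm (v i)]
    congr 2
    exact Finset.sum_congr rfl fun j _ => by ring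
  push_cast
  rw [e, Int.add_mul_ediv_left _ _ (by positivity), Int.ediv_eq_zero_of_lt h1 h2, zero_add,
    Int.add_mul_emod_self_left, Int.emod_eq_of_lt h3 h4]

theorem Rp.lt (h : Rp w L N v) (hb : ∀ i < L, 0 ≤ v i ∧ v i < 2 ^ w) : N < 2 ^ (w * L) := by
  have h1 := (bd_NPk w L v hb).2
  rw [← h] at h1
  exact_mod_cast h1

theorem Rp.of_lt (h : N < 2 ^ (w * L)) :
    Rp w L N (fun i => ((N / 2 ^ (w * i) % 2 ^ w : ℕ) : ℤ)) := by
  unfold Rp
  beta_reduce
  induction L generalizing N with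
  | zero =>
    have : N = 0 := by simpa using h
    simp [this]
  | succ L ih =>
    have h1 : N / 2 ^ w < 2 ^ (w * L) := by
      rw [Nat.div_lt_iff_lt_mul (by positivity), ← pow_add]
      exact h
    have h2 := ih h1
    have h3 : (N : ℤ) = 2 ^ w * ((N / 2 ^ w : ℕ) : ℤ) + ((N % 2 ^ w : ℕ) : ℤ) := by
      exact_mod_cast (Nat.div_add_mod N (2 ^ w)).symm
    rw [Finset.sum_range_succ', h3, h2, Finset.mul_sum]
    congr 1
    · refine Finset.sum_congr rfl fun i _ => ?_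
      rw [Nat.div_div_eq_div_mul, ← pow_add, Nat.mul_succ, add_comm w, pow_add (2 : ℤ)]
      ring
    · simp

theorem dign_NPk (h : Rp w L N v) (hb : ∀ i < L, 0 ≤ v i ∧ v i < 2 ^ w) {i : ℕ} (hi : i < L) :
    (v i).toNat = N / 2 ^ (w * i) % 2 ^ w := by
  rw [← h.dig hb hi, Int.toNat_natCast]

theorem digb_NPk (w N i : ℕ) : 0 ≤ ((N / 2 ^ (w * i) % 2 ^ w : ℕ) : ℤ) ∧
    ((N / 2 ^ (w * i) % 2 ^ w : ℕ) : ℤ) < 2 ^ w :=
  ⟨Nat.cast_nonneg _, by exact_mod_cast Nat.mod_lt _ (by positivity)⟩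

theorem Rp.land (h : Rp w L A v) (h' : Rp w L B v') (hb : ∀ i < L, 0 ≤ v i ∧ v i < 2 ^ w)
    (hb' : ∀ i < L, 0 ≤ v' i ∧ v' i < 2 ^ w) :
    Rp w L (Nat.land A B) (fun i => (((v i).toNat &&& (v' i).toNat : ℕ) : ℤ)) := by
  have h1 : Nat.land A B < 2 ^ (w * L) := lt_of_le_of_lt Nat.and_le_left (h.lt hb)
  refine (Rp.of_lt h1).congr fun i hi => ?_
  rw [Nat.land_eq, Nat.and_div_two_pow, Nat.and_mod_two_pow, dign_NPk h hb hi, dign_NPk h' hb' hi]

theorem Rp.high (m : ℕ) (h : Rp w (m + L) N v) (hb : ∀ i < m + L, 0 ≤ v i ∧ v i < 2 ^ w) :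
    Rp w L (Nat.shiftRight N (w * m)) (fun i => v (m + i)) := by
  have h1 : Nat.shiftRight N (w * m) < 2 ^ (w * L) := by
    rw [Nat.shiftRight_eq, Nat.shiftRight_eq_div_pow, Nat.div_lt_iff_lt_mul (by positivity),
      ← pow_add, add_comm, ← mul_add]
    exact h.lt hb
  refine (Rp.of_lt h1).congr fun i hi => ?_
  rw [Nat.shiftRight_eq, Nat.shiftRight_eq_div_pow, Nat.div_div_eq_div_mul, ← pow_add, ← mul_add]
  exact h.dig hb (by omega)

theorem shr_NPk {s t O : ℕ} (hs : s + t ≤ w) (h : Rp w L N v)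
    (hb : ∀ i < L, 0 ≤ v i ∧ v i < 2 ^ w) (hO : Rp w L O fun _ => ((2 ^ t - 1 : ℕ) : ℤ)) :
    Rp w L (Nat.land (Nat.shiftRight N s) O) (fun i => v i / 2 ^ s % 2 ^ t) := by
  have h1 : Nat.shiftRight N s < 2 ^ (w * L) := by
    rw [Nat.shiftRight_eq, Nat.shiftRight_eq_div_pow]
    exact lt_of_le_of_lt (Nat.div_le_self _ _) (h.lt hb)
  have h2 : 2 ^ t - 1 < 2 ^ w :=
    lt_of_lt_of_le (Nat.sub_lt (by positivity) one_pos) (Nat.pow_le_pow_right two_pos (by omega))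
  refine ((Rp.of_lt h1).land hO (fun i _ => digb_NPk _ _ _) fun i _ =>
    ⟨Nat.cast_nonneg _, by exact_mod_cast h2⟩).congr fun i hi => ?_
  obtain ⟨k, rfl⟩ := Nat.exists_eq_add_of_le hs
  have e : ∀ x : ℕ, x / 2 ^ s % 2 ^ (s + t + k) % 2 ^ t = x % 2 ^ (s + t + k) / 2 ^ s % 2 ^ t := by
    intro x
    rw [Nat.mod_mod_of_dvd _ (pow_dvd_pow 2 (by omega)), add_assoc, pow_add 2 s,
      Nat.mod_mul_right_div_self, Nat.mod_mod_of_dvd _ (pow_dvd_pow 2 (by omega))]
  rw [Int.toNat_natCast, Int.toNat_natCast, Nat.and_two_pow_sub_one_eq_mod, Nat.shiftRight_eq,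
    Nat.shiftRight_eq_div_pow, Nat.div_div_eq_div_mul, mul_comm (2 ^ s), ← Nat.div_div_eq_div_mul,
    e, ← h.dig hb hi]
  push_cast
  rfl

theorem Rp.shr {s : ℕ} (hs : s ≤ w) (hw : 0 < w) (h : Rp w L N v)
    (hb : ∀ i < L, 0 ≤ v i ∧ v i < 2 ^ w) :
    Rp w L (Nat.land (Nat.shiftRight N s) (Nat.mul (2 ^ (w - s) - 1) (onw w L)))
      (fun i => v i / 2 ^ s) := by
  refine (shr_NPk (t := w - s) (by omega) h hb
    (((Rp.one hw L).mul _).congr fun i _ => mul_one _)).congr fun i hi => ?_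
  obtain ⟨h1, h2⟩ := hb i hi
  refine Int.emod_eq_of_lt (Int.ediv_nonneg h1 (by positivity)) ?_
  rw [Int.ediv_lt_iff_lt_mul (by positivity), ← pow_add, Nat.sub_add_cancel hs]
  exact h2

theorem Rp.relu {k : ℕ} (hk : k < w) (h : Rp w L N v) (hb : ∀ i < L, 0 ≤ v i ∧ v i < 2 ^ (k + 1)) :
    Rp w L (Nat.land N (Nat.mul (Nat.land (Nat.shiftRight N k) (onw w L)) (2 ^ k - 1)))
      (fun i => max (v i - 2 ^ k) 0) := by
  have hp : (2 : ℤ) ^ (k + 1) ≤ 2 ^ w := pow_le_pow_right₀ one_le_two hk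
  have hb' : ∀ i < L, 0 ≤ v i ∧ v i < 2 ^ w := fun i hi => ⟨(hb i hi).1, (hb i hi).2.trans_le hp⟩
  have h0 : (0 : ℤ) < 2 ^ k := by positivity
  have hc : ((2 ^ k - 1 : ℕ) : ℤ) = 2 ^ k - 1 := by
    rw [Nat.cast_sub Nat.one_le_two_pow]
    push_cast
    rfl
  have h1 := (shr_NPk (s := k) (t := 1) hk h hb'
    ((Rp.one (by omega) L).congr fun i _ => rfl)).mul (2 ^ k - 1)
  have h2 : Rp w L (Nat.mul (Nat.land (Nat.shiftRight N k) (onw w L)) (2 ^ k - 1))
      fun i => if v i < 2 ^ k then 0 else ((2 ^ k - 1 : ℕ) : ℤ) := by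
    rw [Nat.mul_eq, mul_comm]
    refine h1.congr fun i hi => ?_
    obtain ⟨h3, h4⟩ := hb i hi
    split_ifs with h5
    · rw [Int.ediv_eq_zero_of_lt h3 h5, Int.zero_emod, mul_zero]
    · have : v i / 2 ^ k = 1 := by
        rw [pow_succ] at h4
        have a1 : v i / 2 ^ k < 2 := (Int.ediv_lt_iff_lt_mul h0).2 (by linarith)
        have a2 : 1 ≤ v i / 2 ^ k := (Int.le_ediv_iff_mul_le h0).2 (by linarith)
        omega
      rw [this]
      norm_num
  refine (h.land h2 hb' fun i _ => ?_).congr fun i hi => ?_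
  · rw [pow_succ] at hp
    split_ifs
    · exact ⟨le_rfl, by positivity⟩
    · rw [hc]
      exact ⟨by linarith, by linarith⟩
  · obtain ⟨h3, h4⟩ := hb i hi
    rw [pow_succ] at h4
    split_ifs with h5
    · rw [Int.toNat_zero, Nat.and_zero, max_eq_right (by linarith), Nat.cast_zero]
    · rw [Int.toNat_natCast, Nat.and_two_pow_sub_one_eq_mod, max_eq_left (by linarith)]
      push_cast
      rw [Int.toNat_of_nonneg h3, ← Int.sub_emod_right,
        Int.emod_eq_of_lt (by linarith) (by linarith)]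

theorem ldig_NPk {O : ℕ} {u : ℕ → ℤ} (h : Rp w L A v) (h' : Rp w L B v') (hO : Rp w L O u)
    (hb : ∀ i < L, 0 ≤ v i ∧ v i < 2 ^ w) (hb' : ∀ i < L, 0 ≤ v' i ∧ v' i < 2 ^ w)
    (hu : ∀ i < L, 0 ≤ u i ∧ u i < 2 ^ w) (e : Nat.land A B = O) {i : ℕ} (hi : i < L) :
    (v i).toNat &&& (v' i).toNat = (u i).toNat := by
  rw [dign_NPk h hb hi, dign_NPk h' hb' hi, dign_NPk hO hu hi, ← e, Nat.land_eq,
    Nat.and_div_two_pow, Nat.and_mod_two_pow]

theorem Rp.test {k : ℕ} (hk : k < w) (h : Rp w L N v) (hb : ∀ i < L, 0 ≤ v i ∧ v i < 2 ^ w)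
    {O : ℕ} (hO : Rp w L O (fun _ => 2 ^ k)) (e : Nat.land N O = O) : ∀ i < L, 2 ^ k ≤ v i := by
  intro i hi
  have hu : ∀ i < L, (0 : ℤ) ≤ 2 ^ k ∧ (2 : ℤ) ^ k < 2 ^ w := fun _ _ =>
    ⟨by positivity, pow_lt_pow_right₀ one_lt_two hk⟩
  have h1 := ldig_NPk h hO hO hb hu hu e hi
  have h2 : ((2 : ℤ) ^ k).toNat ≤ (v i).toNat := h1 ▸ Nat.and_le_left
  have h3 := (hb i hi).1
  have h4 := (hu i hi).1
  omega

theorem Rp.modsum (hw : 0 < w) (h : Rp w L N v) (hb : ∀ i < L, 0 ≤ v i)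
    (hs : ∑ i ∈ range L, v i < 2 ^ w - 1) : ((N % (2 ^ w - 1) : ℕ) : ℤ) = ∑ i ∈ range L, v i := by
  have hc : ((2 ^ w - 1 : ℕ) : ℤ) = 2 ^ w - 1 := by
    rw [Nat.cast_sub Nat.one_le_two_pow]
    push_cast
    rfl
  have _ := hw
  have h1 : (2 : ℤ) ^ w - 1 ∣ (N : ℤ) - ∑ i ∈ range L, v i := by
    rw [h, ← Finset.sum_sub_distrib]
    refine Finset.dvd_sum fun i _ => ?_
    rw [← mul_sub_one, pow_mul]
    refine Dvd.dvd.mul_left ?_ _
    simpa using sub_dvd_pow_sub_pow ((2 : ℤ) ^ w) 1 i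
  rw [Int.natCast_mod, hc, ← Int.emod_eq_of_lt
    (Finset.sum_nonneg fun i hi => hb i (Finset.mem_range.1 hi)) hs]
  exact Int.emod_eq_emod_iff_emod_sub_eq_zero.2 (Int.emod_eq_zero_of_dvd h1)

theorem r_cst (c : ℕ) : R64 (cst c) (fun _ => c) := by
  unfold R64 cst N9.one
  exact ((Rp.one (by norm_num) 8192).mul c).congr fun i _ => mul_one _

theorem r_shr {s : ℕ} (hs : s ≤ 64) (h : R64 N v) (hb : ∀ i < 8192, 0 ≤ v i ∧ v i < 2 ^ 64) :
    R64 (shr s N) (fun i => v i / 2 ^ s) := by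
  unfold R64 N9.shr cst N9.one
  rw [p2_NPk]
  exact Rp.shr hs (by norm_num) h hb

/-- the same on a shorter vector -/
theorem r_shr' {s : ℕ} (hs : s ≤ 64) (hL : L ≤ 8192) (h : Rp 64 L N v)
    (hb : ∀ i < L, 0 ≤ v i ∧ v i < 2 ^ 64) : Rp 64 L (shr s N) (fun i => v i / 2 ^ s) := by
  have h1 := r_shr hs (h.pad hL) fun i _ => by
    split_ifs with hi
    · exact hb i hi
    · exact ⟨le_rfl, by positivity⟩
  refine (pad_NPk hL).1 (Rp.congr h1 fun i _ => ?_)
  split_ifs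
  · rfl
  · exact Int.zero_ediv _

theorem r_relu (h : R64 N v) (hb : ∀ i < 8192, 0 ≤ v i ∧ v i < 2 ^ 61) :
    R64 (relu N) (fun i => max (v i - 2 ^ 60) 0) := by
  have e : (1152921504606846975 : ℕ) = 2 ^ 60 - 1 := by norm_num
  unfold R64 N9.relu N9.one
  rw [e]
  exact Rp.relu (k := 60) (by norm_num) h hb

theorem r_leq (h : R64 A v) (h' : R64 B v') (hb : ∀ i < 8192, 0 ≤ v i ∧ v i ≤ 2 ^ 62)
    (hb' : ∀ i < 8192, 0 ≤ v' i ∧ v' i < 2 ^ 62) (e : leq A B = true) : ∀ i < 8192, v i ≤ v' i := by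
  have hO := r_cst 4611686018427387904
  unfold leq at e
  generalize cst 4611686018427387904 = O at e hO
  have hO' : Rp 64 8192 O fun _ => 2 ^ 62 := Rp.congr hO fun _ _ => by norm_num
  have h1 := Rp.sub (Rp.add h' hO') h fun i hi => by
    have := hb i hi
    have := hb' i hi
    linarith
  intro i hi
  have h2 := Rp.test (k := 62) (by norm_num) h1 (fun i hi => by
    have := hb i hi
    have := hb' i hi
    constructor <;> linarith) hO' (Nat.eq_of_beq_eq_true e) i hi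
  linarith

theorem r_rng (h : R64 N v) (hb : ∀ i < 8192, 0 ≤ v i ∧ v i < 2 ^ 34) (e : rng N = true) :
    ∀ i < 8192, 2 ^ 33 ≤ v i ∧ v i < 2 ^ 33 + 2 ^ 20 := by
  have hM := r_cst 17178820608
  have hO := r_cst 8589934592
  unfold rng at e
  generalize cst 17178820608 = M at e hM
  generalize cst 8589934592 = O at e hO
  intro i hi
  obtain ⟨h1, h2⟩ := hb i hi
  have h3 := ldig_NPk h hM hO (fun i hi => ⟨(hb i hi).1, (hb i hi).2.trans (by norm_num)⟩)
    (fun _ _ => by norm_num) (fun _ _ => by norm_num) (Nat.eq_of_beq_eq_true e) hi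
  rw [Int.toNat_natCast, Int.toNat_natCast] at h3
  have h4 := congrArg (· / 2 ^ 20) h3
  have e1 : 17178820608 / 2 ^ 20 = 2 ^ 14 - 1 := by norm_num
  simp only [Nat.and_div_two_pow, e1, Nat.and_two_pow_sub_one_eq_mod] at h4
  omega

theorem bits_NPk (x n : ℕ) : ∑ b ∈ range n, (x.testBit b).toNat * 2 ^ b = x % 2 ^ n := by
  induction n with
  | zero => simp [Nat.mod_one]
  | succ n ih => rw [Finset.sum_range_succ, ih, Nat.mod_pow_succ, Nat.toNat_testBit, mul_comm]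

theorem bit_NPk (h : R64 A v) (h' : R64 B v') (hb : ∀ i < 8192, 0 ≤ v i ∧ v i < 2 ^ 20)
    (hb' : ∀ i < 8192, 0 ≤ v' i ∧ v' i < 2 ^ 35) {b : ℕ} (hb20 : b < 20) :
    Rp 64 8192 (Nat.land (Nat.mul (Nat.land A (cst (p2 b))) 34359738367) (Nat.shiftLeft B b))
      fun i => ((((v i).toNat.testBit b).toNat * 2 ^ b : ℕ) : ℤ) * v' i := by
  have hO := r_cst (p2 b)
  generalize cst (p2 b) = O at hO ⊢
  rw [p2_NPk] at hO
  have p0 : (0 : ℤ) < 2 ^ b := by positivity
  have p1 : (2 : ℤ) ^ b ≤ 2 ^ 20 := pow_le_pow_right₀ one_le_two hb20.le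
  have h1 : Rp 64 8192 (Nat.mul (Nat.land A O) 34359738367) fun i =>
      ((34359738367 * (((v i).toNat.testBit b).toNat * 2 ^ b) : ℕ) : ℤ) := by
    rw [Nat.mul_eq, mul_comm]
    refine ((Rp.land h hO (fun i hi => ⟨(hb i hi).1, (hb i hi).2.trans (by norm_num)⟩)
      fun i _ => ⟨Nat.cast_nonneg _, ?_⟩).mul 34359738367).congr fun i _ => ?_
    · push_cast
      exact p1.trans_lt (by norm_num)
    · rw [Int.toNat_natCast, Nat.and_two_pow, ← Nat.cast_mul]
  refine (Rp.land h1 (Rp.shl b h') (fun i _ => ⟨Nat.cast_nonneg _, ?_⟩) fun i hi => ?_).congr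
    fun i hi => ?_
  · cases (v i).toNat.testBit b
    · norm_num
    · push_cast
      simp only [Bool.toNat_true, Nat.cast_one, one_mul]
      linarith
  · obtain ⟨h2, h3⟩ := hb' i hi
    exact ⟨by positivity, by nlinarith⟩
  · obtain ⟨h2, h3⟩ := hb' i hi
    obtain ⟨y, hy⟩ := Int.eq_ofNat_of_zero_le h2
    have hy' : y < 2 ^ 35 := by
      rw [hy] at h3
      exact_mod_cast h3
    have e : (2 : ℤ) ^ b * (y : ℤ) = ((y * 2 ^ b : ℕ) : ℤ) := by
      push_cast
      ring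
    rw [hy, e, Int.toNat_natCast, Int.toNat_natCast, ← Nat.cast_mul]
    congr 1
    cases (v i).toNat.testBit b
    · simp
    · have e2 : (34359738367 : ℕ) = 2 ^ 35 - 1 := by norm_num
      rw [Bool.toNat_true, one_mul, ← Nat.shiftLeft_eq, ← Nat.shiftLeft_eq,
        ← Nat.shiftLeft_and_distrib, Nat.and_comm, e2, Nat.and_two_pow_sub_one_of_lt_two_pow hy',
        Nat.shiftLeft_eq, mul_comm]

theorem r_bm (h : R64 A v) (h' : R64 B v') (hb : ∀ i < 8192, 0 ≤ v i ∧ v i < 2 ^ 20)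
    (hb' : ∀ i < 8192, 0 ≤ v' i ∧ v' i < 2 ^ 35) : R64 (bm A B) (fun i => v i * v' i) := by
  unfold R64 bm
  refine (Rp.sum 20 fun b hb20 => bit_NPk h h' hb hb' hb20).congr fun i hi => ?_
  obtain ⟨h1, h2⟩ := hb i hi
  rw [← Finset.sum_mul, ← Nat.cast_sum, bits_NPk, Nat.mod_eq_of_lt (by omega),
    Int.toNat_of_nonneg h1]

end Pool.Agent.MP_ebf981_lc.N9

end

section

namespace Pool.Agent.MP_ebf981_lc.N9

open Finset

theorem fl_NCis (a : ℤ) {b : ℤ} (hb : 0 < b) :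
    ∃ e : ℝ, |e| ≤ 1 ∧ ((a / b : ℤ) : ℂ) = a / b + e := by
  have h0 : (0 : ℝ) < b := by exact_mod_cast hb
  have h1 : ((a / b : ℤ) : ℝ) * b ≤ a := by exact_mod_cast Int.ediv_mul_le a hb.ne'
  have h2 : (a : ℝ) < (((a / b : ℤ) : ℝ) + 1) * b := by
    exact_mod_cast Int.lt_ediv_add_one_mul_self a hb
  rw [← le_div_iff₀ h0] at h1
  rw [← div_lt_iff₀ h0] at h2
  refine ⟨((a / b : ℤ) : ℝ) - a / b, abs_le.2 ⟨by linarith, by linarith⟩, ?_⟩
  rw [Complex.ofReal_sub, Complex.ofReal_div, Complex.ofReal_intCast, Complex.ofReal_intCast,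
    Complex.ofReal_intCast]
  ring

theorem nm_NCis {x y : ℝ} (hx : |x| ≤ 1) (hy : |y| ≤ 1) (k : ℕ) :
    ‖((x : ℂ) + y * Complex.I) / 2 ^ k‖ ≤ 71 / 50 / 2 ^ k := by
  rw [norm_div, norm_pow, Complex.norm_two, Complex.norm_add_mul_I]
  refine div_le_div_of_nonneg_right (Real.sqrt_le_iff.2 ⟨by norm_num, ?_⟩) (by positivity)
  nlinarith [(sq_le_one_iff_abs_le_one x).2 hx, (sq_le_one_iff_abs_le_one y).2 hy]

theorem mono_NCis {w : ℤ × ℤ} {θ θ' ε ε' : ℝ} (h : Cis w θ ε) (e : θ = θ') (h' : ε ≤ ε') :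
    Cis w θ' ε' := e ▸ le_trans h h'

theorem tay_NCis (t : ℂ) : ∑ m ∈ range 14, (t * Complex.I) ^ m / (m.factorial : ℂ) =
    (1 - t ^ 2 / 2 + t ^ 4 / 24 - t ^ 6 / 720 + t ^ 8 / 40320 - t ^ 10 / 3628800 +
      t ^ 12 / 479001600) + (t - t ^ 3 / 6 + t ^ 5 / 120 - t ^ 7 / 5040 + t ^ 9 / 362880 -
      t ^ 11 / 39916800 + t ^ 13 / 6227020800) * Complex.I := by
  simp only [sum_range_succ, range_zero, sum_empty, mul_pow, Nat.factorial, pow_succ Complex.I,
    pow_zero, one_mul, Complex.I_mul_I, neg_mul, neg_neg]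
  push_cast
  ring

theorem cisT_spec {n : ℤ} (h : |n| ≤ 2 ^ 27) : Cis (cisT n) (n / 2 ^ 28) (1 / 2 ^ 47) := by
  unfold Cis cisT
  obtain ⟨x, hx, e1⟩ := fl_NCis (479001600 * 2 ^ 336 - n * n * (239500800 * 2 ^ 280 - n * n *
    (19958400 * 2 ^ 224 - n * n * (665280 * 2 ^ 168 - n * n * (11880 * 2 ^ 112 - n * n *
      (132 * 2 ^ 56 - n * n)))))) (b := 479001600 * 2 ^ 276) (by positivity)
  obtain ⟨y, hy, e2⟩ := fl_NCis (n * (6227020800 * 2 ^ 336 - n * n * (1037836800 * 2 ^ 280 -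
    n * n * (51891840 * 2 ^ 224 - n * n * (1235520 * 2 ^ 168 - n * n * (17160 * 2 ^ 112 -
      n * n * (156 * 2 ^ 56 - n * n))))))) (b := 6227020800 * 2 ^ 304) (by positivity)
  have h1 : ‖(((n / 2 ^ 28 : ℝ) : ℂ)) * Complex.I‖ ≤ 1 / 2 := by
    have : |(n : ℝ)| ≤ 2 ^ 27 := by exact_mod_cast h
    rw [norm_mul, Complex.norm_I, mul_one, Complex.norm_real, Real.norm_eq_abs, abs_div,
      abs_of_pos (a := (2 : ℝ) ^ 28) (by positivity)]
    linarith
  have h2 := Complex.exp_bound (h1.trans (by norm_num)) (n := 14) (by norm_num)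
  have h3 := h2.trans (mul_le_mul_of_nonneg_right (pow_le_pow_left₀ (norm_nonneg _) h1 14)
    (by positivity))
  rw [tay_NCis, norm_sub_rev] at h3
  have h4 := (norm_add_le _ _).trans (add_le_add h3 (nm_NCis hx hy 60))
  refine le_trans (le_of_eq (congrArg norm ?_)) (h4.trans (by norm_num [Nat.factorial]))
  simp only [e1, e2]
  push_cast
  rw [show (2 : ℂ) ^ 336 = 2 ^ 168 * 2 ^ 168 from pow_add 2 168 168,
    show (2 : ℂ) ^ 280 = 2 ^ 140 * 2 ^ 140 from pow_add 2 140 140,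
    show (2 : ℂ) ^ 276 = 2 ^ 138 * 2 ^ 138 from pow_add 2 138 138,
    show (2 : ℂ) ^ 304 = 2 ^ 152 * 2 ^ 152 from pow_add 2 152 152]
  ring

theorem cmul_spec {p q : ℤ × ℤ} {θ θ' ε ε' : ℝ} (h : Cis p θ ε) (h' : Cis q θ' ε') :
    Cis (cmul p q) (θ + θ') (ε + ε' + ε * ε' + 1 / 2 ^ 59) := by
  unfold Cis at h h' ⊢
  unfold cmul
  obtain ⟨x, hx, e1⟩ := fl_NCis (p.1 * q.1 - p.2 * q.2) (b := 1152921504606846976) (by positivity)
  obtain ⟨y, hy, e2⟩ := fl_NCis (p.1 * q.2 + p.2 * q.1) (b := 1152921504606846976) (by positivity)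
  have n1 := Complex.norm_exp_ofReal_mul_I θ
  have n2 := Complex.norm_exp_ofReal_mul_I θ'
  rw [Complex.ofReal_add, add_mul, Complex.exp_add]
  generalize Complex.exp (θ * Complex.I) = a at h n1
  generalize Complex.exp (θ' * Complex.I) = b at h' n2
  have h1 := (norm_mul_le _ _).trans (mul_le_mul h h' (norm_nonneg _) ((norm_nonneg _).trans h))
  have h2 := (norm_mul_le _ b).trans (mul_le_mul h n2.le (norm_nonneg _) ((norm_nonneg _).trans h))
  have h3 := (norm_mul_le a _).trans (mul_le_mul n1.le h' (norm_nonneg _) zero_le_one)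
  have h4 := (norm_add_le _ _).trans (add_le_add ((norm_add_le _ _).trans (add_le_add
    ((norm_add_le _ _).trans (add_le_add h1 h2)) h3)) (nm_NCis hx hy 60))
  refine le_trans (le_of_eq (congrArg norm ?_)) (h4.trans (by linarith))
  simp only [e1, e2]
  push_cast
  linear_combination (-(p.2 : ℂ) * q.2 / 2 ^ 120) * Complex.I_mul_I

theorem sqs_NCis {p : ℤ × ℤ} {θ : ℝ} (h : Cis p θ (1 / 2 ^ 47)) (m : ℕ) (hm : m ≤ 7) :
    Cis (sqs p m) (2 ^ m * θ) ((2 * 2 ^ m - 1) / 2 ^ 47) := by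
  induction m with
  | zero => exact mono_NCis h (by ring) (by norm_num)
  | succ m ih =>
    have h1 : (2 : ℝ) ^ m ≤ 2 ^ 7 := pow_le_pow_right₀ one_le_two (by omega)
    have h2 : (1 : ℝ) ≤ 2 ^ m := one_le_pow₀ one_le_two
    refine mono_NCis (cmul_spec (ih (by omega)) (ih (by omega))) (by ring) ?_
    rw [pow_succ (2 : ℝ) m]
    nlinarith

theorem sq_NCis {n : ℤ} (h : |n| ≤ 2 ^ 27) {m : ℕ} (hm : m ≤ 7) :
    Cis (sqs (cisT n) m) (2 ^ m * (n / 2 ^ 28)) (1 / 2 ^ 39) := by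
  have h1 : (2 : ℝ) ^ m ≤ 2 ^ 7 := pow_le_pow_right₀ one_le_two hm
  exact mono_NCis (sqs_NCis (cisT_spec h) m hm) rfl (by linarith)

theorem conj_NCis {w : ℤ × ℤ} {θ ε : ℝ} (h : Cis w θ ε) : Cis (w.1, -w.2) (-θ) ε := by
  unfold Cis at h ⊢
  rw [← Complex.norm_conj] at h
  refine le_of_eq_of_le (congrArg norm ?_) h
  simp [← Complex.exp_conj, map_ofNat]

theorem rsc_spec {c d : ℤ} (hc : |c| ≤ 16777216) (hd : |d| ≤ 2621440) {m : ℕ} (hm : m < 13) :
    Cis (rsc c d m) (if m < 8 then (c : ℝ) / 2 ^ 20 * (3 / 128 * 2 ^ m)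
      else (d : ℝ) / 2 ^ 20 * (3 / 8 * 2 ^ (m - 8))) (1 / 2 ^ 38) := by
  have h1 : |6 * c| ≤ 2 ^ 27 := by rw [abs_mul]; norm_num; linarith
  have h2 : |48 * d| ≤ 2 ^ 27 := by rw [abs_mul]; norm_num; linarith
  unfold rsc
  split_ifs with h
  · rw [show Nat.ble 8 m = false from Bool.eq_false_iff.2 fun e => by
      have := Nat.le_of_ble_eq_true e
      omega]
    refine mono_NCis (sq_NCis h1 (m := m) (by omega)) ?_ (by norm_num)
    push_cast
    ring
  · obtain ⟨k, rfl⟩ : ∃ k, m = k + 8 := ⟨m - 8, by omega⟩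
    rw [show Nat.ble 8 (k + 8) = true from Nat.ble_eq_true_of_le (by omega)]
    refine mono_NCis (sq_NCis h2 (m := k + 1) (by omega)) ?_ (by norm_num)
    rw [Nat.add_sub_cancel]
    push_cast
    ring

theorem rs0_spec {d : ℤ} (hd : |d| ≤ 2621440) :
    Cis (rs0 d) ((d : ℝ) / 2 ^ 20 * (-93 / 16)) (1 / 2 ^ 38) := by
  have h2 : |48 * d| ≤ 2 ^ 27 := by rw [abs_mul]; norm_num; linarith
  refine mono_NCis (cmul_spec (cisT_spec h2) (conj_NCis (sq_NCis h2 (m := 5) (by omega)))) ?_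
    (by norm_num)
  push_cast
  ring

theorem tn_spec {w : ℤ × ℤ} {θ : ℝ} (h : Cis w θ (1 / 2 ^ 38)) :
    ∃ a b : ℤ, (tn w.1 : ℤ) = a + 2 ^ 31 ∧ (tn w.2 : ℤ) = b + 2 ^ 31 ∧ |a| ≤ 2 ^ 30 + 2 ∧
      |b| ≤ 2 ^ 30 + 2 ∧
      ‖((a : ℂ) + (b : ℂ) * Complex.I) / 2 ^ 30 - Complex.exp (θ * Complex.I)‖ ≤ 3 / 2 ^ 31 := by
  unfold Cis at h
  have h0 : ‖((w.1 : ℂ) + (w.2 : ℂ) * Complex.I) / 2 ^ 60‖ ≤ 1 / 2 ^ 38 + 1 := by
    have := (norm_add_le _ _).trans (add_le_add h (Complex.norm_exp_ofReal_mul_I θ).le)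
    rwa [sub_add_cancel] at this
  rw [norm_div, norm_pow, Complex.norm_two, div_le_iff₀ (by positivity)] at h0
  have h1 := (Complex.abs_re_le_norm _).trans h0
  have h2 := (Complex.abs_im_le_norm _).trans h0
  simp only [Complex.add_re, Complex.add_im, Complex.mul_re, Complex.mul_im, Complex.intCast_re,
    Complex.intCast_im, Complex.I_re, Complex.I_im, mul_zero, mul_one, sub_zero, add_zero,
    zero_add] at h1 h2
  have h3 : |w.1| ≤ 2 ^ 60 + 2 ^ 22 := by
    have : |(w.1 : ℝ)| ≤ 2 ^ 60 + 2 ^ 22 := h1.trans (by norm_num)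
    exact_mod_cast this
  have h4 : |w.2| ≤ 2 ^ 60 + 2 ^ 22 := by
    have : |(w.2 : ℝ)| ≤ 2 ^ 60 + 2 ^ 22 := h2.trans (by norm_num)
    exact_mod_cast this
  rw [abs_le] at h3 h4
  obtain ⟨x, hx, e1⟩ := fl_NCis w.1 (b := 1073741824) (by positivity)
  obtain ⟨y, hy, e2⟩ := fl_NCis w.2 (b := 1073741824) (by positivity)
  refine ⟨w.1 / 1073741824, w.2 / 1073741824, by unfold tn; omega, by unfold tn; omega,
    abs_le.2 (by omega), abs_le.2 (by omega), ?_⟩
  have h5 := (norm_add_le _ _).trans (add_le_add h (nm_NCis hx hy 30))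
  refine le_trans (le_of_eq (congrArg norm ?_)) (h5.trans (by norm_num))
  rw [e1, e2]
  push_cast
  ring

end Pool.Agent.MP_ebf981_lc.N9

end

section

namespace Pool.Agent.MP_ebf981_lc.N9

open Finset

theorem sum_NStat (w L : ℕ) (v u : ℕ → ℤ) (k : ℕ) :
    ∑ n ∈ range (L * k), v (n % L) * u (n / L) * 2 ^ (w * n) =
      (∑ i ∈ range L, v i * 2 ^ (w * i)) * ∑ l ∈ range k, u l * 2 ^ (w * L * l) := by
  induction k with
  | zero => simp
  | succ k ih =>
    rw [Nat.mul_succ, sum_range_add, ih, sum_range_succ, mul_add, sum_mul (range L) _ (_ * _)]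
    refine congrArg _ (sum_congr rfl fun i hi => ?_)
    have h := mem_range.1 hi
    rw [Nat.mul_add_mod, Nat.mod_eq_of_lt h, Nat.mul_add_div (by omega), Nat.div_eq_of_lt h,
      add_zero, mul_add, pow_add, ← mul_assoc w]
    ring

theorem tens_NStat {A B : ℕ} {v u : ℕ → ℤ} (h : Rp 64 256 A v) (h' : Rp 16384 32 B u) :
    R64 (Nat.mul A B) (fun n => v (n % 256) * u (n / 256)) := by
  unfold R64 Rp at *
  rw [Nat.mul_eq, Nat.cast_mul, h, h']
  exact (sum_NStat 64 256 v u 32).symm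

theorem pack_NStat (w L : ℕ) (f : ℕ → ℕ) :
    Rp w L (sumN (fun i => Nat.shiftLeft (f i) (Nat.mul w i)) L) (fun i => f i) := by
  unfold Rp
  rw [sumN_eq, Nat.cast_sum]
  refine sum_congr rfl fun i _ => ?_
  change ((f i <<< (w * i) : ℕ) : ℤ) = _
  rw [Nat.shiftLeft_eq]
  push_cast
  rfl

theorem col_NStat (f : ℕ → ℕ) : Rp 16384 32 (col f) (fun l => f l) := pack_NStat 16384 32 f

theorem rep_NStat : Rp 16384 32 rep (fun _ => 1) := by
  unfold rep
  exact Rp.one (by norm_num) 32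

theorem row_NStat {N : ℕ} (f : ℕ → ℕ)
    (h : Nat.beq N (sumN (fun i => Nat.shiftLeft (f i) (Nat.mul 64 i)) 256) = true) :
    Rp 64 256 N (fun i => f i) := by
  rw [Nat.eq_of_beq_eq_true h]
  exact pack_NStat 64 256 f

theorem rz1_NStat : Rp 64 256 rz1 (fun i => (i : ℕ)) :=
  row_NStat (fun i => i) (by decide +kernel)

theorem rz2_NStat : Rp 64 256 rz2 (fun i => (18432 * i ^ 2 : ℕ)) :=
  row_NStat (fun i => 18432 * i ^ 2) (by decide +kernel)

theorem rz4_NStat : Rp 64 256 rz4 (fun i => (81 * i ^ 4 / 256 : ℕ)) :=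
  row_NStat (fun i => 81 * i ^ 4 / 256) (by decide +kernel)

theorem rz6_NStat : Rp 64 256 rz6 (fun i => (729 * i ^ 6 / 134217728 : ℕ)) :=
  row_NStat (fun i => 729 * i ^ 6 / 134217728) (by decide +kernel)

theorem o31_NStat : R64 o31 (fun _ => 2 ^ 31) := by
  unfold o31
  exact Rp.congr (r_cst 2147483648) fun _ _ => by norm_num

theorem IZ_spec : R64 IZ (fun n => ((n % 256 : ℕ) : ℤ)) := by
  unfold IZ
  exact Rp.congr (tens_NStat rz1_NStat rep_NStat) fun _ _ => mul_one _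

theorem IU_spec : R64 IU (fun n => ((n / 256 : ℕ) : ℤ)) := by
  unfold IU
  exact Rp.congr (tens_NStat (Rp.one (by norm_num) 256) (col_NStat fun l => l)) fun _ _ => one_mul _

/-- a table from integer values on the grid -/
theorem tb_NStat {T : ℕ} {φ : ℝ → ℝ → ℝ} (V : ℕ → ℕ → ℤ)
    (h : R64 T (fun n => V (n % 256) (n / 256) + 2 ^ 31))
    (h' : ∀ i < 256, ∀ l < 32, |V i l| ≤ 2 ^ 31 ∧ |(V i l : ℝ) - 2 ^ 28 * φ (zn i) (un l)| ≤ 1) :
    Tb T φ := by
  refine ⟨_, h, fun n hn => ?_⟩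
  obtain ⟨h1, h2⟩ := h' (n % 256) (Nat.mod_lt _ (by norm_num)) (n / 256) (by omega)
  refine ⟨h1, ?_⟩
  rw [abs_le] at h2 ⊢
  unfold nd
  constructor <;> linarith [h2.1, h2.2]

theorem flo_NStat (a : ℕ) {d : ℕ} (hd : 0 < d) {x : ℝ} (hx : x = a / d) :
    |(((a / d : ℕ) : ℤ) : ℝ) - x| ≤ 1 := by
  have h0 : (0 : ℝ) < d := Nat.cast_pos.2 hd
  have h1 : ((a / d : ℕ) : ℝ) ≤ a / d := Nat.cast_div_le
  have h2 : (a : ℝ) / d < ((a / d : ℕ) : ℝ) + 1 := by
    rw [div_lt_iff₀ h0]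
    exact_mod_cast (Nat.div_lt_iff_lt_mul hd).1 (Nat.lt_succ_self _)
  rw [Int.cast_natCast, hx, abs_le]
  constructor <;> linarith

theorem tz_spec {κ : ℕ} (h : κ ≤ 2 ^ 24) : Tb (tz κ) (fun z _ => κ / 2 ^ 24 * z) := by
  have hb : ∀ i < 256, 3 * κ * i ≤ 3 * 2 ^ 24 * 256 := fun i hi =>
    Nat.mul_le_mul (Nat.mul_le_mul_left 3 h) hi.le
  refine tb_NStat (fun i _ => (3 * κ * i / 8 : ℕ)) ?_ fun i hi l _ => ⟨?_, flo_NStat _ (by norm_num) ?_⟩
  · unfold tz
    refine Rp.congr (Rp.add (r_shr (by norm_num) (Rp.mul (Nat.mul 3 κ) IZ_spec) fun n _ => ?_)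
      o31_NStat) fun n _ => ?_
    · have := hb (n % 256) (Nat.mod_lt _ (by norm_num))
      rw [Nat.mul_eq, ← Nat.cast_mul]
      omega
    · rw [Nat.mul_eq]
      push_cast
      rfl
  · have := hb i hi
    rw [abs_le]
    omega
  · unfold zn
    push_cast
    ring

theorem tu_spec {κ : ℕ} (h : κ ≤ 2 ^ 24) : Tb (tu κ) (fun _ u => κ / 2 ^ 24 * u) := by
  refine tb_NStat (fun _ l => κ * (6 * l - 93)) ?_ fun i _ l hl => ⟨?_, ?_⟩
  · unfold tu
    refine Rp.congr (Rp.add (Rp.mul (Nat.mul 6 κ) IU_spec) (r_cst _)) fun n _ => ?_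
    rw [Nat.mul_eq, Nat.mul_eq, Nat.sub_eq, Nat.cast_sub (by omega)]
    push_cast
    ring
  · have h1 : (κ : ℤ) ≤ 2 ^ 24 := by exact_mod_cast h
    have h2 : |(6 * l - 93 : ℤ)| ≤ 128 := by
      rw [abs_le]
      omega
    rw [abs_mul, Nat.abs_cast]
    exact (mul_le_mul h1 h2 (abs_nonneg _) (by norm_num)).trans (by norm_num)
  · unfold un
    push_cast
    ring_nf
    simp

theorem tcst_spec {κ : ℕ} (h : κ ≤ 2 ^ 28) :
    Tb (cst (Nat.add 2147483648 κ)) (fun _ _ => κ / 2 ^ 28) := by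
  refine tb_NStat (fun _ _ => κ) (Rp.congr (r_cst _) fun n _ => ?_) fun i _ l _ => ⟨?_, ?_⟩
  · rw [Nat.add_eq]
    push_cast
    ring
  · rw [abs_le]
    omega
  · push_cast
    ring_nf
    simp

theorem trow_NStat {N : ℕ} {φ : ℝ → ℝ → ℝ} (f : ℕ → ℕ) (h : Rp 64 256 N (fun i => f i))
    (h' : ∀ i < 256, f i ≤ 2 ^ 31 ∧ ∀ u, |((f i : ℤ) : ℝ) - 2 ^ 28 * φ (zn i) u| ≤ 1) :
    Tb (Nat.add (Nat.mul N rep) o31) φ :=
  tb_NStat (fun i _ => f i) (Rp.congr (Rp.add (tens_NStat h rep_NStat) o31_NStat) fun n _ => by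
    rw [mul_one]) fun i hi l _ => ⟨by
      have := (h' i hi).1
      rw [abs_le]
      omega, (h' i hi).2 _⟩

theorem t7_NStat : Tb (Nat.add (Nat.mul rz2 rep) o31) (fun z _ => z ^ 2 / 8) := by
  refine trow_NStat _ rz2_NStat fun i hi => ⟨?_, fun _ => ?_⟩
  · have := Nat.pow_le_pow_left hi.le 2
    omega
  · unfold zn
    push_cast
    ring_nf
    simp

theorem t8_NStat : Tb (Nat.add (Nat.mul rz4 rep) o31) (fun z _ => z ^ 4 / 256) := by
  refine trow_NStat _ rz4_NStat fun i hi => ⟨?_, fun _ => flo_NStat _ (by norm_num) ?_⟩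
  · have := Nat.pow_le_pow_left hi.le 4
    omega
  · unfold zn
    push_cast
    ring

theorem t9_NStat : Tb (Nat.add (Nat.mul rz6 rep) o31) (fun z _ => z ^ 6 / 8192) := by
  refine trow_NStat _ rz6_NStat fun i hi => ⟨?_, fun _ => flo_NStat _ (by norm_num) ?_⟩
  · have := Nat.pow_le_pow_left hi.le 6
    omega
  · unfold zn
    push_cast
    ring

theorem t10_NStat : Tb tU2 (fun _ u => u ^ 2 / 8) := by
  refine tb_NStat (fun _ l => 131072 * (6 * l - 93) ^ 2) ?_ fun i _ l hl => ⟨?_, ?_⟩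
  · unfold tU2
    refine Rp.congr (Rp.add (tens_NStat (Rp.one (by norm_num) 256) (col_NStat _)) o31_NStat)
      fun n _ => ?_
    generalize n / 256 = l
    have h : 1116 * l ≤ 36 * (l * l) + 8649 := by
      zify
      nlinarith [sq_nonneg (6 * (l : ℤ) - 93)]
    simp only [Nat.mul_eq, Nat.sub_eq, Nat.add_eq]
    rw [Nat.cast_mul, Nat.cast_sub h]
    push_cast
    ring
  · have h2 : |(6 * l - 93 : ℤ)| ≤ 128 := by
      rw [abs_le]
      omega
    have h3 := pow_le_pow_left₀ (abs_nonneg _) h2 2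
    rw [abs_mul, abs_pow]
    norm_num at h3 ⊢
    linarith
  · unfold un
    push_cast
    ring_nf
    simp

theorem t11_NStat : Tb tUZ (fun z u => u * z / 8) := by
  refine tb_NStat (fun i l => 49152 * (i * (6 * l - 93))) ?_ fun i hi l hl => ⟨?_, ?_⟩
  · unfold tUZ
    refine Rp.congr (Rp.sub (Rp.add (Rp.mul 294912 (tens_NStat rz1_NStat (col_NStat fun l => l)))
      o31_NStat) (Rp.mul 4571136 IZ_spec) fun n _ => ?_) fun n _ => ?_
    · have h1 : n % 256 < 256 := Nat.mod_lt _ (by norm_num)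
      rw [← Nat.cast_mul (n % 256)]
      omega
    · generalize n / 256 = l
      generalize n % 256 = i
      push_cast
      ring
  · have h1 : (i : ℤ) ≤ 256 := by omega
    have h2 : |(6 * l - 93 : ℤ)| ≤ 128 := by
      rw [abs_le]
      omega
    have h3 := mul_le_mul h1 h2 (abs_nonneg _) (by norm_num)
    rw [abs_mul, abs_mul, Nat.abs_cast, abs_of_pos (by norm_num : (0 : ℤ) < 49152)]
    linarith
  · unfold un zn
    push_cast
    ring_nf
    simp

theorem tbL_static (e : Ev) (τ : ℕ) {j : ℕ} (h0 : 7 ≤ j) (h1 : j < 12) : Tb (tbL τ j) (bLf e j) := by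
  have e1 : ∀ {α : Type} (a b : α), ifb true a b = a := fun _ _ => rfl
  have e2 : ∀ {α : Type} (a b : α), ifb false a b = b := fun _ _ => rfl
  have e3 : ∀ a b : ℕ, Nat.ble a b = decide (a ≤ b) := fun a b => by
    rw [Bool.eq_iff_iff, Nat.ble_eq, decide_eq_true_eq]
  unfold tbL
  simp only [e3]
  interval_cases j
  · simp only [Nat.reduceLeDiff, le_refl, decide_true, decide_false, e1, e2]
    exact t7_NStat
  · simp only [Nat.reduceLeDiff, le_refl, decide_true, decide_false, e1, e2]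
    exact t8_NStat
  · simp only [Nat.reduceLeDiff, le_refl, decide_true, decide_false, e1, e2]
    exact t9_NStat
  · simp only [Nat.reduceLeDiff, le_refl, decide_true, decide_false, e1, e2]
    exact t10_NStat
  · simp only [Nat.reduceLeDiff, le_refl, decide_true, decide_false, e1, e2]
    exact t11_NStat

end Pool.Agent.MP_ebf981_lc.N9

end

section

namespace Pool.Agent.MP_ebf981_lc.N9

open Finset

theorem up_NSc1 {x : ℝ} {M k : ℕ} (h : x = (M : ℝ) / 2 ^ k / 2 ^ 40) : x ≤ up M k / 2 ^ 40 := by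
  rw [h]
  exact div_le_div_of_nonneg_right (le_up M k) (by positivity)

theorem sum_NSc1 (M o : ℕ) (κ : ℕ → ℕ) (φ : ℕ → ℝ) (c : ℝ) (h : ∀ j, φ j = κ j * c) :
    ∑ j ∈ range 7, |co M (j + o)| * φ j = dt M o κ / 2 ^ 18 * c := by
  rw [dt_eq, Nat.cast_sum, sum_div, sum_mul]
  refine sum_congr rfl fun j _ => ?_
  rw [co_abs, h, Nat.cast_mul]
  ring

theorem rho_NSc1 (r E S : ℕ) : (evR r E).ρ ^ crd S = rp r (crd S) / 2 ^ 24 := by
  rw [rp_eq r (crd_le S), mul_div_assoc, div_self (by positivity), mul_one]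
  rfl

theorem ei_NSc1 (E j i : ℕ) : |(ei E j i : ℝ) / 2 ^ 20| = (em E j i : ℝ) / 2 ^ 20 := by
  rw [abs_div, ← Int.cast_abs, ei_abs, abs_of_pos (by positivity), Int.cast_natCast]

theorem R_NSc1 (r E j : ℕ) : |(evR r E).R j| = ef E j 0 / 2 ^ 20 :=
  abs_of_nonneg (show (0 : ℝ) ≤ ef E j 0 / 2 ^ 20 by positivity)

theorem t_NSc1 (r E j : ℕ) : (evR r E).t j = kt E j * (1 / 16) := by
  change ((j : ℝ) + 1) * fd E 4 / 16 = _
  rw [kt]
  push_cast
  ring

theorem t2_NSc1 (r E j : ℕ) : (evR r E).t j ^ 2 = kt2 E j * (1 / 256) := by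
  rw [t_NSc1, kt2]
  push_cast
  ring

theorem max_NSc1 (z : ℤ) (k : ℕ) : max ((z : ℝ) / 2 ^ k) 0 = (z.toNat : ℝ) / 2 ^ k := by
  have h : ((z.toNat : ℤ) : ℝ) = max (z : ℝ) 0 := by
    rw [Int.toNat_eq_max]
    push_cast
    rfl
  rw [Int.cast_natCast] at h
  rw [h, ← max_div_div_right (by positivity), zero_div]

variable (r E : ℕ) (N : ℕ → ℕ) (S : ℕ)

theorem K0n_le : K0 (evR r E) (fun S => co (N S)) S ≤ K0n E (N S) / 2 ^ 40 := by
  refine up_NSc1 ?_
  rw [K0, sum_NSc1 (N S) 2 (kt2 E) _ _ (t2_NSc1 r E)]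
  push_cast
  ring

theorem K1n_le : K1 (evR r E) (fun S => co (N S)) S ≤ K1n r E (N S) (crd S) / 2 ^ 40 := by
  refine up_NSc1 ?_
  rw [K1, sum_NSc1 (N S) 2 (k2 E) _ (1 / 2 ^ 77), rho_NSc1]
  · push_cast
    ring
  · intro j
    have h1 : (evR r E).c j ^ 2 = ((em E j 1 : ℝ) / 2 ^ 20) ^ 2 := by
      rw [← ei_NSc1, sq_abs]; rfl
    have h2 : (evR r E).d j ^ 2 = ((em E j 2 : ℝ) / 2 ^ 20) ^ 2 := by
      rw [← ei_NSc1, sq_abs]; rfl
    rw [R_NSc1, h1, h2, k2]
    push_cast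
    ring

theorem Z0n_le : Z0 (evR r E) (fun S => co (N S)) S ≤ Z0n E (N S) (ev S) / 2 ^ 40 := by
  refine le_of_eq ?_
  rw [Z0, sum_NSc1 (N S) 2 (kt E) _ (1 / 16), co_abs, ← ev_eq, Z0n]
  · push_cast
    ring
  · intro j
    rw [t_NSc1, abs_of_nonneg (by positivity)]

theorem U0n_le : U0 (fun S => co (N S)) S ≤ U0n (N S) (ev S) / 2 ^ 40 := by
  refine le_of_eq ?_
  rw [U0, co_abs, ← ev_eq, U0n]
  push_cast
  ring

theorem Z1n_le : Z1 (evR r E) (fun S => co (N S)) S ≤ Z1n r E (N S) (crd S) (ev S) / 2 ^ 40 := by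
  refine up_NSc1 ?_
  rw [Z1, sum_NSc1 (N S) 2 (kc E) _ (1 / 2 ^ 40), rho_NSc1, co_abs, ← ev_eq,
    show (evR r E).ρ = r / 256 from rfl]
  · push_cast
    ring
  · intro j
    rw [R_NSc1, show |(evR r E).c j| = (em E j 1 : ℝ) / 2 ^ 20 from ei_NSc1 E j 1, kc]
    push_cast
    ring

theorem U1n_le : U1 (evR r E) (fun S => co (N S)) S ≤ U1n r E (N S) (crd S) (ev S) / 2 ^ 40 := by
  refine up_NSc1 ?_
  rw [U1, sum_NSc1 (N S) 2 (kd E) _ (1 / 2 ^ 40), rho_NSc1, co_abs, ← ev_eq,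
    show (evR r E).ρ = r / 256 from rfl]
  · push_cast
    ring
  · intro j
    rw [R_NSc1, show |(evR r E).d j| = (em E j 2 : ℝ) / 2 ^ 20 from ei_NSc1 E j 2, kd]
    push_cast
    ring

theorem KQn_le (k k3 kg e0 e1 z0 u0 z1 u1 : ℕ) :
    KQ (k / 2 ^ 32) (k3 / 2 ^ 32) (kg / 2 ^ 32) (e0 / 2 ^ 40) (e1 / 2 ^ 40) (z0 / 2 ^ 40)
      (u0 / 2 ^ 40) (z1 / 2 ^ 40) (u1 / 2 ^ 40) ≤ KQn k k3 kg e0 e1 z0 u0 z1 u1 / 2 ^ 40 := by
  refine up_NSc1 ?_
  rw [KQ]
  push_cast
  ring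

theorem c4_eq (C : ℕ) :
    (ctR C).c4 = (iv (lN C) 8 : ℝ) / 2 ^ 26 + 41 / 16384 * max (ctR C).c6 0 := by
  change (C4z C : ℝ) / 2 ^ 45 = _ + _ * max ((C6z C : ℝ) / 2 ^ 31) 0
  rw [max_NSc1, C4z, Int.ofNat_eq_natCast]
  generalize (C6z C).toNat = a
  push_cast
  ring

theorem c2_eq (C : ℕ) :
    (ctR C).c2 = (iv (lN C) 7 : ℝ) / 2 ^ 21 + 15 / 16384 * max (ctR C).c4 0 := by
  change (C2z C : ℝ) / 2 ^ 59 = _ + _ * max ((C4z C : ℝ) / 2 ^ 45) 0
  rw [max_NSc1, C2z, Int.ofNat_eq_natCast]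
  generalize (C4z C).toNat = a
  push_cast
  ring

theorem KLn_le (C : ℕ) : KL (evR r E) (ctR C).c2 (ctR C).c4 (ctR C).c6 (ctR C).mu (ctR C).yc +
    sm (lN C) 12 / 2 ^ 40 ≤ KLn E C / 2 ^ 40 := by
  change KL (evR r E) ((C2z C : ℝ) / 2 ^ 59) ((C4z C : ℝ) / 2 ^ 45) ((C6z C : ℝ) / 2 ^ 31)
    ((iv (lN C) 10 : ℝ) / 2 ^ 21) (co (lN C)) + _ ≤ _
  have h := sum_NSc1 (lN C) 0 (kt2 E) _ _ (t2_NSc1 r E)
  simp only [add_zero] at h
  have h1 := le_up (9 * (C2z C).toNat) 35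
  have h2 := le_up (C4z C).toNat 21
  have h3 := le_up (C6z C).toNat 9
  have h4 := le_up (9 * dt (lN C) 0 (kt2 E)) 3
  rw [KL, h, max_NSc1, max_NSc1, max_NSc1, max_NSc1, KLn]
  generalize (C2z C).toNat = a at *
  generalize (C4z C).toNat = b at *
  generalize (C6z C).toNat = c at *
  generalize (iv (lN C) 10).toNat = d at *
  push_cast at h1 h4 ⊢
  rw [le_div_iff₀ (by positivity)]
  norm_num at h1 h2 h3 h4 ⊢
  linarith

theorem EEn_eq : ee (evR r E) (fun S => co (N S)) = EEn r E N / 2 ^ 132 := by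
  rw [ee, EEn, sumN_eq, Nat.cast_sum, sum_div]
  refine sum_congr rfl fun S _ => ?_
  rw [sum_NSc1 (N S) 2 (fun j => ef E j 3) _ (1 / 2 ^ 24), rho_NSc1, cr_eq, sq, Nat.mul_eq]
  · push_cast
    ring
  · intro j
    change (ef E j 3 : ℝ) / 2 ^ 24 = _
    ring

end Pool.Agent.MP_ebf981_lc.N9

end

section

namespace Pool.Agent.MP_ebf981_lc.N9

open Finset

theorem ev1_NSc2 (S : ℕ) : ((1 - ev S : ℕ) : ℝ) = 1 - evn S := by
  have h : ev S ≤ 1 := Nat.sub_le _ _
  rw [Nat.cast_sub h, ev_eq, Nat.cast_one]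

theorem D0_NSc2 (N : ℕ → ℕ) : D0 (fun S => co (N S)) = (D0n N : ℝ) / 2 ^ 18 := by
  simp only [D0, D0n, sumN_eq, dt_eq, co_abs, Nat.cast_sum, Nat.cast_add, Nat.cast_mul, ev1_NSc2,
    mul_one, sum_div, add_div, mul_div_assoc]

theorem D1_NSc2 (N : ℕ → ℕ) : D1 (fun S => co (N S)) = (D1n N : ℝ) / 2 ^ 18 := by
  simp only [D1, D1n, sumN_eq, co_abs, Nat.cast_sum, Nat.cast_add, Nat.cast_mul, ev_eq,
    sum_div, add_div, mul_div_assoc]

theorem sa_NSc2 (N n : ℕ) : sa (co N) n = (sm N n : ℝ) / 2 ^ 18 := by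
  simp only [sa, sm_eq, co_abs, Nat.cast_sum, sum_div]

theorem DA0_NSc2 (C : ℕ) :
    DA0 (fun S => co (aN C S)) = ((mg C 30 : ℝ) + mg C 31 + mg C 32) / 2 ^ 18 := by
  have h : ∀ o, mg (fd C o) 0 = mg C o := fun o => by rw [mg, (fd_fd C o).1, mg]
  have a1 : aN C 1 = fd C 30 := rfl
  have a2 : aN C 2 = fd C 31 := rfl
  have a4 : aN C 4 = fd C 32 := rfl
  have a7 : aN C 7 = 0 := rfl
  simp only [DA0, sum_range_succ, sum_range_zero, a1, a2, a4, a7, co_abs, h]
  norm_num [evn, crd]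
  ring

theorem abs_NSc2 (z : ℤ) (k : ℕ) : |(z : ℝ) / 2 ^ k| = (z.natAbs : ℝ) / 2 ^ k := by
  rw [abs_div, Nat.cast_natAbs, Int.cast_abs, abs_of_pos (by positivity : (0 : ℝ) < 2 ^ k)]

theorem iv_NSc2 (N j : ℕ) : (iv N j).natAbs = mg N j := by
  have := iv_abs N j
  rw [Int.abs_eq_natAbs] at this
  exact_mod_cast this

theorem Atn_le (r E C : ℕ) : Atl (ctR C) (Mz r E C / 2 ^ 40) ≤ Atn r E C / 2 ^ 40 := by
  simp only [Atl, ctR, Atn, D0_NSc2, D1_NSc2, sa_NSc2, DA0_NSc2, abs_NSc2, iv_NSc2, sq, Nat.mul_eq]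
  generalize (C6z C).natAbs = a6
  generalize (C4z C).natAbs = a4
  generalize (C2z C).natAbs = a2
  generalize (Mz r E C).natAbs = aM
  generalize K3n C = k3
  generalize KG C = kg
  generalize D0n (bN C) = b0
  generalize D1n (bN C) = b1
  generalize D0n (yN C) = y0
  generalize D1n (yN C) = y1
  generalize D1n (aN C) = a1
  generalize mg (lN C) 10 = m0
  generalize mg (lN C) 11 = m1
  generalize sm (lN C) 7 = s7
  generalize mg C 30 = g0
  generalize mg C 31 = g1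
  generalize mg C 32 = g2
  generalize fd C 0 = v
  have u1 := le_up a4 5
  have u2 := le_up (31329 * up a4 5) 20
  have u3 := le_up a2 19
  have u4 := le_up ((k3 + 2 * kg) * ((177 * (262144 + b0) + 1024 * b1) *
    (177 * (262144 + b0) + 1024 * b1))) 49
  generalize up ((k3 + 2 * kg) * ((177 * (262144 + b0) + 1024 * b1) *
    (177 * (262144 + b0) + 1024 * b1))) 49 = w4 at u4 ⊢
  have u5 := le_up (981506241 * (up a2 19 + 524288 * (m0 + m1) + w4)) 40
  have u6 := le_up (173726604657 * (4194304 * (2 * y1 + a1))) 50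
  have u7 := le_up (30749609024289 * (16711680 * v + 4194304 * (2 * y0 + (g0 + g1 + g2) + s7) +
    aM)) 60
  generalize up (31329 * up a4 5) 20 = w2 at u2 ⊢
  generalize up (981506241 * (up a2 19 + 524288 * (m0 + m1) + w4)) 40 = w5 at u5 ⊢
  generalize up (173726604657 * (4194304 * (2 * y1 + a1))) 50 = w6 at u6 ⊢
  generalize up (30749609024289 * (16711680 * v + 4194304 * (2 * y0 + (g0 + g1 + g2) + s7) +
    aM)) 60 = w7 at u7 ⊢
  generalize up a4 5 = w1 at u1 u2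
  generalize up a2 19 = w3 at u3 u5
  push_cast at u2 u4 u5 u6 u7 ⊢
  have h4 : ((k3 : ℝ) / 2 ^ 32 / 2 + kg / 2 ^ 32) *
      (5 / 29 * (1 + b0 / 2 ^ 18) + b1 / 2 ^ 18) ^ 2 ≤ w4 / 2 ^ 40 := by
    have h5 : (5 / 29 : ℝ) ≤ 177 / 1024 := by norm_num
    calc _ ≤ ((k3 : ℝ) / 2 ^ 32 / 2 + kg / 2 ^ 32) *
          (177 / 1024 * (1 + b0 / 2 ^ 18) + b1 / 2 ^ 18) ^ 2 := by gcongr
      _ ≤ _ := by linear_combination u4 / 2 ^ 40
  generalize ((k3 : ℝ) / 2 ^ 32 / 2 + kg / 2 ^ 32) *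
      (5 / 29 * (1 + b0 / 2 ^ 18) + b1 / 2 ^ 18) ^ 2 = t at h4 ⊢
  have n : ∀ x : ℕ, (0 : ℝ) ≤ x := Nat.cast_nonneg
  linarith [n w1, n w3, n w4, n m0, n m1, n y0, n y1, n a1, n g0, n g1, n g2, n s7, n v, n aM]

theorem qok_sound {r C : ℕ} (h : chkQ r C = true) :
    QOk ((r : ℝ) / 256) (ctR C).k (ctR C).k3 (ctR C).kg (fd C 11 / 2 ^ 24) (fd C 12 / 2 ^ 24)
      (fd C 13 / 2 ^ 16) ∧ (ctR C).k3 ≤ 2 * (ctR C).k := by
  simp only [chkQ, an_eq, Nat.ble_eq, sq, Nat.mul_eq, Nat.shiftLeft_eq', Nat.shiftLeft_eq,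
    Int.subNatNat_eq_coe] at h
  simp only [QOk, ctR]
  generalize KK C = k at h ⊢
  generalize K3n C = k3 at h ⊢
  generalize KG C = kg at h ⊢
  generalize fd C 11 = g at h ⊢
  generalize fd C 12 = c at h ⊢
  generalize fd C 13 = e at h ⊢
  obtain ⟨h1, h2, h3, h4, h5⟩ := h
  have g1 := (Nat.cast_le (α := ℝ)).2 h1
  have g2 := (Nat.cast_le (α := ℝ)).2 h2
  have g3 := (Nat.cast_le (α := ℝ)).2 h3
  have g4 := (Nat.cast_le (α := ℝ)).2 h4
  have g5 := (Nat.cast_le (α := ℝ)).2 h5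
  push_cast [Nat.cast_natAbs] at g1 g2 g3 g4 g5
  rw [abs_mul_abs_self] at g3
  refine ⟨⟨by positivity, by positivity, by positivity, ?_, ?_, ?_, ?_⟩, ?_⟩
  · linear_combination g1 / 2 ^ 56
  · linear_combination g2 / 2 ^ 88
  · linear_combination g3 / 2 ^ 104
  · linear_combination g4 / 2 ^ 56
  · linear_combination g5 / 2 ^ 32

end Pool.Agent.MP_ebf981_lc.N9

end

section

namespace Pool.Agent.MP_ebf981_lc.N9

open Finset

theorem natAbs_NSc3 (x : ℤ) : ((x.natAbs : ℕ) : ℝ) = |(x : ℝ)| := by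
  rw [Nat.cast_natAbs, Int.cast_abs]

theorem ofNat_NSc3 (x : ℕ) : ((Int.ofNat x : ℤ) : ℝ) = (x : ℝ) := Int.cast_natCast x

theorem subNN_NSc3 (x y : ℕ) : ((Int.subNatNat x y : ℤ) : ℝ) = (x : ℝ) - y := by
  rw [Int.subNatNat_eq_coe]
  push_cast
  rfl

theorem sq_NSc3 (x : ℕ) : ((sq x : ℕ) : ℝ) = (x : ℝ) ^ 2 := by
  rw [sq, Nat.mul_eq, Nat.cast_mul, pow_two]

theorem fl_NSc3 (x : ℤ) (k : ℤ) (hk : 0 < k) : (x : ℝ) / k ≤ ((x / k : ℤ) : ℝ) + 1 := by
  have h := (Int.lt_ediv_add_one_mul_self x hk).le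
  have hk' : (0 : ℝ) < k := by exact_mod_cast hk
  rw [div_le_iff₀ hk']
  exact_mod_cast h

theorem dz_NSc3 (N : ℕ) (κ : ℕ → ℤ) (s : ℝ) :
    ∑ i ∈ range 7, co N (i + 2) * ((κ i : ℝ) / s) = (dz N κ : ℝ) / (2 ^ 18 * s) := by
  rw [dz_eq]
  push_cast
  rw [sum_div]
  refine sum_congr rfl fun i _ => ?_
  rw [co, div_mul_div_comm]

theorem dt_NSc3 (N : ℕ) (κ : ℕ → ℕ) (s : ℝ) :
    ∑ i ∈ range 7, |co N (i + 2)| * ((κ i : ℝ) / s) = (dt N 2 κ : ℝ) / (2 ^ 18 * s) := by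
  rw [dt_eq]
  push_cast
  rw [sum_div]
  refine sum_congr rfl fun i _ => ?_
  rw [co_abs, div_mul_div_comm]

theorem Whd_NSc3 (r E C c j : ℕ) (h : fd c j ≤ fd c (3 + j)) :
    Whd (evR r E) (ctR C).b (clR c) j =
      Whn E (bN C (2 ^ j)) (fd c j) (fd c (3 + j)) / 2 ^ 42 := by
  have h1 := dz_NSc3 (bN C (2 ^ j)) (fun i => ei E i 4) (2 ^ 24)
  have h2 := dt_NSc3 (bN C (2 ^ j)) (fun i => ef E i 5) (2 ^ 24)
  change ((fd c (3 + j) : ℝ) / 2 ^ 12 - fd c j / 2 ^ 12) / 2 +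
    |((fd c j : ℝ) / 2 ^ 12 + fd c (3 + j) / 2 ^ 12) / 2 - co (bN C (2 ^ j)) 0 -
      ∑ i ∈ range 7, co (bN C (2 ^ j)) (i + 2) * ((ei E i 4 : ℝ) / 2 ^ 24)| +
    ∑ i ∈ range 7, |co (bN C (2 ^ j)) (i + 2)| * ((ef E i 5 : ℝ) / 2 ^ 24) = _
  have hp : (0 : ℝ) < 2 ^ 42 := by positivity
  have ab : ∀ x y z : ℝ, (x + |y| + z) / 2 ^ 42 = x / 2 ^ 42 + |y / 2 ^ 42| + z / 2 ^ 42 :=
    fun x y z => by rw [abs_div, abs_of_pos hp, add_div, add_div]
  rw [h1, h2, Whn, Nat.cast_add, Nat.cast_add, natAbs_NSc3, Nat.cast_mul, Nat.cast_sub h,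
    Int.cast_sub, Int.cast_sub, ofNat_NSc3, co, ab]
  congr 1
  · congr 1
    · push_cast
      ring
    · congr 1
      push_cast
      ring
  · ring

theorem Wg0_NSc3 (r E C c : ℕ) : Wg0 (evR r E) (ctR C).b (clR c) =
    G0z E (bN C 0) (fd c 6) (fd c 7) / 2 ^ 47 := by
  have h1 := dz_NSc3 (bN C 0) (fun i => ei E i 6) (2 ^ 16)
  change ((fd c 6 : ℝ) / 2 ^ 12 + fd c 7 / 2 ^ 12) / 2 - co (bN C 0) 0 +
    co (bN C 0) 1 * (((fd E 1 : ℝ) + fd E 2) / 2 ^ 13) * ((fd E 3 : ℝ) / 2 ^ 16) -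
      ∑ i ∈ range 7, co (bN C 0) (i + 2) * ((ei E i 6 : ℝ) / 2 ^ 16) = _
  rw [h1, G0z, co, co]
  simp only [Int.cast_sub, Int.cast_add, Int.cast_mul, ofNat_NSc3]
  push_cast
  ring

theorem Wg1_NSc3 (r E C : ℕ) : Wg1 (evR r E) (ctR C).b = G1z E (bN C 0) / 2 ^ 34 := by
  have h1 := dz_NSc3 (bN C 0) (fun i => ei E i 7) (2 ^ 16)
  change -(co (bN C 0) 1 * ((fd E 3 : ℝ) / 2 ^ 16)) -
      ∑ i ∈ range 7, co (bN C 0) (i + 2) * ((ei E i 7 : ℝ) / 2 ^ 16) = _
  rw [h1, G1z, co]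
  simp only [Int.cast_sub, Int.cast_neg, Int.cast_mul, ofNat_NSc3]
  ring

theorem Wg2_NSc3 (r E C : ℕ) :
    Wg2 (evR r E) (ctR C).b * (evR r E).X ^ 2 = 8 * (G2z E (bN C 0) / 2 ^ 53) := by
  have h1 := dz_NSc3 (bN C 0) (fun i => ei E i 8) (2 ^ 16)
  change (-∑ i ∈ range 7, co (bN C 0) (i + 2) * ((ei E i 8 : ℝ) / 2 ^ 16)) *
    ((fd E 0 : ℝ) / 2 ^ 8) ^ 2 = _
  rw [h1, G2z]
  simp only [Int.cast_neg, Int.cast_mul, ofNat_NSc3]
  push_cast
  ring

theorem Wtl_NSc3 (r E C c : ℕ) (hw : fd c 6 ≤ fd c 7) : Wtl (evR r E) (ctR C).b (clR c) =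
    Wtn E (bN C 0) (fd c 6) (fd c 7) / 2 ^ 53 := by
  have h2 := dt_NSc3 (bN C 0) (fun i => ef E i 9) (2 ^ 24)
  have h3 : ∑ i ∈ range 7, |(ctR C).b 0 (i + 2)| * (evR r E).et i =
      (dt (bN C 0) 2 (fun i => ef E i 9) : ℝ) / (2 ^ 18 * 2 ^ 24) := h2
  have hX : (evR r E).X = (fd E 0 : ℝ) / 2 ^ 8 := rfl
  have h0 : (clR c).w0 = (fd c 6 : ℝ) / 2 ^ 12 := rfl
  have h1 : (clR c).w1 = (fd c 7 : ℝ) / 2 ^ 12 := rfl
  have hp : (0 : ℝ) < 2 ^ 53 := by positivity
  have ab : ∀ x : ℝ, |x| / 2 ^ 53 = |x / 2 ^ 53| := fun x => by rw [abs_div, abs_of_pos hp]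
  rw [Wtl, h3, Wg2_NSc3, Wg0_NSc3, Wg1_NSc3, hX, h0, h1, Wtn, mx_eq, Nat.cast_add, Nat.cast_add,
    Nat.cast_add, Nat.cast_max, natAbs_NSc3, natAbs_NSc3, natAbs_NSc3, Nat.cast_mul,
    Nat.cast_sub hw, add_div, add_div, add_div, ← max_div_div_right hp.le, ab, ab, ab]
  simp only [Int.cast_sub, Int.cast_add, Int.cast_mul, ofNat_NSc3]
  congr 1
  · congr 1
    · congr 1
      · push_cast
        ring
      · congr 2 <;> push_cast <;> ring
    · congr 1
      ring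
  · push_cast
    ring

theorem WBn_le (r E C c : ℕ) (h : ∀ j < 3, fd c j ≤ fd c (3 + j)) (hw : fd c 6 ≤ fd c 7) :
    WB (evR r E) (ctR C).b (clR c) ≤ WBn E C c / 2 ^ 106 := by
  have h0 : Whd (evR r E) (ctR C).b (clR c) 0 = Whn E (bN C 1) (fd c 0) (fd c 3) / 2 ^ 42 :=
    Whd_NSc3 r E C c 0 (h 0 (by norm_num))
  have h1 : Whd (evR r E) (ctR C).b (clR c) 1 = Whn E (bN C 2) (fd c 1) (fd c 4) / 2 ^ 42 :=
    Whd_NSc3 r E C c 1 (h 1 (by norm_num))
  have h2 : Whd (evR r E) (ctR C).b (clR c) 2 = Whn E (bN C 4) (fd c 2) (fd c 5) / 2 ^ 42 :=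
    Whd_NSc3 r E C c 2 (h 2 (by norm_num))
  rw [WB, h0, h1, h2, Wtl_NSc3 r E C c hw, WBn]
  simp only [Nat.cast_add, Nat.cast_mul, sq_NSc3]
  apply le_of_eq
  push_cast
  ring

theorem iv_congr_NSc3 {N N' j j' : ℕ} (h : fd N j = fd N' j') : iv N j = iv N' j' := by
  unfold iv sn mg
  rw [h]

theorem aN_NSc3 (C : ℕ) : aN C 0 = sub C 28 2 ∧ ∀ j < 3, aN C (2 ^ j) = fd C (30 + j) := by
  refine ⟨rfl, fun j hj => ?_⟩
  interval_cases j <;> rfl

theorem cvAz_le (r E C c v : ℕ) (h : ∀ j < 3, fd c j ≤ fd c (3 + j)) (hw : fd c 6 ≤ fd c 7) :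
    cvA (evR r E) (ctR C).a (clR c) v ≤ cvAz E C c v / 2 ^ 40 := by
  have a1 : ∀ j < 3, (ctR C).a (2 ^ j) 0 = co C (30 + j) := by
    intro j hj
    change co (aN C (2 ^ j)) 0 = _
    rw [(aN_NSc3 C).2 j hj, co, co, iv_congr_NSc3 (fd_fd C (30 + j)).1]
  have a0 : ∀ i < 2, (ctR C).a 0 i = co C (28 + i) := by
    intro i hi
    change co (aN C 0) i = _
    rw [(aN_NSc3 C).1, co, co, iv_congr_NSc3 (fd_sub C 28 hi)]
  have hs : ∑ j ∈ range 3, ((ctR C).a (2 ^ j) 0 * (((clR c).lo j + (clR c).hi j) / 2) +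
      |(ctR C).a (2 ^ j) 0| * (((clR c).hi j - (clR c).lo j) / 2)) =
      ((sumZ (fun j => iv C (30 + j) * Int.ofNat (fd c j + fd c (3 + j)) +
        Int.ofNat (mg C (30 + j) * (fd c (3 + j) - fd c j))) 3 : ℤ) : ℝ) / 2 ^ 31 := by
    rw [sumZ_eq, Int.cast_sum, sum_div]
    refine sum_congr rfl fun j hj => ?_
    have hj' := mem_range.1 hj
    have e1 : (clR c).lo j = (fd c j : ℝ) / 2 ^ 12 := rfl
    have e2 : (clR c).hi j = (fd c (3 + j) : ℝ) / 2 ^ 12 := rfl
    rw [a1 j hj', co_abs, co, e1, e2]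
    simp only [Int.cast_add, Int.cast_mul, ofNat_NSc3]
    rw [Nat.cast_mul, Nat.cast_sub (h j hj'), Nat.cast_add]
    ring
  have hp : (ctR C).a 0 0 + (ctR C).a 0 1 *
      ((vq (evR r E) v - (evR r E).lam) * (evR r E).isv) = (phz E C v : ℝ) / 2 ^ 47 := by
    have e1 : (evR r E).isv = (fd E 3 : ℝ) / 2 ^ 16 := rfl
    rw [a0 0 (by norm_num), a0 1 (by norm_num), co, co, e1, phz]
    simp only [Int.cast_add, Int.cast_mul, ofNat_NSc3]
    rw [dqz_eq r]
    push_cast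
    ring
  have h0 : (clR c).w0 = (fd c 6 : ℝ) / 2 ^ 12 := rfl
  have h1 : (clR c).w1 = (fd c 7 : ℝ) / 2 ^ 12 := rfl
  have hf := fl_NSc3 (Int.ofNat (fd c 6 + fd c 7) * phz E C v +
      Int.ofNat ((fd c 7 - fd c 6) * (phz E C v).natAbs)) 1048576 (by norm_num)
  rw [cvA, hs, hp, h0, h1, cvAz, Int.cast_add, Int.cast_add, Int.cast_mul, abs_div,
    abs_of_pos (show (0 : ℝ) < 2 ^ 47 by positivity)]
  rw [Int.cast_add, Int.cast_mul, ofNat_NSc3, ofNat_NSc3, Nat.cast_mul, natAbs_NSc3,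
    Nat.cast_sub hw, Nat.cast_add] at hf
  generalize (((Int.ofNat (fd c 6 + fd c 7) * phz E C v +
      Int.ofNat ((fd c 7 - fd c 6) * (phz E C v).natAbs)) / 1048576 : ℤ) : ℝ) = q at hf ⊢
  generalize ((sumZ (fun j => iv C (30 + j) * Int.ofNat (fd c j + fd c (3 + j)) +
        Int.ofNat (mg C (30 + j) * (fd c (3 + j) - fd c j))) 3 : ℤ) : ℝ) = s
  push_cast at hf ⊢
  linarith

theorem cvLz_le (r E C v : ℕ) : cvL (evR r E) (ctR C) v ≤ cvLz E C v / 2 ^ 40 := by
  have hs : ∑ j ∈ range 7, (max ((ctR C).yc j) 0 * (evR r E).hi j v -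
      max (-(ctR C).yc j) 0 * (evR r E).lo j v) =
      ((sumZ (fun j => iv (lN C) j *
        ifz (sn (lN C) j) (ei E j (14 + v)) (ei E j (10 + v))) 7 : ℤ) : ℝ) / 2 ^ 42 := by
    rw [sumZ_eq, Int.cast_sum, sum_div]
    refine sum_congr rfl fun j _ => ?_
    have e1 : (evR r E).lo j v = (ei E j (10 + v) : ℝ) / 2 ^ 24 := rfl
    have e2 : (evR r E).hi j v = (ei E j (14 + v) : ℝ) / 2 ^ 24 := rfl
    have e3 : (ctR C).yc j = (iv (lN C) j : ℝ) / 2 ^ 18 := rfl
    have hm : (0 : ℝ) ≤ (mg (lN C) j : ℝ) / 2 ^ 18 := by positivity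
    rw [e1, e2, e3, ifz_eq, iv_eq]
    split_ifs
    · rw [Int.cast_natCast, max_eq_left hm, max_eq_right (neg_nonpos.2 hm)]
      push_cast
      ring
    · rw [Int.cast_neg, Int.cast_natCast, neg_div, neg_neg, max_eq_left hm,
        max_eq_right (neg_nonpos.2 hm)]
      push_cast
      ring
  have e1 : (evR r E).isv = (fd E 3 : ℝ) / 2 ^ 16 := rfl
  have e2 : (ctR C).c2 = (C2z C : ℝ) / 2 ^ 59 := rfl
  have e4 : (ctR C).c4 = (C4z C : ℝ) / 2 ^ 45 := rfl
  have e6 : (ctR C).c6 = (C6z C : ℝ) / 2 ^ 31 := rfl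
  have em : (ctR C).mu = (iv (lN C) 10 : ℝ) / 2 ^ 21 := rfl
  have en : (ctR C).nu = (iv (lN C) 11 : ℝ) / 2 ^ 21 := rfl
  have hf := fl_NSc3 (1048576 * C2z C + 4194304 * (C4z C * Int.subNatNat 12288 (2 * vqn E v) +
      C6z C * (Int.subNatNat 1006632960 (491520 * vqn E v) + 16 * v3z E v)) +
    iv (lN C) 10 * Int.ofNat (sq (fd E 3)) * vvz E v +
    536870912 * (iv (lN C) 11 * dqz E v * Int.ofNat (fd E 3)) +
    137438953472 * sumZ (fun j => iv (lN C) j *
      ifz (sn (lN C) j) (ei E j (14 + v)) (ei E j (10 + v))) 7) 549755813888 (by norm_num)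
  rw [cvL, hs, e1, e2, e4, e6, em, en, cvLz, Int.cast_add, Int.cast_one]
  refine le_trans (le_of_eq ?_) (div_le_div_of_nonneg_right hf (by positivity))
  simp only [Int.cast_add, Int.cast_mul, ofNat_NSc3, subNN_NSc3, sq_NSc3, Nat.cast_mul]
  rw [vqn_eq r, v3z_eq r, vvz_eq r, dqz_eq r]
  push_cast
  ring

end Pool.Agent.MP_ebf981_lc.N9

end

section

namespace Pool.Agent.MP_ebf981_lc.N9

open Finset

variable {P Q : TM} {f g : ℝ → ℝ}

theorem pb_NTm (c : ℕ → ℤ) (n : ℕ) {x : ℝ} (h0 : 0 ≤ x) (h1 : x ≤ 1) :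
    |∑ i ∈ range n, (c i : ℝ) * x ^ i| ≤ ((∑ i ∈ range n, |c i| : ℤ) : ℝ) := by
  push_cast
  refine (Finset.abs_sum_le_sum_abs _ _).trans (Finset.sum_le_sum fun i _ => ?_)
  rw [abs_mul, abs_of_nonneg (pow_nonneg h0 i)]
  exact mul_le_of_le_one_right (abs_nonneg _) (pow_le_one₀ h0 h1)

theorem ext_NTm {R : Type} [AddCommMonoid R] (φ : ℕ → ℤ → R) (h0 : ∀ i, φ i 0 = 0) (c : ℕ → ℤ)
    {d D : ℕ} (h : d ≤ D) :
    ∑ i ∈ range (D + 1), φ i (if i < d + 1 then c i else 0) = ∑ i ∈ range (d + 1), φ i (c i) := by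
  symm
  refine (Finset.sum_congr rfl fun i hi => ?_).trans
    (Finset.sum_subset (Finset.range_subset_range.2 (by omega : d + 1 ≤ D + 1)) fun i _ hi => ?_)
  · rw [if_pos (mem_range.1 hi)]
  · rw [if_neg (fun h => hi (mem_range.2 h)), h0]

theorem up_NTm (h : P.ok f) {D : ℕ} (hD : P.d ≤ D) :
    ∃ c : ℕ → ℤ, P.N = ∑ i ∈ range (D + 1), c i * 2 ^ (128 * i) ∧
      ∑ i ∈ range (D + 1), |c i| ≤ (P.n : ℤ) ∧
      ∀ x : ℝ, 0 ≤ x → x ≤ 1 →
        |f x * 2 ^ 48 - ∑ i ∈ range (D + 1), (c i : ℝ) * x ^ i| ≤ (P.e : ℝ) := by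
  obtain ⟨c, h1, h2, h3⟩ := h
  refine ⟨fun i => if i < P.d + 1 then c i else 0, ?_, ?_, fun x h0 hx => ?_⟩
  · rw [h1]
    exact (ext_NTm (fun i z => z * 2 ^ (128 * i)) (fun i => zero_mul _) c hD).symm
  · rw [ext_NTm (fun _ z => |z|) (fun _ => abs_zero) c hD]
    exact h2
  · rw [ext_NTm (fun i z => (z : ℝ) * x ^ i) (fun i => by simp) c hD]
    exact h3 x h0 hx

/-- coefficients of the product -/
def cv_NTm (c c' : ℕ → ℤ) (d d' k : ℕ) : ℤ :=
  ∑ p ∈ (range (d + 1) ×ˢ range (d' + 1)).filter (fun p => p.1 + p.2 = k), c p.1 * c' p.2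

theorem fib_NTm {R : Type} [AddCommMonoid R] (d d' : ℕ) (φ : ℕ × ℕ → R) :
    ∑ k ∈ range (d + d' + 1),
      ∑ p ∈ (range (d + 1) ×ˢ range (d' + 1)).filter (fun p => p.1 + p.2 = k), φ p =
      ∑ p ∈ range (d + 1) ×ˢ range (d' + 1), φ p := by
  apply Finset.sum_fiberwise_of_maps_to
  intro p hp
  simp only [mem_product, mem_range] at hp ⊢
  omega

theorem cv_eval_NTm {R : Type} [CommRing R] (c c' : ℕ → ℤ) (d d' : ℕ) (y : R) :
    ∑ k ∈ range (d + d' + 1), (cv_NTm c c' d d' k : R) * y ^ k =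
      (∑ i ∈ range (d + 1), (c i : R) * y ^ i) * ∑ j ∈ range (d' + 1), (c' j : R) * y ^ j := by
  rw [Finset.sum_mul_sum, ← Finset.sum_product', ← fib_NTm d d']
  refine sum_congr rfl fun k _ => ?_
  unfold cv_NTm
  push_cast
  rw [Finset.sum_mul]
  refine sum_congr rfl fun p hp => ?_
  rw [← (mem_filter.1 hp).2]
  ring

theorem cv_abs_NTm (c c' : ℕ → ℤ) (d d' : ℕ) :
    ∑ k ∈ range (d + d' + 1), |cv_NTm c c' d d' k| ≤
      (∑ i ∈ range (d + 1), |c i|) * ∑ j ∈ range (d' + 1), |c' j| := by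
  rw [Finset.sum_mul_sum, ← Finset.sum_product', ← fib_NTm d d']
  refine sum_le_sum fun k _ => ?_
  unfold cv_NTm
  refine (Finset.abs_sum_le_sum_abs _ _).trans (sum_le_sum fun p _ => ?_)
  rw [abs_mul]

theorem fl_NTm (e : ℤ) : 0 ≤ (e : ℝ) / 2 ^ 48 - ((e / 2 ^ 48 : ℤ) : ℝ) ∧
    (e : ℝ) / 2 ^ 48 - ((e / 2 ^ 48 : ℤ) : ℝ) ≤ 1 := by
  have h1 : e / 2 ^ 48 * 2 ^ 48 ≤ e := Int.ediv_mul_le e (by norm_num)
  have h2 : e < (e / 2 ^ 48 + 1) * 2 ^ 48 := Int.lt_ediv_add_one_mul_self e (by norm_num)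
  generalize e / 2 ^ 48 = q at h1 h2
  have h1' : (q : ℝ) * 2 ^ 48 ≤ e := by exact_mod_cast h1
  have h2' : (e : ℝ) < (q + 1) * 2 ^ 48 := by exact_mod_cast h2
  constructor
  · rw [sub_nonneg, le_div_iff₀ (by positivity)]
    exact h1'
  · rw [sub_le_iff_le_add, div_le_iff₀ (by positivity)]
    linarith

theorem dig_NTm (e : ℕ → ℤ) (D : ℕ) (N : ℤ) (hN : N = ∑ k ∈ range (D + 1), e k * 2 ^ (128 * k))
    (hb : ∀ k < D + 1, |e k| ≤ 2 ^ 125) :
    Int.subNatNat (Nat.land (Nat.shiftRight (tof N D) 48)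
        (Nat.mul 1208925819614629174706175 (onw 128 (Nat.succ D))))
        (Nat.shiftLeft (onw 128 (Nat.succ D)) 78) =
      ∑ k ∈ range (D + 1), e k / 2 ^ 48 * 2 ^ (128 * k) := by
  have hO : Rp 128 (D + 1) (onw 128 (D + 1)) (fun _ => 1) := Rp.one (by norm_num) _
  have h126 := Rp.shl 126 hO
  have h78 := Rp.shl 78 hO
  have hT : Rp 128 (D + 1) (tof N D) (fun k => e k + 2 ^ 126) := by
    have hs : Int.add N (Int.ofNat (Nat.shiftLeft (onw 128 (Nat.succ D)) 126)) =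
        ∑ k ∈ range (D + 1), (e k + 2 ^ 126) * 2 ^ (128 * k) := by
      change N + ((Nat.shiftLeft (onw 128 (D + 1)) 126 : ℕ) : ℤ) = _
      rw [h126, hN, ← Finset.sum_add_distrib]
      exact sum_congr rfl fun k _ => by ring
    unfold Rp tof
    rw [hs]
    apply Int.toNat_of_nonneg
    refine Finset.sum_nonneg fun k hk => mul_nonneg ?_ (by positivity)
    have := (abs_le.1 (hb k (mem_range.1 hk))).1
    have e1 : (2 : ℤ) ^ 126 = 2 * 2 ^ 125 := by norm_num
    have e2 : (0 : ℤ) < 2 ^ 125 := by positivity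
    linarith
  have hS := Rp.shr (s := 48) (by norm_num) (by norm_num) hT (fun k hk => by
    have h := abs_le.1 (hb k hk)
    have e1 : (2 : ℤ) ^ 126 = 2 * 2 ^ 125 := by norm_num
    have e3 : (2 : ℤ) ^ 128 = 8 * 2 ^ 125 := by norm_num
    have e2 : (0 : ℤ) < 2 ^ 125 := by positivity
    constructor <;> linarith [h.1, h.2])
  have ec : 2 ^ (128 - 48) - 1 = 1208925819614629174706175 := by norm_num
  rw [ec] at hS
  rw [Int.subNatNat_eq_coe]
  change ((Nat.land (Nat.shiftRight (tof N D) 48)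
    (Nat.mul 1208925819614629174706175 (onw 128 (D + 1))) : ℕ) : ℤ) -
    ((Nat.shiftLeft (onw 128 (D + 1)) 78 : ℕ) : ℤ) = _
  rw [hS, h78, ← Finset.sum_sub_distrib]
  refine sum_congr rfl fun k _ => ?_
  have e4 : (e k + 2 ^ 126) / 2 ^ 48 = e k / 2 ^ 48 + 2 ^ 78 := by
    have e5 : (2 : ℤ) ^ 126 = 2 ^ 78 * 2 ^ 48 := by norm_num
    rw [e5, Int.add_mul_ediv_right _ _ (by norm_num)]
  simp only [e4]
  ring

theorem TM.ok.congr (h : P.ok f) (e : ∀ x, 0 ≤ x → x ≤ 1 → f x = g x) : P.ok g := by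
  obtain ⟨c, h1, h2, h3⟩ := h
  refine ⟨c, h1, h2, fun x h0 hx => ?_⟩
  rw [← e x h0 hx]
  exact h3 x h0 hx

theorem TM.ok.bound (h : P.ok f) {x : ℝ} (h0 : 0 ≤ x) (h1 : x ≤ 1) :
    |f x| * 2 ^ 48 ≤ (P.n : ℝ) + P.e := by
  obtain ⟨c, -, h2, h3⟩ := h
  have a1 := h3 x h0 h1
  have a2 := pb_NTm c (P.d + 1) h0 h1
  have a3 : ((∑ i ∈ range (P.d + 1), |c i| : ℤ) : ℝ) ≤ (P.n : ℝ) := by exact_mod_cast h2
  have a4 : |f x| * 2 ^ 48 = |f x * 2 ^ 48| := by
    rw [abs_mul, abs_of_pos (by positivity : (0 : ℝ) < 2 ^ 48)]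
  rw [a4]
  have a5 := abs_sub_abs_le_abs_sub (f x * 2 ^ 48) (∑ i ∈ range (P.d + 1), (c i : ℝ) * x ^ i)
  linarith

theorem pol_ok (a b c : ℤ) : (pol a b c).ok (fun x => (a + b * x + c * x ^ 2) / 2 ^ 48) := by
  refine ⟨fun i => if i = 0 then a else if i = 1 then b else c, ?_, ?_, fun x _ _ => ?_⟩
  · change a + b * 340282366920938463463374607431768211456 +
      c * 115792089237316195423570985008687907853269984665640564039457584007913129639936 =
      ∑ i ∈ range 3, (if i = 0 then a else if i = 1 then b else c) * 2 ^ (128 * i)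
    simp only [Finset.sum_range_succ, Finset.sum_range_zero]
    norm_num
  · change ∑ i ∈ range 3, |if i = 0 then a else if i = 1 then b else c| ≤
      ((a.natAbs + b.natAbs + c.natAbs : ℕ) : ℤ)
    simp only [Finset.sum_range_succ, Finset.sum_range_zero]
    push_cast
    norm_num
  · change |((a : ℝ) + b * x + c * x ^ 2) / 2 ^ 48 * 2 ^ 48 -
      ∑ i ∈ range 3, ((if i = 0 then a else if i = 1 then b else c : ℤ) : ℝ) * x ^ i| ≤ ((0 : ℕ) : ℝ)
    simp only [Finset.sum_range_succ, Finset.sum_range_zero]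
    norm_num

theorem tc_ok (a : ℤ) (e : ℕ) {y : ℝ} (h : |y * 2 ^ 48 - a| ≤ (e : ℝ)) : (tc a e).ok (fun _ => y) := by
  refine ⟨fun _ => a, ?_, ?_, fun x _ _ => ?_⟩
  · change a = ∑ i ∈ range 1, a * 2 ^ (128 * i)
    simp
  · change ∑ _i ∈ range 1, |a| ≤ ((a.natAbs : ℕ) : ℤ)
    simp
  · change |y * 2 ^ 48 - ∑ i ∈ range 1, (a : ℝ) * x ^ i| ≤ (e : ℝ)
    simpa using h

theorem tadd_ok (h : P.ok f) (h' : Q.ok g) : (tadd P Q).ok (fun x => f x + g x) := by
  obtain ⟨c, h1, h2, h3⟩ := up_NTm h (le_max_left P.d Q.d)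
  obtain ⟨c', h1', h2', h3'⟩ := up_NTm h' (le_max_right P.d Q.d)
  have hd : (tadd P Q).d = max P.d Q.d := mx_eq _ _
  refine ⟨fun i => c i + c' i, ?_, ?_, fun x h0 hx => ?_⟩
  · rw [hd]
    change P.N + Q.N = _
    rw [h1, h1', ← Finset.sum_add_distrib]
    exact sum_congr rfl fun i _ => by ring
  · rw [hd]
    change _ ≤ ((P.n + Q.n : ℕ) : ℤ)
    push_cast
    refine le_trans (sum_le_sum fun i _ => abs_add_le (c i) (c' i)) ?_
    rw [Finset.sum_add_distrib]
    exact add_le_add h2 h2'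
  · rw [hd]
    change _ ≤ ((P.e + Q.e : ℕ) : ℝ)
    have e : (f x + g x) * 2 ^ 48 - ∑ i ∈ range (max P.d Q.d + 1), ((c i + c' i : ℤ) : ℝ) * x ^ i =
        (f x * 2 ^ 48 - ∑ i ∈ range (max P.d Q.d + 1), (c i : ℝ) * x ^ i) +
        (g x * 2 ^ 48 - ∑ i ∈ range (max P.d Q.d + 1), (c' i : ℝ) * x ^ i) := by
      have : ∑ i ∈ range (max P.d Q.d + 1), ((c i + c' i : ℤ) : ℝ) * x ^ i =
          ∑ i ∈ range (max P.d Q.d + 1), (c i : ℝ) * x ^ i +
          ∑ i ∈ range (max P.d Q.d + 1), (c' i : ℝ) * x ^ i := by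
        rw [← Finset.sum_add_distrib]
        refine sum_congr rfl fun i _ => ?_
        push_cast
        ring
      rw [this]
      ring
    rw [e, Nat.cast_add]
    exact (abs_add_le _ _).trans (add_le_add (h3 x h0 hx) (h3' x h0 hx))

theorem tneg_ok (h : P.ok f) : (tneg P).ok (fun x => -f x) := by
  obtain ⟨c, h1, h2, h3⟩ := h
  refine ⟨fun i => -c i, ?_, ?_, fun x h0 hx => ?_⟩
  · change -P.N = ∑ i ∈ range (P.d + 1), -c i * 2 ^ (128 * i)
    rw [h1, ← Finset.sum_neg_distrib]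
    exact sum_congr rfl fun i _ => by ring
  · change ∑ i ∈ range (P.d + 1), |-c i| ≤ (P.n : ℤ)
    simpa only [abs_neg] using h2
  · change |-f x * 2 ^ 48 - ∑ i ∈ range (P.d + 1), ((-c i : ℤ) : ℝ) * x ^ i| ≤ (P.e : ℝ)
    have e : ∑ i ∈ range (P.d + 1), ((-c i : ℤ) : ℝ) * x ^ i =
        -∑ i ∈ range (P.d + 1), (c i : ℝ) * x ^ i := by
      rw [← Finset.sum_neg_distrib]
      refine sum_congr rfl fun i _ => ?_
      push_cast
      ring
    rw [e, ← abs_neg]
    refine le_of_eq_of_le (congrArg abs (by ring)) (h3 x h0 hx)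

theorem tx_ok (h : P.ok f) : (tx P).ok (fun x => x * f x) := by
  obtain ⟨c, h1, h2, h3⟩ := h
  refine ⟨fun i => if i = 0 then 0 else c (i - 1), ?_, ?_, fun x h0 hx => ?_⟩
  · change P.N * 340282366920938463463374607431768211456 =
      ∑ i ∈ range (P.d + 1 + 1), (if i = 0 then 0 else c (i - 1)) * 2 ^ (128 * i)
    rw [Finset.sum_range_succ' _ (P.d + 1), h1, Finset.sum_mul]
    simp only [if_true, zero_mul, add_zero, Nat.succ_ne_zero, if_false, Nat.add_sub_cancel]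
    refine sum_congr rfl fun i _ => ?_
    rw [mul_add, pow_add]
    norm_num
    ring
  · change ∑ i ∈ range (P.d + 1 + 1), |if i = 0 then 0 else c (i - 1)| ≤ (P.n : ℤ)
    rw [Finset.sum_range_succ' _ (P.d + 1)]
    simp only [if_true, abs_zero, add_zero, Nat.succ_ne_zero, if_false, Nat.add_sub_cancel]
    exact h2
  · change |x * f x * 2 ^ 48 -
      ∑ i ∈ range (P.d + 1 + 1), ((if i = 0 then 0 else c (i - 1) : ℤ) : ℝ) * x ^ i| ≤ (P.e : ℝ)
    rw [Finset.sum_range_succ' _ (P.d + 1)]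
    simp only [if_true, Int.cast_zero, zero_mul, add_zero, Nat.succ_ne_zero, if_false,
      Nat.add_sub_cancel]
    have e : x * f x * 2 ^ 48 - ∑ i ∈ range (P.d + 1), (c i : ℝ) * x ^ (i + 1) =
        x * (f x * 2 ^ 48 - ∑ i ∈ range (P.d + 1), (c i : ℝ) * x ^ i) := by
      rw [mul_sub, Finset.mul_sum]
      congr 1
      · ring
      · exact sum_congr rfl fun i _ => by ring
    rw [e, abs_mul, abs_of_nonneg h0]
    exact (mul_le_of_le_one_left (abs_nonneg _) hx).trans (h3 x h0 hx)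

theorem tmul_ok (h : P.ok f) (h' : Q.ok g) : (tmul P Q).ok (fun x => f x * g x) := by
  unfold tmul
  rw [ifb_eq]
  split_ifs with hc
  · obtain ⟨c, h1, h2, h3⟩ := h
    obtain ⟨c', h1', h2', h3'⟩ := h'
    have hc' : P.n * Q.n ≤ 42535295865117307932921825928971026432 := Nat.le_of_ble_eq_true hc
    have hab : ∑ k ∈ range (P.d + Q.d + 1), |cv_NTm c c' P.d Q.d k| ≤ ((P.n * Q.n : ℕ) : ℤ) := by
      refine (cv_abs_NTm c c' P.d Q.d).trans ?_
      push_cast
      exact mul_le_mul h2 h2' (Finset.sum_nonneg fun _ _ => abs_nonneg _) (Nat.cast_nonneg _)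
    have hN : Int.mul P.N Q.N =
        ∑ k ∈ range (P.d + Q.d + 1), cv_NTm c c' P.d Q.d k * 2 ^ (128 * k) := by
      have := cv_eval_NTm c c' P.d Q.d ((2 : ℤ) ^ 128)
      simp only [Int.cast_id, ← pow_mul] at this
      rw [this, ← h1, ← h1']
      rfl
    have hb : ∀ k < P.d + Q.d + 1, |cv_NTm c c' P.d Q.d k| ≤ 2 ^ 125 := by
      intro k hk
      have a1 := Finset.single_le_sum (f := fun k => |cv_NTm c c' P.d Q.d k|)
        (fun _ _ => abs_nonneg _) (mem_range.2 hk)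
      have a2 : ((P.n * Q.n : ℕ) : ℤ) ≤ 2 ^ 125 := by
        have e : (2 : ℤ) ^ 125 = ((42535295865117307932921825928971026432 : ℕ) : ℤ) := by norm_num
        rw [e]
        exact_mod_cast hc'
      exact a1.trans (hab.trans a2)
    refine ⟨fun k => cv_NTm c c' P.d Q.d k / 2 ^ 48, dig_NTm _ (P.d + Q.d) _ hN hb, ?_,
      fun x h0 hx => ?_⟩
    · change ∑ k ∈ range (P.d + Q.d + 1), |cv_NTm c c' P.d Q.d k / 2 ^ 48| ≤
        ((up (P.n * Q.n) 48 + (P.d + Q.d + 1) : ℕ) : ℤ)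
      have a1 := le_up (P.n * Q.n) 48
      have a2 : ((∑ k ∈ range (P.d + Q.d + 1), |cv_NTm c c' P.d Q.d k| : ℤ) : ℝ) ≤
          ((P.n * Q.n : ℕ) : ℝ) := by exact_mod_cast hab
      have a3 : ((∑ k ∈ range (P.d + Q.d + 1), |cv_NTm c c' P.d Q.d k / 2 ^ 48| : ℤ) : ℝ) ≤
          ((∑ k ∈ range (P.d + Q.d + 1), |cv_NTm c c' P.d Q.d k| : ℤ) : ℝ) / 2 ^ 48 +
            ((P.d + Q.d + 1 : ℕ) : ℝ) := by
        rw [Int.cast_sum, Int.cast_sum, Finset.sum_div]
        have : ((P.d + Q.d + 1 : ℕ) : ℝ) = ∑ _k ∈ range (P.d + Q.d + 1), (1 : ℝ) := by simp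
        rw [this, ← Finset.sum_add_distrib]
        refine sum_le_sum fun k _ => ?_
        obtain ⟨b1, b2⟩ := fl_NTm (cv_NTm c c' P.d Q.d k)
        rw [Int.cast_abs, Int.cast_abs]
        generalize ((cv_NTm c c' P.d Q.d k / 2 ^ 48 : ℤ) : ℝ) = q at b1 b2
        generalize ((cv_NTm c c' P.d Q.d k : ℤ) : ℝ) = z at b1 b2
        have b3 : |z| / 2 ^ 48 = |z / 2 ^ 48| := by
          rw [abs_div, abs_of_pos (by positivity : (0 : ℝ) < 2 ^ 48)]
        rw [b3]
        have b4 := le_abs_self (z / 2 ^ 48)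
        have b5 := neg_abs_le (z / 2 ^ 48)
        rw [abs_le]
        constructor <;> linarith
      have a4 : ((∑ k ∈ range (P.d + Q.d + 1), |cv_NTm c c' P.d Q.d k| : ℤ) : ℝ) / 2 ^ 48 ≤
          ((P.n * Q.n : ℕ) : ℝ) / 2 ^ 48 := div_le_div_of_nonneg_right a2 (by positivity)
      have a5 : ((∑ k ∈ range (P.d + Q.d + 1), |cv_NTm c c' P.d Q.d k / 2 ^ 48| : ℤ) : ℝ) ≤
          (((up (P.n * Q.n) 48 + (P.d + Q.d + 1) : ℕ) : ℤ) : ℝ) := by
        rw [Int.cast_natCast, Nat.cast_add (up (P.n * Q.n) 48)]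
        linarith
      exact Int.cast_le.1 a5
    · change |f x * g x * 2 ^ 48 -
          ∑ k ∈ range (P.d + Q.d + 1), ((cv_NTm c c' P.d Q.d k / 2 ^ 48 : ℤ) : ℝ) * x ^ k| ≤
        ((up (P.e * Q.n + Q.e * P.n + P.e * Q.e) 48 + (P.d + Q.d + 1) : ℕ) : ℝ)
      have a1 := le_up (P.e * Q.n + Q.e * P.n + P.e * Q.e) 48
      have e1 := cv_eval_NTm c c' P.d Q.d x
      have p1 := pb_NTm c (P.d + 1) h0 hx
      have p2 := pb_NTm c' (Q.d + 1) h0 hx
      have p3 : ((∑ i ∈ range (P.d + 1), |c i| : ℤ) : ℝ) ≤ (P.n : ℝ) := by exact_mod_cast h2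
      have p4 : ((∑ i ∈ range (Q.d + 1), |c' i| : ℤ) : ℝ) ≤ (Q.n : ℝ) := by exact_mod_cast h2'
      have q1 := h3 x h0 hx
      have q2 := h3' x h0 hx
      have r1 : |(∑ k ∈ range (P.d + Q.d + 1), (cv_NTm c c' P.d Q.d k : ℝ) * x ^ k) / 2 ^ 48 -
          ∑ k ∈ range (P.d + Q.d + 1), ((cv_NTm c c' P.d Q.d k / 2 ^ 48 : ℤ) : ℝ) * x ^ k| ≤
          ((P.d + Q.d + 1 : ℕ) : ℝ) := by
        have : ((P.d + Q.d + 1 : ℕ) : ℝ) = ∑ _k ∈ range (P.d + Q.d + 1), (1 : ℝ) := by simp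
        rw [this, Finset.sum_div, ← Finset.sum_sub_distrib]
        refine (Finset.abs_sum_le_sum_abs _ _).trans (sum_le_sum fun k _ => ?_)
        obtain ⟨b1, b2⟩ := fl_NTm (cv_NTm c c' P.d Q.d k)
        generalize ((cv_NTm c c' P.d Q.d k / 2 ^ 48 : ℤ) : ℝ) = q at b1 b2
        generalize ((cv_NTm c c' P.d Q.d k : ℤ) : ℝ) = z at b1 b2
        have b3 : z * x ^ k / 2 ^ 48 - q * x ^ k = (z / 2 ^ 48 - q) * x ^ k := by ring
        rw [b3, abs_of_nonneg (mul_nonneg b1 (pow_nonneg h0 k))]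
        exact mul_le_one₀ b2 (pow_nonneg h0 k) (pow_le_one₀ h0 hx)
      rw [e1] at r1
      generalize ∑ k ∈ range (P.d + Q.d + 1), ((cv_NTm c c' P.d Q.d k / 2 ^ 48 : ℤ) : ℝ) * x ^ k = s
        at r1 ⊢
      generalize ∑ i ∈ range (P.d + 1), (c i : ℝ) * x ^ i = p at p1 q1 r1
      generalize ∑ i ∈ range (Q.d + 1), (c' i : ℝ) * x ^ i = q at p2 q2 r1
      have s1 : |p| ≤ (P.n : ℝ) := p1.trans p3
      have s2 : |q| ≤ (Q.n : ℝ) := p2.trans p4
      have t1 : |f x * g x * 2 ^ 48 - p * q / 2 ^ 48| ≤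
          ((P.e * Q.n + Q.e * P.n + P.e * Q.e : ℕ) : ℝ) / 2 ^ 48 := by
        have e : f x * g x * 2 ^ 48 - p * q / 2 ^ 48 =
            ((f x * 2 ^ 48 - p) * q + (g x * 2 ^ 48 - q) * p +
              (f x * 2 ^ 48 - p) * (g x * 2 ^ 48 - q)) / 2 ^ 48 := by
          field_simp
          ring
        rw [e, abs_div, abs_of_pos (by positivity : (0 : ℝ) < 2 ^ 48)]
        refine div_le_div_of_nonneg_right ?_ (by positivity)
        push_cast
        refine (abs_add_le _ _).trans (add_le_add ((abs_add_le _ _).trans (add_le_add ?_ ?_)) ?_)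
        · rw [abs_mul]
          exact mul_le_mul q1 s2 (abs_nonneg _) (Nat.cast_nonneg _)
        · rw [abs_mul]
          exact mul_le_mul q2 s1 (abs_nonneg _) (Nat.cast_nonneg _)
        · rw [abs_mul]
          exact mul_le_mul q1 q2 (abs_nonneg _) (Nat.cast_nonneg _)
      have t2 := abs_sub_le (f x * g x * 2 ^ 48) (p * q / 2 ^ 48) s
      rw [Nat.cast_add (up (P.e * Q.n + Q.e * P.n + P.e * Q.e) 48)]
      exact t2.trans (add_le_add (t1.trans a1) r1)
  · refine ⟨fun _ => 0, ?_, ?_, fun x h0 hx => ?_⟩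
    · change (0 : ℤ) = ∑ i ∈ range 1, (0 : ℤ) * 2 ^ (128 * i)
      simp
    · change ∑ _i ∈ range 1, |(0 : ℤ)| ≤ ((0 : ℕ) : ℤ)
      simp
    · change |f x * g x * 2 ^ 48 - ∑ i ∈ range 1, ((0 : ℤ) : ℝ) * x ^ i| ≤
        ((up ((P.n + P.e) * (Q.n + Q.e)) 48 : ℕ) : ℝ)
      refine le_trans ?_ (le_up _ 48)
      have a1 := h.bound h0 hx
      have a2 := h'.bound h0 hx
      have e : |f x * g x * 2 ^ 48 - ∑ i ∈ range 1, ((0 : ℤ) : ℝ) * x ^ i| =
          (|f x| * 2 ^ 48) * (|g x| * 2 ^ 48) / 2 ^ 48 := by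
        rw [Finset.sum_range_one, Int.cast_zero, zero_mul, sub_zero, abs_mul, abs_mul,
          abs_of_pos (by positivity : (0 : ℝ) < 2 ^ 48)]
        field_simp
      rw [e]
      refine div_le_div_of_nonneg_right ?_ (by positivity)
      push_cast
      exact mul_le_mul a1 a2 (by positivity) (by positivity)

theorem tv_eq (P : TM) : tv P = P := by
  unfold tv
  rw [tf_eq]

theorem hor9_ok (h : P.ok f) {cf : ℕ → ℤ} {a : ℕ → ℝ} (n : ℕ)
    (hc : ∀ k < n, |a k * 2 ^ 48 - cf k| ≤ 1) :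
    (hor9 cf P n).ok (fun x => ∑ k ∈ range n, a k * f x ^ k) := by
  have key : ∀ i ≤ n, (@Nat.rec (fun _ => TM) (tc 0 0)
      (fun i acc => tv (tadd (tc (cf (Nat.sub (Nat.sub n 1) i)) 1) (tmul P acc))) i).ok
      (fun x => ∑ k ∈ range i, a (n - i + k) * f x ^ k) := by
    intro i
    induction i with
    | zero =>
      intro _
      refine (tc_ok 0 0 (y := 0) (by simp)).congr fun x _ _ => ?_
      simp
    | succ i ih =>
      intro hi
      have a1 := tmul_ok h (ih (by omega))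
      have a2 := tc_ok (cf (n - 1 - i)) 1 (y := a (n - 1 - i))
        (by simpa using hc (n - 1 - i) (by omega))
      have a3 := tadd_ok a2 a1
      rw [← tv_eq (tadd _ _)] at a3
      refine a3.congr fun x _ _ => ?_
      rw [Finset.sum_range_succ', Finset.mul_sum, add_comm]
      congr 1
      · refine sum_congr rfl fun k _ => ?_
        rw [show n - (i + 1) + (k + 1) = n - i + k by omega]
        ring
      · rw [show n - (i + 1) + 0 = n - 1 - i by omega]
        simp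
  refine (key n le_rfl).congr fun x _ _ => ?_
  simp

end Pool.Agent.MP_ebf981_lc.N9

end

section

namespace Pool.Agent.MP_ebf981_lc.N9

open Finset

theorem pow_sub_NPos {a b : ℝ} (ha : 0 ≤ a) (hab : a ≤ b) (hb : b ≤ 1) (i : ℕ) :
    0 ≤ b ^ i - a ^ i ∧ b ^ i - a ^ i ≤ i * (b - a) := by
  refine ⟨sub_nonneg.2 (pow_le_pow_left₀ ha hab i), ?_⟩
  induction i with
  | zero => simp
  | succ i ih =>
    have h1 : a ^ i ≤ 1 := pow_le_one₀ ha (hab.trans hb)
    have h2 : 0 ≤ b ^ i - a ^ i := sub_nonneg.2 (pow_le_pow_left₀ ha hab i)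
    have h3 : b ^ (i + 1) - a ^ (i + 1) = b * (b ^ i - a ^ i) + (b - a) * a ^ i := by ring
    have h4 : b * (b ^ i - a ^ i) ≤ b ^ i - a ^ i := by nlinarith
    have h5 : (b - a) * a ^ i ≤ b - a := by nlinarith
    push_cast
    nlinarith

theorem chord_NPos {a b s : ℝ} (ha : 0 ≤ a) (hab : a ≤ b) (hb : b ≤ 1) (hs0 : 0 ≤ s) (hs1 : s ≤ 1)
    (i : ℕ) :
    0 ≤ (1 - s) * a ^ i + s * b ^ i - ((1 - s) * a + s * b) ^ i ∧
      (1 - s) * a ^ i + s * b ^ i - ((1 - s) * a + s * b) ^ i ≤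
        (i : ℝ) * ((i : ℝ) - 1) / 2 * (s * (1 - s) * (b - a) ^ 2) := by
  have hx0 : 0 ≤ (1 - s) * a + s * b := by nlinarith
  have hx1 : (1 - s) * a + s * b ≤ 1 := by nlinarith
  have hq : 0 ≤ s * (1 - s) * (b - a) :=
    mul_nonneg (mul_nonneg hs0 (by linarith)) (by linarith)
  induction i with
  | zero => simp
  | succ i ih =>
    obtain ⟨i0, i1⟩ := ih
    obtain ⟨p0, p1⟩ := pow_sub_NPos ha hab hb i
    have e : (1 - s) * a ^ (i + 1) + s * b ^ (i + 1) - ((1 - s) * a + s * b) ^ (i + 1) =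
        ((1 - s) * a + s * b) * ((1 - s) * a ^ i + s * b ^ i - ((1 - s) * a + s * b) ^ i) +
          s * (1 - s) * (b - a) * (b ^ i - a ^ i) := by ring
    rw [e]
    generalize (1 - s) * a ^ i + s * b ^ i - ((1 - s) * a + s * b) ^ i = D at i0 i1 ⊢
    generalize (1 - s) * a + s * b = x at hx0 hx1 ⊢
    refine ⟨add_nonneg (mul_nonneg hx0 i0) (mul_nonneg hq p0), ?_⟩
    have h1 : x * D ≤ D := by nlinarith
    have h2 : s * (1 - s) * (b - a) * (b ^ i - a ^ i) ≤ s * (1 - s) * (b - a) * (i * (b - a)) :=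
      mul_le_mul_of_nonneg_left p1 hq
    have h3 : ((i + 1 : ℕ) : ℝ) * (((i + 1 : ℕ) : ℝ) - 1) / 2 * (s * (1 - s) * (b - a) ^ 2) =
        (i : ℝ) * ((i : ℝ) - 1) / 2 * (s * (1 - s) * (b - a) ^ 2) +
          s * (1 - s) * (b - a) * (i * (b - a)) := by
      push_cast
      ring
    rw [h3]
    linarith

theorem cast_NPos (i : ℕ) : ((i * (i - 1) : ℕ) : ℝ) = (i : ℝ) * ((i : ℝ) - 1) := by
  cases i with
  | zero => simp
  | succ i => simp

/-- values between the nodes -/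
theorem between_NPos (c : ℕ → ℝ) (m : ℕ) {T x : ℝ} (h0 : 0 ≤ x) (h1 : x ≤ 1)
    (hn : ∀ n : ℕ, n ≤ 256 → T ≤ ∑ i ∈ range m, c i * ((n : ℝ) / 256) ^ i) :
    T - (∑ i ∈ range m, ((i * (i - 1) : ℕ) : ℝ) * |c i|) / 2 ^ 19 ≤ ∑ i ∈ range m, c i * x ^ i := by
  obtain ⟨n, hn5, hl, hr⟩ : ∃ n : ℕ, n ≤ 255 ∧ (n : ℝ) ≤ 256 * x ∧ 256 * x ≤ n + 1 := by
    by_cases hx : x = 1
    · exact ⟨255, le_rfl, by rw [hx]; norm_num, by rw [hx]; norm_num⟩
    · have hx' : x < 1 := lt_of_le_of_ne h1 hx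
      refine ⟨⌊256 * x⌋₊, ?_, Nat.floor_le (by linarith), (Nat.lt_floor_add_one _).le⟩
      have : ⌊256 * x⌋₊ < 256 := by
        rw [Nat.floor_lt (by linarith)]
        push_cast
        linarith
      omega
  have hn5' : (n : ℝ) ≤ 255 := by exact_mod_cast hn5
  have hnn : (0 : ℝ) ≤ n := Nat.cast_nonneg n
  set s : ℝ := 256 * x - n with hs
  have hs0 : 0 ≤ s := by linarith
  have hs1 : s ≤ 1 := by linarith
  have hA := hn n (by omega)
  have hB := hn (n + 1) (by omega)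
  set a : ℝ := (n : ℝ) / 256 with ha
  set b : ℝ := ((n + 1 : ℕ) : ℝ) / 256 with hb
  have hba : b - a = 1 / 256 := by
    rw [ha, hb]
    push_cast
    ring
  have ha0 : 0 ≤ a := by positivity
  have hb1 : b ≤ 1 := by
    rw [hb]
    push_cast
    linarith
  have hx : (1 - s) * a + s * b = x := by
    have : (1 - s) * a + s * b = a + s * (b - a) := by ring
    rw [this, hba, ha, hs]
    ring
  have key : ∀ i ∈ range m, (1 - s) * (c i * a ^ i) + s * (c i * b ^ i) -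
      ((i * (i - 1) : ℕ) : ℝ) * |c i| / 2 ^ 19 ≤ c i * x ^ i := by
    intro i _
    obtain ⟨d0, d1⟩ := chord_NPos ha0 (by linarith) hb1 hs0 hs1 i
    rw [hx] at d0 d1
    rw [hba] at d1
    have hi : 0 ≤ (i : ℝ) * ((i : ℝ) - 1) := by
      rw [← cast_NPos]
      positivity
    rw [cast_NPos]
    have hq : s * (1 - s) ≤ 1 / 4 := by nlinarith [sq_nonneg (s - 1 / 2)]
    have d2 : (1 - s) * a ^ i + s * b ^ i - x ^ i ≤ (i : ℝ) * ((i : ℝ) - 1) / 2 ^ 19 := by
      refine d1.trans ?_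
      have : (i : ℝ) * ((i : ℝ) - 1) / 2 * (s * (1 - s) * (1 / 256) ^ 2) =
          (i : ℝ) * ((i : ℝ) - 1) * (s * (1 - s)) / 2 ^ 17 := by ring
      rw [this]
      have h4 := mul_le_mul_of_nonneg_left hq hi
      have : (i : ℝ) * ((i : ℝ) - 1) / 2 ^ 19 = (i : ℝ) * ((i : ℝ) - 1) * (1 / 4) / 2 ^ 17 := by ring
      rw [this]
      exact div_le_div_of_nonneg_right h4 (by positivity)
    generalize (i : ℝ) * ((i : ℝ) - 1) = M at d2 ⊢
    have e : (1 - s) * (c i * a ^ i) + s * (c i * b ^ i) - c i * x ^ i =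
        c i * ((1 - s) * a ^ i + s * b ^ i - x ^ i) := by ring
    have h5 : c i * ((1 - s) * a ^ i + s * b ^ i - x ^ i) ≤
        |c i| * ((1 - s) * a ^ i + s * b ^ i - x ^ i) :=
      mul_le_mul_of_nonneg_right (le_abs_self _) d0
    have h6 : |c i| * ((1 - s) * a ^ i + s * b ^ i - x ^ i) ≤ |c i| * (M / 2 ^ 19) :=
      mul_le_mul_of_nonneg_left d2 (abs_nonneg _)
    have h7 : M * |c i| / 2 ^ 19 = |c i| * (M / 2 ^ 19) := by ring
    linarith
  have hsum := sum_le_sum key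
  rw [sum_sub_distrib, sum_add_distrib, ← mul_sum, ← mul_sum, ← sum_div] at hsum
  have h8 := mul_le_mul_of_nonneg_left hA (show 0 ≤ 1 - s by linarith)
  have h9 := mul_le_mul_of_nonneg_left hB hs0
  nlinarith

theorem tof_NPos {N : ℤ} {d : ℕ} {c : ℕ → ℤ} (hN : N = ∑ i ∈ range (d + 1), c i * 2 ^ (128 * i))
    (hc : ∀ i < d + 1, |c i| ≤ 2 ^ 62) : Rp 128 (d + 1) (tof N d) (fun i => c i + 2 ^ 126) := by
  have h1 := (Rp.one (w := 128) (by norm_num) (d + 1)).shl 126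
  unfold Rp at h1 ⊢
  have h2 : Int.add N (Int.ofNat (Nat.shiftLeft (onw 128 (Nat.succ d)) 126)) =
      ∑ i ∈ range (d + 1), (c i + 2 ^ 126) * 2 ^ (128 * i) := by
    change N + ((Nat.shiftLeft (onw 128 (d + 1)) 126 : ℕ) : ℤ) = _
    rw [h1, hN, ← sum_add_distrib]
    exact sum_congr rfl fun i _ => by ring
  unfold tof
  rw [h2]
  refine Int.toNat_of_nonneg (sum_nonneg fun i hi => mul_nonneg ?_ (by positivity))
  have := (abs_le.1 (hc i (mem_range.1 hi))).1
  linarith [show (2 : ℤ) ^ 62 ≤ 2 ^ 126 by norm_num]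

theorem asum_NPos {G n : ℕ} {c : ℕ → ℤ} (h : Rp 128 n G (fun i => c i + 2 ^ 126))
    (hc : ∀ i < n, |c i| ≤ 2 ^ 62) (hs : ∑ i ∈ range n, |c i| ≤ 2 ^ 62) :
    (asum G n : ℤ) = ∑ i ∈ range n, |c i| := by
  have hb : ∀ i < n, 0 ≤ c i + 2 ^ 126 ∧ c i + 2 ^ 126 < 2 ^ (126 + 1) := by
    intro i hi
    obtain ⟨a1, a2⟩ := abs_le.1 (hc i hi)
    constructor
    · linarith [show (2 : ℤ) ^ 62 ≤ 2 ^ 126 by norm_num]
    · linarith [show (2 : ℤ) ^ 62 + 2 ^ 126 < 2 ^ (126 + 1) by norm_num]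
  have h1 := (Rp.relu (k := 126) (by norm_num) h hb).shl 1
  have h2 := (Rp.one (w := 128) (by norm_num) n).shl 126
  have h3 := ((h1.add h2).sub h (fun i _ => by
    have := le_max_left (c i + 2 ^ 126 - 2 ^ 126) 0
    have := le_max_right (c i + 2 ^ 126 - 2 ^ 126) 0
    linarith)).congr (v' := fun i => |c i|) (fun i _ => by
      rcases le_total 0 (c i) with hi | hi
      · rw [max_eq_left (by linarith), abs_of_nonneg hi]
        ring
      · rw [max_eq_right (by linarith), abs_of_nonpos hi]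
        ring)
  have h4 := h3.modsum (by norm_num) (fun i _ => abs_nonneg _)
    (by linarith [show (2 : ℤ) ^ 62 < 2 ^ 128 - 1 by norm_num])
  have e1 : (2 ^ 126 - 1 : ℕ) = 85070591730234615865843651857942052863 := by norm_num
  have e2 : (2 ^ 128 - 1 : ℕ) = 340282366920938463463374607431768211455 := by norm_num
  rw [e1, e2] at h4
  exact h4

theorem Wp_NPos (i : ℕ) : Rp 256 257 (Wp i) (fun n => (n : ℤ) ^ i * 2 ^ (8 * (20 - i))) := by
  unfold Rp Wp
  rw [sumN_eq, Nat.cast_sum]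
  refine sum_congr rfl fun n _ => ?_
  change (((n ^ i) <<< (256 * n + 8 * (20 - i)) : ℕ) : ℤ) = _
  rw [Nat.shiftLeft_eq, pow_add]
  push_cast
  ring

theorem wb_NPos {i n : ℕ} (hi : i < 21) (hn : n < 257) :
    (n : ℤ) ^ i * 2 ^ (8 * (20 - i)) ≤ 2 ^ 160 := by
  have h1 : (n : ℤ) ≤ 2 ^ 8 := by
    have : n ≤ 256 := by omega
    exact_mod_cast this
  have h2 : (n : ℤ) ^ i ≤ (2 ^ 8) ^ i := pow_le_pow_left₀ (by positivity) h1 i
  calc (n : ℤ) ^ i * 2 ^ (8 * (20 - i)) ≤ (2 ^ 8) ^ i * 2 ^ (8 * (20 - i)) :=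
        mul_le_mul_of_nonneg_right h2 (by positivity)
    _ = 2 ^ 160 := by
        rw [← pow_mul, ← pow_add]
        congr 1
        omega

theorem test_NPos {c : ℕ → ℤ} {g : ℕ → ℕ} {t : ℕ} (hg : ∀ i < 21, (g i : ℤ) = c i + 2 ^ 126)
    (hs : ∑ i ∈ range 21, |c i| ≤ 2 ^ 62) (ht : t ≤ 1208925819614629174706176)
    (e : Nat.land (Nat.sub (Nat.add (sumN (fun i => Nat.mul (g i) (Wp i)) 21) o254)
      (Nat.add SW (Nat.shiftLeft (Nat.mul t (onw 256 257)) 160))) o254 = o254) :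
    ∀ n : ℕ, n < 257 →
      2 ^ 160 * (t : ℤ) ≤ ∑ i ∈ range 21, c i * ((n : ℤ) ^ i * 2 ^ (8 * (20 - i))) := by
  have ho := Rp.one (w := 256) (by norm_num) 257
  have hO : Rp 256 257 o254 (fun _ => 2 ^ 254) := by
    unfold o254
    exact (ho.shl 254).congr fun _ _ => mul_one _
  have hA := (Rp.sum (F := fun i => Nat.mul (g i) (Wp i)) 21
    (fun i _ => (Wp_NPos i).mul (g i))).add hO
  have hS : Rp 256 257 SW
      (fun n => 2 ^ 126 * ∑ i ∈ range 21, (n : ℤ) ^ i * 2 ^ (8 * (20 - i))) := by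
    unfold SW
    exact (Rp.sum (F := Wp) 21 (fun i _ => Wp_NPos i)).shl 126
  have hB := hS.add ((ho.mul t).shl 160)
  have ht' : (t : ℤ) ≤ 2 ^ 80 := by
    have : (t : ℤ) ≤ 1208925819614629174706176 := by exact_mod_cast ht
    linarith [show (1208925819614629174706176 : ℤ) = 2 ^ 80 by norm_num]
  have ht0 : (0 : ℤ) ≤ t := Int.natCast_nonneg t
  have hsp : ∀ n : ℕ, ∑ i ∈ range 21, (g i : ℤ) * ((n : ℤ) ^ i * 2 ^ (8 * (20 - i))) =
      ∑ i ∈ range 21, c i * ((n : ℤ) ^ i * 2 ^ (8 * (20 - i))) +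
        2 ^ 126 * ∑ i ∈ range 21, (n : ℤ) ^ i * 2 ^ (8 * (20 - i)) := by
    intro n
    rw [mul_sum, ← sum_add_distrib]
    refine sum_congr rfl fun i hi => ?_
    rw [hg i (mem_range.1 hi)]
    ring
  have hab : ∀ n : ℕ, n < 257 →
      |∑ i ∈ range 21, c i * ((n : ℤ) ^ i * 2 ^ (8 * (20 - i)))| ≤ 2 ^ 62 * 2 ^ 160 := by
    intro n hn
    refine (abs_sum_le_sum_abs _ _).trans ?_
    calc ∑ i ∈ range 21, |c i * ((n : ℤ) ^ i * 2 ^ (8 * (20 - i)))|
        ≤ ∑ i ∈ range 21, |c i| * 2 ^ 160 := by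
          refine sum_le_sum fun i hi => ?_
          rw [abs_mul, abs_of_nonneg (mul_nonneg (pow_nonneg (Int.natCast_nonneg n) i)
            (pow_nonneg zero_le_two (8 * (20 - i))))]
          exact mul_le_mul_of_nonneg_left (wb_NPos (mem_range.1 hi) hn) (abs_nonneg _)
      _ = (∑ i ∈ range 21, |c i|) * 2 ^ 160 := by rw [sum_mul]
      _ ≤ 2 ^ 62 * 2 ^ 160 := mul_le_mul_of_nonneg_right hs (by positivity)
  have k1 : (2 : ℤ) ^ 62 * 2 ^ 160 + 2 ^ 160 * 2 ^ 80 ≤ 2 ^ 254 := by norm_num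
  have k2 : (2 : ℤ) ^ 62 * 2 ^ 160 + 2 ^ 254 < 2 ^ 256 := by norm_num
  have k3 : (2 : ℤ) ^ 160 * t ≤ 2 ^ 160 * 2 ^ 80 := mul_le_mul_of_nonneg_left ht' (by positivity)
  have k4 : (0 : ℤ) ≤ 2 ^ 160 * t := mul_nonneg (by norm_num) ht0
  have hD := (hA.sub hB (fun n hn => by
    have := (abs_le.1 (hab n hn)).1
    rw [hsp n, mul_one]
    linarith)).congr (v' := fun n => ∑ i ∈ range 21, c i * ((n : ℤ) ^ i * 2 ^ (8 * (20 - i))) -
      2 ^ 160 * (t : ℤ) + 2 ^ 254) (fun n _ => by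
        rw [hsp n, mul_one]
        linarith)
  have hT := Rp.test (k := 254) (by norm_num) hD (fun n hn => by
    obtain ⟨a1, a2⟩ := abs_le.1 (hab n hn)
    constructor <;> linarith) hO e
  intro n hn
  have := hT n hn
  linarith

theorem node_NPos {c : ℕ → ℤ} {t n : ℕ}
    (h : 2 ^ 160 * (t : ℤ) ≤ ∑ i ∈ range 21, c i * ((n : ℤ) ^ i * 2 ^ (8 * (20 - i)))) :
    (t : ℝ) ≤ ∑ i ∈ range 21, (c i : ℝ) * ((n : ℝ) / 256) ^ i := by
  have h1 : (2 : ℝ) ^ 160 * (t : ℝ) ≤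
      ∑ i ∈ range 21, (c i : ℝ) * ((n : ℝ) ^ i * 2 ^ (8 * (20 - i))) := by exact_mod_cast h
  have h2 : ∑ i ∈ range 21, (c i : ℝ) * ((n : ℝ) ^ i * 2 ^ (8 * (20 - i))) =
      2 ^ 160 * ∑ i ∈ range 21, (c i : ℝ) * ((n : ℝ) / 256) ^ i := by
    rw [mul_sum]
    refine sum_congr rfl fun i hi => ?_
    have hi' := mem_range.1 hi
    have e : (2 : ℝ) ^ 160 = 256 ^ i * 2 ^ (8 * (20 - i)) := by
      rw [show (256 : ℝ) = 2 ^ 8 by norm_num, ← pow_mul, ← pow_add]
      congr 1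
      omega
    rw [e, div_pow]
    field_simp
  rw [h2] at h1
  exact le_of_mul_le_mul_left h1 (by positivity)

theorem posH_NPos {H d e : ℕ} {c : ℕ → ℤ} (hH : Rp 128 (21 + (d + 20)) H (fun i => c i + 2 ^ 126))
    (hs : ∑ i ∈ range (21 + (d + 20)), |c i| ≤ 2 ^ 62) (hp : posH H d e = true) {x : ℝ}
    (h0 : 0 ≤ x) (h1 : x ≤ 1) : (e : ℝ) ≤ ∑ i ∈ range (21 + (d + 20)), (c i : ℝ) * x ^ i := by
  have hc : ∀ i < 21 + (d + 20), |c i| ≤ 2 ^ 62 := fun i hi =>
    (single_le_sum (f := fun i => |c i|) (fun _ _ => abs_nonneg _) (mem_range.2 hi)).trans hs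
  have hb : ∀ i < 21 + (d + 20), 0 ≤ c i + 2 ^ 126 ∧ c i + 2 ^ 126 < 2 ^ 128 := by
    intro i hi
    obtain ⟨a1, a2⟩ := abs_le.1 (hc i hi)
    constructor
    · linarith [show (2 : ℤ) ^ 62 ≤ 2 ^ 126 by norm_num]
    · linarith [show (2 : ℤ) ^ 62 + 2 ^ 126 < 2 ^ 128 by norm_num]
  have hg : ∀ i < 21, (dg H i : ℤ) = c i + 2 ^ 126 := by
    intro i hi
    have h2 := hH.dig hb (i := i) (by omega)
    have e2 : (2 ^ 128 : ℕ) = 340282366920938463463374607431768211456 := by norm_num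
    rw [e2, ← Nat.shiftRight_eq_div_pow] at h2
    exact h2
  rw [sum_range_add] at hs
  have n1 : 0 ≤ ∑ i ∈ range 21, |c i| := sum_nonneg fun _ _ => abs_nonneg _
  have n2 : 0 ≤ ∑ i ∈ range (d + 20), |c (21 + i)| := sum_nonneg fun _ _ => abs_nonneg _
  have ha : (asum (Nat.shiftRight H 2688) (d + 20) : ℤ) = ∑ i ∈ range (d + 20), |c (21 + i)| :=
    asum_NPos (c := fun i => c (21 + i)) (hH.high 21 hb) (fun i hi => hc _ (by omega)) (by linarith)
  unfold posH at hp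
  obtain ⟨p1, p2⟩ := (an_eq _ _).1 hp
  have hT := test_NPos hg (by linarith) (Nat.le_of_ble_eq_true p1) (Nat.eq_of_beq_eq_true p2)
  have hbt := between_NPos (fun i => (c i : ℝ)) 21 h0 h1
    (fun n hn => node_NPos (hT n (by omega)))
  have hth : (e : ℝ) + ∑ i ∈ range (d + 20), |(c (21 + i) : ℝ)| +
      (∑ i ∈ range 21, ((i * (i - 1) : ℕ) : ℝ) * |(c i : ℝ)|) / 2 ^ 19 ≤ thr H d e := by
    unfold thr
    rw [Nat.cast_add, Nat.cast_add]
    have a1 : ((asum (Nat.shiftRight H 2688) (d + 20) : ℕ) : ℝ) =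
        ∑ i ∈ range (d + 20), |(c (21 + i) : ℝ)| := by exact_mod_cast ha
    rw [a1]
    refine add_le_add le_rfl (le_of_eq_of_le ?_ (le_up _ 19))
    congr 1
    rw [sumN_eq, Nat.cast_sum]
    refine sum_congr rfl fun i hi => ?_
    have a2 : Int.subNatNat (dg H i) 85070591730234615865843651857942052864 = c i := by
      rw [Int.subNatNat_eq_coe, hg i (mem_range.1 hi)]
      norm_num
    rw [a2, Nat.cast_mul (i * (i - 1)), Nat.cast_natAbs, Int.cast_abs]
  have htl : -∑ i ∈ range (d + 20), |(c (21 + i) : ℝ)| ≤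
      ∑ i ∈ range (d + 20), (c (21 + i) : ℝ) * x ^ (21 + i) := by
    rw [← sum_neg_distrib]
    refine sum_le_sum fun i _ => ?_
    have b1 : x ^ (21 + i) ≤ 1 := pow_le_one₀ h0 h1
    have b0 : 0 ≤ x ^ (21 + i) := pow_nonneg h0 _
    have b2 := neg_abs_le (c (21 + i) : ℝ)
    have b3 := abs_nonneg (c (21 + i) : ℝ)
    nlinarith
  rw [sum_range_add]
  linarith

theorem pos_sound {P : TM} {f : ℝ → ℝ} (h : P.ok f) (hp : pos P = true) {x : ℝ} (h0 : 0 ≤ x)
    (h1 : x ≤ 1) : 0 ≤ f x := by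
  obtain ⟨c, hN, hn, he⟩ := h
  unfold pos at hp
  rw [tf_eq] at hp
  obtain ⟨p1, p2⟩ := (an_eq _ _).1 hp
  rw [frc_eq] at p2
  have hn2 : (P.n : ℤ) ≤ 2 ^ 62 := by
    have h3 : (P.n : ℤ) ≤ 4611686018427387904 := by exact_mod_cast Nat.le_of_ble_eq_true p1
    linarith [show (4611686018427387904 : ℤ) = 2 ^ 62 by norm_num]
  have hext : ∀ {M : Type} [AddCommMonoid M] (F : ℕ → ℤ → M), (∀ i, F i 0 = 0) →
      ∑ i ∈ range (21 + (P.d + 20)), F i (if i < P.d + 1 then c i else 0) =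
        ∑ i ∈ range (P.d + 1), F i (c i) := by
    intro M _ F hF
    rw [show 21 + (P.d + 20) = P.d + 1 + 40 by omega, sum_range_add]
    rw [sum_eq_zero (s := range 40) fun i _ => by rw [if_neg (by omega), hF], add_zero]
    exact sum_congr rfl fun i hi => by rw [if_pos (mem_range.1 hi)]
  have s1 := hext (fun _ z => |z|) (fun _ => abs_zero)
  have s2 := hext (fun i z => z * 2 ^ (128 * i)) (fun _ => zero_mul _)
  have s3 := hext (fun i z => (z : ℝ) * x ^ i) (fun _ => by simp)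
  have hs : ∑ i ∈ range (21 + (P.d + 20)), |if i < P.d + 1 then c i else 0| ≤ 2 ^ 62 := by
    rw [s1]
    linarith
  have e : P.d + 40 + 1 = 21 + (P.d + 20) := by omega
  have hH := tof_NPos (N := P.N) (d := P.d + 40) (c := fun i => if i < P.d + 1 then c i else 0)
    (by rw [e, s2, hN]) (fun i hi => (single_le_sum (f := fun i => |if i < P.d + 1 then c i else 0|)
      (fun _ _ => abs_nonneg _) (mem_range.2 (by omega))).trans hs)
  rw [e] at hH
  have h4 := posH_NPos hH hs p2 h0 h1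
  rw [s3] at h4
  have h5 := (abs_le.1 (he x h0 h1)).1
  have h6 : 0 ≤ f x * 2 ^ 48 := by linarith
  exact nonneg_of_mul_nonneg_left h6 (by positivity)

end Pool.Agent.MP_ebf981_lc.N9

end

section

namespace Pool.Agent.MP_ebf981_lc.N9

open Finset

variable {P : TM} {f : ℝ → ℝ}

theorem fac_eq (n : ℕ) : fac n = n.factorial := by
  induction n with
  | zero => rfl
  | succ n ih =>
    have e : fac (n + 1) = fac n * (n + 1) := rfl
    rw [e, ih, Nat.factorial_succ, mul_comm]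

theorem exp_eq_E1 (s : ℝ) : Real.exp s = 1 + s * E1 s := by
  unfold E1
  split_ifs with h
  · simp [h]
  · field_simp
    ring

theorem cos_eq_Cq (x : ℝ) : Real.cos x = Cq (x ^ 2) := by
  rw [Cq, Real.sqrt_sq_eq_abs, Real.cos_abs]

theorem sin_eq_Sq (x : ℝ) : Real.sin x = x * Sq (x ^ 2) := by
  have e : Real.sinc |x| = Real.sinc x := by
    rcases abs_choice x with h | h
    · rw [h]
    · rw [h, Real.sinc_neg]
  rw [Sq, Real.sqrt_sq_eq_abs, e]
  by_cases h : x = 0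
  · simp [h]
  · rw [Real.sinc_of_ne_zero h]
    field_simp

theorem rem_ok_NSer {H : TM} {g p : ℝ → ℝ} (h : P.ok f) (hH : H.ok p) (n m : ℕ)
    (hg : ∀ x, 0 ≤ x → x ≤ 1 → |g x - p x| ≤ 2 * |f x| ^ n / m.factorial) :
    (rem H P n m).ok g := by
  obtain ⟨c, h1, h2, h3⟩ := hH
  refine ⟨c, h1, h2, fun x h0 hx => ?_⟩
  have hb := h.bound h0 hx
  have hm : (0 : ℝ) < m.factorial := by exact_mod_cast m.factorial_pos
  have key : 2 * |f x| ^ n / m.factorial * 2 ^ 48 ≤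
      ((562949953421312 * (P.n + P.e) ^ n / (m.factorial * 2 ^ (48 * n)) + 1 : ℕ) : ℝ) := by
    have hd : 0 < m.factorial * 2 ^ (48 * n) := Nat.mul_pos m.factorial_pos (by positivity)
    have h4 := Nat.lt_mul_div_succ (562949953421312 * (P.n + P.e) ^ n) hd
    have h5 : ((562949953421312 * (P.n + P.e) ^ n : ℕ) : ℝ) ≤ ((m.factorial * 2 ^ (48 * n) *
        (562949953421312 * (P.n + P.e) ^ n / (m.factorial * 2 ^ (48 * n)) + 1) : ℕ) : ℝ) :=
      Nat.cast_le.2 h4.le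
    generalize 562949953421312 * (P.n + P.e) ^ n / (m.factorial * 2 ^ (48 * n)) + 1 = q at h5 ⊢
    push_cast at h5
    have h6 : (|f x| * 2 ^ 48) ^ n ≤ ((P.n : ℝ) + P.e) ^ n :=
      pow_le_pow_left₀ (by positivity) hb n
    rw [mul_pow, ← pow_mul] at h6
    have h7 : (0 : ℝ) < 2 ^ (48 * n) := by positivity
    rw [div_mul_eq_mul_div, div_le_iff₀ hm]
    refine le_of_mul_le_mul_right ?_ h7
    generalize (2 : ℝ) ^ (48 * n) = w at h5 h6 h7 ⊢
    nlinarith
  have e : ((rem H P n m).e : ℝ) = H.e +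
      ((562949953421312 * (P.n + P.e) ^ n / (m.factorial * 2 ^ (48 * n)) + 1 : ℕ) : ℝ) := by
    rw [← Nat.cast_add, ← fac_eq, ← Nat.shiftLeft_eq]
    rfl
  rw [e]
  have h8 := h3 x h0 hx
  have h9 := hg x h0 hx
  have h10 : |(g x - p x) * 2 ^ 48| ≤ 2 * |f x| ^ n / m.factorial * 2 ^ 48 := by
    rw [abs_mul, abs_of_pos (by positivity : (0 : ℝ) < 2 ^ 48)]
    exact mul_le_mul_of_nonneg_right h9 (by positivity)
  have h11 : g x * 2 ^ 48 - ∑ i ∈ range ((rem H P n m).d + 1), (c i : ℝ) * x ^ i =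
      (p x * 2 ^ 48 - ∑ i ∈ range (H.d + 1), (c i : ℝ) * x ^ i) + (g x - p x) * 2 ^ 48 := by
    have : (rem H P n m).d = H.d := rfl
    rw [this]
    ring
  rw [h11]
  exact (abs_add_le _ _).trans (add_le_add h8 (h10.trans key))

theorem small_NSer (h : P.ok f) {m : ℕ} (hs : tsm P m = true) {x : ℝ} (h0 : 0 ≤ x) (h1 : x ≤ 1) :
    |f x| ≤ m := by
  have hb := h.bound h0 h1
  have h2 : P.n + P.e ≤ m * 2 ^ 48 := by
    rw [← Nat.shiftLeft_eq]
    exact Nat.le_of_ble_eq_true hs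
  have h3 : (P.n : ℝ) + P.e ≤ m * 2 ^ 48 := by exact_mod_cast h2
  exact le_of_mul_le_mul_right (hb.trans h3) (by positivity)

theorem div_NSer (m : ℕ) :
    |1 / (m.factorial : ℝ) * 2 ^ 48 - (Nat.div 281474976710656 (fac m) : ℕ)| ≤ 1 := by
  rw [fac_eq]
  have hm : 0 < m.factorial := m.factorial_pos
  have hm' : (0 : ℝ) < m.factorial := by exact_mod_cast hm
  have e : Nat.div 281474976710656 m.factorial = 281474976710656 / m.factorial := rfl
  rw [e]
  have h1 : ((281474976710656 / m.factorial * m.factorial : ℕ) : ℝ) ≤ (281474976710656 : ℕ) :=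
    Nat.cast_le.2 (Nat.div_mul_le_self _ _)
  have h2 : ((281474976710656 : ℕ) : ℝ) ≤
      ((m.factorial * (281474976710656 / m.factorial + 1) : ℕ) : ℝ) :=
    Nat.cast_le.2 (Nat.lt_mul_div_succ _ hm).le
  generalize 281474976710656 / m.factorial = q at h1 h2 ⊢
  push_cast at h1 h2
  have e2 : 1 / (m.factorial : ℝ) * 2 ^ 48 = 281474976710656 / m.factorial := by
    rw [div_mul_eq_mul_div]; norm_num
  rw [e2, abs_le]
  constructor
  · have : (q : ℝ) ≤ 281474976710656 / m.factorial := by rw [le_div_iff₀ hm']; exact h1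
    linarith
  · have : 281474976710656 / (m.factorial : ℝ) ≤ q + 1 := by rw [div_le_iff₀ hm']; linarith
    linarith

theorem alt_NSer (k m : ℕ) :
    |(-1) ^ k / (m.factorial : ℝ) * 2 ^ 48 - (alt k (Nat.div 281474976710656 (fac m)) : ℤ)| ≤ 1 := by
  have h := div_NSer m
  generalize Nat.div 281474976710656 (fac m) = q at h ⊢
  have e : Nat.mod k 2 = k % 2 := rfl
  rw [alt, ifz_eq, e]
  split_ifs with hk
  · rw [(Nat.even_iff.2 hk).neg_one_pow]
    exact h
  · rw [(Nat.odd_iff.2 (by omega)).neg_one_pow, Int.negOfNat_eq, ← abs_neg]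
    convert h using 2
    simp only [Int.ofNat_eq_natCast, Int.cast_neg, Int.cast_natCast]
    ring

theorem E1_bound_NSer (s : ℝ) (n : ℕ) (hs : |s| ≤ (n : ℝ) / 2) :
    |E1 s - ∑ k ∈ range n, 1 / ((k + 1).factorial : ℝ) * s ^ k| ≤
      2 * |s| ^ n / (n + 1).factorial := by
  by_cases h0 : s = 0
  · subst h0
    rcases n with _ | n
    · simp [E1]
    · rw [sum_range_succ']
      simp [E1]
  · have h1 : ‖(s : ℂ)‖ / ((n + 1).succ : ℕ) ≤ 1 / 2 := by
      rw [Complex.norm_real, Real.norm_eq_abs, div_le_iff₀ (by positivity)]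
      push_cast
      linarith
    have h2 := Complex.exp_bound' h1
    have e : Complex.exp s - ∑ m ∈ range (n + 1), (s : ℂ) ^ m / m.factorial =
        ((s * (E1 s - ∑ k ∈ range n, 1 / ((k + 1).factorial : ℝ) * s ^ k) : ℝ) : ℂ) := by
      rw [← Complex.ofReal_exp, exp_eq_E1, sum_range_succ', mul_sub, mul_sum]
      push_cast
      rw [sum_congr rfl fun k _ => (by ring : (s : ℂ) ^ (k + 1) / ((k + 1).factorial : ℂ) =
        s * (1 / ((k + 1).factorial : ℂ) * s ^ k))]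
      simp only [pow_zero, Nat.factorial_zero, Nat.cast_one, div_one]
      ring
    rw [e, Complex.norm_real, Complex.norm_real, Real.norm_eq_abs, Real.norm_eq_abs, abs_mul] at h2
    refine le_of_mul_le_mul_left (h2.trans (le_of_eq ?_)) (abs_pos.2 h0)
    ring

theorem tE_ok (h : P.ok f) {n : ℕ} (hs : tsm P (n / 2) = true) :
    (tE P n).ok (fun x => E1 (f x)) := by
  refine rem_ok_NSer h (hor9_ok h (a := fun k => 1 / ((k + 1).factorial : ℝ)) n fun k _ => ?_)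
    n (n + 1) fun x h0 h1 => E1_bound_NSer _ n ((small_NSer h hs h0 h1).trans Nat.cast_div_le)
  simpa only [Int.ofNat_eq_natCast, Int.cast_natCast] using div_NSer (k + 1)

theorem split_NSer (y : ℝ) (K : ℕ) :
    ∑ m ∈ range (2 * K), ((y : ℂ) * Complex.I) ^ m / m.factorial =
      ((∑ k ∈ range K, (-1) ^ k / ((2 * k).factorial : ℝ) * (y ^ 2) ^ k : ℝ) : ℂ) +
        ((y * ∑ k ∈ range K, (-1) ^ k / ((2 * k + 1).factorial : ℝ) * (y ^ 2) ^ k : ℝ) : ℂ) *
          Complex.I := by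
  induction K with
  | zero => simp
  | succ K ih =>
    have e : ((y : ℂ) * Complex.I) ^ (2 * K) = (-1) ^ K * ((y : ℂ) ^ 2) ^ K := by
      rw [pow_mul, mul_pow, Complex.I_sq, mul_pow, mul_comm]
    rw [Nat.mul_succ, sum_range_succ, sum_range_succ, ih, sum_range_succ, sum_range_succ,
      pow_succ _ (2 * K), e]
    generalize (∑ k ∈ range K, (-1) ^ k / ((2 * k).factorial : ℝ) * (y ^ 2) ^ k) = A
    generalize (∑ k ∈ range K, (-1) ^ k / ((2 * k + 1).factorial : ℝ) * (y ^ 2) ^ k) = B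
    push_cast
    ring

theorem Cq_bound_NSer (s : ℝ) (h0 : 0 ≤ s) (hs : |s| ≤ 25) :
    |Cq s - ∑ k ∈ range 10, (-1) ^ k / ((2 * k).factorial : ℝ) * s ^ k| ≤
      2 * |s| ^ 10 / (20 : ℕ).factorial := by
  obtain ⟨y, hy, rfl⟩ : ∃ y : ℝ, 0 ≤ y ∧ s = y ^ 2 := ⟨√s, Real.sqrt_nonneg s, (Real.sq_sqrt h0).symm⟩
  rw [abs_of_nonneg h0] at hs ⊢
  have hn : ‖(y : ℂ) * Complex.I‖ = y := by simp [abs_of_nonneg hy]
  have h1 : ‖(y : ℂ) * Complex.I‖ / ((2 * 10).succ : ℕ) ≤ 1 / 2 := by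
    rw [hn, div_le_iff₀ (by positivity)]
    push_cast
    nlinarith
  have h2 := (Complex.abs_re_le_norm _).trans (Complex.exp_bound' h1)
  rw [split_NSer, hn, Complex.sub_re, Complex.exp_ofReal_mul_I_re, Complex.add_re,
    Complex.ofReal_re, Complex.mul_I_re, Complex.ofReal_im, neg_zero, add_zero] at h2
  rw [← cos_eq_Cq]
  refine h2.trans (le_of_eq ?_)
  rw [← pow_mul]
  ring

theorem Sq_bound_NSer (s : ℝ) (h0 : 0 ≤ s) (hs : |s| ≤ 25) :
    |Sq s - ∑ k ∈ range 10, (-1) ^ k / ((2 * k + 1).factorial : ℝ) * s ^ k| ≤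
      2 * |s| ^ 10 / (21 : ℕ).factorial := by
  obtain ⟨y, hy, rfl⟩ : ∃ y : ℝ, 0 ≤ y ∧ s = y ^ 2 := ⟨√s, Real.sqrt_nonneg s, (Real.sq_sqrt h0).symm⟩
  rw [abs_of_nonneg h0] at hs ⊢
  rcases hy.eq_or_lt with rfl | hy0
  · rw [sum_range_succ']
    simp [Sq]
  have hn : ‖(y : ℂ) * Complex.I‖ = y := by simp [abs_of_nonneg hy]
  have h1 : ‖(y : ℂ) * Complex.I‖ / ((2 * 10 + 1).succ : ℕ) ≤ 1 / 2 := by
    rw [hn, div_le_iff₀ (by positivity)]
    push_cast
    nlinarith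
  have h2 := (Complex.abs_im_le_norm _).trans (Complex.exp_bound' h1)
  have e : (((y : ℂ) * Complex.I) ^ (2 * 10) / ((2 * 10).factorial : ℕ)).im = 0 := by
    have : ((y : ℂ) * Complex.I) ^ (2 * 10) / ((2 * 10).factorial : ℕ) =
        ((y ^ 20 / ((2 * 10).factorial : ℕ) : ℝ) : ℂ) := by
      rw [pow_mul, mul_pow, Complex.I_sq]
      push_cast
      ring
    rw [this, Complex.ofReal_im]
  rw [sum_range_succ, split_NSer, hn, Complex.sub_im, Complex.exp_ofReal_mul_I_im, Complex.add_im,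
    e, add_zero, Complex.add_im, Complex.ofReal_im, Complex.mul_I_im, Complex.ofReal_re, zero_add,
    sin_eq_Sq, ← mul_sub, abs_mul, abs_of_nonneg hy] at h2
  refine le_of_mul_le_mul_left (h2.trans (le_of_eq ?_)) hy0
  rw [← pow_mul]
  ring

theorem tC_ok (h : P.ok f) (h0 : ∀ x, 0 ≤ x → x ≤ 1 → 0 ≤ f x) (hs : tsm P 25 = true) :
    (tC P).ok (fun x => Cq (f x)) :=
  rem_ok_NSer h (hor9_ok h (a := fun k => (-1) ^ k / ((2 * k).factorial : ℝ)) 10
    fun k _ => alt_NSer k (2 * k)) 10 20 fun x hx h1 =>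
      Cq_bound_NSer _ (h0 x hx h1) (by exact_mod_cast small_NSer h hs hx h1)

theorem tS_ok (h : P.ok f) (h0 : ∀ x, 0 ≤ x → x ≤ 1 → 0 ≤ f x) (hs : tsm P 25 = true) :
    (tS P).ok (fun x => Sq (f x)) :=
  rem_ok_NSer h (hor9_ok h (a := fun k => (-1) ^ k / ((2 * k + 1).factorial : ℝ)) 10
    fun k _ => alt_NSer k (2 * k + 1)) 10 21 fun x hx h1 =>
      Sq_bound_NSer _ (h0 x hx h1) (by exact_mod_cast small_NSer h hs hx h1)

end Pool.Agent.MP_ebf981_lc.N9

end

section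

namespace Pool.Agent.MP_ebf981_lc.N9

open Finset

/-- the valuation lies in the box -/
def InB (B : ℕ) (w : ℕ → ℝ) : Prop :=
  ∀ v ≤ 30, (blo B v : ℝ) ≤ w v * 2 ^ 24 ∧ w v * 2 ^ 24 ≤ bhi B v

/-- relations between the variables of the boxes -/
def Rv (w : ℕ → ℝ) : Prop :=
  (∀ v ≤ 30, 0 ≤ w v ∧ w v ≤ 1) ∧ w 0 = 1 ∧ ∀ l ≤ 3,
    w 0 = w (3 + 7 * l) + w (4 + 7 * l) ∧ w (2 + 7 * l) = w (1 + 7 * l) + w (9 + 7 * l) ∧
    w (1 + 7 * l) = w (3 + 7 * l) * w (2 + 7 * l) ∧ w (6 + 7 * l) = w (3 + 7 * l) * w (3 + 7 * l) ∧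
    w (9 + 7 * l) = w (4 + 7 * l) * w (2 + 7 * l) ∧ w (5 + 7 * l) = w (1 + 7 * l) * w (4 + 7 * l) ∧
    w (5 + 7 * l) = w (3 + 7 * l) * w (9 + 7 * l) ∧ w (6 + 7 * l) ≤ w (7 + 7 * l) ∧
    w (7 + 7 * l) ≤ w (3 + 7 * l) ∧ w (8 + 7 * l) ≤ w (1 + 7 * l)

theorem dig_NBox {M lo i h : ℕ} (hM : 0 < M) (hl : lo < M ^ i) (j : ℕ) :
    ∃ r, ∀ d < M, (lo + M ^ i * (d + M * h)) / M ^ j % M = if j = i then d else r := by
  have h1 : ∀ d, (lo + M ^ i * (d + M * h)) / M ^ i = d + M * h := fun d => by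
    rw [Nat.add_mul_div_left _ _ (pow_pos hM i), Nat.div_eq_of_lt hl, zero_add]
  rcases lt_trichotomy j i with e | rfl | e
  · obtain ⟨t, rfl⟩ := Nat.exists_eq_add_of_lt e
    refine ⟨lo / M ^ j % M, fun d _ => ?_⟩
    rw [if_neg e.ne, show M ^ (j + t + 1) * (d + M * h) = M ^ j * (M * (M ^ t * (d + M * h))) by ring,
      Nat.add_mul_div_left _ _ (pow_pos hM j), Nat.add_mul_mod_self_left]
  · exact ⟨0, fun d hd => by rw [if_pos rfl, h1, Nat.add_mul_mod_self_left, Nat.mod_eq_of_lt hd]⟩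
  · obtain ⟨t, rfl⟩ := Nat.exists_eq_add_of_lt e
    refine ⟨h / M ^ t % M, fun d hd => ?_⟩
    rw [if_neg e.ne', show M ^ (i + t + 1) = M ^ i * M * M ^ t by ring, ← Nat.div_div_eq_div_mul,
      ← Nat.div_div_eq_div_mul, h1, Nat.add_mul_div_left _ _ hM, Nat.div_eq_of_lt hd, zero_add]

theorem upd_NBox {M : ℕ} (hM : 0 < M) (B i j : ℕ) {v : ℕ} (hv : v < M) :
    (B - B / M ^ i % M * M ^ i + v * M ^ i) / M ^ j % M = if j = i then v else B / M ^ j % M := by
  obtain ⟨r, hr⟩ := dig_NBox (h := B / M ^ i / M) hM (Nat.mod_lt B (pow_pos hM i)) j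
  have h1 : B % M ^ i + M ^ i * (B / M ^ i % M + M * (B / M ^ i / M)) = B := by
    rw [Nat.mod_add_div, Nat.mod_add_div]
  have h2 : B - B / M ^ i % M * M ^ i + v * M ^ i =
      B % M ^ i + M ^ i * (v + M * (B / M ^ i / M)) := by
    rw [mul_add] at h1 ⊢
    rw [mul_comm _ (M ^ i), mul_comm v]
    generalize B % M ^ i = x at h1 ⊢
    omega
  have h3 := hr _ (Nat.mod_lt (B / M ^ i) hM)
  rw [h1] at h3
  rw [h2, hr v hv]
  split_ifs with e
  · rfl
  · rw [h3, if_neg e]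

theorem fd_NBox (N j : ℕ) : fd N j = N / 4294967296 ^ j % 4294967296 := by
  change (N >>> (32 * j)) % 4294967296 = _
  rw [Nat.shiftRight_eq_div_pow, pow_mul, show 2 ^ 32 = 4294967296 by norm_num]

theorem fd_sf (B i v j : ℕ) :
    fd (sf B i v) j = if j = i ∧ v ≤ 4294967295 then v else fd B j := by
  rw [sf, ifb_eq]
  by_cases h : v ≤ 4294967295
  · rw [if_pos (Nat.ble_eq.mpr h)]
    change fd (B - fd B i <<< (32 * i) + v <<< (32 * i)) j = _
    rw [Nat.shiftLeft_eq, Nat.shiftLeft_eq, pow_mul, fd_NBox, fd_NBox, fd_NBox]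
    simp only [h, and_true]
    exact upd_NBox (by norm_num) B i j (by omega)
  · rw [if_neg fun e => h (Nat.ble_eq.mp e), if_neg fun e => h e.2]

theorem InB.slo {B v x : ℕ} {w : ℕ → ℝ} (h : InB B w) (hx : (x : ℝ) ≤ w v * 2 ^ 24) :
    InB (slo B v x) w := by
  intro u hu
  have h1 := h u hu
  simp only [blo, bhi, N9.slo, fd_sf, Nat.mul_eq, Nat.succ_eq_add_one] at h1 ⊢
  rw [if_neg (show ¬(2 * u + 1 = 2 * v ∧ x ≤ 4294967295) by omega)]
  split_ifs with e
  · obtain rfl : u = v := by omega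
    exact ⟨hx, h1.2⟩
  · exact h1

theorem InB.shi {B v x : ℕ} {w : ℕ → ℝ} (h : InB B w) (hx : w v * 2 ^ 24 ≤ x) :
    InB (shi B v x) w := by
  intro u hu
  have h1 := h u hu
  simp only [blo, bhi, N9.shi, fd_sf, Nat.mul_eq, Nat.succ_eq_add_one] at h1 ⊢
  rw [if_neg (show ¬(2 * u = 2 * v + 1 ∧ x ≤ 4294967295) by omega)]
  split_ifs with e
  · obtain rfl : u = v := by omega
    exact ⟨h1.1, hx⟩
  · exact h1

theorem uS_NBox {B i j k : ℕ} {w : ℕ → ℝ} (h : InB B w) (hi : i ≤ 30) (hj : j ≤ 30) (hk : k ≤ 30)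
    (h0 : 0 ≤ w j) (e : w i = w j + w k) (d : ℕ) : InB (uS B d i j k) w := by
  obtain ⟨a1, a2⟩ := h i hi
  obtain ⟨b1, b2⟩ := h j hj
  obtain ⟨c1, c2⟩ := h k hk
  rw [e] at a1 a2
  simp only [uS, ifb_eq, ifz_eq, Nat.add_eq, Nat.sub_eq]
  split_ifs
  · refine h.shi ?_
    have : ((bhi B i : ℕ) : ℝ) ≤ (bhi B i - blo B k : ℕ) + (blo B k : ℕ) := by
      exact_mod_cast le_tsub_add
    linarith
  · refine h.slo ?_
    rcases le_total (blo B i) (bhi B k) with l | l
    · rw [Nat.sub_eq_zero_of_le l, Nat.cast_zero]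
      positivity
    · rw [Nat.cast_sub l]
      linarith
  · refine h.slo ?_
    rw [e, Nat.cast_add]
    linarith
  · refine h.shi ?_
    rw [e, Nat.cast_add]
    linarith

theorem uP_NBox {B i j k : ℕ} {w : ℕ → ℝ} (h : InB B w) (hi : i ≤ 30) (hj : j ≤ 30) (hk : k ≤ 30)
    (h0 : 0 ≤ w j) (h1 : 0 ≤ w k) (e : w i = w j * w k) (d : ℕ) : InB (uP B d i j k) w := by
  obtain ⟨a1, a2⟩ := h i hi
  obtain ⟨b1, b2⟩ := h j hj
  obtain ⟨c1, c2⟩ := h k hk
  have p1 : 0 ≤ w j * 2 ^ 24 := by positivity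
  have p2 : 0 ≤ w k * 2 ^ 24 := by positivity
  have e1 : w i * 2 ^ 24 * 2 ^ 24 = w j * 2 ^ 24 * (w k * 2 ^ 24) := by rw [e]; ring
  simp only [uP, ifb_eq, ifz_eq, Nat.mul_eq]
  split_ifs with _ _ z
  · exact h
  · refine h.shi ?_
    change _ ≤ ((bhi B i <<< 24 / blo B k + 1 : ℕ) : ℝ)
    have q0 := Nat.pos_of_ne_zero z
    have q1 : ((bhi B i * 2 ^ 24 : ℕ) : ℝ) ≤ (blo B k * (bhi B i * 2 ^ 24 / blo B k + 1) : ℕ) :=
      Nat.cast_le.2 (Nat.lt_mul_div_succ _ q0).le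
    rw [Nat.shiftLeft_eq]
    refine le_of_mul_le_mul_left ?_ (Nat.cast_pos.2 q0 : (0 : ℝ) < blo B k)
    rw [Nat.cast_mul (blo B k), Nat.cast_mul, Nat.cast_pow, Nat.cast_ofNat] at q1
    have := mul_le_mul_of_nonneg_left c1 p1
    linarith
  · refine h.slo ?_
    change ((blo B i <<< 24 / bhi B k : ℕ) : ℝ) ≤ _
    rw [Nat.shiftLeft_eq]
    refine Nat.cast_div_le.trans (div_le_of_le_mul₀ (Nat.cast_nonneg _) p1 ?_)
    rw [Nat.cast_mul, Nat.cast_pow, Nat.cast_ofNat]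
    have := mul_le_mul_of_nonneg_left c2 p1
    linarith
  · refine h.slo ?_
    change (((blo B j * blo B k) >>> 24 : ℕ) : ℝ) ≤ _
    rw [Nat.shiftRight_eq_div_pow]
    refine Nat.cast_div_le.trans ?_
    rw [Nat.cast_mul, Nat.cast_pow, Nat.cast_ofNat, div_le_iff₀ (by positivity), e1]
    exact mul_le_mul b1 c1 (Nat.cast_nonneg _) p1
  · refine h.shi (le_trans ?_ (le_up _ _))
    rw [Nat.cast_mul, le_div_iff₀ (by positivity), e1]
    exact mul_le_mul b2 c2 p2 (Nat.cast_nonneg _)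

theorem uL_NBox {B i j : ℕ} {w : ℕ → ℝ} (h : InB B w) (hi : i ≤ 30) (hj : j ≤ 30)
    (e : w i ≤ w j) (d : ℕ) : InB (uL B d i j) w := by
  obtain ⟨a1, -⟩ := h i hi
  obtain ⟨-, b2⟩ := h j hj
  simp only [uL, ifz_eq]
  split_ifs
  · exact h.slo (by linarith)
  · exact h.shi (by linarith)

theorem upS_NBox {B i j k : ℕ} {w : ℕ → ℝ} (hw : Rv w) (h : InB B w) (hi : i ≤ 30) (hj : j ≤ 30)
    (hk : k ≤ 30) (e : w i = w j + w k) (c : Bool) (d d' : ℕ) :
    InB (ifb c (uS B d' i k j) (uS B d i j k)) w := by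
  cases c
  · exact uS_NBox h hi hj hk (hw.1 j hj).1 e d
  · exact uS_NBox h hi hk hj (hw.1 k hk).1 (e.trans (add_comm _ _)) d'

theorem upP_NBox {B i j k : ℕ} {w : ℕ → ℝ} (hw : Rv w) (h : InB B w) (hi : i ≤ 30) (hj : j ≤ 30)
    (hk : k ≤ 30) (e : w i = w j * w k) (c : Bool) (d d' : ℕ) :
    InB (ifb c (uP B d' i k j) (uP B d i j k)) w := by
  cases c
  · exact uP_NBox h hi hj hk (hw.1 j hj).1 (hw.1 k hk).1 e d
  · exact uP_NBox h hi hk hj (hw.1 k hk).1 (hw.1 j hj).1 (e.trans (mul_comm _ _)) d'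

theorem upf_NBox {B f l : ℕ} {w : ℕ → ℝ} (hw : Rv w) (h : InB B w) (hf : f < 10) (hl : l ≤ 3)
    (d : ℕ) : InB (upf B f l d) w := by
  obtain ⟨e0, e1, e2, e3, e4, e5, e6, e7, e8, e9⟩ := hw.2.2 l hl
  interval_cases f
  · exact upS_NBox hw h (by omega) (by omega) (by omega) e0 _ _ _
  · exact upS_NBox hw h (by omega) (by omega) (by omega) e1 _ _ _
  · exact upP_NBox hw h (by omega) (by omega) (by omega) e2 _ _ _
  · exact upP_NBox hw h (by omega) (by omega) (by omega) e3 _ _ _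
  · exact upP_NBox hw h (by omega) (by omega) (by omega) e4 _ _ _
  · exact upP_NBox hw h (by omega) (by omega) (by omega) e5 _ _ _
  · exact upP_NBox hw h (by omega) (by omega) (by omega) e6 _ _ _
  · exact uL_NBox h (by omega) (by omega) e7 _
  · exact uL_NBox h (by omega) (by omega) e8 _
  · exact uL_NBox h (by omega) (by omega) e9 _

theorem updS_NBox {B : ℕ} {w : ℕ → ℝ} (hw : Rv w) (h : InB B w) (u : ℕ) : InB (upd B u) w := by
  rw [upd, ifb_eq]
  split_ifs with e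
  · exact h
  · have h1 : ¬240 ≤ u := fun e' => e (Nat.ble_eq.mpr e')
    exact upf_NBox (f := u / 24) (l := u / 6 % 4) hw h (by omega) (by omega) _

theorem InB.aps {w : ℕ → ℝ} (hw : Rv w) (n : ℕ) : ∀ B c : ℕ, InB B w → InB (aps n B c) w := by
  induction n with
  | zero => exact fun _ _ h => h
  | succ n ih =>
    intro B c h
    change InB (ifz c B (N9.aps n (upd B (Nat.sub (Nat.mod c 256) 1)) (Nat.shiftRight c 8))) w
    rw [ifz_eq]
    split_ifs
    · exact h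
    · exact ih _ _ (updS_NBox hw h _)

theorem root_NBox : ∀ v < 31, blo (Nat.mul 72057594037927936 (onw 64 31)) v = 0 ∧
    bhi (Nat.mul 72057594037927936 (onw 64 31)) v = 16777216 := by
  decide +kernel

theorem InB.root {w : ℕ → ℝ} (hw : Rv w) {b : ℕ} (hb : w 1 * 2 ^ 24 ≤ (b : ℝ) ^ 2) :
    InB (root b) w := by
  refine InB.shi (InB.slo (fun v hv => ?_) ?_) ?_
  · obtain ⟨h1, h2⟩ := root_NBox v (by omega)
    obtain ⟨h3, h4⟩ := hw.1 v hv
    rw [h1, h2, Nat.cast_zero, Nat.cast_ofNat]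
    constructor <;> linarith
  · rw [hw.2.1]
    norm_num
  · rw [N9.sq, Nat.mul_eq, Nat.cast_mul, ← pow_two]
    exact hb

end Pool.Agent.MP_ebf981_lc.N9

end

section

namespace Pool.Agent.MP_ebf981_lc.N9

open Finset

def pk_NTree (A W x Q : ℕ → ℝ) (l : ℕ) : ℕ → ℝ
  | 0 => A l
  | 1 => W l
  | 2 => x l
  | 3 => 1 - x l
  | 4 => A l * (1 - x l)
  | 5 => x l * x l
  | _ => Q l

def wv_NTree (A W x Q : ℕ → ℝ) (v : ℕ) : ℝ :=
  if v = 0 then 1 else pk_NTree A W x Q ((v - 1) / 7) ((v - 1) % 7)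

theorem wv_eq_NTree (A W x Q : ℕ → ℝ) (l r : ℕ) {v : ℕ} (hr : r < 7) (hv : v = r + 1 + 7 * l) :
    wv_NTree A W x Q v = pk_NTree A W x Q l r := by
  unfold wv_NTree
  rw [if_neg (by omega), show (v - 1) / 7 = l by omega, show (v - 1) % 7 = r by omega]

theorem rv_NTree {A W x Q : ℕ → ℝ}
    (h1 : ∀ j ≤ 3, 0 ≤ W j ∧ W j ≤ 1 ∧ 0 ≤ x j ∧ x j ≤ 1 ∧ A j = x j * W j ∧ x j ^ 2 ≤ Q j ∧
      Q j ≤ x j)
    (h2 : ∀ j ≤ 3, W j = A j + W (j + 1) ∧ A (j + 1) ≤ A j) (h4 : 0 ≤ A 4) :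
    Rv (wv_NTree A W x Q) := by
  have hA : ∀ j ≤ 3, 0 ≤ A j ∧ A j ≤ 1 := fun j hj => by
    obtain ⟨a1, a2, a3, a4, a5, -, -⟩ := h1 j hj
    rw [a5]
    exact ⟨mul_nonneg a3 a1, mul_le_one₀ a4 a1 a2⟩
  refine ⟨fun v hv => ?_, if_pos rfl, fun l hl => ?_⟩
  · by_cases h0 : v = 0
    · subst h0
      simp [wv_NTree]
    · by_cases hl : v ≤ 28
      · have hl' : (v - 1) / 7 ≤ 3 := by omega
        have hr : (v - 1) % 7 < 7 := by omega
        unfold wv_NTree
        rw [if_neg h0]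
        generalize (v - 1) / 7 = l at hl'
        generalize (v - 1) % 7 = r at hr
        obtain ⟨a1, a2, a3, a4, a5, a6, a7⟩ := h1 l hl'
        obtain ⟨b1, b2⟩ := hA l hl'
        interval_cases r <;> simp only [pk_NTree]
        · exact ⟨b1, b2⟩
        · exact ⟨a1, a2⟩
        · exact ⟨a3, a4⟩
        · exact ⟨by linarith, by linarith⟩
        · exact ⟨mul_nonneg b1 (by linarith), mul_le_one₀ b2 (by linarith) (by linarith)⟩
        · exact ⟨mul_nonneg a3 a3, mul_le_one₀ a4 a3 a4⟩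
        · exact ⟨(sq_nonneg _).trans a6, a7.trans a4⟩
      · obtain ⟨a1, a2, a3, a4, a5, a6, a7⟩ := h1 3 le_rfl
        obtain ⟨b1, b2⟩ := hA 3 le_rfl
        obtain ⟨c1, c2⟩ := h2 3 le_rfl
        by_cases h29 : v = 29
        · rw [wv_eq_NTree A W x Q 4 0 (by norm_num) (by omega)]
          exact ⟨h4, c2.trans b2⟩
        · rw [wv_eq_NTree A W x Q 4 1 (by norm_num) (by omega)]
          have c3 : W 4 = (1 - x 3) * W 3 := by
            have : W (3 + 1) = W 4 := rfl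
            linarith
          change 0 ≤ W 4 ∧ W 4 ≤ 1
          rw [c3]
          exact ⟨mul_nonneg (by linarith) a1, mul_le_one₀ (by linarith) a1 a2⟩
  · obtain ⟨a1, a2, a3, a4, a5, a6, a7⟩ := h1 l hl
    obtain ⟨c1, c2⟩ := h2 l hl
    rw [wv_eq_NTree A W x Q l 0 (v := 1 + 7 * l) (by norm_num) (by omega),
      wv_eq_NTree A W x Q l 1 (v := 2 + 7 * l) (by norm_num) (by omega),
      wv_eq_NTree A W x Q l 2 (v := 3 + 7 * l) (by norm_num) (by omega),
      wv_eq_NTree A W x Q l 3 (v := 4 + 7 * l) (by norm_num) (by omega),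
      wv_eq_NTree A W x Q l 4 (v := 5 + 7 * l) (by norm_num) (by omega),
      wv_eq_NTree A W x Q l 5 (v := 6 + 7 * l) (by norm_num) (by omega),
      wv_eq_NTree A W x Q l 6 (v := 7 + 7 * l) (by norm_num) (by omega),
      wv_eq_NTree A W x Q (l + 1) 0 (v := 8 + 7 * l) (by norm_num) (by omega),
      wv_eq_NTree A W x Q (l + 1) 1 (v := 9 + 7 * l) (by norm_num) (by omega)]
    simp only [pk_NTree]
    have c3 : W (l + 1) = (1 - x l) * W l := by linarith
    refine ⟨?_, c1, a5, trivial, c3, trivial, ?_, by nlinarith, a7, c2⟩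
    · simp [wv_NTree]
    · rw [c3, a5]
      ring

theorem exists_w_NTree {A W x Q : ℕ → ℝ} (h : Rl A W x Q) :
    ∃ w : ℕ → ℝ, Rv w ∧ ∀ l ≤ 3, w (1 + 7 * l) = A l ∧ w (2 + 7 * l) = W l ∧
      w (3 + 7 * l) = x l ∧ w (7 + 7 * l) = Q l := by
  refine ⟨wv_NTree (fun l => if l ≤ 3 then A l else 0)
    (fun l => if l ≤ 3 then W l else W 3 - A 3) x Q, rv_NTree (fun j hj => ?_) (fun j hj => ?_)
      (by simp), fun l hl => ?_⟩
  · simp only [if_pos hj]
    exact h.1 j hj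
  · simp only [if_pos hj]
    by_cases h3 : j + 1 ≤ 3
    · simp only [if_pos h3]
      exact h.2 j (by omega)
    · simp only [if_neg h3]
      obtain rfl : j = 3 := by omega
      obtain ⟨a1, -, a3, -, a5, -, -⟩ := h.1 3 le_rfl
      exact ⟨by ring, a5 ▸ mul_nonneg a3 a1⟩
  · rw [wv_eq_NTree _ _ x Q l 0 (v := 1 + 7 * l) (by norm_num) (by omega),
      wv_eq_NTree _ _ x Q l 1 (v := 2 + 7 * l) (by norm_num) (by omega),
      wv_eq_NTree _ _ x Q l 2 (v := 3 + 7 * l) (by norm_num) (by omega),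
      wv_eq_NTree _ _ x Q l 6 (v := 7 + 7 * l) (by norm_num) (by omega)]
    simp only [pk_NTree, if_pos hl, and_self]

theorem sq_cast_NTree (a : ℕ) : ((sq a : ℕ) : ℝ) = (a : ℝ) ^ 2 := by
  unfold sq
  rw [Nat.mul_eq]
  push_cast
  ring

theorem lo_NTree {a m : ℕ} {α : ℝ} (h0 : 0 ≤ α) (h : sq a ≤ m) (hm : (m : ℝ) ≤ α ^ 2 * 2 ^ 24) :
    (a : ℝ) / 2 ^ 12 ≤ α := by
  have h' : ((sq a : ℕ) : ℝ) ≤ m := by exact_mod_cast h
  rw [sq_cast_NTree] at h'
  rw [div_le_iff₀ (by positivity)]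
  refine le_of_sq_le_sq ?_ (by positivity)
  nlinarith

theorem hi_NTree {a m : ℕ} {α : ℝ} (h : m ≤ sq a) (hm : α ^ 2 * 2 ^ 24 ≤ (m : ℝ)) :
    α ≤ (a : ℝ) / 2 ^ 12 := by
  have h' : (m : ℝ) ≤ ((sq a : ℕ) : ℝ) := by exact_mod_cast h
  rw [sq_cast_NTree] at h'
  rw [le_div_iff₀ (by positivity)]
  refine le_of_sq_le_sq ?_ (by positivity)
  nlinarith

theorem lfc_NTree {r U1 B k e N : ℕ} {U0 : ℤ} {f : (Fin N → Bool) → ℝ} {A W x Q w : ℕ → ℝ}
    (hk : k ≤ 3) (h : lfc U0 U1 B k e = true) (hc : CellN r e) (hB : InB B w)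
    (hw : ∀ l ≤ 3, w (1 + 7 * l) = A l ∧ w (2 + 7 * l) = W l ∧ w (3 + 7 * l) = x l ∧
      w (7 + 7 * l) = Q l) (hL : Lev f A W x Q k) (hW : W 0 ≤ 1) :
    FF ((r : ℝ) / 256) f * 2 ^ 22 ≤ U0 - U1 * (1 - W 0) := by
  unfold lfc at h
  simp only [an_eq, allN_iff, zle_iff, Nat.ble_eq] at h
  obtain ⟨h1, h2, h3, h4, h5, h6, h7⟩ := h
  obtain ⟨m, f', α, a, ω, hC, hF, hω0, hω, hα, ha, hQ⟩ := hL
  obtain ⟨-, k2, k3, k4⟩ := hw k hk
  have b2 := hB (2 + 7 * k) (by omega)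
  have b3 := hB (3 + 7 * k) (by omega)
  have b4 := hB (7 + 7 * k) (by omega)
  rw [k2, ← hω] at b2
  rw [k3] at b3
  rw [k4, ← hQ] at b4
  have h4' : (bhi B (3 + 7 * k) : ℝ) ≤ 65536 * fd e 8 := by exact_mod_cast h4
  have h5' : 4096 * (fd e 9 : ℝ) ≤ blo B (7 + 7 * k) := by exact_mod_cast h5
  have h6' : (bhi B (7 + 7 * k) : ℝ) ≤ 4096 * fd e 10 := by exact_mod_cast h6
  have key := hc m f' α a ω hC (fun j hj => ?_) (lo_NTree hω0 h2 b2.1) (hi_NTree h3 b2.2)
    (fun i => (ha i).trans (by linarith [b3.2])) (by linarith [b4.1]) (by linarith [b4.2])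
  · rw [hF] at key
    have key' : FF ((r : ℝ) / 256) f ≤ (iv e 11 : ℝ) / 2 ^ 22 := key
    have b0 := (hB 2 (by norm_num)).1
    rw [show w 2 = W 0 from (hw 0 (by norm_num)).2.1] at b0
    have b1 : blo B 2 ≤ 16777216 := by
      have : (blo B 2 : ℝ) ≤ 16777216 := by linarith
      exact_mod_cast this
    have h7' : (16777216 : ℝ) * iv e 11 + U1 * (16777216 - blo B 2) ≤ 16777216 * U0 := by
      have := (Int.cast_le (R := ℝ)).2 h7
      rw [Int.ofNat_eq_natCast] at this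
      push_cast [Nat.cast_sub b1] at this
      exact this
    have h8 : (U1 : ℝ) * (16777216 * (1 - W 0)) ≤ U1 * (16777216 - blo B 2) :=
      mul_le_mul_of_nonneg_left (by linarith) (Nat.cast_nonneg _)
    rw [le_div_iff₀ (by positivity)] at key'
    linarith
  · have hj1 := h1 j hj
    obtain ⟨α0, α2⟩ := hα j hj
    rw [ifb_eq] at hj1
    change (fd e j : ℝ) / 2 ^ 12 ≤ α j ∧ α j ≤ (fd e (3 + j) : ℝ) / 2 ^ 12
    by_cases hjk : j < k
    · rw [if_neg (by rw [Nat.ble_eq]; omega), an_eq, Nat.ble_eq, Nat.ble_eq] at hj1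
      rw [if_pos hjk] at α2
      have b := hB (1 + 7 * j) (by omega)
      rw [(hw j (by omega)).1, ← α2] at b
      exact ⟨lo_NTree α0 hj1.1 b.1, hi_NTree hj1.2 b.2⟩
    · rw [if_pos (by rw [Nat.ble_eq]; omega), Nat.beq_eq] at hj1
      rw [if_neg hjk] at α2
      have : α j = 0 := (pow_eq_zero_iff two_ne_zero).1 α2
      rw [hj1, this]
      exact ⟨by simp, by positivity⟩

theorem lfk_NTree {r ws U1 CL n B c N : ℕ} {U0 : ℤ} {f : (Fin N → Bool) → ℝ} {A W x Q w : ℕ → ℝ}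
    (h : lfk ws U0 U1 CL n B c = true) (hc : ∀ j, 0 ≤ j → j < n → CellN r (cel CL j))
    (hB : InB B w)
    (hw : ∀ l ≤ 3, w (1 + 7 * l) = A l ∧ w (2 + 7 * l) = W l ∧ w (3 + 7 * l) = x l ∧
      w (7 + 7 * l) = Q l) (hL : ∀ k ≤ 3, Lev f A W x Q k) (hW : W 0 ≤ 1) :
    W 0 * 2 ^ 24 < ws ∨ FF ((r : ℝ) / 256) f * 2 ^ 22 ≤ U0 - U1 * (1 - W 0) := by
  unfold lfk at h
  rw [ifz_eq] at h
  split_ifs at h with h0
  · rw [frc_eq, frc_eq, an_eq, frc_eq, Nat.blt_eq] at h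
    have hk : c / 16384 % 4 ≤ 3 := by omega
    exact Or.inr (lfc_NTree hk h.2 (hc _ (Nat.zero_le _) h.1) hB hw (hL _ hk) hW)
  · rw [ifb_eq] at h
    split_ifs at h with h1
    · rw [an_eq, Nat.ble_eq, Nat.blt_eq] at h
      have b := hB _ h.1
      have : (bhi B (c / 4 % 4096) : ℝ) < blo B (c / 4 % 4096) := by exact_mod_cast h.2
      linarith [b.1, b.2]
    · rw [Nat.blt_eq] at h
      have b := (hB 2 (by norm_num)).2
      rw [show w 2 = W 0 from (hw 0 (by norm_num)).2.1] at b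
      have : (bhi B 2 : ℝ) < ws := by exact_mod_cast h
      exact Or.inl (by linarith)

theorem tchk_l_NTree (ws : ℕ) (U0 : ℤ) (U1 CL n c B : ℕ) :
    tchk ws U0 U1 CL n (Tq.l c) B =
      frc (aps 200 B (Nat.shiftRight c 16)) fun B' => lfk ws U0 U1 CL n B' c := by
  unfold tchk
  rfl

theorem tchk_s_NTree (ws : ℕ) (U0 : ℤ) (U1 CL n c B : ℕ) (p q : Tq) :
    tchk ws U0 U1 CL n (Tq.s c p q) B =
      frc (aps 200 B (Nat.shiftRight c 30)) fun B' =>
        frc (c % 32) fun v => frc (c / 32 % 33554432) fun m =>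
        an (Nat.ble v 30) (an (frc (shi B' v m) (tchk ws U0 U1 CL n p))
          (frc (slo B' v m) (tchk ws U0 U1 CL n q))) := by
  unfold tchk
  rfl

theorem tchk_NTree {ws U1 CL n : ℕ} {U0 : ℤ} {w : ℕ → ℝ} (hw : Rv w) {G : Prop}
    (hG : ∀ B c, lfk ws U0 U1 CL n B c = true → InB B w → G) (t : Tq) :
    ∀ B, tchk ws U0 U1 CL n t B = true → InB B w → G := by
  induction t with
  | l c =>
    intro B h hB
    rw [tchk_l_NTree, frc_eq] at h
    exact hG _ _ h (InB.aps hw 200 _ _ hB)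
  | s c p q ihp ihq =>
    intro B h hB
    rw [tchk_s_NTree, frc_eq, frc_eq, frc_eq, an_eq, an_eq, frc_eq, frc_eq] at h
    have hB' := InB.aps hw 200 B (Nat.shiftRight c 30) hB
    rcases le_total (w (c % 32) * 2 ^ 24) ((c / 32 % 33554432 : ℕ) : ℝ) with h1 | h1
    · exact ihp _ h.2.1 (hB'.shi h1)
    · exact ihq _ h.2.2 (hB'.slo h1)

theorem tree_sound {r b ws U1 CL n : ℕ} {U0 : ℤ} {t : Tq} (h : treeChk b ws U0 U1 CL n t = true)
    (hc : ∀ j, 0 ≤ j → j < n → CellN r (cel CL j)) {bb w u0 u1 : ℝ} (hb : bb * 2 ^ 12 ≤ b)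
    (hw : (ws : ℝ) ≤ w * 2 ^ 24) (h0 : (U0 : ℝ) ≤ u0 * 2 ^ 22) (h1 : u1 * 2 ^ 22 ≤ U1) :
    Grid ((r : ℝ) / 256) bb w u0 u1 := by
  intro N f hf hbb
  obtain ⟨A, W, x, Q, hR, hW, hA, hL⟩ := exists_val hf
  obtain ⟨v, hv, hv'⟩ := exists_w_NTree hR
  unfold treeChk at h
  rw [frc_eq, frc_eq] at h
  have hW1 : W 0 ≤ 1 := (hR.1 0 (by norm_num)).2.1
  have hA' := hA ((b : ℝ) / 2 ^ 12) fun i =>
    (hbb i).trans (by rw [le_div_iff₀ (by positivity)]; exact hb)
  have hroot : InB (root b) v := InB.root hv (by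
    rw [show v 1 = A 0 from (hv' 0 (by norm_num)).1]
    rw [div_pow, le_div_iff₀ (by positivity)] at hA'
    linarith)
  have key := tchk_NTree hv (fun B c hl hB => lfk_NTree hl hc hB hv' hL hW1) t _ h hroot
  rw [← hW]
  rcases key with key | key
  · exact Or.inl (by linarith)
  · refine Or.inr ?_
    have : u1 * 2 ^ 22 * (1 - W 0) ≤ U1 * (1 - W 0) :=
      mul_le_mul_of_nonneg_right h1 (by linarith)
    linarith

end Pool.Agent.MP_ebf981_lc.N9

end
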