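import Mathlib

section

/-! Packed tensors of natural numbers: 343 digits of 140 bits. -/

namespace Pool.Agent.MP_ebf981_lc

open Finset

/-- digit in base `2 ^ 140` -/
def dig (C i : ℕ) : ℕ := C / 2 ^ (140 * i) % 2 ^ 140

theorem dig_zero (C : ℕ) : dig C 0 = C % 2 ^ 140 := by simp only [dig, mul_zero, pow_zero, Nat.div_one]

theorem dig_shift (C j i : ℕ) : dig (C / 2 ^ (140 * j)) i = dig C (i + j) := by
  unfold dig
  rw [Nat.div_div_eq_div_mul, ← pow_add, ← mul_add, add_comm j]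

theorem dig_succ (C i : ℕ) : dig C (i + 1) = dig (C / 2 ^ 140) i := by
  rw [← dig_shift, mul_one]

theorem dig_lt (C i : ℕ) : dig C i < 2 ^ 140 := Nat.mod_lt _ (by positivity)

theorem dig_land (A B i : ℕ) : dig (A &&& B) i = dig A i &&& dig B i := by
  unfold dig
  rw [Nat.and_div_two_pow, Nat.and_mod_two_pow]

/-- packing of a sequence -/
def pk1 (n : ℕ) (f : ℕ → ℕ) : ℕ := ∑ i ∈ range n, f i * 2 ^ (140 * i)

theorem pk1_succ (n : ℕ) (f : ℕ → ℕ) :
    pk1 (n + 1) f = f 0 + 2 ^ 140 * pk1 n (fun i => f (i + 1)) := by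
  unfold pk1
  rw [sum_range_succ', mul_sum, add_comm]
  simp only [mul_zero, pow_zero, mul_one]
  refine congrArg (fun t => f 0 + t) (sum_congr rfl fun i _ => ?_)
  rw [mul_add, mul_one, pow_add, ← mul_assoc, mul_comm _ (2 ^ 140)]

theorem dig_pk1 (n : ℕ) : ∀ f : ℕ → ℕ, (∀ i < n, f i < 2 ^ 140) →
    (∀ i < n, dig (pk1 n f) i = f i) ∧ pk1 n f < 2 ^ (140 * n) := by
  induction n with
  | zero => intro f _; exact ⟨fun i hi => absurd hi (by omega), by simp [pk1]⟩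
  | succ n ih =>
    intro f h
    have h0 := h 0 (by omega)
    obtain ⟨h1, h2⟩ := ih (fun i => f (i + 1)) (fun i hi => h _ (by omega))
    rw [pk1_succ]
    constructor
    · intro i hi
      rcases i with _ | i
      · rw [dig_zero, Nat.add_mul_mod_self_left, Nat.mod_eq_of_lt h0]
      · rw [dig_succ, Nat.add_mul_div_left _ _ (by positivity), Nat.div_eq_of_lt h0, zero_add]
        exact h1 i (by omega)
    · rw [mul_add, mul_one, pow_add, mul_comm (2 ^ (140 * n))]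
      generalize (2 : ℕ) ^ 140 = X at *
      calc f 0 + X * pk1 n (fun i => f (i + 1)) < X * (pk1 n (fun i => f (i + 1)) + 1) := by
            rw [mul_add, mul_one]; omega
        _ ≤ X * 2 ^ (140 * n) := Nat.mul_le_mul_left _ h2

theorem pk1_dig (n : ℕ) : ∀ C : ℕ, C < 2 ^ (140 * n) → C = pk1 n (dig C) := by
  induction n with
  | zero => intro C h; simp at h; simp [pk1, h]
  | succ n ih =>
    intro C h
    rw [pk1_succ, dig_zero]
    have h1 : C / 2 ^ 140 < 2 ^ (140 * n) := by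
      rw [Nat.div_lt_iff_lt_mul (by positivity), ← pow_add]
      exact h
    have h2 := ih _ h1
    have h3 : (fun i => dig C (i + 1)) = dig (C / 2 ^ 140) := funext fun i => dig_succ C i
    rw [h3, ← h2, Nat.mod_add_div]

theorem sum_range_mul' {M : Type} [AddCommMonoid M] (m n : ℕ) (F : ℕ → M) :
    ∑ i ∈ range (m * n), F i = ∑ a ∈ range m, ∑ b ∈ range n, F (n * a + b) := by
  induction m with
  | zero => simp
  | succ m ih => rw [Nat.succ_mul, sum_range_add, ih, sum_range_succ, mul_comm n m]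

/-- packing of a tensor -/
def pk3 (f : ℕ → ℕ → ℕ → ℕ) : ℕ :=
  ∑ a ∈ range 7, ∑ b ∈ range 7, ∑ c ∈ range 7, f a b c * 2 ^ (140 * (49 * a + 7 * b + c))

theorem pk3_eq (g : ℕ → ℕ) : pk1 343 g = pk3 (fun a b c => g (49 * a + 7 * b + c)) := by
  unfold pk1 pk3
  rw [show 343 = 7 * 49 from rfl, sum_range_mul']
  refine sum_congr rfl fun a _ => ?_
  rw [show range 49 = range (7 * 7) from rfl, sum_range_mul']
  refine sum_congr rfl fun b _ => sum_congr rfl fun c _ => ?_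
  simp only [add_assoc]

theorem pk3_congr {f g : ℕ → ℕ → ℕ → ℕ} (h : ∀ a < 7, ∀ b < 7, ∀ c < 7, f a b c = g a b c) :
    pk3 f = pk3 g :=
  sum_congr rfl fun a ha => sum_congr rfl fun b hb => sum_congr rfl fun c hc => by
    rw [h a (mem_range.1 ha) b (mem_range.1 hb) c (mem_range.1 hc)]

theorem pk3_eq' (f : ℕ → ℕ → ℕ → ℕ) :
    pk3 f = pk1 343 (fun i => f (i / 49) (i / 7 % 7) (i % 7)) := by
  rw [pk3_eq]
  refine pk3_congr fun a _ b hb c hc => ?_
  congr 1 <;> omega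

/-- entries below a bound -/
def Bd (M : ℕ) (f : ℕ → ℕ → ℕ → ℕ) : Prop := ∀ a < 7, ∀ b < 7, ∀ c < 7, f a b c < M

theorem dig_pk3 {f : ℕ → ℕ → ℕ → ℕ} (h : Bd (2 ^ 140) f) :
    (∀ a < 7, ∀ b < 7, ∀ c < 7, dig (pk3 f) (49 * a + 7 * b + c) = f a b c) ∧
      pk3 f < 2 ^ (140 * 343) := by
  rw [pk3_eq']
  obtain ⟨h1, h2⟩ := dig_pk1 343 (fun i => f (i / 49) (i / 7 % 7) (i % 7))
    (fun i hi => h _ (by omega) _ (by omega) _ (by omega))
  refine ⟨fun a ha b hb c hc => ?_, h2⟩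
  rw [h1 _ (by omega)]
  congr 1 <;> omega

theorem pk3_dig {C : ℕ} (h : C < 2 ^ (140 * 343)) :
    C = pk3 (fun a b c => dig C (49 * a + 7 * b + c)) := by
  rw [← pk3_eq]
  exact pk1_dig 343 C h

theorem land_pk3 (A : ℕ) {m : ℕ → ℕ → ℕ → ℕ} (hm : Bd (2 ^ 140) m) :
    A &&& pk3 m = pk3 (fun a b c => dig A (49 * a + 7 * b + c) &&& m a b c) := by
  obtain ⟨h1, h2⟩ := dig_pk3 hm
  rw [pk3_dig (lt_of_le_of_lt (Nat.and_le_right (n := A)) h2)]
  refine pk3_congr fun a ha b hb c hc => ?_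
  rw [dig_land, h1 a ha b hb c hc]

theorem pk3_add (f g : ℕ → ℕ → ℕ → ℕ) :
    pk3 (fun a b c => f a b c + g a b c) = pk3 f + pk3 g := by
  simp only [pk3, add_mul, sum_add_distrib]

theorem pk3_mul (k : ℕ) (f : ℕ → ℕ → ℕ → ℕ) :
    pk3 (fun a b c => k * f a b c) = k * pk3 f := by
  simp only [pk3, mul_sum, mul_assoc]

theorem pk3_sum (F : ℕ → ℕ → ℕ → ℕ → ℕ) (n : ℕ) :
    pk3 (fun a b c => ∑ j ∈ range n, F j a b c) = ∑ j ∈ range n, pk3 (F j) := by
  induction n with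
  | zero => simp [pk3]
  | succ n ih => simp only [sum_range_succ, pk3_add, ih]

def mk0 : ℕ := 2 ^ (140 * 49) - 1
def mk1 : ℕ := (2 ^ (140 * 7) - 1) * ((2 ^ (140 * 343) - 1) / (2 ^ (140 * 49) - 1))
def mk2 : ℕ := (2 ^ 140 - 1) * ((2 ^ (140 * 343) - 1) / (2 ^ (140 * 7) - 1))
def ones : ℕ := (2 ^ (140 * 343) - 1) / (2 ^ 140 - 1)

theorem mk0_eq : mk0 = pk3 (fun a _ _ => if a = 0 then 2 ^ 140 - 1 else 0) := by decide +kernel
theorem mk1_eq : mk1 = pk3 (fun _ b _ => if b = 0 then 2 ^ 140 - 1 else 0) := by decide +kernel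
theorem mk2_eq : mk2 = pk3 (fun _ _ c => if c = 0 then 2 ^ 140 - 1 else 0) := by decide +kernel
theorem ones_eq : ones = pk3 (fun _ _ _ => 1) := by decide +kernel

theorem and_full {x : ℕ} (h : x < 2 ^ 140) : x &&& (2 ^ 140 - 1) = x := by
  rw [Nat.and_two_pow_sub_one_eq_mod, Nat.mod_eq_of_lt h]

theorem bd_ite (p : ℕ → ℕ → ℕ → Prop) [∀ a b c, Decidable (p a b c)] :
    Bd (2 ^ 140) (fun a b c => if p a b c then 2 ^ 140 - 1 else 0) := by
  intro a _ b _ c _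
  have : 0 < 2 ^ 140 := by positivity
  simp only
  split_ifs <;> omega

theorem row0 {f : ℕ → ℕ → ℕ → ℕ} (h : Bd (2 ^ 140) f) {j : ℕ} (hj : j < 7) :
    (pk3 f >>> (j * 6860)) &&& mk0 = pk3 (fun a b c => if a = 0 then f j b c else 0) := by
  rw [mk0_eq, land_pk3 _ (bd_ite fun a _ _ => a = 0), Nat.shiftRight_eq_div_pow,
    show j * 6860 = 140 * (49 * j) by ring]
  refine pk3_congr fun a ha b hb c hc => ?_
  split_ifs with h0
  · rw [and_full (dig_lt _ _), dig_shift, h0, ← (dig_pk3 h).1 j hj b hb c hc]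
    congr 1; ring
  · exact Nat.and_zero _

theorem row1 {f : ℕ → ℕ → ℕ → ℕ} (h : Bd (2 ^ 140) f) {j : ℕ} (hj : j < 7) :
    (pk3 f >>> (j * 980)) &&& mk1 = pk3 (fun a b c => if b = 0 then f a j c else 0) := by
  rw [mk1_eq, land_pk3 _ (bd_ite fun _ b _ => b = 0), Nat.shiftRight_eq_div_pow,
    show j * 980 = 140 * (7 * j) by ring]
  refine pk3_congr fun a ha b hb c hc => ?_
  split_ifs with h0
  · rw [and_full (dig_lt _ _), dig_shift, h0, ← (dig_pk3 h).1 a ha j hj c hc]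
    congr 1; ring
  · exact Nat.and_zero _

theorem row2 {f : ℕ → ℕ → ℕ → ℕ} (h : Bd (2 ^ 140) f) {j : ℕ} (hj : j < 7) :
    (pk3 f >>> (j * 140)) &&& mk2 = pk3 (fun a b c => if c = 0 then f a b j else 0) := by
  rw [mk2_eq, land_pk3 _ (bd_ite fun _ _ c => c = 0), Nat.shiftRight_eq_div_pow,
    show j * 140 = 140 * j by ring]
  refine pk3_congr fun a ha b hb c hc => ?_
  split_ifs with h0
  · rw [and_full (dig_lt _ _), dig_shift, h0, ← (dig_pk3 h).1 a ha b hb j hj, add_zero]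
  · exact Nat.and_zero _

theorem sum_one {k : ℕ} (hk : k < 7) (F : ℕ → ℕ) (h : ∀ a, a ≠ k → F a = 0) :
    ∑ a ∈ range 7, F a = F k :=
  sum_eq_single_of_mem k (mem_range.2 hk) fun a _ ha => h a ha

theorem put0 (g : ℕ → ℕ → ℕ) {k : ℕ} (hk : k < 7) :
    pk3 (fun a b c => if a = 0 then g b c else 0) * 2 ^ (k * 6860) =
      pk3 (fun a b c => if a = k then g b c else 0) := by
  unfold pk3
  conv_lhs => rw [sum_one (k := 0) (by norm_num) _ (fun a ha => by simp [ha])]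
  conv_rhs => rw [sum_one hk _ (fun a ha => by simp [ha])]
  simp only [sum_mul, if_true]
  refine sum_congr rfl fun b _ => sum_congr rfl fun c _ => ?_
  rw [mul_assoc, ← pow_add, show 140 * (49 * 0 + 7 * b + c) + k * 6860 =
    140 * (49 * k + 7 * b + c) by omega]

theorem put1 (g : ℕ → ℕ → ℕ) {k : ℕ} (hk : k < 7) :
    pk3 (fun a b c => if b = 0 then g a c else 0) * 2 ^ (k * 980) =
      pk3 (fun a b c => if b = k then g a c else 0) := by
  unfold pk3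
  rw [sum_mul]
  refine sum_congr rfl fun a _ => ?_
  conv_lhs => rw [sum_one (k := 0) (by norm_num) _ (fun a ha => by simp [ha])]
  conv_rhs => rw [sum_one hk _ (fun a ha => by simp [ha])]
  simp only [sum_mul, if_true]
  refine sum_congr rfl fun c _ => ?_
  rw [mul_assoc, ← pow_add, show 140 * (49 * a + 7 * 0 + c) + k * 980 =
    140 * (49 * a + 7 * k + c) by omega]

theorem put2 (g : ℕ → ℕ → ℕ) {k : ℕ} (hk : k < 7) :
    pk3 (fun a b c => if c = 0 then g a b else 0) * 2 ^ (k * 140) =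
      pk3 (fun a b c => if c = k then g a b else 0) := by
  unfold pk3
  rw [sum_mul]
  refine sum_congr rfl fun a _ => ?_
  rw [sum_mul]
  refine sum_congr rfl fun b _ => ?_
  conv_lhs => rw [sum_one (k := 0) (by norm_num) _ (fun a ha => by simp [ha])]
  conv_rhs => rw [sum_one hk _ (fun a ha => by simp [ha])]
  simp only [if_true]
  rw [mul_assoc, ← pow_add, show 140 * (49 * a + 7 * b + 0) + k * 140 =
    140 * (49 * a + 7 * b + k) by omega]

/-- a linear map along one direction, on packed tensors -/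
def rmap (w : ℕ → ℕ → ℕ) (s m T : ℕ) : ℕ :=
  ∑ k ∈ range 7, (∑ j ∈ range 7, w k j * ((T >>> (j * s)) &&& m)) * 2 ^ (k * s)

def lin (w : ℕ → ℕ → ℕ) (g : ℕ → ℕ) (k : ℕ) : ℕ := ∑ j ∈ range 7, w k j * g j

theorem rmap0 (w : ℕ → ℕ → ℕ) {f : ℕ → ℕ → ℕ → ℕ} (h : Bd (2 ^ 140) f) :
    rmap w 6860 mk0 (pk3 f) = pk3 (fun a b c => lin w (fun j => f j b c) a) := by
  have e : ∀ k ∈ range 7, (∑ j ∈ range 7, w k j * ((pk3 f >>> (j * 6860)) &&& mk0)) * 2 ^ (k * 6860)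
      = pk3 (fun a b c => if a = k then lin w (fun j => f j b c) k else 0) := by
    intro k hk
    rw [← put0 _ (mem_range.1 hk), sum_congr rfl fun j hj => by
      rw [row0 h (mem_range.1 hj), ← pk3_mul], ← pk3_sum]
    refine congrArg₂ HMul.hMul (pk3_congr fun a _ b _ c _ => ?_) rfl
    split_ifs <;> simp [lin]
  rw [rmap, sum_congr rfl e, ← pk3_sum]
  refine pk3_congr fun a ha b _ c _ => ?_
  rw [sum_ite_eq, if_pos (mem_range.2 ha)]

theorem rmap1 (w : ℕ → ℕ → ℕ) {f : ℕ → ℕ → ℕ → ℕ} (h : Bd (2 ^ 140) f) :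
    rmap w 980 mk1 (pk3 f) = pk3 (fun a b c => lin w (fun j => f a j c) b) := by
  have e : ∀ k ∈ range 7, (∑ j ∈ range 7, w k j * ((pk3 f >>> (j * 980)) &&& mk1)) * 2 ^ (k * 980)
      = pk3 (fun a b c => if b = k then lin w (fun j => f a j c) k else 0) := by
    intro k hk
    rw [← put1 (fun a c => lin w (fun j => f a j c) k) (mem_range.1 hk), sum_congr rfl fun j hj => by
      rw [row1 h (mem_range.1 hj), ← pk3_mul], ← pk3_sum]
    refine congrArg₂ HMul.hMul (pk3_congr fun a _ b _ c _ => ?_) rfl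
    split_ifs <;> simp [lin]
  rw [rmap, sum_congr rfl e, ← pk3_sum]
  refine pk3_congr fun a _ b hb c _ => ?_
  rw [sum_ite_eq, if_pos (mem_range.2 hb)]

theorem rmap2 (w : ℕ → ℕ → ℕ) {f : ℕ → ℕ → ℕ → ℕ} (h : Bd (2 ^ 140) f) :
    rmap w 140 mk2 (pk3 f) = pk3 (fun a b c => lin w (fun j => f a b j) c) := by
  have e : ∀ k ∈ range 7, (∑ j ∈ range 7, w k j * ((pk3 f >>> (j * 140)) &&& mk2)) * 2 ^ (k * 140)
      = pk3 (fun a b c => if c = k then lin w (fun j => f a b j) k else 0) := by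
    intro k hk
    rw [← put2 (fun a b => lin w (fun j => f a b j) k) (mem_range.1 hk), sum_congr rfl fun j hj => by
      rw [row2 h (mem_range.1 hj), ← pk3_mul], ← pk3_sum]
    refine congrArg₂ HMul.hMul (pk3_congr fun a _ b _ c _ => ?_) rfl
    split_ifs <;> simp [lin]
  rw [rmap, sum_congr rfl e, ← pk3_sum]
  refine pk3_congr fun a _ b _ c hc => ?_
  rw [sum_ite_eq, if_pos (mem_range.2 hc)]

def mlow : ℕ := (2 ^ 134 - 1) * ones

/-- entrywise division by 64 -/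
def flo (S : ℕ) : ℕ := Nat.land (Nat.shiftRight S 6) mlow

theorem flo_eq {f : ℕ → ℕ → ℕ → ℕ} (h : Bd (2 ^ 140) f) :
    flo (pk3 f) = pk3 (fun a b c => f a b c / 64) := by
  have e : mlow = pk3 (fun _ _ _ => 2 ^ 134 - 1) := by
    rw [mlow, ones_eq, ← pk3_mul]; simp only [mul_one]
  change (pk3 f >>> 6) &&& mlow = _
  rw [e, land_pk3 _ (fun _ _ _ _ _ _ => by norm_num)]
  refine pk3_congr fun a ha b hb c hc => ?_
  rw [← (dig_pk3 h).1 a ha b hb c hc, Nat.and_two_pow_sub_one_eq_mod, Nat.shiftRight_eq_div_pow]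
  unfold dig
  rw [Nat.mod_mod_of_dvd _ (pow_dvd_pow 2 (by norm_num)), Nat.div_div_eq_div_mul, mul_comm (2 ^ 6),
    ← Nat.div_div_eq_div_mul, show 2 ^ 140 = 2 ^ 6 * 2 ^ 134 by norm_num,
    show 64 = 2 ^ 6 by norm_num, Nat.mod_mul_right_div_self]

def hi : ℕ := 2 ^ 139 * ones
def off : ℕ := (2 ^ 139 - 2 ^ 132) * ones

/-- all entries at least `2 ^ 132` -/
def leaf (T : ℕ) : Bool := Nat.beq (Nat.land (Nat.add T off) hi) hi

theorem leaf_sound {f : ℕ → ℕ → ℕ → ℕ} (h : Bd (2 ^ 134) f) (hl : leaf (pk3 f) = true) :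
    ∀ a < 7, ∀ b < 7, ∀ c < 7, 2 ^ 132 ≤ f a b c := by
  intro a ha b hb c hc
  have e1 : hi = pk3 (fun _ _ _ => 2 ^ 139) := by
    rw [hi, ones_eq, ← pk3_mul]; simp only [mul_one]
  have e2 : pk3 f + off = pk3 (fun a b c => f a b c + (2 ^ 139 - 2 ^ 132)) := by
    rw [off, ones_eq, ← pk3_mul, ← pk3_add]; simp only [mul_one]
  have h1 : (pk3 f + off) &&& hi = hi := Nat.eq_of_beq_eq_true hl
  have b1 : Bd (2 ^ 140) (fun _ _ _ => 2 ^ 139) := fun _ _ _ _ _ _ => by norm_num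
  have b2 : Bd (2 ^ 140) (fun a b c => f a b c + (2 ^ 139 - 2 ^ 132)) := fun a ha b hb c hc => by
    have := h a ha b hb c hc
    simp only
    omega
  have h2 := congrArg (fun x => dig x (49 * a + 7 * b + c)) h1
  simp only [dig_land] at h2
  rw [e2, e1, (dig_pk3 b1).1 a ha b hb c hc, (dig_pk3 b2).1 a ha b hb c hc] at h2
  have h3 := Nat.and_le_left (n := f a b c + (2 ^ 139 - 2 ^ 132)) (m := 2 ^ 139)
  rw [h2] at h3
  omega

end Pool.Agent.MP_ebf981_lc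

end

section

/-! Bernstein subdivision checker for polynomials in three variables of degree at most six. -/

namespace Pool.Agent.MP_ebf981_lc

open Finset

noncomputable def bb (j : ℕ) (x z : ℝ) : ℝ := (Nat.choose 6 j : ℝ) * x ^ j * z ^ (6 - j)

noncomputable def v1 (g : ℕ → ℝ) (x z : ℝ) : ℝ := ∑ a ∈ range 7, g a * bb a x z

noncomputable def linR (w : ℕ → ℕ → ℕ) (g : ℕ → ℝ) (k : ℕ) : ℝ := ∑ j ∈ range 7, (w k j : ℝ) * g j

def wl (k j : ℕ) : ℕ := 2 ^ (6 - k) * Nat.choose k j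
def wr (k j : ℕ) : ℕ := if k ≤ j then 2 ^ k * Nat.choose (6 - k) (j - k) else 0
def wb (k j : ℕ) : ℕ := 60 / Nat.choose 6 j * Nat.choose k j
def wh (k j : ℕ) : ℕ := if k = j then 60 / Nat.choose 6 j else 0

theorem v1_left (g : ℕ → ℝ) (x z : ℝ) : v1 (linR wl g) (2 * x) (z - x) = 64 * v1 g x z := by
  simp [v1, linR, wl, bb, sum_range_succ, Nat.choose]
  ring

theorem v1_right (g : ℕ → ℝ) (x z : ℝ) : v1 (linR wr g) (x - z) (2 * z) = 64 * v1 g x z := by
  simp [v1, linR, wr, bb, sum_range_succ, Nat.choose]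
  ring

theorem v1_wb (g : ℕ → ℝ) (x : ℝ) :
    v1 (linR wb g) x (1 - x) = 60 * ∑ j ∈ range 7, g j * x ^ j := by
  simp [v1, linR, wb, bb, sum_range_succ, Nat.choose]
  ring

theorem v1_wh (g : ℕ → ℝ) (x : ℝ) :
    v1 (linR wh g) x 1 = 60 * ∑ j ∈ range 7, g j * x ^ j := by
  simp [v1, linR, wh, bb, sum_range_succ, Nat.choose]
  ring

theorem v1_mono {g g' : ℕ → ℝ} (h : ∀ a < 7, g a ≤ g' a) {x z : ℝ} (hx : 0 ≤ x) (hz : 0 ≤ z) :
    v1 g x z ≤ v1 g' x z :=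
  sum_le_sum fun a ha => mul_le_mul_of_nonneg_right (h a (mem_range.1 ha))
    (by unfold bb; positivity)

theorem v1_mul (t : ℝ) (g : ℕ → ℝ) (x z : ℝ) : v1 (fun a => t * g a) x z = t * v1 g x z := by
  simp only [v1, mul_sum, mul_assoc]

theorem v1_lin (w : ℕ → ℕ → ℕ) (G : ℕ → ℕ → ℝ) (k : ℕ) (y y' : ℝ) :
    v1 (fun b => linR w (fun j => G j b) k) y y' = linR w (fun j => v1 (G j) y y') k := by
  simp only [v1, linR, sum_mul, mul_sum, mul_assoc]
  rw [sum_comm]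

noncomputable def val (F : ℕ → ℕ → ℕ → ℝ) (x x' y y' z z' : ℝ) : ℝ :=
  v1 (fun a => v1 (fun b => v1 (fun c => F a b c) z z') y y') x x'

def GoodF (F : ℕ → ℕ → ℕ → ℝ) : Prop :=
  ∀ x x' y y' z z' : ℝ, 0 ≤ x → 0 ≤ x' → 0 ≤ y → 0 ≤ y' → 0 ≤ z → 0 ≤ z' →
    0 ≤ val F x x' y y' z z'

theorem GoodF.mono {F G : ℕ → ℕ → ℕ → ℝ} (hF : GoodF F) {t : ℝ} (ht : 0 ≤ t)
    (h : ∀ a < 7, ∀ b < 7, ∀ c < 7, t * F a b c ≤ G a b c) : GoodF G := by
  intro x x' y y' z z' hx hx' hy hy' hz hz'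
  have h1 := mul_nonneg ht (hF x x' y y' z z' hx hx' hy hy' hz hz')
  refine h1.trans ?_
  unfold val
  simp only [← v1_mul]
  exact v1_mono (fun a ha => v1_mono (fun b hb => v1_mono (fun c hc => h a ha b hb c hc)
    hz hz') hy hy') hx hx'

theorem goodF_zero : GoodF (fun _ _ _ => 0) := by
  intro x x' y y' z z' _ _ _ _ _ _
  simp [val, v1]

theorem split0 {F : ℕ → ℕ → ℕ → ℝ} (hl : GoodF (fun a b c => linR wl (fun j => F j b c) a))
    (hr : GoodF (fun a b c => linR wr (fun j => F j b c) a)) : GoodF F := by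
  intro x x' y y' z z' hx hx' hy hy' hz hz'
  rcases le_total x x' with h | h
  · have := hl (2 * x) (x' - x) y y' z z' (by linarith) (by linarith) hy hy' hz hz'
    unfold val at this ⊢
    simp only [v1_lin] at this
    rw [v1_left] at this
    linarith
  · have := hr (x - x') (2 * x') y y' z z' (by linarith) (by linarith) hy hy' hz hz'
    unfold val at this ⊢
    simp only [v1_lin] at this
    rw [v1_right] at this
    linarith

theorem split1 {F : ℕ → ℕ → ℕ → ℝ} (hl : GoodF (fun a b c => linR wl (fun j => F a j c) b))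
    (hr : GoodF (fun a b c => linR wr (fun j => F a j c) b)) : GoodF F := by
  intro x x' y y' z z' hx hx' hy hy' hz hz'
  rcases le_total y y' with h | h
  · have := hl x x' (2 * y) (y' - y) z z' hx hx' (by linarith) (by linarith) hz hz'
    unfold val at this ⊢
    simp only [v1_lin] at this
    simp only [v1_left, v1_mul] at this
    linarith
  · have := hr x x' (y - y') (2 * y') z z' hx hx' (by linarith) (by linarith) hz hz'
    unfold val at this ⊢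
    simp only [v1_lin] at this
    simp only [v1_right, v1_mul] at this
    linarith

theorem split2 {F : ℕ → ℕ → ℕ → ℝ} (hl : GoodF (fun a b c => linR wl (fun j => F a b j) c))
    (hr : GoodF (fun a b c => linR wr (fun j => F a b j) c)) : GoodF F := by
  intro x x' y y' z z' hx hx' hy hy' hz hz'
  rcases le_total z z' with h | h
  · have := hl x x' y y' (2 * z) (z' - z) hx hx' hy hy' (by linarith) (by linarith)
    unfold val at this ⊢
    simp only [v1_left, v1_mul] at this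
    linarith
  · have := hr x x' y y' (z - z') (2 * z') hx hx' hy hy' (by linarith) (by linarith)
    unfold val at this ⊢
    simp only [v1_right, v1_mul] at this
    linarith

theorem lin_lt {w : ℕ → ℕ → ℕ} {S M : ℕ} (hw : ∀ k < 7, ∑ j ∈ range 7, w k j ≤ S) (hS : 0 < S)
    {g : ℕ → ℕ} (hg : ∀ j < 7, g j < M) {k : ℕ} (hk : k < 7) : lin w g k < S * M := by
  have hM : 0 < M := lt_of_le_of_lt (Nat.zero_le _) (hg 0 (by norm_num))
  obtain ⟨M, rfl⟩ : ∃ t, M = t + 1 := ⟨M - 1, by omega⟩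
  calc lin w g k ≤ ∑ j ∈ range 7, w k j * M :=
        sum_le_sum fun j hj => Nat.mul_le_mul_left _ (Nat.lt_succ_iff.1 (hg j (mem_range.1 hj)))
    _ = (∑ j ∈ range 7, w k j) * M := by rw [sum_mul]
    _ ≤ S * M := Nat.mul_le_mul_right _ (hw k hk)
    _ < S * (M + 1) := by rw [mul_add]; omega

theorem lin_cast (w : ℕ → ℕ → ℕ) (g : ℕ → ℕ) (k : ℕ) :
    (lin w g k : ℝ) = linR w (fun j => (g j : ℝ)) k := by
  simp [lin, linR]

theorem lin_floor {w : ℕ → ℕ → ℕ} (hw : ∀ k < 7, ∑ j ∈ range 7, w k j = 64) (g : ℕ → ℕ) (o : ℝ)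
    {k : ℕ} (hk : k < 7) :
    64 * (((lin w g k / 64 : ℕ) : ℝ) - o) ≤ linR w (fun j => (g j : ℝ) - o) k := by
  have h1 : ((64 * (lin w g k / 64) : ℕ) : ℝ) ≤ (lin w g k : ℝ) := by
    exact_mod_cast Nat.mul_div_le _ _
  have h2 : ∑ j ∈ range 7, (w k j : ℝ) = 64 := by exact_mod_cast hw k hk
  have h3 : linR w (fun j => (g j : ℝ) - o) k = linR w (fun j => (g j : ℝ)) k - 64 * o := by
    simp only [linR, mul_sub, sum_sub_distrib, ← sum_mul, h2]
  rw [h3, ← lin_cast]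
  push_cast at h1
  linarith

theorem wl_sum : ∀ k < 7, ∑ j ∈ range 7, wl k j = 64 := by decide
theorem wr_sum : ∀ k < 7, ∑ j ∈ range 7, wr k j = 64 := by decide
theorem wb_sum : ∀ k < 7, ∑ j ∈ range 7, wb k j ≤ 512 := by decide
theorem wh_sum : ∀ k < 7, ∑ j ∈ range 7, wh k j ≤ 512 := by decide

/-- evaluate `x` first, then continue -/
noncomputable def frc (x : ℕ) (k : ℕ → Bool) : Bool :=
  @Nat.rec (fun _ => Bool) false (fun c _ => k c) (Nat.succ x)

theorem frc_eq (x : ℕ) (k : ℕ → Bool) : frc x k = k x := rfl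

noncomputable def an (a b : Bool) : Bool := @Bool.rec (fun _ => Bool) false b a

theorem an_eq (a b : Bool) : an a b = true ↔ a = true ∧ b = true := by
  cases a <;> simp [an]

/-- both halves of a packed tensor -/
noncomputable def spl (s m T : ℕ) (kl kr : ℕ → Bool) : Bool :=
  let a0 := Nat.land T m
  let a1 := Nat.land (Nat.shiftRight T s) m
  let a2 := Nat.land (Nat.shiftRight T (Nat.mul 2 s)) m
  let a3 := Nat.land (Nat.shiftRight T (Nat.mul 3 s)) m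
  let a4 := Nat.land (Nat.shiftRight T (Nat.mul 4 s)) m
  let a5 := Nat.land (Nat.shiftRight T (Nat.mul 5 s)) m
  let a6 := Nat.land (Nat.shiftRight T (Nat.mul 6 s)) m
  let b0 := Nat.add a0 a1
  let b1 := Nat.add a1 a2
  let b2 := Nat.add a2 a3
  let b3 := Nat.add a3 a4
  let b4 := Nat.add a4 a5
  let b5 := Nat.add a5 a6
  let c0 := Nat.add b0 b1
  let c1 := Nat.add b1 b2
  let c2 := Nat.add b2 b3
  let c3 := Nat.add b3 b4
  let c4 := Nat.add b4 b5
  let d0 := Nat.add c0 c1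
  let d1 := Nat.add c1 c2
  let d2 := Nat.add c2 c3
  let d3 := Nat.add c3 c4
  let e0 := Nat.add d0 d1
  let e1 := Nat.add d1 d2
  let e2 := Nat.add d2 d3
  let f0 := Nat.add e0 e1
  let f1 := Nat.add e1 e2
  let g0 := Nat.add f0 f1
  an (frc (flo (Nat.add (Nat.add (Nat.add (Nat.add (Nat.add (Nat.add (Nat.shiftLeft a0 6)
      (Nat.shiftLeft b0 (Nat.add s 5))) (Nat.shiftLeft c0 (Nat.add (Nat.mul 2 s) 4)))
      (Nat.shiftLeft d0 (Nat.add (Nat.mul 3 s) 3))) (Nat.shiftLeft e0 (Nat.add (Nat.mul 4 s) 2)))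
      (Nat.shiftLeft f0 (Nat.add (Nat.mul 5 s) 1))) (Nat.shiftLeft g0 (Nat.mul 6 s)))) kl)
    (frc (flo (Nat.add (Nat.add (Nat.add (Nat.add (Nat.add (Nat.add g0
      (Nat.shiftLeft f1 (Nat.add s 1))) (Nat.shiftLeft e2 (Nat.add (Nat.mul 2 s) 2)))
      (Nat.shiftLeft d3 (Nat.add (Nat.mul 3 s) 3))) (Nat.shiftLeft c4 (Nat.add (Nat.mul 4 s) 4)))
      (Nat.shiftLeft b5 (Nat.add (Nat.mul 5 s) 5))) (Nat.shiftLeft a6 (Nat.add (Nat.mul 6 s) 6)))) kr)

theorem spl_eq (s m T : ℕ) (kl kr : ℕ → Bool) :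
    spl s m T kl kr = an (kl (flo (rmap wl s m T))) (kr (flo (rmap wr s m T))) := by
  simp only [spl, frc_eq, rmap, sum_range_succ, sum_range_zero, wl, wr, Nat.choose, Nat.add_eq,
    Nat.mul_eq, Nat.land_eq, Nat.shiftRight_eq, Nat.shiftLeft_eq', Nat.shiftLeft_eq, zero_mul,
    one_mul, Nat.shiftRight_zero]
  generalize T &&& m = a0
  generalize (T >>> s) &&& m = a1
  generalize (T >>> (2 * s)) &&& m = a2
  generalize (T >>> (3 * s)) &&& m = a3
  generalize (T >>> (4 * s)) &&& m = a4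
  generalize (T >>> (5 * s)) &&& m = a5
  generalize (T >>> (6 * s)) &&& m = a6
  congr 3
  · norm_num
    ring
  · norm_num
    ring

inductive Tr where
  | l : Tr
  | a : Tr → Tr → Tr
  | b : Tr → Tr → Tr
  | c : Tr → Tr → Tr

noncomputable def chk (t : Tr) : ℕ → Bool :=
  @Tr.rec (fun _ => ℕ → Bool) leaf (fun _ _ p q T => spl 6860 mk0 T p q)
    (fun _ _ p q T => spl 980 mk1 T p q) (fun _ _ p q T => spl 140 mk2 T p q) t

/-- real tensor with the offset removed -/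
noncomputable def dro (f : ℕ → ℕ → ℕ → ℕ) (a b c : ℕ) : ℝ := (f a b c : ℝ) - 2 ^ 132

theorem bd_mono {M M' : ℕ} (h : M ≤ M') {f : ℕ → ℕ → ℕ → ℕ} (hf : Bd M f) : Bd M' f :=
  fun a ha b hb c hc => lt_of_lt_of_le (hf a ha b hb c hc) h

theorem bd_div {f : ℕ → ℕ → ℕ → ℕ} (hf : Bd (2 ^ 140) f) :
    Bd (2 ^ 134) (fun a b c => f a b c / 64) := fun a ha b hb c hc => by
  have := hf a ha b hb c hc
  simp only
  omega

theorem chk_sound (t : Tr) : ∀ f : ℕ → ℕ → ℕ → ℕ, Bd (2 ^ 134) f → chk t (pk3 f) = true →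
    GoodF (dro f) := by
  have e : (2 : ℕ) ^ 140 = 64 * 2 ^ 134 := by norm_num
  have key : ∀ w : ℕ → ℕ → ℕ, (∀ k < 7, ∑ j ∈ range 7, w k j = 64) → ∀ g : ℕ → ℕ,
      (∀ j < 7, g j < 2 ^ 134) → ∀ k < 7, lin w g k < 2 ^ 140 := fun w hw g hg k hk =>
    e ▸ lin_lt (fun k hk => (hw k hk).le) (by norm_num) hg hk
  induction t with
  | l =>
    intro f hf h
    refine goodF_zero.mono (t := 0) le_rfl fun a ha b hb c hc => ?_
    have : ((2 ^ 132 : ℕ) : ℝ) ≤ f a b c := by exact_mod_cast leaf_sound hf h a ha b hb c hc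
    unfold dro
    push_cast at this
    linarith
  | a p q ihp ihq =>
    intro f hf h
    have hf' := bd_mono (M' := 2 ^ 140) (by norm_num) hf
    have bl : Bd (2 ^ 140) (fun a b c => lin wl (fun j => f j b c) a) :=
      fun a ha b hb c hc => key _ wl_sum _ (fun j hj => hf j hj b hb c hc) a ha
    have br : Bd (2 ^ 140) (fun a b c => lin wr (fun j => f j b c) a) :=
      fun a ha b hb c hc => key _ wr_sum _ (fun j hj => hf j hj b hb c hc) a ha
    change spl 6860 mk0 (pk3 f) (chk p) (chk q) = true at h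
    rw [spl_eq, an_eq, rmap0 _ hf', rmap0 _ hf', flo_eq bl, flo_eq br] at h
    exact split0
      ((ihp _ (bd_div bl) h.1).mono (by norm_num) fun a ha b _ c _ => lin_floor wl_sum _ _ ha)
      ((ihq _ (bd_div br) h.2).mono (by norm_num) fun a ha b _ c _ => lin_floor wr_sum _ _ ha)
  | b p q ihp ihq =>
    intro f hf h
    have hf' := bd_mono (M' := 2 ^ 140) (by norm_num) hf
    have bl : Bd (2 ^ 140) (fun a b c => lin wl (fun j => f a j c) b) :=
      fun a ha b hb c hc => key _ wl_sum _ (fun j hj => hf a ha j hj c hc) b hb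
    have br : Bd (2 ^ 140) (fun a b c => lin wr (fun j => f a j c) b) :=
      fun a ha b hb c hc => key _ wr_sum _ (fun j hj => hf a ha j hj c hc) b hb
    change spl 980 mk1 (pk3 f) (chk p) (chk q) = true at h
    rw [spl_eq, an_eq, rmap1 _ hf', rmap1 _ hf', flo_eq bl, flo_eq br] at h
    exact split1
      ((ihp _ (bd_div bl) h.1).mono (by norm_num) fun a _ b hb c _ => lin_floor wl_sum _ _ hb)
      ((ihq _ (bd_div br) h.2).mono (by norm_num) fun a _ b hb c _ => lin_floor wr_sum _ _ hb)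
  | c p q ihp ihq =>
    intro f hf h
    have hf' := bd_mono (M' := 2 ^ 140) (by norm_num) hf
    have bl : Bd (2 ^ 140) (fun a b c => lin wl (fun j => f a b j) c) :=
      fun a ha b hb c hc => key _ wl_sum _ (fun j hj => hf a ha b hb j hj) c hc
    have br : Bd (2 ^ 140) (fun a b c => lin wr (fun j => f a b j) c) :=
      fun a ha b hb c hc => key _ wr_sum _ (fun j hj => hf a ha b hb j hj) c hc
    change spl 140 mk2 (pk3 f) (chk p) (chk q) = true at h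
    rw [spl_eq, an_eq, rmap2 _ hf', rmap2 _ hf', flo_eq bl, flo_eq br] at h
    exact split2
      ((ihp _ (bd_div bl) h.1).mono (by norm_num) fun a _ b _ c hc => lin_floor wl_sum _ _ hc)
      ((ihq _ (bd_div br) h.2).mono (by norm_num) fun a _ b _ c hc => lin_floor wr_sum _ _ hc)

end Pool.Agent.MP_ebf981_lc

end

section

/-! Reflection: polynomial expressions in three variables and the positivity checker. -/

namespace Pool.Agent.MP_ebf981_lc

open Finset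

inductive Ex where
  | c : ℕ → Ex
  | x : Ex
  | y : Ex
  | z : Ex
  | add : Ex → Ex → Ex
  | mul : Ex → Ex → Ex
  | neg : Ex → Ex

noncomputable def Ex.ev (u v w : ℝ) : Ex → ℝ
  | .c n => n
  | .x => u
  | .y => v
  | .z => w
  | .add a b => a.ev u v w + b.ev u v w
  | .mul a b => a.ev u v w * b.ev u v w
  | .neg a => - a.ev u v w

/-- positive and negative part -/
def Ex.pn {S : Type} [CommSemiring S] (u v w : S) : Ex → S × S
  | .c n => (n, 0)
  | .x => (u, 0)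
  | .y => (v, 0)
  | .z => (w, 0)
  | .add a b => ((a.pn u v w).1 + (b.pn u v w).1, (a.pn u v w).2 + (b.pn u v w).2)
  | .mul a b => ((a.pn u v w).1 * (b.pn u v w).1 + (a.pn u v w).2 * (b.pn u v w).2,
      (a.pn u v w).1 * (b.pn u v w).2 + (a.pn u v w).2 * (b.pn u v w).1)
  | .neg a => ((a.pn u v w).2, (a.pn u v w).1)

noncomputable def Ex.pk (u v w : ℕ) (e : Ex) : ℕ × ℕ :=
  @Ex.rec (fun _ => ℕ × ℕ) (fun n => (n, 0)) (u, 0) (v, 0) (w, 0)
    (fun _ _ p q => (Nat.add p.1 q.1, Nat.add p.2 q.2))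
    (fun _ _ p q => (Nat.add (Nat.mul p.1 q.1) (Nat.mul p.2 q.2),
      Nat.add (Nat.mul p.1 q.2) (Nat.mul p.2 q.1)))
    (fun _ p => (p.2, p.1)) e

noncomputable def mx (x y : ℕ) : ℕ := @Bool.rec (fun _ => ℕ) x y (Nat.ble x y)

theorem mx_eq (x y : ℕ) : mx x y = max x y := by
  unfold mx
  cases h : Nat.ble x y
  · have : ¬ x ≤ y := by rw [← Nat.ble_eq, h]; simp
    simp only
    omega
  · have : x ≤ y := Nat.le_of_ble_eq_true h
    simp only
    omega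

/-- degree bound -/
noncomputable def Ex.dg (u v w : ℕ) (e : Ex) : ℕ :=
  @Ex.rec (fun _ => ℕ) (fun _ => 0) u v w (fun _ _ p q => mx p q) (fun _ _ p q => Nat.add p q)
    (fun _ p => p) e

theorem Ex.pk_eq (u v w : ℕ) (e : Ex) : e.pk u v w = e.pn u v w := by
  induction e with
  | c n => rfl
  | x => rfl
  | y => rfl
  | z => rfl
  | add a b ha hb => rw [Ex.pn, ← ha, ← hb]; rfl
  | mul a b ha hb => rw [Ex.pn, ← ha, ← hb]; rfl
  | neg a ha => rw [Ex.pn, ← ha]; rfl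

theorem Ex.pn_real (u v w : ℝ) (e : Ex) : (e.pn u v w).1 - (e.pn u v w).2 = e.ev u v w := by
  induction e with
  | c n => simp [Ex.pn, Ex.ev]
  | x => simp [Ex.pn, Ex.ev]
  | y => simp [Ex.pn, Ex.ev]
  | z => simp [Ex.pn, Ex.ev]
  | add a b ha hb => simp only [Ex.pn, Ex.ev, ← ha, ← hb]; ring
  | mul a b ha hb => simp only [Ex.pn, Ex.ev, ← ha, ← hb]; ring
  | neg a ha => simp only [Ex.pn, Ex.ev, ← ha]; ring

theorem Ex.pn_map {S T : Type} [CommSemiring S] [CommSemiring T] (φ : S →+* T) (u v w : S)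
    (e : Ex) : φ (e.pn u v w).1 = (e.pn (φ u) (φ v) (φ w)).1 ∧
      φ (e.pn u v w).2 = (e.pn (φ u) (φ v) (φ w)).2 := by
  induction e with
  | c n => simp [Ex.pn]
  | x => simp [Ex.pn]
  | y => simp [Ex.pn]
  | z => simp [Ex.pn]
  | add a b ha hb => simp [Ex.pn, ha.1, ha.2, hb.1, hb.2]
  | mul a b ha hb => simp [Ex.pn, ha.1, ha.2, hb.1, hb.2]
  | neg a ha => simp [Ex.pn, ha.1, ha.2]

open MvPolynomial in
theorem Ex.deg_le (i : Fin 3) (e : Ex) :
    degreeOf i (e.pn (X 0) (X 1) (X 2 : MvPolynomial (Fin 3) ℕ)).1 ≤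
        e.dg (if i = 0 then 1 else 0) (if i = 1 then 1 else 0) (if i = 2 then 1 else 0) ∧
      degreeOf i (e.pn (X 0) (X 1) (X 2 : MvPolynomial (Fin 3) ℕ)).2 ≤
        e.dg (if i = 0 then 1 else 0) (if i = 1 then 1 else 0) (if i = 2 then 1 else 0) := by
  induction e with
  | c n =>
    refine ⟨?_, by simp [Ex.pn]⟩
    have : ((n : ℕ) : MvPolynomial (Fin 3) ℕ) = C n := by simp
    simp only [Ex.pn, this, degreeOf_C, zero_le]
  | x => exact ⟨(degreeOf_X i 0).le, by simp [Ex.pn]⟩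
  | y => exact ⟨(degreeOf_X i 1).le, by simp [Ex.pn]⟩
  | z => exact ⟨(degreeOf_X i 2).le, by simp [Ex.pn]⟩
  | add a b ha hb =>
    change _ ≤ mx (a.dg _ _ _) (b.dg _ _ _) ∧ _ ≤ mx (a.dg _ _ _) (b.dg _ _ _)
    rw [mx_eq]
    exact ⟨(degreeOf_add_le _ _ _).trans (max_le_max ha.1 hb.1),
      (degreeOf_add_le _ _ _).trans (max_le_max ha.2 hb.2)⟩
  | mul a b ha hb =>
    change _ ≤ (a.dg _ _ _) + (b.dg _ _ _) ∧ _ ≤ (a.dg _ _ _) + (b.dg _ _ _)
    exact ⟨(degreeOf_add_le _ _ _).trans (max_le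
        ((degreeOf_mul_le _ _ _).trans (add_le_add ha.1 hb.1))
        ((degreeOf_mul_le _ _ _).trans (add_le_add ha.2 hb.2))),
      (degreeOf_add_le _ _ _).trans (max_le
        ((degreeOf_mul_le _ _ _).trans (add_le_add ha.1 hb.2))
        ((degreeOf_mul_le _ _ _).trans (add_le_add ha.2 hb.1)))⟩
  | neg a ha => exact ⟨ha.2, ha.1⟩

noncomputable def mo (a b c : ℕ) : Fin 3 →₀ ℕ := Finsupp.equivFunOnFinite.symm ![a, b, c]

open MvPolynomial in
theorem eval_box {S : Type} [CommSemiring S] (u v w : S) (p : MvPolynomial (Fin 3) ℕ)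
    (hp : ∀ i, degreeOf i p ≤ 6) :
    eval₂Hom (Nat.castRingHom S) ![u, v, w] p = ∑ a ∈ range 7, ∑ b ∈ range 7, ∑ c ∈ range 7,
      ((coeff (mo a b c) p : ℕ) : S) * (u ^ a * v ^ b * w ^ c) := by
  have inj : Function.Injective (fun t : ℕ × ℕ × ℕ => mo t.1 t.2.1 t.2.2) := by
    rintro ⟨a, b, c⟩ ⟨a', b', c'⟩ h
    have h0 := congrArg (fun m : Fin 3 →₀ ℕ => m 0) h
    have h1 := congrArg (fun m : Fin 3 →₀ ℕ => m 1) h
    have h2 := congrArg (fun m : Fin 3 →₀ ℕ => m 2) h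
    simp [mo] at h0 h1 h2
    simp [h0, h1, h2]
  have sub : p.support ⊆ (range 7 ×ˢ range 7 ×ˢ range 7).map ⟨_, inj⟩ := by
    intro d hd
    have h := fun i => (monomial_le_degreeOf i hd).trans (hp i)
    refine mem_map.2 ⟨(d 0, d 1, d 2), ?_, ?_⟩
    · simp only [mem_product, mem_range]
      exact ⟨Nat.lt_succ_of_le (h 0), Nat.lt_succ_of_le (h 1), Nat.lt_succ_of_le (h 2)⟩
    · ext i
      fin_cases i <;> simp [mo]
  rw [coe_eval₂Hom, eval₂_eq', sum_subset sub (fun d _ hd => by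
    rw [notMem_support_iff.1 hd]; simp), sum_map, sum_product]
  refine sum_congr rfl fun a _ => ?_
  rw [sum_product]
  refine sum_congr rfl fun b _ => sum_congr rfl fun c _ => ?_
  simp [mo, Fin.prod_univ_three]

theorem Ex.tensor (e : Ex) (h0 : e.dg 1 0 0 ≤ 6) (h1 : e.dg 0 1 0 ≤ 6) (h2 : e.dg 0 0 1 ≤ 6) :
    ∃ f g : ℕ → ℕ → ℕ → ℕ, ∀ (S : Type) [CommSemiring S] (u v w : S),
      (e.pn u v w).1 = ∑ a ∈ range 7, ∑ b ∈ range 7, ∑ c ∈ range 7,
        (f a b c : S) * (u ^ a * v ^ b * w ^ c) ∧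
      (e.pn u v w).2 = ∑ a ∈ range 7, ∑ b ∈ range 7, ∑ c ∈ range 7,
        (g a b c : S) * (u ^ a * v ^ b * w ^ c) := by
  have hd : ∀ i : Fin 3,
      e.dg (if i = 0 then 1 else 0) (if i = 1 then 1 else 0) (if i = 2 then 1 else 0) ≤ 6 := by
    intro i
    fin_cases i
    · exact h0
    · exact h1
    · exact h2
  refine ⟨fun a b c => MvPolynomial.coeff (mo a b c) (e.pn (MvPolynomial.X 0) (MvPolynomial.X 1)
      (MvPolynomial.X 2 : MvPolynomial (Fin 3) ℕ)).1,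
    fun a b c => MvPolynomial.coeff (mo a b c) (e.pn (MvPolynomial.X 0) (MvPolynomial.X 1)
      (MvPolynomial.X 2 : MvPolynomial (Fin 3) ℕ)).2, fun S _ u v w => ?_⟩
  rw [← eval_box u v w _ fun i => (e.deg_le i).1.trans (hd i),
    ← eval_box u v w _ fun i => (e.deg_le i).2.trans (hd i),
    (e.pn_map _ _ _ _).1, (e.pn_map _ _ _ _).2]
  simp

theorem bd_of_sum {f : ℕ → ℕ → ℕ → ℕ} {M : ℕ}
    (h : ∑ a ∈ range 7, ∑ b ∈ range 7, ∑ c ∈ range 7, f a b c < M) : Bd M f := by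
  intro a ha b hb c hc
  refine lt_of_le_of_lt ?_ h
  exact (single_le_sum (f := fun c => f a b c) (fun _ _ => Nat.zero_le _) (mem_range.2 hc)).trans
    ((single_le_sum (f := fun b => ∑ c ∈ range 7, f a b c) (fun _ _ => Nat.zero_le _)
      (mem_range.2 hb)).trans
    (single_le_sum (f := fun a => ∑ b ∈ range 7, ∑ c ∈ range 7, f a b c)
      (fun _ _ => Nat.zero_le _) (mem_range.2 ha)))

/-- conversion to the Bernstein basis -/
def conv (w : ℕ → ℕ → ℕ) (T : ℕ) : ℕ := rmap wb 140 mk2 (rmap w 980 mk1 (rmap wb 6860 mk0 T))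

def cv3 (w : ℕ → ℕ → ℕ) (f : ℕ → ℕ → ℕ → ℕ) (a b c : ℕ) : ℕ :=
  lin wb (fun k => lin w (fun j => lin wb (fun i => f i j k) a) b) c

theorem conv_eq {w : ℕ → ℕ → ℕ} (hw : ∀ k < 7, ∑ j ∈ range 7, w k j ≤ 512)
    {f : ℕ → ℕ → ℕ → ℕ} (hf : Bd (2 ^ 105) f) :
    conv w (pk3 f) = pk3 (cv3 w f) ∧ Bd (2 ^ 132) (cv3 w f) := by
  have b1 : Bd (512 * 2 ^ 105) (fun a b c => lin wb (fun i => f i b c) a) :=
    fun a ha b hb c hc => lin_lt wb_sum (by norm_num) (fun j hj => hf j hj b hb c hc) ha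
  have b2 : Bd (512 * (512 * 2 ^ 105))
      (fun a b c => lin w (fun j => lin wb (fun i => f i j c) a) b) :=
    fun a ha b hb c hc => lin_lt hw (by norm_num) (fun j hj => b1 a ha j hj c hc) hb
  have b3 : Bd (512 * (512 * (512 * 2 ^ 105))) (cv3 w f) :=
    fun a ha b hb c hc => lin_lt wb_sum (by norm_num) (fun j hj => b2 a ha b hb j hj) hc
  refine ⟨?_, bd_mono (by norm_num) b3⟩
  rw [conv, rmap0 _ (bd_mono (by norm_num) hf), rmap1 _ (bd_mono (by norm_num) b1),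
    rmap2 _ (bd_mono (by norm_num) b2)]
  rfl

def ofs : ℕ := 2 ^ 132 * ones
def p0 : ℕ := 2 ^ 6860
def p1 : ℕ := 2 ^ 980
def p2 : ℕ := 2 ^ 140

theorem ofs_eq : ofs = pk3 (fun _ _ _ => 2 ^ 132) := by
  rw [ofs, ones_eq, ← pk3_mul]
  simp only [mul_one]

theorem p_eq (a b c : ℕ) : p0 ^ a * p1 ^ b * p2 ^ c = 2 ^ (140 * (49 * a + 7 * b + c)) := by
  rw [p0, p1, p2, ← pow_mul, ← pow_mul, ← pow_mul, ← pow_add, ← pow_add,
    show 6860 * a + 980 * b + 140 * c = 140 * (49 * a + 7 * b + c) by omega]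

theorem pk3_eq2 (f : ℕ → ℕ → ℕ → ℕ) : ∑ a ∈ range 7, ∑ b ∈ range 7, ∑ c ∈ range 7,
    ((f a b c : ℕ) : ℕ) * (p0 ^ a * p1 ^ b * p2 ^ c) = pk3 f :=
  sum_congr rfl fun a _ => sum_congr rfl fun b _ => sum_congr rfl fun c _ => by
    rw [p_eq]

theorem pk3_sub {f g : ℕ → ℕ → ℕ → ℕ} (hg : Bd (2 ^ 132) g) :
    Nat.sub (Nat.add (pk3 f) ofs) (pk3 g) = pk3 (fun a b c => f a b c + 2 ^ 132 - g a b c) := by
  have e3 : pk3 (fun a b c => f a b c + 2 ^ 132 - g a b c) + pk3 g = pk3 f + ofs := by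
    rw [ofs_eq, ← pk3_add, ← pk3_add]
    refine pk3_congr fun a ha b hb c hc => ?_
    have := hg a ha b hb c hc
    omega
  rw [Nat.add_eq, Nat.sub_eq, ← e3, Nat.add_sub_cancel]

noncomputable def check (w : ℕ → ℕ → ℕ) (e : Ex) (t : Tr) : Bool :=
  an (Nat.ble (e.dg 1 0 0) 6) <| an (Nat.ble (e.dg 0 1 0) 6) <| an (Nat.ble (e.dg 0 0 1) 6) <|
  an (Nat.blt (e.pk 1 1 1).1 (2 ^ 105)) <| an (Nat.blt (e.pk 1 1 1).2 (2 ^ 105)) <|
  frc (e.pk p0 p1 p2).1 fun P => frc (e.pk p0 p1 p2).2 fun N =>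
  frc (Nat.sub (Nat.add (conv w P) ofs) (conv w N)) (chk t)

theorem v1_sub (g g' : ℕ → ℝ) (x z : ℝ) :
    v1 (fun a => g a - g' a) x z = v1 g x z - v1 g' x z := by
  simp only [v1, sub_mul, sum_sub_distrib]

theorem val_cv3 {w : ℕ → ℕ → ℕ} (f : ℕ → ℕ → ℕ → ℕ) (u v v' s : ℝ)
    (hw : ∀ g : ℕ → ℝ, v1 (linR w g) v v' = 60 * ∑ j ∈ range 7, g j * v ^ j) :
    val (fun a b c => (cv3 w f a b c : ℝ)) u (1 - u) v v' s (1 - s) =
      216000 * ∑ a ∈ range 7, ∑ b ∈ range 7, ∑ c ∈ range 7,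
        (f a b c : ℝ) * (u ^ a * v ^ b * s ^ c) := by
  have e1 : ∀ a b, v1 (fun c => (cv3 w f a b c : ℝ)) s (1 - s) =
      linR w (fun j => linR wb (fun i => 60 * ∑ c ∈ range 7, (f i j c : ℝ) * s ^ c) a) b := by
    intro a b
    simp only [cv3, lin_cast]
    rw [v1_wb]
    simp only [linR, mul_sum, sum_mul]
    rw [sum_comm]
    refine sum_congr rfl fun j _ => ?_
    rw [sum_comm]
    refine sum_congr rfl fun i _ => sum_congr rfl fun c _ => ?_
    ring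
  have e2 : ∀ a, v1 (fun b => linR w (fun j => linR wb
        (fun i => 60 * ∑ c ∈ range 7, (f i j c : ℝ) * s ^ c) a) b) v v' =
      linR wb (fun i => 60 * ∑ j ∈ range 7, (60 * ∑ c ∈ range 7, (f i j c : ℝ) * s ^ c) * v ^ j) a := by
    intro a
    rw [hw]
    simp only [linR, mul_sum, sum_mul]
    rw [sum_comm]
    refine sum_congr rfl fun i _ => sum_congr rfl fun j _ => sum_congr rfl fun c _ => ?_
    ring
  unfold val
  simp only [e1, e2]
  rw [v1_wb]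
  simp only [mul_sum, sum_mul]
  refine sum_congr rfl fun i _ => sum_congr rfl fun j _ => sum_congr rfl fun c _ => ?_
  ring

theorem check_sound {w : ℕ → ℕ → ℕ} (hw : ∀ k < 7, ∑ j ∈ range 7, w k j ≤ 512) {e : Ex} {t : Tr}
    (h : check w e t = true) (u v v' s : ℝ) (hu : 0 ≤ u) (hu1 : u ≤ 1) (hv : 0 ≤ v) (hv' : 0 ≤ v')
    (hs : 0 ≤ s) (hs1 : s ≤ 1)
    (hw' : ∀ g : ℕ → ℝ, v1 (linR w g) v v' = 60 * ∑ j ∈ range 7, g j * v ^ j) :
    0 ≤ e.ev u v s := by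
  unfold check at h
  rw [an_eq, an_eq, an_eq, an_eq, an_eq, frc_eq, frc_eq, frc_eq, Nat.ble_eq, Nat.ble_eq,
    Nat.ble_eq, Nat.blt_eq, Nat.blt_eq, Ex.pk_eq, Ex.pk_eq] at h
  obtain ⟨h0, h1, h2, h3, h4, h5⟩ := h
  obtain ⟨f, g, hfg⟩ := e.tensor h0 h1 h2
  have s1 := hfg ℕ 1 1 1
  simp only [one_pow, mul_one, Nat.cast_id] at s1
  rw [s1.1] at h3
  rw [s1.2] at h4
  obtain ⟨c1, d1⟩ := conv_eq hw (bd_of_sum h3)
  obtain ⟨c2, d2⟩ := conv_eq hw (bd_of_sum h4)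
  have e1 := (hfg ℕ p0 p1 p2).1.trans (pk3_eq2 f)
  have e2 := (hfg ℕ p0 p1 p2).2.trans (pk3_eq2 g)
  rw [e1, e2, c1, c2, pk3_sub d2] at h5
  have h6 := chk_sound t _ (fun a ha b hb c hc => by
    have := d1 a ha b hb c hc
    omega) h5
  have h7 : GoodF (fun a b c => (cv3 w f a b c : ℝ) - cv3 w g a b c) :=
    h6.mono (t := 1) (by norm_num) fun a ha b hb c hc => by
      have := d2 a ha b hb c hc
      unfold dro
      rw [Nat.cast_sub (by omega)]
      push_cast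
      linarith
  have h8 := h7 u (1 - u) v v' s (1 - s) hu (by linarith) hv hv' hs (by linarith)
  have h9 : val (fun a b c => (cv3 w f a b c : ℝ) - cv3 w g a b c) u (1 - u) v v' s (1 - s) =
      val (fun a b c => (cv3 w f a b c : ℝ)) u (1 - u) v v' s (1 - s) -
      val (fun a b c => (cv3 w g a b c : ℝ)) u (1 - u) v v' s (1 - s) := by
    simp only [val, v1_sub]
  rw [h9, val_cv3 f u v v' s hw', val_cv3 g u v v' s hw', ← (hfg ℝ u v s).1,
    ← (hfg ℝ u v s).2] at h8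
  rw [← Ex.pn_real]
  linarith

/-- positivity on the unit cube -/
theorem box_sound {e : Ex} {t : Tr} (h : check wb e t = true) {u v s : ℝ} (hu : 0 ≤ u)
    (hu1 : u ≤ 1) (hv : 0 ≤ v) (hv1 : v ≤ 1) (hs : 0 ≤ s) (hs1 : s ≤ 1) : 0 ≤ e.ev u v s :=
  check_sound wb_sum h u v (1 - v) s hu hu1 hv (by linarith) hs hs1 fun g => v1_wb g v

/-- positivity when the middle variable runs over a half line -/
theorem half_sound {e : Ex} {t : Tr} (h : check wh e t = true) {u v s : ℝ} (hu : 0 ≤ u)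
    (hu1 : u ≤ 1) (hv : 0 ≤ v) (hs : 0 ≤ s) (hs1 : s ≤ 1) : 0 ≤ e.ev u v s :=
  check_sound wh_sum h u v 1 s hu hu1 hv (by norm_num) hs hs1 fun g => v1_wh g v

end Pool.Agent.MP_ebf981_lc

end

section

/-! Certificates: pointwise polynomial inequalities checked by reflection. -/

namespace Pool.Agent.MP_ebf981_lc

instance : Add Ex := ⟨Ex.add⟩
instance : Mul Ex := ⟨Ex.mul⟩
instance : Sub Ex := ⟨fun a b => Ex.add a (Ex.neg b)⟩

def Ex.pw (a : Ex) : ℕ → Ex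
  | 0 => .c 1
  | n + 1 => Ex.mul (a.pw n) a

def Ex.i : ℤ → Ex
  | .ofNat n => .c n
  | .negSucc n => .neg (.c (n + 1))

def hor : List ℤ → Ex
  | [] => .c 0
  | [a] => Ex.i a
  | a :: b :: l => Ex.add (Ex.i a) (Ex.mul .x (hor (b :: l)))

noncomputable def hv (u : ℝ) : List ℤ → ℝ
  | [] => 0
  | a :: l => a + u * hv u l

section
variable (u v w : ℝ)

theorem ev_add (a b : Ex) : (a + b).ev u v w = a.ev u v w + b.ev u v w := rfl
theorem ev_mul (a b : Ex) : (a * b).ev u v w = a.ev u v w * b.ev u v w := rfl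
theorem ev_sub (a b : Ex) : (a - b).ev u v w = a.ev u v w - b.ev u v w := (sub_eq_add_neg _ _).symm
theorem ev_c (n : ℕ) : (Ex.c n).ev u v w = n := rfl
theorem ev_x : Ex.x.ev u v w = u := rfl
theorem ev_y : Ex.y.ev u v w = v := rfl
theorem ev_z : Ex.z.ev u v w = w := rfl
theorem ev_neg (a : Ex) : (Ex.neg a).ev u v w = - a.ev u v w := rfl

theorem ev_pw (a : Ex) (n : ℕ) : (a.pw n).ev u v w = a.ev u v w ^ n := by
  induction n with
  | zero => simp [Ex.pw, Ex.ev]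
  | succ n ih => simp [Ex.pw, Ex.ev, ih, pow_succ]

theorem ev_i (n : ℤ) : (Ex.i n).ev u v w = n := by
  cases n with
  | ofNat n => simp [Ex.i, Ex.ev]
  | negSucc n => simp [Ex.i, Ex.ev]

theorem ev_hor (l : List ℤ) : (hor l).ev u v w = hv u l := by
  induction l with
  | nil => simp [hor, hv, Ex.ev]
  | cons a l ih =>
    cases l with
    | nil => simp [hor, hv, ev_i]
    | cons b l => rw [hor, hv, ← ih]; simp only [Ex.ev, ev_i]

end

/-- the objective -/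
noncomputable def psi (g : ℝ) : ℝ := 1 + 21 * g ^ 2 + 35 * g ^ 4 + 7 * g ^ 6

/-- existence of multipliers for the joint law of the linear part and the smoothed function -/
def Adm (ρ W x Q : ℝ) : Prop :=
  ∃ c0 c1 c2 c3 ka kb kc kd kf : ℝ, 0 ≤ c3 ∧ 0 ≤ ka ∧ 0 ≤ kf ∧
    (∀ l g : ℝ, -1 ≤ g → g ≤ 1 → psi g ≤ c0 + c1 * l ^ 2 + c2 * l ^ 4 + c3 * l ^ 6 +
      ka * ((g - ρ * l) ^ 2 - ρ ^ 3 * (g - ρ * l)) + kb * ((g - ρ * l) * l) + kc * (l - l ^ 2) +
      kd * ((g - ρ * l) * l ^ 3 - ρ ^ 3 * (l ^ 3 - l ^ 4)) +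
      kf * ((g - ρ * l) ^ 2 - ρ ^ 6 * (1 - l ^ 2))) ∧
    c0 + c1 * W + c2 * (3 * W ^ 2 - 2 * Q) + c3 * (15 * W ^ 3 - 30 * W * Q + 16 * (x * Q)) ≤ psi ρ

structure Cert where
  N : ℕ
  p : ℕ
  q : ℕ
  D : ℕ
  M : ℕ
  w0 : ℕ
  w1 : ℕ
  x1 : ℕ
  c0 : List ℤ
  c1 : List ℤ
  c2 : List ℤ
  c3 : List ℤ
  ka : List ℤ
  kb : List ℤ
  kc : List ℤ
  kd : List ℤ

def itp (p q : ℕ) (t : Ex) : Ex := .c p * (.c 1 - t) + .c q * t

def Cert.G (C : Cert) (l : Ex) : Ex :=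
  let N := Ex.c C.N
  let r := itp C.p C.q .x
  let g := Ex.c 2 * .z - .c 1
  let e := N * g - r * l
  .c C.D * (N.pw 6 + .c 21 * N.pw 4 * r.pw 2 + .c 35 * N.pw 2 * r.pw 4 + .c 7 * r.pw 6) -
    .c C.D * N.pw 6 * (.c 1 + .c 21 * g.pw 2 + .c 35 * g.pw 4 + .c 7 * g.pw 6) +
    N.pw 6 * (hor C.c0 + hor C.c1 * l.pw 2 + hor C.c2 * l.pw 4 + hor C.c3 * l.pw 6) +
    hor C.ka * (N.pw 4 * e.pw 2 - N.pw 2 * r.pw 3 * e) + hor C.kb * (N.pw 5 * (e * l)) +
    hor C.kc * (N.pw 6 * (l - l.pw 2)) +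
    hor C.kd * (N.pw 5 * (e * l.pw 3) - N.pw 3 * r.pw 3 * (l.pw 3 - l.pw 4))

def Cert.F (C : Cert) (b : Bool) : Ex :=
  let M := Ex.c C.M
  let W := itp C.w0 C.w1 .y
  let X := Ex.c C.x1 * .z
  let Q := X * (cond b W X)
  .neg (hor C.c0 * M.pw 3 + hor C.c1 * (M.pw 2 * W) + hor C.c2 * (M * (.c 3 * W.pw 2 - .c 2 * Q)) +
    hor C.c3 * (.c 15 * W.pw 3 - .c 30 * W * Q + .c 16 * (X * Q)))

theorem exists_itp {p q N : ℕ} (hN : 0 < N) (hpq : p < q) {t : ℝ} (h0 : (p : ℝ) / N ≤ t)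
    (h1 : t ≤ (q : ℝ) / N) : ∃ u : ℝ, 0 ≤ u ∧ u ≤ 1 ∧ p * (1 - u) + q * u = N * t := by
  have hN' : (0 : ℝ) < N := by exact_mod_cast hN
  have hd : (0 : ℝ) < (q : ℝ) - p := by
    have : (p : ℝ) < q := by exact_mod_cast hpq
    linarith
  rw [div_le_iff₀ hN'] at h0
  rw [le_div_iff₀ hN'] at h1
  refine ⟨(N * t - p) / (q - p), div_nonneg (by linarith) hd.le,
    (div_le_one hd).2 (by linarith), ?_⟩
  field_simp
  ring

theorem Cert.sound (C : Cert) {t1 t2 t3 t4 t5 t6 : Tr}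
    (hp : 0 < C.N ∧ 0 < C.D ∧ 0 < C.M ∧ C.p < C.q ∧ C.w0 < C.w1 ∧ 0 < C.x1)
    (h1 : check wh (C.G .y) t1 = true) (h2 : check wh (C.G (.neg .y)) t2 = true)
    (h3 : check wb (C.F false) t3 = true) (h4 : check wb (C.F true) t4 = true)
    (h5 : check wb (hor C.c3) t5 = true) (h6 : check wb (hor C.ka) t6 = true)
    {ρ W x Q : ℝ} (r0 : (C.p : ℝ) / C.N ≤ ρ) (r1 : ρ ≤ (C.q : ℝ) / C.N)
    (w0 : (C.w0 : ℝ) / C.M ≤ W) (w1 : W ≤ (C.w1 : ℝ) / C.M) (x0 : 0 ≤ x)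
    (x1 : x ≤ (C.x1 : ℝ) / C.M) (q0 : x * x ≤ Q) (q1 : Q ≤ x * W) : Adm ρ W x Q := by
  obtain ⟨hN, hD, hM, hpq, hw, hx⟩ := hp
  obtain ⟨u, u0, u1, hu⟩ := exists_itp hN hpq r0 r1
  obtain ⟨v, v0, v1, hv'⟩ := exists_itp hM hw w0 w1
  obtain ⟨s, s0, s1, hs⟩ := exists_itp (p := 0) hM hx (by simpa using x0) x1
  simp only [Nat.cast_zero, zero_mul, zero_add] at hs
  have hN' : (0 : ℝ) < C.N := by exact_mod_cast hN
  have hD' : (0 : ℝ) < C.D := by exact_mod_cast hD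
  have hM' : (0 : ℝ) < C.M := by exact_mod_cast hM
  have a3 := box_sound h5 u0 u1 u0 u1 u0 u1
  have a4 := box_sound h6 u0 u1 u0 u1 u0 u1
  rw [ev_hor] at a3 a4
  refine ⟨psi ρ + hv u C.c0 / C.D, hv u C.c1 / C.D, hv u C.c2 / C.D, hv u C.c3 / C.D,
    hv u C.ka / C.D, hv u C.kb / C.D, hv u C.kc / C.D, hv u C.kd / C.D, 0,
    div_nonneg a3 hD'.le, div_nonneg a4 hD'.le, le_rfl, fun l g g0 g1 => ?_, ?_⟩
  · have key : ∀ (e : Ex) (y : ℝ), e.ev u y ((g + 1) / 2) = l →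
        0 ≤ (C.G e).ev u y ((g + 1) / 2) → psi g ≤ psi ρ + hv u C.c0 / C.D +
        hv u C.c1 / C.D * l ^ 2 + hv u C.c2 / C.D * l ^ 4 + hv u C.c3 / C.D * l ^ 6 +
        hv u C.ka / C.D * ((g - ρ * l) ^ 2 - ρ ^ 3 * (g - ρ * l)) +
        hv u C.kb / C.D * ((g - ρ * l) * l) + hv u C.kc / C.D * (l - l ^ 2) +
        hv u C.kd / C.D * ((g - ρ * l) * l ^ 3 - ρ ^ 3 * (l ^ 3 - l ^ 4)) +
        0 * ((g - ρ * l) ^ 2 - ρ ^ 6 * (1 - l ^ 2)) := by
      intro e y he h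
      simp only [Cert.G, itp, ev_add, ev_mul, ev_sub, ev_c, ev_x, ev_z, ev_pw, ev_hor, he,
        Nat.cast_one, Nat.cast_ofNat, hu] at h
      rw [← sub_nonneg]
      refine le_of_mul_le_mul_left (a := (C.D : ℝ) * (C.N : ℝ) ^ 6) ?_ (by positivity)
      rw [mul_zero]
      refine h.trans (le_of_eq ?_)
      unfold psi
      field_simp
      ring
    have z0 : 0 ≤ (g + 1) / 2 := by linarith
    have z1 : (g + 1) / 2 ≤ 1 := by linarith
    rcases le_total 0 l with hl | hl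
    · exact key .y l rfl (half_sound h1 u0 u1 hl z0 z1)
    · exact key (.neg .y) (-l) (by simp [Ex.ev]) (half_sound h2 u0 u1 (by linarith) z0 z1)
  · have b3 := box_sound h3 u0 u1 v0 v1 s0 s1
    have b4 := box_sound h4 u0 u1 v0 v1 s0 s1
    simp only [Cert.F, itp, ev_add, ev_mul, ev_sub, ev_c, ev_y, ev_z, ev_pw, ev_hor, ev_neg, cond,
      Nat.cast_one, Nat.cast_ofNat, hv', hs] at b3 b4
    generalize hv u C.c0 = c0 at *
    generalize hv u C.c1 = c1 at *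
    generalize hv u C.c2 = c2 at *
    generalize hv u C.c3 = c3 at *
    have e : ∀ Q : ℝ, psi ρ + c0 / C.D + c1 / C.D * W + c2 / C.D * (3 * W ^ 2 - 2 * Q) +
        c3 / C.D * (15 * W ^ 3 - 30 * W * Q + 16 * (x * Q)) = psi ρ + (c0 + c1 * W +
        c2 * (3 * W ^ 2 - 2 * Q) + c3 * (15 * W ^ 3 - 30 * W * Q + 16 * (x * Q))) / C.D := by
      intro Q
      field_simp
      ring
    have hM3 : (0 : ℝ) < (C.M : ℝ) ^ 3 := by positivity
    have d3 : c0 + c1 * W + c2 * (3 * W ^ 2 - 2 * (x * x)) +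
        c3 * (15 * W ^ 3 - 30 * W * (x * x) + 16 * (x * (x * x))) ≤ 0 :=
      le_of_mul_le_mul_left (a := (C.M : ℝ) ^ 3) (by linear_combination b3) hM3
    have d4 : c0 + c1 * W + c2 * (3 * W ^ 2 - 2 * (x * W)) +
        c3 * (15 * W ^ 3 - 30 * W * (x * W) + 16 * (x * (x * W))) ≤ 0 :=
      le_of_mul_le_mul_left (a := (C.M : ℝ) ^ 3) (by linear_combination b4) hM3
    rw [e, add_le_iff_nonpos_right]
    refine div_nonpos_of_nonpos_of_nonneg ?_ hD'.le
    rcases le_total 0 (-2 * c2 + c3 * (16 * x - 30 * W)) with hk | hk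
    · linear_combination d4 + mul_nonneg hk (sub_nonneg.2 q1)
    · linear_combination d3 + mul_nonneg (neg_nonneg.2 hk) (sub_nonneg.2 q0)

end Pool.Agent.MP_ebf981_lc

end
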