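import Mathlib
import Pool.Agent.Mg.Febf981.Gc6ecc3

section

/-! Fourier analysis on the discrete cube and the noise operator. -/

namespace Pool.Agent.MP_ebf981_lc

open Finset

variable {n : ℕ}

def sg (b : Bool) : ℝ := if b = true then 1 else -1

noncomputable def E (F : (Fin n → Bool) → ℝ) : ℝ := (1 / 2 : ℝ) ^ n * ∑ x, F x

def chi (S : Finset (Fin n)) (x : Fin n → Bool) : ℝ := ∏ j ∈ S, sg (x j)

def ker (ε : ℝ) (x y : Fin n → Bool) : ℝ := ∏ j, (if y j = x j then 1 - ε else ε)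

def T (ε : ℝ) (F : (Fin n → Bool) → ℝ) (x : Fin n → Bool) : ℝ := ∑ y, ker ε x y * F y

noncomputable def hat (F : (Fin n → Bool) → ℝ) (S : Finset (Fin n)) : ℝ :=
  E (fun x => F x * chi S x)

def ell (a : Fin n → ℝ) (x : Fin n → Bool) : ℝ := ∑ j, a j * sg (x j)

theorem sg_sq (b : Bool) : sg b ^ 2 = 1 := by cases b <;> simp [sg]

theorem sg_not (b : Bool) : sg (!b) = - sg b := by cases b <;> simp [sg]

theorem E_add (F G : (Fin n → Bool) → ℝ) : E (fun x => F x + G x) = E F + E G := by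
  simp only [E, sum_add_distrib, mul_add]

theorem E_sub (F G : (Fin n → Bool) → ℝ) : E (fun x => F x - G x) = E F - E G := by
  simp only [E, sum_sub_distrib, mul_sub]

theorem E_mul (c : ℝ) (F : (Fin n → Bool) → ℝ) : E (fun x => c * F x) = c * E F := by
  simp only [E, ← mul_sum]; ring

theorem E_const (c : ℝ) : E (fun _ : Fin n → Bool => c) = c := by
  simp only [E, sum_const, card_univ, Fintype.card_fun, Fintype.card_bool, Fintype.card_fin,
    nsmul_eq_mul, Nat.cast_pow, Nat.cast_ofNat]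
  rw [← mul_assoc, ← mul_pow]
  norm_num

theorem E_mono {F G : (Fin n → Bool) → ℝ} (h : ∀ x, F x ≤ G x) : E F ≤ E G :=
  mul_le_mul_of_nonneg_left (sum_le_sum fun x _ => h x) (by positivity)

theorem E_nonneg {F : (Fin n → Bool) → ℝ} (h : ∀ x, 0 ≤ F x) : 0 ≤ E F :=
  (E_const 0).symm.le.trans (E_mono h)

theorem E_congr {F G : (Fin n → Bool) → ℝ} (h : ∀ x, F x = G x) : E F = E G := by
  rw [funext h]

theorem E_sum {ι : Type} (s : Finset ι) (F : ι → (Fin n → Bool) → ℝ) :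
    E (fun x => ∑ i ∈ s, F i x) = ∑ i ∈ s, E (F i) := by
  simp only [E]
  rw [sum_comm, mul_sum]

theorem E_cs (F G : (Fin n → Bool) → ℝ) :
    E (fun x => F x * G x) ^ 2 ≤ E (fun x => F x ^ 2) * E (fun x => G x ^ 2) := by
  have h := sum_mul_sq_le_sq_mul_sq univ F G
  have h2 : (0 : ℝ) ≤ ((1 / 2 : ℝ) ^ n) ^ 2 := by positivity
  unfold E
  nlinarith [mul_le_mul_of_nonneg_left h h2]

theorem E_invol (σ : (Fin n → Bool) → (Fin n → Bool)) (h : Function.Involutive σ)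
    (F : (Fin n → Bool) → ℝ) : E (fun x => F (σ x)) = E F := by
  unfold E
  rw [Equiv.sum_comp h.toPerm F |>.symm]
  rfl

theorem sum_prod (φ : Fin n → Bool → ℝ) :
    ∑ y : Fin n → Bool, ∏ j, φ j (y j) = ∏ j, (φ j true + φ j false) := by
  rw [← Fintype.piFinset_univ, ← prod_univ_sum]
  simp

theorem chi_eq (S : Finset (Fin n)) (x : Fin n → Bool) :
    chi S x = ∏ j, (if j ∈ S then sg (x j) else 1) := by
  rw [chi, prod_ite_mem, univ_inter]

theorem T_chi (ε : ℝ) (S : Finset (Fin n)) (x : Fin n → Bool) :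
    T ε (chi S) x = (1 - 2 * ε) ^ S.card * chi S x := by
  simp only [T, ker, chi_eq, ← prod_mul_distrib]
  rw [sum_prod (fun j b => (if b = x j then 1 - ε else ε) * (if j ∈ S then sg b else 1)),
    ← prod_const, ← univ_inter S, ← prod_ite_mem, ← prod_mul_distrib, univ_inter]
  refine prod_congr rfl fun j _ => ?_
  by_cases h : j ∈ S <;> cases x j <;> simp [h, sg] <;> ring

theorem T_one (ε : ℝ) (x : Fin n → Bool) : ∑ y, ker ε x y = 1 := by
  have := T_chi ε ∅ x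
  simpa [T, chi] using this

theorem ker_symm (ε : ℝ) (x y : Fin n → Bool) : ker ε x y = ker ε y x := by
  simp only [ker, eq_comm]

theorem ker_nonneg {ε : ℝ} (h0 : 0 ≤ ε) (h1 : ε ≤ 1) (x y : Fin n → Bool) : 0 ≤ ker ε x y :=
  prod_nonneg fun j _ => by split_ifs <;> linarith

theorem T_le_one {ε : ℝ} (h0 : 0 ≤ ε) (h1 : ε ≤ 1) {F : (Fin n → Bool) → ℝ} (h : ∀ y, F y ≤ 1)
    (x : Fin n → Bool) : T ε F x ≤ 1 := by
  rw [← T_one ε x]
  exact sum_le_sum fun y _ => mul_le_of_le_one_right (ker_nonneg h0 h1 x y) (h y)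

theorem T_lin (ε s t : ℝ) (F G : (Fin n → Bool) → ℝ) (x : Fin n → Bool) :
    T ε (fun y => s * F y + t * G y) x = s * T ε F x + t * T ε G x := by
  simp only [T, mul_sum, ← sum_add_distrib]
  exact sum_congr rfl fun y _ => by ring

theorem T_adj (ε : ℝ) (F G : (Fin n → Bool) → ℝ) :
    E (fun x => T ε F x * G x) = E (fun x => F x * T ε G x) := by
  simp only [E, T, sum_mul, mul_sum]
  rw [sum_comm]
  refine sum_congr rfl fun x _ => sum_congr rfl fun y _ => ?_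
  rw [ker_symm ε y x]
  ring

theorem hat_T (ε : ℝ) (F : (Fin n → Bool) → ℝ) (S : Finset (Fin n)) :
    hat (T ε F) S = (1 - 2 * ε) ^ S.card * hat F S := by
  rw [hat, T_adj, hat, ← E_mul]
  exact E_congr fun x => by rw [T_chi]; ring

theorem sum_chi (x y : Fin n → Bool) :
    ∑ S : Finset (Fin n), chi S y * chi S x = if y = x then 2 ^ n else 0 := by
  simp only [chi, ← prod_mul_distrib]
  rw [← powerset_univ, ← prod_one_add]
  split_ifs with h
  · subst h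
    simp only [← pow_two, sg_sq]
    norm_num
  · obtain ⟨j, hj⟩ := Function.ne_iff.1 h
    refine prod_eq_zero (mem_univ j) ?_
    revert hj
    cases x j <;> cases y j <;> simp [sg]

theorem expand (F : (Fin n → Bool) → ℝ) (x : Fin n → Bool) :
    F x = ∑ S, hat F S * chi S x := by
  simp only [hat, E, mul_sum, sum_mul]
  rw [sum_comm]
  simp only [mul_assoc, ← mul_sum, sum_chi, mul_ite, mul_zero, sum_ite_eq', mem_univ, if_true]
  rw [mul_left_comm, ← mul_pow]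
  norm_num

theorem planch (F G : (Fin n → Bool) → ℝ) :
    E (fun x => F x * G x) = ∑ S, hat F S * hat G S := by
  rw [E_congr (G := fun x => ∑ S, hat G S * (F x * chi S x)) fun x => by
    rw [expand G x, mul_sum]; exact sum_congr rfl fun S _ => by ring, E_sum]
  exact sum_congr rfl fun S _ => by rw [E_mul, mul_comm]; rfl

theorem E_sq (F : (Fin n → Bool) → ℝ) : E (fun x => F x ^ 2) = ∑ S, hat F S ^ 2 := by
  simp only [pow_two, planch]

theorem E_T_sq (ε : ℝ) (F : (Fin n → Bool) → ℝ) :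
    E (fun x => T ε F x ^ 2) = ∑ S, ((1 - 2 * ε) ^ S.card) ^ 2 * hat F S ^ 2 := by
  simp only [E_sq, hat_T, mul_pow]

theorem E_T_mul (ε : ℝ) (F : (Fin n → Bool) → ℝ) :
    E (fun x => T ε F x * F x) = ∑ S, (1 - 2 * ε) ^ S.card * hat F S ^ 2 := by
  simp only [planch, hat_T, pow_two, mul_assoc]

theorem chi_neg (S : Finset (Fin n)) (x : Fin n → Bool) :
    chi S (fun j => !x j) = (-1) ^ S.card * chi S x := by
  simp only [chi, sg_not]
  rw [prod_neg]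

theorem hat_parity {F : (Fin n → Bool) → ℝ} {s : ℝ} (h : ∀ x, F (fun j => !x j) = s * F x)
    {S : Finset (Fin n)} (hS : s * (-1) ^ S.card = -1) : hat F S = 0 := by
  have h1 := E_invol (fun (x : Fin n → Bool) j => !x j) (fun x => by simp)
    (fun x => F x * chi S x)
  have h2 : E (fun x => F (fun j => !x j) * chi S (fun j => !x j)) = -1 * hat F S := by
    rw [hat, ← E_mul]
    exact E_congr fun x => by rw [h, chi_neg]; linear_combination (F x * chi S x) * hS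
  rw [h2] at h1
  change _ = hat F S at h1
  linarith

/-- weight on level one -/
noncomputable def W1 (F : (Fin n → Bool) → ℝ) : ℝ := ∑ i, hat F {i} ^ 2

theorem W1_eq (F : (Fin n → Bool) → ℝ) :
    W1 F = ∑ S, if S.card = 1 then hat F S ^ 2 else 0 := by
  rw [← sum_filter]
  refine sum_bij (fun i _ => {i}) (by simp) (by simp) (fun S hS => ?_) (by simp)
  obtain ⟨i, rfl⟩ := card_eq_one.1 (mem_filter.1 hS).2
  exact ⟨i, mem_univ _, rfl⟩

theorem spec_odd {F : (Fin n → Bool) → ℝ} (h : ∀ x, F (fun j => !x j) = -1 * F x) (c : ℕ → ℝ)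
    (C : ℝ) (hc : ∀ k, 3 ≤ k → c k ≤ C) :
    ∑ S, c S.card * hat F S ^ 2 ≤ c 1 * W1 F + C * (E (fun x => F x ^ 2) - W1 F) := by
  rw [E_sq, W1_eq, ← sum_sub_distrib, mul_sum, mul_sum, ← sum_add_distrib]
  refine sum_le_sum fun S _ => ?_
  split_ifs with h1
  · rw [h1]; simp
  · by_cases h3 : 3 ≤ S.card
    · simpa using mul_le_mul_of_nonneg_right (hc _ h3) (sq_nonneg _)
    · have : S.card = 0 ∨ S.card = 2 := by omega
      rw [hat_parity h (by rcases this with h | h <;> simp [h])]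
      simp

theorem spec_even {F : (Fin n → Bool) → ℝ} (h : ∀ x, F (fun j => !x j) = 1 * F x) (c : ℕ → ℝ)
    (C : ℝ) (hc : ∀ k, 2 ≤ k → c k ≤ C) :
    ∑ S, c S.card * hat F S ^ 2 ≤ c 0 * E F ^ 2 + C * (E (fun x => F x ^ 2) - E F ^ 2) := by
  have e : E F ^ 2 = ∑ S : Finset (Fin n), if S = ∅ then hat F S ^ 2 else 0 := by
    simp [hat, chi]
  rw [E_sq, e, ← sum_sub_distrib, mul_sum, mul_sum, ← sum_add_distrib]
  refine sum_le_sum fun S _ => ?_
  split_ifs with h1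
  · rw [h1]; simp
  · by_cases h3 : 2 ≤ S.card
    · simpa using mul_le_mul_of_nonneg_right (hc _ h3) (sq_nonneg _)
    · have h0 : S.card ≠ 0 := fun h => h1 (card_eq_zero.1 h)
      have : S.card = 1 := by omega
      rw [hat_parity h (by simp [this])]
      simp

theorem W1_le (F : (Fin n → Bool) → ℝ) : W1 F ≤ E (fun x => F x ^ 2) := by
  rw [E_sq, W1_eq]
  exact sum_le_sum fun S _ => by split_ifs <;> simp [sq_nonneg]

theorem E_ell (F : (Fin n → Bool) → ℝ) (a : Fin n → ℝ) :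
    E (fun x => F x * ell a x) = ∑ i, a i * hat F {i} := by
  simp only [ell, mul_sum]
  rw [E_sum]
  refine sum_congr rfl fun i _ => ?_
  rw [hat, ← E_mul]
  exact E_congr fun x => by simp only [chi, prod_singleton]; ring

theorem sum_succ (F : (Fin (n + 1) → Bool) → ℝ) :
    ∑ y, F y = ∑ y : Fin n → Bool, (F (Fin.cons true y) + F (Fin.cons false y)) := by
  rw [← (Fin.consEquiv fun _ => Bool).sum_comp, Fintype.sum_prod_type, sum_comm]
  simp [Fin.consEquiv]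

theorem ell_cons (a : Fin (n + 1) → ℝ) (b : Bool) (y : Fin n → Bool) :
    ell a (Fin.cons b y) = a 0 * sg b + ell (fun j => a j.succ) y := by
  simp [ell, Fin.sum_univ_succ]

theorem E_succ (a : Fin (n + 1) → ℝ) (c : ℝ) (k : ℕ) : E (fun x => (c + ell a x) ^ k) =
    (E (fun x => (c + a 0 + ell (fun j => a j.succ) x) ^ k) +
      E (fun x => (c - a 0 + ell (fun j => a j.succ) x) ^ k)) / 2 := by
  have e : ∀ y : Fin n → Bool, (c + ell a (Fin.cons true y)) ^ k + (c + ell a (Fin.cons false y)) ^ k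
      = (c + a 0 + ell (fun j => a j.succ) y) ^ k + (c - a 0 + ell (fun j => a j.succ) y) ^ k := by
    intro y
    simp only [ell_cons, sg, if_true, Bool.false_eq_true, if_false]
    congr 2 <;> ring
  rw [← E_add, E, E, sum_succ, sum_congr rfl fun y _ => e y, pow_succ]
  ring

theorem mom2 (a : Fin n → ℝ) (c : ℝ) :
    E (fun x => (c + ell a x) ^ 2) = c ^ 2 + ∑ j, a j ^ 2 := by
  induction n generalizing c with
  | zero => simp [ell, E]
  | succ n ih => rw [E_succ, ih, ih]; simp only [Fin.sum_univ_succ]; ring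

theorem mom4 (a : Fin n → ℝ) (c : ℝ) : E (fun x => (c + ell a x) ^ 4) =
    c ^ 4 + 6 * c ^ 2 * ∑ j, a j ^ 2 + (3 * (∑ j, a j ^ 2) ^ 2 - 2 * ∑ j, a j ^ 4) := by
  induction n generalizing c with
  | zero => simp [ell, E]
  | succ n ih => rw [E_succ, ih, ih]; simp only [Fin.sum_univ_succ]; ring

theorem mom6 (a : Fin n → ℝ) (c : ℝ) : E (fun x => (c + ell a x) ^ 6) =
    c ^ 6 + 15 * c ^ 4 * ∑ j, a j ^ 2 +
      15 * c ^ 2 * (3 * (∑ j, a j ^ 2) ^ 2 - 2 * ∑ j, a j ^ 4) +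
      (15 * (∑ j, a j ^ 2) ^ 3 - 30 * (∑ j, a j ^ 2) * ∑ j, a j ^ 4 + 16 * ∑ j, a j ^ 6) := by
  induction n generalizing c with
  | zero => simp [ell, E]
  | succ n ih => rw [E_succ, ih, ih]; simp only [Fin.sum_univ_succ]; ring

theorem mom3 (ε : ℝ) (a : Fin n → ℝ) (x : Fin n → Bool) (c : ℝ) :
    T ε (fun y => (c + ell a y) ^ 3) x = (c + (1 - 2 * ε) * ell a x) ^ 3 +
      3 * (c + (1 - 2 * ε) * ell a x) * (1 - (1 - 2 * ε) ^ 2) * ∑ j, a j ^ 2 -
      2 * (1 - 2 * ε) * (1 - (1 - 2 * ε) ^ 2) * ell (fun j => a j ^ 3) x := by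
  induction n generalizing c with
  | zero => simp [ell, T, ker]
  | succ n ih =>
    obtain ⟨b, x, rfl⟩ : ∃ b y, x = Fin.cons b y := ⟨x 0, Fin.tail x, (Fin.cons_self_tail x).symm⟩
    have e : T ε (fun y => (c + ell a y) ^ 3) (Fin.cons b x) =
        (if true = b then 1 - ε else ε) * T ε (fun y => (c + a 0 + ell (fun j => a j.succ) y) ^ 3) x +
        (if false = b then 1 - ε else ε) *
          T ε (fun y => (c - a 0 + ell (fun j => a j.succ) y) ^ 3) x := by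
      simp only [T, sum_succ, mul_sum, ← sum_add_distrib]
      refine sum_congr rfl fun y _ => ?_
      simp only [ker, Fin.prod_univ_succ, Fin.cons_zero, Fin.cons_succ, ell_cons, sg, if_true,
        Bool.false_eq_true, if_false]
      ring
    rw [e, ih, ih, ell_cons, ell_cons]
    simp only [Fin.sum_univ_succ]
    cases b <;> simp [sg] <;> ring

end Pool.Agent.MP_ebf981_lc

end

section

/-! Certificates for functions with one large coefficient. -/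

namespace Pool.Agent.MP_ebf981_lc

/-- the objective averaged over one coordinate, in terms of the squares -/
noncomputable def pb (a b : ℝ) : ℝ :=
  1 + 21 * a + 35 * a ^ 2 + 7 * a ^ 3 + b * (21 + 210 * a + 105 * a ^ 2) +
    b ^ 2 * (35 + 105 * a) + 7 * b ^ 3

def AdmI (R b0 θ : ℝ) : Prop :=
  ∃ μ ν κ : ℝ, 0 ≤ μ ∧ 0 ≤ ν ∧ κ ≤ 2 * ν ∧ ν * R ^ 2 ≤ μ * (θ * R + (1 - θ) * R ^ 3) ∧
    κ = ν * (1 - b0 * (1 - R ^ 2)) + μ * (θ * R + (1 - θ) * R ^ 3) ∧
    ∀ a e : ℝ, 0 ≤ e → e ≤ 1 → 0 ≤ a → a ≤ e ^ 2 →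
      pb a (R * (1 - e) ^ 2) ≤ pb 0 R - κ * e + ν * e ^ 2 + μ * a

def exA (p q th : ℕ) : Ex :=
  .c th * .c 10000 * itp p q .x + (.c 1000 - .c th) * (itp p q .x).pw 3

def exK (p q bb th mu nu : ℕ) : Ex :=
  .c nu * itp p q .x * (.c 10000000 - .c bb * (.c 10000 - (itp p q .x).pw 2)) + .c mu * exA p q th

def exG (p q bb th mu nu : ℕ) : Ex :=
  let r := itp p q .x
  let a := Ex.z * Ex.y.pw 2
  let b := r * (.c 1 - Ex.y).pw 2
  .c 1000 * ((.c 1000000 + .c 210000 * r + .c 3500 * r.pw 2 + .c 7 * r.pw 3) -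
    (.c 1000000 * (.c 1 + .c 21 * a + .c 35 * a.pw 2 + .c 7 * a.pw 3) +
      .c 10000 * b * (.c 21 + .c 210 * a + .c 105 * a.pw 2) +
      .c 100 * b.pw 2 * (.c 35 + .c 105 * a) + .c 7 * b.pw 3)) -
    exK p q bb th mu nu * .y + .c 10000000 * .c nu * r * Ex.y.pw 2 + .c 1000000000 * .c mu * a

theorem admI_sound {p q bb th mu nu : ℕ} {t1 t2 t3 : Tr} (hpq : p < q)
    (h1 : check wb (exG p q bb th mu nu) t1 = true)
    (h2 : check wb (.c 20000000 * .c nu * itp p q .x - exK p q bb th mu nu) t2 = true)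
    (h3 : check wb (.c mu * exA p q th - .c 1000 * .c nu * (itp p q .x).pw 3) t3 = true)
    {R : ℝ} (r0 : (p : ℝ) / (100 : ℕ) ≤ R) (r1 : R ≤ (q : ℝ) / (100 : ℕ)) :
    AdmI R (bb / 1000) (th / 1000) := by
  obtain ⟨u, u0, u1, hu⟩ := exists_itp (by norm_num) hpq r0 r1
  have hR : 0 ≤ R := le_trans (by positivity) r0
  have a2 := box_sound h2 u0 u1 u0 u1 u0 u1
  have a3 := box_sound h3 u0 u1 u0 u1 u0 u1
  simp only [exK, exA, itp, ev_add, ev_mul, ev_sub, ev_c, ev_x, ev_pw, Nat.cast_one,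
    Nat.cast_ofNat, hu] at a2 a3
  refine ⟨mu, nu * R, _, by positivity, by positivity, ?_, ?_, rfl, fun a e e0 e1 a0 a1 => ?_⟩
  · linear_combination a2 / 1000000000
  · linear_combination a3 / 1000000000
  · obtain ⟨s, s0, s1, hs⟩ : ∃ s : ℝ, 0 ≤ s ∧ s ≤ 1 ∧ a = s * e ^ 2 := by
      rcases eq_or_lt_of_le (sq_nonneg e) with h | h
      · exact ⟨0, le_rfl, by norm_num, by linarith⟩
      · exact ⟨a / e ^ 2, by positivity, (div_le_one h).2 a1, (div_mul_cancel₀ a h.ne').symm⟩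
    have a1 := box_sound h1 u0 u1 e0 e1 s0 s1
    simp only [exG, exK, exA, itp, ev_add, ev_mul, ev_sub, ev_c, ev_x, ev_y, ev_z, ev_pw,
      Nat.cast_one, Nat.cast_ofNat, hu, ← hs] at a1
    unfold pb
    linear_combination a1 / 1000000000

end Pool.Agent.MP_ebf981_lc

end

section

/-! The two relaxations. -/

namespace Pool.Agent.MP_ebf981_lc

open Finset

variable {n : ℕ}

theorem ell_sq (a : Fin n → ℝ) : E (fun x => ell a x ^ 2) = ∑ j, a j ^ 2 := by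
  simpa using mom2 a 0

theorem ell_four (a : Fin n → ℝ) :
    E (fun x => ell a x ^ 4) = 3 * (∑ j, a j ^ 2) ^ 2 - 2 * ∑ j, a j ^ 4 := by
  simpa using mom4 a 0

theorem ell_six (a : Fin n → ℝ) : E (fun x => ell a x ^ 6) =
    15 * (∑ j, a j ^ 2) ^ 3 - 30 * (∑ j, a j ^ 2) * ∑ j, a j ^ 4 + 16 * ∑ j, a j ^ 6 := by
  simpa using mom6 a 0

theorem T_abs {ε : ℝ} (h0 : 0 ≤ ε) (h1 : ε ≤ 1) {f : (Fin n → Bool) → ℝ} (hf : ∀ x, f x ^ 2 = 1)
    (x : Fin n → Bool) : T ε f x ^ 2 ≤ 1 := by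
  have a1 := T_le_one h0 h1 (F := f) (fun y => by nlinarith [hf y]) x
  have a2 := T_le_one h0 h1 (F := fun y => -1 * f y + 0 * f y) (fun y => by nlinarith [hf y]) x
  rw [T_lin] at a2
  nlinarith

theorem sq_eq_one_iff_of_ne_zero' {t : ℝ} (h : t ^ 2 = 1) : t = 1 ∨ t = -1 :=
  sq_eq_sq_iff_eq_or_eq_neg.1 (h.trans (one_pow 2).symm)

theorem pow_le3 {ρ : ℝ} (h0 : 0 ≤ ρ) (h1 : ρ ≤ 1) {k m : ℕ} (hk : m ≤ k) : ρ ^ k ≤ ρ ^ m :=
  pow_le_pow_of_le_one h0 h1 hk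

theorem caseII {ε : ℝ} (h0 : 0 < ε) (h1 : ε < 1 / 2) {f : (Fin n → Bool) → ℝ}
    (hf : ∀ x, f x ^ 2 = 1) (ho : ∀ x, f (fun j => !x j) = -1 * f x) {X : ℝ}
    (hX : ∀ j, hat f {j} ^ 2 ≤ X)
    (h : Adm (1 - 2 * ε) (W1 f) X (∑ j, hat f {j} ^ 4)) :
    E (fun x => psi (T ε f x)) ≤ psi (1 - 2 * ε) := by
  obtain ⟨c0, c1, c2, c3, ka, kb, kc, kd, kf, h3, ha, hkf, hp, hfin⟩ := h
  obtain ⟨ρ, hρ⟩ : ∃ ρ, ρ = 1 - 2 * ε := ⟨_, rfl⟩
  have r0 : 0 ≤ ρ := by linarith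
  have r1 : ρ ≤ 1 := by linarith
  obtain ⟨a, ha'⟩ : ∃ a : Fin n → ℝ, a = fun j => hat f {j} := ⟨_, rfl⟩
  have hW : W1 f = ∑ j, a j ^ 2 := by rw [ha']; rfl
  have ef : E (fun x => f x ^ 2) = 1 := by simp only [hf, E_const]
  have e1 : E (fun x => f x * ell a x) = W1 f := by
    rw [E_ell, hW, ha']; simp only [pow_two]
  have e2 : E (fun x => T ε f x * ell a x) = ρ * W1 f := by
    rw [E_ell, hW, ha', mul_sum, hρ]
    exact sum_congr rfl fun j _ => by rw [hat_T, card_singleton]; ring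
  have e3 : E (fun x => T ε f x * ell a x ^ 3) = ρ ^ 3 * E (fun x => f x * ell a x ^ 3) +
      (ρ - ρ ^ 3) * (3 * W1 f ^ 2 - 2 * ∑ j, a j ^ 4) := by
    have m := fun x => mom3 ε a x 0
    simp only [zero_add, ← hρ, ← hW] at m
    have e4 : E (fun x => f x * ell (fun j => a j ^ 3) x) = ∑ j, a j ^ 4 := by
      rw [E_ell, ha']
      exact sum_congr rfl fun j _ => by ring
    rw [T_adj, E_congr (G := fun x => ρ ^ 3 * (f x * ell a x ^ 3) +
      3 * (ρ - ρ ^ 3) * W1 f * (f x * ell a x) -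
      2 * (ρ - ρ ^ 3) * (f x * ell (fun j => a j ^ 3) x)) fun x => by rw [m]; ring,
      E_sub, E_add, E_mul, E_mul, E_mul, e1, e4]
    ring
  have s1 : E (fun x => T ε f x ^ 2) - ρ ^ 3 * E (fun x => T ε f x * f x) ≤
      (ρ ^ 2 - ρ ^ 4) * W1 f := by
    have := spec_odd ho (fun k => (ρ ^ k) ^ 2 - ρ ^ 3 * ρ ^ k) 0 fun k hk => by
      nlinarith [pow_le3 r0 r1 hk, pow_nonneg r0 k]
    rw [E_T_sq, E_T_mul, ← hρ, mul_sum, ← sum_sub_distrib]
    refine (le_of_eq (sum_congr rfl fun S _ => by ring)).trans (this.trans (le_of_eq (by ring)))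
  have s2 : E (fun x => T ε f x ^ 2) ≤ ρ ^ 2 * W1 f + ρ ^ 6 * (1 - W1 f) := by
    have := spec_odd ho (fun k => (ρ ^ k) ^ 2) (ρ ^ 6) fun k hk => by
      nlinarith [pow_le3 r0 r1 hk, pow_nonneg r0 k]
    rw [E_T_sq, ← hρ]
    rw [ef] at this
    simpa using this
  have s3 : ∑ j, a j ^ 6 ≤ X * ∑ j, a j ^ 4 := by
    rw [mul_sum]
    refine sum_le_sum fun j _ => ?_
    have : a j ^ 2 ≤ X := by rw [ha']; exact hX j
    nlinarith [mul_le_mul_of_nonneg_right this (show 0 ≤ a j ^ 4 by positivity)]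
  have key : ∀ x, psi (T ε f x) ≤ (c0 - kf * ρ ^ 6) +
      (c1 + ka * ρ ^ 2 - kb * ρ - kc + kf * (ρ ^ 2 + ρ ^ 6)) * ell a x ^ 2 +
      (c2 - kd * ρ + kd * ρ ^ 3) * ell a x ^ 4 + c3 * ell a x ^ 6 + (ka + kf) * T ε f x ^ 2 +
      (kb - 2 * ρ * (ka + kf)) * (T ε f x * ell a x) - ka * ρ ^ 3 * (T ε f x * f x) +
      (ka * ρ ^ 4 + kc) * (f x * ell a x) + kd * (T ε f x * ell a x ^ 3) -
      kd * ρ ^ 3 * (f x * ell a x ^ 3) := by
    intro x
    have t := T_abs h0.le (by linarith) hf x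
    have t0 : -1 ≤ T ε f x := by nlinarith
    have t1 : T ε f x ≤ 1 := by nlinarith
    rcases sq_eq_one_iff_of_ne_zero' (hf x) with e | e
    · have := hp (ell a x) (T ε f x) t0 t1
      rw [← hρ] at this
      rw [e]
      linear_combination this
    · have := hp (-ell a x) (-T ε f x) (by linarith) (by linarith)
      rw [← hρ] at this
      rw [e]
      unfold psi at this ⊢
      linear_combination this
  have tot := E_mono key
  simp only [E_add, E_sub, E_mul, E_const, ell_sq, ell_four, ell_six, e1, e2, e3, ← hW] at tot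
  have hq : ∑ j, hat f {j} ^ 4 = ∑ j, a j ^ 4 := by rw [ha']
  rw [← hρ, hq] at hfin
  rw [← hρ]
  linear_combination tot + hfin + mul_nonneg ha (sub_nonneg.2 s1) +
    mul_nonneg hkf (sub_nonneg.2 s2) + 16 * mul_nonneg h3 (sub_nonneg.2 s3)

/-- flip one coordinate -/
def fl (i : Fin n) (x : Fin n → Bool) : Fin n → Bool := Function.update x i (!x i)

theorem fl_fl (i : Fin n) : Function.Involutive (fl i) := fun x => by
  simp [fl]

theorem fl_self (i : Fin n) (x : Fin n → Bool) : fl i x i = !x i := by simp [fl]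

theorem fl_neg (i : Fin n) (x : Fin n → Bool) :
    fl i (fun j => !x j) = fun j => !fl i x j := by
  ext j
  by_cases h : j = i
  · subst h; simp [fl]
  · simp [fl, h]

theorem sum_fl (i : Fin n) (F : (Fin n → Bool) → ℝ) : ∑ y, F (fl i y) = ∑ y, F y :=
  Equiv.sum_comp (fl_fl i).toPerm F

theorem ker_split (ε : ℝ) (i : Fin n) (x y : Fin n → Bool) :
    ker ε x y = (if y i = x i then 1 - ε else ε) *
      ∏ j ∈ univ.erase i, (if y j = x j then 1 - ε else ε) :=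
  (mul_prod_erase univ (fun j => if y j = x j then 1 - ε else ε) (mem_univ i)).symm

theorem ker_fl (ε : ℝ) (i : Fin n) (x y : Fin n → Bool) :
    ker ε x (fl i y) = (if (!y i) = x i then 1 - ε else ε) *
      ∏ j ∈ univ.erase i, (if y j = x j then 1 - ε else ε) := by
  rw [ker_split ε i, fl_self]
  congr 1
  exact prod_congr rfl fun j hj => by simp [fl, (mem_erase.1 hj).1]

theorem T_fl (ε : ℝ) (i : Fin n) (F : (Fin n → Bool) → ℝ) (x : Fin n → Bool) :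
    T ε (fun y => F (fl i y)) x = T ε F (fl i x) := by
  unfold T
  rw [← sum_fl i]
  refine sum_congr rfl fun y _ => ?_
  beta_reduce
  rw [fl_fl i y, ker_symm ε (fl i x) y, ker_fl, ker_fl]
  congr 2
  · cases x i <;> cases y i <;> simp
  · simp only [eq_comm]

theorem T_sg (ε : ℝ) (i : Fin n) {D : (Fin n → Bool) → ℝ} (hD : ∀ y, D (fl i y) = D y)
    (x : Fin n → Bool) :
    T ε (fun y => sg (y i) * D y) x = (1 - 2 * ε) * sg (x i) * T ε D x := by
  have a1 := sum_fl i (fun y => ker ε x y * (sg (y i) * D y))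
  have a2 := sum_fl i (fun y => ker ε x y * D y)
  have a3 : ∑ y, (ker ε x y * (sg (y i) * D y) + ker ε x (fl i y) * (sg (fl i y i) * D (fl i y))) =
      ∑ y, (1 - 2 * ε) * sg (x i) * (ker ε x y * D y + ker ε x (fl i y) * D (fl i y)) := by
    refine sum_congr rfl fun y _ => ?_
    rw [hD, ker_fl, ker_split ε i x y, fl_self]
    cases x i <;> cases y i <;> simp [sg] <;> ring
  rw [← mul_sum, sum_add_distrib, sum_add_distrib, a1, a2] at a3
  unfold T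
  linarith

theorem lev1 {F : (Fin n → Bool) → ℝ} (hF : ∀ x, F x ^ 3 = F x) {θ : ℝ} (h0 : 0 ≤ θ)
    (h : 3 * E (fun x => F x ^ 2) ≤ θ ^ 2 ∨ 1 ≤ θ) : W1 F ≤ θ * E (fun x => F x ^ 2) := by
  have hb : 0 ≤ E (fun x => F x ^ 2) := E_nonneg fun x => sq_nonneg _
  rcases h with h | h
  · obtain ⟨a, ha'⟩ : ∃ a : Fin n → ℝ, a = fun j => hat F {j} := ⟨_, rfl⟩
    have hW : W1 F = ∑ j, a j ^ 2 := by rw [ha']; rfl
    have e1 : E (fun x => (F x ^ 2 * ell a x) * F x) = W1 F := by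
      rw [E_congr (G := fun x => F x * ell a x) fun x => by
        linear_combination ell a x * hF x, E_ell, hW, ha']
      simp only [pow_two]
    have c1 := E_cs (fun x => F x ^ 2 * ell a x) F
    have c2 := E_cs (fun x => F x ^ 2) (fun x => ell a x ^ 2)
    have e2 : E (fun x => (F x ^ 2 * ell a x) ^ 2) = E (fun x => F x ^ 2 * ell a x ^ 2) :=
      E_congr fun x => by linear_combination (F x * ell a x ^ 2) * hF x
    have e3 : E (fun x => (F x ^ 2) ^ 2) = E (fun x => F x ^ 2) :=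
      E_congr fun x => by linear_combination F x * hF x
    have e4 : E (fun x => (ell a x ^ 2) ^ 2) ≤ 3 * W1 F ^ 2 := by
      rw [E_congr (G := fun x => ell a x ^ 4) fun x => by ring, ell_four, ← hW]
      have : 0 ≤ ∑ j, a j ^ 4 := sum_nonneg fun j _ => by positivity
      linarith
    have p1 : 0 ≤ E (fun x => F x ^ 2 * ell a x ^ 2) := E_nonneg fun x => by positivity
    have p2 : 0 ≤ W1 F := sum_nonneg fun j _ => sq_nonneg _
    rw [e1, e2] at c1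
    rw [e3] at c2
    generalize E (fun x => F x ^ 2 * ell a x ^ 2) = u at *
    generalize E (fun x => F x ^ 2) = b at *
    generalize E (fun x => (ell a x ^ 2) ^ 2) = m at *
    generalize W1 F = W at *
    have c3 : u ^ 2 ≤ (θ * W) ^ 2 := by
      calc u ^ 2 ≤ b * (3 * W ^ 2) := c2.trans (mul_le_mul_of_nonneg_left e4 hb)
        _ = (3 * b) * W ^ 2 := by ring
        _ ≤ θ ^ 2 * W ^ 2 := mul_le_mul_of_nonneg_right h (sq_nonneg _)
        _ = (θ * W) ^ 2 := by ring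
    have c4 : u ≤ θ * W := (pow_le_pow_iff_left₀ p1 (by positivity) two_ne_zero).1 c3
    rcases eq_or_lt_of_le p2 with e | e
    · rw [← e]; positivity
    · refine le_of_mul_le_mul_left ?_ e
      nlinarith [mul_le_mul_of_nonneg_right c4 hb]
  · exact (W1_le F).trans (le_mul_of_one_le_left hb h)

theorem caseI {ε : ℝ} (h0 : 0 < ε) (h1 : ε < 1 / 2) {f : (Fin n → Bool) → ℝ}
    (hf : ∀ x, f x ^ 2 = 1) (ho : ∀ x, f (fun j => !x j) = -1 * f x) (i : Fin n) {b0 θ : ℝ}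
    (hb : b0 ≤ |hat f {i}|) (hθ : 0 ≤ θ) (hθ' : 3 * (1 - b0) ≤ θ ^ 2 ∨ 1 ≤ θ)
    (h : AdmI ((1 - 2 * ε) ^ 2) b0 θ) :
    E (fun x => psi (T ε f x)) ≤ psi (1 - 2 * ε) := by
  obtain ⟨μ, ν, κ, hμ, hν, c2, c4, c3, hp⟩ := h
  obtain ⟨ρ, hρ⟩ : ∃ ρ, ρ = 1 - 2 * ε := ⟨_, rfl⟩
  have r0 : 0 ≤ ρ := by linarith
  have r1 : ρ ≤ 1 := by linarith
  rw [← hρ] at c3 c4 hp ⊢
  obtain ⟨s, hs1, hs⟩ : ∃ s : ℝ, s ^ 2 = 1 ∧ s * hat f {i} = |hat f {i}| := by
    rcases abs_cases (hat f {i}) with h | h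
    · exact ⟨1, by norm_num, by rw [h.1, one_mul]⟩
    · exact ⟨-1, by norm_num, by rw [h.1]; ring⟩
  obtain ⟨A, hA⟩ : ∃ A : (Fin n → Bool) → ℝ, A = fun x => 1 / 2 * f x + 1 / 2 * f (fl i x) :=
    ⟨_, rfl⟩
  obtain ⟨D, hD⟩ : ∃ D : (Fin n → Bool) → ℝ,
      D = fun x => s * sg (x i) * (1 / 2 * f x + -1 / 2 * f (fl i x)) := ⟨_, rfl⟩
  have tab : ∀ x, (A x ^ 2 = 1 ∧ D x = 0) ∨ (A x = 0 ∧ D x ^ 2 = 1) := by
    intro x
    have g := sg_sq (x i)
    rcases sq_eq_one_iff_of_ne_zero' (hf x) with e | e <;>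
      rcases sq_eq_one_iff_of_ne_zero' (hf (fl i x)) with e' | e' <;>
      simp only [hA, hD, e, e', mul_pow, hs1, g] <;> norm_num
  have oA : ∀ x, A (fun j => !x j) = -1 * A x := fun x => by
    simp only [hA, fl_neg, ho]; ring
  have oD : ∀ x, D (fun j => !x j) = 1 * D x := fun x => by
    simp only [hD, fl_neg, ho, sg_not]; ring
  have fD : ∀ x, D (fl i x) = D x := fun x => by
    simp only [hD, fl_fl i x, fl_self, sg_not]; ring
  have tA : ∀ x, T ε A x = 1 / 2 * T ε f x + 1 / 2 * T ε f (fl i x) := fun x => by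
    rw [hA, T_lin, T_fl]
  have tD : ∀ x, ρ * sg (x i) * T ε D x = s * (1 / 2 * T ε f x + -1 / 2 * T ε f (fl i x)) := by
    intro x
    rw [hρ, ← T_sg ε i fD, ← T_fl, mul_add, ← mul_assoc, ← mul_assoc, ← T_lin]
    congr 1
    ext y
    simp only [hD]
    linear_combination (s * (1 / 2 * f y + -1 / 2 * f (fl i y))) * sg_sq (y i)
  have bd : ∀ x, |T ε A x| + |T ε D x| ≤ 1 := by
    intro x
    have : ∀ u v : ℝ, u ^ 2 = 1 → v ^ 2 = 1 → u * T ε A x + v * T ε D x ≤ 1 := by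
      intro u v hu hv
      rw [← T_lin]
      refine T_le_one h0.le (by linarith) (fun y => ?_) x
      rcases tab y with ⟨p, q⟩ | ⟨p, q⟩
      · rw [q]; nlinarith [sq_nonneg (u - A y)]
      · rw [p]; nlinarith [sq_nonneg (v - D y)]
    have t1 := this 1 1 (by norm_num) (by norm_num)
    have t2 := this 1 (-1) (by norm_num) (by norm_num)
    have t3 := this (-1) 1 (by norm_num) (by norm_num)
    have t4 := this (-1) (-1) (by norm_num) (by norm_num)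
    rcases abs_cases (T ε A x) with p | p <;> rcases abs_cases (T ε D x) with q | q <;> linarith
  have key : ∀ x, 1 / 2 * psi (T ε f x) + 1 / 2 * psi (T ε f (fl i x)) ≤ (psi ρ + ν - κ) +
      (κ - 2 * ν) * T ε D x + ν * T ε D x ^ 2 + μ * T ε A x ^ 2 := by
    intro x
    have b1 := bd x
    have b2 := abs_nonneg (T ε A x)
    have b3 := abs_nonneg (T ε D x)
    have b4 := hp (T ε A x ^ 2) (1 - |T ε D x|) (by linarith) (by linarith) (sq_nonneg _)
      (by rw [← sq_abs]; exact pow_le_pow_left₀ b2 (by linarith) 2)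
    have b5 : ρ ^ 2 * (1 - (1 - |T ε D x|)) ^ 2 =
        (1 / 2 * T ε f x + -1 / 2 * T ε f (fl i x)) ^ 2 := by
      rw [sub_sub_cancel, sq_abs]
      have := congrArg (fun t => t ^ 2) (tD x)
      simp only [mul_pow, sg_sq, hs1, mul_one, one_mul] at this
      exact this
    rw [b5, tA] at b4
    have b6 := mul_le_mul_of_nonneg_left (le_abs_self (T ε D x)) (sub_nonneg.2 c2)
    rw [tA]
    unfold psi
    unfold pb at b4
    linear_combination b4 + b6 + ν * sq_abs (T ε D x)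
  have tot := E_mono key
  have eD : E D = |hat f {i}| := by
    have := E_invol _ (fl_fl i) (fun x => f (fl i x) * sg (x i))
    simp only [fl_fl i _, fl_self, sg_not] at this
    rw [E_congr (F := fun x => f x * -sg (x i)) (G := fun x => -1 * (f x * sg (x i)))
      fun x => by ring, E_mul] at this
    have e : hat f {i} = E (fun x => f x * sg (x i)) := by simp [hat, chi]
    rw [← hs, e, hD, E_congr (G := fun x => s / 2 * (f x * sg (x i)) -
      s / 2 * (f (fl i x) * sg (x i))) fun x => by ring, E_sub, E_mul, E_mul, ← this]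
    ring
  have eT : E (T ε D) = E D := by
    have := hat_T ε D ∅
    simpa [hat, chi] using this
  have eI : E D ≤ E (fun x => D x ^ 2) := E_mono fun x => by
    rcases tab x with ⟨_, q⟩ | ⟨_, q⟩
    · rw [q]; norm_num
    · nlinarith [sq_nonneg (1 - D x)]
  have eA : E (fun x => A x ^ 2) = 1 - E (fun x => D x ^ 2) := by
    rw [← E_const (n := n) 1, ← E_sub]
    exact E_congr fun x => by
      rcases tab x with ⟨p, q⟩ | ⟨p, q⟩ <;> rw [p, q] <;> norm_num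
  have pA : 0 ≤ E (fun x => A x ^ 2) := E_nonneg fun x => sq_nonneg _
  have s1 : E (fun x => T ε D x ^ 2) ≤ E D ^ 2 + ρ ^ 4 * (E (fun x => D x ^ 2) - E D ^ 2) := by
    have := spec_even oD (fun k => (ρ ^ k) ^ 2) (ρ ^ 4) fun k hk => by
      nlinarith [pow_le3 r0 r1 hk, pow_nonneg r0 k]
    rw [E_T_sq, ← hρ]
    simpa using this
  have s2 : E (fun x => T ε A x ^ 2) ≤ ρ ^ 2 * W1 A + ρ ^ 6 * (E (fun x => A x ^ 2) - W1 A) := by
    have := spec_odd oA (fun k => (ρ ^ k) ^ 2) (ρ ^ 6) fun k hk => by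
      nlinarith [pow_le3 r0 r1 hk, pow_nonneg r0 k]
    rw [E_T_sq, ← hρ]
    simpa using this
  have s3 : W1 A ≤ θ * E (fun x => A x ^ 2) := lev1 (fun x => by
    rcases tab x with ⟨p, _⟩ | ⟨p, _⟩
    · linear_combination A x * p
    · rw [p]; norm_num) hθ (hθ'.imp (fun h => by linarith) id)
  have s4 : 0 ≤ ρ ^ 2 - ρ ^ 6 := sub_nonneg.2 (pow_le3 r0 r1 (by norm_num))
  have s5 : 0 ≤ 1 - ρ ^ 4 := sub_nonneg.2 (pow_le_one₀ r0 r1)
  rw [E_add, E_mul, E_mul, E_invol _ (fl_fl i) (fun x => psi (T ε f x))] at tot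
  simp only [E_add, E_mul, E_const] at tot
  rw [eT] at tot
  rw [← eD] at hb
  rw [eA] at pA s2 s3
  generalize E (fun x => D x ^ 2) = I at *
  generalize E D = b at *
  have u1 := mul_nonneg hν (sub_nonneg.2 s1)
  have u2 := mul_nonneg hμ (sub_nonneg.2 s2)
  have u3 := mul_nonneg hμ (mul_nonneg s4 (sub_nonneg.2 s3))
  have u4 := mul_nonneg (sub_nonneg.2 eI) (sub_nonneg.2 c4)
  have u5 := mul_nonneg (mul_nonneg hν s5)
    (mul_nonneg (show 0 ≤ 1 - b by linarith) (sub_nonneg.2 hb))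
  subst c3
  linear_combination tot + u1 + u2 + u3 + u4 + u5

end Pool.Agent.MP_ebf981_lc

end

section

/-! Nine players: definitions over the reals. -/

namespace Pool.Agent.MP_ebf981_lc.N9

open Finset

/-- the objective for nine players -/
noncomputable def P9 (g : ℝ) : ℝ := 36 * g ^ 2 + 126 * g ^ 4 + 84 * g ^ 6 + 9 * g ^ 8

/-- noise operator with correlation `ρ` -/
noncomputable def TT {n : ℕ} (ρ : ℝ) (f : (Fin n → Bool) → ℝ) : (Fin n → Bool) → ℝ :=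
  T ((1 - ρ) / 2) f

noncomputable def FF {n : ℕ} (ρ : ℝ) (f : (Fin n → Bool) → ℝ) : ℝ := E (fun x => P9 (TT ρ f x))

/-- odd Boolean functions -/
def OB {n : ℕ} (f : (Fin n → Bool) → ℝ) : Prop :=
  (∀ x, f x ^ 2 = 1) ∧ ∀ x, f (fun j => !x j) = -1 * f x

/-- admissible margins for interpolation in the correlation -/
def IOk (a b m0 m1 : ℝ) : Prop :=
  ∃ β bb cc lam C0 C1 : ℝ, 0 < lam ∧ 0 ≤ bb ∧ 0 ≤ C0 ∧ 0 ≤ C1 ∧
    (∀ g : ℝ, g ^ 2 ≤ 1 →
      (72 * g + 504 * g ^ 3 + 504 * g ^ 5 + 72 * g ^ 7 - β * g) ^ 2 ≤ bb * g ^ 2 + cc) ∧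
    (∀ ρ : ℝ, a ≤ ρ → ρ ≤ b →
      72 * ρ ^ 2 + 504 * ρ ^ 6 + 180 * ρ ^ 8 + lam / 2 * (bb * ρ ^ 2 + cc) ≤ C0 * ρ ^ 5) ∧
    (∀ ρ : ℝ, a ≤ ρ → ρ ≤ b → ∀ k : ℕ, 3 ≤ k →
      ρ ^ (2 * k) * (((k : ℝ) - 1) ^ 4 / (2 * lam) - β * ((k : ℝ) - 1) ^ 2 + 216 * ((k : ℝ) - 1)) -
        lam / 2 * bb * (ρ ^ 2 - ρ ^ 6) ≤ C1 * ρ ^ 5) ∧
    C0 * (b - a) ^ 2 / 8 ≤ m0 ∧ C1 * (b - a) ^ 2 / 8 ≤ m1

/-- the claim proved by one tree of certificates -/
def Grid (ρ bb ws U0 U1 : ℝ) : Prop :=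
  ∀ (n : ℕ) (f : (Fin n → Bool) → ℝ), OB f → (∀ i, |hat f {i}| ≤ bb) →
    W1 f < ws ∨ FF ρ f ≤ U0 - U1 * (1 - W1 f)

/-- three head coordinates and a normalised tail -/
def Cf {m : ℕ} (f : (Fin (m + 3) → Bool) → ℝ) (α : ℕ → ℝ) (a : Fin m → ℝ) (ω : ℝ) : Prop :=
  OB f ∧ hat f {0} = α 0 ∧ hat f {1} = α 1 ∧ hat f {2} = α 2 ∧
    (∀ i : Fin m, hat f {i.succ.succ.succ} = ω * a i) ∧ ∑ i, a i ^ 2 = 1

/-- a cell of configurations -/
structure Cl where
  lo : ℕ → ℝ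
  hi : ℕ → ℝ
  w0 : ℝ
  w1 : ℝ
  U : ℝ

def CellP (ρ X Q0 Q1 : ℝ) (c : Cl) : Prop :=
  ∀ (m : ℕ) (f : (Fin (m + 3) → Bool) → ℝ) (α : ℕ → ℝ) (a : Fin m → ℝ) (ω : ℝ), Cf f α a ω →
    (∀ j < 3, c.lo j ≤ α j ∧ α j ≤ c.hi j) → c.w0 ≤ ω → ω ≤ c.w1 → (∀ i, a i ^ 2 ≤ X) →
    Q0 ≤ ∑ i, a i ^ 4 → ∑ i, a i ^ 4 ≤ Q1 → FF ρ f ≤ c.U

/-- relations between squared heads, tail weights, normalised maxima and fourth moments -/
def Rl (A W x Q : ℕ → ℝ) : Prop :=
  (∀ j ≤ 3, 0 ≤ W j ∧ W j ≤ 1 ∧ 0 ≤ x j ∧ x j ≤ 1 ∧ A j = x j * W j ∧ x j ^ 2 ≤ Q j ∧ Q j ≤ x j) ∧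
    ∀ j < 3, W j = A j + W (j + 1) ∧ A (j + 1) ≤ A j

/-- the configuration of level `k` -/
def Lev {n : ℕ} (f : (Fin n → Bool) → ℝ) (A W x Q : ℕ → ℝ) (k : ℕ) : Prop :=
  ∃ (m : ℕ) (f' : (Fin (m + 3) → Bool) → ℝ) (α : ℕ → ℝ) (a : Fin m → ℝ) (ω : ℝ), Cf f' α a ω ∧
    (∀ ρ, FF ρ f' = FF ρ f) ∧ 0 ≤ ω ∧ ω ^ 2 = W k ∧
    (∀ j < 3, 0 ≤ α j ∧ α j ^ 2 = if j < k then A j else 0) ∧ (∀ i, a i ^ 2 ≤ x k) ∧
    ∑ i, a i ^ 4 = Q k

/-! ### the eight head states -/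

def sb (x j : ℕ) : ℝ := if x / 2 ^ j % 2 = 1 then -1 else 1

def ch (S x : ℕ) : ℝ :=
  (if S % 2 = 1 then sb x 0 else 1) * (if S / 2 % 2 = 1 then sb x 1 else 1) *
    (if S / 4 % 2 = 1 then sb x 2 else 1)

def crd (S : ℕ) : ℕ := S % 2 + S / 2 % 2 + S / 4 % 2

def wt (c : ℕ → ℝ) (x : ℕ) : ℝ := ∑ S ∈ range 8, ch S x * c S

def pt {m : ℕ} (x : ℕ) (y : Fin m → Bool) : Fin (m + 3) → Bool :=
  Fin.cons (decide (x % 2 = 0)) (Fin.cons (decide (x / 2 % 2 = 0)) (Fin.cons (decide (x / 4 % 2 = 0)) y))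

def tl {m : ℕ} (X : Fin (m + 3) → Bool) : Fin m → Bool := fun i => X i.succ.succ.succ

def st {m : ℕ} (X : Fin (m + 3) → Bool) : ℕ :=
  (if X 0 = true then 0 else 1) + (if X 1 = true then 0 else 2) + (if X 2 = true then 0 else 4)

/-- function on the whole cube with given head coefficients -/
def lf {m : ℕ} (B : (Fin m → Bool) → ℕ → ℝ) (X : Fin (m + 3) → Bool) : ℝ := wt (B (tl X)) (st X)

def qf (k k3 kg d w : ℝ) : ℝ := k * d ^ 2 - k3 * (d * w) - kg * w ^ 2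

/-- the Lagrangian averaged over the head states -/
noncomputable def HH (vp k k3 kg : ℝ) (G F p0 p1 : ℕ → ℝ) (L : ℝ) (f g : ℕ → ℝ) : ℝ :=
  (∑ x ∈ range 8, (vp * P9 (g x) - g x * wt G x + f x * wt F x -
    qf k k3 kg (g x - wt p1 x) (f x - wt p0 x))) / 8 - L

def FG (f g : ℕ → ℝ) : Prop := ∀ x < 8, f x ^ 2 = 1 ∧ g x ^ 2 ≤ 1

/-! ### environments and certificates -/

structure Ev where
  ρ : ℝ
  X : ℝ
  Q0 : ℝ
  Q1 : ℝ
  lam : ℝ
  isv : ℝ
  t : ℕ → ℝ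
  R : ℕ → ℝ
  c : ℕ → ℝ
  d : ℕ → ℝ
  er : ℕ → ℝ
  pm : ℕ → ℝ
  pr : ℕ → ℝ
  al : ℕ → ℝ
  be : ℕ → ℝ
  ga : ℕ → ℝ
  et : ℕ → ℝ
  lo : ℕ → ℕ → ℝ
  hi : ℕ → ℕ → ℝ

structure Ct where
  vp : ℝ
  k : ℝ
  k3 : ℝ
  kg : ℝ
  c2 : ℝ
  c4 : ℝ
  c6 : ℝ
  mu : ℝ
  nu : ℝ
  y : ℕ → ℕ → ℝ
  b : ℕ → ℕ → ℝ
  a : ℕ → ℕ → ℝ
  yc : ℕ → ℝ

noncomputable def cs (S : ℕ) (θ : ℝ) : ℝ := if crd S % 2 = 1 then Real.cos θ else Real.sin θ

def li (S : ℕ) (a0 a1 z u : ℝ) : ℝ := if crd S % 2 = 1 then a0 else a0 * z + a1 * u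

def evn (S : ℕ) : ℝ := if crd S % 2 = 1 then 0 else 1

noncomputable def B0 (e : Ev) (y : ℕ → ℕ → ℝ) (z u : ℝ) (S : ℕ) : ℝ :=
  li S (y S 0) (y S 1) z u + ∑ j ∈ range 7, y S (j + 2) * cs S (e.t j * z)

noncomputable def B1 (e : Ev) (y : ℕ → ℕ → ℝ) (z u : ℝ) (S : ℕ) : ℝ :=
  e.ρ ^ crd S * (li S (y S 0) (y S 1) (e.ρ * z) (e.ρ * u) +
    ∑ j ∈ range 7, y S (j + 2) * (e.R j * cs S (e.c j * z + e.d j * u)))

def BA (a : ℕ → ℕ → ℝ) (z u : ℝ) (S : ℕ) : ℝ := li S (a S 0) (a S 1) z u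

noncomputable def Lw (e : Ev) (c2 c4 c6 mu nu : ℝ) (yc : ℕ → ℝ) (z u : ℝ) : ℝ :=
  c2 * z ^ 2 + c4 * z ^ 4 + c6 * z ^ 6 + mu * u ^ 2 + nu * (u * z) +
    ∑ j ∈ range 7, yc j * Real.cos (e.t j * z)

noncomputable def HZ (e : Ev) (c : Ct) (z u : ℝ) (f g : ℕ → ℝ) : ℝ :=
  HH c.vp c.k c.k3 c.kg (B0 e c.y z u) (fun S => B1 e c.y z u S - BA c.a z u S) (B0 e c.b z u)
    (B1 e c.b z u) (Lw e c.c2 c.c4 c.c6 c.mu c.nu c.yc z u) f g

/-- coefficients of the second tail statistic -/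
def uv {m : ℕ} (e : Ev) (a : Fin m → ℝ) : Fin m → ℝ := fun i => (a i ^ 3 - e.lam * a i) * e.isv

def vq (e : Ev) (v : ℕ) : ℝ := if v < 2 then e.Q0 else e.Q1

def v3 (e : Ev) (v : ℕ) : ℝ := if v % 2 = 0 then 2 * e.lam * vq e v - e.lam ^ 2 else e.X * vq e v

def Tail {m : ℕ} (e : Ev) (a : Fin m → ℝ) : Prop :=
  ∑ i, a i ^ 2 = 1 ∧ (∀ i, a i ^ 2 ≤ e.X) ∧ e.Q0 ≤ ∑ i, a i ^ 4 ∧ ∑ i, a i ^ 4 ≤ e.Q1

def TOk {m : ℕ} (e : Ev) (a : Fin m → ℝ) : Prop :=
  ∀ j < 7, 0 ≤ e.er j ∧ ∀ S, E (fun y => (TT e.ρ (fun y' => cs S (e.t j * ell a y')) y -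
    e.R j * cs S (e.c j * ell a y + e.d j * ell (uv e a) y)) ^ 2) ≤ e.er j ^ 2

def Wv {m : ℕ} (e : Ev) (a : Fin m → ℝ) (w : ℕ → ℝ) : Prop :=
  (∀ v < 4, 0 ≤ w v) ∧ ∑ v ∈ range 4, w v = 1 ∧ ∑ v ∈ range 4, w v * vq e v = ∑ i, a i ^ 4 ∧
    ∑ v ∈ range 4, w v * v3 e v = ∑ i, a i ^ 6

def LOk {m : ℕ} (e : Ev) (a : Fin m → ℝ) (w : ℕ → ℝ) : Prop :=
  ∀ j < 7, ∑ v ∈ range 4, w v * e.lo j v ≤ E (fun y => Real.cos (e.t j * ell a y)) ∧
    E (fun y => Real.cos (e.t j * ell a y)) ≤ ∑ v ∈ range 4, w v * e.hi j v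

def COk {m : ℕ} (e : Ev) (a : Fin m → ℝ) : Prop :=
  ∀ j < 7, |E (fun y => Real.cos (e.t j * ell a y)) - e.pm j| ≤ e.pr j ∧
    ∀ i, |hat (fun y => Real.sin (e.t j * ell a y)) {i} -
      a i * (e.al j + e.be j * a i ^ 2 + e.ga j * a i ^ 4)| ≤ e.et j * |a i|

def EnvOk (e : Ev) : Prop :=
  0 ≤ e.ρ ∧ e.ρ ≤ 1 ∧ (∀ v < 4, e.isv ^ 2 * (v3 e v - 2 * e.lam * vq e v + e.lam ^ 2) ≤ 1) ∧
    ∀ (m : ℕ) (a : Fin m → ℝ), Tail e a →
      TOk e a ∧ COk e a ∧ ∀ w, Wv e a w → LOk e a w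

/-- squared error of the approximation of the noise operator -/
noncomputable def ee (e : Ev) (y : ℕ → ℕ → ℝ) : ℝ :=
  ∑ S ∈ range 8, (e.ρ ^ crd S * ∑ j ∈ range 7, |y S (j + 2)| * e.er j) ^ 2

noncomputable def Whd (e : Ev) (b : ℕ → ℕ → ℝ) (c : Cl) (j : ℕ) : ℝ :=
  (c.hi j - c.lo j) / 2 +
    |(c.lo j + c.hi j) / 2 - b (2 ^ j) 0 - ∑ i ∈ range 7, b (2 ^ j) (i + 2) * e.pm i| +
    ∑ i ∈ range 7, |b (2 ^ j) (i + 2)| * e.pr i

noncomputable def Wg0 (e : Ev) (b : ℕ → ℕ → ℝ) (c : Cl) : ℝ :=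
  (c.w0 + c.w1) / 2 - b 0 0 + b 0 1 * e.lam * e.isv - ∑ i ∈ range 7, b 0 (i + 2) * e.al i

noncomputable def Wg1 (e : Ev) (b : ℕ → ℕ → ℝ) : ℝ :=
  -(b 0 1 * e.isv) - ∑ i ∈ range 7, b 0 (i + 2) * e.be i

noncomputable def Wg2 (e : Ev) (b : ℕ → ℕ → ℝ) : ℝ := -∑ i ∈ range 7, b 0 (i + 2) * e.ga i

noncomputable def Wtl (e : Ev) (b : ℕ → ℕ → ℝ) (c : Cl) : ℝ :=
  (c.w1 - c.w0) / 2 +
    max |Wg0 e b c - Wg2 e b * e.X ^ 2 / 8|
      |Wg0 e b c + Wg1 e b * e.X + Wg2 e b * e.X ^ 2 - Wg2 e b * e.X ^ 2 / 8| +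
    |Wg2 e b * e.X ^ 2 / 8| + ∑ i ∈ range 7, |b 0 (i + 2)| * e.et i

/-- bound for the level one weight of the centred function -/
noncomputable def WB (e : Ev) (b : ℕ → ℕ → ℝ) (c : Cl) : ℝ :=
  Wtl e b c ^ 2 + Whd e b c 0 ^ 2 + Whd e b c 1 ^ 2 + Whd e b c 2 ^ 2

/-- constants of the linear rows at a vertex -/
noncomputable def cvA (e : Ev) (a : ℕ → ℕ → ℝ) (c : Cl) (v : ℕ) : ℝ :=
  ∑ j ∈ range 3, (a (2 ^ j) 0 * ((c.lo j + c.hi j) / 2) + |a (2 ^ j) 0| * ((c.hi j - c.lo j) / 2)) +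
    ((c.w0 + c.w1) / 2 * (a 0 0 + a 0 1 * ((vq e v - e.lam) * e.isv)) +
      (c.w1 - c.w0) / 2 * |a 0 0 + a 0 1 * ((vq e v - e.lam) * e.isv)|)

noncomputable def cvL (e : Ev) (c : Ct) (v : ℕ) : ℝ :=
  c.c2 + c.c4 * (3 - 2 * vq e v) + c.c6 * (15 - 30 * vq e v + 16 * v3 e v) +
    c.mu * (e.isv ^ 2 * (v3 e v - 2 * e.lam * vq e v + e.lam ^ 2)) +
    c.nu * ((vq e v - e.lam) * e.isv) +
    ∑ j ∈ range 7, (max (c.yc j) 0 * e.hi j v - max (-c.yc j) 0 * e.lo j v)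

/-- conditions on the quadratic row -/
def QOk (ρ k k3 kg γ c1 ce : ℝ) : Prop :=
  0 ≤ k ∧ 0 ≤ γ ∧ 0 ≤ c1 ∧ k * ρ ^ 3 ≤ k3 ∧ γ * k3 ^ 2 ≤ kg ∧
    k * ρ ^ 2 - k3 * ρ + γ * (2 * k * ρ - k3) ^ 2 - kg ≤ c1 ∧ 1 ≤ 4 * γ * (ce - k)

def AZ (a : ℕ → ℕ → ℝ) : Prop :=
  (∀ j < 2, a 3 j = 0 ∧ a 5 j = 0 ∧ a 6 j = 0) ∧ a 7 0 = 0

/-- bound on the central region -/
def Cen (e : Ev) (c : Ct) (M : ℝ) : Prop :=
  ∀ z u : ℝ, 0 ≤ z → z ≤ 765 / 128 → |u| ≤ 93 / 16 → ∀ f g, FG f g → HZ e c z u f g ≤ M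

/-- bound on the outer region -/
def Out (e : Ev) (c : Ct) (M At : ℝ) : Prop :=
  ∀ z u : ℝ, 29 / 5 ≤ max |z| |u| → ∀ f g, FG f g → HZ e c z u f g ≤ M + At * max |z| |u| ^ 6

/-! ### the grid of nodes -/

noncomputable def zn (i : ℕ) : ℝ := 3 / 128 * i

noncomputable def un (l : ℕ) : ℝ := 3 / 8 * l - 93 / 16

def bil (Φ : ℕ → ℕ → ℝ) (i l : ℕ) (s r : ℝ) : ℝ :=
  (1 - s) * (1 - r) * Φ i l + s * (1 - r) * Φ (i + 1) l + (1 - s) * r * Φ i (l + 1) +
    s * r * Φ (i + 1) (l + 1)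

/-- the array is close to the function at the nodes -/
def Nd (φ : ℝ → ℝ → ℝ) (Φ : ℕ → ℕ → ℝ) (ε : ℝ) : Prop :=
  ∀ i < 256, ∀ l < 32, |Φ i l - φ (zn i) (un l)| ≤ ε

/-- the bilinear interpolant of the array is close to the function -/
def Ap (φ : ℝ → ℝ → ℝ) (Φ : ℕ → ℕ → ℝ) (ε : ℝ) : Prop :=
  ∀ i < 255, ∀ l < 31, ∀ s r : ℝ, 0 ≤ s → s ≤ 1 → 0 ≤ r → r ≤ 1 →
    |φ (zn i + s * (3 / 128)) (un l + r * (3 / 8)) - bil Φ i l s r| ≤ ε

/-- one sided version -/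
def ApL (φ : ℝ → ℝ → ℝ) (Φ : ℕ → ℕ → ℝ) (ε : ℝ) : Prop :=
  ∀ i < 255, ∀ l < 31, ∀ s r : ℝ, 0 ≤ s → s ≤ 1 → 0 ≤ r → r ≤ 1 →
    φ (zn i + s * (3 / 128)) (un l + r * (3 / 8)) ≥ bil Φ i l s r - ε

/-- differences of neighbouring entries -/
def Lp (Φ : ℕ → ℕ → ℝ) (lz lu : ℝ) : Prop :=
  (∀ i < 255, ∀ l < 32, |Φ (i + 1) l - Φ i l| ≤ lz) ∧ ∀ i < 256, ∀ l < 31, |Φ i (l + 1) - Φ i l| ≤ lu

noncomputable def K0 (e : Ev) (y : ℕ → ℕ → ℝ) (S : ℕ) : ℝ :=
  9 / 131072 * ∑ j ∈ range 7, |y S (j + 2)| * e.t j ^ 2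

noncomputable def Z0 (e : Ev) (y : ℕ → ℕ → ℝ) (S : ℕ) : ℝ :=
  3 / 128 * (evn S * |y S 0| + ∑ j ∈ range 7, |y S (j + 2)| * |e.t j|)

noncomputable def U0 (y : ℕ → ℕ → ℝ) (S : ℕ) : ℝ := 3 / 8 * (evn S * |y S 1|)

noncomputable def K1 (e : Ev) (y : ℕ → ℕ → ℝ) (S : ℕ) : ℝ :=
  e.ρ ^ crd S * ∑ j ∈ range 7, |y S (j + 2)| *
    (|e.R j| * (9 / 131072 * e.c j ^ 2 + 9 / 512 * e.d j ^ 2))

noncomputable def Z1 (e : Ev) (y : ℕ → ℕ → ℝ) (S : ℕ) : ℝ :=
  3 / 128 * (e.ρ ^ crd S * (evn S * e.ρ * |y S 0| +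
    ∑ j ∈ range 7, |y S (j + 2)| * (|e.R j| * |e.c j|)))

noncomputable def U1 (e : Ev) (y : ℕ → ℕ → ℝ) (S : ℕ) : ℝ :=
  3 / 8 * (e.ρ ^ crd S * (evn S * e.ρ * |y S 1| +
    ∑ j ∈ range 7, |y S (j + 2)| * (|e.R j| * |e.d j|)))

/-- interpolation error of the law rows -/
noncomputable def KL (e : Ev) (c2 c4 c6 mu : ℝ) (yc : ℕ → ℝ) : ℝ :=
  9 / 65536 * max c2 0 + 1 / 65536 * max c4 0 + 1 / 262144 * max c6 0 + 9 / 256 * max mu 0 +
    9 / 131072 * ∑ j ∈ range 7, |yc j| * e.t j ^ 2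

/-- sum of absolute values of the first `n` coefficients -/
noncomputable def sa (y : ℕ → ℝ) (n : ℕ) : ℝ := ∑ j ∈ range n, |y j|

/-- the part of the interpolation error that comes from the quadratic row -/
noncomputable def KQ (k k3 kg e0 e1 z0 u0 z1 u1 : ℝ) : ℝ :=
  k * (z1 ^ 2 + u1 ^ 2) / 4 + k3 * (z1 * z0 + u1 * u0) / 4 + k3 * (e1 * e0) + kg * e0 ^ 2

/-- envelope of the one dimensional problem -/
noncomputable def Mv (k1 θs : ℝ) (θ : ℕ → ℝ) (L : ℕ) (a : ℝ) : ℝ :=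
  k1 / 16384 + (∑ l ∈ range L, max (min a θs - θ l) 0) / 64 + max (a - θs) 0

noncomputable def sv (vp k1 : ℝ) (l : ℕ) : ℝ := vp * P9 (l / 64) - k1 * (l / 64) ^ 2

/-- size of the bounded part of a row -/
noncomputable def D0 (y : ℕ → ℕ → ℝ) : ℝ :=
  ∑ S ∈ range 8, ((1 - evn S) * |y S 0| + ∑ j ∈ range 7, |y S (j + 2)|)

/-- size of the linear part of a row -/
noncomputable def D1 (y : ℕ → ℕ → ℝ) : ℝ := ∑ S ∈ range 8, evn S * (|y S 0| + |y S 1|)

noncomputable def DA0 (a : ℕ → ℕ → ℝ) : ℝ := ∑ S ∈ range 8, (1 - evn S) * |a S 0|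

/-- crude bound in the outer region -/
noncomputable def Atl (c : Ct) (M : ℝ) : ℝ :=
  |c.c6| + (5 / 29) ^ 2 * |c.c4| +
    (5 / 29) ^ 4 * (|c.c2| + |c.mu| + |c.nu| + (c.k3 / 2 + c.kg) * (5 / 29 * (1 + D0 c.b) + D1 c.b) ^ 2) +
    (5 / 29) ^ 5 * (2 * D1 c.y + D1 c.a) +
    (5 / 29) ^ 6 * (255 * c.vp + 2 * D0 c.y + DA0 c.a + sa c.yc 7 + |M|)

end Pool.Agent.MP_ebf981_lc.N9

end

section

namespace Pool.Agent.MP_ebf981_lc.N9

open Finset

variable {m : ℕ}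

theorem par8 (c c' : ℕ → ℝ) :
    (∑ x ∈ range 8, wt c x * wt c' x) / 8 = ∑ S ∈ range 8, c S * c' S := by
  simp [wt, sum_range_succ, ch, sb]
  ring

theorem ch_sq (S x : ℕ) : ch S x ^ 2 = 1 := by
  have h : ∀ j, sb x j ^ 2 = 1 := fun j => by unfold sb; split_ifs <;> norm_num
  unfold ch
  split_ifs <;> simp [mul_pow, h]

theorem ch_bar {S x : ℕ} (hS : S < 8) (hx : x < 8) : ch S (7 - x) = (-1) ^ crd S * ch S x := by
  interval_cases S <;> interval_cases x <;> norm_num [ch, sb, crd]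

theorem wt_abs (c : ℕ → ℝ) (x : ℕ) : |wt c x| ≤ ∑ S ∈ range 8, |c S| := by
  refine (abs_sum_le_sum_abs _ _).trans (sum_le_sum fun S _ => ?_)
  have h : |ch S x| = 1 := by
    rw [← abs_one, ← sq_eq_sq_iff_abs_eq_abs, ch_sq, one_pow]
  rw [abs_mul, h, one_mul]

theorem tl_pt (x : ℕ) (y : Fin m → Bool) : tl (pt x y) = y := by
  rfl

theorem st_pt {x : ℕ} (hx : x < 8) (y : Fin m → Bool) : st (pt x y) = x := by
  have e : st (pt x y) = (if decide (x % 2 = 0) = true then 0 else 1) +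
      (if decide (x / 2 % 2 = 0) = true then 0 else 2) +
      (if decide (x / 4 % 2 = 0) = true then 0 else 4) := rfl
  rw [e]
  interval_cases x <;> rfl

theorem lf_pt (B : (Fin m → Bool) → ℕ → ℝ) {x : ℕ} (hx : x < 8) (y : Fin m → Bool) :
    lf B (pt x y) = wt (B y) x := by
  rw [lf, tl_pt, st_pt hx]

theorem E_fibre (φ : (Fin (m + 3) → Bool) → ℝ) :
    E φ = E (fun y : Fin m → Bool => (∑ x ∈ range 8, φ (pt x y)) / 8) := by
  unfold E
  rw [sum_succ, sum_succ, sum_succ, mul_sum, mul_sum]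
  refine sum_congr rfl fun y _ => ?_
  simp [sum_range_succ, pt]
  ring

theorem ch_st_NFib (S : ℕ) (X : Fin (m + 3) → Bool) : ch S (st X) =
    (if S % 2 = 1 then sg (X 0) else 1) * (if S / 2 % 2 = 1 then sg (X 1) else 1) *
      (if S / 4 % 2 = 1 then sg (X 2) else 1) := by
  unfold ch st
  cases X 0 <;> cases X 1 <;> cases X 2 <;> simp [sb, sg]

theorem T_sum_NFib {ι : Type} (ε : ℝ) (s : Finset ι) (F : ι → (Fin m → Bool) → ℝ)
    (x : Fin m → Bool) : T ε (fun y => ∑ i ∈ s, F i y) x = ∑ i ∈ s, T ε (F i) x := by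
  simp only [T, mul_sum]
  exact sum_comm

theorem T_bit_NFib (ε : ℝ) (c : Prop) [Decidable c] (G : (Fin m → Bool) → ℝ)
    (X : Fin (m + 1) → Bool) :
    T ε (fun Y => (if c then sg (Y 0) else 1) * G (Fin.tail Y)) X =
      (if c then 1 - 2 * ε else 1) * ((if c then sg (X 0) else 1) * T ε G (Fin.tail X)) := by
  obtain ⟨b, x, rfl⟩ : ∃ b y, X = Fin.cons b y := ⟨X 0, Fin.tail X, (Fin.cons_self_tail X).symm⟩
  simp only [T, sum_succ, mul_sum]
  refine sum_congr rfl fun y _ => ?_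
  simp only [ker, Fin.prod_univ_succ, Fin.cons_zero, Fin.cons_succ, Fin.tail_cons]
  by_cases h : c <;> cases b <;> simp [h, sg] <;> ring

theorem TT_lf (ρ : ℝ) (B : (Fin m → Bool) → ℕ → ℝ) :
    TT ρ (lf B) = lf (fun y S => ρ ^ crd S * TT ρ (fun y' => B y' S) y) := by
  funext X
  refine (T_sum_NFib ((1 - ρ) / 2) (range 8)
    (fun S (X : Fin (m + 3) → Bool) => ch S (st X) * B (tl X) S) X).trans ?_
  rw [lf, wt]
  refine sum_congr rfl fun S _ => ?_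
  have h2 := T_bit_NFib ((1 - ρ) / 2) (S / 4 % 2 = 1) (fun y => B y S) (Fin.tail (Fin.tail X))
  have h1 := T_bit_NFib ((1 - ρ) / 2) (S / 2 % 2 = 1) (fun Y : Fin (m + 1) → Bool =>
    (if S / 4 % 2 = 1 then sg (Y 0) else 1) * B (Fin.tail Y) S) (Fin.tail X)
  have h0 := T_bit_NFib ((1 - ρ) / 2) (S % 2 = 1) (fun Y : Fin (m + 2) → Bool =>
    (if S / 2 % 2 = 1 then sg (Y 0) else 1) * ((if S / 4 % 2 = 1 then sg (Fin.tail Y 0) else 1) *
      B (Fin.tail (Fin.tail Y)) S)) X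
  rw [h1, h2] at h0
  have hp : ∀ k : ℕ, ρ ^ (k % 2) = if k % 2 = 1 then 1 - 2 * ((1 - ρ) / 2) else 1 := fun k => by
    rcases Nat.mod_two_eq_zero_or_one k with h | h <;> simp [h]
    ring
  simp only [ch_st_NFib, mul_assoc, crd, pow_add, hp]
  refine h0.trans ?_
  change _ * (_ * (_ * ((if _ then sg (X 1) else 1) * (_ * ((if _ then sg (X 2) else 1) *
    TT ρ (fun y => B y S) (tl X)))))) = _
  ring

theorem E_lf_mul (B B' : (Fin m → Bool) → ℕ → ℝ) :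
    E (fun X => lf B X * lf B' X) = ∑ S ∈ range 8, E (fun y => B y S * B' y S) := by
  rw [E_fibre, ← E_sum]
  refine E_congr fun y => ?_
  rw [← par8 (B y) (B' y)]
  refine congrArg (· / 8) (sum_congr rfl fun x hx => ?_)
  rw [lf_pt B (mem_range.1 hx), lf_pt B' (mem_range.1 hx)]

theorem delta_NFib (B : (Fin m → Bool) → ℕ → ℝ) {S : ℕ} (hS : S < 8)
    (G : (Fin m → Bool) → ℝ) :
    E (fun X => lf B X * (ch S (st X) * G (tl X))) = E (fun y => B y S * G y) := by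
  have e : ∀ X, ch S (st X) * G (tl X) = lf (fun y S' => if S' = S then G y else 0) X := by
    intro X
    simp [lf, wt, hS]
  simp only [e, E_lf_mul]
  rw [sum_eq_single S (fun S' _ h => by simp [h, E_const]) (by simp [hS])]
  simp

theorem hat_lf_head (B : (Fin m → Bool) → ℕ → ℝ) :
    hat (lf B) {0} = E (fun y => B y 1) ∧ hat (lf B) {1} = E (fun y => B y 2) ∧
      hat (lf B) {2} = E (fun y => B y 4) := by
  refine ⟨?_, ?_, ?_⟩
  · have := delta_NFib B (S := 1) (by norm_num) fun _ => 1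
    simpa [ch_st_NFib, hat, chi] using this
  · have := delta_NFib B (S := 2) (by norm_num) fun _ => 1
    simpa [ch_st_NFib, hat, chi] using this
  · have := delta_NFib B (S := 4) (by norm_num) fun _ => 1
    simpa [ch_st_NFib, hat, chi] using this

theorem hat_lf_tail (B : (Fin m → Bool) → ℕ → ℝ) (i : Fin m) :
    hat (lf B) {i.succ.succ.succ} = hat (fun y => B y 0) {i} := by
  have := delta_NFib B (S := 0) (by norm_num) fun y => sg (y i)
  simpa [ch_st_NFib, hat, chi, tl] using this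

theorem lf_odd {B : (Fin m → Bool) → ℕ → ℝ}
    (h : ∀ S < 8, ∀ y, B (fun j => !y j) S = -((-1) ^ crd S * B y S)) (X : Fin (m + 3) → Bool) :
    lf B (fun j => !X j) = -1 * lf B X := by
  have e : tl (fun j => !X j) = fun j => !tl X j := rfl
  simp only [lf, wt, e, mul_sum]
  refine sum_congr rfl fun S hS => ?_
  have hS' := mem_range.1 hS
  rw [h S hS']
  simp only [ch_st_NFib, sg_not]
  interval_cases S <;> norm_num [crd]

theorem W1_split (F : (Fin (m + 3) → Bool) → ℝ) :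
    W1 F = ∑ i : Fin m, hat F {i.succ.succ.succ} ^ 2 + hat F {0} ^ 2 + hat F {1} ^ 2 +
      hat F {2} ^ 2 := by
  simp only [W1, Fin.sum_univ_succ]
  have h1 : (0 : Fin (m + 2)).succ = 1 := rfl
  have h2 : (0 : Fin (m + 1)).succ.succ = 2 := rfl
  rw [h1, h2]
  ring

theorem lf_lin (B : (Fin m → Bool) → ℕ → ℝ) (a : Fin m → ℝ) (c0 c1 c2 : ℝ)
    (h0 : ∀ y, B y 0 = ell a y) (h1 : ∀ y, B y 1 = c0) (h2 : ∀ y, B y 2 = c1) (h4 : ∀ y, B y 4 = c2)
    (hz : ∀ y, B y 3 = 0 ∧ B y 5 = 0 ∧ B y 6 = 0 ∧ B y 7 = 0) (F : (Fin (m + 3) → Bool) → ℝ) :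
    E (fun X => F X * lf B X) = c0 * hat F {0} + c1 * hat F {1} + c2 * hat F {2} +
      ∑ i : Fin m, a i * hat F {i.succ.succ.succ} := by
  have e : ∀ X, F X * lf B X = c0 * (F X * chi {0} X) + c1 * (F X * chi {1} X) +
      c2 * (F X * chi {2} X) + ∑ i : Fin m, a i * (F X * chi {i.succ.succ.succ} X) := by
    intro X
    obtain ⟨z3, z5, z6, z7⟩ := hz (tl X)
    have e1 : ∑ i : Fin m, a i * (F X * chi {i.succ.succ.succ} X) = F X * ell a (tl X) := by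
      simp only [ell, mul_sum, chi, prod_singleton, tl]
      exact sum_congr rfl fun i _ => by ring
    rw [e1]
    simp [lf, wt, sum_range_succ, h0, h1, h2, h4, z3, z5, z6, z7, ch_st_NFib, chi]
    ring
  rw [E_congr e, E_add, E_add, E_add, E_mul, E_mul, E_mul, E_sum]
  simp only [E_mul]
  rfl

theorem ell_neg (a : Fin m → ℝ) (y : Fin m → Bool) : ell a (fun j => !y j) = -ell a y := by
  simp [ell, sg_not]

theorem TT_ell (ρ : ℝ) (a : Fin m → ℝ) (y : Fin m → Bool) : TT ρ (ell a) y = ρ * ell a y := by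
  have e : ell a = fun y => ∑ j, a j * chi {j} y := by
    funext y
    simp [ell, chi]
  rw [e, TT, T_sum_NFib, mul_sum]
  refine sum_congr rfl fun j _ => ?_
  have := T_lin ((1 - ρ) / 2) (a j) 0 (chi {j}) (chi {j}) y
  simp only [zero_mul, add_zero] at this
  rw [this, T_chi, card_singleton]
  ring

end Pool.Agent.MP_ebf981_lc.N9

end

section

namespace Pool.Agent.MP_ebf981_lc.N9

open Finset

theorem low_NNode {vp k1 θs : ℝ} {θ : ℕ → ℝ} {L : ℕ}
    (h1 : ∀ l < L, θ l ≤ 64 * (sv vp k1 l - sv vp k1 (l + 1)))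
    (h2 : ∀ l, L < l → l ≤ 64 →
      sv vp k1 l + θs * l / 64 ≤ (∑ i ∈ range L, max (θs - θ i) 0) / 64)
    {a : ℝ} (ha : a ≤ θs) {l : ℕ} (hl : l ≤ 64) :
    sv vp k1 l + a * l / 64 ≤ (∑ i ∈ range L, max (a - θ i) 0) / 64 := by
  rcases le_or_gt l L with h | h
  · have h3 : ∀ l ≤ L, sv vp k1 l + a * l / 64 ≤ (∑ i ∈ range l, max (a - θ i) 0) / 64 := by
      intro l
      induction l with
      | zero => intro _; simp [sv, P9]
      | succ l ih =>
        intro h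
        have := ih (by omega)
        have := h1 l (by omega)
        have := le_max_left (a - θ l) 0
        rw [sum_range_succ]
        push_cast
        linarith
    refine (h3 l h).trans (div_le_div_of_nonneg_right ?_ (by norm_num))
    exact sum_le_sum_of_subset_of_nonneg (range_mono h) fun _ _ _ => le_max_right _ _
  · have h3 := h2 l h hl
    have h4 : ∑ i ∈ range L, max (θs - θ i) 0 ≤ ∑ i ∈ range L, (max (a - θ i) 0 + (θs - a)) :=
      sum_le_sum fun i _ => max_le (by linarith [le_max_left (a - θ i) 0])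
        (by linarith [le_max_right (a - θ i) 0])
    rw [sum_add_distrib, sum_const, card_range, nsmul_eq_mul] at h4
    have h5 : (L : ℝ) ≤ l := by exact_mod_cast h.le
    nlinarith [mul_le_mul_of_nonneg_right h5 (sub_nonneg.2 ha)]

theorem conv_NNode {x y t : ℝ} (hx : 0 ≤ x) (hy : 0 ≤ y) (t0 : 0 ≤ t) (t1 : t ≤ 1) :
    P9 ((1 - t) * x + t * y) ≤ (1 - t) * P9 x + t * P9 y := by
  have h := fun n : ℕ => (convexOn_pow (𝕜 := ℝ) n).2 hx hy (sub_nonneg.2 t1) t0 (by ring)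
  simp only [smul_eq_mul] at h
  unfold P9
  linarith [h 2, h 4, h 6, h 8]

theorem env_le {vp k1 θs : ℝ} {θ : ℕ → ℝ} {L : ℕ} (hv : 0 ≤ vp) (hk : 0 ≤ k1) (hL : L ≤ 64)
    (h1 : ∀ l < L, θ l ≤ 64 * (sv vp k1 l - sv vp k1 (l + 1)))
    (h2 : ∀ l, L < l → l ≤ 64 →
      sv vp k1 l + θs * l / 64 ≤ (∑ i ∈ range L, max (θs - θ i) 0) / 64)
    (a g : ℝ) (hg : g ^ 2 ≤ 1) : vp * P9 g - k1 * g ^ 2 + g * a ≤ Mv k1 θs θ L |a| := by
  have hn : ∀ l : ℕ, l ≤ 64 → sv vp k1 l + |a| * l / 64 ≤ Mv k1 θs θ L |a| - k1 / 16384 := by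
    intro l hl
    have h3 := low_NNode h1 h2 (min_le_right |a| θs) hl
    have h4 : |a| = min |a| θs + max (|a| - θs) 0 := by
      rcases le_total |a| θs with h | h
      · rw [min_eq_left h, max_eq_right (by linarith), add_zero]
      · rw [min_eq_right h, max_eq_left (by linarith)]; ring
    have h5 : (l : ℝ) ≤ 64 := by exact_mod_cast hl
    have h6 := mul_le_mul_of_nonneg_left h5 (le_max_right (|a| - θs) 0)
    have h7 : |a| * l = min |a| θs * l + max (|a| - θs) 0 * l := by rw [← add_mul, ← h4]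
    unfold Mv
    linarith
  have g1 : |g| ≤ 1 := (sq_le_one_iff_abs_le_one g).1 hg
  obtain ⟨l, t, hl, t0, t1, e⟩ : ∃ (l : ℕ) (t : ℝ), l + 1 ≤ 64 ∧ 0 ≤ t ∧ t ≤ 1 ∧
      |g| = (1 - t) * (l / 64) + t * ((l + 1 : ℕ) / 64) := by
    rcases g1.eq_or_lt with h | h
    · exact ⟨63, 1, le_rfl, zero_le_one, le_rfl, by rw [h]; norm_num⟩
    · have h0 : 0 ≤ 64 * |g| := by positivity
      refine ⟨⌊64 * |g|⌋₊, 64 * |g| - ⌊64 * |g|⌋₊, (Nat.floor_lt h0).2 (by push_cast; linarith),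
        sub_nonneg.2 (Nat.floor_le h0), by linarith [Nat.lt_floor_add_one (64 * |g|)], ?_⟩
      push_cast
      ring
  have c1 := conv_NNode (x := (l : ℝ) / 64) (y := ((l + 1 : ℕ) : ℝ) / 64) (by positivity)
    (by positivity) t0 t1
  have c2 : P9 g = P9 |g| := by
    simp only [P9, Even.pow_abs (by decide : Even 2), Even.pow_abs (by decide : Even 4),
      Even.pow_abs (by decide : Even 6), Even.pow_abs (by decide : Even 8)]
  have c3 : g * a ≤ |g| * |a| := by rw [← abs_mul]; exact le_abs_self _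
  have c4 := mul_le_mul_of_nonneg_left (hn l (by omega)) (sub_nonneg.2 t1)
  have c5 := mul_le_mul_of_nonneg_left (hn (l + 1) hl) t0
  have c6 := mul_le_mul_of_nonneg_left c1 hv
  have c7 := mul_nonneg hk (sq_nonneg (2 * t - 1))
  rw [c2, ← sq_abs g]
  rw [e] at c3 ⊢
  unfold sv at c4 c5
  push_cast at *
  nlinarith

theorem wt_lin_NNode (a b c : ℝ) (p q r s : ℕ → ℝ) (h : ∀ S, s S = a * p S + b * q S + c * r S)
    (x : ℕ) : wt s x = a * wt p x + b * wt q x + c * wt r x := by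
  simp only [wt, mul_sum, ← sum_add_distrib]
  exact sum_congr rfl fun S _ => by rw [h]; ring

/-- the Lagrangian at a node, in factorised form -/
theorem HH_node (vp k1 i1 i2 L : ℝ) (φ Fc p0 q' f g : ℕ → ℝ) (hf : ∀ x < 8, f x ^ 2 = 1) :
    HH vp k1 (k1 * (i1 - i2)) (k1 * i1 * i2)
      (fun S => -φ S + k1 * ((q' S - (i1 + i2) * p0 S) + q' S))
      (fun S => Fc S - k1 * (i2 * (q' S - (i1 + i2) * p0 S) - i1 * q' S))
      p0 (fun S => q' S - i2 * p0 S) L f g =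
    (∑ x ∈ range 8, (vp * P9 (g x) - k1 * g x ^ 2 + g x * (wt φ x + k1 * (i1 - i2) * f x) +
      f x * wt Fc x)) / 8 - k1 * ∑ S ∈ range 8, (q' S - (i1 + i2) * p0 S) * q' S +
      k1 * i1 * i2 - L := by
  rw [HH, ← par8]
  have h : ∀ x ∈ range 8, vp * P9 (g x) -
      g x * wt (fun S => -φ S + k1 * ((q' S - (i1 + i2) * p0 S) + q' S)) x +
      f x * wt (fun S => Fc S - k1 * (i2 * (q' S - (i1 + i2) * p0 S) - i1 * q' S)) x -
      qf k1 (k1 * (i1 - i2)) (k1 * i1 * i2) (g x - wt (fun S => q' S - i2 * p0 S) x)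
        (f x - wt p0 x) =
      vp * P9 (g x) - k1 * g x ^ 2 + g x * (wt φ x + k1 * (i1 - i2) * f x) + f x * wt Fc x -
        k1 * (wt (fun S => q' S - (i1 + i2) * p0 S) x * wt q' x) + k1 * i1 * i2 := by
    intro x hx
    rw [wt_lin_NNode (-1) (2 * k1) (-(k1 * (i1 + i2))) φ q' p0
        (fun S => -φ S + k1 * ((q' S - (i1 + i2) * p0 S) + q' S)) fun S => by ring,
      wt_lin_NNode 1 (k1 * (i1 - i2)) (k1 * i2 * (i1 + i2)) Fc q' p0
        (fun S => Fc S - k1 * (i2 * (q' S - (i1 + i2) * p0 S) - i1 * q' S)) fun S => by ring,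
      wt_lin_NNode 1 (-i2) 0 q' p0 p0 (fun S => q' S - i2 * p0 S) fun S => by ring,
      wt_lin_NNode 1 (-(i1 + i2)) 0 q' p0 p0 (fun S => q' S - (i1 + i2) * p0 S) fun S => by ring,
      qf]
    linear_combination (k1 * i1 * i2) * hf x (mem_range.1 hx)
  rw [sum_congr rfl h, sum_add_distrib, sum_sub_distrib, ← mul_sum, sum_const, card_range,
    nsmul_eq_mul]
  push_cast
  ring

theorem li_NNode (S : ℕ) (a0 a1 : ℝ) {z u r : ℝ} (hz : |z| ≤ r) (hu : |u| ≤ r) :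
    |li S a0 a1 z u| ≤ (1 - evn S) * |a0| + evn S * (|a0| + |a1|) * r := by
  unfold li evn
  split_ifs
  · simp
  · refine (abs_add_le _ _).trans ?_
    rw [abs_mul, abs_mul]
    nlinarith [mul_le_mul_of_nonneg_left hz (abs_nonneg a0),
      mul_le_mul_of_nonneg_left hu (abs_nonneg a1)]

theorem cs_NNode (S : ℕ) (θ : ℝ) : |cs S θ| ≤ 1 := by
  unfold cs
  split_ifs
  · exact Real.abs_cos_le_one _
  · exact Real.abs_sin_le_one _

theorem sum_NNode (y v : ℕ → ℝ) (h : ∀ j < 7, |v j| ≤ 1) :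
    |∑ j ∈ range 7, y j * v j| ≤ ∑ j ∈ range 7, |y j| :=
  (abs_sum_le_sum_abs _ _).trans (sum_le_sum fun j hj => by
    rw [abs_mul]
    exact mul_le_of_le_one_right (abs_nonneg _) (h j (mem_range.1 hj)))

theorem row_NNode {y : ℕ → ℕ → ℝ} {r : ℝ} {B : ℕ → ℝ} (h : ∀ S, |B S| ≤ (1 - evn S) * |y S 0| +
    evn S * (|y S 0| + |y S 1|) * r + ∑ j ∈ range 7, |y S (j + 2)|) :
    ∑ S ∈ range 8, |B S| ≤ D0 y + D1 y * r := by
  rw [D0, D1, sum_mul, ← sum_add_distrib]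
  exact sum_le_sum fun S _ => (h S).trans_eq (by ring)

theorem B0_NNode (e : Ev) (y : ℕ → ℕ → ℝ) {z u r : ℝ} (hz : |z| ≤ r) (hu : |u| ≤ r) :
    ∑ S ∈ range 8, |B0 e y z u S| ≤ D0 y + D1 y * r :=
  row_NNode fun S => (abs_add_le _ _).trans
    (add_le_add (li_NNode S _ _ hz hu) (sum_NNode _ _ fun _ _ => cs_NNode _ _))

theorem B1_NNode {e : Ev} (r0 : 0 ≤ e.ρ) (r1 : e.ρ ≤ 1) (hR : ∀ j < 7, |e.R j| ≤ 1)
    (y : ℕ → ℕ → ℝ) {z u r : ℝ} (hz : |z| ≤ r) (hu : |u| ≤ r) :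
    ∑ S ∈ range 8, |B1 e y z u S| ≤ D0 y + D1 y * r := by
  have h : ∀ z : ℝ, |z| ≤ r → |e.ρ * z| ≤ r := fun z hz => by
    rw [abs_mul, abs_of_nonneg r0]
    exact (mul_le_of_le_one_left (abs_nonneg _) r1).trans hz
  refine row_NNode fun S => ?_
  rw [B1, abs_mul, abs_of_nonneg (pow_nonneg r0 _)]
  refine (mul_le_of_le_one_left (abs_nonneg _) (pow_le_one₀ r0 r1)).trans ?_
  refine (abs_add_le _ _).trans (add_le_add (li_NNode S _ _ (h z hz) (h u hu))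
    (sum_NNode _ _ fun j hj => ?_))
  rw [abs_mul]
  exact mul_le_one₀ (hR j hj) (abs_nonneg _) (cs_NNode _ _)

theorem BA_NNode (a : ℕ → ℕ → ℝ) {z u r : ℝ} (hz : |z| ≤ r) (hu : |u| ≤ r) :
    ∑ S ∈ range 8, |BA a z u S| ≤ DA0 a + D1 a * r := by
  rw [DA0, D1, sum_mul, ← sum_add_distrib]
  exact sum_le_sum fun S _ => li_NNode S _ _ hz hu

theorem evn_NNode (S : ℕ) : 0 ≤ evn S ∧ 0 ≤ 1 - evn S := by
  unfold evn
  split_ifs <;> norm_num

theorem D_NNode (y : ℕ → ℕ → ℝ) : 0 ≤ D0 y ∧ 0 ≤ D1 y ∧ 0 ≤ DA0 y :=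
  ⟨sum_nonneg fun S _ => add_nonneg (mul_nonneg (evn_NNode S).2 (abs_nonneg _))
      (sum_nonneg fun _ _ => abs_nonneg _),
    sum_nonneg fun S _ => mul_nonneg (evn_NNode S).1 (by positivity),
    sum_nonneg fun S _ => mul_nonneg (evn_NNode S).2 (abs_nonneg _)⟩

theorem neg_mul_NNode (c x : ℝ) {b : ℝ} (h : |x| ≤ b) : -(c * x) ≤ |c| * b :=
  (neg_le_abs _).trans ((abs_mul c x).trans_le (mul_le_mul_of_nonneg_left h (abs_nonneg c)))

theorem Lw_NNode (e : Ev) (c : Ct) {z u r : ℝ} (hz : |z| ≤ r) (hu : |u| ≤ r) :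
    -Lw e c.c2 c.c4 c.c6 c.mu c.nu c.yc z u ≤
      |c.c6| * r ^ 6 + |c.c4| * r ^ 4 + (|c.c2| + |c.mu| + |c.nu|) * r ^ 2 + sa c.yc 7 := by
  have h : ∀ (z : ℝ) (n : ℕ), |z| ≤ r → |z ^ n| ≤ r ^ n := fun z n hz => by
    rw [abs_pow]
    exact pow_le_pow_left₀ (abs_nonneg _) hz n
  have h1 := neg_mul_NNode c.c2 _ (h z 2 hz)
  have h2 := neg_mul_NNode c.c4 _ (h z 4 hz)
  have h3 := neg_mul_NNode c.c6 _ (h z 6 hz)
  have h4 := neg_mul_NNode c.mu _ (h u 2 hu)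
  have h5 := neg_mul_NNode c.nu (u * z) (b := r ^ 2) (by
    rw [abs_mul, sq]
    exact mul_le_mul hu hz (abs_nonneg _) ((abs_nonneg _).trans hz))
  have h6 := (neg_le_abs _).trans
    (sum_NNode c.yc (fun j => Real.cos (e.t j * z)) fun _ _ => Real.abs_cos_le_one _)
  unfold Lw sa
  linarith

theorem term_NNode {vp k k3 kg f g G F p1 p0 bG bF w : ℝ} (hv : 0 ≤ vp) (h3 : 0 ≤ k3)
    (h3' : k3 ≤ 2 * k) (hg : 0 ≤ kg) (f1 : f ^ 2 = 1) (g1 : g ^ 2 ≤ 1) (hG : |G| ≤ bG)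
    (hF : |F| ≤ bF) (hw : 1 + |p0| ≤ w) :
    vp * P9 g - g * G + f * F - qf k k3 kg (g - p1) (f - p0) ≤
      255 * vp + bG + bF + (k3 / 2 + kg) * w ^ 2 := by
  have f2 : |f| ≤ 1 := (sq_le_one_iff_abs_le_one f).1 f1.le
  have g2 : |g| ≤ 1 := (sq_le_one_iff_abs_le_one g).1 g1
  have a1 : P9 g ≤ 255 := by
    have h : ∀ n, g ^ (2 * n) ≤ 1 := fun n => by
      rw [pow_mul]
      exact pow_le_one₀ (sq_nonneg g) g1
    have h4 : g ^ 4 ≤ 1 := h 2
    have h6 : g ^ 6 ≤ 1 := h 3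
    have h8 : g ^ 8 ≤ 1 := h 4
    unfold P9
    linarith
  have a2 : -(g * G) ≤ bG := (neg_mul_NNode g G hG).trans
    (mul_le_of_le_one_left ((abs_nonneg _).trans hG) g2)
  have a3 : f * F ≤ bF := (le_abs_self _).trans ((abs_mul f F).trans_le
    ((mul_le_of_le_one_left (abs_nonneg _) f2).trans hF))
  have a4 : (f - p0) ^ 2 ≤ w ^ 2 :=
    sq_le_sq' (by linarith [abs_le.1 f2, le_abs_self p0]) (by linarith [abs_le.1 f2, neg_le_abs p0])
  have a5 := mul_le_mul_of_nonneg_left a4 (show 0 ≤ k3 / 2 + kg by positivity)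
  have a6 := mul_le_mul_of_nonneg_left a1 hv
  have a7 := mul_nonneg h3 (sq_nonneg (g - p1 - (f - p0)))
  have a8 := mul_nonneg (sub_nonneg.2 h3') (sq_nonneg (g - p1))
  unfold qf
  nlinarith

theorem crude {e : Ev} {c : Ct} (M : ℝ) (r0 : 0 ≤ e.ρ) (r1 : e.ρ ≤ 1) (hR : ∀ j < 7, |e.R j| ≤ 1)
    (hv : 0 ≤ c.vp) (h3 : 0 ≤ c.k3) (h3' : c.k3 ≤ 2 * c.k) (hg : 0 ≤ c.kg) :
    Out e c M (Atl c M) := by
  intro z u hr f g hfg
  have hz := le_max_left |z| |u|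
  have hu := le_max_right |z| |u|
  generalize max |z| |u| = r at hr hz hu ⊢
  have s1 : 1 ≤ 5 / 29 * r := by linarith
  have r0' : 0 ≤ r := by linarith
  obtain ⟨y0, y1, -⟩ := D_NNode c.y
  obtain ⟨b0, b1, -⟩ := D_NNode c.b
  obtain ⟨-, a1, a0⟩ := D_NNode c.a
  have hs : 0 ≤ sa c.yc 7 := sum_nonneg fun _ _ => abs_nonneg _
  have ht : ∀ x ∈ range 8, c.vp * P9 (g x) - g x * wt (B0 e c.y z u) x +
      f x * wt (fun S => B1 e c.y z u S - BA c.a z u S) x -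
      qf c.k c.k3 c.kg (g x - wt (B1 e c.b z u) x) (f x - wt (B0 e c.b z u) x) ≤
      255 * c.vp + (D0 c.y + D1 c.y * r) + (D0 c.y + D1 c.y * r + (DA0 c.a + D1 c.a * r)) +
        (c.k3 / 2 + c.kg) * ((5 / 29 * (1 + D0 c.b) + D1 c.b) * r) ^ 2 := fun x hx => by
    refine term_NNode hv h3 h3' hg (hfg x (mem_range.1 hx)).1 (hfg x (mem_range.1 hx)).2
      ((wt_abs _ x).trans (B0_NNode e _ hz hu)) ((wt_abs _ x).trans ?_) ?_
    · refine le_trans ?_ (add_le_add (B1_NNode r0 r1 hR c.y hz hu) (BA_NNode c.a hz hu))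
      rw [← sum_add_distrib]
      exact sum_le_sum fun S _ => abs_sub _ _
    · have := (wt_abs _ x).trans (B0_NNode e c.b hz hu)
      nlinarith [mul_le_mul_of_nonneg_left s1 (show 0 ≤ 1 + D0 c.b by positivity)]
  have h1 := sum_le_card_nsmul _ _ _ ht
  rw [card_range, nsmul_eq_mul] at h1
  have h2 := Lw_NNode e c hz hu
  have p : ∀ (m n : ℕ) (C : ℝ), 0 ≤ C → C * r ^ n ≤ (5 / 29) ^ m * C * r ^ (m + n) :=
    fun m n C hC => by
      have := mul_le_mul_of_nonneg_left (one_le_pow₀ (n := m) s1) (mul_nonneg hC (pow_nonneg r0' n))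
      rw [mul_pow] at this
      rw [pow_add]
      linarith
  have p1 := p 2 4 |c.c4| (abs_nonneg _)
  have p2 := p 4 2 (|c.c2| + |c.mu| + |c.nu| +
    (c.k3 / 2 + c.kg) * (5 / 29 * (1 + D0 c.b) + D1 c.b) ^ 2) (by positivity)
  have p3 := p 5 1 (2 * D1 c.y + D1 c.a) (by positivity)
  have p4 := p 6 0 (255 * c.vp + 2 * D0 c.y + DA0 c.a + sa c.yc 7 + |M|) (by positivity)
  have p5 := neg_le_abs M
  unfold HZ HH Atl
  rw [mul_pow] at h1
  push_cast at h1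
  linarith

end Pool.Agent.MP_ebf981_lc.N9

end

section

namespace Pool.Agent.MP_ebf981_lc.N9

open Finset

variable {m : ℕ}

theorem E_exp_NTail (a : Fin m → ℝ) (h : ∑ i, a i ^ 2 ≤ 1) (l : ℝ) :
    E (fun y => Real.exp (l * ell a y)) ≤ Real.exp (l ^ 2 / 2) := by
  have h1 : E (fun y => Real.exp (l * ell a y)) = ∏ j, Real.cosh (l * a j) := by
    simp only [E, ell, mul_sum, Real.exp_sum]
    rw [← mul_sum, sum_prod (fun j b => Real.exp (l * (a j * sg b)))]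
    have e : (1 / 2 : ℝ) ^ m = ∏ _j : Fin m, (1 / 2 : ℝ) := by simp
    rw [e, ← prod_mul_distrib]
    refine prod_congr rfl fun j _ => ?_
    rw [Real.cosh_eq]
    simp [sg]
    ring
  rw [h1]
  calc ∏ j, Real.cosh (l * a j) ≤ ∏ j, Real.exp ((l * a j) ^ 2 / 2) :=
        prod_le_prod (fun j _ => (Real.cosh_pos _).le) fun j _ => Real.cosh_le_exp_half_sq _
    _ = Real.exp (l ^ 2 / 2 * ∑ j, a j ^ 2) := by
        rw [← Real.exp_sum, mul_sum]
        congr 1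
        exact sum_congr rfl fun j _ => by ring
    _ ≤ Real.exp (l ^ 2 / 2) := Real.exp_le_exp.2 (mul_le_of_le_one_right (by positivity) h)

theorem pt_NTail (z : ℝ) : (if 29 / 5 ≤ |z| then z ^ 6 else 0) ≤
    (29 / 5) ^ 6 * Real.exp (-(29 / 5) ^ 2) *
      (Real.exp (29 / 5 * z) + Real.exp (-(29 / 5) * z)) := by
  split_ifs with hz
  · have h1 : |z| / (29 / 5) ≤ Real.exp (|z| / (29 / 5) - 1) := by
      linarith [Real.add_one_le_exp (|z| / (29 / 5) - 1)]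
    have h2 : (|z| / (29 / 5)) ^ 6 ≤ Real.exp (29 / 5 * |z| + -(29 / 5) ^ 2) := by
      refine (pow_le_pow_left₀ (by positivity) h1 6).trans ?_
      rw [← Real.exp_nat_mul, Real.exp_le_exp]
      push_cast
      linarith
    have h3 : Real.exp (29 / 5 * |z|) ≤ Real.exp (29 / 5 * z) + Real.exp (-(29 / 5) * z) := by
      rcases abs_cases z with ⟨e, -⟩ | ⟨e, -⟩
      · rw [e]; linarith [Real.exp_pos (-(29 / 5) * z)]
      · rw [e, show (29 / 5 : ℝ) * -z = -(29 / 5) * z by ring]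
        linarith [Real.exp_pos (29 / 5 * z)]
    have h4 : z ^ 6 = (29 / 5) ^ 6 * (|z| / (29 / 5)) ^ 6 := by
      rw [div_pow |z|, Even.pow_abs (by decide)]
      field_simp
    rw [h4, mul_assoc]
    refine mul_le_mul_of_nonneg_left (h2.trans ?_) (by positivity)
    rw [Real.exp_add, mul_comm]
    exact mul_le_mul_of_nonneg_left h3 (Real.exp_pos _).le
  · positivity

theorem num_NTail : (19492000 : ℝ) ≤ Real.exp (841 / 50) := by
  have h1 : (2.7182818283 : ℝ) ≤ Real.exp 1 := Real.exp_one_gt_d9.le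
  have h2 : (2.26 : ℝ) ≤ Real.exp (41 / 50) := by
    refine le_trans ?_ (Real.sum_le_exp_of_nonneg (by norm_num) 6)
    simp only [sum_range_succ, range_zero, sum_empty, Nat.factorial]
    norm_num
  have h3 : Real.exp (841 / 50) = Real.exp 1 ^ 16 * Real.exp (41 / 50) := by
    rw [← Real.exp_nat_mul, ← Real.exp_add]
    norm_num
  rw [h3]
  refine le_trans ?_ (mul_le_mul (pow_le_pow_left₀ (by norm_num) h1 16) h2 (by norm_num)
    (by positivity))
  norm_num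

theorem tail6 (a : Fin m → ℝ) (h : ∑ i, a i ^ 2 ≤ 1) :
    E (fun y => if 29 / 5 ≤ |ell a y| then ell a y ^ 6 else 0) ≤ 1 / 256 := by
  refine (E_mono fun y => pt_NTail (ell a y)).trans ?_
  rw [E_mul, E_add]
  have h1 := E_exp_NTail a h (29 / 5)
  have h2 := E_exp_NTail a h (-(29 / 5))
  rw [neg_sq] at h2
  have h3 : Real.exp (-(29 / 5) ^ 2) * Real.exp ((29 / 5) ^ 2 / 2) * Real.exp (841 / 50) = 1 := by
    rw [← Real.exp_add, ← Real.exp_add]
    norm_num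
  have h4 := num_NTail
  have h5 : Real.exp (-(29 / 5) ^ 2) * Real.exp ((29 / 5) ^ 2 / 2) ≤ 1 / 19492000 := by
    rw [le_div_iff₀ (by norm_num), ← h3]
    exact mul_le_mul_of_nonneg_left h4 (by positivity)
  have h6 := mul_le_mul_of_nonneg_left (add_le_add h1 h2)
    (show (0 : ℝ) ≤ (29 / 5) ^ 6 * Real.exp (-(29 / 5) ^ 2) by positivity)
  refine h6.trans ?_
  nlinarith

theorem cs_neg_NTail (S : ℕ) (θ : ℝ) : cs S (-θ) = -((-1) ^ crd S * cs S θ) := by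
  unfold cs
  split_ifs with h
  · rw [Real.cos_neg, (Nat.odd_iff.2 h).neg_one_pow]; ring
  · rw [Real.sin_neg, (Nat.even_iff.2 (by omega)).neg_one_pow]; ring

theorem li_neg_NTail (S : ℕ) (a0 a1 z u : ℝ) :
    li S a0 a1 (-z) (-u) = -((-1) ^ crd S * li S a0 a1 z u) := by
  unfold li
  split_ifs with h
  · rw [(Nat.odd_iff.2 h).neg_one_pow]; ring
  · rw [(Nat.even_iff.2 (by omega)).neg_one_pow]; ring

theorem B0_neg_NTail (e : Ev) (y : ℕ → ℕ → ℝ) (z u : ℝ) (S : ℕ) :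
    B0 e y (-z) (-u) S = -((-1) ^ crd S * B0 e y z u S) := by
  simp only [B0, mul_neg, cs_neg_NTail, li_neg_NTail, mul_add, mul_sum, sum_neg_distrib, neg_add]
  congr 2
  exact sum_congr rfl fun j _ => by ring

theorem B1_neg_NTail (e : Ev) (y : ℕ → ℕ → ℝ) (z u : ℝ) (S : ℕ) :
    B1 e y (-z) (-u) S = -((-1) ^ crd S * B1 e y z u S) := by
  have h : ∀ j, e.c j * -z + e.d j * -u = -(e.c j * z + e.d j * u) := fun j => by ring
  have h2 : ∑ j ∈ range 7, y S (j + 2) * (e.R j * -((-1) ^ crd S * cs S (e.c j * z + e.d j * u))) =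
      -((-1) ^ crd S * ∑ j ∈ range 7, y S (j + 2) * (e.R j * cs S (e.c j * z + e.d j * u))) := by
    rw [mul_sum, ← sum_neg_distrib]
    exact sum_congr rfl fun j _ => by ring
  unfold B1
  simp only [h, cs_neg_NTail]
  rw [h2, mul_neg e.ρ z, mul_neg e.ρ u, li_neg_NTail]
  ring

theorem wt_neg_NTail {c c' : ℕ → ℝ} (h : ∀ S, c' S = -((-1) ^ crd S * c S)) {x : ℕ} (hx : x < 8) :
    wt c' x = -wt c (7 - x) := by
  unfold wt
  rw [← sum_neg_distrib]
  refine sum_congr rfl fun S hS => ?_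
  rw [ch_bar (mem_range.1 hS) hx, h]
  ring

theorem HZ_symm (e : Ev) (c : Ct) (z u : ℝ) (f g : ℕ → ℝ) :
    HZ e c (-z) (-u) (fun x => -f (7 - x)) (fun x => -g (7 - x)) = HZ e c z u f g := by
  unfold HZ HH
  congr 1
  · congr 1
    rw [← sum_range_reflect (n := 8) (fun x => c.vp * P9 (g x) - g x * wt (B0 e c.y z u) x +
      f x * wt (fun S => B1 e c.y z u S - BA c.a z u S) x - qf c.k c.k3 c.kg
        (g x - wt (B1 e c.b z u) x) (f x - wt (B0 e c.b z u) x))]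
    refine sum_congr rfl fun x hx => ?_
    have hx' := mem_range.1 hx
    rw [wt_neg_NTail (B0_neg_NTail e c.y z u) hx', wt_neg_NTail (B0_neg_NTail e c.b z u) hx',
      wt_neg_NTail (B1_neg_NTail e c.b z u) hx',
      wt_neg_NTail (c := fun S => B1 e c.y z u S - BA c.a z u S) (fun S => by
        rw [B1_neg_NTail, BA, BA, li_neg_NTail]; ring) hx']
    simp only [P9, qf, show 8 - 1 - x = 7 - x from rfl]
    ring
  · simp only [Lw, mul_neg, Real.cos_neg]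
    ring

theorem fibre_bound {e : Ev} {c : Ct} {M At : ℝ} (h1 : Cen e c M) (h2 : Out e c M At)
    (hA : 0 ≤ At) (a a' : Fin m → ℝ) (ha : ∑ i, a i ^ 2 ≤ 1) (ha' : ∑ i, a' i ^ 2 ≤ 1)
    (f g : (Fin m → Bool) → ℕ → ℝ) (h : ∀ y, FG (f y) (g y)) :
    E (fun y => HZ e c (ell a y) (ell a' y) (f y) (g y)) ≤ M + At / 128 := by
  have key : ∀ (z u : ℝ) (f g : ℕ → ℝ), FG f g → HZ e c z u f g ≤
      M + At * ((if 29 / 5 ≤ |z| then z ^ 6 else 0) + (if 29 / 5 ≤ |u| then u ^ 6 else 0)) := by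
    intro z u f g hfg
    have p1 : (0 : ℝ) ≤ if 29 / 5 ≤ |z| then z ^ 6 else 0 := by split_ifs <;> positivity
    have p2 : (0 : ℝ) ≤ if 29 / 5 ≤ |u| then u ^ 6 else 0 := by split_ifs <;> positivity
    by_cases hm : 29 / 5 ≤ max |z| |u|
    · refine (h2 z u hm f g hfg).trans (add_le_add le_rfl (mul_le_mul_of_nonneg_left ?_ hA))
      rcases max_cases |z| |u| with ⟨e1, -⟩ | ⟨e1, -⟩
      · rw [e1] at hm ⊢
        rw [if_pos hm, Even.pow_abs (by decide)]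
        linarith
      · rw [e1] at hm ⊢
        rw [if_pos hm, Even.pow_abs (by decide)]
        linarith
    · rw [not_le, max_lt_iff] at hm
      refine le_trans ?_ (le_add_of_nonneg_right (mul_nonneg hA (add_nonneg p1 p2)))
      obtain ⟨hz1, hz2⟩ := abs_lt.1 hm.1
      rcases le_total 0 z with hz | hz
      · exact h1 z u hz (by linarith) (by linarith [hm.2]) f g hfg
      · rw [← HZ_symm]
        refine h1 (-z) (-u) (by linarith) (by linarith) (by rw [abs_neg]; linarith [hm.2]) _ _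
          fun x hx => ?_
        rw [neg_sq, neg_sq]
        exact hfg (7 - x) (by omega)
  refine (E_mono fun y => key _ _ _ _ (h y)).trans ?_
  rw [E_add, E_const, E_mul, E_add]
  have := mul_le_mul_of_nonneg_left (add_le_add (tail6 a ha) (tail6 a' ha')) hA
  linarith

end Pool.Agent.MP_ebf981_lc.N9

end

section

namespace Pool.Agent.MP_ebf981_lc.N9

open Finset

theorem quad_row {n : ℕ} {w p : (Fin n → Bool) → ℝ} (hw : ∀ x, w (fun j => !x j) = -1 * w x)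
    {ρ k k3 kg γ c1 ce : ℝ} (r0 : 0 ≤ ρ) (r1 : ρ ≤ 1) (h : QOk ρ k k3 kg γ c1 ce) :
    E (fun x => qf k k3 kg (TT ρ w x + p x) (w x)) ≤ c1 * W1 w + ce * E (fun x => p x ^ 2) := by
  obtain ⟨hk, hγ, -, h3, hg, h1, he⟩ := h
  have hγ' : 0 < γ := by
    rcases hγ.eq_or_lt with h | h
    · rw [← h] at he; norm_num at he
    · exact h
  have pw : ∀ x, qf k k3 kg (TT ρ w x + p x) (w x) ≤
      ((k + 4 * γ * k ^ 2) * TT ρ w x ^ 2 + (-k3 - 4 * γ * k * k3) * (TT ρ w x * w x) +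
        (γ * k3 ^ 2 - kg) * w x ^ 2) + ce * p x ^ 2 := by
    intro x
    unfold qf
    generalize TT ρ w x = v
    generalize w x = u
    generalize p x = q
    have a1 : 0 ≤ 4 * γ * (γ * (2 * k * v - k3 * u) ^ 2 - q * (2 * k * v - k3 * u) +
        (ce - k) * q ^ 2) := by
      have a2 := sq_nonneg (2 * γ * (2 * k * v - k3 * u) - q)
      have a3 := mul_nonneg (sub_nonneg.2 he) (sq_nonneg q)
      linarith
    have a4 := nonneg_of_mul_nonneg_right a1 (by positivity : 0 < 4 * γ)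
    linarith
  refine (E_mono pw).trans ?_
  rw [E_add, E_add, E_add, E_mul, E_mul, E_mul, E_mul]
  refine add_le_add ?_ le_rfl
  have e : 1 - 2 * ((1 - ρ) / 2) = ρ := by ring
  unfold TT
  rw [E_T_sq, E_T_mul, E_sq, e, mul_sum, mul_sum, mul_sum, ← sum_add_distrib, ← sum_add_distrib]
  have hs := spec_odd hw (fun j => (k + 4 * γ * k ^ 2) * (ρ ^ j) ^ 2 +
    (-k3 - 4 * γ * k * k3) * ρ ^ j + (γ * k3 ^ 2 - kg)) 0 (fun j hj => by
      have b0 : 0 ≤ ρ ^ j := pow_nonneg r0 j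
      have b1 : ρ ^ j ≤ ρ ^ 3 := pow_le_pow_of_le_one r0 r1 hj
      have b2 : 0 ≤ k3 - k * ρ ^ j := by nlinarith [mul_le_mul_of_nonneg_left b1 hk]
      have b3 := mul_nonneg b0 b2
      have b4 := mul_nonneg (mul_nonneg hγ hk) b3
      nlinarith)
  have hW : 0 ≤ W1 w := sum_nonneg fun i _ => sq_nonneg _
  have h2 : ((k + 4 * γ * k ^ 2) * (ρ ^ 1) ^ 2 + (-k3 - 4 * γ * k * k3) * ρ ^ 1 +
      (γ * k3 ^ 2 - kg)) * W1 w ≤ c1 * W1 w :=
    mul_le_mul_of_nonneg_right (by linarith) hW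
  refine le_trans (le_of_eq (sum_congr rfl fun S _ => by ring)) (hs.trans ?_)
  linarith

theorem TT_add_NQuad {n : ℕ} (ρ : ℝ) (F G : (Fin n → Bool) → ℝ) (x : Fin n → Bool) :
    TT ρ (fun y => F y + G y) x = TT ρ F x + TT ρ G x := by
  simp only [TT, T, mul_add, sum_add_distrib]

theorem TT_sum_NQuad {n : ℕ} (ρ : ℝ) (s : Finset ℕ) (c : ℕ → ℝ) (F : ℕ → (Fin n → Bool) → ℝ)
    (x : Fin n → Bool) :
    TT ρ (fun y => ∑ j ∈ s, c j * F j y) x = ∑ j ∈ s, c j * TT ρ (F j) x := by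
  simp only [TT, T, mul_sum]
  rw [sum_comm]
  exact sum_congr rfl fun j _ => sum_congr rfl fun y _ => by ring

theorem TT_li_NQuad {n : ℕ} (ρ : ℝ) (S : ℕ) (a0 a1 : ℝ) (a a' : Fin n → ℝ) (x : Fin n → Bool) :
    TT ρ (fun y => li S a0 a1 (ell a y) (ell a' y)) x =
      li S a0 a1 (ρ * ell a x) (ρ * ell a' x) := by
  unfold li
  split_ifs
  · simp only [TT, T, ← sum_mul, T_one, one_mul]
  · rw [← TT_ell, ← TT_ell]
    exact T_lin _ _ _ _ _ _

theorem mink_NQuad {n : ℕ} (s : Finset ℕ) (c er : ℕ → ℝ) (δ : ℕ → (Fin n → Bool) → ℝ)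
    (h : ∀ j ∈ s, 0 ≤ er j ∧ E (fun y => δ j y ^ 2) ≤ er j ^ 2) :
    E (fun y => (∑ j ∈ s, c j * δ j y) ^ 2) ≤ (∑ j ∈ s, |c j| * er j) ^ 2 := by
  have e : ∀ y, (∑ j ∈ s, c j * δ j y) ^ 2 =
      ∑ i ∈ s, ∑ j ∈ s, (c i * c j) * (δ i y * δ j y) := by
    intro y
    rw [pow_two, sum_mul_sum]
    exact sum_congr rfl fun i _ => sum_congr rfl fun j _ => by ring
  rw [E_congr e, E_sum, pow_two, sum_mul_sum]
  refine sum_le_sum fun i hi => ?_
  rw [E_sum]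
  refine sum_le_sum fun j hj => ?_
  rw [E_mul]
  have h1 : |E (fun y => δ i y * δ j y)| ≤ er i * er j := by
    refine abs_le_of_sq_le_sq' ?_ (mul_nonneg (h i hi).1 (h j hj).1) |> abs_le.2
    rw [mul_pow]
    exact (E_cs _ _).trans (mul_le_mul (h i hi).2 (h j hj).2
      (E_nonneg fun y => sq_nonneg _) (sq_nonneg _))
  calc c i * c j * E (fun y => δ i y * δ j y) ≤ |c i * c j * E (fun y => δ i y * δ j y)| :=
        le_abs_self _
    _ = |c i| * |c j| * |E (fun y => δ i y * δ j y)| := by rw [abs_mul, abs_mul]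
    _ ≤ |c i| * |c j| * (er i * er j) := by gcongr
    _ = _ := by ring

theorem T_apx {m : ℕ} {e : Ev} {a : Fin m → ℝ} (r0 : 0 ≤ e.ρ) (h : TOk e a) (y : ℕ → ℕ → ℝ) :
    E (fun X => (TT e.ρ (lf fun Y => B0 e y (ell a Y) (ell (uv e a) Y)) X -
      lf (fun Y => B1 e y (ell a Y) (ell (uv e a) Y)) X) ^ 2) ≤ ee e y := by
  let D : (Fin m → Bool) → ℕ → ℝ := fun Y S => e.ρ ^ crd S * ∑ j ∈ range 7, y S (j + 2) *
    (TT e.ρ (fun y' => cs S (e.t j * ell a y')) Y -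
      e.R j * cs S (e.c j * ell a Y + e.d j * ell (uv e a) Y))
  have hD : ∀ X, (TT e.ρ (lf fun Y => B0 e y (ell a Y) (ell (uv e a) Y)) X -
      lf (fun Y => B1 e y (ell a Y) (ell (uv e a) Y)) X) ^ 2 = lf D X * lf D X := by
    intro X
    rw [← pow_two, TT_lf]
    congr 1
    simp only [lf, wt]
    rw [← sum_sub_distrib]
    refine sum_congr rfl fun S _ => ?_
    rw [← mul_sub]
    congr 1
    simp only [B0, B1, D]
    rw [TT_add_NQuad, TT_li_NQuad,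
      TT_sum_NQuad e.ρ (range 7) (fun j => y S (j + 2)) (fun j y' => cs S (e.t j * ell a y'))]
    simp only [mul_sub, sum_sub_distrib]
    ring
  rw [E_congr hD, E_lf_mul]
  refine sum_le_sum fun S _ => ?_
  have h1 := mink_NQuad (range 7) (fun j => y S (j + 2)) e.er
    (fun j Y => TT e.ρ (fun y' => cs S (e.t j * ell a y')) Y -
      e.R j * cs S (e.c j * ell a Y + e.d j * ell (uv e a) Y))
    (fun j hj => ⟨(h j (mem_range.1 hj)).1, (h j (mem_range.1 hj)).2 S⟩)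
  rw [mul_pow]
  refine le_trans (le_of_eq ?_) (mul_le_mul_of_nonneg_left h1 (sq_nonneg (e.ρ ^ crd S)))
  rw [← E_mul]
  exact E_congr fun Y => by simp only [D]; ring

theorem B0_odd {m : ℕ} (e : Ev) (a a' : Fin m → ℝ) (y : ℕ → ℕ → ℝ) (X : Fin (m + 3) → Bool) :
    lf (fun Y => B0 e y (ell a Y) (ell a' Y)) (fun j => !X j) =
      -1 * lf (fun Y => B0 e y (ell a Y) (ell a' Y)) X := by
  refine lf_odd (fun S _ Y => ?_) X
  simp only [B0, li, cs, ell_neg, mul_neg, Real.cos_neg, Real.sin_neg]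
  by_cases hS : crd S % 2 = 1
  · simp only [hS, if_true]
    rw [(Nat.odd_iff.2 hS).neg_one_pow]
    ring
  · simp only [hS, if_false]
    rw [(Nat.even_iff.2 (by omega : crd S % 2 = 0)).neg_one_pow]
    simp only [mul_neg, sum_neg_distrib]
    ring

end Pool.Agent.MP_ebf981_lc.N9

end

section

namespace Pool.Agent.MP_ebf981_lc.N9

open Finset

variable {m : ℕ}

theorem ll_NRows (a b : Fin m → ℝ) : E (fun x => ell a x * ell b x) = ∑ i, a i * b i := by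
  have h := ell_sq (fun i => a i + b i)
  have e : ∀ x, ell (fun i => a i + b i) x ^ 2 =
      ell a x ^ 2 + (2 * (ell a x * ell b x) + ell b x ^ 2) := fun x => by
    have : ell (fun i => a i + b i) x = ell a x + ell b x := by
      simp only [ell, add_mul, sum_add_distrib]
    rw [this]; ring
  have e' : ∑ i, (a i + b i) ^ 2 = ∑ i, a i ^ 2 + (2 * ∑ i, a i * b i + ∑ i, b i ^ 2) := by
    rw [mul_sum, ← sum_add_distrib, ← sum_add_distrib]
    exact sum_congr rfl fun i _ => by ring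
  rw [E_congr e, E_add, E_add, E_mul, ell_sq, ell_sq, e'] at h
  linarith

theorem hat_ell_NRows (a : Fin m → ℝ) (i : Fin m) : hat (ell a) {i} = a i := by
  have h := (E_ell (ell a) (Pi.single i 1)).symm.trans (ll_NRows a (Pi.single i 1))
  simpa [Pi.single_apply] using h

theorem hat_sub_NRows {n : ℕ} (F G : (Fin n → Bool) → ℝ) (S : Finset (Fin n)) :
    hat (fun x => F x - G x) S = hat F S - hat G S := by
  simp only [hat, sub_mul, E_sub]

theorem mid_NRows {lo hi x : ℝ} (h1 : lo ≤ x) (h2 : x ≤ hi) (A : ℝ) :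
    A * x ≤ A * ((lo + hi) / 2) + |A| * ((hi - lo) / 2) := by
  rcases le_total 0 A with h | h
  · rw [abs_of_nonneg h]; nlinarith
  · rw [abs_of_nonpos h]; nlinarith

theorem err_NRows (b d r : ℕ → ℝ) (h : ∀ j < 7, |d j| ≤ r j) :
    |∑ j ∈ range 7, b j * d j| ≤ ∑ j ∈ range 7, |b j| * r j :=
  (abs_sum_le_sum_abs _ _).trans (sum_le_sum fun j hj => by
    rw [abs_mul]
    exact mul_le_mul_of_nonneg_left (h j (mem_range.1 hj)) (abs_nonneg _))

theorem head_NRows {e : Ev} {a : Fin m → ℝ} (h : COk e a) (b : ℕ → ℕ → ℝ) {c : Cl} {j : ℕ}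
    (hS : crd (2 ^ j) % 2 = 1) {x : ℝ} (h1 : c.lo j ≤ x ∧ x ≤ c.hi j) :
    (x - E (fun y => B0 e b (ell a y) (ell (uv e a) y) (2 ^ j))) ^ 2 ≤ Whd e b c j ^ 2 := by
  have e1 : E (fun y => B0 e b (ell a y) (ell (uv e a) y) (2 ^ j)) = b (2 ^ j) 0 +
      ∑ i ∈ range 7, b (2 ^ j) (i + 2) * E (fun y => Real.cos (e.t i * ell a y)) := by
    simp only [B0, li, cs, if_pos hS, E_add, E_const, E_sum, E_mul]
  have e2 := err_NRows (fun i => b (2 ^ j) (i + 2))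
    (fun i => E (fun y => Real.cos (e.t i * ell a y)) - e.pm i) e.pr fun i hi => (h i hi).1
  simp only [mul_sub, sum_sub_distrib] at e2
  have e3 := abs_le.1 e2
  have e4 := abs_le.1 (le_refl |(c.lo j + c.hi j) / 2 - b (2 ^ j) 0 -
    ∑ i ∈ range 7, b (2 ^ j) (i + 2) * e.pm i|)
  rw [e1, Whd]
  exact sq_le_sq' (by linarith [e3.1, e3.2, e4.1, e4.2, h1.1, h1.2])
    (by linarith [e3.1, e3.2, e4.1, e4.2, h1.1, h1.2])

theorem quad_NRows (g0 g1 g2 : ℝ) {y X : ℝ} (h0 : 0 ≤ y) (h1 : y ≤ X) :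
    |g0 + g1 * y + g2 * y ^ 2| ≤
      max |g0 - g2 * X ^ 2 / 8| |g0 + g1 * X + g2 * X ^ 2 - g2 * X ^ 2 / 8| + |g2 * X ^ 2 / 8| := by
  have e : g0 + g1 * y + g2 * y ^ 2 =
      (g0 - g2 * X ^ 2 / 8 + (g1 + g2 * X) * y) + g2 * (y ^ 2 - X * y + X ^ 2 / 8) := by ring
  rw [e]
  refine (abs_add_le _ _).trans (add_le_add ?_ ?_)
  · rcases le_total 0 (g1 + g2 * X) with h | h
    · exact abs_le_max_abs_abs (by nlinarith) (by nlinarith)
    · rw [max_comm]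
      exact abs_le_max_abs_abs (by nlinarith) (by nlinarith)
  · rw [mul_div_assoc, abs_mul, abs_mul, abs_of_nonneg (by positivity : 0 ≤ X ^ 2 / 8)]
    refine mul_le_mul_of_nonneg_left (abs_le.2 ⟨?_, ?_⟩) (abs_nonneg _)
    · nlinarith [sq_nonneg (y - X / 2)]
    · nlinarith

theorem tail_NRows {e : Ev} {a : Fin m → ℝ} (h : COk e a) (b : ℕ → ℕ → ℝ) {c : Cl} {ω : ℝ}
    (w0 : c.w0 ≤ ω) (w1 : ω ≤ c.w1) (i : Fin m) (hX : a i ^ 2 ≤ e.X) :
    (ω * a i - hat (fun y => B0 e b (ell a y) (ell (uv e a) y) 0) {i}) ^ 2 ≤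
      a i ^ 2 * Wtl e b c ^ 2 := by
  have hS : ¬crd 0 % 2 = 1 := by decide
  have e1 : hat (fun y => B0 e b (ell a y) (ell (uv e a) y) 0) {i} = b 0 0 * a i +
      b 0 1 * uv e a i +
      ∑ j ∈ range 7, b 0 (j + 2) * hat (fun y => Real.sin (e.t j * ell a y)) {i} := by
    rw [← hat_ell_NRows a i, ← hat_ell_NRows (uv e a) i]
    simp only [B0, li, cs, if_neg hS, hat, add_mul, sum_mul, mul_assoc, E_add, E_sum, E_mul]
  have e2 := err_NRows (fun j => b 0 (j + 2))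
    (fun j => hat (fun y => Real.sin (e.t j * ell a y)) {i} -
      a i * (e.al j + e.be j * a i ^ 2 + e.ga j * a i ^ 4)) (fun j => e.et j * |a i|)
    fun j hj => (h j hj).2 i
  have e3 : ω * a i - hat (fun y => B0 e b (ell a y) (ell (uv e a) y) 0) {i} =
      a i * (ω - (c.w0 + c.w1) / 2) +
        a i * (Wg0 e b c + Wg1 e b * a i ^ 2 + Wg2 e b * (a i ^ 2) ^ 2) -
        ∑ j ∈ range 7, b 0 (j + 2) * (hat (fun y => Real.sin (e.t j * ell a y)) {i} -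
          a i * (e.al j + e.be j * a i ^ 2 + e.ga j * a i ^ 4)) := by
    rw [e1]
    simp only [Wg0, Wg1, Wg2, uv, sum_range_succ, sum_range_zero]
    ring
  have e4 : |ω - (c.w0 + c.w1) / 2| ≤ (c.w1 - c.w0) / 2 := abs_le.2 ⟨by linarith, by linarith⟩
  have e5 := quad_NRows (Wg0 e b c) (Wg1 e b) (Wg2 e b) (sq_nonneg (a i)) hX
  have e6 : ∑ j ∈ range 7, |b 0 (j + 2)| * (e.et j * |a i|) =
      |a i| * ∑ j ∈ range 7, |b 0 (j + 2)| * e.et j := by
    rw [mul_sum]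
    exact sum_congr rfl fun j _ => by ring
  rw [← sq_abs, ← sq_abs (a i), ← mul_pow]
  refine pow_le_pow_left₀ (abs_nonneg _) ?_ 2
  rw [e3]
  refine (abs_sub _ _).trans ((add_le_add ((abs_add_le _ _).trans (add_le_add
    ((abs_mul _ _).trans_le (mul_le_mul_of_nonneg_left e4 (abs_nonneg _)))
    ((abs_mul _ _).trans_le (mul_le_mul_of_nonneg_left e5 (abs_nonneg _))))) e2).trans_eq ?_)
  rw [e6, Wtl]
  ring

theorem seg_NRows {x y z : ℝ} (h1 : x ≤ y) (h2 : y ≤ z) :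
    ∃ s : ℝ, 0 ≤ s ∧ s ≤ 1 ∧ y = (1 - s) * x + s * z := by
  rcases eq_or_lt_of_le (h1.trans h2) with h | h
  · exact ⟨0, le_rfl, zero_le_one, by linarith⟩
  · have h3 : 0 < z - x := sub_pos.2 h
    refine ⟨(y - x) / (z - x), div_nonneg (sub_nonneg.2 h1) h3.le,
      (div_le_one h3).2 (by linarith), ?_⟩
    field_simp
    ring

theorem ua_NRows {e : Ev} {a : Fin m → ℝ} (h : ∑ i, a i ^ 2 = 1) :
    ∑ i, uv e a i * a i = (∑ i, a i ^ 4 - e.lam) * e.isv := by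
  have : ∑ i, uv e a i * a i = (∑ i, a i ^ 4 - e.lam * ∑ i, a i ^ 2) * e.isv := by
    rw [mul_sum, ← sum_sub_distrib, sum_mul]
    exact sum_congr rfl fun i _ => by rw [uv]; ring
  rw [this, h, mul_one]

theorem W1_bound {e : Ev} {c : Cl} {f : (Fin (m + 3) → Bool) → ℝ} {α : ℕ → ℝ} {a : Fin m → ℝ}
    {ω : ℝ} (hf : Cf f α a ω) (hα : ∀ j < 3, c.lo j ≤ α j ∧ α j ≤ c.hi j) (w0 : c.w0 ≤ ω)
    (w1 : ω ≤ c.w1) (hX : ∀ i, a i ^ 2 ≤ e.X) (h : COk e a) (b : ℕ → ℕ → ℝ) :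
    W1 (fun X => f X - lf (fun Y => B0 e b (ell a Y) (ell (uv e a) Y)) X) ≤ WB e b c := by
  obtain ⟨-, h0, h1, h2, h3, h4⟩ := hf
  obtain ⟨l0, l1, l2⟩ := hat_lf_head (fun Y => B0 e b (ell a Y) (ell (uv e a) Y))
  rw [W1_split, WB]
  simp only [hat_sub_NRows, hat_lf_tail, h0, h1, h2, h3, l0, l1, l2]
  refine add_le_add (add_le_add (add_le_add ?_
    (head_NRows h b (j := 0) (by decide) (hα 0 (by omega))))
    (head_NRows h b (j := 1) (by decide) (hα 1 (by omega))))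
    (head_NRows h b (j := 2) (by decide) (hα 2 (by omega)))
  refine (sum_le_sum fun i _ => tail_NRows h b w0 w1 i (hX i)).trans_eq ?_
  rw [← sum_mul, h4, one_mul]

theorem exists_Wv {e : Ev} {a : Fin m → ℝ} (h : Tail e a) : ∃ w, Wv e a w := by
  obtain ⟨h1, h2, h3, h4⟩ := h
  have c1 : (∑ i, a i ^ 4) ^ 2 ≤ ∑ i, a i ^ 6 := by
    have := sum_mul_sq_le_sq_mul_sq univ a (fun i => a i ^ 3)
    rw [h1, one_mul] at this
    have e1 : ∑ i, a i ^ 4 = ∑ i, a i * a i ^ 3 := sum_congr rfl fun i _ => by ring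
    have e2 : ∑ i, a i ^ 6 = ∑ i, (a i ^ 3) ^ 2 := sum_congr rfl fun i _ => by ring
    rwa [e1, e2]
  have c2 : ∑ i, a i ^ 6 ≤ e.X * ∑ i, a i ^ 4 := by
    rw [mul_sum]
    refine sum_le_sum fun i _ => ?_
    have := mul_le_mul_of_nonneg_right (h2 i) (by positivity : 0 ≤ a i ^ 4)
    linarith
  obtain ⟨s, s0, s1, hs⟩ := seg_NRows h3 h4
  obtain ⟨r, r0, r1, hr⟩ := seg_NRows (x := 2 * e.lam * ∑ i, a i ^ 4 - e.lam ^ 2)
    (by nlinarith [sq_nonneg (∑ i, a i ^ 4 - e.lam)]) c2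
  have s2 := sub_nonneg.2 s1
  have r2 := sub_nonneg.2 r1
  refine ⟨fun v => (if v < 2 then 1 - s else s) * (if v % 2 = 0 then 1 - r else r), ?_, ?_, ?_, ?_⟩
  · intro v _
    beta_reduce
    split_ifs <;> positivity
  · norm_num [sum_range_succ]
    ring
  · rw [hs]
    norm_num [sum_range_succ, vq]
    ring
  · rw [hr, hs]
    norm_num [sum_range_succ, vq, v3]
    ring

theorem uv_sq {e : Ev} {a : Fin m → ℝ} (h : Tail e a) {w : ℕ → ℝ} (hw : Wv e a w) :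
    ∑ i, uv e a i ^ 2 =
      ∑ v ∈ range 4, w v * (e.isv ^ 2 * (v3 e v - 2 * e.lam * vq e v + e.lam ^ 2)) := by
  obtain ⟨-, h1, h2, h3⟩ := hw
  have e1 : ∑ i, uv e a i ^ 2 =
      e.isv ^ 2 * (∑ i, a i ^ 6 - 2 * e.lam * ∑ i, a i ^ 4 + e.lam ^ 2 * ∑ i, a i ^ 2) := by
    rw [mul_sum, mul_sum, ← sum_sub_distrib, ← sum_add_distrib, mul_sum]
    exact sum_congr rfl fun i _ => by rw [uv]; ring
  rw [e1, h.1, ← h1, ← h2, ← h3]
  simp only [sum_range_succ, sum_range_zero]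
  ring

theorem row_A {e : Ev} {c : Cl} {f : (Fin (m + 3) → Bool) → ℝ} {α : ℕ → ℝ} {a : Fin m → ℝ}
    {ω : ℝ} (hf : Cf f α a ω) (hα : ∀ j < 3, c.lo j ≤ α j ∧ α j ≤ c.hi j) (w0 : c.w0 ≤ ω)
    (w1 : ω ≤ c.w1) {w : ℕ → ℝ} (hw : Wv e a w) {A : ℕ → ℕ → ℝ} (hA : AZ A) :
    E (fun X => f X * lf (fun Y => BA A (ell a Y) (ell (uv e a) Y)) X) ≤
      ∑ v ∈ range 4, w v * cvA e A c v := by
  obtain ⟨-, h0, h1, h2, h3, h4⟩ := hf
  obtain ⟨p0, p1, p2, -⟩ := hw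
  obtain ⟨z1, z2⟩ := hA
  have z3 := z1 0 (by omega)
  have z4 := z1 1 (by omega)
  rw [lf_lin _ (fun i => A 0 0 * a i + A 0 1 * uv e a i) (A 1 0) (A 2 0) (A 4 0)
    (fun y => by simp [BA, li, crd, ell, mul_sum, add_mul, sum_add_distrib, mul_assoc])
    (fun y => by simp [BA, li, crd]) (fun y => by simp [BA, li, crd])
    (fun y => by simp [BA, li, crd]) (fun y => by simp [BA, li, crd, z2, z3, z4])]
  have e1 : ∑ i, (A 0 0 * a i + A 0 1 * uv e a i) * hat f {i.succ.succ.succ} =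
      ω * (A 0 0 * ∑ i, a i ^ 2 + A 0 1 * ∑ i, uv e a i * a i) := by
    rw [mul_sum, mul_sum, ← sum_add_distrib, mul_sum]
    exact sum_congr rfl fun i _ => by rw [h3]; ring
  have e2 : A 1 0 * α 0 + A 2 0 * α 1 + A 4 0 * α 2 +
      ω * (A 0 0 * 1 + A 0 1 * ((∑ i, a i ^ 4 - e.lam) * e.isv)) =
      ∑ v ∈ range 4, w v * (A 1 0 * α 0 + A 2 0 * α 1 + A 4 0 * α 2 +
        (A 0 0 + A 0 1 * ((vq e v - e.lam) * e.isv)) * ω) := by
    rw [← p2]
    simp only [sum_range_succ, sum_range_zero] at p1 ⊢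
    linear_combination (-(A 1 0 * α 0 + A 2 0 * α 1 + A 4 0 * α 2) - ω * A 0 0 +
      ω * A 0 1 * e.lam * e.isv) * p1
  rw [e1, ua_NRows h4, h4, h0, h1, h2, e2]
  refine sum_le_sum fun v hv => mul_le_mul_of_nonneg_left ?_ (p0 v (mem_range.1 hv))
  have m0 := mid_NRows (hα 0 (by omega)).1 (hα 0 (by omega)).2 (A 1 0)
  have m1 := mid_NRows (hα 1 (by omega)).1 (hα 1 (by omega)).2 (A 2 0)
  have m2 := mid_NRows (hα 2 (by omega)).1 (hα 2 (by omega)).2 (A 4 0)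
  have m3 := mid_NRows w0 w1 (A 0 0 + A 0 1 * ((vq e v - e.lam) * e.isv))
  simp only [cvA, sum_range_succ, sum_range_zero, pow_zero, pow_one, show 2 ^ 2 = 4 from rfl]
  linarith

theorem row_L {e : Ev} {a : Fin m → ℝ} (h : Tail e a) {w : ℕ → ℝ} (hw : Wv e a w)
    (hL : LOk e a w) (c : Ct) :
    E (fun Y => Lw e c.c2 c.c4 c.c6 c.mu c.nu c.yc (ell a Y) (ell (uv e a) Y)) ≤
      ∑ v ∈ range 4, w v * cvL e c v := by
  have u2 := uv_sq h hw
  obtain ⟨-, p1, p2, p3⟩ := hw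
  have e1 : ∑ j ∈ range 7, c.yc j * E (fun y => Real.cos (e.t j * ell a y)) ≤
      ∑ v ∈ range 4, w v *
        ∑ j ∈ range 7, (max (c.yc j) 0 * e.hi j v - max (-c.yc j) 0 * e.lo j v) := by
    simp only [mul_sum]
    rw [sum_comm]
    refine sum_le_sum fun j hj => ?_
    obtain ⟨l1, l2⟩ := hL j (mem_range.1 hj)
    have l3 := mul_le_mul_of_nonneg_left l1 (le_max_right (-c.yc j) 0)
    have l4 := mul_le_mul_of_nonneg_left l2 (le_max_right (c.yc j) 0)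
    have l5 : c.yc j = max (c.yc j) 0 - max (-c.yc j) 0 := (max_zero_sub_max_neg_zero_eq_self _).symm
    simp only [sum_range_succ, sum_range_zero] at l3 l4 ⊢
    linear_combination l3 + l4 + E (fun y => Real.cos (e.t j * ell a y)) * l5
  simp only [Lw, E_add, E_mul, E_sum, ell_sq, ell_four, ell_six, ll_NRows, ua_NRows h.1, h.1, u2,
    cvL, mul_add, sum_add_distrib]
  refine add_le_add (le_of_eq ?_) e1
  rw [← p2, ← p3]
  simp only [sum_range_succ, sum_range_zero] at p1 ⊢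
  linear_combination (-c.c2 - 3 * c.c4 - 15 * c.c6 + c.nu * e.lam * e.isv) * p1

end Pool.Agent.MP_ebf981_lc.N9

end

section

namespace Pool.Agent.MP_ebf981_lc.N9

open Finset

theorem le_of_sq_le_sq_NMaster {a b : ℝ} (h0 : 0 ≤ b) (h : a ^ 2 ≤ b ^ 2) : a ≤ b :=
  (abs_le_of_sq_le_sq' h h0).2

theorem wt_sub_NMaster (a b : ℕ → ℝ) (x : ℕ) :
    wt (fun S => a S - b S) x = wt a x - wt b x := by
  simp only [wt, mul_sub, sum_sub_distrib]

theorem fibre_NMaster {m : ℕ} (vp k k3 kg : ℝ) (G Ga A p0 p1 : (Fin m → Bool) → ℕ → ℝ)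
    (L : (Fin m → Bool) → ℝ) (f g : (Fin (m + 3) → Bool) → ℝ) :
    vp * E (fun X => P9 (g X)) - E (fun X => g X * lf G X) +
        (E (fun X => f X * lf Ga X) - E (fun X => f X * lf A X)) -
        E (fun X => qf k k3 kg (g X - lf p1 X) (f X - lf p0 X)) =
      E (fun Y => HH vp k k3 kg (G Y) (fun S => Ga Y S - A Y S) (p0 Y) (p1 Y) (L Y)
        (fun x => f (pt x Y)) fun x => g (pt x Y)) + E L := by
  rw [← E_mul, ← E_sub, ← E_sub, ← E_add, ← E_sub, ← E_add, E_fibre]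
  refine E_congr fun Y => ?_
  rw [HH, sub_add_cancel]
  congr 1
  refine sum_congr rfl fun x hx => ?_
  have h := mem_range.1 hx
  rw [lf_pt G h, lf_pt Ga h, lf_pt A h, lf_pt p0 h, lf_pt p1 h, wt_sub_NMaster, mul_sub]

theorem adj_NMaster {n : ℕ} {ρ eT : ℝ} {f G Ga : (Fin n → Bool) → ℝ} (hf : ∀ x, f x ^ 2 = 1)
    (h0 : 0 ≤ eT) (h : E (fun X => (TT ρ G X - Ga X) ^ 2) ≤ eT ^ 2) :
    E (fun X => TT ρ f X * G X) - E (fun X => f X * Ga X) ≤ eT := by
  have h1 := E_cs f fun X => TT ρ G X - Ga X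
  rw [E_congr hf, E_const, one_mul] at h1
  have h2 : E (fun X => TT ρ f X * G X) = E (fun X => f X * TT ρ G X) := T_adj _ _ _
  rw [h2, ← E_sub, ← E_congr fun X => mul_sub (f X) (TT ρ G X) (Ga X)]
  exact le_of_sq_le_sq_NMaster h0 (h1.trans h)

theorem quad_NMaster {n : ℕ} {f p0 p1 : (Fin n → Bool) → ℝ}
    (hf : ∀ x, f (fun j => !x j) = -1 * f x) (hp : ∀ x, p0 (fun j => !x j) = -1 * p0 x)
    {ρ k k3 kg γ c1 ce : ℝ} (r0 : 0 ≤ ρ) (r1 : ρ ≤ 1) (h : QOk ρ k k3 kg γ c1 ce) :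
    E (fun x => qf k k3 kg (TT ρ f x - p1 x) (f x - p0 x)) ≤
      c1 * W1 (fun x => f x - p0 x) + ce * E (fun x => (TT ρ p0 x - p1 x) ^ 2) := by
  refine le_of_eq_of_le (E_congr fun x => ?_) (quad_row (w := fun x => f x - p0 x)
    (p := fun x => TT ρ p0 x - p1 x) (fun x => by simp only [hf, hp]; ring) r0 r1 h)
  have e : (fun x => f x - p0 x) = fun x => 1 * f x + -1 * p0 x := funext fun x => by ring
  have e' : TT ρ (fun x => f x - p0 x) x = TT ρ f x - TT ρ p0 x := by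
    rw [e, TT, T_lin, TT, TT]
    ring
  simp only [e', sub_add_sub_cancel]

theorem master {e : Ev} {c : Ct} {cl : Cl} {M At γ c1 ce eT : ℝ} (he : EnvOk e) (hv : 0 < c.vp)
    (hA : AZ c.a) (h1 : Cen e c M) (h2 : Out e c M At) (hAt : 0 ≤ At)
    (hq : QOk e.ρ c.k c.k3 c.kg γ c1 ce) (hT0 : 0 ≤ eT) (hT : ee e c.y ≤ eT ^ 2)
    (hV : ∀ v < 4, M + At / 128 + eT + c1 * WB e c.b cl + ce * ee e c.b + cvA e c.a cl v +
      cvL e c v ≤ c.vp * cl.U) : CellP e.ρ e.X e.Q0 e.Q1 cl := by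
  intro m f α a ω hf hα w0 w1 hX q0 q1
  obtain ⟨r0, r1, hi, hE⟩ := he
  have ht : Tail e a := ⟨hf.2.2.2.2.2, hX, q0, q1⟩
  obtain ⟨hTk, hCk, hLk⟩ := hE m a ht
  obtain ⟨w, hw⟩ := exists_Wv ht
  have hu : ∑ i, uv e a i ^ 2 ≤ 1 := by
    rw [uv_sq ht hw, ← hw.2.1]
    exact sum_le_sum fun v hv => mul_le_of_le_one_right (hw.1 v (mem_range.1 hv))
      (hi v (mem_range.1 hv))
  have hg : ∀ X, TT e.ρ f X ^ 2 ≤ 1 := T_abs (by linarith) (by linarith) hf.1.1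
  have s1 := fibre_NMaster c.vp c.k c.k3 c.kg (fun Y => B0 e c.y (ell a Y) (ell (uv e a) Y))
    (fun Y => B1 e c.y (ell a Y) (ell (uv e a) Y)) (fun Y => BA c.a (ell a Y) (ell (uv e a) Y))
    (fun Y => B0 e c.b (ell a Y) (ell (uv e a) Y)) (fun Y => B1 e c.b (ell a Y) (ell (uv e a) Y))
    (fun Y => Lw e c.c2 c.c4 c.c6 c.mu c.nu c.yc (ell a Y) (ell (uv e a) Y)) f (TT e.ρ f)
  have s2 := fibre_bound h1 h2 hAt a (uv e a) ht.1.le hu (fun Y x => f (pt x Y))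
    (fun Y x => TT e.ρ f (pt x Y)) fun Y x _ => ⟨hf.1.1 _, hg _⟩
  have s3 := adj_NMaster hf.1.1 hT0 ((T_apx r0 hTk c.y).trans hT)
  have s4 := quad_NMaster (p1 := lf fun Y => B1 e c.b (ell a Y) (ell (uv e a) Y)) hf.1.2
    (B0_odd e a (uv e a) c.b) r0 r1 hq
  have s5 := mul_le_mul_of_nonneg_left (W1_bound hf hα w0 w1 hX hCk c.b) hq.2.2.1
  have hce : 0 ≤ ce := by
    obtain ⟨k0, g0, -, -, -, -, k1⟩ := hq
    by_contra hn
    nlinarith [mul_nonneg g0 (show 0 ≤ c.k - ce by linarith)]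
  have s6 := mul_le_mul_of_nonneg_left (T_apx r0 hTk c.b) hce
  have s7 := row_A hf hα w0 w1 hw hA
  have s8 := row_L ht hw (hLk w hw) c
  have s9 := sum_le_sum fun v (hv : v ∈ range 4) =>
    mul_le_mul_of_nonneg_left (hV v (mem_range.1 hv)) (hw.1 v (mem_range.1 hv))
  simp only [mul_add (w _) _ (cvL e c _), mul_add (w _) _ (cvA e c.a cl _), sum_add_distrib,
    ← sum_mul, hw.2.1, one_mul] at s9
  simp only [HZ] at s2
  refine le_of_mul_le_mul_left ?_ hv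
  rw [FF]
  linarith

end Pool.Agent.MP_ebf981_lc.N9

end

section

namespace Pool.Agent.MP_ebf981_lc.N9

open Finset

/-- change of coordinates: injection into a larger cube and signs -/
def rix {n n' : ℕ} (e : Fin n → Fin n') (s : Fin n → Bool) (f : (Fin n → Bool) → ℝ)
    (X : Fin n' → Bool) : ℝ := f (fun i => if s i = true then X (e i) else !X (e i))

theorem sg_NRix (s b : Bool) : sg (if s = true then b else !b) = sg s * sg b := by
  cases s <;> cases b <;> simp [sg]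

theorem chi_NRix {n n' : ℕ} {e : Fin n → Fin n'} (he : Function.Injective e) (s : Fin n → Bool)
    (S : Finset (Fin n)) (X : Fin n' → Bool) :
    rix e s (chi S) X = chi S s * chi (S.map ⟨e, he⟩) X := by
  simp only [rix, chi, sg_NRix, prod_mul_distrib, prod_map, Function.Embedding.coeFn_mk]

theorem exp_NRix {n n' : ℕ} {e : Fin n → Fin n'} (he : Function.Injective e) (s : Fin n → Bool)
    (f : (Fin n → Bool) → ℝ) (X : Fin n' → Bool) :
    rix e s f X = ∑ S, hat f S * chi S s * chi (S.map ⟨e, he⟩) X := by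
  rw [rix, expand f]
  refine sum_congr rfl fun S _ => ?_
  rw [mul_assoc, ← chi_NRix he]
  rfl

theorem T_NRix {n n' : ℕ} {e : Fin n → Fin n'} (he : Function.Injective e) (s : Fin n → Bool)
    (f : (Fin n → Bool) → ℝ) (ε : ℝ) (X : Fin n' → Bool) :
    T ε (rix e s f) X = rix e s (T ε f) X := by
  rw [exp_NRix he s (T ε f), T]
  simp only [exp_NRix he s f, mul_sum]
  rw [sum_comm]
  refine sum_congr rfl fun S _ => ?_
  have h := T_chi ε (S.map ⟨e, he⟩) X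
  rw [card_map, T] at h
  rw [hat_T]
  calc _ = hat f S * chi S s * ∑ y, ker ε X y * chi (S.map ⟨e, he⟩) y := by
        rw [mul_sum]
        exact sum_congr rfl fun y _ => by ring
    _ = _ := by rw [h]; ring

theorem E_chi_NRix {n : ℕ} (S : Finset (Fin n)) : E (chi S) = if S = ∅ then 1 else 0 := by
  split_ifs with h
  · subst h
    exact (E_congr fun x => by simp [chi]).trans (E_const 1)
  · obtain ⟨j, hj⟩ := nonempty_iff_ne_empty.2 h
    have h1 : ∑ y, chi S y = 0 := by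
      simp only [chi_eq]
      rw [sum_prod fun i b => if i ∈ S then sg b else 1]
      exact prod_eq_zero (mem_univ j) (by simp [hj, sg])
    rw [E, h1, mul_zero]

theorem E_NRix {n n' : ℕ} {e : Fin n → Fin n'} (he : Function.Injective e) (s : Fin n → Bool)
    (f : (Fin n → Bool) → ℝ) : E (rix e s f) = E f := by
  rw [E_congr (exp_NRix he s f), E_sum]
  simp only [E_mul, E_chi_NRix, map_eq_empty]
  rw [sum_eq_single ∅ (fun S _ h => by simp [h]) (by simp)]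
  simp [hat, chi]

theorem rix_OB {n n' : ℕ} (e : Fin n → Fin n') (s : Fin n → Bool) {f : (Fin n → Bool) → ℝ}
    (hf : OB f) : OB (rix e s f) := by
  refine ⟨fun x => hf.1 _, fun x => ?_⟩
  rw [rix, rix, ← hf.2]
  congr 1
  funext i
  cases s i <;> simp

theorem rix_FF {n n' : ℕ} {e : Fin n → Fin n'} (he : Function.Injective e) (s : Fin n → Bool)
    (f : (Fin n → Bool) → ℝ) (ρ : ℝ) : FF ρ (rix e s f) = FF ρ f := by
  rw [FF, FF, ← E_NRix he s]
  exact E_congr fun X => by rw [TT, T_NRix he]; rfl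

theorem rix_hat {n n' : ℕ} {e : Fin n → Fin n'} (he : Function.Injective e) (s : Fin n → Bool)
    (f : (Fin n → Bool) → ℝ) (i : Fin n) : hat (rix e s f) {e i} = sg (s i) * hat f {i} := by
  rw [hat, hat, ← E_mul, ← E_NRix he s]
  refine E_congr fun X => ?_
  have h := sg_sq (s i)
  simp only [rix, chi, prod_singleton, sg_NRix]
  linear_combination (-(f fun i => if s i = true then X (e i) else !X (e i)) * sg (X (e i))) * h

theorem rix_hat_zero {n n' : ℕ} {e : Fin n → Fin n'} (s : Fin n → Bool)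
    (f : (Fin n → Bool) → ℝ) {j : Fin n'} (hj : ∀ i, e i ≠ j) : hat (rix e s f) {j} = 0 := by
  have h := E_invol (fun X => Function.update X j (!X j))
    (fun X => by simp) (fun X => rix e s f X * chi {j} X)
  have h2 : E (fun X => rix e s f (Function.update X j (!X j)) *
      chi {j} (Function.update X j (!X j))) = E (fun X => -1 * (rix e s f X * chi {j} X)) :=
    E_congr fun X => by simp [rix, chi, Function.update_of_ne (hj _), sg_not]
  rw [h2, E_mul] at h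
  rw [hat]
  linarith

end Pool.Agent.MP_ebf981_lc.N9

end

section

namespace Pool.Agent.MP_ebf981_lc.N9

open Finset

/-- the coefficients from position `k` on -/
def dd_NVal (c : ℕ → ℝ) (k i : ℕ) : ℝ := if k ≤ i then c i else 0

def WW_NVal (c : ℕ → ℝ) (n k : ℕ) : ℝ := ∑ i ∈ range (n + 1), dd_NVal c k i ^ 2

noncomputable def xx_NVal (c : ℕ → ℝ) (n k : ℕ) : ℝ :=
  if WW_NVal c n k = 0 then 1 else c k ^ 2 / WW_NVal c n k

noncomputable def aa_NVal (c : ℕ → ℝ) (n k i : ℕ) : ℝ :=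
  if WW_NVal c n k = 0 then (if i = n then 1 else 0) else dd_NVal c k i / √(WW_NVal c n k)

noncomputable def QQ_NVal (c : ℕ → ℝ) (n k : ℕ) : ℝ := ∑ i ∈ range (n + 1), aa_NVal c n k i ^ 4

theorem W_nonneg_NVal (c : ℕ → ℝ) (n k : ℕ) : 0 ≤ WW_NVal c n k :=
  sum_nonneg fun _ _ => sq_nonneg _

theorem W_succ_NVal {c : ℕ → ℝ} {n : ℕ} (hz : ∀ j, n ≤ j → c j = 0) (k : ℕ) :
    WW_NVal c n k = c k ^ 2 + WW_NVal c n (k + 1) := by
  have e : ∀ i, dd_NVal c k i ^ 2 = (if k = i then c k ^ 2 else 0) + dd_NVal c (k + 1) i ^ 2 := by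
    intro i
    unfold dd_NVal
    rcases lt_trichotomy k i with h | h | h
    · rw [if_pos h.le, if_neg h.ne, if_pos (by omega), zero_add]
    · subst h
      simp
    · rw [if_neg (by omega), if_neg (by omega), if_neg (by omega)]
      simp
  unfold WW_NVal
  rw [sum_congr rfl fun i _ => e i, sum_add_distrib, sum_ite_eq]
  split_ifs with h
  · rfl
  · rw [hz k (by simp at h; omega)]
    simp

theorem W_le_NVal {c : ℕ → ℝ} {n : ℕ} (hz : ∀ j, n ≤ j → c j = 0) (k : ℕ) :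
    WW_NVal c n k ≤ WW_NVal c n 0 := by
  induction k with
  | zero => exact le_rfl
  | succ k ih => have := W_succ_NVal hz k; nlinarith [sq_nonneg (c k)]

theorem A_le_NVal {c : ℕ → ℝ} {n : ℕ} (hz : ∀ j, n ≤ j → c j = 0) (k : ℕ) :
    c k ^ 2 ≤ WW_NVal c n k := by
  have := W_succ_NVal hz k
  have := W_nonneg_NVal c n (k + 1)
  linarith

theorem a_sq_NVal {c : ℕ → ℝ} {n k : ℕ} (h : WW_NVal c n k ≠ 0) (i : ℕ) :
    aa_NVal c n k i ^ 2 = dd_NVal c k i ^ 2 / WW_NVal c n k := by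
  rw [aa_NVal, if_neg h, div_pow, Real.sq_sqrt (W_nonneg_NVal c n k)]

theorem sum_a_NVal (c : ℕ → ℝ) (n k : ℕ) : ∑ i ∈ range (n + 1), aa_NVal c n k i ^ 2 = 1 := by
  by_cases h : WW_NVal c n k = 0
  · simp [aa_NVal, h]
  · simp only [a_sq_NVal h]
    rw [← sum_div]
    exact div_self h

theorem a_le_NVal {c : ℕ → ℝ} (h0 : ∀ j, 0 ≤ c j) (ha : Antitone c) (n k i : ℕ) :
    aa_NVal c n k i ^ 2 ≤ xx_NVal c n k := by
  by_cases h : WW_NVal c n k = 0
  · rw [aa_NVal, xx_NVal, if_pos h, if_pos h]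
    split_ifs <;> norm_num
  · rw [a_sq_NVal h, xx_NVal, if_neg h]
    refine div_le_div_of_nonneg_right ?_ (W_nonneg_NVal c n k)
    unfold dd_NVal
    split_ifs with h1
    · exact pow_le_pow_left₀ (h0 i) (ha h1) 2
    · simpa using sq_nonneg (c k)

theorem mul_a_NVal {c : ℕ → ℝ} {n : ℕ} (k i : ℕ) (hi : i < n + 1) :
    √(WW_NVal c n k) * aa_NVal c n k i = dd_NVal c k i := by
  by_cases h : WW_NVal c n k = 0
  · have h1 : dd_NVal c k i ^ 2 ≤ WW_NVal c n k :=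
      single_le_sum (f := fun i => dd_NVal c k i ^ 2) (fun _ _ => sq_nonneg _) (mem_range.2 hi)
    rw [h] at h1 ⊢
    rw [Real.sqrt_zero, zero_mul]
    exact (pow_eq_zero_iff two_ne_zero).1 (le_antisymm h1 (sq_nonneg _)) |>.symm
  · rw [aa_NVal, if_neg h]
    have : √(WW_NVal c n k) ≠ 0 :=
      (Real.sqrt_pos.2 (lt_of_le_of_ne (W_nonneg_NVal c n k) (Ne.symm h))).ne'
    field_simp

theorem rl_NVal {c : ℕ → ℝ} {n : ℕ} (hz : ∀ j, n ≤ j → c j = 0) (h0 : ∀ j, 0 ≤ c j)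
    (ha : Antitone c) (h1 : WW_NVal c n 0 ≤ 1) :
    Rl (fun j => c j ^ 2) (WW_NVal c n) (xx_NVal c n) (QQ_NVal c n) := by
  refine ⟨fun j _ => ⟨W_nonneg_NVal c n j, (W_le_NVal hz j).trans h1, ?_, ?_, ?_, ?_, ?_⟩,
    fun j _ => ⟨W_succ_NVal hz j, pow_le_pow_left₀ (h0 _) (ha (Nat.le_succ j)) 2⟩⟩
  · exact (sq_nonneg _).trans (a_le_NVal h0 ha n j 0)
  · unfold xx_NVal
    split_ifs with h
    · exact le_rfl
    · exact div_le_one_of_le₀ (A_le_NVal hz j) (W_nonneg_NVal c n j)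
  · unfold xx_NVal
    split_ifs with h
    · have := A_le_NVal hz j
      rw [h] at this ⊢
      simpa using le_antisymm this (sq_nonneg _)
    · simp only
      field_simp
  · by_cases h : WW_NVal c n j = 0
    · simp [xx_NVal, QQ_NVal, aa_NVal, h]
    · by_cases hj : j < n + 1
      · have e : xx_NVal c n j ^ 2 = aa_NVal c n j j ^ 4 := by
          rw [show aa_NVal c n j j ^ 4 = (aa_NVal c n j j ^ 2) ^ 2 by ring, a_sq_NVal h, xx_NVal,
            if_neg h, dd_NVal, if_pos le_rfl]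
        rw [e]
        exact single_le_sum (f := fun i => aa_NVal c n j i ^ 4) (fun _ _ => by positivity)
          (mem_range.2 hj)
      · rw [xx_NVal, if_neg h, hz j (by omega)]
        have : 0 ≤ QQ_NVal c n j := sum_nonneg fun _ _ => by positivity
        simpa using this
  · calc QQ_NVal c n j ≤ ∑ i ∈ range (n + 1), xx_NVal c n j * aa_NVal c n j i ^ 2 :=
          sum_le_sum fun i _ => by
            have := a_le_NVal h0 ha n j i
            nlinarith [sq_nonneg (aa_NVal c n j i)]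
      _ = xx_NVal c n j := by rw [← mul_sum, sum_a_NVal, mul_one]

/-- heads stay, the rest is moved behind the third place -/
def em_NVal (n k : ℕ) (_hk : k ≤ 3) (i : Fin n) : Fin (n + 1 + 3) :=
  if i.1 < k then ⟨i.1, by omega⟩ else ⟨i.1 + 3, by omega⟩

theorem em_val_NVal (n k : ℕ) (hk : k ≤ 3) (i : Fin n) :
    (em_NVal n k hk i).1 = if i.1 < k then i.1 else i.1 + 3 := by
  unfold em_NVal
  split_ifs <;> rfl

theorem em_inj_NVal (n k : ℕ) (hk : k ≤ 3) : Function.Injective (em_NVal n k hk) := by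
  intro i j h
  have := congrArg Fin.val h
  rw [em_val_NVal, em_val_NVal] at this
  apply Fin.ext
  split_ifs at this <;> omega

theorem lev_NVal {n : ℕ} {f : (Fin n → Bool) → ℝ} (hf : OB f) {c : ℕ → ℝ}
    (hc : ∀ i : Fin n, hat f {i} = c i) (hz : ∀ j, n ≤ j → c j = 0) (h0 : ∀ j, 0 ≤ c j)
    (ha : Antitone c) (k : ℕ) (hk : k ≤ 3) :
    Lev f (fun j => c j ^ 2) (WW_NVal c n) (xx_NVal c n) (QQ_NVal c n) k := by
  have hin : ∀ (i : Fin n) (j : Fin (n + 1 + 3)), em_NVal n k hk i = j →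
      hat (rix (em_NVal n k hk) (fun _ => true) f) {j} = c i := by
    rintro i _ rfl
    rw [rix_hat (em_inj_NVal n k hk), hc]
    simp [sg]
  have hhead : ∀ j : Fin (n + 1 + 3), j.1 < 3 →
      hat (rix (em_NVal n k hk) (fun _ => true) f) {j} = if j.1 < k then c j else 0 := by
    intro j hj
    by_cases h : j.1 < k ∧ j.1 < n
    · rw [if_pos h.1]
      exact hin ⟨j.1, h.2⟩ j (Fin.ext (by rw [em_val_NVal]; simp [h.1]))
    · rw [rix_hat_zero]
      · split_ifs with h1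
        · exact (hz _ (by omega)).symm
        · rfl
      · intro i hi
        have := congrArg Fin.val hi
        rw [em_val_NVal] at this
        have := i.2
        split_ifs at * <;> omega
  refine ⟨n + 1, rix (em_NVal n k hk) (fun _ => true) f, fun j => if j < k then c j else 0,
    fun i => aa_NVal c n k i, √(WW_NVal c n k), ⟨rix_OB _ _ hf, hhead 0 (by simp),
      hhead 1 (by simp), hhead 2 (Nat.lt_succ_self 2), fun i => ?_, ?_⟩,
    rix_FF (em_inj_NVal n k hk) _ f, Real.sqrt_nonneg _, Real.sq_sqrt (W_nonneg_NVal c n k),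
    fun j _ => ⟨?_, ?_⟩, fun i => a_le_NVal h0 ha n k i, ?_⟩
  · rw [mul_a_NVal k i i.2, dd_NVal]
    by_cases h : k ≤ i.1 ∧ i.1 < n
    · rw [if_pos h.1]
      refine hin ⟨i.1, h.2⟩ _ (Fin.ext ?_)
      rw [em_val_NVal, if_neg (by simp [h.1])]
      simp
    · rw [rix_hat_zero]
      · split_ifs with h1
        · exact (hz _ (by omega)).symm
        · rfl
      · intro i' hi
        have := congrArg Fin.val hi
        rw [em_val_NVal] at this
        have := i'.2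
        simp only [Fin.val_succ] at *
        split_ifs at * <;> omega
  · rw [Fin.sum_univ_eq_sum_range (fun i => aa_NVal c n k i ^ 2), sum_a_NVal]
  · beta_reduce
    split_ifs
    · exact h0 j
    · exact le_rfl
  · beta_reduce
    split_ifs <;> simp
  · rw [Fin.sum_univ_eq_sum_range (fun i => aa_NVal c n k i ^ 4)]
    rfl

theorem exists_val {n : ℕ} {f : (Fin n → Bool) → ℝ} (hf : OB f) :
    ∃ A W x Q : ℕ → ℝ, Rl A W x Q ∧ W 0 = W1 f ∧
      (∀ bb : ℝ, (∀ i, |hat f {i}| ≤ bb) → A 0 ≤ bb ^ 2) ∧ ∀ k ≤ 3, Lev f A W x Q k := by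
  let σ : Equiv.Perm (Fin n) := Tuple.sort fun i => -|hat f {i}|
  have hσ : Monotone ((fun i => -|hat f {i}|) ∘ σ) := Tuple.monotone_sort _
  let f1 := rix σ.symm (fun i => decide (0 ≤ hat f {i})) f
  let c : ℕ → ℝ := fun j => if h : j < n then |hat f {σ ⟨j, h⟩}| else 0
  have hci : ∀ i : Fin n, c i = |hat f {σ i}| := fun i => dif_pos i.2
  have hc : ∀ i : Fin n, hat f1 {i} = c i := by
    intro i
    have := rix_hat σ.symm.injective (fun i => decide (0 ≤ hat f {i})) f (σ i)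
    rw [Equiv.symm_apply_apply] at this
    rw [hci]
    refine this.trans ?_
    by_cases h : 0 ≤ hat f {σ i}
    · simp [sg, h, abs_of_nonneg h]
    · simp [sg, h, abs_of_neg (not_le.1 h)]
  have hz : ∀ j, n ≤ j → c j = 0 := fun j hj => dif_neg (by omega)
  have h0 : ∀ j, 0 ≤ c j := fun j => by
    by_cases h : j < n
    · exact (abs_nonneg _).trans_eq (hci ⟨j, h⟩).symm
    · exact (hz j (by omega)).ge
  have ha : Antitone c := fun i j hij => by
    by_cases h : j < n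
    · have := hσ (show (⟨i, by omega⟩ : Fin n) ≤ ⟨j, h⟩ from hij)
      rw [show c j = _ from hci ⟨j, h⟩, show c i = _ from hci ⟨i, by omega⟩]
      simpa using this
    · rw [hz j (by omega)]
      exact h0 i
  have hW : WW_NVal c n 0 = W1 f := by
    simp only [WW_NVal, dd_NVal, Nat.zero_le, if_true]
    rw [sum_range_succ, hz n le_rfl, ← Fin.sum_univ_eq_sum_range (fun i => c i ^ 2), W1,
      ← Equiv.sum_comp σ fun i => hat f {i} ^ 2]
    simp [hci]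
  have hW1 : W1 f ≤ 1 := by
    have := W1_le f
    rwa [E_congr hf.1, E_const] at this
  refine ⟨fun j => c j ^ 2, WW_NVal c n, xx_NVal c n, QQ_NVal c n,
    rl_NVal hz h0 ha (hW.trans_le hW1), hW, fun bb hb => ?_, fun k hk => ?_⟩
  · by_cases h : 0 < n
    · refine pow_le_pow_left₀ (h0 0) ?_ 2
      exact (hci ⟨0, h⟩).trans_le (hb _)
    · simp only [hz 0 (by omega)]
      simpa using sq_nonneg bb
  · obtain ⟨m, f', α, a, ω, h1, h2, h3⟩ :=
      lev_NVal (f := f1) (rix_OB _ _ hf) hc hz h0 ha k hk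
    exact ⟨m, f', α, a, ω, h1, fun ρ => (h2 ρ).trans (rix_FF σ.symm.injective _ f ρ), h3⟩

end Pool.Agent.MP_ebf981_lc.N9

end

section

namespace Pool.Agent.MP_ebf981_lc.N9

open Finset

theorem orth_NInterp {n : ℕ} (S S' : Finset (Fin n)) :
    hat (chi S) S' = if S = S' then 1 else 0 := by
  simp only [hat, E, chi_eq, ← prod_mul_distrib]
  rw [sum_prod (fun j b => (if j ∈ S then sg b else 1) * (if j ∈ S' then sg b else 1))]
  split_ifs with h
  · subst h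
    rw [prod_congr rfl (g := fun _ => (2 : ℝ)) fun j _ => by
      by_cases h : j ∈ S <;> simp [h, sg] <;> norm_num]
    rw [prod_const, card_univ, Fintype.card_fin, ← mul_pow]
    norm_num
  · obtain ⟨j, hj⟩ := not_forall.1 (mt Finset.ext h)
    rw [prod_eq_zero (mem_univ j), mul_zero]
    by_cases h1 : j ∈ S <;> by_cases h2 : j ∈ S' <;> simp [h1, h2, sg] at hj ⊢

/-- the function with Fourier multipliers `c k * r ^ k` -/
noncomputable def gp_NInterp {n : ℕ} (f : (Fin n → Bool) → ℝ) (c : ℕ → ℝ) (r : ℝ)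
    (x : Fin n → Bool) : ℝ :=
  ∑ S : Finset (Fin n), c S.card * r ^ S.card * hat f S * chi S x

theorem hat_gp_NInterp {n : ℕ} (f : (Fin n → Bool) → ℝ) (c : ℕ → ℝ) (r : ℝ)
    (S : Finset (Fin n)) : hat (gp_NInterp f c r) S = c S.card * r ^ S.card * hat f S := by
  have e : hat (gp_NInterp f c r) S =
      ∑ S' : Finset (Fin n), c S'.card * r ^ S'.card * hat f S' * hat (chi S') S := by
    rw [hat, E_congr (G := fun x => ∑ S' : Finset (Fin n),
      c S'.card * r ^ S'.card * hat f S' * (chi S' x * chi S x)) fun x => by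
        rw [gp_NInterp, sum_mul]; exact sum_congr rfl fun S' _ => by ring, E_sum]
    exact sum_congr rfl fun S' _ => E_mul _ _
  simp only [e, orth_NInterp, mul_ite, mul_one, mul_zero, sum_ite_eq', mem_univ, if_true]

theorem TT_eq_NInterp {n : ℕ} (f : (Fin n → Bool) → ℝ) (r : ℝ) (x : Fin n → Bool) :
    TT r f x = gp_NInterp f (fun _ => 1) r x := by
  rw [expand (TT r f) x, gp_NInterp]
  refine sum_congr rfl fun S _ => ?_
  rw [TT, hat_T, show 1 - 2 * ((1 - r) / 2) = r by ring, one_mul]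

theorem gp_deriv_NInterp {n : ℕ} (f : (Fin n → Bool) → ℝ) (c : ℕ → ℝ) {r : ℝ} (hr : r ≠ 0)
    (x : Fin n → Bool) : HasDerivAt (fun r => gp_NInterp f c r x)
      (gp_NInterp f (fun k => k * c k) r x / r) r := by
  unfold gp_NInterp
  rw [sum_div]
  refine HasDerivAt.fun_sum fun S _ => ?_
  refine ((((hasDerivAt_pow S.card r).const_mul (c S.card)).mul_const (hat f S)).mul_const
    (chi S x)).congr_deriv ?_
  rcases S.card with _ | k
  · simp
  · rw [Nat.add_sub_cancel, pow_succ]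
    field_simp

theorem E_deriv_NInterp {n : ℕ} {F : ℝ → (Fin n → Bool) → ℝ} {F' : (Fin n → Bool) → ℝ} {r : ℝ}
    (h : ∀ x, HasDerivAt (fun r => F r x) (F' x) r) : HasDerivAt (fun r => E (F r)) (E F') r :=
  (HasDerivAt.fun_sum fun x _ => h x).const_mul _

noncomputable def u1_NInterp (g g1 : ℝ) : ℝ :=
  (72 * g + 504 * g ^ 3 + 504 * g ^ 5 + 72 * g ^ 7) * g1 - 3 * P9 g

noncomputable def u2_NInterp (g g1 g2 : ℝ) : ℝ :=
  (72 + 1512 * g ^ 2 + 2520 * g ^ 4 + 504 * g ^ 6) * g1 ^ 2 +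
    (72 * g + 504 * g ^ 3 + 504 * g ^ 5 + 72 * g ^ 7) * (g2 - 7 * g1) + 12 * P9 g

theorem P9_deriv_NInterp {g : ℝ → ℝ} {d r : ℝ} (h : HasDerivAt g d r) :
    HasDerivAt (fun r => P9 (g r))
      ((72 * g r + 504 * g r ^ 3 + 504 * g r ^ 5 + 72 * g r ^ 7) * d) r := by
  unfold P9
  refine (((((h.fun_pow 2).const_mul 36).fun_add ((h.fun_pow 4).const_mul 126)).fun_add
    ((h.fun_pow 6).const_mul 84)).fun_add ((h.fun_pow 8).const_mul 9)).congr_deriv ?_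
  push_cast
  ring

theorem d1_NInterp {g : ℝ → ℝ} {g1 r : ℝ} (hr : r ≠ 0) (h : HasDerivAt g (g1 / r) r) :
    HasDerivAt (fun r => P9 (g r) / r ^ 3) (u1_NInterp (g r) g1 / r ^ 4) r := by
  refine ((P9_deriv_NInterp h).fun_div (hasDerivAt_pow 3 r) (pow_ne_zero 3 hr)).congr_deriv ?_
  unfold u1_NInterp
  push_cast
  field_simp

theorem d2_NInterp {g g1 : ℝ → ℝ} {g2 r : ℝ} (hr : r ≠ 0) (h : HasDerivAt g (g1 r / r) r)
    (h' : HasDerivAt g1 (g2 / r) r) :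
    HasDerivAt (fun r => u1_NInterp (g r) (g1 r) / r ^ 4)
      (u2_NInterp (g r) (g1 r) g2 / r ^ 5) r := by
  unfold u1_NInterp
  refine (((((((h.const_mul 72).fun_add ((h.fun_pow 3).const_mul 504)).fun_add
    ((h.fun_pow 5).const_mul 504)).fun_add ((h.fun_pow 7).const_mul 72)).fun_mul h').fun_sub
    ((P9_deriv_NInterp h).const_mul 3)).fun_div (hasDerivAt_pow 4 r)
    (pow_ne_zero 4 hr)).congr_deriv ?_
  unfold u2_NInterp
  push_cast
  field_simp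
  ring

theorem pt_NInterp {β bb cc lam g h h2 : ℝ} (hl : 0 < lam) (hg : g ^ 2 ≤ 1)
    (hb : (72 * g + 504 * g ^ 3 + 504 * g ^ 5 + 72 * g ^ 7 - β * g) ^ 2 ≤ bb * g ^ 2 + cc) :
    -(lam / 2 * cc) - (lam / 2 * bb * (g * g) + 216 * (g * h) + 1 / (2 * lam) * (h2 * h2) -
      β * (g * h2)) ≤ u2_NInterp g (g + h) (h2 + 2 * h + g) := by
  have s0 : 0 ≤ g ^ 2 := sq_nonneg g
  have p : ∀ {k m : ℕ}, m ≤ k → (g ^ 2) ^ k ≤ (g ^ 2) ^ m := pow_le3 s0 hg
  have q1 : (504 * g ^ 3 + 2520 * g ^ 5 + 648 * g ^ 7) ^ 2 ≤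
      4 * (72 * g ^ 2 + 504 * g ^ 6 + 180 * g ^ 8) *
        (72 + 1512 * g ^ 2 + 2520 * g ^ 4 + 504 * g ^ 6) := by
    linear_combination 20736 * s0 + 435456 * p (show 2 ≤ 6 by norm_num) +
      616896 * p (show 3 ≤ 5 by norm_num) + 217728 * p (show 4 ≤ 5 by norm_num) +
      57024 * p (show 4 ≤ 7 by norm_num) + 430272 * pow_nonneg s0 4
  have q2 : 0 < 72 + 1512 * g ^ 2 + 2520 * g ^ 4 + 504 * g ^ 6 := by positivity
  have q3 : 0 ≤ (72 * g ^ 2 + 504 * g ^ 6 + 180 * g ^ 8) +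
      (504 * g ^ 3 + 2520 * g ^ 5 + 648 * g ^ 7) * h +
      (72 + 1512 * g ^ 2 + 2520 * g ^ 4 + 504 * g ^ 6) * h ^ 2 := by
    generalize 72 + 1512 * g ^ 2 + 2520 * g ^ 4 + 504 * g ^ 6 = A at *
    generalize 504 * g ^ 3 + 2520 * g ^ 5 + 648 * g ^ 7 = B at *
    generalize 72 * g ^ 2 + 504 * g ^ 6 + 180 * g ^ 8 = C at *
    refine le_of_mul_le_mul_left ?_ (show 0 < 4 * A by positivity)
    linear_combination sq_nonneg (2 * A * h + B) + q1
  have q4 : 0 ≤ lam / 2 * (72 * g + 504 * g ^ 3 + 504 * g ^ 5 + 72 * g ^ 7 - β * g) ^ 2 +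
      (72 * g + 504 * g ^ 3 + 504 * g ^ 5 + 72 * g ^ 7 - β * g) * h2 +
      1 / (2 * lam) * (h2 * h2) := by
    generalize 72 * g + 504 * g ^ 3 + 504 * g ^ 5 + 72 * g ^ 7 - β * g = A
    have e : lam / 2 * A ^ 2 + A * h2 + 1 / (2 * lam) * (h2 * h2) =
        (lam * A + h2) ^ 2 / (2 * lam) := by
      field_simp
      ring
    rw [e]
    positivity
  unfold u2_NInterp P9
  linear_combination q3 + q4 + lam / 2 * hb

theorem gp_lin_NInterp {n : ℕ} (f : (Fin n → Bool) → ℝ) (r : ℝ) (x : Fin n → Bool) :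
    gp_NInterp f (fun k => k * 1) r x =
      gp_NInterp f (fun _ => 1) r x + gp_NInterp f (fun k => k - 1) r x ∧
    gp_NInterp f (fun k => k * (k * 1)) r x = gp_NInterp f (fun k => (k - 1) ^ 2) r x +
      2 * gp_NInterp f (fun k => k - 1) r x + gp_NInterp f (fun _ => 1) r x := by
  simp only [gp_NInterp, mul_sum, ← sum_add_distrib]
  exact ⟨sum_congr rfl fun S _ => by ring, sum_congr rfl fun S _ => by ring⟩

theorem sec_NInterp {n : ℕ} {f : (Fin n → Bool) → ℝ} (hf : OB f) {β bb cc lam C0 C1 r : ℝ}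
    (r0 : 0 < r) (r1 : r ≤ 1) (hl : 0 < lam) (hbb : 0 ≤ bb)
    (h1 : ∀ g : ℝ, g ^ 2 ≤ 1 →
      (72 * g + 504 * g ^ 3 + 504 * g ^ 5 + 72 * g ^ 7 - β * g) ^ 2 ≤ bb * g ^ 2 + cc)
    (h2 : 72 * r ^ 2 + 504 * r ^ 6 + 180 * r ^ 8 + lam / 2 * (bb * r ^ 2 + cc) ≤ C0 * r ^ 5)
    (h3 : ∀ k : ℕ, 3 ≤ k →
      r ^ (2 * k) * (((k : ℝ) - 1) ^ 4 / (2 * lam) - β * ((k : ℝ) - 1) ^ 2 + 216 * ((k : ℝ) - 1)) -
        lam / 2 * bb * (r ^ 2 - r ^ 6) ≤ C1 * r ^ 5) :
    u2_NInterp r r r - (C0 + C1 * (1 - W1 f)) * r ^ 5 ≤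
      E fun x => u2_NInterp (gp_NInterp f (fun _ => 1) r x) (gp_NInterp f (fun k => k * 1) r x)
        (gp_NInterp f (fun k => k * (k * 1)) r x) := by
  have ef : E (fun x => f x ^ 2) = 1 := by simp only [hf.1, E_const]
  have hg : ∀ x, gp_NInterp f (fun _ => 1) r x ^ 2 ≤ 1 := fun x => by
    rw [← TT_eq_NInterp]
    exact T_abs (by linarith) (by linarith) hf.1 x
  have tot := E_mono fun x => pt_NInterp (h := gp_NInterp f (fun k => k - 1) r x)
    (h2 := gp_NInterp f (fun k => (k - 1) ^ 2) r x) hl (hg x) (h1 _ (hg x))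
  simp only [← (gp_lin_NInterp f r _).1, ← (gp_lin_NInterp f r _).2] at tot
  refine le_trans ?_ tot
  have sp := spec_odd hf.2 (fun k => lam / 2 * bb * r ^ (2 * k) + r ^ (2 * k) *
    (((k : ℝ) - 1) ^ 4 / (2 * lam) - β * ((k : ℝ) - 1) ^ 2 + 216 * ((k : ℝ) - 1)))
    (C1 * r ^ 5 + lam / 2 * bb * r ^ 2) fun k hk => by
      have := mul_le_mul_of_nonneg_left (pow_le3 r0.le r1 (show 6 ≤ 2 * k by omega))
        (show 0 ≤ lam / 2 * bb by positivity)
      linear_combination this + h3 k hk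
  rw [ef] at sp
  simp only [E_sub, E_add, E_mul, E_const, planch, hat_gp_NInterp, mul_sum]
  rw [← sum_add_distrib, ← sum_add_distrib, ← sum_sub_distrib,
    sum_congr rfl (g := fun S : Finset (Fin n) => (lam / 2 * bb * r ^ (2 * S.card) +
      r ^ (2 * S.card) * (((S.card : ℝ) - 1) ^ 4 / (2 * lam) - β * ((S.card : ℝ) - 1) ^ 2 +
        216 * ((S.card : ℝ) - 1))) * hat f S ^ 2) fun S _ => by ring]
  unfold u2_NInterp P9
  push_cast at sp
  linear_combination sp + h2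

theorem interp {n : ℕ} {f : (Fin n → Bool) → ℝ} (hf : OB f) {a b m0 m1 ρ : ℝ} (ha : 0 < a)
    (hb : b ≤ 1) (h : IOk a b m0 m1)
    (hA : FF a f ≤ P9 a - a ^ 3 * (m0 + m1 * (1 - W1 f)))
    (hB : FF b f ≤ P9 b - b ^ 3 * (m0 + m1 * (1 - W1 f))) (h0 : a ≤ ρ) (h1 : ρ ≤ b) :
    FF ρ f ≤ P9 ρ := by
  obtain ⟨β, bb, cc, lam, C0, C1, hl, hbb, hC0, hC1, k1, k2, k3, k4, k5⟩ := h
  have hW : 0 ≤ 1 - W1 f := by
    have := W1_le f
    simp only [hf.1, E_const] at this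
    linarith
  obtain ⟨C, hC⟩ : ∃ C, C = C0 + C1 * (1 - W1 f) := ⟨_, rfl⟩
  have hC' : 0 ≤ C := by rw [hC]; positivity
  have pos : ∀ r ∈ Set.Icc a b, 0 < r := fun r hr => ha.trans_le hr.1
  have idd : ∀ {r : ℝ}, r ≠ 0 → HasDerivAt (fun r : ℝ => r) (r / r) r := fun {r} hr => by
    rw [div_self hr]
    exact hasDerivAt_id r
  have D1 : ∀ r ∈ Set.Icc a b, HasDerivAt (fun r =>
      E (fun x => P9 (gp_NInterp f (fun _ => 1) r x) / r ^ 3) - P9 r / r ^ 3 +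
        C / 2 * ((r - a) * (r - b)))
      (E (fun x => u1_NInterp (gp_NInterp f (fun _ => 1) r x)
        (gp_NInterp f (fun k => k * 1) r x) / r ^ 4) - u1_NInterp r r / r ^ 4 +
        C / 2 * ((r - b) + (r - a))) r := fun r hr => by
    have hr := (pos r hr).ne'
    refine ((E_deriv_NInterp fun x => d1_NInterp hr (gp_deriv_NInterp f _ hr x)).fun_sub
      (d1_NInterp hr (idd hr))).fun_add ?_
    refine (((((hasDerivAt_id' r).sub_const a).fun_mul
      ((hasDerivAt_id' r).sub_const b))).const_mul (C / 2)).congr_deriv ?_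
    ring
  have D2 : ∀ r ∈ Set.Icc a b, HasDerivAt (fun r =>
      E (fun x => u1_NInterp (gp_NInterp f (fun _ => 1) r x)
        (gp_NInterp f (fun k => k * 1) r x) / r ^ 4) - u1_NInterp r r / r ^ 4 +
        C / 2 * ((r - b) + (r - a)))
      (E (fun x => u2_NInterp (gp_NInterp f (fun _ => 1) r x) (gp_NInterp f (fun k => k * 1) r x)
        (gp_NInterp f (fun k => k * (k * 1)) r x) / r ^ 5) - u2_NInterp r r r / r ^ 5 + C) r :=
    fun r hr => by
    have hr := (pos r hr).ne'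
    refine ((E_deriv_NInterp fun x => d2_NInterp hr (gp_deriv_NInterp f _ hr x)
      (gp_deriv_NInterp f _ hr x)).fun_sub (d2_NInterp hr (idd hr) (idd hr))).fun_add ?_
    refine (((((hasDerivAt_id' r).sub_const b).fun_add
      ((hasDerivAt_id' r).sub_const a))).const_mul (C / 2)).congr_deriv ?_
    ring
  have Ed : ∀ (F : (Fin n → Bool) → ℝ) (c : ℝ), E (fun x => F x / c) = E F / c := fun F c => by
    simp only [div_eq_inv_mul, E_mul]
  have cv := convexOn_of_hasDerivWithinAt2_nonneg (convex_Icc a b)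
    (fun r hr => (D1 r hr).continuousAt.continuousWithinAt)
    (fun r hr => (D1 r (interior_subset hr)).hasDerivWithinAt)
    (fun r hr => (D2 r (interior_subset hr)).hasDerivWithinAt) fun r hr => by
      have hr := interior_subset hr
      have r0 := pos r hr
      have := div_le_div_of_nonneg_right (sec_NInterp hf r0 (hr.2.trans hb) hl hbb k1
        (k2 r hr.1 hr.2) (k3 r hr.1 hr.2)) (pow_pos r0 5).le
      rw [sub_div, mul_div_cancel_right₀ _ (pow_pos r0 5).ne', ← hC] at this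
      rw [Ed]
      linarith
  have hab := h0.trans h1
  have mx := cv.le_max_of_mem_Icc (Set.left_mem_Icc.2 hab) (Set.right_mem_Icc.2 hab) ⟨h0, h1⟩
  simp only [Ed, ← TT_eq_NInterp, sub_self, zero_mul, mul_zero, add_zero] at mx
  change FF ρ f / _ - _ + _ ≤ max (FF a f / _ - _) (FF b f / _ - _) at mx
  have en : ∀ r, 0 < r → FF r f ≤ P9 r - r ^ 3 * (m0 + m1 * (1 - W1 f)) →
      FF r f / r ^ 3 - P9 r / r ^ 3 ≤ -(m0 + m1 * (1 - W1 f)) := fun r hr h => by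
    rw [← sub_div, div_le_iff₀ (pow_pos hr 3)]
    linarith
  have m2 := mx.trans (max_le (en a ha hA) (en b (ha.trans_le hab) hB))
  have m3 : FF ρ f / ρ ^ 3 ≤ P9 ρ / ρ ^ 3 := by
    have t1 := mul_le_mul_of_nonneg_right k5 hW
    have t2 := mul_nonneg hC' (sq_nonneg (2 * ρ - a - b))
    rw [hC] at m2 t2
    linear_combination m2 + k4 + t1 + 1 / 8 * t2
  exact (div_le_div_iff_of_pos_right (pow_pos (ha.trans_le h0) 3)).1 m3

end Pool.Agent.MP_ebf981_lc.N9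

end
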