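import Pool.Agent.Mg.Febf981.G807bb7

namespace Pool.Agent.MP_ebf981_lc.N9

open Finset

theorem conv_NInt2 {σ : ℝ} (hσ : |σ| ≤ 1) :
    ConvexOn ℝ Set.univ fun x : ℝ => x ^ 2 / 2 + σ * Real.cos x := by
  have hd : ∀ x : ℝ, HasDerivAt (fun x : ℝ => x ^ 2 / 2 + σ * Real.cos x)
      (x - σ * Real.sin x) x := fun x => by
    have h := ((hasDerivAt_pow 2 x).div_const 2).add ((Real.hasDerivAt_cos x).const_mul σ)
    refine h.congr_deriv ?_
    simp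
    ring
  refine Monotone.convexOn_univ_of_deriv (fun x => (hd x).differentiableAt) fun a b hab => ?_
  rw [(hd a).deriv, (hd b).deriv]
  have h1 := Real.abs_sin_sub_sin_le b a
  rw [abs_of_nonneg (sub_nonneg.2 hab)] at h1
  have h2 : σ * (Real.sin b - Real.sin a) ≤ b - a := by
    refine (le_abs_self _).trans ?_
    rw [abs_mul]
    exact (mul_le_mul hσ h1 (abs_nonneg _) zero_le_one).trans (one_mul _).le
  linarith

theorem cos1_NInt2 (θ δ : ℝ) {s : ℝ} (s0 : 0 ≤ s) (s1 : s ≤ 1) :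
    |Real.cos (θ + s * δ) - ((1 - s) * Real.cos θ + s * Real.cos (θ + δ))| ≤ δ ^ 2 / 8 := by
  have key : ∀ σ : ℝ, |σ| ≤ 1 →
      σ * (Real.cos (θ + s * δ) - ((1 - s) * Real.cos θ + s * Real.cos (θ + δ))) ≤ δ ^ 2 / 8 :=
    fun σ hσ => by
      have h := (conv_NInt2 hσ).2 (Set.mem_univ θ) (Set.mem_univ (θ + δ)) (sub_nonneg.2 s1) s0
        (sub_add_cancel 1 s)
      simp only [smul_eq_mul] at h
      rw [show (1 - s) * θ + s * (θ + δ) = θ + s * δ by ring] at h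
      nlinarith [mul_nonneg (sq_nonneg (2 * s - 1)) (sq_nonneg δ)]
  have h1 := key 1 (by simp)
  have h2 := key (-1) (by simp)
  rw [abs_le]
  constructor <;> linarith

/-- bilinear interpolation of exact values -/
noncomputable def bl_NInt2 (φ : ℝ → ℝ → ℝ) (z u s r : ℝ) : ℝ :=
  (1 - s) * (1 - r) * φ z u + s * (1 - r) * φ (z + 3 / 128) u + (1 - s) * r * φ z (u + 3 / 8) +
    s * r * φ (z + 3 / 128) (u + 3 / 8)

/-- the three bounds for exact node values -/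
def Sm_NInt2 (φ : ℝ → ℝ → ℝ) (K lz lu : ℝ) : Prop :=
  (∀ z u s r : ℝ, 0 ≤ s → s ≤ 1 → 0 ≤ r → r ≤ 1 →
    |φ (z + s * (3 / 128)) (u + r * (3 / 8)) - bl_NInt2 φ z u s r| ≤ K) ∧
  (∀ z u, |φ (z + 3 / 128) u - φ z u| ≤ lz) ∧ ∀ z u, |φ z (u + 3 / 8) - φ z u| ≤ lu

theorem add_NInt2 {φ ψ : ℝ → ℝ → ℝ} {K lz lu K' lz' lu' : ℝ} (h : Sm_NInt2 φ K lz lu)
    (h' : Sm_NInt2 ψ K' lz' lu') :
    Sm_NInt2 (fun z u => φ z u + ψ z u) (K + K') (lz + lz') (lu + lu') := by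
  refine ⟨fun z u s r s0 s1 r0 r1 => ?_, fun z u => ?_, fun z u => ?_⟩
  · refine le_trans (le_of_eq ?_) ((abs_add_le _ _).trans
      (add_le_add (h.1 z u s r s0 s1 r0 r1) (h'.1 z u s r s0 s1 r0 r1)))
    congr 1
    simp only [bl_NInt2]
    ring
  · refine le_trans (le_of_eq ?_) ((abs_add_le _ _).trans (add_le_add (h.2.1 z u) (h'.2.1 z u)))
    congr 1
    ring
  · refine le_trans (le_of_eq ?_) ((abs_add_le _ _).trans (add_le_add (h.2.2 z u) (h'.2.2 z u)))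
    congr 1
    ring

theorem smul_NInt2 {φ : ℝ → ℝ → ℝ} {K lz lu : ℝ} (c : ℝ) (h : Sm_NInt2 φ K lz lu) :
    Sm_NInt2 (fun z u => c * φ z u) (|c| * K) (|c| * lz) (|c| * lu) := by
  refine ⟨fun z u s r s0 s1 r0 r1 => ?_, fun z u => ?_, fun z u => ?_⟩
  · refine le_trans (le_of_eq ?_)
      (mul_le_mul_of_nonneg_left (h.1 z u s r s0 s1 r0 r1) (abs_nonneg c))
    rw [← abs_mul]
    congr 1
    simp only [bl_NInt2]
    ring
  · refine le_trans (le_of_eq ?_) (mul_le_mul_of_nonneg_left (h.2.1 z u) (abs_nonneg c))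
    rw [← abs_mul, mul_sub]
  · refine le_trans (le_of_eq ?_) (mul_le_mul_of_nonneg_left (h.2.2 z u) (abs_nonneg c))
    rw [← abs_mul, mul_sub]

theorem sum_NInt2 (φ : ℕ → ℝ → ℝ → ℝ) (K lz lu : ℕ → ℝ)
    (h : ∀ j, Sm_NInt2 (φ j) (K j) (lz j) (lu j)) (n : ℕ) :
    Sm_NInt2 (fun z u => ∑ j ∈ range n, φ j z u) (∑ j ∈ range n, K j) (∑ j ∈ range n, lz j)
      (∑ j ∈ range n, lu j) := by
  induction n with
  | zero => simp [Sm_NInt2, bl_NInt2]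
  | succ n ih =>
    simp only [sum_range_succ]
    exact add_NInt2 ih (h n)

theorem congr_NInt2 {φ ψ : ℝ → ℝ → ℝ} {K lz lu K' lz' lu' : ℝ} (h : Sm_NInt2 φ K lz lu)
    (e : ∀ z u, φ z u = ψ z u) (e1 : K = K') (e2 : lz = lz') (e3 : lu = lu') :
    Sm_NInt2 ψ K' lz' lu' := by
  rw [← e1, ← e2, ← e3, ← show φ = ψ from funext fun z => funext (e z)]
  exact h

theorem aff_NInt2 (a b c : ℝ) :
    Sm_NInt2 (fun z u => a + b * z + c * u) 0 (3 / 128 * |b|) (3 / 8 * |c|) := by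
  refine ⟨fun z u s r _ _ _ _ => le_of_eq ?_, fun z u => le_of_eq ?_, fun z u => le_of_eq ?_⟩
  · rw [abs_eq_zero]
    simp only [bl_NInt2]
    ring
  · rw [show a + b * (z + 3 / 128) + c * u - (a + b * z + c * u) = 3 / 128 * b by ring, abs_mul,
      abs_of_pos (by norm_num : (0 : ℝ) < 3 / 128)]
  · rw [show a + b * z + c * (u + 3 / 8) - (a + b * z + c * u) = 3 / 8 * c by ring, abs_mul,
      abs_of_pos (by norm_num : (0 : ℝ) < 3 / 8)]

theorem li_NInt2 (S : ℕ) (a0 a1 ρ : ℝ) (r0 : 0 ≤ ρ) :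
    Sm_NInt2 (fun z u => li S a0 a1 (ρ * z) (ρ * u)) 0 (3 / 128 * (evn S * ρ * |a0|))
      (3 / 8 * (evn S * ρ * |a1|)) := by
  unfold li evn
  split_ifs
  · exact congr_NInt2 (aff_NInt2 a0 0 0) (fun z u => by ring) rfl (by simp) (by simp)
  · exact congr_NInt2 (aff_NInt2 0 (ρ * a0) (ρ * a1)) (fun z u => by ring) rfl
      (by rw [abs_mul, abs_of_nonneg r0, one_mul]) (by rw [abs_mul, abs_of_nonneg r0, one_mul])

theorem cos_NInt2 (c d p : ℝ) : Sm_NInt2 (fun z u => Real.cos (c * z + d * u + p))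
    (9 / 131072 * c ^ 2 + 9 / 512 * d ^ 2) (3 / 128 * |c|) (3 / 8 * |d|) := by
  refine ⟨fun z u s r s0 s1 r0 r1 => ?_, fun z u => ?_, fun z u => ?_⟩
  · have h1 := cos1_NInt2 (c * z + d * u + p + r * (d * (3 / 8))) (c * (3 / 128)) s0 s1
    have h2 := cos1_NInt2 (c * z + d * u + p) (d * (3 / 8)) r0 r1
    have h3 := cos1_NInt2 (c * z + d * u + p + c * (3 / 128)) (d * (3 / 8)) r0 r1
    simp only [bl_NInt2]
    rw [show c * (z + s * (3 / 128)) + d * (u + r * (3 / 8)) + p =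
        c * z + d * u + p + r * (d * (3 / 8)) + s * (c * (3 / 128)) by ring,
      show c * (z + 3 / 128) + d * u + p = c * z + d * u + p + c * (3 / 128) by ring,
      show c * z + d * (u + 3 / 8) + p = c * z + d * u + p + d * (3 / 8) by ring,
      show c * (z + 3 / 128) + d * (u + 3 / 8) + p =
        c * z + d * u + p + c * (3 / 128) + d * (3 / 8) by ring]
    rw [show c * z + d * u + p + r * (d * (3 / 8)) + c * (3 / 128) =
      c * z + d * u + p + c * (3 / 128) + r * (d * (3 / 8)) by ring] at h1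
    rw [abs_le] at h1 h2 h3 ⊢
    have s2 : 0 ≤ 1 - s := sub_nonneg.2 s1
    have a1 := mul_le_mul_of_nonneg_left h2.1 s2
    have a2 := mul_le_mul_of_nonneg_left h2.2 s2
    have a3 := mul_le_mul_of_nonneg_left h3.1 s0
    have a4 := mul_le_mul_of_nonneg_left h3.2 s0
    constructor <;> nlinarith [h1.1, h1.2]
  · refine (Real.abs_cos_sub_cos_le _ _).trans (le_of_eq ?_)
    rw [show c * (z + 3 / 128) + d * u + p - (c * z + d * u + p) = 3 / 128 * c by ring, abs_mul,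
      abs_of_pos (by norm_num : (0 : ℝ) < 3 / 128)]
  · refine (Real.abs_cos_sub_cos_le _ _).trans (le_of_eq ?_)
    rw [show c * z + d * (u + 3 / 8) + p - (c * z + d * u + p) = 3 / 8 * d by ring, abs_mul,
      abs_of_pos (by norm_num : (0 : ℝ) < 3 / 8)]

theorem cs_NInt2 (S : ℕ) (c d : ℝ) : Sm_NInt2 (fun z u => cs S (c * z + d * u))
    (9 / 131072 * c ^ 2 + 9 / 512 * d ^ 2) (3 / 128 * |c|) (3 / 8 * |d|) := by
  unfold cs
  split_ifs
  · exact congr_NInt2 (cos_NInt2 c d 0) (fun z u => by rw [add_zero]) rfl rfl rfl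
  · exact congr_NInt2 (cos_NInt2 c d (-(Real.pi / 2)))
      (fun z u => by rw [← sub_eq_add_neg, Real.cos_sub_pi_div_two]) rfl rfl rfl

theorem zn_NInt2 (i : ℕ) : zn (i + 1) = zn i + 3 / 128 := by
  simp only [zn]
  push_cast
  ring

theorem un_NInt2 (l : ℕ) : un (l + 1) = un l + 3 / 8 := by
  simp only [un]
  push_cast
  ring

theorem bil_le_NInt2 {φ : ℝ → ℝ → ℝ} {Φ : ℕ → ℕ → ℝ} {ε σ : ℝ}
    (h : ∀ i < 256, ∀ l < 32, σ * Φ i l ≤ σ * φ (zn i) (un l) + ε) {i l : ℕ} (hi : i < 255)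
    (hl : l < 31) {s r : ℝ} (s0 : 0 ≤ s) (s1 : s ≤ 1) (r0 : 0 ≤ r) (r1 : r ≤ 1) :
    σ * bil Φ i l s r ≤ σ * bl_NInt2 φ (zn i) (un l) s r + ε := by
  have s2 : 0 ≤ 1 - s := sub_nonneg.2 s1
  have r2 : 0 ≤ 1 - r := sub_nonneg.2 r1
  have a1 := mul_le_mul_of_nonneg_left (h i (by omega) l (by omega)) (mul_nonneg s2 r2)
  have a2 := mul_le_mul_of_nonneg_left (h (i + 1) (by omega) l (by omega)) (mul_nonneg s0 r2)
  have a3 := mul_le_mul_of_nonneg_left (h i (by omega) (l + 1) (by omega)) (mul_nonneg s2 r0)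
  have a4 := mul_le_mul_of_nonneg_left (h (i + 1) (by omega) (l + 1) (by omega))
    (mul_nonneg s0 r0)
  rw [zn_NInt2] at a2 a4
  rw [un_NInt2] at a3 a4
  simp only [bil, bl_NInt2]
  linarith

theorem main_NInt2 {φ : ℝ → ℝ → ℝ} {Φ : ℕ → ℕ → ℝ} {K lz lu ε : ℝ} (hs : Sm_NInt2 φ K lz lu)
    (h : Nd φ Φ ε) : Ap φ Φ (K + ε) ∧ Lp Φ (lz + 2 * ε) (lu + 2 * ε) := by
  refine ⟨fun i hi l hl s r s0 s1 r0 r1 => ?_, fun i hi l hl => ?_, fun i hi l hl => ?_⟩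
  · have h1 := bil_le_NInt2 (σ := 1) (φ := φ) (Φ := Φ) (ε := ε)
      (fun i hi l hl => by linarith [(abs_le.1 (h i hi l hl)).2]) hi hl s0 s1 r0 r1
    have h2 := bil_le_NInt2 (σ := -1) (φ := φ) (Φ := Φ) (ε := ε)
      (fun i hi l hl => by linarith [(abs_le.1 (h i hi l hl)).1]) hi hl s0 s1 r0 r1
    have h3 := abs_le.1 (hs.1 (zn i) (un l) s r s0 s1 r0 r1)
    rw [abs_le]
    constructor <;> linarith [h3.1, h3.2]
  · have h1 := abs_le.1 (h i (by omega) l hl)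
    have h2 := abs_le.1 (h (i + 1) (by omega) l hl)
    have h3 := abs_le.1 (hs.2.1 (zn i) (un l))
    rw [zn_NInt2] at h2
    rw [abs_le]
    constructor <;> linarith [h1.1, h1.2, h2.1, h2.2, h3.1, h3.2]
  · have h1 := abs_le.1 (h i hi l (by omega))
    have h2 := abs_le.1 (h i hi (l + 1) (by omega))
    have h3 := abs_le.1 (hs.2.2 (zn i) (un l))
    rw [un_NInt2] at h2
    rw [abs_le]
    constructor <;> linarith [h1.1, h1.2, h2.1, h2.2, h3.1, h3.2]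

theorem ap_B0 (e : Ev) (y : ℕ → ℕ → ℝ) (S : ℕ) {Φ : ℕ → ℕ → ℝ} {ε : ℝ}
    (h : Nd (fun z u => B0 e y z u S) Φ ε) :
    Ap (fun z u => B0 e y z u S) Φ (K0 e y S + ε) ∧ Lp Φ (Z0 e y S + 2 * ε) (U0 y S + 2 * ε) := by
  refine main_NInt2 (congr_NInt2 (add_NInt2 (li_NInt2 S (y S 0) (y S 1) 1 zero_le_one)
    (sum_NInt2 _ _ _ _ (fun j => smul_NInt2 (y S (j + 2)) (cs_NInt2 S (e.t j) 0)) 7))
    (fun z u => ?_) ?_ ?_ ?_) h
  · simp [B0]
  · rw [K0, zero_add, mul_sum]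
    exact sum_congr rfl fun j _ => by ring
  · rw [Z0, mul_add, mul_sum, mul_one]
    congr 1
    exact sum_congr rfl fun j _ => by ring
  · simp [U0]

theorem smB1_NInt2 (e : Ev) (r0 : 0 ≤ e.ρ) (y : ℕ → ℕ → ℝ) (S : ℕ) :
    Sm_NInt2 (fun z u => B1 e y z u S) (K1 e y S) (Z1 e y S) (U1 e y S) := by
  refine congr_NInt2 (smul_NInt2 (e.ρ ^ crd S) (add_NInt2 (li_NInt2 S (y S 0) (y S 1) e.ρ r0)
    (sum_NInt2 _ _ _ _ (fun j => smul_NInt2 (y S (j + 2))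
      (smul_NInt2 (e.R j) (cs_NInt2 S (e.c j) (e.d j)))) 7))) (fun z u => rfl) ?_ ?_ ?_
  · rw [K1, zero_add, abs_of_nonneg (pow_nonneg r0 _)]
  · rw [Z1, abs_of_nonneg (pow_nonneg r0 _), mul_left_comm (3 / 128 : ℝ) (e.ρ ^ crd S),
      mul_add (3 / 128 : ℝ), mul_sum]
    congr 2
    exact sum_congr rfl fun j _ => by ring
  · rw [U1, abs_of_nonneg (pow_nonneg r0 _), mul_left_comm (3 / 8 : ℝ) (e.ρ ^ crd S),
      mul_add (3 / 8 : ℝ), mul_sum]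
    congr 2
    exact sum_congr rfl fun j _ => by ring

theorem ap_B1 (e : Ev) (r0 : 0 ≤ e.ρ) (y : ℕ → ℕ → ℝ) (S : ℕ) {Φ : ℕ → ℕ → ℝ} {ε : ℝ}
    (h : Nd (fun z u => B1 e y z u S) Φ ε) :
    Ap (fun z u => B1 e y z u S) Φ (K1 e y S + ε) ∧ Lp Φ (Z1 e y S + 2 * ε) (U1 e y S + 2 * ε) :=
  main_NInt2 (smB1_NInt2 e r0 y S) h

theorem ap_BF (e : Ev) (r0 : 0 ≤ e.ρ) (y a : ℕ → ℕ → ℝ) (S : ℕ) {Φ : ℕ → ℕ → ℝ} {ε : ℝ}
    (h : Nd (fun z u => B1 e y z u S - BA a z u S) Φ ε) :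
    Ap (fun z u => B1 e y z u S - BA a z u S) Φ (K1 e y S + ε) :=
  (main_NInt2 (congr_NInt2 (add_NInt2 (smB1_NInt2 e r0 y S)
    (smul_NInt2 (-1) (li_NInt2 S (a S 0) (a S 1) 1 zero_le_one)))
    (fun z u => by simp [BA, sub_eq_add_neg]) (by rw [mul_zero, add_zero]) rfl rfl) h).1

theorem p4_NInt2 {z s : ℝ} (z0 : 0 ≤ z) (s0 : 0 ≤ s) (s1 : s ≤ 1) :
    0 ≤ (1 - s) * z ^ 4 + s * (z + 3 / 128) ^ 4 - (z + s * (3 / 128)) ^ 4 ∧
    (1 - s) * z ^ 4 + s * (z + 3 / 128) ^ 4 - (z + s * (3 / 128)) ^ 4 ≤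
      15 / 16384 * ((1 - s) * z ^ 2 + s * (z + 3 / 128) ^ 2) + 1 / 65536 := by
  obtain ⟨w, hw⟩ : ∃ w, w = z + s * (3 / 128) := ⟨_, rfl⟩
  obtain ⟨v, hv⟩ : ∃ v, v = z + 3 / 128 := ⟨_, rfl⟩
  have e : (1 - s) * z ^ 4 + s * (z + 3 / 128) ^ 4 - (z + s * (3 / 128)) ^ 4 =
      s * (1 - s) * (9 / 16384) * (z * z + w * w + v * v + z * w + z * v + w * v) := by
    rw [hw, hv]; ring
  have h1 : z ≤ v := by linarith
  have h2 : w ≤ v := by linarith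
  have w0 : 0 ≤ w := by rw [hw]; positivity
  have v0 : 0 ≤ v := z0.trans h1
  have s2 : 0 ≤ 1 - s := sub_nonneg.2 s1
  have h3 : z * z + w * w + v * v + z * w + z * v + w * v ≤
      v * v + v * v + v * v + v * v + v * v + v * v := by gcongr
  have h4 : s * (1 - s) * (9 / 16384) ≤ 9 / 65536 := by nlinarith [sq_nonneg (2 * s - 1)]
  have h5 := mul_le_mul h4 h3 (by positivity) (by norm_num)
  have h6 : z ^ 2 ≤ (1 - s) * z ^ 2 + s * (z + 3 / 128) ^ 2 := by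
    nlinarith [mul_nonneg s0 z0]
  rw [e]
  refine ⟨by positivity, h5.trans ?_⟩
  rw [hv]
  nlinarith [sq_nonneg (z - 3 / 8), sq_nonneg z]

theorem p6_NInt2 {z s : ℝ} (z0 : 0 ≤ z) (s0 : 0 ≤ s) (s1 : s ≤ 1) :
    0 ≤ (1 - s) * z ^ 6 + s * (z + 3 / 128) ^ 6 - (z + s * (3 / 128)) ^ 6 ∧
    (1 - s) * z ^ 6 + s * (z + 3 / 128) ^ 6 - (z + s * (3 / 128)) ^ 6 ≤
      41 / 16384 * ((1 - s) * z ^ 4 + s * (z + 3 / 128) ^ 4) + 1 / 262144 := by
  obtain ⟨w, hw⟩ : ∃ w, w = z + s * (3 / 128) := ⟨_, rfl⟩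
  obtain ⟨v, hv⟩ : ∃ v, v = z + 3 / 128 := ⟨_, rfl⟩
  have e : (1 - s) * z ^ 6 + s * (z + 3 / 128) ^ 6 - (z + s * (3 / 128)) ^ 6 =
      s * (1 - s) * (9 / 16384) * ((z * z + w * w + z * w) * (v * v) + (z + w + v) * (v * v * v) +
        (z * z * z + z * z * w + z * w * w + w * w * w) * v +
        (z * z * z * z + z * z * z * w + z * z * w * w + z * w * w * w + w * w * w * w)) := by
    rw [hw, hv]; ring
  have h1 : z ≤ v := by linarith
  have h2 : w ≤ v := by linarith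
  have w0 : 0 ≤ w := by rw [hw]; positivity
  have v0 : 0 ≤ v := z0.trans h1
  have s2 : 0 ≤ 1 - s := sub_nonneg.2 s1
  have h3 : (z * z + w * w + z * w) * (v * v) + (z + w + v) * (v * v * v) +
        (z * z * z + z * z * w + z * w * w + w * w * w) * v +
        (z * z * z * z + z * z * z * w + z * z * w * w + z * w * w * w + w * w * w * w) ≤
      (v * v + v * v + v * v) * (v * v) + (v + v + v) * (v * v * v) +
        (v * v * v + v * v * v + v * v * v + v * v * v) * v +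
        (v * v * v * v + v * v * v * v + v * v * v * v + v * v * v * v + v * v * v * v) := by
    gcongr
  have h4 : s * (1 - s) * (9 / 16384) ≤ 9 / 65536 := by nlinarith [sq_nonneg (2 * s - 1)]
  have h5 := mul_le_mul h4 h3 (by positivity) (by norm_num)
  have h6 : z ^ 4 ≤ (1 - s) * z ^ 4 + s * (z + 3 / 128) ^ 4 := by
    have : z ^ 4 ≤ (z + 3 / 128) ^ 4 := by gcongr; linarith
    nlinarith [mul_le_mul_of_nonneg_left this s0]
  have h7 : 0 ≤ (z - 3 / 8) ^ 2 *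
      (817 / 4096 * z ^ 2 + 305 / 128 * z * (3 / 128) + 307 / 16 * (3 / 128) ^ 2) := by positivity
  have h8 : 0 ≤ z ^ 4 := by positivity
  rw [e]
  refine ⟨by positivity, h5.trans ?_⟩
  rw [hv]
  nlinarith

theorem mx_NInt2 (c : ℝ) {d b : ℝ} (d0 : 0 ≤ d) (h : d ≤ b) : c * d ≤ max c 0 * b :=
  (mul_le_mul_of_nonneg_right (le_max_left c 0) d0).trans
    (mul_le_mul_of_nonneg_left h (le_max_right c 0))

theorem ap_Lw (e : Ev) {c2 c4 c6 c2n c4n mu nu ε : ℝ} {yc : ℕ → ℝ} {Φ : ℕ → ℕ → ℝ}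
    (h4 : c4 = c4n + 41 / 16384 * max c6 0) (h2 : c2 = c2n + 15 / 16384 * max c4 0)
    (h : ∀ i < 256, ∀ l < 32, Φ i l ≤ Lw e c2n c4n c6 mu nu yc (zn i) (un l) + ε) :
    ApL (Lw e c2 c4 c6 mu nu yc) Φ (KL e c2 c4 c6 mu yc + ε) := by
  intro i hi l hl s r s0 s1 r0 r1
  have h1 := bil_le_NInt2 (σ := 1) (φ := Lw e c2n c4n c6 mu nu yc) (Φ := Φ) (ε := ε)
    (fun i hi l hl => by linarith [h i hi l hl]) hi hl s0 s1 r0 r1
  have z0 : 0 ≤ zn i := by unfold zn; positivity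
  generalize zn i = z at h1 z0 ⊢
  generalize un l = u at h1 ⊢
  have hc : Sm_NInt2 (fun z _ => ∑ j ∈ range 7, yc j * Real.cos (e.t j * z))
      (9 / 131072 * ∑ j ∈ range 7, |yc j| * e.t j ^ 2) _ _ :=
    congr_NInt2 (sum_NInt2 _ _ _ _ (fun j => smul_NInt2 (yc j) (cos_NInt2 (e.t j) 0 0)) 7)
      (fun z u => by simp) (by rw [mul_sum]; exact sum_congr rfl fun j _ => by ring) rfl rfl
  have a0 := (abs_le.1 (hc.1 z u s r s0 s1 r0 r1)).1
  have a6 := mx_NInt2 c6 (p6_NInt2 z0 s0 s1).1 (p6_NInt2 z0 s0 s1).2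
  have a4 := mx_NInt2 c4 (p4_NInt2 z0 s0 s1).1 (p4_NInt2 z0 s0 s1).2
  have a2 := mx_NInt2 c2 (d := (1 - s) * z ^ 2 + s * (z + 3 / 128) ^ 2 - (z + s * (3 / 128)) ^ 2)
    (b := 9 / 65536) (by nlinarith [mul_nonneg s0 (sub_nonneg.2 s1)])
    (by nlinarith [sq_nonneg (2 * s - 1)])
  have a1 := mx_NInt2 mu (d := (1 - r) * u ^ 2 + r * (u + 3 / 8) ^ 2 - (u + r * (3 / 8)) ^ 2)
    (b := 9 / 256) (by nlinarith [mul_nonneg r0 (sub_nonneg.2 r1)])
    (by nlinarith [sq_nonneg (2 * r - 1)])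
  have e4 : c4n = c4 - 41 / 16384 * max c6 0 := by linarith
  have e2 : c2n = c2 - 15 / 16384 * max c4 0 := by linarith
  simp only [bl_NInt2, Lw, KL] at h1 a0 ⊢
  rw [e4, e2] at h1
  generalize max c6 0 = m6 at *
  generalize max c4 0 = m4 at *
  generalize max c2 0 = m2 at *
  generalize max mu 0 = m1 at *
  linarith

end Pool.Agent.MP_ebf981_lc.N9
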