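import Pool.Agent.Mg.Febf981.G807bb7

namespace Pool.Agent.MP_ebf981_lc.N9

open Finset

theorem wt_bil_NInt1 (Φ : ℕ → ℕ → ℕ → ℝ) (i l : ℕ) (s r : ℝ) (x : ℕ) :
    wt (fun S => bil (fun i l => Φ i l S) i l s r) x = bil (fun i l => wt (Φ i l) x) i l s r := by
  simp only [wt, bil, Finset.mul_sum, ← Finset.sum_add_distrib]
  exact Finset.sum_congr rfl fun S _ => by ring

theorem wt_lin_NInt1 (a b : ℝ) (c c' : ℕ → ℝ) (x : ℕ) :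
    wt (fun S => a * c S + b * c' S) x = a * wt c x + b * wt c' x := by
  simp only [wt, Finset.mul_sum, ← Finset.sum_add_distrib]
  exact Finset.sum_congr rfl fun S _ => by ring

theorem wt_sub_NInt1 (c c' : ℕ → ℝ) (x : ℕ) :
    wt (fun S => c S - c' S) x = wt c x - wt c' x := by
  simp only [wt, ← Finset.sum_sub_distrib]
  exact Finset.sum_congr rfl fun S _ => by ring

theorem avg_qf_NInt1 (k k3 kg : ℝ) (c c' : ℕ → ℝ) :
    ∑ x ∈ range 8, qf k k3 kg (wt c x) (wt c' x) =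
      8 * ∑ S ∈ range 8, qf k k3 kg (c S) (c' S) := by
  have h1 := par8 c c
  have h2 := par8 c c'
  have h3 := par8 c' c'
  have e1 : ∑ x ∈ range 8, qf k k3 kg (wt c x) (wt c' x) =
      k * ∑ x ∈ range 8, wt c x * wt c x - k3 * ∑ x ∈ range 8, wt c x * wt c' x -
        kg * ∑ x ∈ range 8, wt c' x * wt c' x := by
    simp only [Finset.mul_sum, ← Finset.sum_sub_distrib]
    exact Finset.sum_congr rfl fun x _ => by unfold qf; ring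
  have e2 : ∑ S ∈ range 8, qf k k3 kg (c S) (c' S) =
      k * ∑ S ∈ range 8, c S * c S - k3 * ∑ S ∈ range 8, c S * c' S -
        kg * ∑ S ∈ range 8, c' S * c' S := by
    simp only [Finset.mul_sum, ← Finset.sum_sub_distrib]
    exact Finset.sum_congr rfl fun x _ => by unfold qf; ring
  rw [e1, e2, ← h1, ← h2, ← h3]
  ring

theorem cov4_NInt1 {s r P1 P2 P3 P4 Q1 Q2 Q3 Q4 Pb Qb a a' b b' : ℝ}
    (hs0 : 0 ≤ s) (hs1 : s ≤ 1) (hr0 : 0 ≤ r) (hr1 : r ≤ 1)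
    (hP : Pb = (1 - s) * (1 - r) * P1 + s * (1 - r) * P2 + (1 - s) * r * P3 + s * r * P4)
    (hQ : Qb = (1 - s) * (1 - r) * Q1 + s * (1 - r) * Q2 + (1 - s) * r * Q3 + s * r * Q4)
    (p1 : |P2 - P1| ≤ a) (p2 : |P4 - P3| ≤ a) (p3 : |P3 - P1| ≤ b) (p4 : |P4 - P2| ≤ b)
    (q1 : |Q2 - Q1| ≤ a') (q2 : |Q4 - Q3| ≤ a') (q3 : |Q3 - Q1| ≤ b') (q4 : |Q4 - Q2| ≤ b') :
    |(1 - s) * (1 - r) * ((P1 - Pb) * (Q1 - Qb)) + s * (1 - r) * ((P2 - Pb) * (Q2 - Qb)) +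
      (1 - s) * r * ((P3 - Pb) * (Q3 - Qb)) + s * r * ((P4 - Pb) * (Q4 - Qb))| ≤
      (a * a' + b * b') / 4 := by
  have id1 : (1 - s) * (1 - r) * ((P1 - Pb) * (Q1 - Qb)) + s * (1 - r) * ((P2 - Pb) * (Q2 - Qb)) +
      (1 - s) * r * ((P3 - Pb) * (Q3 - Qb)) + s * r * ((P4 - Pb) * (Q4 - Qb)) =
      s * (1 - s) * ((1 - r) * ((P2 - P1) * (Q2 - Q1)) + r * ((P4 - P3) * (Q4 - Q3))) +
        r * (1 - r) * (((1 - s) * (P3 - P1) + s * (P4 - P2)) *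
          ((1 - s) * (Q3 - Q1) + s * (Q4 - Q2))) := by
    rw [hP, hQ]; ring
  have ha : 0 ≤ a := (abs_nonneg _).trans p1
  have ha' : 0 ≤ a' := (abs_nonneg _).trans q1
  have hb : 0 ≤ b := (abs_nonneg _).trans p3
  have hb' : 0 ≤ b' := (abs_nonneg _).trans q3
  have cv : ∀ t X Y c : ℝ, 0 ≤ t → t ≤ 1 → |X| ≤ c → |Y| ≤ c → |(1 - t) * X + t * Y| ≤ c := by
    intro t X Y c h0 h1 hX hY
    have h1' : 0 ≤ 1 - t := by linarith
    calc |(1 - t) * X + t * Y| ≤ |(1 - t) * X| + |t * Y| := abs_add_le _ _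
      _ = (1 - t) * |X| + t * |Y| := by rw [abs_mul, abs_mul, abs_of_nonneg h1', abs_of_nonneg h0]
      _ ≤ (1 - t) * c + t * c := by gcongr
      _ = c := by ring
  have pr : ∀ X Y c c' : ℝ, |X| ≤ c → |Y| ≤ c' → |X * Y| ≤ c * c' := by
    intro X Y c c' hX hY
    rw [abs_mul]
    exact mul_le_mul hX hY (abs_nonneg _) ((abs_nonneg _).trans hX)
  have t1 := cv r _ _ _ hr0 hr1 (pr _ _ _ _ p1 q1) (pr _ _ _ _ p2 q2)
  have t2 := pr _ _ _ _ (cv s _ _ _ hs0 hs1 p3 p4) (cv s _ _ _ hs0 hs1 q3 q4)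
  have w1 : |s * (1 - s)| ≤ 1 / 4 := by
    rw [abs_of_nonneg (mul_nonneg hs0 (by linarith))]; nlinarith [sq_nonneg (s - 1 / 2)]
  have w2 : |r * (1 - r)| ≤ 1 / 4 := by
    rw [abs_of_nonneg (mul_nonneg hr0 (by linarith))]; nlinarith [sq_nonneg (r - 1 / 2)]
  have t3 := pr _ _ _ _ w1 t1
  have t4 := pr _ _ _ _ w2 t2
  rw [id1]
  refine (abs_add_le _ _).trans ?_
  linarith

theorem pt_NInt1 {s r k1 θ1 k3 kw θ2 g f a1 a2 a3 a4 b1 b2 b3 b4 ab bb η1 η0 : ℝ}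
    (hs0 : 0 ≤ s) (hs1 : s ≤ 1) (hr0 : 0 ≤ r) (hr1 : r ≤ 1) (ht1 : 0 ≤ θ1) (ht2 : 0 ≤ θ2)
    (ha : ab = (1 - s) * (1 - r) * a1 + s * (1 - r) * a2 + (1 - s) * r * a3 + s * r * a4)
    (hb : bb = (1 - s) * (1 - r) * b1 + s * (1 - r) * b2 + (1 - s) * r * b3 + s * r * b4) :
    -qf (k1 + θ1) k3 (kw - θ2) (g - (ab + η1)) (f - (bb + η0)) ≤
      -((1 - s) * (1 - r) * qf k1 k3 kw (g - a1) (f - b1) +
          s * (1 - r) * qf k1 k3 kw (g - a2) (f - b2) +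
          (1 - s) * r * qf k1 k3 kw (g - a3) (f - b3) + s * r * qf k1 k3 kw (g - a4) (f - b4)) +
        ((1 - s) * (1 - r) * qf (k1 + θ1) k3 (kw - θ2) (a1 - ab) (b1 - bb) +
          s * (1 - r) * qf (k1 + θ1) k3 (kw - θ2) (a2 - ab) (b2 - bb) +
          (1 - s) * r * qf (k1 + θ1) k3 (kw - θ2) (a3 - ab) (b3 - bb) +
          s * r * qf (k1 + θ1) k3 (kw - θ2) (a4 - ab) (b4 - bb)) +
        ((g - ab) * (2 * (k1 + θ1) * η1 + -k3 * η0) - θ1 * (g - ab) ^ 2) +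
        ((f - bb) * (-k3 * η1 + -(2 * (kw - θ2)) * η0) - θ2 * (f - bb) ^ 2) -
        qf (k1 + θ1) k3 (kw - θ2) η1 η0 := by
  have s1 : 0 ≤ 1 - s := by linarith
  have r1 : 0 ≤ 1 - r := by linarith
  have n1 : 0 ≤ θ1 * ((1 - s) * (1 - r) * (a1 - ab) ^ 2 + s * (1 - r) * (a2 - ab) ^ 2 +
      (1 - s) * r * (a3 - ab) ^ 2 + s * r * (a4 - ab) ^ 2) := by positivity
  have n2 : 0 ≤ θ2 * ((1 - s) * (1 - r) * (b1 - bb) ^ 2 + s * (1 - r) * (b2 - bb) ^ 2 +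
      (1 - s) * r * (b3 - bb) ^ 2 + s * r * (b4 - bb) ^ 2) := by positivity
  have key : -qf (k1 + θ1) k3 (kw - θ2) (g - (ab + η1)) (f - (bb + η0)) =
      -((1 - s) * (1 - r) * qf k1 k3 kw (g - a1) (f - b1) +
          s * (1 - r) * qf k1 k3 kw (g - a2) (f - b2) +
          (1 - s) * r * qf k1 k3 kw (g - a3) (f - b3) + s * r * qf k1 k3 kw (g - a4) (f - b4)) +
        ((1 - s) * (1 - r) * qf (k1 + θ1) k3 (kw - θ2) (a1 - ab) (b1 - bb) +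
          s * (1 - r) * qf (k1 + θ1) k3 (kw - θ2) (a2 - ab) (b2 - bb) +
          (1 - s) * r * qf (k1 + θ1) k3 (kw - θ2) (a3 - ab) (b3 - bb) +
          s * r * qf (k1 + θ1) k3 (kw - θ2) (a4 - ab) (b4 - bb)) +
        ((g - ab) * (2 * (k1 + θ1) * η1 + -k3 * η0) - θ1 * (g - ab) ^ 2) +
        ((f - bb) * (-k3 * η1 + -(2 * (kw - θ2)) * η0) - θ2 * (f - bb) ^ 2) -
        qf (k1 + θ1) k3 (kw - θ2) η1 η0 -
        θ1 * ((1 - s) * (1 - r) * (a1 - ab) ^ 2 + s * (1 - r) * (a2 - ab) ^ 2 +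
          (1 - s) * r * (a3 - ab) ^ 2 + s * r * (a4 - ab) ^ 2) -
        θ2 * ((1 - s) * (1 - r) * (b1 - bb) ^ 2 + s * (1 - r) * (b2 - bb) ^ 2 +
          (1 - s) * r * (b3 - bb) ^ 2 + s * r * (b4 - bb) ^ 2) := by
    rw [ha, hb]; unfold qf; ring
  linarith

theorem cs_NInt1 {θ E : ℝ} (d c e : ℕ → ℝ) (hθ : 0 ≤ θ) (hE : 0 ≤ E)
    (hc : ∀ S < 8, |c S| ≤ e S) (q : ∑ S ∈ range 8, e S ^ 2 ≤ 4 * θ * E) :
    ∑ x ∈ range 8, (d x * wt c x - θ * d x ^ 2) ≤ 8 * E := by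
  have h1 := par8 c c
  have h2 : ∑ S ∈ range 8, c S * c S ≤ ∑ S ∈ range 8, e S ^ 2 := by
    refine Finset.sum_le_sum fun S hS => ?_
    have := hc S (Finset.mem_range.1 hS)
    have h := sq_le_sq' (abs_le.1 this).1 (abs_le.1 this).2
    nlinarith
  have h3 : ∑ x ∈ range 8, wt c x ^ 2 ≤ 8 * (4 * θ * E) := by
    have : ∑ x ∈ range 8, wt c x ^ 2 = ∑ x ∈ range 8, wt c x * wt c x :=
      Finset.sum_congr rfl fun x _ => by ring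
    linarith
  have h4 := Finset.sum_mul_sq_le_sq_mul_sq (range 8) d (wt c)
  have hA : 0 ≤ ∑ x ∈ range 8, d x ^ 2 := Finset.sum_nonneg fun x _ => sq_nonneg _
  rw [Finset.sum_sub_distrib, ← Finset.mul_sum]
  set A := ∑ x ∈ range 8, d x ^ 2
  set C := ∑ x ∈ range 8, d x * wt c x
  have h5 : C ^ 2 ≤ (θ * A + 8 * E) ^ 2 := by
    have := mul_le_mul_of_nonneg_left h3 hA
    nlinarith [sq_nonneg (θ * A - 8 * E)]
  have h6 : C ≤ θ * A + 8 * E := by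
    have h7 : 0 ≤ θ * A + 8 * E := by positivity
    exact (abs_le_of_sq_le_sq' h5 h7).2
  linarith

theorem lin_NInt1 {g : ℝ} (c e : ℕ → ℝ) (x : ℕ) (hg : g ^ 2 ≤ 1) (hc : ∀ S < 8, |c S| ≤ e S) :
    |g * wt c x| ≤ ∑ S ∈ range 8, e S := by
  have h1 : |g| ≤ 1 := by
    rw [← sq_le_one_iff_abs_le_one]; exact hg
  have h2 : |wt c x| ≤ ∑ S ∈ range 8, e S :=
    (wt_abs c x).trans (Finset.sum_le_sum fun S hS => hc S (Finset.mem_range.1 hS))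
  rw [abs_mul]
  calc |g| * |wt c x| ≤ 1 * ∑ S ∈ range 8, e S := mul_le_mul h1 h2 (abs_nonneg _) zero_le_one
    _ = _ := one_mul _

theorem loc_NInt1 {t : ℝ} (n : ℕ) (h0 : 0 ≤ t) (h1 : t ≤ (n : ℝ) + 1) :
    ∃ i < n + 1, ∃ s : ℝ, 0 ≤ s ∧ s ≤ 1 ∧ t = i + s := by
  by_cases h : t < (n : ℝ) + 1
  · refine ⟨⌊t⌋₊, ?_, t - ⌊t⌋₊, ?_, ?_, by ring⟩
    · rw [Nat.floor_lt h0]; push_cast; exact h
    · linarith [Nat.floor_le h0]
    · linarith [Nat.lt_floor_add_one t]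
  · exact ⟨n, Nat.lt_succ_self n, 1, zero_le_one, le_rfl, le_antisymm h1 (not_lt.1 h)⟩

theorem kq_NInt1 {s r k k3 kg : ℝ} {Φ0 Φ1 : ℕ → ℕ → ℝ} {z0 u0 z1 u1 : ℝ} {i l : ℕ}
    (hi : i < 255) (hl : l < 31)
    (hs0 : 0 ≤ s) (hs1 : s ≤ 1) (hr0 : 0 ≤ r) (hr1 : r ≤ 1) (hk : 0 ≤ k) (hk3 : 0 ≤ k3)
    (hkg : 0 ≤ kg) (l0 : Lp Φ0 z0 u0) (l1 : Lp Φ1 z1 u1) :
    (1 - s) * (1 - r) * qf k k3 kg (Φ1 i l - bil Φ1 i l s r) (Φ0 i l - bil Φ0 i l s r) +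
      s * (1 - r) * qf k k3 kg (Φ1 (i + 1) l - bil Φ1 i l s r) (Φ0 (i + 1) l - bil Φ0 i l s r) +
      (1 - s) * r * qf k k3 kg (Φ1 i (l + 1) - bil Φ1 i l s r) (Φ0 i (l + 1) - bil Φ0 i l s r) +
      s * r * qf k k3 kg (Φ1 (i + 1) (l + 1) - bil Φ1 i l s r)
        (Φ0 (i + 1) (l + 1) - bil Φ0 i l s r) ≤
      k * (z1 ^ 2 + u1 ^ 2) / 4 + k3 * (z1 * z0 + u1 * u0) / 4 := by
  have a1 := l1.1 i hi l (by omega)
  have a2 := l1.1 i hi (l + 1) (by omega)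
  have a3 := l1.2 i (by omega) l hl
  have a4 := l1.2 (i + 1) (by omega) l hl
  have b1 := l0.1 i hi l (by omega)
  have b2 := l0.1 i hi (l + 1) (by omega)
  have b3 := l0.2 i (by omega) l hl
  have b4 := l0.2 (i + 1) (by omega) l hl
  have c11 := cov4_NInt1 (Pb := bil Φ1 i l s r) (Qb := bil Φ1 i l s r) hs0 hs1 hr0 hr1 rfl rfl
    a1 a2 a3 a4 a1 a2 a3 a4
  have c10 := cov4_NInt1 (Pb := bil Φ1 i l s r) (Qb := bil Φ0 i l s r) hs0 hs1 hr0 hr1 rfl rfl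
    a1 a2 a3 a4 b1 b2 b3 b4
  generalize bil Φ1 i l s r = Pb at *
  generalize bil Φ0 i l s r = Qb at *
  have s1 : 0 ≤ 1 - s := by linarith
  have r1 : 0 ≤ 1 - r := by linarith
  have n2 : 0 ≤ kg * ((1 - s) * (1 - r) * (Φ0 i l - Qb) ^ 2 + s * (1 - r) * (Φ0 (i + 1) l - Qb) ^ 2 +
      (1 - s) * r * (Φ0 i (l + 1) - Qb) ^ 2 + s * r * (Φ0 (i + 1) (l + 1) - Qb) ^ 2) := by positivity
  have m1 := mul_le_mul_of_nonneg_left (abs_le.1 c11).2 hk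
  have m2 := mul_le_mul_of_nonneg_left (abs_le.1 c10).1 hk3
  unfold qf
  linarith

theorem split_NInt1 (w1 w2 w3 w4 K : ℝ) (N1 N2 N3 N4 Q1 Q2 Q3 Q4 C1 C2 D : ℕ → ℝ) :
    ∑ x ∈ range 8, ((w1 * N1 x + w2 * N2 x + w3 * N3 x + w4 * N4 x) +
      (w1 * Q1 x + w2 * Q2 x + w3 * Q3 x + w4 * Q4 x) + C1 x + C2 x - D x + K) =
      (w1 * ∑ x ∈ range 8, N1 x + w2 * ∑ x ∈ range 8, N2 x + w3 * ∑ x ∈ range 8, N3 x +
        w4 * ∑ x ∈ range 8, N4 x) +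
      (w1 * ∑ x ∈ range 8, Q1 x + w2 * ∑ x ∈ range 8, Q2 x + w3 * ∑ x ∈ range 8, Q3 x +
        w4 * ∑ x ∈ range 8, Q4 x) + ∑ x ∈ range 8, C1 x + ∑ x ∈ range 8, C2 x -
      ∑ x ∈ range 8, D x + 8 * K := by
  simp only [Finset.sum_range_succ, Finset.sum_range_zero]
  ring

theorem node_to_cell {vp k1 k3 kw θ1 θ2 E1 E2 M0 eL : ℝ} {G F p0 p1 : ℝ → ℝ → ℕ → ℝ}
    {L : ℝ → ℝ → ℝ} {ΦG ΦF Φ0 Φ1 : ℕ → ℕ → ℕ → ℝ} {ΦL : ℕ → ℕ → ℝ}
    {eG eF e0 e1 z0 u0 z1 u1 : ℕ → ℝ} (hk1 : 0 ≤ k1) (hk3 : 0 ≤ k3) (ht1 : 0 ≤ θ1) (ht2 : 0 ≤ θ2)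
    (hkw : θ2 ≤ kw) (hE1 : 0 ≤ E1) (hE2 : 0 ≤ E2)
    (hG : ∀ S < 8, Ap (fun z u => G z u S) (fun i l => ΦG i l S) (eG S))
    (hF : ∀ S < 8, Ap (fun z u => F z u S) (fun i l => ΦF i l S) (eF S))
    (h0 : ∀ S < 8, Ap (fun z u => p0 z u S) (fun i l => Φ0 i l S) (e0 S))
    (h1 : ∀ S < 8, Ap (fun z u => p1 z u S) (fun i l => Φ1 i l S) (e1 S))
    (l0 : ∀ S < 8, Lp (fun i l => Φ0 i l S) (z0 S) (u0 S))
    (l1 : ∀ S < 8, Lp (fun i l => Φ1 i l S) (z1 S) (u1 S))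
    (hL : ApL L ΦL eL)
    (q1 : ∑ S ∈ range 8, (2 * (k1 + θ1) * e1 S + k3 * e0 S) ^ 2 ≤ 4 * θ1 * E1)
    (q2 : ∑ S ∈ range 8, (k3 * e1 S + 2 * (kw - θ2) * e0 S) ^ 2 ≤ 4 * θ2 * E2)
    (hN : ∀ i < 256, ∀ l < 32, ∀ f g, FG f g →
      HH vp k1 k3 kw (ΦG i l) (ΦF i l) (Φ0 i l) (Φ1 i l) (ΦL i l) f g ≤ M0)
    {z u : ℝ} (z0' : 0 ≤ z) (z1' : z ≤ 765 / 128) (hu : |u| ≤ 93 / 16) {f g : ℕ → ℝ}
    (hfg : FG f g) :
    HH vp (k1 + θ1) k3 (kw - θ2) (G z u) (F z u) (p0 z u) (p1 z u) (L z u) f g ≤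
      M0 + eL + E1 + E2 + ∑ S ∈ range 8, (eG S + eF S +
        KQ (k1 + θ1) k3 (kw - θ2) (e0 S) (e1 S) (z0 S) (u0 S) (z1 S) (u1 S)) := by
  obtain ⟨i, hi, s, hs0, hs1, hz⟩ := loc_NInt1 (t := z * (128 / 3)) 254 (by positivity)
    (by push_cast; linarith)
  obtain ⟨l, hl, r, hr0, hr1, hu'⟩ := loc_NInt1 (t := (u + 93 / 16) * (8 / 3)) 30
    (by have := (abs_le.1 hu).1; nlinarith) (by have := (abs_le.1 hu).2; push_cast; linarith)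
  have hi' : i < 255 := hi
  have hl' : l < 31 := hl
  have ez : z = zn i + s * (3 / 128) := by unfold zn; linarith
  have eu : u = un l + r * (3 / 8) := by unfold un; linarith
  have hk : 0 ≤ k1 + θ1 := by linarith
  have hkg : 0 ≤ kw - θ2 := by linarith
  have s1 : 0 ≤ 1 - s := by linarith
  have r1 : 0 ≤ 1 - r := by linarith
  -- interpolants and their errors
  obtain ⟨bG, hbG⟩ : ∃ b : ℕ → ℝ, b = fun S => bil (fun i l => ΦG i l S) i l s r := ⟨_, rfl⟩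
  obtain ⟨bF, hbF⟩ : ∃ b : ℕ → ℝ, b = fun S => bil (fun i l => ΦF i l S) i l s r := ⟨_, rfl⟩
  obtain ⟨b0, hb0⟩ : ∃ b : ℕ → ℝ, b = fun S => bil (fun i l => Φ0 i l S) i l s r := ⟨_, rfl⟩
  obtain ⟨b1, hb1⟩ : ∃ b : ℕ → ℝ, b = fun S => bil (fun i l => Φ1 i l S) i l s r := ⟨_, rfl⟩
  obtain ⟨dG, hdG⟩ : ∃ d : ℕ → ℝ, d = fun S => G z u S - bG S := ⟨_, rfl⟩
  obtain ⟨dF, hdF⟩ : ∃ d : ℕ → ℝ, d = fun S => F z u S - bF S := ⟨_, rfl⟩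
  obtain ⟨d0, hd0⟩ : ∃ d : ℕ → ℝ, d = fun S => p0 z u S - b0 S := ⟨_, rfl⟩
  obtain ⟨d1, hd1⟩ : ∃ d : ℕ → ℝ, d = fun S => p1 z u S - b1 S := ⟨_, rfl⟩
  have aG : ∀ S < 8, |dG S| ≤ eG S := fun S hS => by
    have := hG S hS i hi' l hl' s r hs0 hs1 hr0 hr1
    rw [← ez, ← eu] at this
    simpa only [hdG, hbG] using this
  have aF : ∀ S < 8, |dF S| ≤ eF S := fun S hS => by
    have := hF S hS i hi' l hl' s r hs0 hs1 hr0 hr1
    rw [← ez, ← eu] at this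
    simpa only [hdF, hbF] using this
  have a0 : ∀ S < 8, |d0 S| ≤ e0 S := fun S hS => by
    have := h0 S hS i hi' l hl' s r hs0 hs1 hr0 hr1
    rw [← ez, ← eu] at this
    simpa only [hd0, hb0] using this
  have a1 : ∀ S < 8, |d1 S| ≤ e1 S := fun S hS => by
    have := h1 S hS i hi' l hl' s r hs0 hs1 hr0 hr1
    rw [← ez, ← eu] at this
    simpa only [hd1, hb1] using this
  have aL : L z u ≥ bil ΦL i l s r - eL := by
    have := hL i hi' l hl' s r hs0 hs1 hr0 hr1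
    rwa [← ez, ← eu] at this
  have wG : ∀ x, wt (G z u) x = bil (fun i l => wt (ΦG i l) x) i l s r + wt dG x := fun x => by
    rw [hdG, wt_sub_NInt1, hbG, wt_bil_NInt1]; ring
  have wF : ∀ x, wt (F z u) x = bil (fun i l => wt (ΦF i l) x) i l s r + wt dF x := fun x => by
    rw [hdF, wt_sub_NInt1, hbF, wt_bil_NInt1]; ring
  have w0 : ∀ x, wt (p0 z u) x = wt b0 x + wt d0 x := fun x => by
    rw [hd0, wt_sub_NInt1]; ring
  have w1 : ∀ x, wt (p1 z u) x = wt b1 x + wt d1 x := fun x => by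
    rw [hd1, wt_sub_NInt1]; ring
  have v0 : ∀ x, wt b0 x = bil (fun i l => wt (Φ0 i l) x) i l s r := fun x => by
    rw [hb0, wt_bil_NInt1]
  have v1 : ∀ x, wt b1 x = bil (fun i l => wt (Φ1 i l) x) i l s r := fun x => by
    rw [hb1, wt_bil_NInt1]
  -- the summands at the nodes
  obtain ⟨N, hNd⟩ : ∃ N : ℕ → ℕ → ℕ → ℝ, N = fun i l x => vp * P9 (g x) - g x * wt (ΦG i l) x +
      f x * wt (ΦF i l) x - qf k1 k3 kw (g x - wt (Φ1 i l) x) (f x - wt (Φ0 i l) x) := ⟨_, rfl⟩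
  have hN' : ∀ i < 256, ∀ l < 32, ∑ x ∈ range 8, N i l x ≤ 8 * (M0 + ΦL i l) := by
    intro i hi l hl
    have := hN i hi l hl f g hfg
    unfold HH at this
    rw [hNd]
    linarith
  obtain ⟨Q, hQd⟩ : ∃ Q : ℕ → ℕ → ℕ → ℝ, Q = fun i l x => qf (k1 + θ1) k3 (kw - θ2)
      (wt (fun S => Φ1 i l S - b1 S) x) (wt (fun S => Φ0 i l S - b0 S) x) := ⟨_, rfl⟩
  have hQ : ∀ i l, ∑ x ∈ range 8, Q i l x = 8 * ∑ S ∈ range 8,
      qf (k1 + θ1) k3 (kw - θ2) (Φ1 i l S - b1 S) (Φ0 i l S - b0 S) := by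
    intro i l
    rw [hQd]
    exact avg_qf_NInt1 _ _ _ _ _
  -- pointwise inequality
  have hpt : ∀ x ∈ range 8, vp * P9 (g x) - g x * wt (G z u) x + f x * wt (F z u) x -
      qf (k1 + θ1) k3 (kw - θ2) (g x - wt (p1 z u) x) (f x - wt (p0 z u) x) ≤
      ((1 - s) * (1 - r) * N i l x + s * (1 - r) * N (i + 1) l x + (1 - s) * r * N i (l + 1) x +
        s * r * N (i + 1) (l + 1) x) +
      ((1 - s) * (1 - r) * Q i l x + s * (1 - r) * Q (i + 1) l x + (1 - s) * r * Q i (l + 1) x +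
        s * r * Q (i + 1) (l + 1) x) +
      ((g x - wt b1 x) * wt (fun S => 2 * (k1 + θ1) * d1 S + -k3 * d0 S) x -
        θ1 * (g x - wt b1 x) ^ 2) +
      ((f x - wt b0 x) * wt (fun S => -k3 * d1 S + -(2 * (kw - θ2)) * d0 S) x -
        θ2 * (f x - wt b0 x) ^ 2) -
      qf (k1 + θ1) k3 (kw - θ2) (wt d1 x) (wt d0 x) +
      (∑ S ∈ range 8, eG S + ∑ S ∈ range 8, eF S) := by
    intro x hx
    obtain ⟨hf, hg⟩ := hfg x (Finset.mem_range.1 hx)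
    have t1 := (abs_le.1 (lin_NInt1 dG eG x hg aG)).1
    have t2 := (abs_le.1 (lin_NInt1 dF eF x hf.le aF)).2
    have t3 := pt_NInt1 (k1 := k1) (k3 := k3) (kw := kw) (g := g x) (f := f x)
      (η1 := wt d1 x) (η0 := wt d0 x) hs0 hs1 hr0 hr1 ht1 ht2 (v1 x) (v0 x)
    rw [wG, wF, w0, w1, hNd, hQd]
    simp only [wt_sub_NInt1, wt_lin_NInt1, bil]
    linarith
  have hsum := (Finset.sum_le_sum hpt).trans_eq (split_NInt1 _ _ _ _ _ (N i l) (N (i + 1) l)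
    (N i (l + 1)) (N (i + 1) (l + 1)) (Q i l) (Q (i + 1) l) (Q i (l + 1)) (Q (i + 1) (l + 1))
    (fun x => (g x - wt b1 x) * wt (fun S => 2 * (k1 + θ1) * d1 S + -k3 * d0 S) x -
        θ1 * (g x - wt b1 x) ^ 2)
    (fun x => (f x - wt b0 x) * wt (fun S => -k3 * d1 S + -(2 * (kw - θ2)) * d0 S) x -
        θ2 * (f x - wt b0 x) ^ 2)
    (fun x => qf (k1 + θ1) k3 (kw - θ2) (wt d1 x) (wt d0 x)))
  rw [hQ, hQ, hQ, hQ, avg_qf_NInt1] at hsum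
  have c1 := cs_NInt1 (fun x => g x - wt b1 x) (fun S => 2 * (k1 + θ1) * d1 S + -k3 * d0 S)
    (fun S => 2 * (k1 + θ1) * e1 S + k3 * e0 S) ht1 hE1 (fun S hS => by
      have x1 := abs_le.1 (a1 S hS)
      have x0 := abs_le.1 (a0 S hS)
      have y1 := mul_le_mul_of_nonneg_left x1.1 hk
      have y2 := mul_le_mul_of_nonneg_left x1.2 hk
      have y3 := mul_le_mul_of_nonneg_left x0.1 hk3
      have y4 := mul_le_mul_of_nonneg_left x0.2 hk3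
      exact abs_le.2 ⟨by linarith, by linarith⟩) q1
  have c2 := cs_NInt1 (fun x => f x - wt b0 x)
    (fun S => -k3 * d1 S + -(2 * (kw - θ2)) * d0 S)
    (fun S => k3 * e1 S + 2 * (kw - θ2) * e0 S) ht2 hE2 (fun S hS => by
      have x1 := abs_le.1 (a1 S hS)
      have x0 := abs_le.1 (a0 S hS)
      have y1 := mul_le_mul_of_nonneg_left x1.1 hk3
      have y2 := mul_le_mul_of_nonneg_left x1.2 hk3
      have y3 := mul_le_mul_of_nonneg_left x0.1 hkg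
      have y4 := mul_le_mul_of_nonneg_left x0.2 hkg
      exact abs_le.2 ⟨by linarith, by linarith⟩) q2
  have n1 := mul_le_mul_of_nonneg_left (hN' i (by omega) l (by omega)) (mul_nonneg s1 r1)
  have n2 := mul_le_mul_of_nonneg_left (hN' (i + 1) (by omega) l (by omega)) (mul_nonneg hs0 r1)
  have n3 := mul_le_mul_of_nonneg_left (hN' i (by omega) (l + 1) (by omega)) (mul_nonneg s1 hr0)
  have n4 := mul_le_mul_of_nonneg_left (hN' (i + 1) (by omega) (l + 1) (by omega))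
    (mul_nonneg hs0 hr0)
  have hK : (1 - s) * (1 - r) * ∑ S ∈ range 8,
        qf (k1 + θ1) k3 (kw - θ2) (Φ1 i l S - b1 S) (Φ0 i l S - b0 S) +
      s * (1 - r) * ∑ S ∈ range 8,
        qf (k1 + θ1) k3 (kw - θ2) (Φ1 (i + 1) l S - b1 S) (Φ0 (i + 1) l S - b0 S) +
      (1 - s) * r * ∑ S ∈ range 8,
        qf (k1 + θ1) k3 (kw - θ2) (Φ1 i (l + 1) S - b1 S) (Φ0 i (l + 1) S - b0 S) +
      s * r * ∑ S ∈ range 8,
        qf (k1 + θ1) k3 (kw - θ2) (Φ1 (i + 1) (l + 1) S - b1 S) (Φ0 (i + 1) (l + 1) S - b0 S) -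
      ∑ S ∈ range 8, qf (k1 + θ1) k3 (kw - θ2) (d1 S) (d0 S) ≤
      ∑ S ∈ range 8, KQ (k1 + θ1) k3 (kw - θ2) (e0 S) (e1 S) (z0 S) (u0 S) (z1 S) (u1 S) := by
    simp only [Finset.mul_sum, ← Finset.sum_add_distrib, ← Finset.sum_sub_distrib]
    refine Finset.sum_le_sum fun S hS => ?_
    have hS' := Finset.mem_range.1 hS
    have t1 := kq_NInt1 hi' hl' hs0 hs1 hr0 hr1 hk hk3 hkg (l0 S hS') (l1 S hS')
    have x1 := a1 S hS'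
    have x0 := a0 S hS'
    have t2 : |d1 S * d0 S| ≤ e1 S * e0 S := by
      rw [abs_mul]
      exact mul_le_mul x1 x0 (abs_nonneg _) ((abs_nonneg _).trans x1)
    have t3 := mul_le_mul_of_nonneg_left (abs_le.1 t2).2 hk3
    have t4 := mul_le_mul_of_nonneg_left (sq_le_sq' (abs_le.1 x0).1 (abs_le.1 x0).2) hkg
    have t5 := mul_nonneg hk (sq_nonneg (d1 S))
    have t6 : -qf (k1 + θ1) k3 (kw - θ2) (d1 S) (d0 S) ≤
        k3 * (e1 S * e0 S) + (kw - θ2) * e0 S ^ 2 := by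
      unfold qf; linarith
    rw [hb0, hb1]
    unfold KQ
    linarith
  unfold HH
  rw [Finset.sum_add_distrib, Finset.sum_add_distrib]
  unfold bil at aL
  linarith

end Pool.Agent.MP_ebf981_lc.N9
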