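import Pool.Agent.Mg.Febf981.G31e420
import Pool.Agent.Mg.Febf981.G807bb7
import Pool.Agent.Mg.Febf981.Ge05eb3
import Pool.Agent.Mg.Febf981.Gb5a73b

section

namespace Pool.Agent.MP_ebf981_lc.N9

open Finset

theorem rot1_NRot {m C S cp sm : ℕ} {x y : ℕ → ℤ} {a b : ℤ} (hm : m < 13)
    (hC : Rp 64 (2 ^ m) C fun n => x n + 2 ^ 31) (hS : Rp 64 (2 ^ m) S fun n => y n + 2 ^ 31)
    (ha : (cp : ℤ) = a + 2 ^ 31) (hb : (sm : ℤ) = b + 2 ^ 31)
    (h : ∀ n < 2 ^ m, |x n * a + y n * b| < 2 ^ 61) :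
    Rp 64 (2 ^ (m + 1)) (rot1 m C S cp sm) fun n =>
      (if n < 2 ^ m then x n else (x (n - 2 ^ m) * a + y (n - 2 ^ m) * b) / 2 ^ 30) + 2 ^ 31 := by
  have hL : 2 ^ m ≤ 8192 := (Nat.pow_le_pow_right (by norm_num) hm.le).trans (by norm_num)
  have h1 := Rp.one (w := 64) (by norm_num) (2 ^ m)
  have e1 : ((Nat.shiftLeft (Nat.add cp sm) 31 : ℕ) : ℤ) = (a + b + 2 ^ 32) * 2 ^ 31 := by
    change (((cp + sm) <<< 31 : ℕ) : ℤ) = _
    rw [Nat.shiftLeft_eq]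
    push_cast
    rw [ha, hb]
    ring
  have h2 := ((((hC.mul cp).add (hS.mul sm)).add (h1.mul 11529215046068469760)).sub
    (((hC.add hS).shl 31).add (h1.mul (Nat.shiftLeft (Nat.add cp sm) 31))) fun n hn => by
      have := (abs_lt.1 (h n hn)).1
      rw [e1, ha, hb]
      push_cast
      linarith).congr (v' := fun n => x n * a + y n * b + 2 ^ 61) fun n _ => by
      rw [e1, ha, hb]
      push_cast
      ring
  have h3 := hC.cat (r_shr' (s := 30) (by norm_num) hL h2 fun n hn => by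
    have := abs_lt.1 (h n hn)
    constructor <;> linarith [this.1, this.2])
  rw [pow_succ, mul_two, rot1, p2_eq, show Nat.mul C cp = Nat.mul cp C from Nat.mul_comm _ _,
    show Nat.mul S sm = Nat.mul sm S from Nat.mul_comm _ _]
  refine h3.congr fun n _ => ?_
  split_ifs
  · rfl
  · omega

theorem step_NRot {x y a b : ℤ} {θ φ e : ℝ} (he : e ≤ 1 / 4)
    (h1 : ‖((x : ℂ) + (y : ℂ) * Complex.I) / 2 ^ 30 - Complex.exp (θ * Complex.I)‖ ≤ e)
    (h2 : ‖((a : ℂ) + (b : ℂ) * Complex.I) / 2 ^ 30 - Complex.exp (φ * Complex.I)‖ ≤ 3 / 2 ^ 31) :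
    |x * a + y * -b| < 2 ^ 61 ∧ |y * a + x * b| < 2 ^ 61 ∧
    ‖((((x * a + y * -b) / 2 ^ 30 : ℤ) : ℂ) + (((y * a + x * b) / 2 ^ 30 : ℤ) : ℂ) * Complex.I) /
      2 ^ 30 - Complex.exp ((θ + φ : ℝ) * Complex.I)‖ ≤ e + 4 / 2 ^ 30 := by
  have e0 : ((x : ℂ) + (y : ℂ) * Complex.I) / 2 ^ 30 * (((a : ℂ) + (b : ℂ) * Complex.I) / 2 ^ 30) =
      (((x * a + y * -b : ℤ) : ℂ) + ((y * a + x * b : ℤ) : ℂ) * Complex.I) / 2 ^ 60 := by
    push_cast
    linear_combination (y * b / 2 ^ 60 : ℂ) * Complex.I_mul_I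
  generalize x * a + y * -b = r at e0 ⊢
  generalize y * a + x * b = s at e0 ⊢
  generalize ((x : ℂ) + (y : ℂ) * Complex.I) / 2 ^ 30 = V at h1 e0
  generalize ((a : ℂ) + (b : ℂ) * Complex.I) / 2 ^ 30 = W at h2 e0
  have n1 := Complex.norm_exp_ofReal_mul_I θ
  have n2 := Complex.norm_exp_ofReal_mul_I φ
  rw [Complex.ofReal_add, add_mul, Complex.exp_add]
  generalize Complex.exp (θ * Complex.I) = E at h1 n1 ⊢
  generalize Complex.exp (φ * Complex.I) = F at h2 n2 ⊢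
  have he0 : 0 ≤ e := (norm_nonneg _).trans h1
  have hW : ‖W‖ ≤ 1 + 3 / 2 ^ 31 := by linarith [norm_sub_norm_le W F]
  have h3 : ‖V * W - E * F‖ ≤ e + 2 / 2 ^ 30 := by
    have e1 : V * W - E * F = (V - E) * W + E * (W - F) := by ring
    have h4 := mul_le_mul h1 hW (norm_nonneg _) he0
    rw [e1]
    refine (norm_add_le _ _).trans ?_
    rw [norm_mul, norm_mul, n1]
    linarith
  have h4 : ‖(r : ℂ) + (s : ℂ) * Complex.I‖ < 2 ^ 61 := by
    have h5 := norm_sub_norm_le (V * W) (E * F)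
    rw [norm_mul E, n1, n2] at h5
    have h6 : ‖V * W‖ < 2 := by linarith
    rw [e0, norm_div, Complex.norm_pow, Complex.norm_ofNat, div_lt_iff₀ (by positivity)] at h6
    linarith
  have hm : ∀ t : ℤ, ‖((t % 2 ^ 30 : ℤ) : ℂ)‖ ≤ 2 ^ 30 := fun t => by
    have h5 : |t % 2 ^ 30| ≤ 2 ^ 30 := abs_le.2 (by omega)
    rw [Complex.norm_intCast]
    exact_mod_cast h5
  have hd : ∀ t : ℤ, ((t / 2 ^ 30 : ℤ) : ℂ) = ((t : ℂ) - ((t % 2 ^ 30 : ℤ) : ℂ)) / 2 ^ 30 :=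
    fun t => by
      have h5 : t / 2 ^ 30 * 2 ^ 30 = t - t % 2 ^ 30 := by omega
      rw [eq_div_iff (by norm_num)]
      exact_mod_cast h5
  refine ⟨?_, ?_, ?_⟩
  · have h5 := (Complex.abs_re_le_norm _).trans_lt h4
    simp only [Complex.add_re, Complex.intCast_re, Complex.mul_re, Complex.I_re, mul_zero,
      Complex.intCast_im, Complex.I_im, sub_self, add_zero, zero_mul] at h5
    exact_mod_cast h5
  · have h5 := (Complex.abs_im_le_norm _).trans_lt h4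
    simp only [Complex.add_im, Complex.intCast_re, Complex.mul_im, Complex.I_re, mul_zero,
      Complex.intCast_im, Complex.I_im, add_zero, zero_add, mul_one] at h5
    exact_mod_cast h5
  · rw [hd, hd]
    have h5 := hm r
    have h6 := hm s
    generalize ((r % 2 ^ 30 : ℤ) : ℂ) = r' at h5
    generalize ((s % 2 ^ 30 : ℤ) : ℂ) = s' at h6
    have e1 : (((r : ℂ) - r') / 2 ^ 30 + ((s : ℂ) - s') / 2 ^ 30 * Complex.I) / 2 ^ 30 - E * F =
        V * W - E * F - (r' + s' * Complex.I) / 2 ^ 60 := by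
      rw [e0]
      ring
    have h7 : ‖(r' + s' * Complex.I) / 2 ^ 60‖ ≤ 2 / 2 ^ 30 := by
      have h8 := norm_add_le r' (s' * Complex.I)
      rw [norm_mul, Complex.norm_I, mul_one] at h8
      rw [norm_div, Complex.norm_pow, Complex.norm_ofNat, div_le_iff₀ (by positivity)]
      linarith
    rw [e1]
    linarith [norm_sub_le (V * W - E * F) ((r' + s' * Complex.I) / 2 ^ 60)]

theorem ang_NRot (c d : ℝ) {m n : ℕ} (h1 : 2 ^ m ≤ n) (h2 : n < 2 ^ (m + 1)) :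
    nd (fun z u => c * z + d * u) n = nd (fun z u => c * z + d * u) (n - 2 ^ m) +
      if m < 8 then c * (3 / 128 * 2 ^ m) else d * (3 / 8 * 2 ^ (m - 8)) := by
  obtain ⟨k, rfl⟩ := Nat.exists_eq_add_of_le' h1
  rw [Nat.add_sub_cancel]
  unfold nd zn un
  split_ifs with h
  · have h3 : 2 ^ (m + 1) ≤ 2 ^ 8 := Nat.pow_le_pow_right (by norm_num) h
    have h4 : k + 2 ^ m < 256 := by omega
    have h5 : k < 256 := by omega
    rw [Nat.mod_eq_of_lt h4, Nat.mod_eq_of_lt h5, Nat.div_eq_of_lt h4, Nat.div_eq_of_lt h5]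
    push_cast
    ring
  · obtain ⟨j, rfl⟩ := Nat.exists_eq_add_of_le (not_lt.1 h)
    rw [Nat.add_sub_cancel_left, pow_add, show 2 ^ 8 = 256 from rfl, Nat.add_mul_mod_self_left,
      Nat.add_mul_div_left _ _ (by norm_num)]
    push_cast
    ring

theorem ind_NRot {c d : ℤ} (hc : |c| ≤ 16777216) (hd : |d| ≤ 2621440) (m : ℕ) (hm : m ≤ 13)
    (p : ℕ × ℕ) (hp : p = @Nat.rec (fun _ => ℕ × ℕ) (tn (rs0 d).1, tn (rs0 d).2)
      (fun m p => rot m (rsc c d m) p) m) :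
    ∃ vc vs : ℕ → ℤ, Rp 64 (2 ^ m) p.1 (fun n => vc n + 2 ^ 31) ∧
      Rp 64 (2 ^ m) p.2 (fun n => vs n + 2 ^ 31) ∧ ∀ n < 2 ^ m,
      ‖((vc n : ℂ) + (vs n : ℂ) * Complex.I) / 2 ^ 30 - Complex.exp
        ((nd (fun z u => c / 2 ^ 20 * z + d / 2 ^ 20 * u) n : ℝ) * Complex.I)‖ ≤
        4 * (m + 1) / 2 ^ 30 := by
  induction m generalizing p with
  | zero =>
    obtain ⟨a, b, ha, hb, -, -, h⟩ := tn_spec (rs0_spec hd)
    have e1 : p.1 = tn (rs0 d).1 := congrArg Prod.fst hp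
    have e2 : p.2 = tn (rs0 d).2 := congrArg Prod.snd hp
    refine ⟨fun _ => a, fun _ => b, ?_, ?_, fun n hn => ?_⟩
    · rw [Rp, e1, ha, pow_zero, sum_range_one, mul_zero, pow_zero, mul_one]
    · rw [Rp, e2, hb, pow_zero, sum_range_one, mul_zero, pow_zero, mul_one]
    · have e3 : nd (fun z u => (c : ℝ) / 2 ^ 20 * z + d / 2 ^ 20 * u) n =
          (d : ℝ) / 2 ^ 20 * (-93 / 16) := by
        obtain rfl : n = 0 := by omega
        unfold nd zn un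
        norm_num
      rw [e3]
      exact h.trans (by norm_num)
  | succ m ih =>
    obtain ⟨q, hq⟩ : ∃ q : ℕ × ℕ, q = @Nat.rec (fun _ => ℕ × ℕ) (tn (rs0 d).1, tn (rs0 d).2)
      (fun m p => rot m (rsc c d m) p) m := ⟨_, rfl⟩
    obtain ⟨vc, vs, h1, h2, h3⟩ := ih (by omega) q hq
    obtain rfl : p = rot m (rsc c d m) q := by rw [hp, hq]
    obtain ⟨a, b, ha, hb, -, hb', h⟩ := tn_spec (rsc_spec hc hd (m := m) hm)
    have hm' : (m : ℝ) ≤ 13 := by exact_mod_cast (Nat.le_succ m).trans hm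
    have st := fun n hn => step_NRot (by linarith) (h3 n hn) h
    have hb2 : ((Nat.sub 4294967296 (tn (rsc c d m).2) : ℕ) : ℤ) = -b + 2 ^ 31 := by
      have := abs_le.1 hb'
      rw [Nat.sub_eq]
      omega
    refine ⟨_, _, rot1_NRot hm h1 h2 ha hb2 fun n hn => (st n hn).1,
      rot1_NRot hm h2 h1 ha hb fun n hn => (st n hn).2.1, fun n hn => ?_⟩
    by_cases h4 : n < 2 ^ m
    · rw [if_pos h4, if_pos h4]
      refine (h3 n h4).trans ?_
      push_cast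
      linarith
    · rw [if_neg h4, if_neg h4, ang_NRot _ _ (not_lt.1 h4) hn]
      refine (st (n - 2 ^ m) (by omega)).2.2.trans (le_of_eq ?_)
      push_cast
      ring

theorem trg_spec {c d : ℤ} (hc : |c| ≤ 16777216) (hd : |d| ≤ 2621440) :
    ∃ vc vs : ℕ → ℤ, R64 (trg c d).1 (fun n => vc n + 2 ^ 31) ∧
      R64 (trg c d).2 (fun n => vs n + 2 ^ 31) ∧ ∀ n < 8192,
      |(vc n : ℝ) / 2 ^ 30 - nd (fun z u => Real.cos (c / 2 ^ 20 * z + d / 2 ^ 20 * u)) n| ≤ 1 / 2 ^ 23 ∧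
      |(vs n : ℝ) / 2 ^ 30 - nd (fun z u => Real.sin (c / 2 ^ 20 * z + d / 2 ^ 20 * u)) n| ≤ 1 / 2 ^ 23 := by
  obtain ⟨vc, vs, h1, h2, h3⟩ := ind_NRot hc hd 13 le_rfl (trg c d) (by unfold trg; rfl)
  generalize trg c d = p at h1 h2 ⊢
  rw [show 2 ^ 13 = 8192 from rfl] at h1 h2 h3
  refine ⟨vc, vs, h1, h2, fun n hn => ?_⟩
  have h4 := (h3 n hn).trans (show _ ≤ (1 : ℝ) / 2 ^ 23 by norm_num)
  have e : ((vc n : ℂ) + (vs n : ℂ) * Complex.I) / 2 ^ 30 =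
      (((vc n : ℝ) / 2 ^ 30 : ℝ) : ℂ) + (((vs n : ℝ) / 2 ^ 30 : ℝ) : ℂ) * Complex.I := by
    push_cast
    ring
  rw [e] at h4
  have h5 := (Complex.abs_re_le_norm _).trans h4
  have h6 := (Complex.abs_im_le_norm _).trans h4
  rw [Complex.sub_re, Complex.exp_ofReal_mul_I_re, Complex.add_re, Complex.re_ofReal_mul,
    Complex.I_re, mul_zero, add_zero, Complex.ofReal_re] at h5
  rw [Complex.sub_im, Complex.exp_ofReal_mul_I_im, Complex.add_im, Complex.im_ofReal_mul,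
    Complex.I_im, mul_one, Complex.ofReal_im, zero_add] at h6
  exact ⟨h5, h6⟩

theorem scl_NRot {T κ : ℕ} {w : ℕ → ℤ} (hT : R64 T fun n => w n + 2 ^ 31) (hκ : κ ≤ 2 ^ 30)
    {x : ℝ} (hx : |(κ : ℝ) / 2 ^ 30 - x| ≤ 1 / 2 ^ 30) {φ : ℝ → ℝ → ℝ} (h1 : ∀ z u, |φ z u| ≤ 1)
    (h2 : ∀ n < 8192, |(w n : ℝ) / 2 ^ 30 - nd φ n| ≤ 1 / 2 ^ 23) :
    Tb (scl κ T) fun z u => x * φ z u := by
  have k0 : (0 : ℝ) ≤ κ := Nat.cast_nonneg κ
  have k1 : (κ : ℝ) ≤ 2 ^ 30 := by exact_mod_cast hκ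
  have hb : ∀ n < 8192, |(κ : ℤ) * w n| ≤ 2 ^ 61 := fun n hn => by
    have a1 := abs_le.1 (h2 n hn)
    have a2 : |nd φ n| ≤ 1 := h1 _ _
    have a3 := abs_le.1 a2
    have a4 : |(w n : ℝ)| ≤ 2 ^ 31 := abs_le.2 ⟨by linarith [a1.1, a3.1], by linarith [a1.2, a3.2]⟩
    have a5 := mul_le_mul k1 a4 (abs_nonneg _) (by positivity)
    have a6 : |(κ : ℝ) * w n| ≤ 2 ^ 61 := by
      rw [abs_mul, abs_of_nonneg k0]
      linarith
    exact_mod_cast a6
  have e1 : ((Nat.sub 9223372036854775808 (Nat.shiftLeft κ 31) : ℕ) : ℤ) =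
      2 ^ 63 - κ * 2 ^ 31 := by
    change ((9223372036854775808 - κ <<< 31 : ℕ) : ℤ) = _
    rw [Nat.shiftLeft_eq]
    omega
  have h3 : R64 _ _ := (Rp.add (Rp.mul κ hT)
    (r_cst (Nat.sub 9223372036854775808 (Nat.shiftLeft κ 31)))).congr
    (v' := fun n => κ * w n + 2 ^ 63) fun n _ => by
      rw [e1]
      ring
  have h4 := r_shr (s := 32) (by norm_num) h3 fun n hn => by
    have := abs_le.1 (hb n hn)
    constructor <;> linarith [this.1, this.2]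
  refine ⟨fun n => κ * w n / 2 ^ 32, Rp.congr h4 fun n _ => ?_, fun n hn => ⟨?_, ?_⟩⟩
  · beta_reduce
    omega
  · have := abs_le.1 (hb n hn)
    beta_reduce
    exact abs_le.2 (by omega)
  · have a1 : (κ * w n / 2 ^ 32 : ℤ) * 2 ^ 32 ≤ κ * w n := by omega
    have a2 : (κ * w n : ℤ) ≤ (κ * w n / 2 ^ 32 : ℤ) * 2 ^ 32 + 2 ^ 32 := by omega
    have a3 : ((κ * w n / 2 ^ 32 : ℤ) : ℝ) * 2 ^ 32 ≤ κ * w n := by exact_mod_cast a1
    have a4 : (κ * w n : ℝ) ≤ ((κ * w n / 2 ^ 32 : ℤ) : ℝ) * 2 ^ 32 + 2 ^ 32 := by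
      exact_mod_cast a2
    have a5 : |(κ : ℝ) / 2 ^ 30 * ((w n : ℝ) / 2 ^ 30 - nd φ n)| ≤ 1 * (1 / 2 ^ 23) := by
      rw [abs_mul]
      exact mul_le_mul (abs_le.2 ⟨by linarith, by linarith⟩) (h2 n hn) (abs_nonneg _) zero_le_one
    have a6 : |((κ : ℝ) / 2 ^ 30 - x) * nd φ n| ≤ 1 / 2 ^ 30 * 1 := by
      rw [abs_mul]
      exact mul_le_mul hx (h1 _ _) (abs_nonneg _) (by positivity)
    have a7 := abs_le.1 a5
    have a8 := abs_le.1 a6
    change |((κ * w n / 2 ^ 32 : ℤ) : ℝ) / 2 ^ 28 - x * nd φ n| ≤ _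
    exact abs_le.2 ⟨by linarith [a7.1, a8.1], by linarith [a7.2, a8.2]⟩

theorem scl_spec {c d : ℤ} (hc : |c| ≤ 16777216) (hd : |d| ≤ 2621440) {κ : ℕ} (hκ : κ ≤ 2 ^ 30)
    {x : ℝ} (hx : |(κ : ℝ) / 2 ^ 30 - x| ≤ 1 / 2 ^ 30) (S : ℕ) :
    Tb (scl κ (trs (crd S % 2) c d)) (fun z u => x * cs S (c / 2 ^ 20 * z + d / 2 ^ 20 * u)) := by
  obtain ⟨vc, vs, h1, h2, h3⟩ := trg_spec hc hd
  rw [trs, ifz_eq]
  generalize trg c d = p at h1 h2 ⊢
  unfold cs
  by_cases h : crd S % 2 = 0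
  · simp only [if_pos h, if_neg (show ¬crd S % 2 = 1 by omega)]
    exact scl_NRot h2 hκ hx (fun _ _ => Real.abs_sin_le_one _) fun n hn => (h3 n hn).2
  · simp only [if_neg h, if_pos (show crd S % 2 = 1 by omega)]
    exact scl_NRot h1 hκ hx (fun _ _ => Real.abs_cos_le_one _) fun n hn => (h3 n hn).1

end Pool.Agent.MP_ebf981_lc.N9

end

section

namespace Pool.Agent.MP_ebf981_lc.N9

open Finset

theorem cg_NTab {T : ℕ} {φ ψ : ℝ → ℝ → ℝ} (h : Tb T φ) (e : ∀ z u, φ z u = ψ z u) : Tb T ψ :=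
  (funext fun z => funext (e z) : φ = ψ) ▸ h

theorem t0_NTab {τ j : ℕ} (h : τ ≤ 16) (hj : j < 7) (S : ℕ) :
    Tb (t0 τ (crd S % 2) j) (fun z _ => cs S (((j : ℝ) + 1) * τ / 16 * z)) := by
  have h1 : (j + 1) * τ ≤ 7 * 16 := Nat.mul_le_mul hj h
  have e : Int.ofNat (Nat.mul (Nat.mul (Nat.succ j) τ) 65536) = (((j + 1) * τ * 65536 : ℕ) : ℤ) :=
    rfl
  unfold t0
  rw [e]
  refine cg_NTab (scl_spec (x := 1) ?_ (by norm_num) (by norm_num) (by norm_num) S) fun z u => ?_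
  · rw [Nat.abs_cast]
    omega
  · rw [one_mul]
    congr 1
    push_cast
    ring

theorem o31_NTab : Tb o31 (fun _ _ => 0) :=
  cg_NTab (tcst_spec (κ := 0) (Nat.zero_le _)) fun _ _ => by simp

theorem rp_NTab {r s : ℕ} (hr : r ≤ 256) (hs : s ≤ 3) : rp r s ≤ 2 ^ 24 := by
  have h1 : (r : ℝ) ≤ 256 := by exact_mod_cast hr
  have h2 : ((r : ℝ) / 256) ^ s ≤ 1 :=
    pow_le_one₀ (by positivity) ((div_le_one (by norm_num)).2 h1)
  have h3 : (rp r s : ℝ) ≤ 2 ^ 24 := by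
    rw [rp_eq r hs]
    linarith
  exact_mod_cast h3

theorem tb0_spec {r E : ℕ} (h : EB r E) (S : ℕ) {j : ℕ} (hj : j < 9) :
    Tb (tb0 (fd E 4) (crd S % 2) j) (b0f (evR r E) S j) := by
  unfold tb0
  rw [ifb_eq, ifz_eq, ifz_eq, ifz_eq]
  by_cases h2 : 2 ≤ j
  · rw [if_pos (Nat.ble_eq.mpr h2)]
    refine cg_NTab (t0_NTab h.2.1 (show j - 2 < 7 by omega) S) fun z u => ?_
    rw [b0f, if_neg (by omega), if_neg (by omega)]
    rfl
  rw [if_neg (fun e => h2 (Nat.ble_eq.mp e))]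
  by_cases hp : crd S % 2 = 0 <;> by_cases h0 : j = 0
  · rw [if_pos hp, if_pos h0]
    refine cg_NTab (tz_spec (by norm_num)) fun z u => ?_
    rw [b0f, if_pos h0, li, if_neg (by omega)]
    norm_num
  · rw [if_pos hp, if_neg h0]
    refine cg_NTab (tu_spec (by norm_num)) fun z u => ?_
    rw [b0f, if_neg h0, if_pos (by omega), li, if_neg (by omega)]
    norm_num
  · rw [if_neg hp, if_pos h0, show 2415919104 = Nat.add 2147483648 268435456 from rfl]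
    refine cg_NTab (tcst_spec (by norm_num)) fun z u => ?_
    rw [b0f, if_pos h0, li, if_pos (by omega)]
    norm_num
  · rw [if_neg hp, if_neg h0]
    refine cg_NTab o31_NTab fun z u => ?_
    rw [b0f, if_neg h0, if_pos (by omega), li, if_pos (by omega)]

theorem tb1_spec {r E : ℕ} (h : EB r E) (S : ℕ) {j : ℕ} (hj : j < 9) :
    Tb (tb1 E r (crd S) (crd S % 2) j) (b1f (evR r E) S j) := by
  have hs := crd_le S
  have hρ : (evR r E).ρ = (r : ℝ) / 256 := rfl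
  unfold tb1
  rw [ifb_eq, ifz_eq, ifz_eq, ifz_eq]
  by_cases h2 : 2 ≤ j
  · rw [if_pos (Nat.ble_eq.mpr h2), Nat.sub_eq]
    obtain ⟨e0, e1, e2⟩ := h.2.2 (j - 2) (by omega)
    have r1 := rp_NTab h.1 hs
    have e : Nat.shiftRight (Nat.mul (rp r (crd S)) (ef E (j - 2) 0)) 14 =
        rp r (crd S) * ef E (j - 2) 0 / 2 ^ 14 := Nat.shiftRight_eq_div_pow _ _
    have hm : rp r (crd S) * ef E (j - 2) 0 ≤ 2 ^ 24 * 1048576 := Nat.mul_le_mul r1 e0
    unfold t1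
    rw [e]
    refine cg_NTab (scl_spec (x := ((r : ℝ) / 256) ^ crd S * (ef E (j - 2) 0 / 2 ^ 20))
      (by rw [ei_abs]; exact_mod_cast e1) (by rw [ei_abs]; exact_mod_cast e2) (by omega) ?_ S)
      fun z u => ?_
    · have k : ((rp r (crd S) * ef E (j - 2) 0 : ℕ) : ℝ) =
          ((r : ℝ) / 256) ^ crd S * (ef E (j - 2) 0 / 2 ^ 20) * 2 ^ 44 := by
        rw [Nat.cast_mul, rp_eq r hs]
        ring
      generalize rp r (crd S) * ef E (j - 2) 0 = m at k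
      have a1 : ((m / 2 ^ 14 * 2 ^ 14 : ℕ) : ℝ) ≤ m := by exact_mod_cast Nat.div_mul_le_self m _
      have a2 : (m : ℝ) ≤ ((m / 2 ^ 14 * 2 ^ 14 + 2 ^ 14 : ℕ) : ℝ) := by
        exact_mod_cast (Nat.lt_div_mul_add (by norm_num)).le
      generalize m / 2 ^ 14 = q at a1 a2
      push_cast at a1 a2
      rw [abs_le]
      constructor <;> linarith
    · rw [b1f, if_neg (by omega), if_neg (by omega), mul_assoc]
      rfl
  rw [if_neg (fun e => h2 (Nat.ble_eq.mp e))]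
  by_cases hp : crd S % 2 = 0 <;> by_cases h0 : j = 0
  · rw [if_pos hp, if_pos h0]
    have hs' : crd S + 1 ≤ 3 := by omega
    refine cg_NTab (tz_spec (rp_NTab h.1 hs')) fun z u => ?_
    rw [b1f, if_pos h0, li, if_neg (by omega), rp_eq r hs', hρ]
    ring
  · rw [if_pos hp, if_neg h0]
    have hs' : crd S + 1 ≤ 3 := by omega
    refine cg_NTab (tu_spec (rp_NTab h.1 hs')) fun z u => ?_
    rw [b1f, if_neg h0, if_pos (by omega), li, if_neg (by omega), rp_eq r hs', hρ]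
    ring
  · rw [if_neg hp, if_pos h0]
    have r1 := rp_NTab h.1 hs
    refine cg_NTab (tcst_spec (by rw [Nat.mul_eq]; omega)) fun z u => ?_
    rw [b1f, if_pos h0, li, if_pos (by omega), Nat.mul_eq, Nat.cast_mul, rp_eq r hs, hρ]
    push_cast
    ring
  · rw [if_neg hp, if_neg h0]
    refine cg_NTab o31_NTab fun z u => ?_
    rw [b1f, if_neg h0, if_pos (by omega), li, if_pos (by omega), mul_zero]

theorem tbL_spec {r E : ℕ} (h : EB r E) {j : ℕ} (hj : j < 12) :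
    Tb (tbL (fd E 4) j) (bLf (evR r E) j) := by
  by_cases h7 : 7 ≤ j
  · exact tbL_static _ _ h7 hj
  unfold tbL
  rw [ifb_eq, if_neg (fun e => h7 (Nat.ble_eq.mp e))]
  refine cg_NTab (t0_NTab h.2.1 (show j < 7 by omega) 1) fun z u => ?_
  rw [bLf, if_pos (by omega), cs, if_pos (show crd 1 % 2 = 1 from rfl)]
  rfl

theorem sg_NTab {T N fl j : ℕ} {φ : ℝ → ℝ → ℝ} (hfl : fl ≤ 1) (h : Tb T φ) :
    ∃ (σ : ℝ) (w : ℕ → ℤ), R64 (ifb (Nat.beq (sn N j) fl) T (ng T)) (fun i => w i + 2 ^ 31) ∧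
      (-1) ^ fl * co N j = σ * mg N j / 2 ^ 18 ∧ ∀ i < 8192, |w i| ≤ 2 ^ 31 ∧
        |(w i : ℝ) / 2 ^ 28 - σ * nd φ i| ≤ 1 / 2 ^ 22 := by
  obtain ⟨v, v1, v2⟩ := h
  have hs := sn_le N j
  rw [ifb_eq]
  by_cases e : sn N j = fl
  · rw [if_pos (Nat.beq_eq.mpr e)]
    refine ⟨1, v, v1, ?_, fun i hi => by rw [one_mul]; exact v2 i hi⟩
    rw [co, iv_eq]
    split_ifs with h0
    · rw [← e, h0]
      simp
    · rw [show fl = 1 by omega]
      push_cast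
      ring
  · rw [if_neg (fun h => e (Nat.beq_eq.mp h))]
    refine ⟨-1, fun i => -v i, Rp.congr (Rp.sub (r_cst 4294967296) v1 fun i hi => ?_)
      fun i _ => ?_, ?_, fun i hi => ⟨by rw [abs_neg]; exact (v2 i hi).1, ?_⟩⟩
    · have := (abs_le.1 (v2 i hi).1).2
      push_cast
      linarith
    · push_cast
      ring
    · rw [co, iv_eq]
      split_ifs with h0
      · rw [show fl = 1 by omega]
        push_cast
        ring
      · rw [show fl = 0 by omega]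
        push_cast
        ring
    · rw [← abs_neg]
      refine le_of_eq_of_le (congrArg _ ?_) (v2 i hi).2
      push_cast
      ring

theorem ln_spec {tb : ℕ → ℕ} {φ : ℕ → ℝ → ℝ → ℝ} (N : ℕ) {fl : ℕ} (hfl : fl ≤ 1) (n : ℕ)
    (h : ∀ j < n, Tb (tb j) (φ j)) :
    ∃ v : ℕ → ℤ, R64 (ln tb N fl n) (fun i => v i + 2 ^ 31 * sm N n) ∧ ∀ i < 8192,
      |v i| ≤ 2 ^ 31 * (sm N n : ℤ) ∧
      |(v i : ℝ) / 2 ^ 46 - (-1) ^ fl * ∑ j ∈ range n, co N j * nd (φ j) i| ≤ (sm N n : ℝ) / 2 ^ 40 := by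
  induction n with
  | zero =>
    refine ⟨fun _ => 0, Rp.congr (Rp.zero 64 8192) fun i _ => ?_, fun i _ => ?_⟩ <;> simp [sm_eq]
  | succ n ih =>
    obtain ⟨v, v1, v2⟩ := ih fun j hj => h j (by omega)
    obtain ⟨σ, w, w1, w2, w3⟩ := sg_NTab (N := N) (j := n) hfl (h n (by omega))
    have es : sm N (n + 1) = sm N n + mg N n := by rw [sm_eq, sm_eq, sum_range_succ]
    have el : ln tb N fl (n + 1) = ifz (mg N n) (ln tb N fl n) (Nat.add (ln tb N fl n)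
        (Nat.mul (mg N n) (ifb (Nat.beq (sn N n) fl) (tb n) (ng (tb n))))) := rfl
    refine ⟨fun i => v i + mg N n * w i, ?_, fun i hi => ⟨?_, ?_⟩⟩
    · rw [el, ifz_eq, es]
      split_ifs with h0
      · exact Rp.congr v1 fun i _ => by rw [h0]; simp
      · exact Rp.congr (Rp.add v1 (Rp.mul _ w1)) fun i _ => by push_cast; ring
    · refine (abs_add_le _ _).trans ?_
      rw [abs_mul, Nat.abs_cast, es]
      have := mul_le_mul_of_nonneg_left (w3 i hi).1 (Nat.cast_nonneg (α := ℤ) (mg N n))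
      push_cast
      linarith [(v2 i hi).1]
    · have e : ((v i + mg N n * w i : ℤ) : ℝ) / 2 ^ 46 -
          (-1) ^ fl * ∑ j ∈ range (n + 1), co N j * nd (φ j) i =
          ((v i : ℝ) / 2 ^ 46 - (-1) ^ fl * ∑ j ∈ range n, co N j * nd (φ j) i) +
            (mg N n : ℝ) / 2 ^ 18 * ((w i : ℝ) / 2 ^ 28 - σ * nd (φ n) i) := by
        rw [sum_range_succ, mul_add, ← mul_assoc, w2]
        push_cast
        ring
      rw [e, es]
      refine (abs_add_le _ _).trans ?_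
      have p : (0 : ℝ) ≤ (mg N n : ℝ) / 2 ^ 18 := by positivity
      rw [abs_mul, abs_of_nonneg p]
      have := mul_le_mul_of_nonneg_left (w3 i hi).2 p
      push_cast
      linarith [(v2 i hi).2]

end Pool.Agent.MP_ebf981_lc.N9

end

section

namespace Pool.Agent.MP_ebf981_lc.N9

open Finset

theorem shD_NPQ {X c : ℕ} {w : ℕ → ℤ} (h : R64 X (fun i => w i + c))
    (hc : c ≤ 9223934986808197120) (hw : ∀ i < 8192, |w i| ≤ 2 ^ 62)
    (e : rng (shr 30 (Nat.add X (cst (Nat.sub 9223934986808197120 c)))) = true) :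
    R64 (Nat.sub (shr 30 (Nat.add X (cst (Nat.sub 9223934986808197120 c)))) (cst 8589934592))
      (fun i => w i / 2 ^ 30 + 2 ^ 19) ∧
    ∀ i < 8192, -2 ^ 19 ≤ w i / 2 ^ 30 ∧ w i / 2 ^ 30 < 2 ^ 19 := by
  have h1 : R64 (Nat.add X (cst (Nat.sub 9223934986808197120 c)))
      (fun i => w i + 9223934986808197120) := by
    refine Rp.congr (Rp.add h (r_cst (Nat.sub 9223934986808197120 c))) (fun i _ => ?_)
    rw [Nat.sub_eq, Nat.cast_sub hc]
    push_cast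
    ring
  have h2 : R64 (shr 30 (Nat.add X (cst (Nat.sub 9223934986808197120 c))))
      (fun i => w i / 2 ^ 30 + 2 ^ 19 + 2 ^ 33) := by
    refine Rp.congr (r_shr (s := 30) (by norm_num) h1 (fun i hi => ?_)) (fun i _ => ?_)
    · have := abs_le.mp (hw i hi)
      constructor <;> omega
    · omega
  have h3 := r_rng h2 (fun i hi => by
    have := abs_le.mp (hw i hi)
    constructor <;> omega) e
  refine ⟨?_, fun i hi => ?_⟩
  · refine Rp.congr (Rp.sub h2 (r_cst 8589934592) (fun i hi => ?_)) (fun i _ => ?_)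
    · have := h3 i hi
      push_cast
      omega
    · push_cast
      omega
  · have := h3 i hi
    constructor <;> omega

theorem flo_NPQ (w : ℤ) : |((w / 2 ^ 30 : ℤ) : ℝ) / 2 ^ 16 - (w : ℝ) / 2 ^ 46| ≤ 16777216 / 2 ^ 40 := by
  have h1 : w / 2 ^ 30 * 2 ^ 30 ≤ w := by omega
  have h2 : w ≤ w / 2 ^ 30 * 2 ^ 30 + 2 ^ 30 := by omega
  generalize w / 2 ^ 30 = q at h1 h2
  have h1' : (q : ℝ) * 2 ^ 30 ≤ w := by exact_mod_cast h1
  have h2' : (w : ℝ) ≤ q * 2 ^ 30 + 2 ^ 30 := by exact_mod_cast h2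
  rw [abs_le]
  constructor <;> linarith

theorem nd0_NPQ (e : Ev) (S b n : ℕ) : nd (fun z u => B0 e (fun _ => co b) z u S) n =
    ∑ j ∈ range 9, co b j * nd (b0f e S j) n := by
  unfold nd
  exact B0_eq e _ _ _ S

theorem nd1_NPQ (e : Ev) (S b n : ℕ) : nd (fun z u => B1 e (fun _ => co b) z u S) n =
    ∑ j ∈ range 9, co b j * nd (b1f e S j) n := by
  unfold nd
  exact B1_eq e _ _ _ S

theorem pq_spec {r E : ℕ} (h : EB r E) (S b : ℕ) {I2 : ℕ} (h2 : I2 < 2 ^ 12)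
    (ho : okS E (fd E 4) r (crd S) (crd S % 2) b I2 = true) : ∃ P Q, PQ r E S b I2 P Q := by
  by_cases hb : b = 0
  · subst hb
    have he : (0 : ℝ) ≤ (ebn 0 : ℝ) / 2 ^ 40 := by positivity
    refine ⟨fun _ => 0, fun _ => 0, ?_, ?_, fun _ _ _ => ⟨rfl, rfl⟩, fun n _ => ?_⟩
    · unfold P0o
      rw [ifz_eq, if_pos rfl]
      exact Rp.congr (r_cst 524288) (fun i _ => by norm_num)
    · unfold Qo
      rw [ifz_eq, if_pos rfl]
      exact Rp.congr (r_cst 524288) (fun i _ => by norm_num)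
    · rw [nd0_NPQ, nd1_NPQ]
      simp only [co_zero, zero_mul, sum_const_zero, Int.cast_zero, zero_div, mul_zero, sub_zero,
        abs_zero]
      exact ⟨by norm_num, by norm_num, by norm_num, he, he⟩
  · unfold okS at ho
    rw [ifz_eq, if_neg hb, an_eq, an_eq, Nat.ble_eq] at ho
    obtain ⟨hs, r0, r1⟩ := ho
    obtain ⟨v0, a0, c0⟩ := ln_spec b (fl := 0) (by norm_num) 9 (fun j hj => tb0_spec h S hj)
    obtain ⟨v1, a1, c1⟩ := ln_spec b (fl := 0) (by norm_num) 9 (fun j hj => tb1_spec h S hj)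
    have hs' : (sm b 9 : ℤ) ≤ 134217728 := by exact_mod_cast hs
    have hI : (I2 : ℤ) < 2 ^ 12 := by exact_mod_cast h2
    have hI0 : (0 : ℤ) ≤ I2 := Int.natCast_nonneg _
    unfold D0r at r0
    obtain ⟨d0, e0⟩ := shD_NPQ (w := v0) (c := Nat.shiftLeft (sm b 9) 31)
      (Rp.congr a0 (fun i _ => by
        rw [Nat.shiftLeft_eq', Nat.shiftLeft_eq]
        push_cast
        ring))
      (by rw [Nat.shiftLeft_eq', Nat.shiftLeft_eq]; omega)
      (fun i hi => by have := (c0 i hi).1; omega) r0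
    have hP : R64 (P0o (fd E 4) (crd S % 2) b) (fun i => v0 i / 2 ^ 30 + 2 ^ 19) := by
      unfold P0o D0r
      rw [ifz_eq, if_neg hb]
      exact d0
    have hIP : ∀ i < 8192, |(I2 : ℤ) * (v0 i / 2 ^ 30)| ≤ 2 ^ 31 := by
      intro i hi
      obtain ⟨l, u⟩ := e0 i hi
      rw [abs_le]
      constructor <;> nlinarith
    unfold D1r at r1
    obtain ⟨d1, e1⟩ := shD_NPQ (w := fun i => v1 i + 2 ^ 18 * (I2 * (v0 i / 2 ^ 30)))
      (c := Nat.add (Nat.shiftLeft (sm b 9) 31) (Nat.shiftLeft I2 37))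
      (Rp.congr (Rp.add a1 (Rp.mul (Nat.shiftLeft I2 18) hP)) (fun i _ => by
        simp only [Nat.add_eq, Nat.shiftLeft_eq', Nat.shiftLeft_eq]
        push_cast
        ring))
      (by simp only [Nat.add_eq, Nat.shiftLeft_eq', Nat.shiftLeft_eq]; omega)
      (fun i hi => by
        have := abs_le.mp (c1 i hi).1
        have := abs_le.mp (hIP i hi)
        rw [abs_le]
        constructor <;> omega) r1
    refine ⟨fun i => v0 i / 2 ^ 30, fun i => (v1 i + 2 ^ 18 * (I2 * (v0 i / 2 ^ 30))) / 2 ^ 30,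
      hP, ?_, fun hb' => absurd hb' hb, fun n hn => ?_⟩
    · unfold Qo D1r
      rw [ifz_eq, if_neg hb]
      exact d1
    · have g0 := abs_le.mp (c0 n hn).2
      have g1 := abs_le.mp (c1 n hn).2
      have f0 := abs_le.mp (flo_NPQ (v0 n))
      have f1 := abs_le.mp (flo_NPQ (v1 n + 2 ^ 18 * (I2 * (v0 n / 2 ^ 30))))
      have heb : (ebn b : ℝ) / 2 ^ 40 = (sm b 9 : ℝ) / 2 ^ 40 + 16777216 / 2 ^ 40 := by
        unfold ebn
        push_cast
        ring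
      rw [nd0_NPQ, nd1_NPQ, heb]
      rw [pow_zero, one_mul] at g0 g1
      refine ⟨abs_le.mpr ⟨(e0 n hn).1, (e0 n hn).2.le⟩, (e1 n hn).1, (e1 n hn).2, ?_, ?_⟩
      · rw [abs_le]
        constructor <;> linarith [g0.1, g0.2, f0.1, f0.2]
      · have hx : ((v1 n + 2 ^ 18 * (I2 * (v0 n / 2 ^ 30)) : ℤ) : ℝ) / 2 ^ 46 =
            (v1 n : ℝ) / 2 ^ 46 + (I2 : ℝ) / 2 ^ 12 * (((v0 n / 2 ^ 30 : ℤ) : ℝ) / 2 ^ 16) := by
          generalize v0 n / 2 ^ 30 = q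
          push_cast
          ring
        rw [hx] at f1
        rw [abs_le]
        constructor <;> linarith [g1.1, g1.2, f1.1, f1.2]

theorem qq_spec {r E S b I1 I2 : ℕ} {P Q : ℕ → ℤ} (h : PQ r E S b I2 P Q) (h1 : I1 < 2 ^ 13)
    (h2 : I2 < 2 ^ 12) :
    R64 (Qqo E (fd E 4) r (crd S) (crd S % 2) b I1 I2)
      (fun n => 4096 * Q n - (I1 + I2) * P n + 2 ^ 33) ∧
    ∀ n < 8192, |4096 * Q n - (I1 + I2) * P n| ≤ 2 ^ 33 := by
  obtain ⟨hP, hQ, -, hb⟩ := h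
  have hI1 : (I1 : ℤ) < 2 ^ 13 := by exact_mod_cast h1
  have hI2 : (I2 : ℤ) < 2 ^ 12 := by exact_mod_cast h2
  have hI : (0 : ℤ) ≤ I1 + I2 := by positivity
  have key : ∀ n < 8192, |4096 * Q n - (I1 + I2) * P n| ≤ 2 ^ 33 := by
    intro n hn
    obtain ⟨p, l, u, -⟩ := hb n hn
    have p' := abs_le.mp p
    have hs : (I1 : ℤ) + I2 ≤ 12288 := by omega
    generalize (I1 : ℤ) + I2 = s at hI hs
    rw [abs_le]
    constructor <;> nlinarith [p'.1, p'.2]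
  refine ⟨?_, key⟩
  unfold Qqo
  have e1 : ∀ i, 2 ^ 12 * (Q i + 2 ^ 19) +
      ((Nat.add 6442450944 (Nat.shiftLeft (Nat.add I1 I2) 19) : ℕ) : ℤ) -
      ((Nat.add I1 I2 : ℕ) : ℤ) * (P i + 2 ^ 19) = 4096 * Q i - (I1 + I2) * P i + 2 ^ 33 := by
    intro i
    simp only [Nat.add_eq, Nat.shiftLeft_eq', Nat.shiftLeft_eq]
    push_cast
    ring
  refine Rp.congr (Rp.sub (Rp.add (Rp.shl 12 hQ) (r_cst _)) (Rp.mul (Nat.add I1 I2) hP)
    (fun i hi => ?_)) (fun i _ => e1 i)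
  have := e1 i
  have := abs_le.mp (key i hi)
  linarith [this.1]

theorem np_spec {r E S b I1 I2 : ℕ} {P Q : ℕ → ℤ} (h : PQ r E S b I2 P Q) (h1 : I1 < 2 ^ 13)
    (h2 : I2 < 2 ^ 12) :
    R64 (NP E (fd E 4) r (crd S) (crd S % 2) b I1 I2)
      (fun n => 2 ^ 52 - Q n * (4096 * Q n - (I1 + I2) * P n)) ∧
    ∀ n < 8192, |Q n * (4096 * Q n - (I1 + I2) * P n)| ≤ 2 ^ 52 := by
  obtain ⟨hq, kq⟩ := qq_spec h h1 h2
  obtain ⟨-, hQ, hz, hb⟩ := h
  have key : ∀ n < 8192, |Q n * (4096 * Q n - (I1 + I2) * P n)| ≤ 2 ^ 52 := by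
    intro n hn
    obtain ⟨-, l, u, -⟩ := hb n hn
    have hq' : |Q n| ≤ 2 ^ 19 := abs_le.mpr ⟨l, u.le⟩
    rw [abs_mul]
    calc _ ≤ (2 : ℤ) ^ 19 * 2 ^ 33 := mul_le_mul hq' (kq n hn) (abs_nonneg _) (by norm_num)
      _ = 2 ^ 52 := by norm_num
  refine ⟨?_, key⟩
  unfold NP
  rw [ifz_eq]
  by_cases hb0 : b = 0
  · rw [if_pos hb0]
    refine Rp.congr (r_cst 4503599627370496) (fun i hi => ?_)
    rw [(hz hb0 i hi).2]
    norm_num
  · rw [if_neg hb0]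
    have hm := r_bm hQ hq (fun i hi => by
        obtain ⟨-, l, u, -⟩ := hb i hi
        constructor <;> omega)
      (fun i hi => by
        have := abs_le.mp (kq i hi)
        constructor <;> linarith [this.1, this.2])
    have e1 : ∀ i, 2 ^ 33 * (Q i + 2 ^ 19) + 2 ^ 19 * (4096 * Q i - (I1 + I2) * P i + 2 ^ 33) -
        (Q i + 2 ^ 19) * (4096 * Q i - (I1 + I2) * P i + 2 ^ 33) =
        2 ^ 52 - Q i * (4096 * Q i - (I1 + I2) * P i) := by
      intro i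
      ring
    refine Rp.congr (Rp.sub (Rp.add (Rp.shl 33 hQ) (Rp.shl 19 hq)) hm (fun i hi => ?_))
      (fun i _ => e1 i)
    have := e1 i
    have := abs_le.mp (key i hi)
    linarith [this.2]

end Pool.Agent.MP_ebf981_lc.N9

end

section

namespace Pool.Agent.MP_ebf981_lc.N9

open Finset

theorem shl_NPH (a k : ℕ) : Nat.shiftLeft a k = a * 2 ^ k := Nat.shiftLeft_eq a k

theorem flo_NPH {N : ℕ} (s k : ℕ) {d : ℕ → ℤ} (hs : s + k ≤ 63)
    (h : R64 N (fun i => d i + 2 ^ (s + k))) {B : ℤ} (hB : B < 2 ^ k)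
    (hb : ∀ i < 8192, |d i| ≤ B * 2 ^ s) :
    R64 (shr s N) (fun i => d i / 2 ^ s + 2 ^ k) ∧ ∀ i < 8192, |d i / 2 ^ s| ≤ B ∧
      ((d i / 2 ^ s : ℤ) : ℝ) ≤ d i / 2 ^ s ∧ (d i : ℝ) / 2 ^ s ≤ ((d i / 2 ^ s : ℤ) : ℝ) + 1 := by
  have hp : (0 : ℤ) < 2 ^ s := by positivity
  have h1 : B * 2 ^ s < 2 ^ (s + k) := by
    rw [pow_add, mul_comm]
    exact mul_lt_mul_of_pos_left hB hp
  have h2 : (2 : ℤ) ^ (s + k) ≤ 2 ^ 63 := pow_le_pow_right₀ one_le_two hs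
  refine ⟨Rp.congr (r_shr (by omega) h fun i hi => ?_) fun i _ => ?_, fun i hi => ⟨?_, ?_, ?_⟩⟩
  · have := abs_le.1 (hb i hi)
    constructor <;> linarith [this.1, this.2]
  · rw [pow_add]
    exact Int.add_mul_ediv_left _ _ hp.ne'
  · have := abs_le.1 (hb i hi)
    exact abs_le.2 ⟨Int.le_ediv_of_mul_le hp (by linarith [this.1]), Int.ediv_le_of_le_mul hp this.2⟩
  · rw [le_div_iff₀ (by positivity)]
    exact_mod_cast Int.ediv_mul_le _ hp.ne'
  · rw [div_le_iff₀ (by positivity)]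
    exact_mod_cast (Int.lt_ediv_add_one_mul_self _ hp).le

theorem mul_NPH {m : ℕ} {x M X : ℤ} (hm : (m : ℤ) ≤ M) (hx : |x| ≤ X) : |m * x| ≤ M * X := by
  rw [abs_mul, Nat.abs_cast]
  exact mul_le_mul hm hx (abs_nonneg _) ((Nat.cast_nonneg m).trans hm)

theorem bf_NPH {O u w : ℕ} (b : ℕ) {o : ℤ} {a a' : ℕ → ℤ} (hO : (O : ℤ) = 2 * o)
    (h : R64 u (fun n => a n + o) ∧ ∀ n < 8192, |a n| ≤ o)
    (h' : R64 w (fun n => a' n + o) ∧ ∀ n < 8192, |a' n| ≤ o) :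
    R64 (bf b O u w) (fun n => (a n + (if b = 0 then 1 else -1) * a' n) + 2 * o) ∧
      ∀ n < 8192, |a n + (if b = 0 then 1 else -1) * a' n| ≤ 2 * o := by
  unfold bf
  rw [ifz_eq]
  have hb := fun n hn => And.intro (abs_le.1 (h.2 n hn)) (abs_le.1 (h'.2 n hn))
  by_cases e : b = 0
  · rw [if_pos e, if_pos e]
    refine ⟨Rp.congr (Rp.add h.1 h'.1) fun i _ => by ring, fun n hn => ?_⟩
    obtain ⟨⟨h1, h2⟩, h3, h4⟩ := hb n hn
    exact abs_le.2 ⟨by linarith, by linarith⟩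
  · rw [if_neg e, if_neg e]
    refine ⟨Rp.congr (Rp.sub (Rp.add h.1 (r_cst O)) h'.1 fun n hn => ?_) fun i _ => ?_,
      fun n hn => ?_⟩
    · obtain ⟨⟨h1, h2⟩, h3, h4⟩ := hb n hn
      linarith
    · rw [hO]
      ring
    · obtain ⟨⟨h1, h2⟩, h3, h4⟩ := hb n hn
      exact abs_le.2 ⟨by linarith, by linarith⟩

theorem ph_spec {r E S b I1 I2 K : ℕ} {P Q : ℕ → ℤ} (he : EB r E) (h : PQ r E S b I2 P Q)
    (h1 : I1 < 2 ^ 13) (h2 : I2 < 2 ^ 12) (hK : K < 2 ^ 15) {y : ℕ} (hy : sm y 9 ≤ 2 ^ 27) :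
    ∃ φ : ℕ → ℤ, R64 (PH E (fd E 4) r (crd S) (crd S % 2) y b K I1 I2) (fun n => φ n + 2 ^ 43) ∧
      ∀ n < 8192, |φ n| ≤ 2 ^ 42 ∧
        |(-((φ n : ℝ) / 2 ^ 28) + (K : ℝ) / 2 ^ 8 * (((Q n : ℝ) / 2 ^ 16 -
            ((I1 : ℝ) / 2 ^ 12 + (I2 : ℝ) / 2 ^ 12) * ((P n : ℝ) / 2 ^ 16)) + (Q n : ℝ) / 2 ^ 16)) -
          nd (fun z u => B0 (evR r E) (fun _ => co y) z u S) n| ≤ ((sm y 9 : ℝ) + 4096) / 2 ^ 40 := by
  obtain ⟨v, hv, hv'⟩ := ln_spec y (fl := 1) le_rfl 9 fun j hj => tb0_spec he S hj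
  obtain ⟨hq, hq'⟩ := qq_spec h h1 h2
  have e : ((Nat.sub 2305843009213693952 (Nat.add (Nat.shiftLeft (sm y 9) 31)
      (Nat.mul K 10995116277760)) : ℕ) : ℤ) = 2 ^ 61 - (2 ^ 31 * sm y 9 + K * 10995116277760) := by
    simp only [shl_NPH, Nat.sub_eq, Nat.add_eq, Nat.mul_eq]
    omega
  have hK' : (K : ℤ) ≤ 2 ^ 15 := by exact_mod_cast hK.le
  have hy' : (sm y 9 : ℤ) ≤ 2 ^ 27 := by exact_mod_cast hy
  obtain ⟨g1, g2⟩ := flo_NPH 18 43
    (d := fun n => v n + 2 ^ 10 * (K * (4096 * Q n - (I1 + I2) * P n + 4096 * Q n))) (by norm_num)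
    (Rp.congr (Rp.add (Rp.add hv (Rp.mul (Nat.shiftLeft K 10) (Rp.add hq (Rp.shl 12 h.2.1))))
      (r_cst _)) fun i _ => by rw [e, shl_NPH]; push_cast; ring)
    (B := 2 ^ 42) (by norm_num) fun i hi => by
      have a1 := abs_le.1 (hv' i hi).1
      have a2 := abs_le.1 (hq' i hi)
      obtain ⟨-, a3, a4, -⟩ := h.2.2.2 i hi
      have a5 := abs_le.1 (mul_NPH (x := 4096 * Q i - (I1 + I2) * P i + 4096 * Q i)
        (X := 2 ^ 33 + 2 ^ 31) hK' (abs_le.2 ⟨by linarith [a2.1], by linarith [a2.2]⟩))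
      exact abs_le.2 ⟨by linarith [a1.1, a5.1], by linarith [a1.2, a5.2]⟩
  refine ⟨_, g1, fun n hn => ⟨(g2 n hn).1, ?_⟩⟩
  obtain ⟨-, b1, b2⟩ := g2 n hn
  have b3 := abs_le.1 (hv' n hn).2
  simp only [nd, B0_eq] at b3 ⊢
  generalize (v n + 2 ^ 10 * (K * (4096 * Q n - (I1 + I2) * P n + 4096 * Q n))) / 2 ^ 18 = φ at *
  push_cast at b1 b2
  exact abs_le.2 ⟨by linarith [b3.2], by linarith [b3.1]⟩

theorem fc_spec {r E S b I1 I2 K : ℕ} {P Q : ℕ → ℤ} (he : EB r E) (h : PQ r E S b I2 P Q)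
    (h1 : I1 < 2 ^ 13) (h2 : I2 < 2 ^ 12) (hK : K < 2 ^ 15) {y a : ℕ} (hy : sm y 9 ≤ 2 ^ 27)
    (ha : sm a 2 ≤ 2 ^ 27) :
    ∃ F : ℕ → ℤ, R64 (FC E (fd E 4) r (crd S) (crd S % 2) y b a K I1 I2) (fun n => F n + 2 ^ 42) ∧
      ∀ n < 8192, |F n| ≤ 2 ^ 42 ∧
        |((F n : ℝ) / 2 ^ 28 - (K : ℝ) / 2 ^ 8 * ((I2 : ℝ) / 2 ^ 12 * ((Q n : ℝ) / 2 ^ 16 -
            ((I1 : ℝ) / 2 ^ 12 + (I2 : ℝ) / 2 ^ 12) * ((P n : ℝ) / 2 ^ 16)) -
            (I1 : ℝ) / 2 ^ 12 * ((Q n : ℝ) / 2 ^ 16))) -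
          nd (fun z u => B1 (evR r E) (fun _ => co y) z u S - BA (fun _ => co a) z u S) n| ≤
          ((sm y 9 : ℝ) + 4096 + sm a 2) / 2 ^ 40 := by
  obtain ⟨v, hv, hv'⟩ := ln_spec y (fl := 0) zero_le_one 9 fun j hj => tb1_spec he S hj
  obtain ⟨w, hw, hw'⟩ := ln_spec a (fl := 1) le_rfl 2 fun j hj =>
    tb0_spec he S (hj.trans (by norm_num))
  obtain ⟨hq, hq'⟩ := qq_spec h h1 h2
  have k1 : K * I1 ≤ 2 ^ 28 := (Nat.mul_le_mul hK.le h1.le).trans_eq (by norm_num)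
  have k2 : K * I2 ≤ 2 ^ 27 := (Nat.mul_le_mul hK.le h2.le).trans_eq (by norm_num)
  have e : ((Nat.sub (Nat.add 4611686018427387904 (Nat.shiftLeft (Nat.mul K I1) 31))
      (Nat.shiftLeft (Nat.add (Nat.add (sm y 9) (sm a 2)) (Nat.mul K I2)) 33) : ℕ) : ℤ) =
      2 ^ 62 + 2 ^ 31 * (K * I1 : ℕ) - 2 ^ 33 * (sm y 9 + sm a 2 + (K * I2 : ℕ)) := by
    simp only [shl_NPH, Nat.sub_eq, Nat.add_eq, Nat.mul_eq]
    generalize K * I1 = m1 at *
    generalize K * I2 = m2 at *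
    omega
  have hy' : (sm y 9 : ℤ) ≤ 2 ^ 27 := by exact_mod_cast hy
  have ha' : (sm a 2 : ℤ) ≤ 2 ^ 27 := by exact_mod_cast ha
  have hb : ∀ i < 8192, |4 * (v i + w i) + (K * I2 : ℕ) * (4096 * Q i - (I1 + I2) * P i) -
      2 ^ 12 * ((K * I1 : ℕ) * Q i)| ≤ (2 ^ 42 - 1) * 2 ^ 20 := fun i hi => by
    have a1 := abs_le.1 (hv' i hi).1
    have a2 := abs_le.1 (hw' i hi).1
    obtain ⟨-, a3, a4, -⟩ := h.2.2.2 i hi
    have a5 := abs_le.1 (mul_NPH (M := 2 ^ 27) (m := K * I2) (by exact_mod_cast k2) (hq' i hi))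
    have a6 := abs_le.1 (mul_NPH (M := 2 ^ 28) (m := K * I1) (x := Q i) (X := 2 ^ 19)
      (by exact_mod_cast k1) (abs_le.2 ⟨a3, a4.le⟩))
    exact abs_le.2 ⟨by linarith [a1.1, a2.1, a5.1, a6.2], by linarith [a1.2, a2.2, a5.2, a6.1]⟩
  obtain ⟨g1, g2⟩ := flo_NPH 20 42 (by norm_num)
    (Rp.congr (Rp.sub (Rp.add (Rp.add (Rp.shl 2 (Rp.add hv hw)) (Rp.mul (Nat.mul K I2) hq))
      (r_cst _)) (Rp.mul (Nat.shiftLeft (Nat.mul K I1) 12) h.2.1) fun i hi => by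
        have := (abs_le.1 (hb i hi)).1
        rw [e, shl_NPH, Nat.mul_eq, Nat.mul_eq]
        push_cast at this ⊢
        linarith)
      fun i _ => by rw [e, shl_NPH, Nat.mul_eq, Nat.mul_eq]; push_cast; ring)
    (by norm_num) hb
  refine ⟨_, g1, fun n hn => ⟨(g2 n hn).1.trans (by norm_num), ?_⟩⟩
  obtain ⟨-, b1, b2⟩ := g2 n hn
  have b3 := abs_le.1 (hv' n hn).2
  have b4 := abs_le.1 (hw' n hn).2
  simp only [nd, B1_eq, BA_eq (evR r E)] at b3 b4 ⊢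
  generalize (4 * (v n + w n) + (K * I2 : ℕ) * (4096 * Q n - (I1 + I2) * P n) -
    2 ^ 12 * ((K * I1 : ℕ) * Q n)) / 2 ^ 20 = φ at *
  push_cast at b1 b2
  exact abs_le.2 ⟨by linarith [b3.1, b4.1], by linarith [b3.2, b4.2]⟩

theorem nl_spec {r E : ℕ} (he : EB r E) {W : ℕ} (hW : sm W 12 ≤ 2 ^ 27) :
    ∃ v : ℕ → ℤ, R64 (NL (fd E 4) W) (fun n => v n + 2 ^ 51) ∧ ∀ n < 8192, |v n| ≤ 2 ^ 50 ∧
      -(((v n : ℝ) + 1) / 2 ^ 37) ≤ nd (Lw (evR r E) (iv W 7 / 2 ^ 21) (iv W 8 / 2 ^ 26)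
        (iv W 9 / 2 ^ 31) (iv W 10 / 2 ^ 21) (iv W 11 / 2 ^ 21) (co W)) n + sm W 12 / 2 ^ 40 := by
  obtain ⟨v, hv, hv'⟩ := ln_spec W (fl := 1) le_rfl 12 fun j hj => tbL_spec he hj
  have e : ((Nat.sub 1152921504606846976 (Nat.shiftLeft (sm W 12) 31) : ℕ) : ℤ) =
      2 ^ 60 - 2 ^ 31 * sm W 12 := by
    simp only [shl_NPH, Nat.sub_eq]
    omega
  have hW' : (sm W 12 : ℤ) ≤ 2 ^ 27 := by exact_mod_cast hW
  obtain ⟨g1, g2⟩ := flo_NPH 9 51 (d := v) (by norm_num)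
    (Rp.congr (Rp.add hv (r_cst _)) fun i _ => by rw [e]; ring) (B := 2 ^ 50) (by norm_num)
    fun i hi => (hv' i hi).1.trans (by linarith)
  refine ⟨_, g1, fun n hn => ⟨(g2 n hn).1, ?_⟩⟩
  obtain ⟨-, -, b2⟩ := g2 n hn
  have b3 := (abs_le.1 (hv' n hn).2).1
  have e2 : ∑ j ∈ range 12, co W j * nd (bLf (evR r E) j) n =
      nd (Lw (evR r E) (iv W 7 / 2 ^ 21) (iv W 8 / 2 ^ 26) (iv W 9 / 2 ^ 31) (iv W 10 / 2 ^ 21)
        (iv W 11 / 2 ^ 21) (co W)) n := by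
    simp only [nd, Lw, sum_range_succ, bLf, co]
    norm_num
    ring
  rw [e2] at b3
  linarith

theorem wh3_spec {o : ℕ} {c : ℕ → ℕ} {v : ℕ → ℕ → ℤ}
    (h : ∀ S < 8, R64 (c S) (fun n => v S n + o)) (hb : ∀ S < 8, ∀ n < 8192, |v S n| ≤ (o : ℤ))
    {x : ℕ} (hx : x < 8) :
    ∃ t : ℕ → ℤ, R64 (wh3 o (x % 2) (x / 2 % 2) (x / 4 % 2) (c 0) (c 1) (c 2) (c 3) (c 4) (c 5)
      (c 6) (c 7)) (fun n => t n + 8 * o) ∧
      ∀ n < 8192, (t n : ℝ) = wt (fun S => (v S n : ℝ)) x := by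
  have g := fun S hS => And.intro (h S hS) (hb S hS)
  have e2 : ((Nat.mul 2 o : ℕ) : ℤ) = 2 * o := by rw [Nat.mul_eq]; push_cast; ring
  have e4 : ((Nat.mul 4 o : ℕ) : ℤ) = 2 * (2 * o) := by rw [Nat.mul_eq]; push_cast; ring
  have e8 : ((Nat.mul 8 o : ℕ) : ℤ) = 2 * (2 * (2 * o)) := by rw [Nat.mul_eq]; push_cast; ring
  have k := bf_NPH (x / 4 % 2) e8
    (bf_NPH (x / 2 % 2) e4 (bf_NPH (x % 2) e2 (g 0 (by norm_num)) (g 1 (by norm_num)))
      (bf_NPH (x % 2) e2 (g 2 (by norm_num)) (g 3 (by norm_num))))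
    (bf_NPH (x / 2 % 2) e4 (bf_NPH (x % 2) e2 (g 4 (by norm_num)) (g 5 (by norm_num)))
      (bf_NPH (x % 2) e2 (g 6 (by norm_num)) (g 7 (by norm_num))))
  refine ⟨_, Rp.congr k.1 fun i _ => congrArg _ (by ring), fun n _ => ?_⟩
  clear k
  simp only [wt, ch, sb, sum_range_succ]
  interval_cases x <;> norm_num <;> ring

end Pool.Agent.MP_ebf981_lc.N9

end

section

namespace Pool.Agent.MP_ebf981_lc.N9

open Finset

theorem p9_NXS (l : ℕ) : (P9n l : ℝ) = 2 ^ 48 * P9 (l / 64) := by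
  unfold P9n P9
  push_cast
  ring

theorem mono_NXS {l m : ℕ} (h : l ≤ m) : P9n l ≤ P9n m := by
  unfold P9n
  gcongr

theorem th_NXS {V l : ℕ} (K : ℕ) (hV : V ≤ 2 ^ 26) (hl : l < 64) :
    ∃ d : ℕ, d ≤ 2 ^ 44 ∧ V * (P9n (l + 1) - P9n l) ≤ 274877906944 * d ∧
      (TH V K l : ℤ) = 2 ^ 44 + K * (2 * l + 1) * 16384 - d := by
  have h1 : P9n (l + 1) - P9n l ≤ 255 * 2 ^ 48 :=
    (Nat.sub_le _ _).trans ((mono_NXS (m := 64) hl).trans (by norm_num [P9n]))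
  have h2 := Nat.mul_le_mul hV h1
  refine ⟨V * (P9n (l + 1) - P9n l) / 274877906944 + 1, by omega,
    (Nat.lt_mul_div_succ _ (by norm_num)).le, ?_⟩
  rw [TH, Nat.cast_sub (by omega)]
  push_cast
  ring

theorem thb_NXS {V K l : ℕ} (hV : V ≤ 2 ^ 26) (hK : K < 2 ^ 15) (hl : l < 64) :
    TH V K l < 2 ^ 45 := by
  obtain ⟨d, -, -, h⟩ := th_NXS K hV hl
  have h1 : K * (2 * l + 1) ≤ 2 ^ 15 * 127 := Nat.mul_le_mul hK.le (by omega)
  zify at h1 ⊢
  omega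

theorem h1_NXS {V l : ℕ} (K : ℕ) (hV : V ≤ 2 ^ 26) (hl : l < 64) :
    ((TH V K l : ℝ) - 2 ^ 44) / 2 ^ 28 ≤
      64 * (sv (V / 2 ^ 24) (K / 2 ^ 8) l - sv (V / 2 ^ 24) (K / 2 ^ 8) (l + 1)) := by
  obtain ⟨d, -, h1, h2⟩ := th_NXS K hV hl
  have h3 : (TH V K l : ℝ) = 2 ^ 44 + K * (2 * l + 1) * 16384 - d := by exact_mod_cast h2
  have h4 : (V : ℝ) * ((P9n (l + 1) : ℝ) - P9n l) ≤ 274877906944 * d := by
    rw [← Nat.cast_sub (mono_NXS l.le_succ)]
    exact_mod_cast h1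
  rw [p9_NXS, p9_NXS] at h4
  rw [h3, sv, sv]
  generalize P9 ((l : ℝ) / 64) = a at *
  generalize P9 (((l + 1 : ℕ) : ℝ) / 64) = b at *
  push_cast
  linarith

theorem max_NXS (x y : ℝ) : max (x / 2 ^ 28 - y / 2 ^ 28) 0 = max (x - y) 0 / 2 ^ 28 := by
  rw [← sub_div, ← max_div_div_right (by positivity), zero_div]

theorem h2_NXS {V K TS L l : ℕ} (he : envl V K TS L = true) (h : L < l) (hl : l ≤ 64) :
    sv (V / 2 ^ 24) (K / 2 ^ 8) l + (4096 * (TS : ℝ) - 2 ^ 40) / 2 ^ 28 * l / 64 ≤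
      (∑ i ∈ range L, max ((4096 * (TS : ℝ) - 2 ^ 40) / 2 ^ 28 -
        ((TH V K i : ℝ) - 2 ^ 44) / 2 ^ 28) 0) / 64 := by
  have h1 := Nat.le_of_ble_eq_true ((allN_iff _ _).1 he (64 - l) (by rw [Nat.sub_eq]; omega))
  rw [Nat.sub_sub_self hl] at h1
  have h2 : V * P9n l + 4096 * TS * l * 2 ^ 38 ≤
      (SG V K TS L + K * (l * l) * 16384 + 1099511627776 * l) * 2 ^ 38 := by omega
  have h3 : (V : ℝ) * P9n l + 4096 * TS * l * 2 ^ 38 ≤
      (SG V K TS L + K * (l * l) * 16384 + 1099511627776 * l) * 2 ^ 38 := by exact_mod_cast h2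
  have h4 : (SG V K TS L : ℝ) =
      ∑ i ∈ range L, max ((4096 * (TS : ℝ) - 2 ^ 40) - ((TH V K i : ℝ) - 2 ^ 44)) 0 := by
    rw [SG, sumN_eq, Nat.cast_sum]
    refine sum_congr rfl fun i _ => ?_
    have : ((Nat.sub (Nat.add (Nat.mul 4096 TS) 16492674416640) (TH V K i) : ℕ) : ℤ) =
        max ((4096 * (TS : ℤ) - 2 ^ 40) - ((TH V K i : ℤ) - 2 ^ 44)) 0 := by
      rw [Nat.sub_eq, Nat.add_eq, Nat.mul_eq]
      omega
    exact_mod_cast this
  simp only [max_NXS]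
  rw [← sum_div, ← h4, sv]
  rw [p9_NXS] at h3
  generalize P9 ((l : ℝ) / 64) = a at *
  linarith

theorem rst_NXS {TS a : ℕ} (hT : TS < 2 ^ 29) {v : ℕ → ℤ} (h : R64 a v)
    (hb : ∀ n < 8192, 0 ≤ v n ∧ v n ≤ 2 ^ 45 + 2 ^ 36) :
    R64 (rst TS a) fun n => max (v n - (4096 * TS - 2 ^ 40)) 0 := by
  unfold rst
  refine Rp.congr (r_relu (Rp.add h (r_cst _)) fun n hn => ?_) fun n _ => ?_
  · have := hb n hn
    rw [Nat.sub_eq, Nat.mul_eq]
    omega
  · rw [Nat.sub_eq, Nat.mul_eq]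
    omega

theorem ab_NXS {x : ℕ} {d : ℕ → ℤ} (h : R64 x fun n => d n + 2 ^ 60)
    (hb : ∀ n < 8192, |d n| ≤ 2 ^ 45 + 2 ^ 36) : R64 (ab x) fun n => |d n| := by
  have h1 := r_relu h fun n hn => by
    have := abs_le.1 (hb n hn)
    omega
  unfold ab
  refine Rp.congr (Rp.sub (Rp.add (Rp.add h1 h1) (r_cst _)) h fun n _ => by omega) fun n _ => ?_
  rw [abs_eq_max_neg]
  omega

theorem ev_spec {V K TS L a : ℕ} (hV : V ≤ 2 ^ 26) (hK : K < 2 ^ 15) (hT : TS < 2 ^ 29) (hL : L ≤ 64)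
    (he : envl V K TS L = true) {v : ℕ → ℤ} (h : R64 a v)
    (hb : ∀ n < 8192, 0 ≤ v n ∧ v n ≤ 2 ^ 45 + 2 ^ 36) :
    ∃ w : ℕ → ℤ, R64 (EV V K TS L a) w ∧ ∀ n < 8192, 0 ≤ w n ∧ w n < 2 ^ 53 ∧
      ∀ α g : ℝ, |α| = (v n : ℝ) / 2 ^ 28 → g ^ 2 ≤ 1 →
        (V : ℝ) / 2 ^ 24 * P9 g - (K : ℝ) / 2 ^ 8 * g ^ 2 + g * α ≤
          (w n : ℝ) / 2 ^ 34 + (K : ℝ) / 2 ^ 8 / 16384 := by
  have hr := rst_NXS hT h hb
  have hm : R64 (mm TS a) fun n => min (v n) (4096 * TS - 2 ^ 40) + 2 ^ 59 := by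
    unfold mm
    refine Rp.congr (Rp.sub (Rp.add h (r_cst _)) hr fun n hn => ?_) fun n _ => by omega
    have := hb n hn
    omega
  have ht : ∀ l < L, TH V K l < 2 ^ 45 := fun l hl => thb_NXS hV hK (by omega)
  refine ⟨fun n => ∑ l ∈ range L, max (min (v n) (4096 * TS - 2 ^ 40) - (TH V K l - 2 ^ 44)) 0 +
    2 ^ 6 * max (v n - (4096 * TS - 2 ^ 40)) 0, ?_, fun n hn => ⟨?_, ?_, fun α g hα hg => ?_⟩⟩
  · unfold EV
    refine Rp.add (Rp.sum L fun l hl => ?_) (Rp.shl 6 hr)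
    have := ht l hl
    refine Rp.congr (r_relu (Rp.add hm (r_cst _)) fun n hn => ?_) fun n _ => ?_
    · have := hb n hn
      rw [Nat.sub_eq]
      omega
    · rw [Nat.sub_eq]
      omega
  · exact add_nonneg (sum_nonneg fun _ _ => le_max_right _ _) (by positivity)
  · have h1 := sum_le_card_nsmul (range L) (fun l =>
      max (min (v n) (4096 * TS - 2 ^ 40) - (TH V K l - 2 ^ 44)) (0 : ℤ)) (2 ^ 45) fun l _ => by omega
    rw [card_range, nsmul_eq_mul] at h1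
    have := hb n hn
    beta_reduce
    omega
  · refine (env_le (by positivity) (by positivity) hL (fun l hl => h1_NXS K hV (by omega))
      (fun l h1 h2 => h2_NXS he h1 h2) α g hg).trans_eq ?_
    rw [Mv, hα]
    simp only [min_div_div_right (show (0 : ℝ) ≤ 2 ^ 28 by positivity), max_NXS]
    rw [← sum_div]
    push_cast
    ring_nf

theorem xs_spec {V K TS L K3 t F : ℕ} (hV : V ≤ 2 ^ 26) (hK : K < 2 ^ 15) (hT : TS < 2 ^ 29)
    (hL : L ≤ 64) (h3 : K3 ≤ 2 ^ 36) (he : envl V K TS L = true) {vt vF : ℕ → ℤ}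
    (ht : R64 t (fun n => vt n + 2 ^ 46)) (hF : R64 F (fun n => vF n + 2 ^ 45))
    (hb : ∀ n < 8192, |vt n| ≤ 2 ^ 45 ∧ |vF n| ≤ 2 ^ 45) :
    ∃ w : ℕ → ℤ, R64 (XS V K TS L K3 t F) (fun n => w n + 2 ^ 51) ∧
      ∀ n < 8192, 0 ≤ w n + 2 ^ 51 ∧ w n + 2 ^ 51 < 2 ^ 55 ∧ ∀ f g : ℝ, f ^ 2 = 1 → g ^ 2 ≤ 1 →
        (V : ℝ) / 2 ^ 24 * P9 g - (K : ℝ) / 2 ^ 8 * g ^ 2 +
          g * ((vt n : ℝ) / 2 ^ 28 + (K3 : ℝ) / 2 ^ 28 * f) + f * ((vF n : ℝ) / 2 ^ 28) ≤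
          (w n : ℝ) / 2 ^ 34 + (K : ℝ) / 2 ^ 8 / 16384 := by
  have b1 : ∀ n < 8192, |vt n - K3| ≤ 2 ^ 45 + 2 ^ 36 := fun n hn => by
    have := abs_le.1 (hb n hn).1
    rw [abs_le]
    omega
  have b2 : ∀ n < 8192, |vt n + K3| ≤ 2 ^ 45 + 2 ^ 36 := fun n hn => by
    have := abs_le.1 (hb n hn).1
    rw [abs_le]
    omega
  obtain ⟨wm, rm, hm⟩ := ev_spec hV hK hT hL he
    (ab_NXS (x := Nat.add t (cst (Nat.sub 1152851135862669312 K3)))
      (Rp.congr (Rp.add ht (r_cst _)) fun n _ => by rw [Nat.sub_eq]; omega) b1)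
    fun n hn => ⟨abs_nonneg _, b1 n hn⟩
  obtain ⟨wp, rp, hp⟩ := ev_spec hV hK hT hL he
    (ab_NXS (x := Nat.add t (cst (Nat.add 1152851135862669312 K3)))
      (Rp.congr (Rp.add ht (r_cst _)) fun n _ => by rw [Nat.add_eq]; omega) b2)
    fun n hn => ⟨abs_nonneg _, b2 n hn⟩
  have bb : ∀ n < 8192, 0 ≤ wm n ∧ wm n < 2 ^ 53 ∧ 0 ≤ wp n ∧ wp n < 2 ^ 53 ∧ -2 ^ 45 ≤ vF n ∧
      vF n ≤ 2 ^ 45 := fun n hn =>
    ⟨(hm n hn).1, (hm n hn).2.1, (hp n hn).1, (hp n hn).2.1, abs_le.1 (hb n hn).2⟩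
  have um : R64 (Um V K TS L K3 t F) fun n => wm n - 64 * vF n + 2 ^ 51 := by
    unfold Um
    refine Rp.congr (Rp.sub (Rp.add rm (r_cst _)) (Rp.shl 6 hF) fun n hn => ?_) fun n _ => ?_
    · have := bb n hn
      omega
    · omega
  have up : R64 (Up V K TS L K3 t F) fun n => wp n + 64 * vF n + 2 ^ 51 := by
    unfold Up
    exact Rp.congr (Rp.add rp (Rp.shl 6 hF)) fun n _ => by omega
  refine ⟨fun n => max (wm n - 64 * vF n) (wp n + 64 * vF n), ?_,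
    fun n hn => ⟨?_, ?_, fun f g hf hg => ?_⟩⟩
  · unfold XS
    refine Rp.congr (Rp.add um (r_relu (Rp.sub (Rp.add up (r_cst _)) um fun n hn => ?_)
      fun n hn => ?_)) fun n _ => by beta_reduce; omega
    · have := bb n hn
      omega
    · have := bb n hn
      omega
  · have := bb n hn
    beta_reduce
    omega
  · have := bb n hn
    beta_reduce
    omega
  · push_cast
    rcases sq_eq_one_iff.1 hf with rfl | rfl
    · have h1 := (hp n hn).2.2 ((vt n : ℝ) / 2 ^ 28 + (K3 : ℝ) / 2 ^ 28 * 1) g (by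
        push_cast
        rw [mul_one, ← add_div, abs_div, abs_of_pos (a := (2 : ℝ) ^ 28) (by positivity)]) hg
      linarith [le_max_right ((wm n : ℝ) - 64 * vF n) (wp n + 64 * vF n)]
    · have h1 := (hm n hn).2.2 ((vt n : ℝ) / 2 ^ 28 + (K3 : ℝ) / 2 ^ 28 * -1) g (by
        push_cast
        rw [mul_neg_one, ← sub_eq_add_neg, ← sub_div, abs_div,
          abs_of_pos (a := (2 : ℝ) ^ 28) (by positivity)]) hg
      linarith [le_max_left ((wm n : ℝ) - 64 * vF n) (wp n + 64 * vF n)]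

end Pool.Agent.MP_ebf981_lc.N9

end

section

namespace Pool.Agent.MP_ebf981_lc.N9

open Finset

theorem add8_NNodeS {c : ℕ → ℕ} {v : ℕ → ℕ → ℤ} (h : ∀ S < 8, R64 (c S) (v S)) :
    R64 (Nat.add (Nat.add (Nat.add (c 0) (c 1)) (Nat.add (c 2) (c 3)))
      (Nat.add (Nat.add (c 4) (c 5)) (Nat.add (c 6) (c 7)))) (fun n => ∑ S ∈ range 8, v S n) :=
  Rp.congr (Rp.add
    (Rp.add (Rp.add (h 0 (by omega)) (h 1 (by omega))) (Rp.add (h 2 (by omega)) (h 3 (by omega))))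
    (Rp.add (Rp.add (h 4 (by omega)) (h 5 (by omega))) (Rp.add (h 6 (by omega)) (h 7 (by omega)))))
    fun i _ => by
      simp only [sum_range_succ, sum_range_zero]
      ring

theorem sx_NNodeS {E τ r C V K I1 I2 TS L K3 : ℕ} {w : ℕ → ℕ → ℤ}
    (h : ∀ x < 8, R64 (Xx E τ r C V K I1 I2 TS L K3 (x % 2) (x / 2 % 2) (x / 4 % 2)) (w x)) :
    R64 (SX E τ r C V K I1 I2 TS L K3) (fun n => ∑ x ∈ range 8, w x n) := by
  unfold SX
  exact add8_NNodeS h

theorem sn_NNodeS {E τ r C I1 I2 : ℕ} {w : ℕ → ℕ → ℤ}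
    (h : ∀ S < 8, R64 (NP E τ r (crd S) (crd S % 2) (bN C S) I1 I2) (w S))
    (hb : ∀ S < 8, ∀ n < 8192, 0 ≤ w S n ∧ w S n ≤ 2 ^ 53) :
    R64 (SN E τ r C I1 I2) (fun n => (∑ S ∈ range 8, w S n) / 2 ^ 24) ∧
      ∀ n < 8192, 0 ≤ (∑ S ∈ range 8, w S n) / 2 ^ 24 ∧ (∑ S ∈ range 8, w S n) / 2 ^ 24 ≤ 2 ^ 32 := by
  have h1 : ∀ n < 8192, 0 ≤ ∑ S ∈ range 8, w S n ∧ ∑ S ∈ range 8, w S n ≤ 2 ^ 56 := fun n hn =>
    ⟨sum_nonneg fun S hS => (hb S (mem_range.1 hS) n hn).1,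
      (sum_le_card_nsmul _ _ _ fun S hS => (hb S (mem_range.1 hS) n hn).2).trans (by norm_num)⟩
  refine ⟨?_, fun n hn => ?_⟩
  · unfold SN NPs
    simp only [fn_eq]
    exact r_shr (by norm_num) (add8_NNodeS h) fun n hn => by
      have := h1 n hn
      omega
  · have := h1 n hn
    omega

theorem wh_NNodeS {o : ℕ} {c : ℕ → ℕ} {v : ℕ → ℕ → ℤ} (ho : 2 ^ 42 ≤ o)
    (h : ∀ S < 8, R64 (c S) (fun n => v S n + o)) (hb : ∀ S < 8, ∀ n < 8192, |v S n| ≤ 2 ^ 42)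
    {x : ℕ} (hx : x < 8) :
    ∃ t : ℕ → ℤ, R64 (wh3 o (x % 2) (x / 2 % 2) (x / 4 % 2) (c 0) (c 1) (c 2) (c 3) (c 4) (c 5)
      (c 6) (c 7)) (fun n => t n + 8 * o) ∧
      ∀ n < 8192, |t n| ≤ 2 ^ 45 ∧ (t n : ℝ) / 2 ^ 28 = wt (fun S => (v S n : ℝ) / 2 ^ 28) x := by
  obtain ⟨t, h1, h2⟩ := wh3_spec h
    (fun S hS n hn => (hb S hS n hn).trans (by exact_mod_cast ho)) hx
  refine ⟨t, h1, fun n hn => ⟨?_, ?_⟩⟩
  · have h3 : |(t n : ℝ)| ≤ 2 ^ 45 := by
      rw [h2 n hn]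
      refine (wt_abs _ x).trans ((sum_le_card_nsmul _ _ (2 ^ 42) fun S hS => ?_).trans (by norm_num))
      exact_mod_cast hb S (mem_range.1 hS) n hn
    exact_mod_cast h3
  · rw [h2 n hn, wt, wt, sum_div]
    exact sum_congr rfl fun S _ => mul_div_assoc _ _ _

theorem fn_NNodeS (x : ℕ) (k : ℕ → ℕ) : fn x k = k x := (fn_eq x k).trans (Eq.refl _)

theorem xx_NNodeS {E τ r C V K I1 I2 TS L K3 : ℕ} {φ F : ℕ → ℕ → ℤ}
    (hV : V ≤ 2 ^ 26) (hK : K < 2 ^ 15) (hT : TS < 2 ^ 29)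
    (hL : L ≤ 64) (h3 : K3 ≤ 2 ^ 36) (he : envl V K TS L = true)
    (hφ : ∀ S < 8, R64 (PH E τ r (crd S) (crd S % 2) (yN C S) (bN C S) K I1 I2)
      (fun n => φ S n + 2 ^ 43))
    (hF : ∀ S < 8, R64 (FC E τ r (crd S) (crd S % 2) (yN C S) (bN C S) (aN C S) K I1 I2)
      (fun n => F S n + 2 ^ 42))
    (bφ : ∀ S < 8, ∀ n < 8192, |φ S n| ≤ 2 ^ 42) (bF : ∀ S < 8, ∀ n < 8192, |F S n| ≤ 2 ^ 42)
    {x : ℕ} (hx : x < 8) :
    ∃ w : ℕ → ℤ, R64 (Xx E τ r C V K I1 I2 TS L K3 (x % 2) (x / 2 % 2) (x / 4 % 2))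
        (fun n => w n + 2 ^ 51) ∧
      ∀ n < 8192, 0 ≤ w n + 2 ^ 51 ∧ w n + 2 ^ 51 < 2 ^ 55 ∧ ∀ f g : ℝ, f ^ 2 = 1 → g ^ 2 ≤ 1 →
        (V : ℝ) / 2 ^ 24 * P9 g - (K : ℝ) / 2 ^ 8 * g ^ 2 +
          g * (wt (fun S => (φ S n : ℝ) / 2 ^ 28) x + (K3 : ℝ) / 2 ^ 28 * f) +
          f * wt (fun S => (F S n : ℝ) / 2 ^ 28) x ≤
          (w n : ℝ) / 2 ^ 34 + (K : ℝ) / 2 ^ 8 / 16384 := by
  obtain ⟨t, t1, t2⟩ := wh_NNodeS (o := 8796093022208) (v := φ) (by norm_num)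
    (fun S hS => Rp.congr (hφ S hS) fun i _ => by norm_num) bφ hx
  obtain ⟨u, u1, u2⟩ := wh_NNodeS (o := 4398046511104) (v := F) (by norm_num)
    (fun S hS => Rp.congr (hF S hS) fun i _ => by norm_num) bF hx
  obtain ⟨w, w1, w2⟩ := xs_spec hV hK hT hL h3 he (vt := t) (vF := u)
    (Rp.congr t1 fun i _ => by norm_num) (Rp.congr u1 fun i _ => by norm_num)
    fun n hn => ⟨(t2 n hn).1, (u2 n hn).1⟩
  refine ⟨w, ?_, fun n hn => ?_⟩
  · unfold Xx PHs FCs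
    simp only [fn_NNodeS]
    exact w1
  · rw [← (t2 n hn).2, ← (u2 n hn).2]
    exact w2 n hn

theorem fin_NNodeS {K MF I1 I2 : ℕ} {W T v : ℤ}
    (h : W + 8 * 2 ^ 51 + (K * 2 ^ 9 : ℕ) * ((8 * 2 ^ 52 - T) / 2 ^ 24) + (v + 2 ^ 51) ≤
      (THR K MF : ℕ)) :
    ((W : ℝ) / 2 ^ 34 + 8 * ((K : ℝ) / 2 ^ 8 / 16384)) / 8 - (K : ℝ) / 2 ^ 8 * (T / 2 ^ 44) +
      (K : ℝ) / 2 ^ 8 * (I1 / 2 ^ 12) * (I2 / 2 ^ 12) - -(((v : ℝ) + 1) / 2 ^ 37) ≤
      ((Int.subNatNat (MF * 65536 + K * I1 * I2 * 256 + K * 262144) 140737488355328 : ℤ) : ℝ) /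
        2 ^ 40 := by
  have h1 : 8 * 2 ^ 52 - T ≤ 2 ^ 24 * ((8 * 2 ^ 52 - T) / 2 ^ 24 + 1) := by omega
  generalize (8 * 2 ^ 52 - T) / 2 ^ 24 = s at h h1
  have h2 : (8 * 2 ^ 52 - T : ℝ) ≤ 2 ^ 24 * (s + 1) := by exact_mod_cast h1
  have h3 := mul_le_mul_of_nonneg_left h2 (Nat.cast_nonneg (α := ℝ) K)
  have h4 : (W : ℝ) + 8 * 2 ^ 51 + K * 2 ^ 9 * s + (v + 2 ^ 51) ≤
      20248606137122815 + K * 1099511627264 + MF * 8192 := by
    unfold THR at h
    exact_mod_cast h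
  rw [Int.subNatNat_eq_coe]
  push_cast
  linarith

theorem unf_NNodeS {r E C : ℕ} (h : nodeChk r E C = true) : bnd r E C = true ∧
    envl (fd C 0) (fd C 1) (fd C 4) (fd C 5) = true ∧
    (∀ S < 8, sm (yN C S) 9 ≤ 2 ^ 27 ∧ sm (aN C S) 2 ≤ 2 ^ 27 ∧
      okS E (fd E 4) r (crd S) (crd S % 2) (bN C S) (fd C 3) = true) ∧
    leq (Nat.add (Nat.add (SX E (fd E 4) r C (fd C 0) (fd C 1) (fd C 2) (fd C 3) (fd C 4) (fd C 5)
      (fd C 1 * (fd C 2 - fd C 3) * 256))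
      (Nat.mul (fd C 1 * 2 ^ 9) (SN E (fd E 4) r C (fd C 2) (fd C 3)))) (NL (fd E 4) (lN C)))
      (cst (THR (fd C 1) (fd C 6))) = true := by
  unfold nodeChk at h
  simp only [an_eq, frc_eq] at h
  obtain ⟨h0, h1, a0, a1, a2, a3, a4, a5, a6, a7, h2⟩ := h
  refine ⟨h0, h1, fun S hS => ?_, ?_⟩
  · have : oks E (fd E 4) r C (fd C 3) S (crd S) (crd S % 2) = true := by
      interval_cases S
      exacts [a0, a1, a2, a3, a4, a5, a6, a7]
    unfold oks at this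
    simp only [an_eq, frc_eq, Nat.ble_eq] at this
    exact this
  · rw [← Nat.shiftLeft_eq]
    exact h2

theorem nd_NNodeS (φ : ℝ → ℝ → ℝ) {i : ℕ} (hi : i < 256) (l : ℕ) :
    nd φ (i + 256 * l) = φ (zn i) (un l) := by
  rw [nd, show (i + 256 * l) % 256 = i by omega, show (i + 256 * l) / 256 = l by omega]

theorem node_sound {r E C : ℕ} (h : nodeChk r E C = true) : bnd r E C = true ∧ NodeP r E C := by
  obtain ⟨hb, he, ho, hl⟩ := unf_NNodeS h
  refine ⟨hb, ?_⟩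
  obtain ⟨eb, -, hV, hK, h1, h2, h21, hT, hL, hW⟩ := bnd_spec hb
  choose! P Q hPQ using fun S (hS : S < 8) => pq_spec eb S (bN C S) h2 (ho S hS).2.2
  choose! φ φ1 φ2 using fun S (hS : S < 8) => ph_spec eb (hPQ S hS) h1 h2 hK (ho S hS).1
  choose! F F1 F2 using fun S (hS : S < 8) =>
    fc_spec eb (hPQ S hS) h1 h2 hK (ho S hS).1 (ho S hS).2.1
  obtain ⟨v, v1, v2⟩ := nl_spec eb hW
  have h3 : fd C 1 * (fd C 2 - fd C 3) * 256 ≤ 2 ^ 36 :=
    (Nat.mul_le_mul_right 256 (Nat.mul_le_mul hK.le ((Nat.sub_le _ _).trans h1.le))).trans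
      (by norm_num)
  choose! w w1 w2 using fun x (hx : x < 8) => xx_NNodeS hV hK hT hL h3 he φ1 F1
    (fun S hS n hn => (φ2 S hS n hn).1) (fun S hS n hn => (F2 S hS n hn).1) hx
  obtain ⟨s1, s2⟩ := sn_NNodeS (fun S hS => (np_spec (hPQ S hS) h1 h2).1) fun S hS n hn => by
    have := abs_le.1 ((np_spec (hPQ S hS) h1 h2).2 n hn)
    constructor <;> linarith [this.1, this.2]
  have hM := fd_lt C 6
  have key := r_leq (Rp.add (Rp.add (sx_NNodeS w1) (Rp.mul (fd C 1 * 2 ^ 9) s1)) v1) (r_cst _)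
    (fun n hn => by
      have a1 : 0 ≤ ∑ x ∈ range 8, (w x n + 2 ^ 51) :=
        sum_nonneg fun x hx => (w2 x (mem_range.1 hx) n hn).1
      have a2 := sum_le_card_nsmul (range 8) (fun x => w x n + 2 ^ 51) _
        fun x hx => (w2 x (mem_range.1 hx) n hn).2.1.le
      have a3 := abs_le.1 (v2 n hn).1
      have a4 := mul_nonneg (Int.natCast_nonneg (fd C 1 * 2 ^ 9)) (s2 n hn).1
      have a5 := mul_le_mul (show ((fd C 1 * 2 ^ 9 : ℕ) : ℤ) ≤ 2 ^ 24 by omega) (s2 n hn).2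
        (s2 n hn).1 (by norm_num)
      rw [card_range, nsmul_eq_mul, Nat.cast_ofNat] at a2
      constructor <;> linarith [a3.1, a3.2])
    (fun n _ => by
      unfold THR
      omega) hl
  have hn : ∀ i < 256, ∀ l < 32, i + 256 * l < 8192 := fun i hi l hl => by omega
  refine ⟨fun i l S => -((φ S (i + 256 * l) : ℝ) / 2 ^ 28) + (fd C 1 : ℝ) / 2 ^ 8 *
      (((Q S (i + 256 * l) : ℝ) / 2 ^ 16 - ((fd C 2 : ℝ) / 2 ^ 12 + (fd C 3 : ℝ) / 2 ^ 12) *
        ((P S (i + 256 * l) : ℝ) / 2 ^ 16)) + (Q S (i + 256 * l) : ℝ) / 2 ^ 16),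
    fun i l S => (F S (i + 256 * l) : ℝ) / 2 ^ 28 - (fd C 1 : ℝ) / 2 ^ 8 *
      ((fd C 3 : ℝ) / 2 ^ 12 * ((Q S (i + 256 * l) : ℝ) / 2 ^ 16 -
        ((fd C 2 : ℝ) / 2 ^ 12 + (fd C 3 : ℝ) / 2 ^ 12) * ((P S (i + 256 * l) : ℝ) / 2 ^ 16)) -
        (fd C 2 : ℝ) / 2 ^ 12 * ((Q S (i + 256 * l) : ℝ) / 2 ^ 16)),
    fun i l S => (P S (i + 256 * l) : ℝ) / 2 ^ 16,
    fun i l S => (Q S (i + 256 * l) : ℝ) / 2 ^ 16 -
      (fd C 3 : ℝ) / 2 ^ 12 * ((P S (i + 256 * l) : ℝ) / 2 ^ 16),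
    fun i l => -(((v (i + 256 * l) : ℝ) + 1) / 2 ^ 37),
    fun S hS => ⟨fun i hi l hl => ?_, fun i hi l hl => ?_, fun i hi l hl => ?_,
      fun i hi l hl => ?_⟩, fun i hi l hl => ?_, fun i hi l hl f g hfg => ?_⟩
  · have := (φ2 S hS _ (hn i hi l hl)).2
    rw [nd_NNodeS _ hi] at this
    exact this
  · have := (F2 S hS _ (hn i hi l hl)).2
    rw [nd_NNodeS _ hi] at this
    exact this
  · have := ((hPQ S hS).2.2.2 _ (hn i hi l hl)).2.2.2.1
    rw [nd_NNodeS _ hi] at this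
    exact this
  · have := ((hPQ S hS).2.2.2 _ (hn i hi l hl)).2.2.2.2
    rw [nd_NNodeS _ hi] at this
    exact this
  · have := (v2 _ (hn i hi l hl)).2
    rw [nd_NNodeS _ hi] at this
    exact this
  · have hn' := hn i hi l hl
    beta_reduce
    generalize i + 256 * l = n at hn' ⊢
    have e3 : (ctR C).k3 = (fd C 1 : ℝ) / 2 ^ 8 * ((fd C 2 : ℝ) / 2 ^ 12 - (fd C 3 : ℝ) / 2 ^ 12) := by
      change ((fd C 1 * (fd C 2 - fd C 3) * 4096 : ℕ) : ℝ) / 2 ^ 32 = _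
      push_cast [h21]
      ring
    have e4 : ((fd C 1 * (fd C 2 - fd C 3) * 256 : ℕ) : ℝ) / 2 ^ 28 =
        (fd C 1 : ℝ) / 2 ^ 8 * ((fd C 2 : ℝ) / 2 ^ 12 - (fd C 3 : ℝ) / 2 ^ 12) := by
      push_cast [h21]
      ring
    have eg : (fd C 1 * fd C 2 * fd C 3 / 2 ^ 32 : ℝ) =
        (fd C 1 : ℝ) / 2 ^ 8 * ((fd C 2 : ℝ) / 2 ^ 12) * ((fd C 3 : ℝ) / 2 ^ 12) := by ring
    rw [e3, eg, HH_node _ _ _ _ _ (fun S => (φ S n : ℝ) / 2 ^ 28) (fun S => (F S n : ℝ) / 2 ^ 28)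
      (fun S => (P S n : ℝ) / 2 ^ 16) (fun S => (Q S n : ℝ) / 2 ^ 16) f g fun x hx => (hfg x hx).1]
    have k1 := key n hn'
    simp only [sum_add_distrib, sum_sub_distrib, sum_const, card_range, nsmul_eq_mul,
      Nat.cast_ofNat] at k1
    refine le_trans ?_ (fin_NNodeS (I1 := fd C 2) (I2 := fd C 3) k1)
    have k2 := sum_le_sum fun x (hx : x ∈ range 8) => (w2 x (mem_range.1 hx) n hn').2.2 (f x) (g x)
      (hfg x (mem_range.1 hx)).1 (hfg x (mem_range.1 hx)).2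
    rw [e4, sum_add_distrib (f := fun x => (w x n : ℝ) / 2 ^ 34), sum_const, card_range,
      nsmul_eq_mul, Nat.cast_ofNat, ← sum_div, ← Int.cast_sum] at k2
    have k3 : ∑ S ∈ range 8, ((Q S n : ℝ) / 2 ^ 16 - ((fd C 2 : ℝ) / 2 ^ 12 + (fd C 3 : ℝ) / 2 ^ 12) *
        ((P S n : ℝ) / 2 ^ 16)) * ((Q S n : ℝ) / 2 ^ 16) =
        ((∑ S ∈ range 8, Q S n * (4096 * Q S n - (fd C 2 + fd C 3) * P S n) : ℤ) : ℝ) / 2 ^ 44 := by
      rw [Int.cast_sum, sum_div]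
      refine sum_congr rfl fun S _ => ?_
      push_cast
      ring
    rw [k3]
    have k4 : (ctR C).vp = (fd C 0 : ℝ) / 2 ^ 24 := rfl
    rw [k4]
    linarith

end Pool.Agent.MP_ebf981_lc.N9

end

section

namespace Pool.Agent.MP_ebf981_lc.N9

open Finset

theorem ap_NCen {φ : ℝ → ℝ → ℝ} {Φ : ℕ → ℕ → ℝ} {ε ε' : ℝ} (h : Ap φ Φ ε) (e : ε ≤ ε') :
    Ap φ Φ ε' := fun i hi l hl s r s0 s1 r0 r1 => (h i hi l hl s r s0 s1 r0 r1).trans e

theorem lp_NCen {Φ : ℕ → ℕ → ℝ} {a b a' b' : ℝ} (h : Lp Φ a b) (e : a ≤ a') (e' : b ≤ b') :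
    Lp Φ a' b' :=
  ⟨fun i hi l hl => (h.1 i hi l hl).trans e, fun i hi l hl => (h.2 i hi l hl).trans e'⟩

theorem apl_NCen {φ : ℝ → ℝ → ℝ} {Φ : ℕ → ℕ → ℝ} {ε ε' : ℝ} (h : ApL φ Φ ε) (e : ε ≤ ε') :
    ApL φ Φ ε' := fun i hi l hl s r s0 s1 r0 r1 =>
  le_trans (by linarith) (h i hi l hl s r s0 s1 r0 r1)

theorem q_NCen {a b : ℕ} {p q x y : ℕ → ℕ}
    (h : ∑ S ∈ range 8, (p S * x S + q S * y S) * (p S * x S + q S * y S) ≤ a * b * 2 ^ 94) :
    ∑ S ∈ range 8, ((p S : ℝ) / 2 ^ 32 * (x S / 2 ^ 40) + q S / 2 ^ 32 * (y S / 2 ^ 40)) ^ 2 ≤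
      4 * ((a : ℝ) / 2 ^ 24) * (b / 2 ^ 28) := by
  have h1 : ∑ S ∈ range 8, ((p S : ℝ) * x S + q S * y S) * (p S * x S + q S * y S) ≤
      a * b * 2 ^ 94 := by exact_mod_cast h
  calc _ = (∑ S ∈ range 8, ((p S : ℝ) * x S + q S * y S) * (p S * x S + q S * y S)) / 2 ^ 144 := by
        rw [Finset.sum_div]
        exact Finset.sum_congr rfl fun S _ => by ring
    _ ≤ a * b * 2 ^ 94 / 2 ^ 144 := by gcongr
    _ = _ := by ring

theorem cen_sound {r E C : ℕ} (hb : bnd r E C = true) (h : NodeP r E C) (hI : chkI r E C = true) :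
    Cen (evR r E) (ctR C) (Mz r E C / 2 ^ 40) := by
  obtain ⟨ΦG, ΦF, Φ0, Φ1, ΦL, hN, hL, hH⟩ := h
  simp -implicitDefEqProofs only [chkI, an_eq, Nat.ble_eq, sumN_eq, fn_eq, cr_eq, sq, Nat.mul_eq,
    Nat.shiftLeft_eq', Nat.shiftLeft_eq] at hI
  obtain ⟨i0, i1, i2⟩ := hI
  have r0 : 0 ≤ (evR r E).ρ := by
    change (0 : ℝ) ≤ r / 256
    positivity
  have ek : (fd C 1 : ℝ) / 2 ^ 8 + fd C 7 / 2 ^ 24 = KK C / 2 ^ 32 := by
    rw [KK]
    push_cast
    ring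
  have eg : (fd C 1 : ℝ) * fd C 2 * fd C 3 / 2 ^ 32 - fd C 8 / 2 ^ 24 = KG C / 2 ^ 32 := by
    rw [KG, Nat.cast_sub i0]
    push_cast
    ring
  have p0 : ∀ a k : ℕ, (0 : ℝ) ≤ a / 2 ^ k := fun a k => by positivity
  intro z u z0 z1 hu f g hfg
  have key := node_to_cell (θ1 := fd C 7 / 2 ^ 24) (θ2 := fd C 8 / 2 ^ 24)
    (E1 := fd C 9 / 2 ^ 28) (E2 := fd C 10 / 2 ^ 28) (eL := KLn E C / 2 ^ 40)
    (G := B0 (evR r E) (ctR C).y)
    (F := fun z u S => B1 (evR r E) (ctR C).y z u S - BA (ctR C).a z u S)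
    (p0 := B0 (evR r E) (ctR C).b) (p1 := B1 (evR r E) (ctR C).b)
    (L := Lw (evR r E) (ctR C).c2 (ctR C).c4 (ctR C).c6 (ctR C).mu (ctR C).nu (ctR C).yc)
    (eG := fun S => K0n E (yN C S) / 2 ^ 40 + (sm (yN C S) 9 + 4096) / 2 ^ 40)
    (eF := fun S => K1n r E (yN C S) (crd S) / 2 ^ 40 +
      (sm (yN C S) 9 + 4096 + sm (aN C S) 2) / 2 ^ 40)
    (e0 := fun S => e0n E (bN C S) / 2 ^ 40) (e1 := fun S => e1n r E (bN C S) (crd S) / 2 ^ 40)
    (z0 := fun S => (Z0n E (bN C S) (ev S) + 2 * ebn (bN C S) : ℕ) / 2 ^ 40)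
    (u0 := fun S => (U0n (bN C S) (ev S) + 2 * ebn (bN C S) : ℕ) / 2 ^ 40)
    (z1 := fun S => (Z1n r E (bN C S) (crd S) (ev S) + 2 * ebn (bN C S) : ℕ) / 2 ^ 40)
    (u1 := fun S => (U1n r E (bN C S) (crd S) (ev S) + 2 * ebn (bN C S) : ℕ) / 2 ^ 40)
    (p0 _ _) (p0 (K3n C) 32) (p0 _ _) (p0 _ _) (sub_nonneg.1 ((p0 _ _).trans_eq eg.symm)) (p0 _ _)
    (p0 _ _)
    (fun S hS => ap_NCen (ap_B0 _ _ S (hN S hS).1).1 (add_le_add (K0n_le r E (yN C) S) le_rfl))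
    (fun S hS => ap_NCen (ap_BF _ r0 _ _ S (hN S hS).2.1) (add_le_add (K1n_le r E (yN C) S) le_rfl))
    (fun S hS => ap_NCen (ap_B0 _ _ S (hN S hS).2.2.1).1
      ((add_le_add (K0n_le r E (bN C) S) le_rfl).trans_eq (by rw [e0n, Nat.cast_add, add_div])))
    (fun S hS => ap_NCen (ap_B1 _ r0 _ S (hN S hS).2.2.2).1
      ((add_le_add (K1n_le r E (bN C) S) le_rfl).trans_eq (by rw [e1n, Nat.cast_add, add_div])))
    (fun S hS => lp_NCen (ap_B0 _ _ S (hN S hS).2.2.1).2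
      ((add_le_add (Z0n_le r E (bN C) S) le_rfl).trans_eq (by push_cast; ring))
      ((add_le_add (U0n_le (bN C) S) le_rfl).trans_eq (by push_cast; ring)))
    (fun S hS => lp_NCen (ap_B1 _ r0 _ S (hN S hS).2.2.2).2
      ((add_le_add (Z1n_le r E (bN C) S) le_rfl).trans_eq (by push_cast; ring))
      ((add_le_add (U1n_le r E (bN C) S) le_rfl).trans_eq (by push_cast; ring)))
    (apl_NCen (ap_Lw _ (c4_eq C) (c2_eq C) hL) (KLn_le r E C))
    (by
      refine le_of_eq_of_le (Finset.sum_congr rfl fun S _ => ?_)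
        (q_NCen (p := fun _ => 2 * KK C) (q := fun _ => K3n C) i1)
      rw [ek]
      push_cast
      ring)
    (by
      refine le_of_eq_of_le (Finset.sum_congr rfl fun S _ => ?_)
        (q_NCen (p := fun _ => K3n C) (q := fun _ => 2 * KG C) i2)
      rw [eg]
      push_cast
      ring)
    hH z0 z1 hu hfg
  rw [ek, eg] at key
  refine le_trans key ?_
  have hs : ∑ S ∈ range 8, ((K0n E (yN C S) : ℝ) / 2 ^ 40 + (sm (yN C S) 9 + 4096) / 2 ^ 40 +
      (K1n r E (yN C S) (crd S) / 2 ^ 40 + (sm (yN C S) 9 + 4096 + sm (aN C S) 2) / 2 ^ 40) +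
      KQ (KK C / 2 ^ 32) (K3n C / 2 ^ 32) (KG C / 2 ^ 32) (e0n E (bN C S) / 2 ^ 40)
        (e1n r E (bN C S) (crd S) / 2 ^ 40)
        ((Z0n E (bN C S) (ev S) + 2 * ebn (bN C S) : ℕ) / 2 ^ 40)
        ((U0n (bN C S) (ev S) + 2 * ebn (bN C S) : ℕ) / 2 ^ 40)
        ((Z1n r E (bN C S) (crd S) (ev S) + 2 * ebn (bN C S) : ℕ) / 2 ^ 40)
        ((U1n r E (bN C S) (crd S) (ev S) + 2 * ebn (bN C S) : ℕ) / 2 ^ 40)) ≤
      ((∑ S ∈ range 8, (EIy r E (yN C S) (crd S) + sm (aN C S) 2 +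
        EIb r E (KK C) (K3n C) (KG C) (bN C S) (crd S) (ev S)) : ℕ) : ℝ) / 2 ^ 40 := by
    rw [Nat.cast_sum, Finset.sum_div]
    refine Finset.sum_le_sum fun S _ => ?_
    refine (add_le_add le_rfl (KQn_le _ _ _ _ _ _ _ _ _)).trans_eq ?_
    rw [EIy, EIb, Nat.cast_add, Nat.cast_add, Nat.cast_add, Nat.cast_add, Nat.cast_mul,
      Nat.cast_add, Nat.cast_ofNat, Nat.cast_ofNat]
    ring
  refine (add_le_add le_rfl hs).trans_eq ?_
  rw [Mz, Int.ofNat_eq_natCast, Int.cast_add, Int.cast_natCast, EI]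
  simp -implicitDefEqProofs only [sumN_eq, fn_eq, cr_eq]
  rw [Nat.cast_add (_ + _), Nat.cast_add (KLn E C), Nat.cast_mul, Nat.cast_add (fd C 9),
    Nat.cast_ofNat]
  ring

end Pool.Agent.MP_ebf981_lc.N9

end

section

namespace Pool.Agent.MP_ebf981_lc.N9

open Finset

theorem At_NCert {c : Ct} (M : ℝ) (hv : 0 ≤ c.vp) (h3 : 0 ≤ c.k3) (hg : 0 ≤ c.kg) :
    0 ≤ Atl c M := by
  obtain ⟨a1, a2, -⟩ := D_NNode c.y
  obtain ⟨-, a3, a4⟩ := D_NNode c.a
  have a5 : 0 ≤ sa c.yc 7 := sum_nonneg fun _ _ => abs_nonneg _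
  unfold Atl
  positivity

theorem cert_sound {r E c C : ℕ} (he : EnvOk (evR r E)) (h : chk1 r E c C = true) : CellN r c := by
  simp only [chk1, an_eq, Nat.beq_eq] at h
  obtain ⟨e1, e2, e3, hQ, hI, hV, hN⟩ := h
  obtain ⟨hb, hP⟩ := node_sound hN
  obtain ⟨⟨-, -, b1⟩, b2, -⟩ := bnd_spec hb
  obtain ⟨q1, q2⟩ := qok_sound hQ
  simp only [chkV, an_eq, allN_iff, Nat.ble_eq, zle_iff] at hV
  obtain ⟨v1, v2, v3, v4⟩ := hV
  have hv : 0 < (ctR C).vp := div_pos (Nat.cast_pos.2 b2) (pow_pos two_pos _)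
  have h0 : ∀ a b : ℕ, 0 ≤ (a : ℝ) / 2 ^ b := fun a b =>
    div_nonneg (Nat.cast_nonneg _) (pow_pos two_pos _).le
  have h3 : 0 ≤ (ctR C).k3 := h0 _ _
  have hg : 0 ≤ (ctR C).kg := h0 _ _
  have hC := cen_sound hb hP hI
  clear hQ hI hN hb hP
  have hR : ∀ j < 7, |(evR r E).R j| ≤ 1 := fun j hj => by
    have h1 : (ef E j 0 : ℝ) ≤ 1048576 := by exact_mod_cast (b1 j hj).1
    change |(ef E j 0 : ℝ) / 2 ^ 20| ≤ 1
    rw [abs_of_nonneg (h0 _ _)]
    linarith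
  have := master he hv (aZ_ctR C) hC
    (crude (Mz r E C / 2 ^ 40) he.1 he.2.1 hR hv.le h3 q2 hg) (At_NCert _ hv.le h3 hg) q1
    (eT := fd C 14 / 2 ^ 24) (cl := clR c) (h0 _ _) ?_ fun v hv' => ?_
  · unfold CellN
    rw [e1, e2, e3]
    exact this
  · have h1 : (EEn r E (yN C) : ℝ) ≤ fd C 14 * fd C 14 * 2 ^ 84 := by
      rw [Nat.shiftLeft_eq', Nat.shiftLeft_eq, sq, Nat.mul_eq] at v3
      exact_mod_cast v3
    refine (EEn_eq r E (yN C)).trans_le ?_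
    rw [div_pow, pow_two]
    linarith
  · have a1 := Atn_le r E C
    have a2 := le_up (Atn r E C) 7
    have a3 := mul_le_mul_of_nonneg_left (WBn_le r E C c v1 v2) q1.2.2.1
    have a4 := le_up (fd C 12 * WBn E C c) 90
    have a5 : ee (evR r E) (ctR C).b = _ := EEn_eq r E (bN C)
    have a6 := le_up (fd C 13 * EEn r E (bN C)) 108
    have a7 := cvAz_le r E C c v v1 v2
    have a8 := cvLz_le r E C v
    have a9 := (Int.cast_le (R := ℝ)).2 (v4 v hv')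
    simp only [Bz, Int.ofNat_eq_natCast] at a9
    push_cast at a4 a6 a9
    rw [a5]
    change _ ≤ (fd C 0 : ℝ) / 2 ^ 24 * ((iv c 11 : ℝ) / 2 ^ 22)
    linarith

theorem chkG_NCert {r E CL : ℕ} {l : List ℕ} (he : EnvOk (evR r E)) : ∀ i,
    chkG r E CL l i = true → ∀ j, i ≤ j → j < i + l.length → CellN r (cel CL j) := by
  induction l with
  | nil => exact fun i _ j h1 h2 => absurd h2 (not_lt.2 h1)
  | cons C l ih =>
    intro i h j h1 h2
    change an (chk1 r E (cel CL i) C) (chkG r E CL l (i + 1)) = true at h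
    rw [an_eq] at h
    rcases h1.eq_or_lt with rfl | h1
    · exact cert_sound he h.1
    · exact ih _ h.2 j h1 (by rw [List.length_cons] at h2; omega)

theorem chkE_sound {r E CL i : ℕ} {l : List ℕ} (he : EnvOk (evR r E))
    (h : chkE r E CL i l = true) : ∀ j, i ≤ j → j < i + l.length → CellN r (cel CL j) := by
  simp only [chkE, frc_eq] at h
  exact chkG_NCert he i h

theorem rng_cat {P : ℕ → Prop} {a b c : ℕ} (h : ∀ j, a ≤ j → j < b → P j)
    (h' : ∀ j, b ≤ j → j < c → P j) : ∀ j, a ≤ j → j < c → P j := by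
  intro j h1 h2
  rcases le_or_gt b j with h3 | h3
  · exact h' j h3 h2
  · exact h j h1 h3

end Pool.Agent.MP_ebf981_lc.N9

end

section

namespace Pool.Agent.MP_ebf981_lc.N9

open Finset

variable {m : ℕ}

theorem sp_NLaw (φ : Fin m → Bool → ℂ) :
    ∑ y : Fin m → Bool, ∏ j, φ j (y j) = ∏ j, (φ j true + φ j false) := by
  rw [← Fintype.piFinset_univ, ← prod_univ_sum]
  simp

theorem ex_NLaw (t : ℝ) (a : Fin m → ℝ) (y : Fin m → Bool) :
    Complex.exp (((t * ell a y : ℝ) : ℂ) * Complex.I) =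
      ∏ j, Complex.exp (((t * a j * sg (y j) : ℝ) : ℂ) * Complex.I) := by
  rw [← Complex.exp_sum, ← sum_mul, ← Complex.ofReal_sum, ell, mul_sum]
  simp only [mul_assoc]

theorem two_NLaw (x : ℝ) : Complex.exp (((x * sg true : ℝ) : ℂ) * Complex.I) +
    Complex.exp (((x * sg false : ℝ) : ℂ) * Complex.I) = ((2 * Real.cos x : ℝ) : ℂ) := by
  apply Complex.ext
  · simp only [Complex.add_re, Complex.exp_ofReal_mul_I_re, Complex.ofReal_re, sg]
    simp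
    ring
  · simp only [Complex.add_im, Complex.exp_ofReal_mul_I_im, Complex.ofReal_im, sg]
    simp

theorem E_cos (t : ℝ) (a : Fin m → ℝ) :
    E (fun y => Real.cos (t * ell a y)) = ∏ i, Real.cos (t * a i) := by
  have h1 : ∑ y : Fin m → Bool, Real.cos (t * ell a y) = ∏ i, (2 * Real.cos (t * a i)) := by
    have h2 := sp_NLaw (fun j b => Complex.exp (((t * a j * sg b : ℝ) : ℂ) * Complex.I))
    simp only [← ex_NLaw, two_NLaw] at h2
    have h3 := congrArg Complex.re h2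
    rw [← Complex.ofReal_prod, Complex.ofReal_re, Complex.re_sum] at h3
    simpa only [Complex.exp_ofReal_mul_I_re] using h3
  rw [E, h1, prod_mul_distrib, prod_const, card_univ, Fintype.card_fin, ← mul_assoc, ← mul_pow]
  norm_num

theorem split_NLaw (a : Fin m → ℝ) (i : Fin m) (y : Fin m → Bool) :
    ell a y = a i * sg (y i) + ell (Function.update a i 0) y := by
  simp only [ell]
  rw [← add_sum_erase univ _ (mem_univ i), ← add_sum_erase univ _ (mem_univ i)]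
  simp only [Function.update_self, zero_mul, zero_add]
  congr 1
  exact sum_congr rfl fun j hj => by rw [Function.update_of_ne (ne_of_mem_erase hj)]

theorem inv_NLaw (a : Fin m → ℝ) (i : Fin m) (y : Fin m → Bool) :
    ell (Function.update a i 0) (fl i y) = ell (Function.update a i 0) y := by
  simp only [ell]
  refine sum_congr rfl fun j _ => ?_
  by_cases hj : j = i
  · subst hj; simp
  · rw [fl, Function.update_of_ne hj (!y i) y]

theorem hat_sin (t : ℝ) (a : Fin m → ℝ) (i : Fin m) :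
    hat (fun y => Real.sin (t * ell a y)) {i} =
      Real.sin (t * a i) * ∏ l ∈ univ.erase i, Real.cos (t * a l) := by
  have e1 : ∀ y : Fin m → Bool, Real.sin (t * ell a y) * chi {i} y =
      Real.sin (t * a i) * Real.cos (t * ell (Function.update a i 0) y) +
        Real.cos (t * a i) * (Real.sin (t * ell (Function.update a i 0) y) * sg (y i)) := by
    intro y
    rw [split_NLaw a i y, mul_add, Real.sin_add, chi, prod_singleton]
    cases y i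
    · simp [sg]
      ring
    · simp [sg]
  have e2 : E (fun y => Real.sin (t * ell (Function.update a i 0) y) * sg (y i)) = 0 := by
    have h := E_invol (fl i) (fl_fl i)
      (fun y => Real.sin (t * ell (Function.update a i 0) y) * sg (y i))
    have h2 : E (fun y => Real.sin (t * ell (Function.update a i 0) (fl i y)) * sg (fl i y i)) =
        -1 * E (fun y => Real.sin (t * ell (Function.update a i 0) y) * sg (y i)) := by
      rw [← E_mul]
      exact E_congr fun y => by rw [inv_NLaw, fl_self, sg_not]; ring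
    linarith
  rw [hat, E_congr e1, E_add, E_mul, E_mul, e2, E_cos, mul_zero, add_zero,
    ← mul_prod_erase univ _ (mem_univ i), Function.update_self, mul_zero, Real.cos_zero, one_mul]
  congr 1
  exact prod_congr rfl fun j hj => by rw [Function.update_of_ne (ne_of_mem_erase hj)]

theorem pow_le_pow_left_iff_NLaw {x y : ℝ} (hy : 0 ≤ y) (h : x ^ 2 ≤ y ^ 2) : x ≤ y :=
  (abs_le_of_sq_le_sq' h hy).2

theorem sum_NLaw {e : Ev} {a : Fin m → ℝ} (h : Tail e a) {w : ℕ → ℝ} (hw : Wv e a w) (A B C : ℝ) :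
    ∑ i, a i ^ 2 * (A + B * a i ^ 2 + C * a i ^ 4) = ∑ v ∈ range 4, w v * lx e A B C v := by
  have e1 : ∑ i, a i ^ 2 * (A + B * a i ^ 2 + C * a i ^ 4) =
      A * ∑ i, a i ^ 2 + B * ∑ i, a i ^ 4 + C * ∑ i, a i ^ 6 := by
    rw [mul_sum, mul_sum, mul_sum, ← sum_add_distrib, ← sum_add_distrib]
    exact sum_congr rfl fun i _ => by ring
  have e2 : ∑ v ∈ range 4, w v * lx e A B C v = A * ∑ v ∈ range 4, w v +
      B * ∑ v ∈ range 4, w v * vq e v + C * ∑ v ∈ range 4, w v * v3 e v := by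
    rw [mul_sum, mul_sum, mul_sum, ← sum_add_distrib, ← sum_add_distrib]
    exact sum_congr rfl fun i _ => by rw [lx]; ring
  rw [e1, e2, h.1, hw.2.1, hw.2.2.1, hw.2.2.2]

theorem cb_NLaw {c s p q : ℝ} (hc : 0 ≤ c) (hs : s ^ 2 + c ^ 2 = 1)
    (h1 : Real.exp (2 * p) ≤ 1 - 1 * s ^ 2) (h2 : 1 - 1 * s ^ 2 ≤ Real.exp (2 * q)) :
    Real.exp p ≤ c ∧ c ≤ Real.exp q := by
  have e : ∀ x : ℝ, Real.exp (2 * x) = Real.exp x ^ 2 := fun x => by
    rw [two_mul, Real.exp_add, pow_two]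
  rw [e] at h1 h2
  exact ⟨pow_le_pow_left_iff_NLaw hc (by linarith),
    pow_le_pow_left_iff_NLaw (Real.exp_pos q).le (by linarith)⟩

theorem law_row {e : Ev} {a : Fin m → ℝ} (h : Tail e a) {w : ℕ → ℝ} (hw : Wv e a w) {j : ℕ}
    {A B C η gA gB gC gη E0 x0 : ℝ} (h1 : F1 1 (e.t j) e.X A B C η)
    (h3 : F3 (e.t j) e.X gA gB gC gη) (hhi : ∀ v < 4, Real.exp (lx e (A + η) B C v) ≤ e.hi j v)
    (hE : 0 ≤ E0) (hE' : E0 ≤ Real.exp x0)
    (hlo : ∀ v < 4, e.lo j v ≤ E0 * (1 + lx e (A - η) B C v - x0)) :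
    ∑ v ∈ range 4, w v * e.lo j v ≤ E (fun y => Real.cos (e.t j * ell a y)) ∧
      E (fun y => Real.cos (e.t j * ell a y)) ≤ ∑ v ∈ range 4, w v * e.hi j v := by
  have hb : ∀ i, Real.exp (a i ^ 2 * (A - η + B * a i ^ 2 + C * a i ^ 4)) ≤ Real.cos (e.t j * a i) ∧
      Real.cos (e.t j * a i) ≤ Real.exp (a i ^ 2 * (A + η + B * a i ^ 2 + C * a i ^ 4)) := fun i => by
    have h4 := h1 (a i) (h.2.1 i)
    rw [mul_assoc 2, mul_assoc 2] at h4
    exact cb_NLaw (h3 (a i) (h.2.1 i)).1 (Real.sin_sq_add_cos_sq _) h4.1 h4.2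
  rw [E_cos]
  constructor
  · have p1 : Real.exp (∑ v ∈ range 4, w v * lx e (A - η) B C v) ≤ ∏ i, Real.cos (e.t j * a i) := by
      rw [← sum_NLaw h hw, Real.exp_sum]
      exact prod_le_prod (fun i _ => (Real.exp_pos _).le) fun i _ => (hb i).1
    refine le_trans ?_ p1
    have p2 : ∑ v ∈ range 4, w v * e.lo j v ≤
        E0 * (1 + ∑ v ∈ range 4, w v * lx e (A - η) B C v - x0) := by
      have p3 : E0 * (1 + ∑ v ∈ range 4, w v * lx e (A - η) B C v - x0) =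
          ∑ v ∈ range 4, w v * (E0 * (1 + lx e (A - η) B C v - x0)) := by
        have p4 : ∑ v ∈ range 4, w v * (E0 * (1 + lx e (A - η) B C v - x0)) =
            E0 * ((1 - x0) * ∑ v ∈ range 4, w v + ∑ v ∈ range 4, w v * lx e (A - η) B C v) := by
          rw [mul_sum, ← sum_add_distrib, mul_sum]
          exact sum_congr rfl fun v _ => by ring
        rw [p4, hw.2.1]; ring
      rw [p3]
      exact sum_le_sum fun v hv =>
        mul_le_mul_of_nonneg_left (hlo v (mem_range.1 hv)) (hw.1 v (mem_range.1 hv))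
    refine p2.trans ?_
    generalize ∑ v ∈ range 4, w v * lx e (A - η) B C v = x
    have q1 : Real.exp x = Real.exp x0 * Real.exp (x - x0) := by
      rw [← Real.exp_add]; congr 1; ring
    have q2 := Real.add_one_le_exp (x - x0)
    have q3 := Real.exp_pos (x - x0)
    calc E0 * (1 + x - x0) ≤ E0 * Real.exp (x - x0) :=
          mul_le_mul_of_nonneg_left (by linarith) hE
      _ ≤ Real.exp x0 * Real.exp (x - x0) := mul_le_mul_of_nonneg_right hE' q3.le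
      _ = Real.exp x := q1.symm
  · have p1 : ∏ i, Real.cos (e.t j * a i) ≤ Real.exp (∑ v ∈ range 4, w v * lx e (A + η) B C v) := by
      rw [← sum_NLaw h hw, Real.exp_sum]
      exact prod_le_prod (fun i _ => (h3 (a i) (h.2.1 i)).1) fun i _ => (hb i).2
    refine p1.trans ?_
    have p2 := convexOn_exp.map_sum_le (t := range 4) (w := w) (p := fun v => lx e (A + η) B C v)
      (fun v hv => hw.1 v (mem_range.1 hv)) hw.2.1 (fun _ _ => Set.mem_univ _)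
    simp only [smul_eq_mul] at p2
    exact p2.trans (sum_le_sum fun v hv =>
      mul_le_mul_of_nonneg_left (hhi v (mem_range.1 hv)) (hw.1 v (mem_range.1 hv)))

theorem cosb_NLaw (t : ℝ) (a : Fin m → ℝ) : |E (fun y => Real.cos (t * ell a y))| ≤ 1 := by
  rw [E_cos, abs_prod]
  exact prod_le_one (fun _ _ => abs_nonneg _) fun _ _ => Real.abs_cos_le_one _

theorem law_triv {e : Ev} {a : Fin m → ℝ} {w : ℕ → ℝ} (hw : Wv e a w) {j : ℕ}
    (h : ∀ v < 4, e.lo j v ≤ -1 ∧ 1 ≤ e.hi j v) :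
    ∑ v ∈ range 4, w v * e.lo j v ≤ E (fun y => Real.cos (e.t j * ell a y)) ∧
      E (fun y => Real.cos (e.t j * ell a y)) ≤ ∑ v ∈ range 4, w v * e.hi j v := by
  have hc := abs_le.1 (cosb_NLaw (e.t j) a)
  constructor
  · refine le_trans ?_ hc.1
    have p : ∑ v ∈ range 4, w v * (-1) = -1 := by rw [← sum_mul, hw.2.1, one_mul]
    rw [← p]
    exact sum_le_sum fun v hv =>
      mul_le_mul_of_nonneg_left (h v (mem_range.1 hv)).1 (hw.1 v (mem_range.1 hv))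
  · refine hc.2.trans ?_
    have p : ∑ v ∈ range 4, w v * 1 = 1 := by rw [← sum_mul, hw.2.1, one_mul]
    rw [← p]
    exact sum_le_sum fun v hv =>
      mul_le_mul_of_nonneg_left (h v (mem_range.1 hv)).2 (hw.1 v (mem_range.1 hv))

theorem sin_row {e : Ev} {a : Fin m → ℝ} (h : Tail e a) {j : ℕ} {gA gB gC gη : ℝ}
    (h3 : F3 (e.t j) e.X gA gB gC gη) (hg : 0 ≤ gη)
    (hc : |E (fun y => Real.cos (e.t j * ell a y)) - e.pm j| ≤ e.pr j)
    (het : |e.al j - e.pm j * gA| + |e.be j - e.pm j * gB| * e.X + |e.ga j - e.pm j * gC| * e.X ^ 2 +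
      e.pr j * (|gA| + |gB| * e.X + |gC| * e.X ^ 2) + (|e.pm j| + e.pr j) * gη ≤ e.et j) (i : Fin m) :
    |hat (fun y => Real.sin (e.t j * ell a y)) {i} -
      a i * (e.al j + e.be j * a i ^ 2 + e.ga j * a i ^ 4)| ≤ e.et j * |a i| := by
  rw [E_cos, ← mul_prod_erase univ _ (mem_univ i)] at hc
  rw [hat_sin]
  have hP : 0 ≤ ∏ l ∈ univ.erase i, Real.cos (e.t j * a l) :=
    prod_nonneg fun l _ => (h3 (a l) (h.2.1 l)).1
  obtain ⟨hc0, hs⟩ := h3 (a i) (h.2.1 i)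
  have hX := h.2.1 i
  generalize ∏ l ∈ univ.erase i, Real.cos (e.t j * a l) = P at hc hP ⊢
  generalize Real.cos (e.t j * a i) = c at hc hc0 hs
  generalize Real.sin (e.t j * a i) = s at hs ⊢
  generalize a i = x at hs hX ⊢
  generalize e.pm j = pm at hc het
  generalize e.pr j = pr at hc het
  generalize e.al j = al at het ⊢
  generalize e.be j = be at het ⊢
  generalize e.ga j = ga at het ⊢
  generalize e.et j = et at het ⊢
  generalize e.X = X at het hX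
  have hx2 : 0 ≤ x ^ 2 := sq_nonneg x
  have hx4 : x ^ 4 ≤ X ^ 2 := by
    have : x ^ 4 = (x ^ 2) ^ 2 := by ring
    rw [this]; exact pow_le_pow_left₀ hx2 hX 2
  have hx4' : 0 ≤ x ^ 4 := by positivity
  have poly : ∀ p q r : ℝ, |p + q * x ^ 2 + r * x ^ 4| ≤ |p| + |q| * X + |r| * X ^ 2 := by
    intro p q r
    refine (abs_add_three _ _ _).trans (add_le_add (add_le_add le_rfl ?_) ?_)
    · rw [abs_mul, abs_of_nonneg hx2]; exact mul_le_mul_of_nonneg_left hX (abs_nonneg _)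
    · rw [abs_mul, abs_of_nonneg hx4']; exact mul_le_mul_of_nonneg_left hx4 (abs_nonneg _)
  have hpr : 0 ≤ pr := (abs_nonneg _).trans hc
  have hF : c * P ≤ |pm| + pr := by
    have := abs_le.1 hc
    linarith [le_abs_self pm, this.2]
  have id1 : s * P - x * (al + be * x ^ 2 + ga * x ^ 4) =
      (s - x * (gA + gB * x ^ 2 + gC * x ^ 4) * c) * P +
        x * ((gA + gB * x ^ 2 + gC * x ^ 4) * (c * P - pm)) +
        -(x * ((al - pm * gA) + (be - pm * gB) * x ^ 2 + (ga - pm * gC) * x ^ 4)) := by ring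
  have b1 : |(s - x * (gA + gB * x ^ 2 + gC * x ^ 4) * c) * P| ≤ (|pm| + pr) * gη * |x| := by
    rw [abs_mul, abs_of_nonneg hP]
    calc _ ≤ gη * |x| * c * P := mul_le_mul_of_nonneg_right hs hP
      _ = gη * |x| * (c * P) := by ring
      _ ≤ gη * |x| * (|pm| + pr) :=
        mul_le_mul_of_nonneg_left hF (mul_nonneg hg (abs_nonneg _))
      _ = _ := by ring
  have b2 : |x * ((gA + gB * x ^ 2 + gC * x ^ 4) * (c * P - pm))| ≤
      pr * (|gA| + |gB| * X + |gC| * X ^ 2) * |x| := by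
    rw [abs_mul, abs_mul, mul_comm, mul_comm pr]
    exact mul_le_mul_of_nonneg_right (mul_le_mul (poly _ _ _) hc (abs_nonneg _)
      ((abs_nonneg _).trans (poly gA gB gC))) (abs_nonneg _)
  have b3 : |-(x * ((al - pm * gA) + (be - pm * gB) * x ^ 2 + (ga - pm * gC) * x ^ 4))| ≤
      (|al - pm * gA| + |be - pm * gB| * X + |ga - pm * gC| * X ^ 2) * |x| := by
    rw [abs_neg, abs_mul, mul_comm]
    exact mul_le_mul_of_nonneg_right (poly _ _ _) (abs_nonneg _)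
  rw [id1]
  refine (abs_add_three _ _ _).trans ?_
  have b4 := mul_le_mul_of_nonneg_right het (abs_nonneg x)
  linarith

theorem cos_triv (t : ℝ) (a : Fin m → ℝ) : |E (fun y => Real.cos (t * ell a y))| ≤ 1 := by
  exact cosb_NLaw t a

theorem sin_triv (t : ℝ) (a : Fin m → ℝ) (i : Fin m) :
    |hat (fun y => Real.sin (t * ell a y)) {i}| ≤ |t| * |a i| := by
  rw [hat_sin, abs_mul, ← abs_mul t]
  refine le_trans (mul_le_of_le_one_right (abs_nonneg _) ?_) (Real.abs_sin_le_abs)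
  rw [abs_prod]
  exact prod_le_one (fun _ _ => abs_nonneg _) fun _ _ => Real.abs_cos_le_one _

end Pool.Agent.MP_ebf981_lc.N9

end

section

namespace Pool.Agent.MP_ebf981_lc.N9

open Finset

variable {m : ℕ}

theorem atan_NTRow (x : ℝ) : |Real.arctan x| ≤ |x| := by
  have key : ∀ y : ℝ, 0 ≤ y → Real.arctan y ≤ y := fun y hy => by
    have h0 : 0 ≤ Real.arctan y := by
      rw [← Real.arctan_zero]; exact Real.arctan_mono hy
    have := Real.le_tan h0 (Real.arctan_lt_pi_div_two y)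
    rwa [Real.tan_arctan] at this
  rcases le_total 0 x with h | h
  · have h0 : 0 ≤ Real.arctan x := by
      rw [← Real.arctan_zero]; exact Real.arctan_mono h
    rw [abs_of_nonneg h, abs_of_nonneg h0]; exact key x h
  · have h0 : Real.arctan x ≤ 0 := by
      rw [← Real.arctan_zero]; exact Real.arctan_mono h
    have := key (-x) (by linarith)
    rw [Real.arctan_neg] at this
    rw [abs_of_nonpos h, abs_of_nonpos h0]; exact this

theorem polar_NTRow {p q K : ℝ} (hp : 0 ≤ p) (hK : 0 ≤ K) (hq : |q| ≤ K * p) :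
    ∃ r ψ : ℝ, 0 ≤ r ∧ |ψ| ≤ K ∧ p = r * Real.cos ψ ∧ q = r * Real.sin ψ := by
  rcases hp.eq_or_lt with h | h
  · refine ⟨0, 0, le_rfl, by simpa using hK, by simp [← h], ?_⟩
    rw [← h, mul_zero] at hq
    simpa using hq
  · have hc := Real.cos_arctan_pos (q / p)
    refine ⟨p / Real.cos (Real.arctan (q / p)), Real.arctan (q / p), by positivity, ?_, ?_, ?_⟩
    · refine (atan_NTRow _).trans ?_
      rw [abs_div, abs_of_pos h, div_le_iff₀ h]; exact hq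
    · field_simp
    · have ht := Real.tan_arctan (q / p)
      rw [Real.tan_eq_sin_div_cos] at ht
      rw [div_mul_eq_mul_div, mul_div_assoc, ht]; field_simp

theorem coord_NTRow {u s β K : ℝ} (hK : 0 ≤ K) (hp : 0 ≤ u * Real.cos β + s * Real.sin β)
    (hq : |s * Real.cos β - u * Real.sin β| ≤ K * (u * Real.cos β + s * Real.sin β)) :
    ∃ r φ : ℝ, 0 ≤ r ∧ |φ - β| ≤ K ∧ u = r * Real.cos φ ∧ s = r * Real.sin φ := by
  obtain ⟨r, ψ, h0, h1, h2, h3⟩ := polar_NTRow hp hK hq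
  have e := Real.sin_sq_add_cos_sq β
  refine ⟨r, β + ψ, h0, by simpa using h1, ?_, ?_⟩
  · rw [Real.cos_add]
    linear_combination (Real.cos β) * h2 - (Real.sin β) * h3 - u * e
  · rw [Real.sin_add]
    linear_combination (Real.sin β) * h2 + (Real.cos β) * h3 - s * e

theorem cplx_NTRow (ρ t : ℝ) (a r φ : Fin m → ℝ) (h1 : ∀ k, Real.cos (t * a k) = r k * Real.cos (φ k))
    (h2 : ∀ k, ρ * Real.sin (t * a k) = r k * Real.sin (φ k)) (x : Fin m → Bool) :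
    ∑ y, (ker ((1 - ρ) / 2) x y : ℂ) * Complex.exp ((t * ell a y : ℝ) * Complex.I) =
      (∏ k, r k : ℝ) * Complex.exp ((ell φ x : ℝ) * Complex.I) := by
  have e1 : ∀ y : Fin m → Bool, (ker ((1 - ρ) / 2) x y : ℂ) *
      Complex.exp ((t * ell a y : ℝ) * Complex.I) =
      ∏ k, (((if y k = x k then 1 - (1 - ρ) / 2 else (1 - ρ) / 2 : ℝ) : ℂ) *
        Complex.exp ((t * (a k * sg (y k)) : ℝ) * Complex.I)) := fun y => by
    rw [prod_mul_distrib, ← Complex.exp_sum, ker, Complex.ofReal_prod, ell, mul_sum,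
      Complex.ofReal_sum, sum_mul]
  have e2 : ((∏ k, r k : ℝ) : ℂ) * Complex.exp ((ell φ x : ℝ) * Complex.I) =
      ∏ k, ((r k : ℂ) * Complex.exp ((φ k * sg (x k) : ℝ) * Complex.I)) := by
    rw [prod_mul_distrib, ← Complex.exp_sum, Complex.ofReal_prod, ell, Complex.ofReal_sum, sum_mul]
  rw [sum_congr rfl fun y _ => e1 y, e2, ← Fintype.piFinset_univ,
    ← prod_univ_sum (fun _ => (univ : Finset Bool)) (fun k b =>
      (((if b = x k then 1 - (1 - ρ) / 2 else (1 - ρ) / 2 : ℝ) : ℂ) *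
        Complex.exp ((t * (a k * sg b) : ℝ) * Complex.I)))]
  refine prod_congr rfl fun k _ => ?_
  have a1 := h1 k
  have a2 := h2 k
  rw [Fintype.sum_bool]
  apply Complex.ext
  · simp only [Complex.add_re, Complex.re_ofReal_mul, Complex.exp_ofReal_mul_I_re]
    cases x k
    · simp only [sg, Bool.true_eq_false, Bool.false_eq_true, if_true, if_false, mul_one, mul_neg,
        Real.cos_neg]
      linear_combination a1
    · simp only [sg, Bool.true_eq_false, Bool.false_eq_true, if_true, if_false, mul_one, mul_neg,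
        Real.cos_neg]
      linear_combination a1
  · simp only [Complex.add_im, Complex.im_ofReal_mul, Complex.exp_ofReal_mul_I_im]
    cases x k
    · simp only [sg, Bool.true_eq_false, Bool.false_eq_true, if_true, if_false, mul_one, mul_neg,
        Real.sin_neg]
      linear_combination -a2
    · simp only [sg, Bool.true_eq_false, Bool.false_eq_true, if_true, if_false, mul_one, mul_neg,
        Real.sin_neg]
      linear_combination a2

theorem prod_NTRow (ρ t : ℝ) (a r φ : Fin m → ℝ) (h1 : ∀ k, Real.cos (t * a k) = r k * Real.cos (φ k))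
    (h2 : ∀ k, ρ * Real.sin (t * a k) = r k * Real.sin (φ k)) (S : ℕ) (x : Fin m → Bool) :
    TT ρ (fun y => cs S (t * ell a y)) x = (∏ k, r k) * cs S (ell φ x) := by
  have h := cplx_NTRow ρ t a r φ h1 h2 x
  unfold TT T cs
  split_ifs
  · have := congrArg Complex.re h
    simpa only [Complex.re_sum, Complex.re_ofReal_mul, Complex.exp_ofReal_mul_I_re] using this
  · have := congrArg Complex.im h
    simpa only [Complex.im_sum, Complex.im_ofReal_mul, Complex.exp_ofReal_mul_I_im] using this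

theorem pt_NTRow {M R : ℝ} (hM : 0 ≤ M) (hR : 0 ≤ R) (S : ℕ) (A B : ℝ) :
    (M * cs S A - R * cs S B) ^ 2 ≤ (M - R) ^ 2 + M * R * (A - B) ^ 2 := by
  have h := Real.one_sub_sq_div_two_le_cos (x := A - B)
  rw [Real.cos_sub] at h
  have h' := mul_le_mul_of_nonneg_left h (mul_nonneg hM hR)
  have e : (M * Real.cos A - R * Real.cos B) ^ 2 + (M * Real.sin A - R * Real.sin B) ^ 2 =
      M ^ 2 + R ^ 2 - 2 * (M * R * (Real.cos A * Real.cos B + Real.sin A * Real.sin B)) := by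
    linear_combination M ^ 2 * Real.sin_sq_add_cos_sq A + R ^ 2 * Real.sin_sq_add_cos_sq B
  have s1 := sq_nonneg (M * Real.cos A - R * Real.cos B)
  have s2 := sq_nonneg (M * Real.sin A - R * Real.sin B)
  unfold cs
  split_ifs <;> nlinarith

theorem avg_NTRow {e : Ev} {a : Fin m → ℝ} (h : Tail e a) (A B C : ℝ) :
    (∃ v < 4, lx e A B C v ≤ ∑ k, a k ^ 2 * (A + B * a k ^ 2 + C * a k ^ 4)) ∧
      ∃ v < 4, ∑ k, a k ^ 2 * (A + B * a k ^ 2 + C * a k ^ 4) ≤ lx e A B C v := by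
  obtain ⟨w, w0, w1, w2, w3⟩ := exists_Wv h
  have e1 : ∑ k, a k ^ 2 * (A + B * a k ^ 2 + C * a k ^ 4) =
      ∑ v ∈ range 4, w v * lx e A B C v := by
    have f1 : ∑ k, a k ^ 2 * (A + B * a k ^ 2 + C * a k ^ 4) =
        A * ∑ k, a k ^ 2 + B * ∑ k, a k ^ 4 + C * ∑ k, a k ^ 6 := by
      simp only [mul_sum, ← sum_add_distrib]
      exact sum_congr rfl fun k _ => by ring
    have f2 : ∑ v ∈ range 4, w v * lx e A B C v = A * ∑ v ∈ range 4, w v +
        B * ∑ v ∈ range 4, w v * vq e v + C * ∑ v ∈ range 4, w v * v3 e v := by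
      simp only [mul_sum, ← sum_add_distrib, lx]
      exact sum_congr rfl fun k _ => by ring
    rw [f1, f2, w1, w2, w3, h.1]
  rw [e1]
  constructor
  · obtain ⟨v, hv, hm⟩ := exists_min_image (range 4) (lx e A B C) ⟨0, by simp⟩
    refine ⟨v, mem_range.1 hv, ?_⟩
    calc lx e A B C v = ∑ u ∈ range 4, w u * lx e A B C v := by rw [← sum_mul, w1, one_mul]
      _ ≤ _ := sum_le_sum fun u hu => mul_le_mul_of_nonneg_left (hm u hu) (w0 u (mem_range.1 hu))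
  · obtain ⟨v, hv, hm⟩ := exists_max_image (range 4) (lx e A B C) ⟨0, by simp⟩
    refine ⟨v, mem_range.1 hv, ?_⟩
    calc _ ≤ ∑ u ∈ range 4, w u * lx e A B C v :=
          sum_le_sum fun u hu => mul_le_mul_of_nonneg_left (hm u hu) (w0 u (mem_range.1 hu))
      _ = _ := by rw [← sum_mul, w1, one_mul]

theorem T_row {e : Ev} {a : Fin m → ℝ} (h : Tail e a) {j : ℕ} {A B C η c' δ ef dR mi : ℝ}
    (h1 : F1 (1 - e.ρ ^ 2) (e.t j) e.X A B C η) (h2 : F2 e.ρ (e.t j) e.X c' δ ef) (r0 : 0 ≤ e.ρ)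
    (r1 : e.ρ ≤ 1) (hef : 0 ≤ ef) (hR : 0 ≤ e.R j)
    (hlo : ∀ v < 4, e.R j - dR ≤ Real.exp (lx e (A - η) B C v))
    (hhi : 1 ≤ e.R j + dR ∨ ∀ v < 4, Real.exp (lx e (A + η) B C v) ≤ e.R j + dR)
    (hmi : |e.c j - c' - e.d j * e.isv * e.lam| + |e.d j * e.isv - δ| * e.X ≤ mi)
    (her : dR ^ 2 + e.R j * (e.R j + dR) * (ef + mi) ^ 2 ≤ e.er j ^ 2) : TOj e a j := by
  have hX := h.2.1
  have hc : ∀ k, ∃ r φ : ℝ, 0 ≤ r ∧ |φ - a k * (c' + δ * a k ^ 2)| ≤ ef * |a k| ∧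
      Real.cos (e.t j * a k) = r * Real.cos φ ∧ e.ρ * Real.sin (e.t j * a k) = r * Real.sin φ :=
    fun k => coord_NTRow (mul_nonneg hef (abs_nonneg _)) (h2 (a k) (hX k)).1 (h2 (a k) (hX k)).2
  choose r φ p0 p1 p2 p3 using hc
  have rsq : ∀ k, r k ^ 2 = 1 - (1 - e.ρ ^ 2) * Real.sin (e.t j * a k) ^ 2 := fun k => by
    have s1 := Real.sin_sq_add_cos_sq (e.t j * a k)
    have s2 := Real.sin_sq_add_cos_sq (φ k)
    have q2 : Real.cos (e.t j * a k) ^ 2 = (r k * Real.cos (φ k)) ^ 2 := by rw [p2 k]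
    have q3 : (e.ρ * Real.sin (e.t j * a k)) ^ 2 = (r k * Real.sin (φ k)) ^ 2 := by rw [p3 k]
    linear_combination s1 - r k ^ 2 * s2 - q2 - q3
  have ex2 : ∀ x y : ℝ, Real.exp (2 * x * y) = Real.exp (x * y) ^ 2 := fun x y => by
    rw [← Real.exp_nat_mul]; congr 1; push_cast; ring
  have M0 : 0 ≤ ∏ k, r k := prod_nonneg fun k _ => p0 k
  have Mlo : e.R j - dR ≤ ∏ k, r k := by
    obtain ⟨v, hv, hv'⟩ := (avg_NTRow h (A - η) B C).1
    refine (hlo v hv).trans ((Real.exp_le_exp.2 hv').trans ?_)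
    rw [Real.exp_sum]
    refine prod_le_prod (fun k _ => (Real.exp_pos _).le) fun k _ => ?_
    have := (h1 (a k) (hX k)).1
    rw [← rsq, ex2] at this
    exact (sq_le_sq₀ (Real.exp_pos _).le (p0 k)).1 this
  have Mhi : ∏ k, r k ≤ e.R j + dR := by
    rcases hhi with hh | hh
    · refine (prod_le_one (fun k _ => p0 k) fun k _ => ?_).trans hh
      have k1 : 0 ≤ 1 - e.ρ ^ 2 := by nlinarith
      have k2 := mul_nonneg k1 (sq_nonneg (Real.sin (e.t j * a k)))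
      have k3 : r k ^ 2 ≤ 1 ^ 2 := by rw [rsq]; linarith
      exact (sq_le_sq₀ (p0 k) zero_le_one).1 k3
    · obtain ⟨v, hv, hv'⟩ := (avg_NTRow h (A + η) B C).2
      refine le_trans ?_ ((Real.exp_le_exp.2 hv').trans (hh v hv))
      rw [Real.exp_sum]
      refine prod_le_prod (fun k _ => p0 k) fun k _ => ?_
      have := (h1 (a k) (hX k)).2
      rw [← rsq, ex2] at this
      exact (sq_le_sq₀ (p0 k) (Real.exp_pos _).le).1 this
  obtain ⟨g, hg⟩ : ∃ g : Fin m → ℝ, ∀ k, g k = φ k - (e.c j * a k + e.d j * uv e a k) :=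
    ⟨_, fun _ => rfl⟩
  have gl : ∀ y, ell φ y - (e.c j * ell a y + e.d j * ell (uv e a) y) = ell g y := fun y => by
    simp only [ell, mul_sum, ← sum_add_distrib, ← sum_sub_distrib, hg]
    exact sum_congr rfl fun k _ => by ring
  have gb : ∀ k, g k ^ 2 ≤ (ef + mi) ^ 2 * a k ^ 2 := fun k => by
    have u1 : g k = (φ k - a k * (c' + δ * a k ^ 2)) -
        a k * ((e.c j - c' - e.d j * e.isv * e.lam) + (e.d j * e.isv - δ) * a k ^ 2) := by
      rw [hg, uv]; ring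
    have u2 : |(e.c j - c' - e.d j * e.isv * e.lam) + (e.d j * e.isv - δ) * a k ^ 2| ≤ mi := by
      refine (abs_add_le _ _).trans (le_trans (add_le_add le_rfl ?_) hmi)
      rw [abs_mul, abs_of_nonneg (sq_nonneg (a k))]
      exact mul_le_mul_of_nonneg_left (hX k) (abs_nonneg _)
    have u3 : |g k| ≤ (ef + mi) * |a k| := by
      rw [u1]
      refine (abs_sub _ _).trans ?_
      rw [abs_mul]
      have := mul_le_mul_of_nonneg_left u2 (abs_nonneg (a k))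
      linarith [p1 k]
    have u4 := pow_le_pow_left₀ (abs_nonneg _) u3 2
    rwa [mul_pow, sq_abs, sq_abs] at u4
  have gs : ∑ k, g k ^ 2 ≤ (ef + mi) ^ 2 := by
    refine (sum_le_sum fun k _ => gb k).trans ?_
    rw [← mul_sum, h.1, mul_one]
  intro S
  have f1 : ∀ y, (TT e.ρ (fun y' => cs S (e.t j * ell a y')) y -
      e.R j * cs S (e.c j * ell a y + e.d j * ell (uv e a) y)) ^ 2 ≤
      (∏ k, r k - e.R j) ^ 2 + (∏ k, r k) * e.R j * ell g y ^ 2 := fun y => by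
    rw [prod_NTRow e.ρ (e.t j) a r φ p2 p3, ← gl]
    exact pt_NTRow M0 hR S _ _
  refine (E_mono f1).trans (le_trans ?_ her)
  rw [E_add, E_const, E_mul, ell_sq]
  refine add_le_add (sq_le_sq' (by linarith) (by linarith)) ?_
  rw [mul_comm (∏ k, r k)]
  exact mul_le_mul (mul_le_mul_of_nonneg_left Mhi hR) gs (sum_nonneg fun k _ => sq_nonneg _)
    (mul_nonneg hR (M0.trans Mhi))

theorem T_triv {e : Ev} (a : Fin m → ℝ) {j : ℕ} (r0 : 0 ≤ e.ρ) (r1 : e.ρ ≤ 1) (hR : e.R j = 0)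
    (her : 1 ≤ e.er j) : TOj e a j := by
  intro S
  have c1 : ∀ θ, -1 ≤ cs S θ ∧ cs S θ ≤ 1 := fun θ => by
    unfold cs
    split_ifs
    · exact ⟨Real.neg_one_le_cos _, Real.cos_le_one _⟩
    · exact ⟨Real.neg_one_le_sin _, Real.sin_le_one _⟩
  have e0 : 0 ≤ (1 - e.ρ) / 2 := by linarith
  have e1 : (1 - e.ρ) / 2 ≤ 1 := by linarith
  have f1 : ∀ y, (TT e.ρ (fun y' => cs S (e.t j * ell a y')) y -
      e.R j * cs S (e.c j * ell a y + e.d j * ell (uv e a) y)) ^ 2 ≤ 1 := fun y => by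
    have a1 := T_le_one e0 e1 (F := fun y' => cs S (e.t j * ell a y')) (fun y => (c1 _).2) y
    have a2 := T_le_one e0 e1
      (F := fun y' => -1 * cs S (e.t j * ell a y') + 0 * cs S (e.t j * ell a y'))
      (fun y => by linarith [(c1 (e.t j * ell a y)).1]) y
    rw [T_lin] at a2
    rw [hR, zero_mul, sub_zero, TT]
    nlinarith
  refine (E_mono f1).trans ?_
  rw [E_const]
  nlinarith

end Pool.Agent.MP_ebf981_lc.N9

end

section

namespace Pool.Agent.MP_ebf981_lc.N9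

open Finset

theorem abs_NEnv {x y c : ℝ} (hc : 0 < c) (h : x = y / c) : |x| = |y| / c := by
  rw [h, abs_div, abs_of_pos hc]

theorem nn_NEnv (n k : ℕ) : 0 ≤ (n : ℝ) / 2 ^ k := by positivity

theorem lp_NEnv (r F E j v : ℕ) : (lp F E j v : ℝ) / 2 ^ 42 =
    lx (evR r E) (fi F j 1 / 2 ^ 20 + ff F j 4 / 2 ^ 24) (fi F j 2 / 2 ^ 20) (fi F j 3 / 2 ^ 16) v := by
  simp only [lp, lv, lx, Int.ofNat_eq_natCast]
  push_cast
  rw [vqn_eq r, v3z_eq r]
  ring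

theorem lm_NEnv (r F E j v : ℕ) : (lm F E j v : ℝ) / 2 ^ 42 =
    lx (evR r E) (fi F j 1 / 2 ^ 20 - ff F j 4 / 2 ^ 24) (fi F j 2 / 2 ^ 20) (fi F j 3 / 2 ^ 16) v := by
  simp only [lm, lv, lx, Int.ofNat_eq_natCast, Int.negOfNat_eq]
  push_cast
  rw [vqn_eq r, v3z_eq r]
  ring

theorem zmin_NEnv (a b : ℤ) : zmin a b = min a b := by
  rw [zmin, ifb_eq, min_def]
  simp only [zle_iff]

theorem exl_NEnv (g : ℕ → ℤ) {v : ℕ} (hv : v < 4) :
    (exl (zmin (zmin (g 0) (g 1)) (zmin (g 2) (g 3))) : ℝ) ≤ Real.exp (g v / 2 ^ 42) * 2 ^ 56 := by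
  have h : zmin (zmin (g 0) (g 1)) (zmin (g 2) (g 3)) ≤ g v := by
    simp only [zmin_NEnv]
    interval_cases v <;> omega
  refine (exl_le _).trans ?_
  gcongr

theorem inv_NEnv {x h q : ℝ} (q0 : 0 ≤ q) (h1 : q ≤ Real.exp (-x) * 2 ^ 56)
    (h2 : 1208925819614629174706176 ≤ h * q) : Real.exp x ≤ h / 2 ^ 24 := by
  have h0 : 0 ≤ h := by
    by_contra h0
    nlinarith [mul_nonneg (neg_nonneg.2 (not_le.1 h0).le) q0]
  have h3 := mul_le_mul_of_nonneg_left (h2.trans (mul_le_mul_of_nonneg_left h1 h0))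
    (Real.exp_pos x).le
  have h4 : Real.exp x * (h * (Real.exp (-x) * 2 ^ 56)) = h * 2 ^ 56 := by
    rw [Real.exp_neg]
    field_simp
  rw [h4] at h3
  linarith

theorem envT_NEnv {r F E j m : ℕ} (hr : r ≤ 256) (hT : FamT r F) (h0 : fd F 0 = fd E 0)
    (h1 : fd F 1 = fd E 4) (hj : j < 7) (h : envT F E j = true) {a : Fin m → ℝ}
    (ha : Tail (evR r E) a) : TOj (evR r E) a j := by
  have r0 : 0 ≤ (evR r E).ρ := by simp only [evR]; positivity
  have r1 : (evR r E).ρ ≤ 1 := by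
    have : (r : ℝ) ≤ 256 := by exact_mod_cast hr
    simp only [evR]
    linarith
  rw [envT, ifz_eq] at h
  split_ifs at h with hf
  · simp only [an_eq, Nat.beq_eq, Nat.ble_eq] at h
    have k : (16777216 : ℝ) ≤ ef E j 3 := by exact_mod_cast h.2
    refine T_triv a r0 r1 (by simp only [evR, h.1]; simp) ?_
    simp only [evR]
    linarith
  obtain ⟨f1, f2⟩ := hT j hj hf
  rw [h0, h1] at f1 f2
  simp only [an_eq, Nat.ble_eq, ifb_eq, Nat.shiftLeft_eq', Nat.shiftLeft_eq, sq, Nat.mul_eq] at h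
  obtain ⟨k1, k2, k3⟩ := h
  refine T_row (dR := ef E j 18 / 2 ^ 24) (mi := mis F E j / 2 ^ 49) ha
    (by simp only [evR]; exact f1) (by simp only [evR]; exact f2) r0 r1
    (nn_NEnv _ _) (nn_NEnv _ _) (fun v hv => ?_) ?_ (le_of_eq ?_) ?_
  · have k4 := (Nat.cast_le (α := ℝ)).2 k1
    have k5 := exl_NEnv (lm F E j) hv
    have k6 : (16 * ef E j 0 : ℝ) ≤ ((16 * ef E j 0 - ef E j 18 : ℕ) : ℝ) + ef E j 18 := by
      exact_mod_cast le_tsub_add
    rw [lm_NEnv r] at k5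
    rw [Nat.cast_mul, Nat.cast_ofNat] at k4
    simp only [evR] at k5 ⊢
    linarith
  · split_ifs at k2 with k
    · have k4 : (16777216 : ℝ) ≤ 16 * ef E j 0 + ef E j 18 := by exact_mod_cast k
      refine Or.inl ?_
      simp only [evR]
      linarith
    refine Or.inr fun v hv => ?_
    have k4 := (Nat.cast_le (α := ℝ)).2 (Nat.ble_eq ▸ k2)
    have k5 := exl_NEnv (fun v => -lp F E j v) hv
    rw [Int.cast_neg, neg_div, lp_NEnv r] at k5
    rw [Nat.cast_mul, Nat.cast_ofNat] at k4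
    refine (inv_NEnv (Nat.cast_nonneg _) k5 k4).trans_eq ?_
    simp only [evR]
    push_cast
    ring
  · simp only [evR, mis, Int.ofNat_eq_natCast]
    push_cast [Nat.cast_natAbs]
    rw [abs_NEnv (c := 2 ^ 49) (x := _ - _ * _) (y := 536870912 * (ei E j 1 - fi F j 5) -
        ei E j 2 * (fd E 3 * (fd E 1 + fd E 2))) (by positivity) (by ring),
      abs_NEnv (c := 2 ^ 36) (x := _ - _ / _) (y := ei E j 2 * fd E 3 - 65536 * fi F j 6)
        (by positivity) (by ring)]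
    ring
  · have k4 := (Nat.cast_le (α := ℝ)).2 k3
    push_cast at k4
    simp only [evR]
    linarith

theorem envL_NEnv {r F En j m : ℕ} (hL : FamL F) (h0 : fd F 0 = fd En 0)
    (h1 : fd F 1 = fd En 4) (hj : j < 7) (h : envL F En j = true) {a : Fin m → ℝ}
    (ha : Tail (evR r En) a) :
    (|E (fun y => Real.cos ((evR r En).t j * ell a y)) - (evR r En).pm j| ≤ (evR r En).pr j ∧
      ∀ i, |hat (fun y => Real.sin ((evR r En).t j * ell a y)) {i} -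
        a i * ((evR r En).al j + (evR r En).be j * a i ^ 2 + (evR r En).ga j * a i ^ 4)| ≤
        (evR r En).et j * |a i|) ∧
    ∀ w, Wv (evR r En) a w →
      ∑ v ∈ range 4, w v * (evR r En).lo j v ≤
        E (fun y => Real.cos ((evR r En).t j * ell a y)) ∧
      E (fun y => Real.cos ((evR r En).t j * ell a y)) ≤
        ∑ v ∈ range 4, w v * (evR r En).hi j v := by
  rw [envL, ifz_eq] at h
  split_ifs at h with hf
  · simp only [an_eq, Nat.beq_eq, Nat.ble_eq, allN_iff, zle_iff] at h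
    obtain ⟨k1, k2, k3, k4⟩ := h
    have z : ∀ i, em En j i = 0 → (ei En j i : ℝ) = 0 := fun i hi => by
      have := ei_abs En j i
      rw [hi, Nat.cast_zero, abs_eq_zero] at this
      rw [this, Int.cast_zero]
    have z4 : (evR r En).pm j = 0 := by simp only [evR, z 4 (by omega), zero_div]
    have z6 : (evR r En).al j = 0 := by simp only [evR, z 6 (by omega), zero_div]
    have z7 : (evR r En).be j = 0 := by simp only [evR, z 7 (by omega), zero_div]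
    have z8 : (evR r En).ga j = 0 := by simp only [evR, z 8 (by omega), zero_div]
    refine ⟨⟨?_, fun i => ?_⟩, fun w hw => law_triv hw fun v hv => ?_⟩
    · rw [z4, sub_zero]
      refine (cos_triv _ _).trans ?_
      have k : (16777216 : ℝ) ≤ ef En j 5 := by exact_mod_cast k3
      simp only [evR]
      linarith
    · rw [z6, z7, z8, zero_mul, zero_mul, add_zero, add_zero, mul_zero, sub_zero]
      refine (sin_triv _ _ _).trans (mul_le_mul_of_nonneg_right ?_ (abs_nonneg _))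
      have k : (1048576 : ℝ) * ((j + 1) * fd En 4) ≤ ef En j 9 := by
        rw [kt] at k4
        exact_mod_cast k4
      simp only [evR]
      rw [abs_of_nonneg (div_nonneg (mul_nonneg (add_nonneg j.cast_nonneg zero_le_one)
        (Nat.cast_nonneg _)) (by norm_num))]
      linarith
    · have k5 : (ei En j (10 + v) : ℝ) ≤ -16777216 := by exact_mod_cast (k1 v hv).1
      have k6 : (16777216 : ℝ) ≤ ei En j (14 + v) := by exact_mod_cast (k1 v hv).2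
      simp only [evR]
      constructor <;> linarith
  obtain ⟨f1, f3⟩ := hL j hj hf
  rw [h0, h1] at f1 f3
  simp only [an_eq, Nat.ble_eq, allN_iff, zle_iff, sq, Nat.mul_eq, Int.ofNat_eq_natCast] at h
  obtain ⟨k1, k2⟩ := h
  have g3 : F3 ((evR r En).t j) (evR r En).X (fi F j 5 / 2 ^ 20) (fi F j 6 / 2 ^ 20)
      (fi F j 7 / 2 ^ 16) (ff F j 8 / 2 ^ 24) := by
    simp only [evR]
    exact f3
  have law : ∀ w, Wv (evR r En) a w →
      ∑ v ∈ range 4, w v * (evR r En).lo j v ≤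
        E (fun y => Real.cos ((evR r En).t j * ell a y)) ∧
      E (fun y => Real.cos ((evR r En).t j * ell a y)) ≤
        ∑ v ∈ range 4, w v * (evR r En).hi j v := fun w hw => by
    refine law_row (E0 := exl (l0 F En j) / 2 ^ 56) (x0 := l0 F En j / 2 ^ 42) ha hw
      (by simp only [evR]; exact f1) g3 (fun v hv => ?_) (by positivity)
      ((div_le_iff₀ (by positivity)).2 (exl_le _)) fun v hv => ?_
    · have k4 := (Int.cast_le (R := ℝ)).2 (k1 v hv).1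
      have k5 := exl_le (-lp F En j v)
      rw [Int.cast_neg, neg_div, lp_NEnv r] at k5
      rw [Int.cast_mul, Int.cast_ofNat, Int.cast_natCast] at k4
      exact inv_NEnv (Nat.cast_nonneg _) k5 k4
    · have k4 := (Int.cast_le (R := ℝ)).2 (k1 v hv).2.1
      push_cast at k4
      rw [← lm_NEnv r]
      simp only [evR]
      linarith
  have hc : |E (fun y => Real.cos ((evR r En).t j * ell a y)) - (evR r En).pm j| ≤
      (evR r En).pr j := by
    obtain ⟨w, hw⟩ := exists_Wv ha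
    obtain ⟨l1, l2⟩ := law w hw
    have e1 : ∑ v ∈ range 4, w v * ((evR r En).pm j - (evR r En).pr j) ≤
        ∑ v ∈ range 4, w v * (evR r En).lo j v := by
      refine sum_le_sum fun v hv => mul_le_mul_of_nonneg_left ?_ (hw.1 v (mem_range.1 hv))
      have k4 := (Int.cast_le (R := ℝ)).2 (k1 v (mem_range.1 hv)).2.2.1
      push_cast at k4
      simp only [evR]
      linarith
    have e2 : ∑ v ∈ range 4, w v * (evR r En).hi j v ≤
        ∑ v ∈ range 4, w v * ((evR r En).pm j + (evR r En).pr j) := by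
      refine sum_le_sum fun v hv => mul_le_mul_of_nonneg_left ?_ (hw.1 v (mem_range.1 hv))
      have k4 := (Int.cast_le (R := ℝ)).2 (k1 v (mem_range.1 hv)).2.2.2
      push_cast at k4
      simp only [evR]
      linarith
    rw [← sum_mul, hw.2.1, one_mul] at e1 e2
    exact abs_le.2 ⟨by linarith, by linarith⟩
  refine ⟨⟨hc, sin_row ha g3 (nn_NEnv _ _) hc ?_⟩, law⟩
  have k4 := (Nat.cast_le (α := ℝ)).2 k2
  have k5 : (em En j 4 : ℝ) = |(ei En j 4 : ℝ)| := by exact_mod_cast (ei_abs En j 4).symm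
  push_cast [Nat.cast_natAbs] at k4
  rw [k5] at k4
  simp only [evR]
  rw [abs_NEnv (c := 2 ^ 44) (x := (ei En j 6 : ℝ) / _ - _)
      (y := 268435456 * ei En j 6 - ei En j 4 * fi F j 5) (by positivity) (by ring),
    abs_NEnv (c := 2 ^ 44) (x := (ei En j 7 : ℝ) / _ - _)
      (y := 268435456 * ei En j 7 - ei En j 4 * fi F j 6) (by positivity) (by ring),
    abs_NEnv (c := 2 ^ 40) (x := (ei En j 8 : ℝ) / _ - _)
      (y := 16777216 * ei En j 8 - ei En j 4 * fi F j 7) (by positivity) (by ring),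
    abs_NEnv (c := 2 ^ 20) (y := fi F j 5) (by positivity) rfl,
    abs_NEnv (c := 2 ^ 20) (y := fi F j 6) (by positivity) rfl,
    abs_NEnv (c := 2 ^ 16) (y := fi F j 7) (by positivity) rfl,
    abs_NEnv (c := 2 ^ 24) (y := ei En j 4) (by positivity) rfl]
  linarith

theorem env_sound {r FT FL E : ℕ} (hT : FamT r FT) (hL : FamL FL)
    (h : envChk r FT FL E = true) : EnvOk (evR r E) := by
  simp only [envChk, frc_eq, an_eq, Nat.ble_eq, Nat.beq_eq, allN_iff, zle_iff] at h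
  obtain ⟨hr, h1, h2, h3, h4, h5, h6⟩ := h
  refine ⟨by simp only [evR]; positivity, ?_, fun v hv => ?_, fun m a ha =>
    ⟨fun j hj => ⟨nn_NEnv _ _, envT_NEnv hr hT h1 h3 hj (h6 j hj).1 ha⟩,
      fun j hj => (envL_NEnv hL h2 h4 hj (h6 j hj).2 ha).1,
      fun w hw j hj => (envL_NEnv hL h2 h4 hj (h6 j hj).2 ha).2 w hw⟩⟩
  · have : (r : ℝ) ≤ 256 := by exact_mod_cast hr
    simp only [evR]
    linarith
  · have k := (Int.cast_le (R := ℝ)).2 (h5 v hv)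
    simp only [sq, Nat.mul_eq, Int.ofNat_eq_natCast] at k
    push_cast at k
    rw [vvz_eq r] at k
    have e : (evR r E).isv = fd E 3 / 2 ^ 16 := by simp only [evR]
    rw [e]
    generalize v3 (evR r E) v - 2 * (evR r E).lam * vq (evR r E) v + (evR r E).lam ^ 2 = x at k ⊢
    linarith

end Pool.Agent.MP_ebf981_lc.N9

end

section

namespace Pool.Agent.MP_ebf981_lc.N9

open Finset

theorem exx_NFamS {a X : ℝ} (h : a ^ 2 ≤ X) : ∃ x : ℝ, 0 ≤ x ∧ x ≤ 1 ∧ a ^ 2 = X * x := by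
  have hX : 0 ≤ X := (sq_nonneg a).trans h
  rcases hX.eq_or_lt with h0 | h0
  · refine ⟨0, le_rfl, zero_le_one, ?_⟩
    rw [mul_zero]
    exact le_antisymm (h.trans h0.symm.le) (sq_nonneg a)
  · exact ⟨a ^ 2 / X, by positivity, (div_le_one h0).2 h, by field_simp⟩

theorem tcN_NFamS (m : ℕ) {y : ℝ} (h : y * 2 ^ 48 = m) : (tc (Int.ofNat m) 0).ok (fun _ => y) := by
  refine tc_ok _ _ ?_
  rw [h, Int.ofNat_eq_natCast, Int.cast_natCast, sub_self, abs_zero, Nat.cast_zero]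

theorem tA_NFamS (X t : ℕ) :
    (tA X t).ok (fun x => x * (((t : ℝ) / 16) ^ 2 * (X / 2 ^ 8))) :=
  tx_ok (tcN_NFamS _ (by push_cast; ring))

theorem tSa_NFamS {X t : ℕ} (h : tsm (tA X t) 25 = true) :
    (tSa X t).ok (fun x => Sq (x * (((t : ℝ) / 16) ^ 2 * (X / 2 ^ 8)))) := by
  rw [tSa, tv_eq]
  exact tS_ok (tA_NFamS X t) (fun x hx _ => by positivity) h

theorem tCa_NFamS {X t : ℕ} (h : tsm (tA X t) 25 = true) :
    (tCa X t).ok (fun x => Cq (x * (((t : ℝ) / 16) ^ 2 * (X / 2 ^ 8)))) := by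
  rw [tCa, tv_eq]
  exact tC_ok (tA_NFamS X t) (fun x hx _ => by positivity) h

theorem tK_NFamS (κ : ℕ) {X t : ℕ} (h : tsm (tA X t) 25 = true) :
    (tK κ X t).ok (fun x => ((κ : ℝ) / 2 ^ 16 * (((t : ℝ) / 16) ^ 2 * (X / 2 ^ 8))) *
      (Sq (x * (((t : ℝ) / 16) ^ 2 * (X / 2 ^ 8))) * Sq (x * (((t : ℝ) / 16) ^ 2 * (X / 2 ^ 8))))) := by
  rw [tK, tv_eq]
  exact tmul_ok (tcN_NFamS _ (by push_cast; ring)) (tmul_ok (tSa_NFamS h) (tSa_NFamS h))

theorem tP_NFamS (X : ℕ) (A B C η : ℤ) :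
    (tP X A B C η).ok (fun x => 2 * ((X : ℝ) / 2 ^ 8) * ((A : ℝ) / 2 ^ 20 + (η : ℝ) / 2 ^ 24 +
      (B : ℝ) / 2 ^ 20 * (X / 2 ^ 8 * x) + (C : ℝ) / 2 ^ 16 * (X / 2 ^ 8 * x) ^ 2)) := by
  refine (pol_ok _ _ _).congr fun x _ _ => ?_
  simp only [Int.ofNat_eq_natCast]
  push_cast
  ring

theorem tX_NFamS {P : TM} {f : ℝ → ℝ} (h : P.ok f) {n : ℕ} (hs : tsm P (n / 2) = true) :
    (tX P n).ok (fun x => f x * E1 (x * f x)) :=
  tmul_ok h (tE_ok (tx_ok h) hs)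

theorem sin_NFamS {a X x : ℝ} (t : ℝ) (h : a ^ 2 = X * x) :
    Real.sin (t * a) = t * a * Sq (x * (t ^ 2 * X)) := by
  rw [sin_eq_Sq, mul_pow, h]
  congr 2
  ring

theorem cos_NFamS {a X x : ℝ} (t : ℝ) (h : a ^ 2 = X * x) :
    Real.cos (t * a) = Cq (x * (t ^ 2 * X)) := by
  rw [cos_eq_Cq, mul_pow, h]
  congr 1
  ring

theorem f1_sound {κ X t η n : ℕ} {A B C : ℤ} (h : f1 κ X t A B C η n = true) :
    F1 (κ / 2 ^ 16) (t / 16) (X / 2 ^ 8) (A / 2 ^ 20) (B / 2 ^ 20) (C / 2 ^ 16) (η / 2 ^ 24) := by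
  rw [f1, an_eq, tf_eq, tf_eq, an_eq, an_eq, an_eq] at h
  obtain ⟨hA, h1, h2, h3, h4⟩ := h
  intro a ha
  obtain ⟨x, x0, x1, hx⟩ := exx_NFamS ha
  have e3 := pos_sound (tadd_ok (tX_NFamS (tP_NFamS X A B C _) h1) (tK_NFamS κ hA)) h3 x0 x1
  have e4 := pos_sound (tneg_ok (tadd_ok (tX_NFamS (tP_NFamS X A B C _) h2) (tK_NFamS κ hA)))
    h4 x0 x1
  have c1 : ((Int.ofNat η : ℤ) : ℝ) = η := by rw [Int.ofNat_eq_natCast, Int.cast_natCast]
  have c2 : ((Int.negOfNat η : ℤ) : ℝ) = -η := by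
    rw [Int.negOfNat_eq, Int.ofNat_eq_natCast, Int.cast_neg, Int.cast_natCast]
  rw [c1] at e3
  rw [c2] at e4
  have h4' : a ^ 4 = ((X : ℝ) / 2 ^ 8 * x) ^ 2 := by rw [← hx]; ring
  rw [sin_NFamS _ hx, mul_pow, mul_pow, h4', hx]
  generalize (X : ℝ) / 2 ^ 8 = Xr at *
  generalize (t : ℝ) / 16 = tr at *
  generalize (A : ℝ) / 2 ^ 20 = Ar at *
  generalize (B : ℝ) / 2 ^ 20 = Br at *
  generalize (C : ℝ) / 2 ^ 16 = Cr at *
  generalize (κ : ℝ) / 2 ^ 16 = kr at *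
  generalize Sq (x * (tr ^ 2 * Xr)) = S at *
  constructor
  · have e : 2 * (Xr * x) * (Ar - η / 2 ^ 24 + Br * (Xr * x) + Cr * (Xr * x) ^ 2) =
        x * (2 * Xr * (Ar + -η / 2 ^ 24 + Br * (Xr * x) + Cr * (Xr * x) ^ 2)) := by ring
    rw [e, exp_eq_E1]
    have := mul_nonneg x0 e4
    linarith
  · have e : 2 * (Xr * x) * (Ar + η / 2 ^ 24 + Br * (Xr * x) + Cr * (Xr * x) ^ 2) =
        x * (2 * Xr * (Ar + η / 2 ^ 24 + Br * (Xr * x) + Cr * (Xr * x) ^ 2)) := by ring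
    rw [e, exp_eq_E1]
    have := mul_nonneg x0 e3
    linarith

theorem fin_NFamS {a e B q D : ℝ} (he : 0 < e) (h1 : 0 ≤ e * B + q) (h2 : 0 ≤ e * B + -q)
    (hD : D = a * q) : 0 ≤ B ∧ |D| ≤ e * |a| * B := by
  refine ⟨(mul_nonneg_iff_of_pos_left he).1 (by linarith), ?_⟩
  have : |q| ≤ e * B := abs_le.2 ⟨by linarith, by linarith⟩
  rw [hD, abs_mul]
  calc _ ≤ |a| * (e * B) := mul_le_mul_of_nonneg_left this (abs_nonneg a)
    _ = _ := by ring

theorem f2_sound {r X t er : ℕ} {c δ : ℤ} (h : f2 r X t c δ er = true) :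
    F2 (r / 256) (t / 16) (X / 2 ^ 8) (c / 2 ^ 20) (δ / 2 ^ 20) (er / 2 ^ 24) := by
  rw [f2, an_eq, an_eq, tf_eq, tf_eq, an_eq, tf_eq, tf_eq, tf_eq, tf_eq, tf_eq, an_eq,
    Nat.ble_eq] at h
  obtain ⟨her, hA, hV, h3, h4⟩ := h
  intro a ha
  obtain ⟨x, x0, x1, hx⟩ := exx_NFamS ha
  have kβ : (pol (268435456 * c) (1048576 * (δ * Int.ofNat X)) 0).ok
      (fun x => (c : ℝ) / 2 ^ 20 + (δ : ℝ) / 2 ^ 20 * (X / 2 ^ 8 * x)) := by
    refine (pol_ok _ _ _).congr fun x _ _ => ?_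
    simp only [Int.ofNat_eq_natCast]
    push_cast
    ring
  have kX : (tc (Int.ofNat (1099511627776 * X)) 0).ok (fun _ => (X : ℝ) / 2 ^ 8) :=
    tcN_NFamS _ (by push_cast; ring)
  have kV := tx_ok (tmul_ok kX (tmul_ok kβ kβ))
  have kV0 : ∀ x : ℝ, 0 ≤ x → x ≤ 1 → 0 ≤ x * ((X : ℝ) / 2 ^ 8 *
      (((c : ℝ) / 2 ^ 20 + (δ : ℝ) / 2 ^ 20 * (X / 2 ^ 8 * x)) *
        ((c : ℝ) / 2 ^ 20 + (δ : ℝ) / 2 ^ 20 * (X / 2 ^ 8 * x)))) := fun x hx _ =>
    mul_nonneg hx (mul_nonneg (by positivity) (mul_self_nonneg _))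
  have kC := tC_ok kV kV0 hV
  have kS := tmul_ok kβ (tS_ok kV kV0 hV)
  have kSa := tmul_ok (tcN_NFamS (68719476736 * (r * t)) (y := (r : ℝ) / 256 * (t / 16))
    (by push_cast; ring)) (tSa_NFamS hA)
  have kp := tmul_ok (tcN_NFamS (16777216 * er) (y := (er : ℝ) / 2 ^ 24) (by push_cast; ring))
    (tadd_ok (tmul_ok (tCa_NFamS hA) kC) (tx_ok (tmul_ok kX (tmul_ok kSa kS))))
  have kq := tadd_ok (tmul_ok kSa kC) (tneg_ok (tmul_ok (tCa_NFamS hA) kS))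
  have e3 := pos_sound (tadd_ok kp kq) h3 x0 x1
  have e4 := pos_sound (tadd_ok kp (tneg_ok kq)) h4 x0 x1
  have he : (0 : ℝ) < (er : ℝ) / 2 ^ 24 := by
    have : (0 : ℝ) < er := by exact_mod_cast her
    positivity
  rw [hx, sin_NFamS _ hx, cos_NFamS _ hx, mul_comm a, sin_NFamS _ hx, cos_NFamS _ hx]
  clear kβ kX kV kV0 kC kS kSa kp kq h3 h4 hV hA
  generalize (X : ℝ) / 2 ^ 8 = Xr at *
  generalize (t : ℝ) / 16 = tr at *
  generalize (c : ℝ) / 2 ^ 20 + (δ : ℝ) / 2 ^ 20 * (Xr * x) = β at *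
  generalize (r : ℝ) / 256 = ρ at *
  generalize (er : ℝ) / 2 ^ 24 = e at *
  rw [show x * (Xr * (β * β)) = x * (β ^ 2 * Xr) by ring] at e3 e4
  generalize Sq (x * (tr ^ 2 * Xr)) = S at *
  generalize Cq (x * (tr ^ 2 * Xr)) = K at *
  generalize Sq (x * (β ^ 2 * Xr)) = S' at *
  generalize Cq (x * (β ^ 2 * Xr)) = K' at *
  have e : ρ * (tr * a * S) * (β * a * S') = x * (Xr * (ρ * tr * S * (β * S'))) := by
    have : ρ * (tr * a * S) * (β * a * S') = a ^ 2 * (ρ * tr * S * (β * S')) := by ring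
    rw [this, hx]
    ring
  rw [e]
  exact fin_NFamS he e3 e4 (by ring)

theorem f3_sound {X t η : ℕ} {A B C : ℤ} (h : f3 X t A B C η = true) :
    F3 (t / 16) (X / 2 ^ 8) (A / 2 ^ 20) (B / 2 ^ 20) (C / 2 ^ 16) (η / 2 ^ 24) := by
  rw [f3, an_eq, an_eq, tf_eq, tf_eq, an_eq, Nat.ble_eq] at h
  obtain ⟨her, hA, h3, h4⟩ := h
  intro a ha
  obtain ⟨x, x0, x1, hx⟩ := exx_NFamS ha
  have kβ : (pol (268435456 * A) (1048576 * (B * Int.ofNat X)) (65536 * (C * Int.ofNat (X * X)))).ok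
      (fun x => (A : ℝ) / 2 ^ 20 + (B : ℝ) / 2 ^ 20 * (X / 2 ^ 8 * x) +
        (C : ℝ) / 2 ^ 16 * (X / 2 ^ 8 * x) ^ 2) := by
    refine (pol_ok _ _ _).congr fun x _ _ => ?_
    simp only [Int.ofNat_eq_natCast]
    push_cast
    ring
  have kp := tmul_ok (tcN_NFamS (16777216 * η) (y := (η : ℝ) / 2 ^ 24) (by push_cast; ring))
    (tCa_NFamS hA)
  have kq := tadd_ok (tmul_ok (tcN_NFamS (17592186044416 * t) (y := (t : ℝ) / 16)
    (by push_cast; ring)) (tSa_NFamS hA)) (tneg_ok (tmul_ok kβ (tCa_NFamS hA)))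
  have e3 := pos_sound (tadd_ok kp kq) h3 x0 x1
  have e4 := pos_sound (tadd_ok kp (tneg_ok kq)) h4 x0 x1
  have he : (0 : ℝ) < (η : ℝ) / 2 ^ 24 := by
    have : (0 : ℝ) < η := by exact_mod_cast her
    positivity
  have h4' : a ^ 4 = ((X : ℝ) / 2 ^ 8 * x) ^ 2 := by rw [← hx]; ring
  rw [h4', hx, sin_NFamS _ hx, cos_NFamS _ hx]
  exact fin_NFamS he e3 e4 (by ring)

theorem famT_sound {r F : ℕ} (h : famT r F = true) : FamT r F := by
  rw [famT, an_eq, allN_iff, Nat.ble_eq] at h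
  obtain ⟨hr, h⟩ := h
  intro j hj h0
  have h1 := h j hj
  rw [ifz_eq, if_neg h0, frc_eq, frc_eq, an_eq] at h1
  have e1 := f1_sound h1.1
  have e2 := f2_sound h1.2
  have hrr : r * r ≤ 65536 := Nat.mul_le_mul hr hr
  have c1 : ((65536 - r * r : ℕ) : ℝ) / 2 ^ 16 = 1 - ((r : ℝ) / 256) ^ 2 := by
    rw [Nat.cast_sub hrr]
    push_cast
    ring
  have c2 : (((j + 1) * fd F 1 : ℕ) : ℝ) = (j + 1) * fd F 1 := by push_cast; rfl
  rw [c1, c2] at e1
  rw [c2] at e2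
  exact ⟨e1, e2⟩

theorem famL_sound {F : ℕ} (h : famL F = true) : FamL F := by
  rw [famL, allN_iff] at h
  intro j hj h0
  have h1 := h j hj
  rw [ifz_eq, if_neg h0, frc_eq, frc_eq, an_eq] at h1
  have e1 := f1_sound h1.1
  have e2 := f3_sound h1.2
  have c1 : ((65536 : ℕ) : ℝ) / 2 ^ 16 = 1 := by norm_num
  have c2 : (((j + 1) * fd F 1 : ℕ) : ℝ) = (j + 1) * fd F 1 := by push_cast; rfl
  rw [c1, c2] at e1
  rw [c2] at e2
  exact ⟨e1, e2⟩

end Pool.Agent.MP_ebf981_lc.N9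

end

section

namespace Pool.Agent.MP_ebf981_lc.N9

/-- the cells with index in `[a, b)` are certified -/
def Rg (r CL a b : ℕ) : Prop := ∀ j, a ≤ j → j < b → CellN r (cel CL j)

theorem grp {r E CL i n : ℕ} (l : List ℕ) (he : EnvOk (evR r E))
    (h : an (Nat.beq (Nat.add i l.length) n) (chkE r E CL i l) = true) : Rg r CL i n := by
  rw [an_eq, Nat.beq_eq, Nat.add_eq] at h
  intro j h0 h1
  exact chkE_sound he h.2 j h0 (h.1 ▸ h1)

theorem Rg.cat {r CL a b c : ℕ} (h : Rg r CL a b) (h' : Rg r CL b c) : Rg r CL a c :=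
  rng_cat h h'

end Pool.Agent.MP_ebf981_lc.N9

end

section

set_option deprecated.oldSectionVars true
set_option maxRecDepth 100000

namespace Pool.Agent.MP_ebf981_lc.N9.DL

def G0 : ℕ := 0xb000719be0d6c7c7405fb659400b6e0f800040b190a50209509e8e2610206101d000000010000000a0001c0f504ddadae0464146a009c37900000ebdd036fe6e705a61d15017c5d310000000100000008000062c001a1dc1402b1a8ea00820c3800002d8e01027cab02ca65bb010815a500000001000000070000114b0077bfa001698ec600680226000006b4003d68cb0127ba3500a900d30000000100000006000002230019c9da0099ec9e004e0040000000b8000a2bd7005df863005f101500000001000000040000003b00032de8002dbda400340004000000300000d9a3001296a1002a40010000000100000004000000300000187a0005b89c001a0000000000300000035300012981000a9001000000010000000d00000008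

theorem g0 : FamL G0 := famL_sound (by decide +kernel)

def G1 : ℕ := 0xf002795130ad38cae0096c54600a0e60c0010a02d05fe113304105ba3017e3f0d000000010000000b000588c9028c27aa0223dba20082af5800023ca20163b89f02907665010856df00000001000000090000c03400993dc40155ea5e006817ca000044ac00498ad10120ac5d00a9088100000001000000070000132d001d3f8c0097ef7c004e02620000058e000b2a17005d66e1005f10af00000001000000050000010d000359ce002da4ba0034001e0000004e0000e255001291b3002a4007000000010000000400000030000018ca0005b86e001a000000000030000003570001297d000a9001000000010000000d00000010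

theorem g1 : FamL G1 := famL_sound (by decide +kernel)

def G2 : ℕ := 0x10004527e105daae12018ad699008a8f14001808010270c811016d09ef010aae8f000000010000000c0005420800decbea010d1fec0068a6960001ada2006005ab0109738f00a9352d0000000100000009000067b90022c22e009258d4004e0cd600001c29000caac1005be325005f137d00000001000000060000047a0003964e002d68720034008c000000f80000ee1300128607002a401d000000010000000400000030000019300005b80a001a0000000000300000036100012973000a9001000000010000000d0000001a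

theorem g2 : FamL G2 := famL_sound (by decide +kernel)

def G3 : ℕ := 0xf00243a92019c02aa002b6c2b006c7bd80009f56e0091fd0d00b8a32d00aa2b15000000010000000a0001b91e002bfa520083ec4e004e369800006fbb000f00f300584365005f1dd5000000010000000700000f5a0003e888002ceb0e003401e8000003020000fda300126e61002a405d000000010000000500000037000019ae0005b74c001a0002000000300000036d00012961000a9001000000010000000d00000026

theorem g3 : FamL G3 := famL_sound (by decide +kernel)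

def G4 : ℕ := 0xd0006c44c003d0b8e005db416004ed66400018e9f0012e3eb004fab0d005f410d000000010000000800002d5b000458a0002bf9600034059e000008600001122700124255002a410900000001000000050000005d00001a480005b608001a0008000000300000037d00012941000a9001000000010000000d00000034

theorem g4 : FamL G4 := famL_sound (by decide +kernel)

def G5 : ℕ := 0xe000c6a1b0032a50e0029d49c0049895400027b8f000d86cf0033e47100514d7700000001000000090000447c000318a2002202940030087a00000b6c0000b14f000d298f0024016b000000010000000500000077000011d600047d3c0018000a000000300000022f0000d7c100090003000000010000000c00000046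

theorem g5 : FamL G5 := famL_sound (by decide +kernel)

def G6 : ℕ := 0xa0000b0350003949000202262003015ce00001c230000c4e9000cde1f0024037d0000000100000006000000e10000125a00047b4a0018001800000031000002390000d79300090003000000010000000c0000005a

theorem g6 : FamL G6 := famL_sound (by decide +kernel)

def G7 : ℕ := 0xa0000dd5d0002749200180138002c1b6600001fd8000079c50008fb53001e43f300000001000000060000010400000c02000373060016001c00000032000001550000982700079003000000010000000b00000074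

theorem g7 : FamL G7 := famL_sound (by decide +kernel)

def G8 : ℕ := 0xc0002e4ef00033b2a0012d36a002c5bb4000061f4000093cb00084f7f001e4c2100000001000000070000025a00000c9600036f54001600480000004e00000161000097db00079007000000010000000b0000009a

theorem g8 : FamL G8 := famL_sound (by decide +kernel)

def G9 : ℕ := 0xf000c1c180005196c0001d446002d7faa00016e530000c9c500066ccb001e6ba70000000100000007000005e200000d6a00036840001600b400000093000001730000974b0007900f000000010000000b000000cc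

theorem g9 : FamL G9 := famL_sound (by decide +kernel)

def G10 : ℕ := 0x800000cc400000e6000035dae001601860000015d00000185000096770007901f000000010000000b00000100

theorem g10 : FamL G10 := famL_sound (by decide +kernel)


end Pool.Agent.MP_ebf981_lc.N9.DL

end
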