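import Pool.Agent.Mg.Febf981.G807bb7
import Pool.Agent.Mg.Febf981.Gc6ecc3

section

namespace Pool.Agent.MP_ebf981_lc.N9

open Finset

/-- the objective averaged over one coordinate, majorised by a cubic in the squares -/
noncomputable def pb9 (R a b : ℝ) : ℝ :=
  (36 + 9 * R ^ 2) * (a + b) + (126 - 18 * R - 9 * R ^ 2) * (a ^ 2 + 6 * a * b + b ^ 2) +
    (93 + 18 * R) * (a ^ 3 + 15 * a ^ 2 * b + 15 * a * b ^ 2 + b ^ 3)

def Adm9 (R b0 b1 θ : ℝ) : Prop :=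
  ∃ μ ν κ c : ℝ, 0 ≤ μ ∧ 0 ≤ ν ∧ κ ≤ 2 * ν ∧ ν * R ^ 2 ≤ μ * (θ * R + (1 - θ) * R ^ 3) ∧
    (∀ b, b = b0 ∨ b = b1 → -c + ν - κ + (κ - 2 * ν) * b + ν * b ^ 2 * (1 - R ^ 2) + ν * R ^ 2 * b +
      μ * (θ * R + (1 - θ) * R ^ 3) * (1 - b) ≤ 0) ∧
    ∀ a e : ℝ, 0 ≤ e → e ≤ 1 → 0 ≤ a → a ≤ e ^ 2 →
      pb9 R a (R * (1 - e) ^ 2) ≤ pb9 R 0 R - c - κ * e + ν * e ^ 2 + μ * a

theorem conv_NCaseI {α β γ b0 b1 b : ℝ} (hα : 0 ≤ α) (h0 : b0 ≤ b) (h1 : b ≤ b1)
    (q0 : α * b0 ^ 2 + β * b0 + γ ≤ 0) (q1 : α * b1 ^ 2 + β * b1 + γ ≤ 0) :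
    α * b ^ 2 + β * b + γ ≤ 0 := by
  rcases eq_or_lt_of_le (h0.trans h1) with e | e
  · rwa [le_antisymm h1 (e ▸ h0)]
  · refine le_of_mul_le_mul_left ?_ (sub_pos.2 e)
    have u0 := mul_nonneg (sub_nonneg.2 h1) (neg_nonneg.2 q0)
    have u1 := mul_nonneg (sub_nonneg.2 h0) (neg_nonneg.2 q1)
    have u2 := mul_nonneg (mul_nonneg hα (sub_pos.2 e).le)
      (mul_nonneg (sub_nonneg.2 h0) (sub_nonneg.2 h1))
    linear_combination u0 + u1 + u2

theorem maj_NCaseI (R : ℝ) {g : ℝ} (h : g ^ 2 ≤ 1) : P9 g ≤ (36 + 9 * R ^ 2) * g ^ 2 +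
    (126 - 18 * R - 9 * R ^ 2) * g ^ 4 + (93 + 18 * R) * g ^ 6 := by
  have := mul_nonneg (mul_nonneg (sq_nonneg g) (sq_nonneg (g ^ 2 - R))) (sub_nonneg.2 h)
  unfold P9
  linear_combination 9 * this

theorem dec_NCaseI {n : ℕ} {f : (Fin n → Bool) → ℝ} (hf : ∀ x, f x ^ 2 = 1) (i : Fin n) :
    ∃ (s : ℝ) (A D : (Fin n → Bool) → ℝ), s ^ 2 = 1 ∧
      (A = fun x => 1 / 2 * f x + 1 / 2 * f (fl i x)) ∧
      (D = fun x => s * sg (x i) * (1 / 2 * f x + -1 / 2 * f (fl i x))) ∧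
      (∀ x, (A x ^ 2 = 1 ∧ D x = 0) ∨ (A x = 0 ∧ D x ^ 2 = 1)) ∧ E D = |hat f {i}| ∧
      E D ≤ E (fun x => D x ^ 2) ∧ E (fun x => A x ^ 2) = 1 - E (fun x => D x ^ 2) ∧
      ∀ x, A x ^ 3 = A x := by
  obtain ⟨s, hs1, hs⟩ : ∃ s : ℝ, s ^ 2 = 1 ∧ s * hat f {i} = |hat f {i}| := by
    rcases abs_cases (hat f {i}) with h | h
    · exact ⟨1, by norm_num, by rw [h.1, one_mul]⟩
    · exact ⟨-1, by norm_num, by rw [h.1]; ring⟩
  obtain ⟨A, hA⟩ : ∃ A : (Fin n → Bool) → ℝ, A = fun x => 1 / 2 * f x + 1 / 2 * f (fl i x) :=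
    ⟨_, rfl⟩
  obtain ⟨D, hD⟩ : ∃ D : (Fin n → Bool) → ℝ,
      D = fun x => s * sg (x i) * (1 / 2 * f x + -1 / 2 * f (fl i x)) := ⟨_, rfl⟩
  have tab : ∀ x, (A x ^ 2 = 1 ∧ D x = 0) ∨ (A x = 0 ∧ D x ^ 2 = 1) := by
    intro x
    have g := sg_sq (x i)
    rcases sq_eq_one_iff_of_ne_zero' (hf x) with e | e <;>
      rcases sq_eq_one_iff_of_ne_zero' (hf (fl i x)) with e' | e' <;>
      simp only [hA, hD, e, e', mul_pow, hs1, g] <;> norm_num
  refine ⟨s, A, D, hs1, hA, hD, tab, ?_, E_mono fun x => ?_, ?_, fun x => ?_⟩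
  · have := E_invol _ (fl_fl i) (fun x => f (fl i x) * sg (x i))
    simp only [fl_fl i _, fl_self, sg_not] at this
    rw [E_congr (F := fun x => f x * -sg (x i)) (G := fun x => -1 * (f x * sg (x i)))
      fun x => by ring, E_mul] at this
    have e : hat f {i} = E (fun x => f x * sg (x i)) := by simp [hat, chi]
    rw [← hs, e, hD, E_congr (G := fun x => s / 2 * (f x * sg (x i)) -
      s / 2 * (f (fl i x) * sg (x i))) fun x => by ring, E_sub, E_mul, E_mul, ← this]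
    ring
  · rcases tab x with ⟨_, q⟩ | ⟨_, q⟩
    · rw [q]; norm_num
    · nlinarith [sq_nonneg (1 - D x)]
  · rw [← E_const (n := n) 1, ← E_sub]
    exact E_congr fun x => by
      rcases tab x with ⟨p, q⟩ | ⟨p, q⟩ <;> rw [p, q] <;> norm_num
  · rcases tab x with ⟨p, _⟩ | ⟨p, _⟩
    · linear_combination A x * p
    · rw [p]; norm_num

theorem caseI9 {n : ℕ} {f : (Fin n → Bool) → ℝ} (hf : OB f) (i : Fin n) {ρ b0 b1 θ : ℝ}
    (r0 : 0 ≤ ρ) (r1 : ρ ≤ 1) (hb0 : b0 ≤ |hat f {i}|) (hb1 : |hat f {i}| ≤ b1) (hθ : 0 ≤ θ)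
    (hθ' : 3 * (1 - b0) ≤ θ ^ 2 ∨ 1 ≤ θ) (h : Adm9 (ρ ^ 2) b0 b1 θ) : FF ρ f ≤ P9 ρ := by
  obtain ⟨hf, ho⟩ := hf
  obtain ⟨μ, ν, κ, c, hμ, hν, c2, c4, c3, hp⟩ := h
  obtain ⟨ε, hε⟩ : ∃ ε, ε = (1 - ρ) / 2 := ⟨_, rfl⟩
  have hρ : ρ = 1 - 2 * ε := by rw [hε]; ring
  have h0 : 0 ≤ ε := by linarith
  have h1 : ε ≤ 1 := by linarith
  unfold FF TT
  rw [← hε]
  obtain ⟨s, A, D, hs1, hA, hD, tab, eD, eI, eA, hA3⟩ := dec_NCaseI hf i
  have oA : ∀ x, A (fun j => !x j) = -1 * A x := fun x => by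
    simp only [hA, fl_neg, ho]; ring
  have oD : ∀ x, D (fun j => !x j) = 1 * D x := fun x => by
    simp only [hD, fl_neg, ho, sg_not]; ring
  have fD : ∀ x, D (fl i x) = D x := fun x => by
    simp only [hD, fl_fl i x, fl_self, sg_not]; ring
  have tA : ∀ x, T ε A x = 1 / 2 * T ε f x + 1 / 2 * T ε f (fl i x) := fun x => by
    rw [hA, T_lin, T_fl]
  have tD : ∀ x, ρ * sg (x i) * T ε D x = s * (1 / 2 * T ε f x + -1 / 2 * T ε f (fl i x)) := by
    intro x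
    rw [hρ, ← T_sg ε i fD, ← T_fl, mul_add, ← mul_assoc, ← mul_assoc, ← T_lin]
    congr 1
    ext y
    simp only [hD]
    linear_combination (s * (1 / 2 * f y + -1 / 2 * f (fl i y))) * sg_sq (y i)
  have bd : ∀ x, |T ε A x| + |T ε D x| ≤ 1 := by
    intro x
    have : ∀ u v : ℝ, u ^ 2 = 1 → v ^ 2 = 1 → u * T ε A x + v * T ε D x ≤ 1 := by
      intro u v hu hv
      rw [← T_lin]
      refine T_le_one h0 h1 (fun y => ?_) x
      rcases tab y with ⟨p, q⟩ | ⟨p, q⟩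
      · rw [q]; nlinarith [sq_nonneg (u - A y)]
      · rw [p]; nlinarith [sq_nonneg (v - D y)]
    have t1 := this 1 1 (by norm_num) (by norm_num)
    have t2 := this 1 (-1) (by norm_num) (by norm_num)
    have t3 := this (-1) 1 (by norm_num) (by norm_num)
    have t4 := this (-1) (-1) (by norm_num) (by norm_num)
    rcases abs_cases (T ε A x) with p | p <;> rcases abs_cases (T ε D x) with q | q <;> linarith
  have key : ∀ x, 1 / 2 * P9 (T ε f x) + 1 / 2 * P9 (T ε f (fl i x)) ≤ (P9 ρ - c + ν - κ) +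
      (κ - 2 * ν) * T ε D x + ν * T ε D x ^ 2 + μ * T ε A x ^ 2 := by
    intro x
    have b1 := bd x
    have b2 := abs_nonneg (T ε A x)
    have b3 := abs_nonneg (T ε D x)
    have b4 := hp (T ε A x ^ 2) (1 - |T ε D x|) (by linarith) (by linarith) (sq_nonneg _)
      (by rw [← sq_abs]; exact pow_le_pow_left₀ b2 (by linarith) 2)
    have b5 : ρ ^ 2 * (1 - (1 - |T ε D x|)) ^ 2 =
        (1 / 2 * T ε f x + -1 / 2 * T ε f (fl i x)) ^ 2 := by
      rw [sub_sub_cancel, sq_abs]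
      have := congrArg (fun t => t ^ 2) (tD x)
      simp only [mul_pow, sg_sq, hs1, mul_one, one_mul] at this
      exact this
    rw [b5, tA] at b4
    have b6 := mul_le_mul_of_nonneg_left (le_abs_self (T ε D x)) (sub_nonneg.2 c2)
    have m1 := maj_NCaseI (ρ ^ 2) (T_abs h0 h1 hf x)
    have m2 := maj_NCaseI (ρ ^ 2) (T_abs h0 h1 hf (fl i x))
    have m3 : P9 ρ = pb9 (ρ ^ 2) 0 (ρ ^ 2) := by unfold P9 pb9; ring
    rw [tA, m3]
    generalize pb9 (ρ ^ 2) 0 (ρ ^ 2) = Z at b4 ⊢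
    unfold pb9 at b4
    linear_combination b4 + b6 + ν * sq_abs (T ε D x) + 1 / 2 * m1 + 1 / 2 * m2
  have tot := E_mono key
  have eT : E (T ε D) = E D := by
    have := hat_T ε D ∅
    simpa [hat, chi] using this
  have s1 : E (fun x => T ε D x ^ 2) ≤ E D ^ 2 + ρ ^ 4 * (E (fun x => D x ^ 2) - E D ^ 2) := by
    have := spec_even oD (fun k => (ρ ^ k) ^ 2) (ρ ^ 4) fun k hk => by
      nlinarith [pow_le3 r0 r1 hk, pow_nonneg r0 k]
    rw [E_T_sq, ← hρ]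
    simpa using this
  have s2 : E (fun x => T ε A x ^ 2) ≤ ρ ^ 2 * W1 A + ρ ^ 6 * (E (fun x => A x ^ 2) - W1 A) := by
    have := spec_odd oA (fun k => (ρ ^ k) ^ 2) (ρ ^ 6) fun k hk => by
      nlinarith [pow_le3 r0 r1 hk, pow_nonneg r0 k]
    rw [E_T_sq, ← hρ]
    simpa using this
  have s3 : W1 A ≤ θ * E (fun x => A x ^ 2) := lev1 hA3 hθ (hθ'.imp (fun h => by linarith) id)
  have s4 : 0 ≤ ρ ^ 2 - ρ ^ 6 := sub_nonneg.2 (pow_le3 r0 r1 (by norm_num))
  have s5 : 0 ≤ 1 - ρ ^ 4 := sub_nonneg.2 (pow_le_one₀ r0 r1)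
  rw [E_add, E_mul, E_mul, E_invol _ (fl_fl i) (fun x => P9 (T ε f x))] at tot
  simp only [E_add, E_mul, E_const] at tot
  rw [eT] at tot
  rw [← eD] at hb0 hb1
  rw [eA] at s2 s3
  generalize E (fun x => D x ^ 2) = I at *
  generalize E D = b at *
  have u1 := mul_nonneg hν (sub_nonneg.2 s1)
  have u2 := mul_nonneg hμ (sub_nonneg.2 s2)
  have u3 := mul_nonneg hμ (mul_nonneg s4 (sub_nonneg.2 s3))
  have u4 := mul_nonneg (sub_nonneg.2 eI) (sub_nonneg.2 c4)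
  have u5 := conv_NCaseI (β := κ - 2 * ν + ν * ρ ^ 4 - μ * (θ * ρ ^ 2 + (1 - θ) * ρ ^ 6))
    (γ := -c + ν - κ + μ * (θ * ρ ^ 2 + (1 - θ) * ρ ^ 6)) (mul_nonneg hν s5) hb0 hb1
    (by linear_combination c3 b0 (.inl rfl)) (by linear_combination c3 b1 (.inr rfl))
  linear_combination tot + u1 + u2 + u3 + u4 + u5

theorem hat_abs_le {n : ℕ} {f : (Fin n → Bool) → ℝ} (hf : OB f) (i : Fin n) : |hat f {i}| ≤ 1 := by
  have h1 := W1_le f
  simp only [hf.1, E_const] at h1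
  have h2 : hat f {i} ^ 2 ≤ W1 f :=
    single_le_sum (f := fun j => hat f {j} ^ 2) (fun j _ => sq_nonneg _) (mem_univ i)
  exact (sq_le_one_iff_abs_le_one _).1 (h2.trans h1)

theorem W1_le_head {n : ℕ} {f : (Fin n → Bool) → ℝ} (hf : OB f) (i : Fin n) {θ : ℝ} (hθ : 0 ≤ θ)
    (hθ' : 3 * (1 - |hat f {i}|) ≤ θ ^ 2) :
    W1 f ≤ hat f {i} ^ 2 + θ * (1 - |hat f {i}|) := by
  obtain ⟨s, A, D, -, hA, -, -, eD, eI, eA, hA3⟩ := dec_NCaseI hf.1 i
  have s3 := lev1 hA3 hθ (.inl (by linarith))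
  have e1 : ∀ j, j ≠ i → hat A {j} = hat f {j} := fun j hj => by
    have := E_invol _ (fl_fl i) (fun x => f x * sg (x j))
    simp only [fl, Function.update_of_ne hj] at this
    simp only [hat, chi, prod_singleton, hA, add_mul, mul_assoc, E_add, E_mul, fl, this]
    ring
  have e2 : W1 f ≤ hat f {i} ^ 2 + W1 A := by
    unfold W1
    rw [← add_sum_erase _ _ (mem_univ i), ← add_sum_erase _ (fun j => hat A {j} ^ 2) (mem_univ i),
      sum_congr rfl fun j hj => show hat A {j} ^ 2 = hat f {j} ^ 2 by rw [e1 j (mem_erase.1 hj).1]]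
    linarith [sq_nonneg (hat A {i})]
  have e3 := mul_le_mul_of_nonneg_left (show E (fun x => A x ^ 2) ≤ 1 - |hat f {i}| by linarith) hθ
  linarith

end Pool.Agent.MP_ebf981_lc.N9

end

section

namespace Pool.Agent.MP_ebf981_lc.N9

open Finset

/-- a linear function of the scaled variable -/
def ln_NCoverA (r : Ex) (a b : ℤ) : Ex := .c 2000 * .i a + .i b * r

def aE_NCoverA (r : Ex) (th : ℕ) : Ex := .c th * .c 4000000 * r + (.c 1000 - .c th) * r.pw 3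

def pb_NCoverA (r a b : Ex) : Ex :=
  (.c 144000000 + .c 9 * r.pw 2) * (.c 4000000 * a + .c 2000 * b) +
    (.c 504000000 - .c 36000 * r - .c 9 * r.pw 2) * (.c 4000000 * a.pw 2 + .c 12000 * a * b + b.pw 2) +
    (.c 186000 + .c 18 * r) *
      (.c 8000000000 * a.pw 3 + .c 60000000 * a.pw 2 * b + .c 30000 * a * b.pw 2 + b.pw 3)

def ep_NCoverA (r nu ka c : Ex) (th mu b : ℕ) : Ex :=
  .neg (.c 4000000000000 * (nu - c - ka) + .c 4000000000 * .c b * (ka - .c 2 * nu) +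
    nu * .c b * .c b * (.c 4000000 - r.pw 2) + .c 1000 * .c b * nu * r.pw 2 +
    .c mu * (.c 1000 - .c b) * aE_NCoverA r th)

def gg_NCoverA (r nu ka c : Ex) (mu : ℕ) : Ex :=
  .c 10000 * (pb_NCoverA r (.c 0) r -
      pb_NCoverA r (.z * Ex.y.pw 2) (r * (Ex.c 1 - Ex.y).pw 2)) +
    .c 8000000000 * (nu * Ex.y.pw 2 - c - ka * .y) + .c 16000000000000 * .c mu * (.z * Ex.y.pw 2)

noncomputable def ok_NCoverA (p q b0 b1 th mu n0 n1 : ℕ) (k0 k1 c0 c1 : ℤ) (t : Tr) : Bool :=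
  let r := itp p q .x
  let nu := ln_NCoverA r n0 n1
  let ka := ln_NCoverA r k0 k1
  let c := ln_NCoverA r c0 c1
  an (Nat.blt p q) <| an (Nat.ble 3000000 (th * th + 3000 * b0)) <|
  an (check wb (gg_NCoverA r nu ka c mu) t) <| an (check wb (.c 2 * nu - ka) .l) <|
  an (check wb (.c mu * aE_NCoverA r th - .c 1000 * nu * r.pw 2) .l) <|
  an (check wb (ep_NCoverA r nu ka c th mu b0) .l) (check wb (ep_NCoverA r nu ka c th mu b1) .l)

theorem cell_NCoverA (p q b0 b1 th mu n0 n1 : ℕ) (k0 k1 c0 c1 : ℤ) (t : Tr)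
    (h : ok_NCoverA p q b0 b1 th mu n0 n1 k0 k1 c0 c1 t = true) {R b : ℝ}
    (r0 : (p : ℝ) / (2000 : ℕ) ≤ R) (r1 : R ≤ (q : ℝ) / (2000 : ℕ)) (h0 : (b0 : ℝ) / 1000 ≤ b)
    (h1 : b ≤ (b1 : ℝ) / 1000) :
    ∃ b0 b1 θ : ℝ, b0 ≤ b ∧ b ≤ b1 ∧ 0 ≤ θ ∧ (3 * (1 - b0) ≤ θ ^ 2 ∨ 1 ≤ θ) ∧ Adm9 R b0 b1 θ := by
  simp only [ok_NCoverA, an_eq, Nat.blt_eq, Nat.ble_eq] at h
  obtain ⟨hpq, hth, g1, g2, g3, g4, g5⟩ := h
  obtain ⟨u, u0, u1, hu⟩ := exists_itp (by norm_num) hpq r0 r1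
  have hR : 0 ≤ R := le_trans (by positivity) r0
  have hth' : (3000000 : ℝ) ≤ th * th + 3000 * b0 := by exact_mod_cast hth
  have a2 := box_sound g2 u0 u1 u0 u1 u0 u1
  have a3 := box_sound g3 u0 u1 u0 u1 u0 u1
  have a4 := box_sound g4 u0 u1 u0 u1 u0 u1
  have a5 := box_sound g5 u0 u1 u0 u1 u0 u1
  simp only [ep_NCoverA, aE_NCoverA, ln_NCoverA, itp, ev_add, ev_mul, ev_sub, ev_neg, ev_c, ev_x,
    ev_pw, ev_i, Nat.cast_one, Nat.cast_ofNat, Int.cast_natCast, hu] at a2 a3 a4 a5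
  refine ⟨_, _, th / 1000, h0, h1, by positivity, Or.inl (by linear_combination hth' / 1000000),
    mu / 10000, (n0 + n1 * R) / 10000, (k0 + k1 * R) / 10000, (c0 + c1 * R) / 10000,
    by positivity, by positivity, ?_, ?_, ?_, fun a e e0 e1 a0 a1 => ?_⟩
  · linear_combination a2 / 20000000
  · linear_combination a3 / 80000000000000000
  · rintro _ (rfl | rfl)
    · linear_combination a4 / 80000000000000000000
    · linear_combination a5 / 80000000000000000000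
  · obtain ⟨s, s0, s1, hs⟩ : ∃ s : ℝ, 0 ≤ s ∧ s ≤ 1 ∧ a = s * e ^ 2 := by
      rcases eq_or_lt_of_le (sq_nonneg e) with h | h
      · exact ⟨0, le_rfl, by norm_num, by linarith⟩
      · exact ⟨a / e ^ 2, by positivity, (div_le_one h).2 a1, (div_mul_cancel₀ a h.ne').symm⟩
    have a1 := box_sound g1 u0 u1 e0 e1 s0 s1
    simp only [gg_NCoverA, pb_NCoverA, ln_NCoverA, itp, ev_add, ev_mul, ev_sub, ev_c, ev_x, ev_y,
      ev_z, ev_pw, ev_i, Nat.cast_one, Nat.cast_ofNat, Nat.cast_zero, Int.cast_natCast, hu,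
      ← hs] at a1
    unfold pb9
    linear_combination a1 / 160000000000000000

/-- cover of the region of one large coefficient by admissible cells, first part -/
theorem coverA {R b : ℝ} (r0 : 0 ≤ R) (r1 : R ≤ 3 / 10) (b1 : b ≤ 1)
    (h : 975 / 1000 ≤ b ∨ (23 / 2000 ≤ R ∧ 88 / 100 ≤ b)) :
    ∃ b0 b1 θ : ℝ, b0 ≤ b ∧ b ≤ b1 ∧ 0 ≤ θ ∧ (3 * (1 - b0) ≤ θ ^ 2 ∨ 1 ≤ θ) ∧ Adm9 R b0 b1 θ := by
  have hb : 88 / 100 ≤ b := h.elim (fun h => by linarith) fun h => h.2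
  rcases lt_or_ge R (23 / 2000) with r2 | r2
  · have hb' : 975 / 1000 ≤ b := h.resolve_right fun h => absurd h.1 (not_le.2 r2)
    exact cell_NCoverA 0 23 975 1000 274 2551069 0 360070 0 709356 0 0 .l (by decide +kernel)
      (by push_cast; linarith) (by push_cast; linarith) (by push_cast; linarith)
      (by push_cast; linarith)
  rcases le_total R (1 / 10) with r3 | r3
  · rcases le_total b (905 / 1000) with c1 | c1
    · exact cell_NCoverA 23 200 880 905 600 632887 2406895 175416 515259 634779 (-27470) 1082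
        (.b (.b (.b (.b .l (.b .l (.b .l .l))) .l) .l) (.a (.a .l .l) .l)) (by decide +kernel)
        (by push_cast; linarith) (by push_cast; linarith) (by push_cast; linarith)
        (by push_cast; linarith)
    rcases le_total b (930 / 1000) with c2 | c2
    · exact cell_NCoverA 23 200 905 930 534 524577 2404854 99697 394450 528416 (-16011) 1128
        (.b (.b (.b (.b .l (.b (.b .l (.a .l .l)) .l)) .l) .l) (.a (.a .l .l) .l))
        (by decide +kernel) (by push_cast; linarith) (by push_cast; linarith)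
        (by push_cast; linarith) (by push_cast; linarith)
    rcases le_total b (952 / 1000) with c3 | c3
    · exact cell_NCoverA 23 200 930 952 459 513377 2298996 0 269837 393108 (-7798) 6480 (.b
        (.b (.b (.b (.b .l (.b .l .l)) .l) .l) .l) (.a (.a .l .l) .l)) (by decide +kernel)
        (by push_cast; linarith) (by push_cast; linarith) (by push_cast; linarith)
        (by push_cast; linarith)
    rcases le_total b (971 / 1000) with c4 | c4
    · exact cell_NCoverA 23 200 952 971 380 575702 2134268 0 162769 386898 (-3134) 14196 (.b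
        (.b (.b (.b (.b .l (.b .l .l)) .l) .l) .l) (.a (.a (.a (.a .l .l) .l) .l) .l))
        (by decide +kernel) (by push_cast; linarith) (by push_cast; linarith)
        (by push_cast; linarith) (by push_cast; linarith)
    · exact cell_NCoverA 23 200 971 1000 295 2550696 547 397941 (-265) 789877 0 0 .l
        (by decide +kernel) (by push_cast; linarith) (by push_cast; linarith)
        (by push_cast; linarith) (by push_cast; linarith)
  · rcases le_total b (940 / 1000) with c1 | c1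
    · exact cell_NCoverA 200 600 880 940 600 1283632 1537061 610923 226686 1527273 (-11452)
        600 (.b (.b (.b (.b .l (.a .l .l)) .l) .l) (.a .l .l)) (by decide +kernel)
        (by push_cast; linarith) (by push_cast; linarith) (by push_cast; linarith)
        (by push_cast; linarith)
    · exact cell_NCoverA 200 600 940 1000 425 2516798 0 1208968 (-31003) 1487730 0 0 (.b .l
        .l) (by decide +kernel) (by push_cast; linarith) (by push_cast; linarith)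
        (by push_cast; linarith) (by push_cast; linarith)

end Pool.Agent.MP_ebf981_lc.N9

end

section

namespace Pool.Agent.MP_ebf981_lc.N9

open Finset

def exG_NCoverB (p q bb th mu nu : ℕ) : Ex :=
  let r := itp p q .x
  let a := Ex.z * Ex.y.pw 2
  let b := r * (.c 1 - Ex.y).pw 2
  let c1 := .c 360000 + .c 9 * r.pw 2
  let c2 := .c 1260000 - .c 1800 * r - .c 9 * r.pw 2
  let c3 := .c 9300 + .c 18 * r
  .c 1000 * ((.c 100 * c1 * r + c2 * r.pw 2 + c3 * r.pw 3) -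
    (.c 100 * c1 * (.c 100 * a + b) + c2 * (.c 10000 * a.pw 2 + .c 600 * a * b + b.pw 2) +
      c3 * (.c 1000000 * a.pw 3 + .c 150000 * a.pw 2 * b + .c 1500 * a * b.pw 2 + b.pw 3))) -
    .c 100 * exK p q bb th mu nu * .y + .c 1000000000 * .c nu * r * Ex.y.pw 2 +
    .c 100000000000 * .c mu * a

theorem sound_NCoverB {p q bb th mu nu : ℕ} {t1 : Tr} (hpq : p < q)
    (h1 : check wb (exG_NCoverB p q bb th mu nu) t1 = true)
    (h2 : check wb (.c 20000000 * .c nu * itp p q .x - exK p q bb th mu nu) .l = true)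
    (h3 : check wb (.c mu * exA p q th - .c 1000 * .c nu * (itp p q .x).pw 3) .l = true)
    {R : ℝ} (r0 : (p : ℝ) / 100 ≤ R) (r1 : R ≤ (q : ℝ) / 100) :
    Adm9 R (bb / 1000) 1 (th / 1000) := by
  obtain ⟨u, u0, u1, hu⟩ := exists_itp (N := 100) (by norm_num) hpq (by simpa using r0)
    (by simpa using r1)
  have hR : 0 ≤ R := le_trans (by positivity) r0
  have a2 := box_sound h2 u0 u1 u0 u1 u0 u1
  have a3 := box_sound h3 u0 u1 u0 u1 u0 u1
  simp only [exK, exA, itp, ev_add, ev_mul, ev_sub, ev_c, ev_x, ev_pw, Nat.cast_one,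
    Nat.cast_ofNat, hu] at a2 a3
  refine ⟨mu, nu * R, nu * R * (1 - bb / 1000 * (1 - R ^ 2)) +
    mu * (th / 1000 * R + (1 - th / 1000) * R ^ 3), 0, by positivity, by positivity, ?_, ?_, ?_,
    fun a e e0 e1 a0 a1 => ?_⟩
  · linear_combination a2 / 1000000000
  · linear_combination a3 / 1000000000
  · rintro b (rfl | rfl)
    · exact le_of_eq (by ring)
    · exact le_of_eq (by ring)
  · obtain ⟨s, s0, s1, hs⟩ : ∃ s : ℝ, 0 ≤ s ∧ s ≤ 1 ∧ a = s * e ^ 2 := by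
      rcases eq_or_lt_of_le (sq_nonneg e) with h | h
      · exact ⟨0, le_rfl, by norm_num, by linarith⟩
      · exact ⟨a / e ^ 2, by positivity, (div_le_one h).2 a1, (div_mul_cancel₀ a h.ne').symm⟩
    have a1 := box_sound h1 u0 u1 e0 e1 s0 s1
    simp only [exG_NCoverB, exK, exA, itp, ev_add, ev_mul, ev_sub, ev_c, ev_x, ev_y, ev_z, ev_pw,
      Nat.cast_one, Nat.cast_ofNat, hu, ← hs] at a1
    unfold pb9
    linear_combination a1 / 100000000000

theorem c0_NCoverB {R : ℝ} (r0 : ((30 : ℕ) : ℝ) / 100 ≤ R) (r1 : R ≤ ((36 : ℕ) : ℝ) / 100) :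
    Adm9 R ((880 : ℕ) / 1000) 1 ((600 : ℕ) / 1000) :=
  sound_NCoverB (mu := 245) (nu := 190) (t1 := (.b .l .l)) (by decide)
    (by decide +kernel) (by decide +kernel) (by decide +kernel) r0 r1

theorem c1_NCoverB {R : ℝ} (r0 : ((36 : ℕ) : ℝ) / 100 ≤ R) (r1 : R ≤ ((42 : ℕ) : ℝ) / 100) :
    Adm9 R ((880 : ℕ) / 1000) 1 ((600 : ℕ) / 1000) :=
  sound_NCoverB (mu := 170) (nu := 390) (t1 := (.b .l .l)) (by decide)
    (by decide +kernel) (by decide +kernel) (by decide +kernel) r0 r1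

theorem c2_NCoverB {R : ℝ} (r0 : ((42 : ℕ) : ℝ) / 100 ≤ R) (r1 : R ≤ ((49 : ℕ) : ℝ) / 100) :
    Adm9 R ((880 : ℕ) / 1000) 1 ((600 : ℕ) / 1000) :=
  sound_NCoverB (mu := 190) (nu := 310) (t1 := (.b .l .l)) (by decide)
    (by decide +kernel) (by decide +kernel) (by decide +kernel) r0 r1

theorem c3_NCoverB {R : ℝ} (r0 : ((49 : ℕ) : ℝ) / 100 ≤ R) (r1 : R ≤ ((56 : ℕ) : ℝ) / 100) :
    Adm9 R ((880 : ℕ) / 1000) 1 ((600 : ℕ) / 1000) :=
  sound_NCoverB (mu := 195) (nu := 280) (t1 := (.b .l .l)) (by decide)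
    (by decide +kernel) (by decide +kernel) (by decide +kernel) r0 r1

theorem c4_NCoverB {R : ℝ} (r0 : ((56 : ℕ) : ℝ) / 100 ≤ R) (r1 : R ≤ ((64 : ℕ) : ℝ) / 100) :
    Adm9 R ((880 : ℕ) / 1000) 1 ((600 : ℕ) / 1000) :=
  sound_NCoverB (mu := 215) (nu := 235) (t1 := (.b .l .l)) (by decide)
    (by decide +kernel) (by decide +kernel) (by decide +kernel) r0 r1

theorem c5_NCoverB {R : ℝ} (r0 : ((64 : ℕ) : ℝ) / 100 ≤ R) (r1 : R ≤ ((73 : ℕ) : ℝ) / 100) :
    Adm9 R ((880 : ℕ) / 1000) 1 ((600 : ℕ) / 1000) :=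
  sound_NCoverB (mu := 215) (nu := 240) (t1 := (.b .l .l)) (by decide)
    (by decide +kernel) (by decide +kernel) (by decide +kernel) r0 r1

theorem c6_NCoverB {R : ℝ} (r0 : ((72 : ℕ) : ℝ) / 100 ≤ R) (r1 : R ≤ ((77 : ℕ) : ℝ) / 100) :
    Adm9 R ((750 : ℕ) / 1000) 1 ((867 : ℕ) / 1000) :=
  sound_NCoverB (mu := 190) (nu := 275) (t1 := (.b (.b .l .l) .l)) (by decide)
    (by decide +kernel) (by decide +kernel) (by decide +kernel) r0 r1

theorem c7_NCoverB {R : ℝ} (r0 : ((77 : ℕ) : ℝ) / 100 ≤ R) (r1 : R ≤ ((81 : ℕ) : ℝ) / 100) :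
    Adm9 R ((750 : ℕ) / 1000) 1 ((867 : ℕ) / 1000) :=
  sound_NCoverB (mu := 200) (nu := 265) (t1 := (.b .l .l)) (by decide)
    (by decide +kernel) (by decide +kernel) (by decide +kernel) r0 r1

theorem c8_NCoverB {R : ℝ} (r0 : ((81 : ℕ) : ℝ) / 100 ≤ R) (r1 : R ≤ ((85 : ℕ) : ℝ) / 100) :
    Adm9 R ((750 : ℕ) / 1000) 1 ((867 : ℕ) / 1000) :=
  sound_NCoverB (mu := 207) (nu := 262) (t1 := (.b .l .l)) (by decide)
    (by decide +kernel) (by decide +kernel) (by decide +kernel) r0 r1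

theorem c9_NCoverB {R : ℝ} (r0 : ((85 : ℕ) : ℝ) / 100 ≤ R) (r1 : R ≤ ((90 : ℕ) : ℝ) / 100) :
    Adm9 R ((750 : ℕ) / 1000) 1 ((867 : ℕ) / 1000) :=
  sound_NCoverB (mu := 222) (nu := 252) (t1 := (.b .l .l)) (by decide)
    (by decide +kernel) (by decide +kernel) (by decide +kernel) r0 r1

theorem c10_NCoverB {R : ℝ} (r0 : ((90 : ℕ) : ℝ) / 100 ≤ R) (r1 : R ≤ ((95 : ℕ) : ℝ) / 100) :
    Adm9 R ((750 : ℕ) / 1000) 1 ((867 : ℕ) / 1000) :=
  sound_NCoverB (mu := 237) (nu := 250) (t1 := (.b .l .l)) (by decide)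
    (by decide +kernel) (by decide +kernel) (by decide +kernel) r0 r1

theorem c11_NCoverB {R : ℝ} (r0 : ((95 : ℕ) : ℝ) / 100 ≤ R) (r1 : R ≤ ((100 : ℕ) : ℝ) / 100) :
    Adm9 R ((750 : ℕ) / 1000) 1 ((867 : ℕ) / 1000) :=
  sound_NCoverB (mu := 212) (nu := 212) (t1 := (.b .l .l)) (by decide)
    (by decide +kernel) (by decide +kernel) (by decide +kernel) r0 r1

/-- cover of the region of one large coefficient by admissible cells, second part -/
theorem coverB {R b : ℝ} (r0 : 3 / 10 ≤ R) (r1 : R ≤ 1) (b1 : b ≤ 1)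
    (h : 88 / 100 ≤ b ∨ (73 / 100 ≤ R ∧ 3 / 4 ≤ b)) :
    ∃ b0 b1 θ : ℝ, b0 ≤ b ∧ b ≤ b1 ∧ 0 ≤ θ ∧ (3 * (1 - b0) ≤ θ ^ 2 ∨ 1 ≤ θ) ∧ Adm9 R b0 b1 θ := by
  by_cases hR : 73 / 100 ≤ R
  · refine ⟨(750 : ℕ) / 1000, 1, (867 : ℕ) / 1000, ?_, b1, by positivity, Or.inl (by norm_num), ?_⟩
    · push_cast
      rcases h with h | h
      · linarith
      · linarith [h.2]
    rcases le_total R (((77 : ℕ) : ℝ) / 100) with h6 | h6
    · exact c6_NCoverB (by push_cast; linarith) h6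
    rcases le_total R (((81 : ℕ) : ℝ) / 100) with h7 | h7
    · exact c7_NCoverB h6 h7
    rcases le_total R (((85 : ℕ) : ℝ) / 100) with h8 | h8
    · exact c8_NCoverB h7 h8
    rcases le_total R (((90 : ℕ) : ℝ) / 100) with h9 | h9
    · exact c9_NCoverB h8 h9
    rcases le_total R (((95 : ℕ) : ℝ) / 100) with h10 | h10
    · exact c10_NCoverB h9 h10
    exact c11_NCoverB h10 (by push_cast; linarith)
  · rw [not_le] at hR
    refine ⟨(880 : ℕ) / 1000, 1, (600 : ℕ) / 1000, ?_, b1, by positivity, Or.inl (by norm_num), ?_⟩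
    · push_cast
      rcases h with h | h
      · linarith
      · linarith [h.1]
    rcases le_total R (((36 : ℕ) : ℝ) / 100) with h0 | h0
    · exact c0_NCoverB (by push_cast; linarith) h0
    rcases le_total R (((42 : ℕ) : ℝ) / 100) with h1 | h1
    · exact c1_NCoverB h0 h1
    rcases le_total R (((49 : ℕ) : ℝ) / 100) with h2 | h2
    · exact c2_NCoverB h1 h2
    rcases le_total R (((56 : ℕ) : ℝ) / 100) with h3 | h3
    · exact c3_NCoverB h2 h3
    rcases le_total R (((64 : ℕ) : ℝ) / 100) with h4 | h4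
    · exact c4_NCoverB h3 h4
    exact c5_NCoverB h4 (by push_cast; linarith)

end Pool.Agent.MP_ebf981_lc.N9

end

section

namespace Pool.Agent.MP_ebf981_lc.N9

open Finset

theorem pt_NEnds {g t : ℝ} (hg : g ^ 2 ≤ 1) : P9 g ≤ 36 * g ^ 2 + 185 * t ^ 4 + 165 * t ^ 6 +
    26499 * (g ^ 2 - 2 * (g * t) + t ^ 2) := by
  have h0 := sq_nonneg g
  have h4 : 0 ≤ t ^ 4 := by positivity
  have h6 : 0 ≤ t ^ 6 := by positivity
  have e4 : g ^ 4 = (g ^ 2) ^ 2 := by ring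
  have e6 : g ^ 6 = (g ^ 2) ^ 3 := by ring
  have e8 : g ^ 8 = (g ^ 2) ^ 4 := by ring
  have h8 : (g ^ 2) ^ 4 ≤ (g ^ 2) ^ 3 := pow_le3 h0 hg (by norm_num)
  unfold P9
  rw [e4, e6, e8]
  rcases le_total (g ^ 2) (121 / 100 * t ^ 2) with h | h
  · have a1 := pow_le_pow_left₀ h0 h 2
    have a2 := pow_le_pow_left₀ h0 h 3
    nlinarith [sq_nonneg (g - t)]
  · have a1 : (g ^ 2) ^ 2 ≤ (g ^ 2) ^ 1 := pow_le3 h0 hg (by norm_num)
    have a2 : (g ^ 2) ^ 3 ≤ (g ^ 2) ^ 1 := pow_le3 h0 hg (by norm_num)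
    nlinarith [sq_nonneg (10 * g - 11 * t)]

theorem fin_NEnds {R W m4 m6 : ℝ} (r0 : 0 ≤ R) (r1 : R ≤ (28 / 256) ^ 2) (h6 : m6 ≤ 15)
    (h : (W ≤ 85 / 100 ∧ m4 ≤ 217 / 100) ∨ (W ≤ 96 / 100 ∧ m4 ≤ 105 / 100)) :
    36 * W + 26535 * R ^ 2 * (1 - W) + 185 * R * m4 + 165 * R ^ 2 * m6 ≤ 36 + 126 * R := by
  have a1 : R ^ 2 ≤ 14312 / 100000000 := (pow_le_pow_left₀ r0 r1 2).trans (by norm_num)
  have a2 := mul_le_mul_of_nonneg_left h6 (sq_nonneg R)
  rcases h with ⟨h1, h2⟩ | ⟨h1, h2⟩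
  · have a3 := mul_le_mul_of_nonneg_left h2 r0
    have a4 := mul_le_mul_of_nonneg_right a1 (show 0 ≤ 1 - W by linarith)
    nlinarith
  · have a3 := mul_le_mul_of_nonneg_left h2 r0
    have a4 := mul_le_mul_of_nonneg_right a1 (show 0 ≤ 1 - W by linarith)
    nlinarith

theorem alt_NEnds {b W Q : ℝ} (w0 : 0 ≤ W) (q0 : 0 ≤ Q) (hQ : b ^ 4 ≤ Q) (hb : b ≤ 975 / 1000)
    (h1 : b ≤ 3 / 4 → W ≤ 4 / 5)
    (h2 : W ≤ b ^ 2 + (10 / 3 * (1 - b) + 9 / 40) * (1 - b)) :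
    (W ≤ 85 / 100 ∧ 3 * W ^ 2 - 2 * Q ≤ 217 / 100) ∨
      (W ≤ 96 / 100 ∧ 3 * W ^ 2 - 2 * Q ≤ 105 / 100) := by
  rcases le_or_gt W (85 / 100) with h | h
  · exact Or.inl ⟨h, by nlinarith⟩
  · have b1 : 3 / 4 < b := lt_of_not_ge fun e => by linarith [h1 e]
    have b2 : 88 / 100 ≤ b := by
      by_contra e
      nlinarith [mul_nonneg (sub_nonneg.2 b1.le) (sub_nonneg.2 (not_le.1 e).le)]
    obtain ⟨u, rfl⟩ : ∃ u, b = 1 - u := ⟨1 - b, by ring⟩
    have u0 : 25 / 1000 ≤ u := by linarith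
    have u1 : u ≤ 12 / 100 := by linarith
    have a1 := mul_nonneg (sub_nonneg.2 u0) (sub_nonneg.2 u1)
    have a2 := pow_le_pow_left₀ w0 h2 2
    have a3 : u ^ 4 ≤ (12 / 100) ^ 4 := pow_le_pow_left₀ (by linarith) u1 4
    have a4 : 0 ≤ u ^ 3 := pow_nonneg (by linarith) 3
    exact Or.inr ⟨by nlinarith, by nlinarith⟩

theorem small9 {n : ℕ} {f : (Fin n → Bool) → ℝ} (hf : OB f) (i : Fin n) {ρ : ℝ} (r0 : 0 ≤ ρ)
    (r1 : ρ ≤ 28 / 256) (hb : |hat f {i}| ≤ 975 / 1000) (hW : |hat f {i}| ≤ 3 / 4 → W1 f ≤ 4 / 5) :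
    FF ρ f ≤ P9 ρ := by
  have r2 : ρ ≤ 1 := by linarith
  have hρ : 1 - 2 * ((1 - ρ) / 2) = ρ := by ring
  obtain ⟨a, ha'⟩ : ∃ a : Fin n → ℝ, a = fun j => hat f {j} := ⟨_, rfl⟩
  have hw : W1 f = ∑ j, a j ^ 2 := by rw [ha']; rfl
  have ef : E (fun x => f x ^ 2) = 1 := by simp only [hf.1, E_const]
  have w0 : 0 ≤ W1 f := sum_nonneg fun j _ => sq_nonneg _
  have w1 : W1 f ≤ 1 := (W1_le f).trans ef.le
  have e2 : E (fun x => TT ρ f x * ell a x) = ρ * W1 f := by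
    rw [E_ell, hw, ha', mul_sum]
    exact sum_congr rfl fun j _ => by rw [TT, hat_T, card_singleton, hρ]; ring
  have s2 : E (fun x => TT ρ f x ^ 2) ≤ ρ ^ 2 * W1 f + ρ ^ 6 * (1 - W1 f) := by
    have := spec_odd hf.2 (fun k => (ρ ^ k) ^ 2) (ρ ^ 6) fun k hk => by
      nlinarith [pow_le3 r0 r2 hk, pow_nonneg r0 k]
    rw [TT, E_T_sq, hρ]
    rw [ef] at this
    simpa using this
  have q0 : 0 ≤ ∑ j, a j ^ 4 := sum_nonneg fun j _ => by positivity
  have s3 : ∑ j, a j ^ 6 ≤ W1 f * ∑ j, a j ^ 4 := by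
    rw [mul_sum]
    refine sum_le_sum fun j _ => ?_
    have : a j ^ 2 ≤ W1 f := hw ▸ single_le_sum (f := fun j => a j ^ 2)
      (fun _ _ => sq_nonneg _) (mem_univ j)
    nlinarith [mul_le_mul_of_nonneg_right this (show 0 ≤ a j ^ 4 by positivity)]
  have s4 : |hat f {i}| ^ 4 ≤ ∑ j, a j ^ 4 := by
    have := single_le_sum (f := fun j => a j ^ 4) (fun _ _ => by positivity) (mem_univ i)
    rw [Even.pow_abs (by norm_num)]
    rw [ha'] at this ⊢
    exact this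
  have s5 := W1_le_head hf i (θ := 10 / 3 * (1 - |hat f {i}|) + 9 / 40) (by linarith)
    (by nlinarith [sq_nonneg (10 / 3 * (1 - |hat f {i}|) - 9 / 40)])
  rw [← sq_abs] at s5
  have key : ∀ x, P9 (TT ρ f x) ≤ 26535 * TT ρ f x ^ 2 + 185 * ρ ^ 4 * ell a x ^ 4 +
      165 * ρ ^ 6 * ell a x ^ 6 - 52998 * ρ * (TT ρ f x * ell a x) +
      26499 * ρ ^ 2 * ell a x ^ 2 := fun x => by
    have := pt_NEnds (g := TT ρ f x) (t := ρ * ell a x)
      (T_abs (by linarith) (by linarith) hf.1 x)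
    linear_combination this
  have tot := E_mono key
  simp only [E_add, E_sub, E_mul, ell_sq, ell_four, ell_six, e2, ← hw] at tot
  have s6 : 15 * W1 f ^ 3 - 30 * W1 f * ∑ j, a j ^ 4 + 16 * ∑ j, a j ^ 6 ≤ 15 := by
    nlinarith [pow_le_one₀ (n := 3) w0 w1, mul_nonneg w0 q0]
  have s7 := mul_le_mul_of_nonneg_left (fin_NEnds (sq_nonneg ρ) (pow_le_pow_left₀ r0 r1 2) s6
    (alt_NEnds w0 q0 s4 hb hW s5)) (sq_nonneg ρ)
  have p6 := pow_nonneg r0 6
  have p8 := pow_nonneg r0 8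
  unfold FF
  unfold P9 at tot ⊢
  linear_combination tot + 26535 * s2 + s7 + 84 * p6 + 9 * p8

theorem top_pt_NEnds {η ρ : ℝ} (h0 : -1 ≤ η) (h1 : η ≤ 1) (r0 : 245 / 256 ≤ ρ) (r1 : ρ ≤ 1) :
    P9 η ≤ 255 - (3000 * ρ - 2120) * (1 - ρ ^ 3) + (3000 * ρ - 2120) * (η ^ 2 - ρ ^ 3 * η) := by
  have e0 : 0 ≤ 1 + η := by linarith
  have d0 : 0 ≤ (1 + η) * (255 + 219 * η ^ 2 + 93 * η ^ 4) - (3000 * (245 / 256) - 2120) * (1 + η) -
      (3893 - 4755 * (245 / 256)) := by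
    nlinarith [mul_nonneg e0 (sq_nonneg (η ^ 2 - 27 / 100)),
      mul_nonneg e0 (sq_nonneg (η - 523 / 1000)), sq_nonneg (η - 523 / 1000)]
  have d1 : 0 ≤ (1 + η) * (255 + 219 * η ^ 2 + 93 * η ^ 4) - (3000 - 2120) * (1 + η) -
      (3893 - 4755) := by
    nlinarith [mul_nonneg e0 (sq_nonneg (η ^ 2 - 35 / 100)),
      mul_nonneg e0 (sq_nonneg (η - 593 / 1000)), sq_nonneg (η - 593 / 1000)]
  have d2 : 0 ≤ 3893 - 4755 * ρ + (3000 * ρ - 2120) * ρ ^ 3 := by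
    obtain ⟨t, rfl⟩ : ∃ t, ρ = 1 - t := ⟨1 - ρ, by ring⟩
    have a1 := mul_nonneg (sq_nonneg t) (show 0 ≤ 11 / 256 - t by linarith)
    have a2 : 0 ≤ t ^ 4 := by positivity
    nlinarith [sq_nonneg (t - 4 / 100)]
  have d3 := mul_nonneg (sub_nonneg.2 r1) d0
  have d4 := mul_nonneg (sub_nonneg.2 r0) d1
  have d5 : 0 ≤ (1 + η) * (255 + 219 * η ^ 2 + 93 * η ^ 4) - (3000 * ρ - 2120) * (1 + η - ρ ^ 3) := by
    linear_combination 256 / 11 * d3 + 256 / 11 * d4 + d2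
  have d6 := mul_nonneg (sub_nonneg.2 h1) d5
  have d7 := mul_nonneg (mul_nonneg (sub_nonneg.2 h1) e0) (show 0 ≤ η ^ 6 by positivity)
  unfold P9
  linear_combination d6 + 9 * d7

theorem top_fin_NEnds {ρ : ℝ} (r0 : 245 / 256 ≤ ρ) (r1 : ρ ≤ 1) :
    255 - (3000 * ρ - 2120) * (1 - ρ ^ 3) + (3000 * ρ - 2120) * ((ρ ^ 2 - ρ ^ 4) * (4 / 5)) ≤
      P9 ρ := by
  obtain ⟨t, rfl⟩ : ∃ t, ρ = 1 - t := ⟨1 - ρ, by ring⟩
  have t0 : 0 ≤ t := by linarith
  have t1 : t ≤ 11 / 256 := by linarith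
  have a2 := pow_le_pow_left₀ t0 t1 2
  have a4 := pow_le_pow_left₀ t0 t1 4
  have a6 := pow_le_pow_left₀ t0 t1 6
  have a3 := pow_nonneg t0 3
  have a5 := pow_nonneg t0 5
  have a7 := pow_nonneg t0 7
  have g : 0 ≤ 80 - 1016 * t - 7624 * t ^ 2 + 9320 * t ^ 3 - 3408 * t ^ 4 + 336 * t ^ 5 -
      72 * t ^ 6 + 9 * t ^ 7 := by
    norm_num at a2 a4 a6
    linarith
  unfold P9
  linear_combination mul_nonneg t0 g

theorem top9 {n : ℕ} {f : (Fin n → Bool) → ℝ} (hf : OB f) {ρ : ℝ} (r0 : 245 / 256 ≤ ρ)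
    (r1 : ρ ≤ 1) (hW : W1 f ≤ 4 / 5) : FF ρ f ≤ P9 ρ := by
  have r2 : 0 ≤ ρ := by linarith
  have hρ : 1 - 2 * ((1 - ρ) / 2) = ρ := by ring
  have s1 : E (fun x => TT ρ f x ^ 2) - ρ ^ 3 * E (fun x => TT ρ f x * f x) ≤
      (ρ ^ 2 - ρ ^ 4) * W1 f := by
    have := spec_odd hf.2 (fun k => (ρ ^ k) ^ 2 - ρ ^ 3 * ρ ^ k) 0 fun k hk => by
      nlinarith [pow_le3 r2 r1 hk, pow_nonneg r2 k]
    rw [TT, E_T_sq, E_T_mul, hρ, mul_sum, ← sum_sub_distrib]
    refine (le_of_eq (sum_congr rfl fun S _ => by ring)).trans (this.trans (le_of_eq (by ring)))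
  have key : ∀ x, P9 (TT ρ f x) ≤ 255 - (3000 * ρ - 2120) * (1 - ρ ^ 3) +
      (3000 * ρ - 2120) * (TT ρ f x ^ 2 - ρ ^ 3 * (TT ρ f x * f x)) := fun x => by
    have t : TT ρ f x ^ 2 ≤ 1 := T_abs (by linarith) (by linarith) hf.1 x
    have t0 : -1 ≤ TT ρ f x := by nlinarith
    have t1 : TT ρ f x ≤ 1 := by nlinarith
    rcases sq_eq_one_iff_of_ne_zero' (hf.1 x) with e | e
    · rw [e, mul_one]
      exact top_pt_NEnds t0 t1 r0 r1
    · have := top_pt_NEnds (η := -TT ρ f x) (by linarith) (by linarith) r0 r1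
      rw [e]
      unfold P9 at this ⊢
      linear_combination this
  have tot := E_mono key
  rw [E_add, E_const, E_mul, E_sub, E_mul] at tot
  have s2 := mul_le_mul_of_nonneg_left hW (sub_nonneg.2 (pow_le3 r2 r1 (show 2 ≤ 4 by norm_num)))
  have s3 := mul_le_mul_of_nonneg_left (s1.trans s2) (show 0 ≤ 3000 * ρ - 2120 by linarith)
  exact tot.trans ((add_le_add_right s3 _).trans (top_fin_NEnds r0 r1))

end Pool.Agent.MP_ebf981_lc.N9

end

section

namespace Pool.Agent.MP_ebf981_lc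

theorem I0_ok {R : ℝ} (r0 : (0 : ℝ) / 100 ≤ R) (r1 : R ≤ (9 : ℝ) / 100) :
    AdmI R (880 / 1000) (600 / 1000) := by
  have := admI_sound (p := 0) (q := 9) (bb := 880) (th := 600) (mu := 63) (nu := 28)
    (t1 := .l) (t2 := .l) (t3 := .l) (by decide)
    (by decide +kernel) (by decide +kernel) (by decide +kernel) (R := R)
    (by simpa using r0) (by simpa using r1)
  simpa using this

theorem I1_ok {R : ℝ} (r0 : (9 : ℝ) / 100 ≤ R) (r1 : R ≤ (25 : ℝ) / 100) :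
    AdmI R (820 / 1000) (735 / 1000) := by
  have := admI_sound (p := 9) (q := 25) (bb := 820) (th := 735) (mu := 63) (nu := 37)
    (t1 := .l) (t2 := .l) (t3 := .l) (by decide)
    (by decide +kernel) (by decide +kernel) (by decide +kernel) (R := R)
    (by simpa using r0) (by simpa using r1)
  simpa using this

theorem I2_ok {R : ℝ} (r0 : (25 : ℝ) / 100 ≤ R) (r1 : R ≤ (49 : ℝ) / 100) :
    AdmI R (730 / 1000) (900 / 1000) := by
  have := admI_sound (p := 25) (q := 49) (bb := 730) (th := 900) (mu := 63) (nu := 52)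
    (t1 := (.b (.b .l .l) .l)) (t2 := .l) (t3 := .l) (by decide)
    (by decide +kernel) (by decide +kernel) (by decide +kernel) (R := R)
    (by simpa using r0) (by simpa using r1)
  simpa using this

theorem I3_ok {R : ℝ} (r0 : (49 : ℝ) / 100 ≤ R) (r1 : R ≤ (81 : ℝ) / 100) :
    AdmI R (680 / 1000) (980 / 1000) := by
  have := admI_sound (p := 49) (q := 81) (bb := 680) (th := 980) (mu := 63) (nu := 52)
    (t1 := (.b (.b .l (.b .l .l)) .l)) (t2 := .l) (t3 := .l) (by decide)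
    (by decide +kernel) (by decide +kernel) (by decide +kernel) (R := R)
    (by simpa using r0) (by simpa using r1)
  simpa using this

theorem I4_ok {R : ℝ} (r0 : (81 : ℝ) / 100 ≤ R) (r1 : R ≤ (100 : ℝ) / 100) :
    AdmI R (620 / 1000) (1000 / 1000) := by
  have := admI_sound (p := 81) (q := 100) (bb := 620) (th := 1000) (mu := 62) (nu := 62)
    (t1 := (.b (.b .l (.b .l .l)) .l)) (t2 := .l) (t3 := .l) (by decide)
    (by decide +kernel) (by decide +kernel) (by decide +kernel) (R := R)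
    (by simpa using r0) (by simpa using r1)
  simpa using this

end Pool.Agent.MP_ebf981_lc

end

section

namespace Pool.Agent.MP_ebf981_lc

def C0 : Cert :=
    ⟨100, 0, 5, 4096, 10000, 9500, 10000, 7744, [9932, -228, 3457], [-3644, 760, -1169],
    [-6205, -446, -2114], [770, 56, 262], [258050, -2, 0], [3, 25768, 82], [-29031, -348,
    -10837], [-1, 8, -17]⟩

theorem C0_0 : check wh (C0.G .y)
    (.c (.b .l (.b (.b .l .l) .l)) (.b .l (.b (.b .l .l) .l))) = true := by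
  decide +kernel

theorem C0_1 : check wh (C0.G (.neg .y))
    (.c (.b .l (.b .l .l)) (.b .l (.b .l .l))) = true := by
  decide +kernel

theorem C0_2 : check wb (C0.F false)
    .l = true := by
  decide +kernel

theorem C0_3 : check wb (C0.F true)
    .l = true := by
  decide +kernel

theorem C0_4 : check wb (hor C0.c3)
    .l = true := by
  decide +kernel

theorem C0_5 : check wb (hor C0.ka)
    .l = true := by
  decide +kernel

theorem C0_ok {ρ W x Q : ℝ} (r0 : (0 : ℝ) / 100 ≤ ρ) (r1 : ρ ≤ (5 : ℝ) / 100)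
    (w0 : (9500 : ℝ) / 10000 ≤ W) (w1 : W ≤ (10000 : ℝ) / 10000) (x0 : 0 ≤ x) (x1 : x ≤ (7744 : ℝ) / 10000)
    (q0 : x * x ≤ Q) (q1 : Q ≤ x * W) : Adm ρ W x Q :=
  C0.sound (by decide) C0_0 C0_1 C0_2 C0_3 C0_4 C0_5 (by simpa [C0] using r0)
    (by simpa [C0] using r1) (by simpa [C0] using w0) (by simpa [C0] using w1) x0
    (by simpa [C0] using x1) q0 q1

def C1 : Cert :=
    ⟨100, 5, 15, 1048576, 10000, 0, 10000, 7744, [-23257, -69956, -127097], [34687, 98880,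
    195230], [-9682, -27602, -54494], [1100, 3134, 6190], [74807899, 17866488, 8818552],
    [2007385, 4408342, -334734], [-84776, -308418, -406430], [307907, 598642, 397605]⟩

theorem C1_0 : check wh (C1.G .y)
    (.c (.b .l (.b .l (.b (.b .l (.b .l (.b .l .l))) .l))) (.b (.c (.c (.c (.b (.c .l .l) (.c
    (.b (.c .l .l) (.c .l (.a (.a (.c (.b .l .l) (.a .l .l)) .l) .l))) (.b (.a .l .l) (.a (.c
    (.a .l (.b .l .l)) .l) (.c (.b .l .l) (.b .l (.a .l .l))))))) (.b .l (.b .l (.c (.a .l (.b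
    .l .l)) .l)))) .l) .l) (.b (.c (.c (.c (.c (.a (.c .l (.b (.a (.a .l .l) .l) .l)) .l) (.a
    (.b (.c (.a (.b .l .l) .l) (.a .l .l)) (.a (.c .l (.b .l (.a .l .l))) .l)) (.b (.c .l .l)
    .l))) (.b (.a (.c .l .l) (.c (.a .l .l) .l)) (.a (.c (.a (.b .l .l) (.b (.c .l .l) (.c (.a
    .l .l) (.a .l .l)))) (.b .l .l)) (.c (.b .l (.a .l .l)) (.a (.b .l (.a .l .l)) (.b .l
    .l)))))) (.b .l (.c (.b (.a .l .l) (.a .l (.c (.a .l (.b .l .l)) .l))) .l))) (.b .l (.b .l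
    (.b (.a (.a (.b .l .l) (.b .l (.a .l .l))) (.b .l .l)) (.a .l .l))))) (.c (.c (.b (.c .l
    .l) .l) .l) .l)))) = true := by
  decide +kernel

theorem C1_1 : check wh (C1.G (.neg .y))
    (.c (.b (.c .l (.c .l (.b .l .l))) (.b (.c .l (.c .l .l)) (.c .l (.b .l .l)))) (.b .l (.b
    .l (.b (.b .l (.b .l .l)) .l)))) = true := by
  decide +kernel

theorem C1_2 : check wb (C1.F false)
    .l = true := by
  decide +kernel

theorem C1_3 : check wb (C1.F true)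
    .l = true := by
  decide +kernel

theorem C1_4 : check wb (hor C1.c3)
    .l = true := by
  decide +kernel

theorem C1_5 : check wb (hor C1.ka)
    .l = true := by
  decide +kernel

theorem C1_ok {ρ W x Q : ℝ} (r0 : (5 : ℝ) / 100 ≤ ρ) (r1 : ρ ≤ (15 : ℝ) / 100)
    (w0 : (0 : ℝ) / 10000 ≤ W) (w1 : W ≤ (10000 : ℝ) / 10000) (x0 : 0 ≤ x) (x1 : x ≤ (7744 : ℝ) / 10000)
    (q0 : x * x ≤ Q) (q1 : Q ≤ x * W) : Adm ρ W x Q :=
  C1.sound (by decide) C1_0 C1_1 C1_2 C1_3 C1_4 C1_5 (by simpa [C1] using r0)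
    (by simpa [C1] using r1) (by simpa [C1] using w0) (by simpa [C1] using w1) x0
    (by simpa [C1] using x1) q0 q1

def C2 : Cert :=
    ⟨100, 15, 30, 65536, 10000, 0, 7000, 7744, [-30558, -68246, -29133], [34115, 79232, 28748],
    [216, 4248, -2001], [1109, 926, 2225], [5223246, 1368934, 370542], [591169, 735424,
    187096], [-3570, 21676, -66509], [103160, 98710, 75108]⟩

theorem C2_0 : check wh (C2.G .y)
    (.c (.b .l (.b .l (.b (.b (.b .l (.b .l (.a .l (.b .l .l)))) .l) .l))) (.b (.c (.c (.c (.b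
    (.c .l .l) (.c (.b .l .l) (.b .l .l))) (.b .l (.b .l (.c (.a .l .l) .l)))) .l) .l) (.b (.c
    (.c (.c (.b .l .l) (.b (.a (.c (.c .l (.a .l .l)) (.a .l .l)) (.b .l .l)) (.a (.c .l .l)
    .l))) (.b (.c (.a .l (.c .l .l)) .l) (.c (.a .l .l) .l))) (.b .l (.b (.b (.a (.a .l .l) .l)
    .l) .l))) .l))) = true := by
  decide +kernel

theorem C2_1 : check wh (C2.G (.neg .y))
    (.c (.b (.c .l (.c .l (.c (.a .l .l) (.b (.c .l .l) (.c (.a .l .l) .l))))) (.b (.c (.b .l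
    .l) (.c .l (.c (.a (.b (.a .l .l) .l) .l) .l))) .l)) (.b (.c (.c (.a .l .l) .l) .l) (.b .l
    (.b (.b (.b .l (.a (.a .l .l) .l)) .l) .l)))) = true := by
  decide +kernel

theorem C2_2 : check wb (C2.F false)
    .l = true := by
  decide +kernel

theorem C2_3 : check wb (C2.F true)
    .l = true := by
  decide +kernel

theorem C2_4 : check wb (hor C2.c3)
    .l = true := by
  decide +kernel

theorem C2_5 : check wb (hor C2.ka)
    .l = true := by
  decide +kernel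

theorem C2_ok {ρ W x Q : ℝ} (r0 : (15 : ℝ) / 100 ≤ ρ) (r1 : ρ ≤ (30 : ℝ) / 100)
    (w0 : (0 : ℝ) / 10000 ≤ W) (w1 : W ≤ (7000 : ℝ) / 10000) (x0 : 0 ≤ x) (x1 : x ≤ (7744 : ℝ) / 10000)
    (q0 : x * x ≤ Q) (q1 : Q ≤ x * W) : Adm ρ W x Q :=
  C2.sound (by decide) C2_0 C2_1 C2_2 C2_3 C2_4 C2_5 (by simpa [C2] using r0)
    (by simpa [C2] using r1) (by simpa [C2] using w0) (by simpa [C2] using w1) x0
    (by simpa [C2] using x1) q0 q1

def C3 : Cert :=
    ⟨100, 15, 30, 65536, 10000, 7000, 10000, 7744, [-11820, -12604, -10484], [20030, 19138,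
    17537], [-8531, -4178, -7191], [1150, 378, 956], [6582807, -1779106, 9212083], [411787,
    636378, 71203], [-58978, -129492, -110298], [96148, 74692, 114939]⟩

theorem C3_0 : check wh (C3.G .y)
    (.c (.b .l (.b .l (.b (.b .l (.a .l .l)) .l))) (.b (.c (.c (.b (.c .l .l) (.c (.b (.c .l
    .l) (.c .l (.b (.a (.c .l (.c .l (.a .l .l))) .l) (.a (.c .l (.a (.c .l (.b .l .l)) .l))
    .l)))) (.b (.c (.a .l .l) .l) (.a (.c (.b (.c (.a .l .l) (.a .l .l)) (.c (.a (.b (.a .l .l)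
    (.a .l .l)) (.a .l .l)) (.a .l (.b (.c .l .l) .l)))) (.b .l (.b (.a .l .l) (.a .l (.a .l
    .l))))) (.c (.b (.a (.c .l (.a (.a .l .l) .l)) .l) (.a (.c .l (.b (.a .l .l) .l)) .l)) (.b
    (.a (.c (.c .l .l) .l) (.c (.b .l (.a .l .l)) (.b .l (.a .l .l)))) (.a (.c (.b (.a (.b .l
    .l) (.b .l .l)) .l) (.b .l .l)) (.c (.b (.a .l .l) .l) (.b (.a (.b .l .l) (.c .l .l))
    .l))))))))) (.b .l (.b .l (.c (.a .l (.b .l (.c (.b (.a .l (.c (.b .l .l) .l)) (.a .l (.c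
    .l .l))) .l))) .l)))) .l) (.b (.c (.c (.c .l (.b (.a (.c (.c .l (.b .l .l)) (.b (.a .l .l)
    .l)) (.c .l (.a .l .l))) (.a (.b (.c .l (.b .l (.a (.b .l .l) .l))) .l) .l))) (.b (.c (.a
    .l (.b (.c (.a .l .l) .l) .l)) (.a .l (.b .l .l))) (.a (.c (.a (.b (.c (.a (.a .l .l) .l)
    .l) (.c (.a .l .l) .l)) (.b (.c .l .l) (.c (.a .l .l) (.a (.b .l .l) .l)))) (.b .l (.a .l
    (.a .l .l)))) (.c .l (.b .l .l))))) (.b .l (.a (.b (.a .l .l) (.a (.b .l .l) (.b (.a (.b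
    (.a .l .l) .l) .l) .l))) (.c (.b (.c .l .l) (.c (.a .l .l) (.b (.c (.b .l .l) (.b .l .l))
    .l))) (.b .l (.b .l (.b .l .l))))))) (.b (.c (.a (.c (.b .l .l) .l) (.b (.c .l .l) .l)) (.a
    .l .l)) .l)))) = true := by
  decide +kernel

theorem C3_1 : check wh (C3.G (.neg .y))
    (.c (.b (.c .l .l) (.b (.c .l .l) (.b .l .l))) (.b .l (.b .l (.b (.b .l .l) .l)))) = true
    := by
  decide +kernel

theorem C3_2 : check wb (C3.F false)
    .l = true := by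
  decide +kernel

theorem C3_3 : check wb (C3.F true)
    .l = true := by
  decide +kernel

theorem C3_4 : check wb (hor C3.c3)
    .l = true := by
  decide +kernel

theorem C3_5 : check wb (hor C3.ka)
    .l = true := by
  decide +kernel

theorem C3_ok {ρ W x Q : ℝ} (r0 : (15 : ℝ) / 100 ≤ ρ) (r1 : ρ ≤ (30 : ℝ) / 100)
    (w0 : (7000 : ℝ) / 10000 ≤ W) (w1 : W ≤ (10000 : ℝ) / 10000) (x0 : 0 ≤ x) (x1 : x ≤ (7744 : ℝ) / 10000)
    (q0 : x * x ≤ Q) (q1 : Q ≤ x * W) : Adm ρ W x Q :=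
  C3.sound (by decide) C3_0 C3_1 C3_2 C3_3 C3_4 C3_5 (by simpa [C3] using r0)
    (by simpa [C3] using r1) (by simpa [C3] using w0) (by simpa [C3] using w1) x0
    (by simpa [C3] using x1) q0 q1

def C4 : Cert :=
    ⟨100, 30, 50, 4096, 10000, 0, 7000, 6724, [-8119, -14392, -1974], [8925, 18174, -729],
    [-106, 510, -353], [358, 110, 561], [438354, 215160, 39817], [86759, 113568, 54047],
    [-2774, 4104, -24403], [20109, 10850, 17242]⟩

theorem C4_0 : check wh (C4.G .y)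
    (.c (.b .l (.b .l (.b (.b (.b .l (.b .l (.a .l .l))) .l) .l))) (.b (.c (.c (.b (.c (.c .l
    .l) .l) (.c (.b .l .l) (.b (.a .l .l) (.b .l .l)))) (.b .l (.b (.c .l .l) (.c (.a .l .l)
    .l)))) .l) (.b (.c (.c (.b .l (.a .l .l)) (.b (.c (.a (.b .l .l) .l) (.a .l (.a .l .l)))
    (.a (.c .l (.a .l .l)) .l))) (.b (.c (.a .l (.c (.a .l .l) .l)) .l) (.b (.a (.b .l .l) (.c
    .l .l)) .l))) (.b .l .l)))) = true := by
  decide +kernel

theorem C4_1 : check wh (C4.G (.neg .y))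
    (.c (.b (.c .l (.c .l (.b .l .l))) (.b (.c .l (.a .l .l)) .l)) (.b (.c (.c (.c (.a .l .l)
    .l) .l) .l) (.b .l (.b (.b (.b .l .l) .l) .l)))) = true := by
  decide +kernel

theorem C4_2 : check wb (C4.F false)
    .l = true := by
  decide +kernel

theorem C4_3 : check wb (C4.F true)
    .l = true := by
  decide +kernel

theorem C4_4 : check wb (hor C4.c3)
    .l = true := by
  decide +kernel

theorem C4_5 : check wb (hor C4.ka)
    .l = true := by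
  decide +kernel

theorem C4_ok {ρ W x Q : ℝ} (r0 : (30 : ℝ) / 100 ≤ ρ) (r1 : ρ ≤ (50 : ℝ) / 100)
    (w0 : (0 : ℝ) / 10000 ≤ W) (w1 : W ≤ (7000 : ℝ) / 10000) (x0 : 0 ≤ x) (x1 : x ≤ (6724 : ℝ) / 10000)
    (q0 : x * x ≤ Q) (q1 : Q ≤ x * W) : Adm ρ W x Q :=
  C4.sound (by decide) C4_0 C4_1 C4_2 C4_3 C4_4 C4_5 (by simpa [C4] using r0)
    (by simpa [C4] using r1) (by simpa [C4] using w0) (by simpa [C4] using w1) x0
    (by simpa [C4] using x1) q0 q1

end Pool.Agent.MP_ebf981_lc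

end

section

namespace Pool.Agent.MP_ebf981_lc

def C5 : Cert :=
    ⟨100, 30, 50, 4096, 10000, 7000, 8000, 6724, [-3644, -7394, 1874], [6539, 18920, -7190],
    [-2167, -12428, 6458], [327, 2082, -1118], [560499, 347592, 931848], [98590, -250156,
    409209], [-17342, -22042, -22404], [14171, 90432, -10351]⟩

theorem C5_0 : check wh (C5.G .y)
    (.c (.b .l (.b .l (.b (.b (.a (.b .l .l) (.b .l (.a (.b .l .l) (.b .l .l)))) (.b (.a .l (.b
    (.a (.b .l .l) (.b .l (.a .l .l))) (.a .l (.b (.a .l .l) .l)))) .l)) .l))) (.b (.c (.c (.b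
    (.c .l .l) (.b (.c .l (.a (.c .l (.b .l (.a .l .l))) (.b .l .l))) (.c .l (.a (.c (.b (.b .l
    .l) .l) (.b (.a (.b .l .l) .l) .l)) .l)))) (.b .l (.b (.c (.c (.a (.b .l (.a .l .l)) (.b .l
    (.c .l (.a .l .l)))) (.a .l (.b .l (.c .l .l)))) .l) (.c (.a (.b (.c (.a .l (.b (.c .l .l)
    .l)) (.b .l .l)) (.c .l .l)) (.b (.c (.b (.c .l (.a .l .l)) .l) (.b (.c (.a .l .l) (.a .l
    .l)) (.a (.a .l .l) .l))) (.c .l .l))) (.b (.a .l (.c (.b .l (.a .l .l)) .l)) (.a .l (.c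
    (.a .l .l) .l))))))) (.b .l (.c (.b .l .l) .l))) (.b (.c (.c (.a .l .l) (.b (.a (.c .l (.b
    .l .l)) (.c .l (.b .l .l))) (.a (.b (.c .l (.b .l (.c .l .l))) .l) .l))) (.b (.c (.b (.c
    (.a .l .l) .l) (.a (.c .l .l) (.c .l .l))) (.a .l (.c .l .l))) (.c (.a (.b (.c (.a .l .l)
    (.b .l .l)) .l) (.b (.c .l (.a (.b (.a .l .l) .l) (.b .l .l))) .l)) (.a (.b (.a (.b .l (.a
    (.b .l (.a .l .l)) (.b .l .l))) .l) (.a (.b (.a .l .l) .l) .l)) (.b (.c (.a (.b .l .l) (.b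
    (.c (.a .l .l) (.a .l .l)) (.c (.a .l .l) (.a .l (.a .l .l))))) (.b .l (.a .l (.b (.b .l
    .l) .l)))) (.a .l .l)))))) (.b (.b (.a (.c .l .l) (.c (.b (.a .l .l) (.a .l .l)) .l)) .l)
    .l)))) = true := by
  decide +kernel

theorem C5_1 : check wh (C5.G (.neg .y))
    (.c (.b (.c .l .l) (.b .l (.b .l .l))) (.b (.c .l .l) (.b .l (.b (.b .l .l) .l)))) = true
    := by
  decide +kernel

theorem C5_2 : check wb (C5.F false)
    .l = true := by
  decide +kernel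

theorem C5_3 : check wb (C5.F true)
    .l = true := by
  decide +kernel

theorem C5_4 : check wb (hor C5.c3)
    .l = true := by
  decide +kernel

theorem C5_5 : check wb (hor C5.ka)
    .l = true := by
  decide +kernel

theorem C5_ok {ρ W x Q : ℝ} (r0 : (30 : ℝ) / 100 ≤ ρ) (r1 : ρ ≤ (50 : ℝ) / 100)
    (w0 : (7000 : ℝ) / 10000 ≤ W) (w1 : W ≤ (8000 : ℝ) / 10000) (x0 : 0 ≤ x) (x1 : x ≤ (6724 : ℝ) / 10000)
    (q0 : x * x ≤ Q) (q1 : Q ≤ x * W) : Adm ρ W x Q :=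
  C5.sound (by decide) C5_0 C5_1 C5_2 C5_3 C5_4 C5_5 (by simpa [C5] using r0)
    (by simpa [C5] using r1) (by simpa [C5] using w0) (by simpa [C5] using w1) x0
    (by simpa [C5] using x1) q0 q1

def C6 : Cert :=
    ⟨100, 30, 50, 4096, 10000, 8000, 8500, 6724, [-2396, -1024, 51], [5480, 13110, -5294],
    [-2627, -12510, 5436], [370, 1838, -801], [557934, 836268, 502640], [92069, -222370,
    390078], [-20855, -37708, -18108], [15519, 94622, -11429]⟩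

theorem C6_0 : check wh (C6.G .y)
    (.c (.b .l (.b .l (.b (.b (.a .l (.b .l (.a .l (.b .l .l)))) (.b (.a .l (.b (.a .l .l) (.a
    .l (.b .l .l)))) .l)) .l))) (.b (.c (.c (.b (.a .l .l) (.b (.c .l (.a (.c .l (.a .l .l))
    (.b .l .l))) (.c .l (.a (.c (.b (.b .l .l) .l) (.b (.a (.c (.b .l (.b .l .l)) .l) .l) (.c
    .l .l))) .l)))) (.b .l (.b (.c (.c (.a .l (.b .l (.a .l .l))) (.a .l (.b .l .l))) .l) (.c
    (.a (.b (.c (.a .l (.b (.c .l (.a .l .l)) (.c .l (.a .l (.b .l .l))))) (.b .l (.a .l (.c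
    (.b .l .l) .l)))) (.c (.a .l .l) (.a .l (.c (.a .l .l) (.b .l .l))))) (.b (.c (.b (.a (.c
    .l (.b .l (.a .l .l))) .l) (.a (.c .l (.a .l .l)) .l)) (.b (.a (.c (.a .l (.a .l .l)) .l)
    (.c (.a .l .l) (.c (.a .l .l) .l))) (.a (.c (.b (.a (.c .l .l) (.b .l .l)) (.a (.a .l .l)
    .l)) (.b (.a .l .l) (.a .l .l))) (.c .l (.b (.a (.a .l .l) .l) (.a .l .l)))))) (.c .l (.a
    (.c .l (.b (.a .l .l) .l)) .l)))) (.b (.a .l (.c (.b .l (.a .l (.c (.b (.c (.a .l .l) .l)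
    (.a .l (.a .l .l))) .l))) .l)) (.a (.b .l .l) (.c (.b (.a (.b .l .l) (.c .l (.a .l .l)))
    (.a .l .l)) (.b .l .l)))))))) (.b .l (.c (.b .l (.c (.b .l .l) .l)) .l))) (.b (.c (.c .l
    (.b (.a (.c .l (.b .l .l)) (.c .l (.b (.a .l .l) .l))) (.a (.b (.c .l (.b (.a .l .l) (.c .l
    (.a .l .l)))) .l) .l))) (.b (.c (.b (.c (.a .l (.b .l .l)) .l) (.a (.c .l .l) (.c .l .l)))
    (.a .l (.c .l .l))) (.c (.a (.b (.c (.a (.a .l .l) .l) (.a .l (.b (.a .l .l) (.c .l .l))))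
    .l) (.b (.c .l (.a (.b (.c .l .l) (.c .l (.a .l .l))) (.b .l .l))) .l)) (.b (.a .l (.c (.a
    (.b .l (.c (.a .l (.b .l .l)) .l)) (.b (.c (.a .l .l) (.a .l .l)) (.c (.a (.b .l .l) .l)
    (.a (.b .l .l) (.b (.c .l (.a .l .l)) .l))))) (.b .l (.a .l (.b (.c (.a .l .l) .l) .l)))))
    (.a (.b .l .l) (.a .l (.a .l .l))))))) (.b (.b (.a (.c .l .l) (.c (.b .l (.a .l .l)) .l))
    .l) .l)))) = true := by
  decide +kernel

theorem C6_1 : check wh (C6.G (.neg .y))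
    (.c (.b (.b .l .l) (.b .l (.b .l .l))) (.b (.c .l .l) (.b .l (.b (.b .l .l) .l)))) = true
    := by
  decide +kernel

theorem C6_2 : check wb (C6.F false)
    .l = true := by
  decide +kernel

theorem C6_3 : check wb (C6.F true)
    .l = true := by
  decide +kernel

theorem C6_4 : check wb (hor C6.c3)
    .l = true := by
  decide +kernel

theorem C6_5 : check wb (hor C6.ka)
    .l = true := by
  decide +kernel

theorem C6_ok {ρ W x Q : ℝ} (r0 : (30 : ℝ) / 100 ≤ ρ) (r1 : ρ ≤ (50 : ℝ) / 100)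
    (w0 : (8000 : ℝ) / 10000 ≤ W) (w1 : W ≤ (8500 : ℝ) / 10000) (x0 : 0 ≤ x) (x1 : x ≤ (6724 : ℝ) / 10000)
    (q0 : x * x ≤ Q) (q1 : Q ≤ x * W) : Adm ρ W x Q :=
  C6.sound (by decide) C6_0 C6_1 C6_2 C6_3 C6_4 C6_5 (by simpa [C6] using r0)
    (by simpa [C6] using r1) (by simpa [C6] using w0) (by simpa [C6] using w1) x0
    (by simpa [C6] using x1) q0 q1

def C7 : Cert :=
    ⟨100, 30, 50, 4096, 10000, 8500, 9000, 6724, [2138, 1760, 2863], [2960, 2564, 3920],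
    [-5153, -4464, -6823], [699, 606, 925], [524501, 536886, 24831], [79279, -35598, 149250],
    [-33592, -39340, -38754], [18794, 50048, 13377]⟩

theorem C7_0 : check wh (C7.G .y)
    (.c (.b .l (.b .l (.b (.b (.b .l .l) .l) .l))) (.b (.c (.b (.c .l .l) (.c (.b (.c .l (.a .l
    .l)) (.c .l (.a (.b (.c .l (.a .l .l)) (.c .l .l)) .l))) (.b (.c (.a .l .l) .l) (.c (.a (.b
    (.c (.a .l .l) .l) (.c (.a .l .l) (.a .l .l))) (.b (.c .l (.a (.b .l .l) (.b .l .l))) (.c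
    .l (.a .l .l)))) (.b (.a .l (.c (.a .l (.b .l .l)) .l)) (.a .l (.c (.a .l (.a .l .l))
    .l))))))) (.b .l (.b .l .l))) (.b (.c (.c .l (.b (.a (.c .l .l) (.c .l .l)) (.b (.a (.c .l
    (.b (.c .l .l) (.c .l .l))) .l) (.b .l (.a .l (.b .l (.c (.b .l (.a .l .l)) (.b (.a .l .l)
    .l)))))))) (.b (.c (.b (.a .l .l) (.a .l .l)) .l) (.c (.b (.a (.c .l .l) (.a (.b .l .l)
    .l)) (.b (.a .l .l) (.a .l .l))) (.b (.a (.b .l (.b .l .l)) (.c (.b (.a .l .l) (.a .l .l))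
    (.b .l .l))) .l)))) (.b (.b (.c (.b (.c (.b .l .l) (.b (.c .l .l) .l)) .l) .l) .l) .l)))) =
    true := by
  decide +kernel

theorem C7_1 : check wh (C7.G (.neg .y))
    (.c (.b .l (.b .l .l)) (.b .l (.b .l (.b .l .l)))) = true := by
  decide +kernel

theorem C7_2 : check wb (C7.F false)
    .l = true := by
  decide +kernel

theorem C7_3 : check wb (C7.F true)
    .l = true := by
  decide +kernel

theorem C7_4 : check wb (hor C7.c3)
    .l = true := by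
  decide +kernel

theorem C7_5 : check wb (hor C7.ka)
    .l = true := by
  decide +kernel

theorem C7_ok {ρ W x Q : ℝ} (r0 : (30 : ℝ) / 100 ≤ ρ) (r1 : ρ ≤ (50 : ℝ) / 100)
    (w0 : (8500 : ℝ) / 10000 ≤ W) (w1 : W ≤ (9000 : ℝ) / 10000) (x0 : 0 ≤ x) (x1 : x ≤ (6724 : ℝ) / 10000)
    (q0 : x * x ≤ Q) (q1 : Q ≤ x * W) : Adm ρ W x Q :=
  C7.sound (by decide) C7_0 C7_1 C7_2 C7_3 C7_4 C7_5 (by simpa [C7] using r0)
    (by simpa [C7] using r1) (by simpa [C7] using w0) (by simpa [C7] using w1) x0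
    (by simpa [C7] using x1) q0 q1

def C8 : Cert :=
    ⟨100, 30, 50, 4096, 10000, 9000, 10000, 6724, [10935, 68998, 24742], [-702, -19446, 10443],
    [-9682, -47914, -31690], [1192, 5900, 3903], [442652, -20174, -22356], [77474, 105402,
    58908], [-61177, -262502, -125898], [21979, 32600, -23630]⟩

theorem C8_0 : check wh (C8.G .y)
    (.b (.c .l (.c (.b .l (.c (.b (.c .l .l) (.c .l (.b .l .l))) (.b .l (.b .l .l)))) .l)) (.b
    (.c (.b .l (.b .l .l)) (.b (.c (.c .l .l) (.b .l (.a .l .l))) (.c (.b (.c (.b .l (.a .l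
    .l)) (.b (.a .l .l) (.a (.c (.b .l .l) .l) .l))) (.c .l .l)) (.b (.b .l .l) .l)))) .l)) =
    true := by
  decide +kernel

theorem C8_1 : check wh (C8.G (.neg .y))
    (.b (.c .l .l) (.b .l .l)) = true := by
  decide +kernel

theorem C8_2 : check wb (C8.F false)
    .l = true := by
  decide +kernel

theorem C8_3 : check wb (C8.F true)
    .l = true := by
  decide +kernel

theorem C8_4 : check wb (hor C8.c3)
    .l = true := by
  decide +kernel

theorem C8_5 : check wb (hor C8.ka)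
    .l = true := by
  decide +kernel

theorem C8_ok {ρ W x Q : ℝ} (r0 : (30 : ℝ) / 100 ≤ ρ) (r1 : ρ ≤ (50 : ℝ) / 100)
    (w0 : (9000 : ℝ) / 10000 ≤ W) (w1 : W ≤ (10000 : ℝ) / 10000) (x0 : 0 ≤ x) (x1 : x ≤ (6724 : ℝ) / 10000)
    (q0 : x * x ≤ Q) (q1 : Q ≤ x * W) : Adm ρ W x Q :=
  C8.sound (by decide) C8_0 C8_1 C8_2 C8_3 C8_4 C8_5 (by simpa [C8] using r0)
    (by simpa [C8] using r1) (by simpa [C8] using w0) (by simpa [C8] using w1) x0
    (by simpa [C8] using x1) q0 q1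

end Pool.Agent.MP_ebf981_lc

end

section

namespace Pool.Agent.MP_ebf981_lc

def C9 : Cert :=
    ⟨100, 50, 70, 4096, 10000, 0, 7000, 5329, [-14403, -26064, 12078], [30432, 44690, -27542],
    [-13209, -23158, 26920], [2336, 5462, -6283], [1938797, -1315824, 251890], [126738, 603076,
    -111528], [-37065, -33556, -111072], [133826, 32534, -105114]⟩

theorem C9_0 : check wh (C9.G .y)
    (.c (.b .l (.b (.a .l .l) (.b (.b (.b (.a .l (.c .l (.a .l .l))) (.a .l (.b (.a .l (.a .l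
    .l)) .l))) (.b (.b .l .l) .l)) .l))) (.b (.c (.c (.b (.c .l (.b .l (.b .l .l))) (.b (.c .l
    .l) .l)) (.b (.c (.a .l .l) .l) (.b (.c (.b (.c (.a .l .l) .l) (.c .l (.b .l .l))) (.a .l
    .l)) (.c (.b (.c .l .l) .l) (.b (.c (.b .l .l) .l) (.c .l .l)))))) (.b .l (.c (.b .l (.c
    (.b .l .l) .l)) .l))) (.b (.c (.b .l (.a .l (.b .l (.a .l .l)))) (.b (.c (.b (.c (.b .l .l)
    .l) (.c .l (.b .l .l))) (.b .l (.c (.a (.c (.a .l .l) .l) .l) (.a .l .l)))) (.c (.b .l .l)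
    (.a (.c (.a .l .l) (.b .l .l)) .l)))) (.b (.b (.a .l (.b (.a (.b .l .l) (.b .l .l)) .l))
    .l) .l)))) = true := by
  decide +kernel

theorem C9_1 : check wh (C9.G (.neg .y))
    (.b (.c (.c .l (.b .l .l)) (.c (.c .l .l) .l)) (.b (.c .l .l) (.b (.b .l .l) .l))) = true
    := by
  decide +kernel

theorem C9_2 : check wb (C9.F false)
    (.a .l .l) = true := by
  decide +kernel

theorem C9_3 : check wb (C9.F true)
    .l = true := by
  decide +kernel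

theorem C9_4 : check wb (hor C9.c3)
    .l = true := by
  decide +kernel

theorem C9_5 : check wb (hor C9.ka)
    .l = true := by
  decide +kernel

theorem C9_ok {ρ W x Q : ℝ} (r0 : (50 : ℝ) / 100 ≤ ρ) (r1 : ρ ≤ (70 : ℝ) / 100)
    (w0 : (0 : ℝ) / 10000 ≤ W) (w1 : W ≤ (7000 : ℝ) / 10000) (x0 : 0 ≤ x) (x1 : x ≤ (5329 : ℝ) / 10000)
    (q0 : x * x ≤ Q) (q1 : Q ≤ x * W) : Adm ρ W x Q :=
  C9.sound (by decide) C9_0 C9_1 C9_2 C9_3 C9_4 C9_5 (by simpa [C9] using r0)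
    (by simpa [C9] using r1) (by simpa [C9] using w0) (by simpa [C9] using w1) x0
    (by simpa [C9] using x1) q0 q1

def C10 : Cert :=
    ⟨100, 50, 70, 4096, 10000, 7000, 7500, 5329, [-9114, 4320, -14739], [28221, 16296, -1579],
    [-16770, -24854, 24697], [2527, 3964, -4064], [2594550, -2313808, 726146], [183445, 486276,
    -40734], [-52836, -119230, -33489], [158799, -10790, -67092]⟩

theorem C10_0 : check wh (C10.G .y)
    (.c (.b .l (.b .l (.b (.b (.b (.a .l (.a (.c .l (.b .l .l)) (.c .l (.b .l (.a .l .l)))))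
    (.a .l (.a (.b (.c .l .l) .l) (.b (.c .l .l) .l)))) (.b (.b .l .l) .l)) .l))) (.b (.c (.b
    (.c (.c .l (.c .l .l)) (.a .l .l)) (.c (.b (.c .l (.b .l .l)) .l) (.b (.c (.b (.c (.a (.c
    .l .l) .l) (.a .l .l)) (.c (.a (.b (.c .l .l) .l) .l) (.a (.b (.a (.a .l .l) .l) (.c (.a
    (.b .l .l) .l) (.a .l .l))) (.b .l .l)))) (.b .l (.a (.c (.b .l (.a .l .l)) .l) (.c (.b .l
    (.a .l .l)) .l)))) (.c (.b (.c .l (.a (.b (.c .l (.a .l .l)) .l) .l)) .l) (.b (.a (.c (.b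
    (.a .l .l) (.a .l .l)) .l) (.c .l .l)) (.c .l (.a .l .l))))))) (.b .l (.b .l (.c (.b .l (.c
    (.a .l .l) .l)) .l)))) (.b (.c (.b .l (.a .l (.a .l .l))) (.b (.c (.b (.c (.a .l .l) (.a .l
    .l)) (.c .l (.a (.b .l .l) .l))) (.a (.c (.b .l (.a (.c .l .l) .l)) .l) (.b .l (.b .l (.a
    .l .l))))) (.c (.b .l .l) (.b (.a (.c (.a (.b (.c .l (.b (.a .l .l) .l)) .l) (.b (.c .l .l)
    .l)) (.b (.a .l (.b .l .l)) .l)) (.a (.b .l .l) .l)) .l)))) (.b (.b (.a (.b .l .l) (.b (.c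
    (.a (.b .l .l) (.b .l .l)) .l) .l)) .l) .l)))) = true := by
  decide +kernel

theorem C10_1 : check wh (C10.G (.neg .y))
    (.b (.c (.c .l (.b .l .l)) (.c (.c .l .l) .l)) (.b (.c .l .l) (.b (.b .l .l) .l))) = true
    := by
  decide +kernel

theorem C10_2 : check wb (C10.F false)
    .l = true := by
  decide +kernel

theorem C10_3 : check wb (C10.F true)
    .l = true := by
  decide +kernel

theorem C10_4 : check wb (hor C10.c3)
    .l = true := by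
  decide +kernel

theorem C10_5 : check wb (hor C10.ka)
    .l = true := by
  decide +kernel

theorem C10_ok {ρ W x Q : ℝ} (r0 : (50 : ℝ) / 100 ≤ ρ) (r1 : ρ ≤ (70 : ℝ) / 100)
    (w0 : (7000 : ℝ) / 10000 ≤ W) (w1 : W ≤ (7500 : ℝ) / 10000) (x0 : 0 ≤ x) (x1 : x ≤ (5329 : ℝ) / 10000)
    (q0 : x * x ≤ Q) (q1 : Q ≤ x * W) : Adm ρ W x Q :=
  C10.sound (by decide) C10_0 C10_1 C10_2 C10_3 C10_4 C10_5 (by simpa [C10] using r0)
    (by simpa [C10] using r1) (by simpa [C10] using w0) (by simpa [C10] using w1) x0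
    (by simpa [C10] using x1) q0 q1

def C11 : Cert :=
    ⟨100, 50, 70, 4096, 10000, 7500, 8000, 5329, [-3916, 18434, -20532], [22209, 178, 15939],
    [-16482, -24196, 11106], [2292, 3598, -1767], [2628418, -1899468, 544370], [209298, 445930,
    -7978], [-68776, -143674, -18436], [150910, 18018, -43554]⟩

theorem C11_0 : check wh (C11.G .y)
    (.c (.b .l (.b .l (.b (.b (.b (.a .l (.c (.a .l .l) (.b (.a .l (.a .l .l)) (.a .l (.c (.a
    .l .l) (.a (.b .l .l) .l)))))) (.a .l (.b (.a (.c .l .l) (.c (.a (.a .l .l) .l) .l)) (.a .l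
    .l)))) (.b (.b .l .l) .l)) .l))) (.b (.c (.b (.c (.c .l .l) .l) (.c (.b (.c .l .l) .l) (.b
    (.c (.b (.c .l .l) (.c (.b .l .l) (.a (.b .l (.c (.b .l .l) (.a .l .l))) .l))) (.b .l (.a
    (.c (.a .l (.c (.a .l .l) .l)) .l) (.c (.b .l (.a (.b .l .l) .l)) (.a (.b .l .l) (.b .l (.c
    .l .l))))))) (.c (.b (.a (.c .l (.b (.c .l (.a (.b (.c .l .l) .l) .l)) .l)) .l) .l) (.b (.a
    (.c (.b (.a (.c (.b .l (.a .l .l)) .l) (.c .l .l)) (.a (.c .l (.a .l .l)) .l)) (.b (.a .l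
    .l) (.a .l .l))) (.c (.b (.a .l .l) .l) (.b (.a (.c .l .l) (.b .l .l)) .l))) (.a (.c .l (.b
    (.a .l .l) .l)) .l)))))) (.b .l (.b .l (.c (.b (.c (.a .l (.b .l .l)) .l) (.c (.a (.b .l
    (.a .l .l)) .l) .l)) .l)))) (.b (.c (.b .l (.b .l (.a .l (.c .l (.a .l .l))))) (.b (.c (.c
    (.b (.a (.b .l .l) .l) .l) (.b (.a .l .l) (.a (.a .l .l) .l))) (.a (.c (.b .l (.a (.c .l
    .l) (.a .l .l))) .l) (.b .l (.c .l (.b .l (.a .l (.a .l .l))))))) (.c (.b .l (.a .l .l))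
    (.b (.a (.c (.b (.a (.c .l (.b .l .l)) (.b .l .l)) .l) (.b (.a (.b .l (.c .l .l)) (.c (.b
    .l .l) .l)) (.a .l .l))) (.b (.c .l (.a .l .l)) .l)) .l)))) (.b (.b (.b (.a .l (.c (.b (.a
    .l (.c (.a .l .l) .l)) (.a .l .l)) .l)) .l) .l) .l)))) = true := by
  decide +kernel

theorem C11_1 : check wh (C11.G (.neg .y))
    (.b (.c (.c .l (.b .l .l)) (.c (.c .l .l) .l)) (.b (.c .l .l) (.b (.b .l .l) .l))) = true
    := by
  decide +kernel

theorem C11_2 : check wb (C11.F false)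
    .l = true := by
  decide +kernel

theorem C11_3 : check wb (C11.F true)
    .l = true := by
  decide +kernel

theorem C11_4 : check wb (hor C11.c3)
    .l = true := by
  decide +kernel

theorem C11_5 : check wb (hor C11.ka)
    .l = true := by
  decide +kernel

theorem C11_ok {ρ W x Q : ℝ} (r0 : (50 : ℝ) / 100 ≤ ρ) (r1 : ρ ≤ (70 : ℝ) / 100)
    (w0 : (7500 : ℝ) / 10000 ≤ W) (w1 : W ≤ (8000 : ℝ) / 10000) (x0 : 0 ≤ x) (x1 : x ≤ (5329 : ℝ) / 10000)
    (q0 : x * x ≤ Q) (q1 : Q ≤ x * W) : Adm ρ W x Q :=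
  C11.sound (by decide) C11_0 C11_1 C11_2 C11_3 C11_4 C11_5 (by simpa [C11] using r0)
    (by simpa [C11] using r1) (by simpa [C11] using w0) (by simpa [C11] using w1) x0
    (by simpa [C11] using x1) q0 q1

def C12 : Cert :=
    ⟨100, 50, 70, 4096, 10000, 8000, 10000, 5329, [6388, 6690, 9619], [11521, 12382, 16880],
    [-17212, -18498, -25218], [2225, 2390, 3260], [1362465, 769980, -325584], [194769, 271510,
    226750], [-109763, -104716, -77779], [95053, 99110, 11647]⟩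

theorem C12_0 : check wh (C12.G .y)
    (.b (.c .l (.c (.b (.c .l .l) (.c .l (.b (.c (.a (.b .l .l) .l) (.a (.c .l .l) (.b .l (.c
    .l (.a .l .l))))) (.c (.b (.a (.b .l .l) .l) .l) (.b (.a (.c (.b (.a .l .l) (.a .l .l)) (.b
    .l (.a .l .l))) (.c .l (.b (.a .l .l) .l))) (.a (.c .l (.a .l .l)) .l)))))) (.b .l (.b (.c
    .l .l) (.c (.b (.c (.a .l (.b .l .l)) .l) (.c (.a (.a .l .l) .l) .l)) .l))))) (.b (.c .l
    (.c (.b .l (.b .l (.b .l (.c (.b .l .l) (.b (.c .l .l) (.c .l (.a .l .l))))))) (.b (.c (.c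
    (.a .l .l) (.a .l .l)) (.a .l .l)) (.b (.c .l (.a (.c (.a .l .l) (.b (.a .l .l) .l)) (.b .l
    .l))) (.b (.c .l .l) (.c (.b .l .l) .l)))))) (.b (.b (.c (.b (.a (.a .l .l) .l) (.a (.c .l
    (.a .l .l)) .l)) (.b (.c (.a (.b (.c (.a .l .l) (.a .l .l)) (.c (.a (.a .l .l) .l) (.a .l
    .l))) .l) .l) (.a .l .l))) .l) .l))) = true := by
  decide +kernel

theorem C12_1 : check wh (C12.G (.neg .y))
    (.b (.c .l (.c .l .l)) (.b (.c .l .l) (.b (.b .l .l) .l))) = true := by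
  decide +kernel

theorem C12_2 : check wb (C12.F false)
    .l = true := by
  decide +kernel

theorem C12_3 : check wb (C12.F true)
    .l = true := by
  decide +kernel

theorem C12_4 : check wb (hor C12.c3)
    .l = true := by
  decide +kernel

theorem C12_5 : check wb (hor C12.ka)
    .l = true := by
  decide +kernel

theorem C12_ok {ρ W x Q : ℝ} (r0 : (50 : ℝ) / 100 ≤ ρ) (r1 : ρ ≤ (70 : ℝ) / 100)
    (w0 : (8000 : ℝ) / 10000 ≤ W) (w1 : W ≤ (10000 : ℝ) / 10000) (x0 : 0 ≤ x) (x1 : x ≤ (5329 : ℝ) / 10000)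
    (q0 : x * x ≤ Q) (q1 : Q ≤ x * W) : Adm ρ W x Q :=
  C12.sound (by decide) C12_0 C12_1 C12_2 C12_3 C12_4 C12_5 (by simpa [C12] using r0)
    (by simpa [C12] using r1) (by simpa [C12] using w0) (by simpa [C12] using w1) x0
    (by simpa [C12] using x1) q0 q1

end Pool.Agent.MP_ebf981_lc

end

section

namespace Pool.Agent.MP_ebf981_lc

def C13 : Cert :=
    ⟨100, 70, 90, 4096, 10000, 0, 7000, 4624, [-37515, -119498, 104004], [64751, 146164,
    -139347], [-12986, 22410, -9621], [1909, -3294, 1414], [789976, -992720, 760616], [584390,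
    36806, 403979], [-160252, 135956, -398143], [59238, -104962, 29532]⟩

theorem C13_0 : check wh (C13.G .y)
    (.c (.b .l (.b (.a .l (.a .l .l)) (.b (.b (.b (.a (.b .l .l) .l) .l) .l) .l))) (.b (.c (.c
    (.b .l (.a .l .l)) (.b (.a .l .l) (.a (.b (.b .l .l) .l) .l))) (.a (.b .l .l) (.a .l .l)))
    (.b (.a (.b (.c .l (.a .l .l)) (.c (.b .l (.a .l .l)) .l)) (.c (.a (.b .l (.b .l .l)) (.c
    .l .l)) .l)) (.b (.a (.b (.b (.c .l .l) .l) .l) .l) .l)))) = true := by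
  decide +kernel

theorem C13_1 : check wh (C13.G (.neg .y))
    (.c (.b .l (.b .l (.b .l .l))) (.b (.c (.a (.a .l .l) .l) (.a .l (.a .l .l))) (.b (.a .l
    (.a .l .l)) (.b (.a .l .l) .l)))) = true := by
  decide +kernel

theorem C13_2 : check wb (C13.F false)
    .l = true := by
  decide +kernel

theorem C13_3 : check wb (C13.F true)
    .l = true := by
  decide +kernel

theorem C13_4 : check wb (hor C13.c3)
    .l = true := by
  decide +kernel

theorem C13_5 : check wb (hor C13.ka)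
    .l = true := by
  decide +kernel

theorem C13_ok {ρ W x Q : ℝ} (r0 : (70 : ℝ) / 100 ≤ ρ) (r1 : ρ ≤ (90 : ℝ) / 100)
    (w0 : (0 : ℝ) / 10000 ≤ W) (w1 : W ≤ (7000 : ℝ) / 10000) (x0 : 0 ≤ x) (x1 : x ≤ (4624 : ℝ) / 10000)
    (q0 : x * x ≤ Q) (q1 : Q ≤ x * W) : Adm ρ W x Q :=
  C13.sound (by decide) C13_0 C13_1 C13_2 C13_3 C13_4 C13_5 (by simpa [C13] using r0)
    (by simpa [C13] using r1) (by simpa [C13] using w0) (by simpa [C13] using w1) x0
    (by simpa [C13] using x1) q0 q1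

def C14 : Cert :=
    ⟨100, 70, 90, 4096, 10000, 7000, 8000, 4624, [-19220, -82892, 43117], [49885, 133834,
    -93820], [-22281, -22998, 31237], [2805, 2530, -3643], [989819, -1270234, 808161], [610291,
    56088, 368996], [-211616, -48228, -194485], [83573, -78068, -59995]⟩

theorem C14_0 : check wh (C14.G .y)
    (.b (.c .l (.c (.b (.c .l (.c .l .l)) (.c (.a .l .l) (.a (.b (.c .l (.b (.a .l .l) (.c .l
    .l))) (.c .l .l)) (.a .l (.c .l (.a .l .l)))))) (.b .l (.a (.b .l (.b .l .l)) (.a .l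
    .l))))) (.b (.c (.a (.b .l (.b .l (.a .l .l))) (.b .l .l)) (.a (.b (.c .l (.b (.a .l .l)
    (.a (.a .l .l) .l))) (.b (.c (.c .l .l) .l) (.c (.b (.a .l (.c .l (.a .l .l))) (.a .l .l))
    .l))) (.c (.b (.a .l (.c .l .l)) (.b (.a (.c .l (.b .l .l)) .l) (.c .l (.b .l .l)))) (.b
    (.a .l .l) (.b (.a .l .l) .l))))) (.b (.b (.c (.b (.b .l .l) .l) (.b (.c (.b .l .l) .l)
    .l)) .l) .l))) = true := by
  decide +kernel

theorem C14_1 : check wh (C14.G (.neg .y))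
    (.c (.b .l (.b .l (.b (.b (.b .l .l) .l) .l))) (.b (.a .l .l) (.b .l (.b .l .l)))) = true
    := by
  decide +kernel

theorem C14_2 : check wb (C14.F false)
    .l = true := by
  decide +kernel

theorem C14_3 : check wb (C14.F true)
    .l = true := by
  decide +kernel

theorem C14_4 : check wb (hor C14.c3)
    .l = true := by
  decide +kernel

theorem C14_5 : check wb (hor C14.ka)
    .l = true := by
  decide +kernel

theorem C14_ok {ρ W x Q : ℝ} (r0 : (70 : ℝ) / 100 ≤ ρ) (r1 : ρ ≤ (90 : ℝ) / 100)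
    (w0 : (7000 : ℝ) / 10000 ≤ W) (w1 : W ≤ (8000 : ℝ) / 10000) (x0 : 0 ≤ x) (x1 : x ≤ (4624 : ℝ) / 10000)
    (q0 : x * x ≤ Q) (q1 : Q ≤ x * W) : Adm ρ W x Q :=
  C14.sound (by decide) C14_0 C14_1 C14_2 C14_3 C14_4 C14_5 (by simpa [C14] using r0)
    (by simpa [C14] using r1) (by simpa [C14] using w0) (by simpa [C14] using w1) x0
    (by simpa [C14] using x1) q0 q1

def C15 : Cert :=
    ⟨100, 70, 90, 4096, 10000, 8000, 10000, 4624, [36783, -62014, 35410], [48564, 71510,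
    -48270], [-78080, 3200, 2408], [9406, -638, -37], [933192, -490698, 294858], [496015,
    452606, 177069], [-391192, -77608, -192889], [118019, -72802, -14228]⟩

theorem C15_0 : check wh (C15.G .y)
    (.b (.c .l (.c (.b .l (.b (.c .l .l) .l)) (.b .l (.b .l (.c .l .l))))) (.b (.c (.b .l (.b
    .l .l)) (.b (.a .l .l) (.b (.c (.a .l (.b .l .l)) (.a (.b .l .l) (.b .l .l))) (.c (.b (.c
    .l (.a (.b .l .l) .l)) .l) (.b .l .l))))) .l)) = true := by
  decide +kernel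

theorem C15_1 : check wh (C15.G (.neg .y))
    (.b (.c .l .l) (.b .l .l)) = true := by
  decide +kernel

theorem C15_2 : check wb (C15.F false)
    .l = true := by
  decide +kernel

theorem C15_3 : check wb (C15.F true)
    .l = true := by
  decide +kernel

theorem C15_4 : check wb (hor C15.c3)
    .l = true := by
  decide +kernel

theorem C15_5 : check wb (hor C15.ka)
    .l = true := by
  decide +kernel

theorem C15_ok {ρ W x Q : ℝ} (r0 : (70 : ℝ) / 100 ≤ ρ) (r1 : ρ ≤ (90 : ℝ) / 100)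
    (w0 : (8000 : ℝ) / 10000 ≤ W) (w1 : W ≤ (10000 : ℝ) / 10000) (x0 : 0 ≤ x) (x1 : x ≤ (4624 : ℝ) / 10000)
    (q0 : x * x ≤ Q) (q1 : Q ≤ x * W) : Adm ρ W x Q :=
  C15.sound (by decide) C15_0 C15_1 C15_2 C15_3 C15_4 C15_5 (by simpa [C15] using r0)
    (by simpa [C15] using r1) (by simpa [C15] using w0) (by simpa [C15] using w1) x0
    (by simpa [C15] using x1) q0 q1

def C16 : Cert :=
    ⟨10, 9, 10, 200000, 10000, 0, 8500, 3844, [-3715146, 1438200, 1842460, 401880, 31790, 816],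
    [4370760, -1692000, -2167600, -472800, -37400, -960], [0], [0], [28400000, 9600000],
    [51120000, 22960000, 1920000], [-18633240, -14580000, -4179600, -568800, -37400, -960],
    [0]⟩

theorem C16_0 : check wh (C16.G .y)
    (.c .l (.c .l .l)) = true := by
  decide +kernel

theorem C16_1 : check wh (C16.G (.neg .y))
    (.c .l (.c .l .l)) = true := by
  decide +kernel

theorem C16_2 : check wb (C16.F false)
    .l = true := by
  decide +kernel

theorem C16_3 : check wb (C16.F true)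
    .l = true := by
  decide +kernel

theorem C16_4 : check wb (hor C16.c3)
    .l = true := by
  decide +kernel

theorem C16_5 : check wb (hor C16.ka)
    .l = true := by
  decide +kernel

theorem C16_ok {ρ W x Q : ℝ} (r0 : (9 : ℝ) / 10 ≤ ρ) (r1 : ρ ≤ (10 : ℝ) / 10)
    (w0 : (0 : ℝ) / 10000 ≤ W) (w1 : W ≤ (8500 : ℝ) / 10000) (x0 : 0 ≤ x) (x1 : x ≤ (3844 : ℝ) / 10000)
    (q0 : x * x ≤ Q) (q1 : Q ≤ x * W) : Adm ρ W x Q :=
  C16.sound (by decide) C16_0 C16_1 C16_2 C16_3 C16_4 C16_5 (by simpa [C16] using r0)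
    (by simpa [C16] using r1) (by simpa [C16] using w0) (by simpa [C16] using w1) x0
    (by simpa [C16] using x1) q0 q1

def C17 : Cert :=
    ⟨100, 90, 100, 4096, 10000, 8500, 10000, 3844, [-15780, 309554, -100899], [70940, -183618,
    102597], [-39689, -129310, 11333], [3991, 13588, -1282], [623752, -192264, -40673],
    [1078539, 267178, -219085], [-582705, -1105760, 282757], [7573, -88990, 17915]⟩

theorem C17_0 : check wh (C17.G .y)
    (.b (.c .l (.c .l (.b .l .l))) (.b (.c (.b .l .l) (.b (.c .l .l) (.c (.b .l .l) (.b .l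
    .l)))) .l)) = true := by
  decide +kernel

theorem C17_1 : check wh (C17.G (.neg .y))
    (.b (.c .l .l) (.b .l .l)) = true := by
  decide +kernel

theorem C17_2 : check wb (C17.F false)
    .l = true := by
  decide +kernel

theorem C17_3 : check wb (C17.F true)
    .l = true := by
  decide +kernel

theorem C17_4 : check wb (hor C17.c3)
    .l = true := by
  decide +kernel

theorem C17_5 : check wb (hor C17.ka)
    .l = true := by
  decide +kernel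

theorem C17_ok {ρ W x Q : ℝ} (r0 : (90 : ℝ) / 100 ≤ ρ) (r1 : ρ ≤ (100 : ℝ) / 100)
    (w0 : (8500 : ℝ) / 10000 ≤ W) (w1 : W ≤ (10000 : ℝ) / 10000) (x0 : 0 ≤ x) (x1 : x ≤ (3844 : ℝ) / 10000)
    (q0 : x * x ≤ Q) (q1 : Q ≤ x * W) : Adm ρ W x Q :=
  C17.sound (by decide) C17_0 C17_1 C17_2 C17_3 C17_4 C17_5 (by simpa [C17] using r0)
    (by simpa [C17] using r1) (by simpa [C17] using w0) (by simpa [C17] using w1) x0
    (by simpa [C17] using x1) q0 q1

end Pool.Agent.MP_ebf981_lc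

end

section

/-! The dictator is optimal for at most seven players. -/

namespace Pool.Agent.MP_ebf981_lc

open Finset

variable {n : ℕ}

theorem adm_small {ρ W x Q : ℝ} (r0 : 0 ≤ ρ) (r1 : ρ ≤ 5 / 100) (w0 : 0 ≤ W)
    (w1 : W ≤ 9500 / 10000) (q0 : x * x ≤ Q) : Adm ρ W x Q := by
  refine ⟨1 + 273 * ρ ^ 6, 21 * ρ ^ 2 - 273 * ρ ^ 6, 189 / 2 * ρ ^ 4, 0, 0, 42 * ρ, 0, 0, 273,
    le_rfl, le_rfl, by norm_num, fun l g g0 g1 => ?_, ?_⟩
  · obtain ⟨t, ht⟩ : ∃ t, t = ρ * l := ⟨_, rfl⟩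
    have h1 : g ^ 2 ≤ 1 := by nlinarith
    have h2 : g ^ 2 ≤ 3 / 2 * t ^ 2 + 3 * (g - t) ^ 2 := by nlinarith [sq_nonneg (t - 2 * (g - t))]
    have h3 := mul_le_mul_of_nonneg_left h2 (sq_nonneg g)
    have h4 := mul_le_mul_of_nonneg_left h1 (sq_nonneg (g - t))
    have h5 := sq_nonneg (g ^ 2 - 3 / 2 * t ^ 2)
    have h6 := mul_le_mul_of_nonneg_left h1 (show 0 ≤ g ^ 4 by positivity)
    subst ht
    unfold psi
    linear_combination 7 * h6 + 84 * h3 + 252 * h4 + 42 * h5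
  · have hQ : 0 ≤ Q := (mul_self_nonneg x).trans q0
    have h1 : ρ ^ 2 ≤ 1 / 400 := by nlinarith
    have h2 : W ^ 2 ≤ 1 := by nlinarith
    have h3 : ρ ^ 4 ≤ 1 / 400 * ρ ^ 2 := by nlinarith [sq_nonneg ρ]
    have h4 : ρ ^ 6 ≤ 1 / 400 * ρ ^ 4 := by nlinarith [show 0 ≤ ρ ^ 4 by positivity]
    have h5 := mul_le_mul_of_nonneg_left w1 (sq_nonneg ρ)
    have h6 := mul_le_mul_of_nonneg_left h2 (show 0 ≤ ρ ^ 4 by positivity)
    have h7 := mul_nonneg (show 0 ≤ ρ ^ 4 by positivity) hQ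
    have h8 := mul_nonneg (show 0 ≤ ρ ^ 6 by positivity) w0
    unfold psi
    nlinarith [sq_nonneg ρ]

theorem cover {ρ : ℝ} (r0 : 0 ≤ ρ) (r1 : ρ ≤ 1) : ∃ b0 θ : ℝ, 0 ≤ b0 ∧ 0 ≤ θ ∧
    (3 * (1 - b0) ≤ θ ^ 2 ∨ 1 ≤ θ) ∧ AdmI (ρ ^ 2) b0 θ ∧
    ∀ W x Q : ℝ, 0 ≤ W → W ≤ 1 → 0 ≤ x → x ≤ b0 ^ 2 → x * x ≤ Q → Q ≤ x * W → Adm ρ W x Q := by
  rcases le_total ρ (30 / 100) with h3 | h3
  · refine ⟨_, _, by norm_num, by norm_num, Or.inl (by norm_num),
      I0_ok (by nlinarith) (by nlinarith), fun W x Q w0 w1 x0 x1 q0 q1 => ?_⟩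
    rcases le_total ρ (5 / 100) with h | h
    · rcases le_total W (9500 / 10000) with w | w
      · exact adm_small r0 h w0 w q0
      · exact C0_ok (by linarith) h w (by linarith) x0 (by linarith) q0 q1
    rcases le_total ρ (15 / 100) with h' | h'
    · exact C1_ok h h' (by linarith) (by linarith) x0 (by linarith) q0 q1
    rcases le_total W (7000 / 10000) with w | w
    · exact C2_ok h' h3 (by linarith) w x0 (by linarith) q0 q1
    · exact C3_ok h' h3 w (by linarith) x0 (by linarith) q0 q1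
  rcases le_total ρ (50 / 100) with h5 | h5
  · refine ⟨_, _, by norm_num, by norm_num, Or.inl (by norm_num),
      I1_ok (by nlinarith) (by nlinarith), fun W x Q w0 w1 x0 x1 q0 q1 => ?_⟩
    rcases le_total W (7000 / 10000) with w | w
    · exact C4_ok h3 h5 (by linarith) w x0 (by linarith) q0 q1
    rcases le_total W (8000 / 10000) with w' | w
    · exact C5_ok h3 h5 w w' x0 (by linarith) q0 q1
    rcases le_total W (8500 / 10000) with w' | w
    · exact C6_ok h3 h5 w w' x0 (by linarith) q0 q1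
    rcases le_total W (9000 / 10000) with w' | w
    · exact C7_ok h3 h5 w w' x0 (by linarith) q0 q1
    · exact C8_ok h3 h5 w (by linarith) x0 (by linarith) q0 q1
  rcases le_total ρ (70 / 100) with h7 | h7
  · refine ⟨_, _, by norm_num, by norm_num, Or.inl (by norm_num),
      I2_ok (by nlinarith) (by nlinarith), fun W x Q w0 w1 x0 x1 q0 q1 => ?_⟩
    rcases le_total W (7000 / 10000) with w | w
    · exact C9_ok h5 h7 (by linarith) w x0 (by linarith) q0 q1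
    rcases le_total W (7500 / 10000) with w' | w
    · exact C10_ok h5 h7 w w' x0 (by linarith) q0 q1
    rcases le_total W (8000 / 10000) with w' | w
    · exact C11_ok h5 h7 w w' x0 (by linarith) q0 q1
    · exact C12_ok h5 h7 w (by linarith) x0 (by linarith) q0 q1
  rcases le_total ρ (90 / 100) with h9 | h9
  · refine ⟨_, _, by norm_num, by norm_num, Or.inl (by norm_num),
      I3_ok (by nlinarith) (by nlinarith), fun W x Q w0 w1 x0 x1 q0 q1 => ?_⟩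
    rcases le_total W (7000 / 10000) with w | w
    · exact C13_ok h7 h9 (by linarith) w x0 (by linarith) q0 q1
    rcases le_total W (8000 / 10000) with w' | w
    · exact C14_ok h7 h9 w w' x0 (by linarith) q0 q1
    · exact C15_ok h7 h9 w (by linarith) x0 (by linarith) q0 q1
  · refine ⟨_, _, by norm_num, by norm_num, Or.inr (by norm_num),
      I4_ok (by nlinarith) (by nlinarith), fun W x Q w0 w1 x0 x1 q0 q1 => ?_⟩
    rcases le_total W (8500 / 10000) with w | w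
    · exact C16_ok (by linarith) (by linarith) (by linarith) w x0 (by linarith) q0 q1
    · exact C17_ok h9 (by linarith) w (by linarith) x0 (by linarith) q0 q1

theorem seven {ε : ℝ} (h0 : 0 < ε) (h1 : ε < 1 / 2) {f : (Fin n → Bool) → ℝ}
    (hf : ∀ x, f x ^ 2 = 1) (ho : ∀ x, f (fun j => !x j) = -1 * f x) (i : Fin n) :
    E (fun x => psi (T ε f x)) ≤ psi (1 - 2 * ε) := by
  obtain ⟨b0, θ, hb, hθ, hθ', hI, hII⟩ := cover (ρ := 1 - 2 * ε) (by linarith) (by linarith)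
  obtain ⟨k, -, hk⟩ := exists_max_image univ (fun j => hat f {j} ^ 2) ⟨i, mem_univ i⟩
  rcases le_total b0 |hat f {k}| with h | h
  · exact caseI h0 h1 hf ho k h hθ hθ' hI
  · refine caseII h0 h1 hf ho (fun j => hk j (mem_univ j)) (hII _ _ _
      (sum_nonneg fun j _ => sq_nonneg _) ?_ (sq_nonneg _) ?_ ?_ ?_)
    · simpa only [hf, E_const] using W1_le f
    · rw [← sq_abs]
      exact pow_le_pow_left₀ (abs_nonneg _) h 2
    · refine le_trans (le_of_eq (by ring)) (single_le_sum (f := fun j => hat f {j} ^ 4)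
        (fun j _ => by positivity) (mem_univ k))
    · rw [W1, mul_sum]
      refine sum_le_sum fun j _ => ?_
      nlinarith [mul_le_mul_of_nonneg_right (hk j (mem_univ j)) (sq_nonneg (hat f {j}))]

theorem upto_seven {ε : ℝ} (h0 : 0 < ε) (h1 : ε < 1 / 2) {f : (Fin n → Bool) → ℝ}
    (hf : ∀ x, f x ^ 2 = 1) (ho : ∀ x, f (fun j => !x j) = -1 * f x) (i : Fin n) {r : ℕ}
    (hr : r ≤ 7) : E (fun x => (1 + T ε f x) ^ r + (1 - T ε f x) ^ r) ≤
      (1 + (1 - 2 * ε)) ^ r + (1 - (1 - 2 * ε)) ^ r := by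
  have h7 := seven h0 h1 hf ho i
  obtain ⟨ρ, hρ⟩ : ∃ ρ, ρ = 1 - 2 * ε := ⟨_, rfl⟩
  have r0 : 0 ≤ ρ := by linarith
  have r1 : ρ ≤ 1 := by linarith
  have s2 : E (fun x => T ε f x ^ 2) ≤ ρ ^ 2 := by
    have := spec_odd ho (fun k => (ρ ^ k) ^ 2) (ρ ^ 2) fun k hk => by
      nlinarith [pow_le3 r0 r1 (show 1 ≤ k by omega), pow_nonneg r0 k]
    rw [E_T_sq, ← hρ]
    simp only [hf, E_const] at this
    linarith
  have y1 : 0 ≤ E (fun x => T ε f x ^ 6 - 2 * ρ ^ 2 * T ε f x ^ 4 + ρ ^ 4 * T ε f x ^ 2) :=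
    E_nonneg fun x => by nlinarith [sq_nonneg (T ε f x * (T ε f x ^ 2 - ρ ^ 2))]
  unfold psi at h7
  simp only [E_add, E_sub, E_mul, E_const] at h7 y1
  rw [← hρ] at h7 ⊢
  have key : ∀ a b c : ℝ, (∀ t : ℝ, (1 + t) ^ r + (1 - t) ^ r =
      2 + a * t ^ 2 + b * t ^ 4 + c * t ^ 6) → E (fun x => (1 + T ε f x) ^ r + (1 - T ε f x) ^ r) =
      2 + a * E (fun x => T ε f x ^ 2) + b * E (fun x => T ε f x ^ 4) +
        c * E (fun x => T ε f x ^ 6) := by
    intro a b c h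
    simp only [h, E_add, E_mul, E_const]
  generalize E (fun x => T ε f x ^ 2) = m2 at *
  generalize E (fun x => T ε f x ^ 4) = m4 at *
  generalize E (fun x => T ε f x ^ 6) = m6 at *
  have d4 : 5 * (m4 - ρ ^ 4) ≤ 3 * (ρ ^ 2 - m2) := by
    rcases le_total m4 (ρ ^ 4) with h | h
    · linarith
    · nlinarith [mul_nonneg (sub_nonneg.2 h) (sq_nonneg ρ),
        mul_nonneg (sub_nonneg.2 s2) (show 0 ≤ ρ ^ 4 by positivity)]
  interval_cases r
  · rw [key 0 0 0 fun t => by ring]; linarith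
  · rw [key 0 0 0 fun t => by ring]; linarith
  · rw [key 2 0 0 fun t => by ring]; linarith
  · rw [key 6 0 0 fun t => by ring]; linarith
  · rw [key 12 2 0 fun t => by ring]; linarith
  · rw [key 20 10 0 fun t => by ring]; linarith
  · rw [key 30 30 2 fun t => by ring]; linarith
  · rw [key 42 70 14 fun t => by ring]; linarith

theorem agree_eq (ε : ℝ) (f : (Fin n → Bool) → Bool) {r : ℕ} (hr : 0 < r) :
    (∑ x : Fin n → Bool, ∑ y : Fin r → Fin n → Bool,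
        (1/2 : ℝ) ^ n * (∏ i, ∏ j, (if y i j = x j then 1 - ε else ε)) *
        (if ∀ i i', f (y i) = f (y i') then (1 : ℝ) else 0)) =
      (1 / 2) ^ r * E (fun x => (1 + T ε (fun y => sg (f y)) x) ^ r +
        (1 - T ε (fun y => sg (f y)) x) ^ r) := by
  rw [← E_mul, E, mul_sum]
  refine sum_congr rfl fun x _ => ?_
  have ind : ∀ y : Fin r → Fin n → Bool, (if ∀ i i', f (y i) = f (y i') then (1 : ℝ) else 0) =
      ∏ i, (1 / 2 * 1 + 1 / 2 * sg (f (y i))) + ∏ i, (1 / 2 * 1 + -1 / 2 * sg (f (y i))) := by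
    intro y
    split_ifs with h
    · have e : ∀ i, f (y i) = f (y ⟨0, hr⟩) := fun i => h _ _
      simp only [e]
      cases f (y ⟨0, hr⟩) <;> simp [sg, hr.ne'] <;> norm_num [hr.ne']
    · push Not at h
      obtain ⟨i, i', h⟩ := h
      cases hi : f (y i) <;> cases hi' : f (y i') <;> simp only [hi, hi', ne_eq, not_true] at h
      · rw [prod_eq_zero (mem_univ i) (by norm_num [hi, sg]),
          prod_eq_zero (mem_univ i') (by norm_num [hi', sg]), add_zero]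
      · rw [prod_eq_zero (mem_univ i') (by norm_num [hi', sg]),
          prod_eq_zero (mem_univ i) (by norm_num [hi, sg]), add_zero]
  have one : T ε (fun _ => 1) x = 1 := by simpa [T] using T_one ε x
  have pw : ∀ c : ℝ, ∑ y : Fin r → Fin n → Bool, (∏ i, ker ε x (y i)) *
      ∏ i, (1 / 2 * 1 + c * sg (f (y i))) = (1 / 2 + c * T ε (fun y => sg (f y)) x) ^ r := by
    intro c
    simp only [← prod_mul_distrib]
    rw [← Fintype.piFinset_univ, ← prod_univ_sum (fun _ => univ)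
      (fun _ z => ker ε x z * (1 / 2 * 1 + c * sg (f z)))]
    have := T_lin ε (1 / 2) c (fun _ => 1) (fun y => sg (f y)) x
    rw [one, mul_one] at this
    rw [prod_const, card_univ, Fintype.card_fin, ← this]
    simp only [T, mul_one]
  simp only [ind, mul_assoc, ← mul_sum]
  congr 1
  simp only [mul_add, sum_add_distrib]
  change ∑ y : Fin r → Fin n → Bool, (∏ i, ker ε x (y i)) * _ +
    ∑ y : Fin r → Fin n → Bool, (∏ i, ker ε x (y i)) * _ = _
  rw [pw, pw, ← mul_pow, ← mul_pow]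
  congr 2 <;> ring

theorem main (r n : ℕ) (ε : ℝ) (hr : r ≤ 7) (h0 : 0 < ε) (h1 : ε < 1 / 2)
    (P : ((Fin n → Bool) → Bool) → ℝ)
    (hP : ∀ f : (Fin n → Bool) → Bool, P f = ∑ x : Fin n → Bool, ∑ y : Fin r → Fin n → Bool,
        (1/2 : ℝ) ^ n * (∏ i, ∏ j, (if y i j = x j then 1 - ε else ε)) *
        (if ∀ i i', f (y i) = f (y i') then (1 : ℝ) else 0))
    (i : Fin n) (f : (Fin n → Bool) → Bool) (hf : ∀ x, f (fun j => !x j) = !f x) :
    P f ≤ P (fun x => x i) := by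
  rcases Nat.eq_zero_or_pos r with rfl | hr0
  · simp [hP]
  rw [(hP f).trans (agree_eq ε f hr0), (hP _).trans (agree_eq ε (fun x => x i) hr0)]
  refine mul_le_mul_of_nonneg_left ((upto_seven h0 h1 (fun x => sg_sq _)
    (fun x => by rw [hf, sg_not]; ring) i hr).trans (le_of_eq ?_)) (by positivity)
  rw [← E_const (n := n) ((1 + (1 - 2 * ε)) ^ r + (1 - (1 - 2 * ε)) ^ r)]
  refine E_congr fun x => ?_
  have := T_chi ε {i} x
  have e : chi {i} = fun y : Fin n → Bool => sg (y i) := by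
    ext y; simp [chi]
  rw [e, card_singleton, pow_one] at this
  rw [this]
  beta_reduce
  rcases sq_eq_one_iff_of_ne_zero' (sg_sq (x i)) with h | h <;> rw [h]
  · rw [mul_one]
  · rw [add_comm]
    congr 2 <;> ring

end Pool.Agent.MP_ebf981_lc

end

section

namespace Pool.Agent.MP_ebf981_lc.N9

open Finset

theorem pt8_NNine (g ρ : ℝ) (h : ρ ^ 2 ≤ 1) :
    (126 + 168 * ρ ^ 2 + 27 * ρ ^ 4) * ((1 + g) ^ 8 + (1 - g) ^ 8) ≤
      (126 + 168 * ρ ^ 2 + 27 * ρ ^ 4) * ((1 + ρ) ^ 8 + (1 - ρ) ^ 8) -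
        2 * (70 + 56 * ρ ^ 2 + 3 * ρ ^ 4) * P9 ρ -
        2 * (1008 + 2688 * ρ ^ 2 + 3000 * ρ ^ 4 + 1008 * ρ ^ 6 + 168 * ρ ^ 8) * ρ ^ 2 +
        2 * (70 + 56 * ρ ^ 2 + 3 * ρ ^ 4) * P9 g +
        2 * (1008 + 2688 * ρ ^ 2 + 3000 * ρ ^ 4 + 1008 * ρ ^ 6 + 168 * ρ ^ 8) * g ^ 2 := by
  have h4 : 0 ≤ 2352 - 504 * ρ ^ 4 := by nlinarith [sq_nonneg ρ]
  have h5 : 0 ≤ (g ^ 2 - ρ ^ 2) ^ 2 * ((2352 - 504 * ρ ^ 4) * g ^ 2 +
      (504 + 336 * ρ ^ 2) * (g ^ 4 + 2 * g ^ 2 * ρ ^ 2)) := by positivity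
  unfold P9
  linear_combination 2 * h5

theorem two_NNine {n : ℕ} {ε : ℝ} (h0 : 0 < ε) (h1 : ε < 1 / 2) {f : (Fin n → Bool) → ℝ}
    (ho : OB f) (h9 : FF (1 - 2 * ε) f ≤ P9 (1 - 2 * ε)) {r : ℕ} (h8 : 8 ≤ r) (hr : r ≤ 9) :
    E (fun x => (1 + T ε f x) ^ r + (1 - T ε f x) ^ r) ≤
      (1 + (1 - 2 * ε)) ^ r + (1 - (1 - 2 * ε)) ^ r := by
  rw [FF, TT, show (1 - (1 - 2 * ε)) / 2 = ε by ring] at h9
  obtain ⟨ρ, hρ⟩ : ∃ ρ, ρ = 1 - 2 * ε := ⟨_, rfl⟩
  have r0 : 0 ≤ ρ := by linarith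
  have r1 : ρ ≤ 1 := by linarith
  have s2 : E (fun x => T ε f x ^ 2) ≤ ρ ^ 2 := by
    have := spec_odd ho.2 (fun k => (ρ ^ k) ^ 2) (ρ ^ 2) fun k hk => by
      nlinarith [pow_le3 r0 r1 (show 1 ≤ k by omega), pow_nonneg r0 k]
    rw [E_T_sq, ← hρ]
    simp only [ho.1, E_const] at this
    linarith
  rw [← hρ] at h9 ⊢
  interval_cases r
  · have tot := E_mono fun x => pt8_NNine (T ε f x) ρ (pow_le_one₀ r0 r1)
    rw [E_mul, E_add _ (fun x => _ * T ε f x ^ 2), E_add _ (fun x => _ * P9 (T ε f x)), E_mul,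
      E_mul, E_const] at tot
    refine le_of_mul_le_mul_left (a := 126 + 168 * ρ ^ 2 + 27 * ρ ^ 4) ?_ (by positivity)
    have u1 := mul_le_mul_of_nonneg_left h9
      (show 0 ≤ 2 * (70 + 56 * ρ ^ 2 + 3 * ρ ^ 4) by positivity)
    have u2 := mul_le_mul_of_nonneg_left s2 (show 0 ≤
      2 * (1008 + 2688 * ρ ^ 2 + 3000 * ρ ^ 4 + 1008 * ρ ^ 6 + 168 * ρ ^ 8) by positivity)
    linarith
  · have e : ∀ t : ℝ, (1 + t) ^ 9 + (1 - t) ^ 9 = 2 + 2 * P9 t := fun t => by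
      unfold P9
      ring
    simp only [e, E_add, E_mul, E_const]
    linarith

theorem upto_nine
    (H : ∀ (n : ℕ) (f : (Fin n → Bool) → ℝ) (ρ : ℝ), OB f → 0 ≤ ρ → ρ ≤ 1 → FF ρ f ≤ P9 ρ)
    (r n : ℕ) (ε : ℝ) (hr : r ≤ 9) (h0 : 0 < ε) (h1 : ε < 1 / 2)
    (P : ((Fin n → Bool) → Bool) → ℝ)
    (hP : ∀ f : (Fin n → Bool) → Bool, P f = ∑ x : Fin n → Bool, ∑ y : Fin r → Fin n → Bool,
        (1/2 : ℝ) ^ n * (∏ i, ∏ j, (if y i j = x j then 1 - ε else ε)) *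
        (if ∀ i i', f (y i) = f (y i') then (1 : ℝ) else 0))
    (i : Fin n) (f : (Fin n → Bool) → Bool) (hf : ∀ x, f (fun j => !x j) = !f x) :
    P f ≤ P (fun x => x i) := by
  rcases le_or_gt r 7 with h7 | h7
  · exact main r n ε h7 h0 h1 P hP i f hf
  have hr0 : 0 < r := by omega
  have ho : OB fun y => sg (f y) := ⟨fun x => sg_sq _, fun x => by
    beta_reduce
    rw [hf, sg_not]
    ring⟩
  rw [hP f, hP fun x => x i, agree_eq ε f hr0, agree_eq ε (fun x => x i) hr0]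
  refine mul_le_mul_of_nonneg_left ((two_NNine h0 h1 ho
    (H n _ _ ho (by linarith) (by linarith)) h7 hr).trans (le_of_eq ?_)) (by positivity)
  rw [← E_const (n := n) ((1 + (1 - 2 * ε)) ^ r + (1 - (1 - 2 * ε)) ^ r)]
  refine E_congr fun x => ?_
  have := T_chi ε {i} x
  have e : chi {i} = fun y : Fin n → Bool => sg (y i) := by
    ext y; simp [chi]
  rw [e, card_singleton, pow_one] at this
  rw [this]
  beta_reduce
  rcases sq_eq_one_iff_of_ne_zero' (sg_sq (x i)) with h | h <;> rw [h]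
  · rw [mul_one]
  · rw [add_comm]
    congr 2 <;> ring

end Pool.Agent.MP_ebf981_lc.N9

end
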